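import Pool.Agent.OZ.ABU

/-! # Sums over a block of equidistant points: lower bound -/

open Finset

namespace Pool.Agent.OZ

section ABL

theorem abl_ge {w s δ : ℝ} (hδ : 0 < δ) (h : δ ^ 2 ≤ s ^ 2 + w ^ 2) : -|Real.log δ| ≤ abf w s := by
  have h1 := Real.log_le_log (by positivity) h
  rw [Real.log_pow] at h1
  push_cast at h1
  unfold abf
  linarith [neg_abs_le (Real.log δ)]

/-- the comparison function for the lower bound -/
noncomputable def abQ (w h D E s : ℝ) : ℝ :=
  if 0 < s then HC s w else if -h < s then HC (s + h) w + D else HC (s + h) w + E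

theorem abQ_step {w s h δ ρ B : ℝ} (hh : 0 < h) (hδ : 0 < δ) (hs : δ ^ 2 ≤ s ^ 2 + w ^ 2)
    (h1 : |s| ≤ ρ) (h2 : |s + h| ≤ ρ)
    (hB : 1 / 2 * Real.log (ρ ^ 2 + w ^ 2) ≤ B) (hB0 : 0 ≤ B) :
    abQ w h (h * |Real.log δ|) (2 * (h * |Real.log δ|) + h * B) s -
      abQ w h (h * |Real.log δ|) (2 * (h * |Real.log δ|) + h * B) (s - h) ≤ h * abf w s := by
  have hge : -(h * |Real.log δ|) ≤ h * abf w s := by
    have := mul_le_mul_of_nonneg_left (abl_ge hδ hs) hh.le
    linarith
  have hL : 0 ≤ h * |Real.log δ| := by positivity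
  unfold abQ
  by_cases c1 : 0 < s
  · rw [if_pos c1]
    by_cases c2 : 0 < s - h
    · rw [if_pos c2]
      have := abu_slope_le (w := w) (s := s - h) c2.le hh
      rwa [sub_add_cancel] at this
    · rw [if_neg c2, if_pos (by linarith), sub_add_cancel]
      linarith
  · rw [if_neg c1, if_neg (by linarith : ¬ 0 < s - h), if_neg (by linarith : ¬ -h < s - h)]
    rw [sub_add_cancel]
    by_cases c2 : -h < s
    · rw [if_pos c2]
      have := abu_cell_le (w := w) hh h1 h2 hB hB0
      linarith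
    · rw [if_neg c2]
      have := abu_slope_le (w := w) (s := -(s + h)) (by linarith) hh
      rw [show -(s + h) + h = -s by ring, HC_neg, HC_neg, abf_neg] at this
      linarith

theorem abQ_step_le {w s h L ρ B : ℝ} (hh : 0 < h) (hL : 0 ≤ L)
    (h1 : |s| ≤ ρ) (h2 : |s + h| ≤ ρ) (h3 : |s - h| ≤ ρ)
    (hB : 1 / 2 * Real.log (ρ ^ 2 + w ^ 2) ≤ B) (hB0 : 0 ≤ B) :
    abQ w h L (2 * L + h * B) s - abQ w h L (2 * L + h * B) (s - h) ≤ h * B := by
  have hhB : 0 ≤ h * B := by positivity
  unfold abQ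
  by_cases c1 : 0 < s
  · rw [if_pos c1]
    by_cases c2 : 0 < s - h
    · rw [if_pos c2]
      have := abu_cell_le (w := w) (s := s - h) hh h3 (by rw [sub_add_cancel]; exact h1) hB hB0
      rwa [sub_add_cancel] at this
    · rw [if_neg c2, if_pos (by linarith), sub_add_cancel]
      linarith
  · rw [if_neg c1, if_neg (by linarith : ¬ 0 < s - h), if_neg (by linarith : ¬ -h < s - h)]
    rw [sub_add_cancel]
    have := abu_cell_le (w := w) hh h1 h2 hB hB0
    by_cases c2 : -h < s
    · rw [if_pos c2]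
      linarith
    · rw [if_neg c2]
      linarith

/-- ABL: lower bound if the distances are at least `δ`; one index may be omitted -/
theorem blk_ge {h δ : ℝ} (hh : 0 < h) (hδ : 0 < δ) : ∃ C : ℝ, 0 < C ∧
    ∀ (A x w R : ℝ) (N : ℕ) (S : Finset ℕ),
    S ⊆ range N → N ≤ S.card + 1 → 2 ≤ R → |A| + N * h + |x| + |w| ≤ R →
    (∀ k ∈ S, δ ^ 2 ≤ (x - (A + k * h)) ^ 2 + w ^ 2) →
    (HC (x - A) w - HC (x - A - N * h) w) / h - C * Real.log R ≤
      ∑ k ∈ S, 1 / 2 * Real.log ((x - (A + k * h)) ^ 2 + w ^ 2) := by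
  have hl2 : 0 < Real.log 2 := Real.log_pos (by norm_num)
  have hl2h : 0 ≤ Real.log (2 + h) := Real.log_nonneg (by linarith)
  refine ⟨3 + (3 * Real.log (2 + h) + (2 / h + 2 * |Real.log δ|)) / Real.log 2, by positivity, ?_⟩
  intro A x w R N S hS hc hR hb hdist
  have hNh : 0 ≤ (N : ℝ) * h := by positivity
  have hlR : Real.log 2 ≤ Real.log R := Real.log_le_log (by norm_num) hR
  have hw : |w| ≤ R := by linarith [abs_nonneg A, abs_nonneg x]
  set B := Real.log R + Real.log (2 + h) with hBdef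
  have hB : 1 / 2 * Real.log ((R + h) ^ 2 + w ^ 2) ≤ B := ab_log_bound hh hR hw
  have hB0 : 0 ≤ B := by linarith
  set L := h * |Real.log δ| with hLdef
  have hL0 : 0 ≤ L := by positivity
  have hhB : 0 ≤ h * B := by positivity
  set s : ℕ → ℝ := fun k => x - (A + k * h) with hs
  have hs1 : ∀ k, s k - h = s (k + 1) := fun k => by simp only [hs]; push_cast; ring
  have hs0 : s 0 = x - A := by simp [hs]
  have hsN : s N = x - A - N * h := by simp only [hs]; ring
  have habs : ∀ k ≤ N, |s k| ≤ R := by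
    intro k hk
    have hk' : (k : ℝ) ≤ N := by exact_mod_cast hk
    have : (k : ℝ) * h ≤ N * h := mul_le_mul_of_nonneg_right hk' hh.le
    have h0 : 0 ≤ (k : ℝ) * h := by positivity
    simp only [hs]
    rw [abs_le]
    constructor
    · linarith [neg_abs_le x, le_abs_self A, abs_nonneg w]
    · linarith [neg_abs_le A, le_abs_self x, abs_nonneg w]
  have habs1 : ∀ k ≤ N, |s k + h| ≤ R + h := fun k hk =>
    (abs_add_le _ _).trans (by rw [abs_of_pos hh]; linarith [habs k hk])
  have habs2 : ∀ k ≤ N, |s k - h| ≤ R + h := fun k hk =>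
    (abs_sub _ _).trans (by rw [abs_of_pos hh]; linarith [habs k hk])
  set Q : ℝ → ℝ := abQ w h L (2 * L + h * B) with hQ
  have h1 : ∑ k ∈ S, (Q (s k) - Q (s (k + 1))) ≤
      h * ∑ k ∈ S, 1 / 2 * Real.log ((x - (A + k * h)) ^ 2 + w ^ 2) := by
    rw [mul_sum]
    refine sum_le_sum fun k hk => ?_
    have hkN : k ≤ N := (mem_range.1 (hS hk)).le
    have := abQ_step (w := w) (s := s k) (ρ := R + h) hh hδ (hdist k hk)
      (by linarith [habs k hkN]) (habs1 k hkN) hB hB0
    rw [hs1] at this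
    exact this
  have h2 : ∑ k ∈ range N, (Q (s k) - Q (s (k + 1))) - h * B ≤
      ∑ k ∈ S, (Q (s k) - Q (s (k + 1))) := by
    have e1 : ∑ k ∈ S, (h * B - (Q (s k) - Q (s (k + 1)))) ≤
        ∑ k ∈ range N, (h * B - (Q (s k) - Q (s (k + 1)))) := by
      refine sum_le_sum_of_subset_of_nonneg hS fun k hk _ => ?_
      have hkN : k ≤ N := (mem_range.1 hk).le
      have := abQ_step_le (w := w) (s := s k) (ρ := R + h) hh hL0
        (by linarith [habs k hkN]) (habs1 k hkN) (habs2 k hkN) hB hB0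
      rw [hs1] at this
      linarith
    rw [sum_sub_distrib, sum_sub_distrib (s := range N), sum_const, sum_const, card_range,
      nsmul_eq_mul, nsmul_eq_mul] at e1
    have e2 : (N : ℝ) ≤ S.card + 1 := by exact_mod_cast hc
    nlinarith
  have h3 : ∑ k ∈ range N, (Q (s k) - Q (s (k + 1))) = Q (s 0) - Q (s N) :=
    Finset.sum_range_sub' (fun k => Q (s k)) N
  have h4 : HC (s 0) w - 2 ≤ Q (s 0) := by
    have := abu_cell w (s 0) hh
    simp only [hQ, abQ]
    split_ifs with c1 c2
    · linarith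
    · linarith
    · linarith
  have h5 : Q (s N) ≤ HC (s N) w + (2 * L + 2 * (h * B)) := by
    have := abu_cell_le (w := w) (s := s N) (ρ := R + h) hh (by linarith [habs N le_rfl])
      (habs1 N le_rfl) hB hB0
    simp only [hQ, abQ]
    split_ifs with c1 c2
    · linarith
    · linarith
    · linarith
  have h6 : HC (x - A) w - HC (x - A - N * h) w - (2 + 3 * (h * B) + 2 * L) ≤
      h * ∑ k ∈ S, 1 / 2 * Real.log ((x - (A + k * h)) ^ 2 + w ^ 2) := by
    rw [← hsN, ← hs0]
    linarith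
  have h7 : (HC (x - A) w - HC (x - A - N * h) w) / h - (2 / h + 3 * B + 2 * |Real.log δ|) ≤
      ∑ k ∈ S, 1 / 2 * Real.log ((x - (A + k * h)) ^ 2 + w ^ 2) := by
    have : (HC (x - A) w - HC (x - A - N * h) w) / h - (2 / h + 3 * B + 2 * |Real.log δ|) =
        (HC (x - A) w - HC (x - A - N * h) w - (2 + 3 * (h * B) + 2 * L)) / h := by
      rw [hLdef]; field_simp
    rw [this, div_le_iff₀ hh]
    linarith
  have h8 : 2 / h + 3 * B + 2 * |Real.log δ| ≤
      (3 + (3 * Real.log (2 + h) + (2 / h + 2 * |Real.log δ|)) / Real.log 2) * Real.log R := by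
    have : 3 * Real.log (2 + h) + (2 / h + 2 * |Real.log δ|) ≤
        (3 * Real.log (2 + h) + (2 / h + 2 * |Real.log δ|)) / Real.log 2 * Real.log R := by
      rw [div_mul_eq_mul_div, le_div_iff₀ hl2]
      exact mul_le_mul_of_nonneg_left hlR (by positivity)
    rw [add_mul, hBdef]
    linarith
  linarith

end ABL

end Pool.Agent.OZ
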