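import Pool.Agent.OZ.AHCA

/-! # Sums over a block of equidistant points: upper bound -/

open Finset

namespace Pool.Agent.OZ

section ABU

/-- the integrand -/
noncomputable def abf (w s : ℝ) : ℝ := 1 / 2 * Real.log (s ^ 2 + w ^ 2)

theorem abf_neg (w s : ℝ) : abf w (-s) = abf w s := by
  unfold abf; rw [neg_sq]

theorem abf_mono {w s t : ℝ} (h0 : s ≠ 0 ∨ w ≠ 0) (hs : 0 ≤ s) (hst : s ≤ t) :
    abf w s ≤ abf w t := by
  unfold abf
  have hpos : 0 < s ^ 2 + w ^ 2 := by
    rcases h0 with h | h
    · positivity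
    · positivity
  have : s ^ 2 + w ^ 2 ≤ t ^ 2 + w ^ 2 := by nlinarith
  have := Real.log_le_log hpos this
  linarith

/-- mean value theorem on `[s, s + h]`, `0 ≤ s` -/
theorem abu_mvt (w : ℝ) {s h : ℝ} (hs : 0 ≤ s) (hh : 0 < h) :
    ∃ c, s < c ∧ c < s + h ∧ HC (s + h) w - HC s w = h * abf w c := by
  obtain ⟨c, hc, hc'⟩ := exists_hasDerivAt_eq_slope (fun x => HC x w) (fun x => abf w x)
    (show s < s + h by linarith) (continuous_HC_left w).continuousOn
    (fun x hx => hasDerivAt_HC (Or.inl (by have := hx.1; intro h0; rw [h0] at this; linarith)))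
  refine ⟨c, hc.1, hc.2, ?_⟩
  rw [hc']
  simp only [add_sub_cancel_left]
  rw [mul_div_cancel₀ _ hh.ne']

theorem abu_slope_ge {w s h : ℝ} (hs : 0 ≤ s) (hh : 0 < h) (h0 : s ≠ 0 ∨ w ≠ 0) :
    h * abf w s ≤ HC (s + h) w - HC s w := by
  obtain ⟨c, h1, h2, h3⟩ := abu_mvt w hs hh
  rw [h3]
  exact mul_le_mul_of_nonneg_left (abf_mono h0 hs h1.le) hh.le

theorem abu_slope_le {w s h : ℝ} (hs : 0 ≤ s) (hh : 0 < h) :
    HC (s + h) w - HC s w ≤ h * abf w (s + h) := by
  obtain ⟨c, h1, h2, h3⟩ := abu_mvt w hs hh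
  rw [h3]
  exact mul_le_mul_of_nonneg_left
    (abf_mono (Or.inl (by intro h0; rw [h0] at h1; linarith)) (by linarith) h2.le) hh.le

/-- `HC` is at least `-1` on the right half line -/
theorem abu_ge_neg_one {w s : ℝ} (hs : 0 ≤ s) : -1 ≤ HC s w := by
  rcases hs.eq_or_lt with rfl | hs
  · rw [HC_zero_left]; norm_num
  have h1 : s * Real.log s ≤ s / 2 * Real.log (s ^ 2 + w ^ 2) := by
    have : Real.log (s ^ 2) ≤ Real.log (s ^ 2 + w ^ 2) :=
      Real.log_le_log (by positivity) (by nlinarith [sq_nonneg w])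
    rw [Real.log_pow] at this
    push_cast at this
    nlinarith
  have h2 : 0 ≤ w * Real.arctan (s / w) := by
    rcases lt_trichotomy w 0 with hw | hw | hw
    · exact mul_nonneg_of_nonpos_of_nonpos hw.le
        (by
          have := Real.arctan_strictMono.monotone (div_nonpos_of_nonneg_of_nonpos hs.le hw.le)
          rwa [Real.arctan_zero] at this)
    · rw [hw]; simp
    · exact mul_nonneg hw.le (Real.arctan_nonneg.2 (by positivity))
  have h3 : 1 - s⁻¹ ≤ Real.log s := Real.one_sub_inv_le_log_of_pos hs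
  have h4 : s - 1 ≤ s * Real.log s := by
    have := mul_le_mul_of_nonneg_left h3 hs.le
    rwa [mul_sub, mul_one, mul_inv_cancel₀ hs.ne'] at this
  unfold HC
  linarith

/-- cells on the right half line -/
theorem abu_cell_right {w s h : ℝ} (hs : 0 ≤ s) (hh : 0 < h) :
    -1 ≤ HC (s + h) w - HC s w := by
  have hmono : MonotoneOn (fun y => HC (y + h) w - HC y w) (Set.Ici 0) := by
    have hd : ∀ y, 0 < y → HasDerivAt (fun y => HC (y + h) w - HC y w)
        (abf w (y + h) - abf w y) y := by
      intro y hy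
      have e1 : HasDerivAt (fun y => HC y w) (abf w (y + h)) (y + h) :=
        hasDerivAt_HC (Or.inl (by linarith [hy, hh] : y + h ≠ 0))
      have e2 : HasDerivAt (fun y => HC y w) (abf w y) y := hasDerivAt_HC (Or.inl hy.ne')
      exact (e1.comp_add_const y h).sub e2
    refine monotoneOn_of_deriv_nonneg (convex_Ici 0) ?_ ?_ ?_
    · exact (((continuous_HC_left w).comp (continuous_add_const h)).sub
        (continuous_HC_left w)).continuousOn
    · intro y hy
      rw [interior_Ici] at hy
      exact (hd y hy).differentiableAt.differentiableWithinAt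
    · intro y hy
      rw [interior_Ici] at hy
      rw [(hd y hy).deriv]
      have := abf_mono (w := w) (s := y) (t := y + h) (Or.inl (ne_of_gt hy)) (le_of_lt hy)
        (by linarith)
      linarith
  have h1 := hmono (Set.mem_Ici.2 le_rfl) (Set.mem_Ici.2 hs) hs
  simp only [zero_add, HC_zero_left, sub_zero] at h1
  linarith [abu_ge_neg_one (w := w) hh.le]

/-- lower bound for all cells -/
theorem abu_cell (w s : ℝ) {h : ℝ} (hh : 0 < h) : -2 ≤ HC (s + h) w - HC s w := by
  by_cases h1 : 0 ≤ s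
  · linarith [abu_cell_right (w := w) h1 hh]
  by_cases h2 : s + h ≤ 0
  · have := abu_cell_right (w := w) (s := -(s + h)) (by linarith) hh
    rw [show -(s + h) + h = -s by ring, HC_neg, HC_neg] at this
    linarith
  · have e1 := abu_ge_neg_one (w := w) (s := s + h) (by linarith)
    have e2 := abu_ge_neg_one (w := w) (s := -s) (by linarith)
    rw [HC_neg] at e2
    linarith

theorem abf_le {w s ρ B : ℝ} (hs : |s| ≤ ρ) (hB : 1 / 2 * Real.log (ρ ^ 2 + w ^ 2) ≤ B)
    (hB0 : 0 ≤ B) : abf w s ≤ B := by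
  by_cases h : 0 < s ^ 2 + w ^ 2
  · unfold abf
    have h1 : s ^ 2 ≤ ρ ^ 2 := sq_le_sq' (by linarith [neg_abs_le s]) ((le_abs_self s).trans hs)
    have := Real.log_le_log h (show s ^ 2 + w ^ 2 ≤ ρ ^ 2 + w ^ 2 by linarith)
    linarith
  · have : s ^ 2 + w ^ 2 = 0 := le_antisymm (not_lt.1 h) (by positivity)
    unfold abf
    rw [this, Real.log_zero]
    linarith

/-- upper bound for all cells -/
theorem abu_cell_le {w s h ρ B : ℝ} (hh : 0 < h) (h1 : |s| ≤ ρ) (h2 : |s + h| ≤ ρ)
    (hB : 1 / 2 * Real.log (ρ ^ 2 + w ^ 2) ≤ B) (hB0 : 0 ≤ B) :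
    HC (s + h) w - HC s w ≤ h * B := by
  by_cases c1 : 0 ≤ s
  · exact (abu_slope_le c1 hh).trans (mul_le_mul_of_nonneg_left (abf_le h2 hB hB0) hh.le)
  by_cases c2 : s + h ≤ 0
  · have := abu_slope_le (w := w) (s := -(s + h)) (by linarith) hh
    rw [show -(s + h) + h = -s by ring, HC_neg, HC_neg, abf_neg] at this
    have e := mul_le_mul_of_nonneg_left (abf_le h1 hB hB0) hh.le
    linarith
  · have e1 := abu_slope_le (w := w) (s := 0) (h := s + h) le_rfl (by linarith)
    have e2 := abu_slope_le (w := w) (s := 0) (h := -s) le_rfl (by linarith)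
    rw [zero_add, HC_zero_left, sub_zero] at e1 e2
    rw [HC_neg, abf_neg] at e2
    have e3 := mul_le_mul_of_nonneg_left (abf_le h2 hB hB0) (show 0 ≤ s + h by linarith)
    have e4 := mul_le_mul_of_nonneg_left (abf_le h1 hB hB0) (show 0 ≤ -s by linarith)
    nlinarith

/-- the comparison function for the upper bound -/
noncomputable def abP (w h s : ℝ) : ℝ :=
  if s < 0 then HC s w else if s = 0 then 1 else HC (s + h) w + 3

theorem abP_step (w s : ℝ) {h : ℝ} (hh : 0 < h) :
    h * abf w s ≤ abP w h s - abP w h (s - h) := by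
  rcases lt_trichotomy s 0 with hs | hs | hs
  · have e := abu_slope_ge (w := w) (s := -s) (by linarith) hh (Or.inl (by linarith))
    rw [abf_neg, show -s + h = -(s - h) by ring, HC_neg, HC_neg] at e
    unfold abP
    rw [if_pos hs, if_pos (by linarith)]
    linarith
  · subst hs
    unfold abP
    rw [if_neg (lt_irrefl _), if_pos rfl, if_pos (by linarith), zero_sub, HC_neg]
    by_cases hw : w = 0
    · subst hw
      have e := abu_ge_neg_one (w := 0) hh.le
      have : abf 0 0 = 0 := by unfold abf; simp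
      rw [this]
      linarith
    · have e := abu_slope_ge (w := w) (s := 0) le_rfl hh (Or.inr hw)
      rw [zero_add, HC_zero_left] at e
      linarith
  · have e := abu_slope_ge (w := w) (s := s) hs.le hh (Or.inl hs.ne')
    have e0 : abP w h s = HC (s + h) w + 3 := by
      unfold abP
      rw [if_neg (not_lt.2 hs.le), if_neg hs.ne']
    rw [e0]
    rcases lt_trichotomy (s - h) 0 with h1 | h1 | h1
    · have e1 := abu_cell w (s - h) hh
      rw [sub_add_cancel] at e1
      unfold abP
      rw [if_pos h1]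
      linarith
    · have e1 := abu_ge_neg_one (w := w) hs.le
      unfold abP
      rw [h1, if_neg (lt_irrefl _), if_pos rfl]
      linarith
    · unfold abP
      rw [if_neg (not_lt.2 h1.le), if_neg h1.ne', sub_add_cancel]
      linarith

theorem abP_step_ge (w s : ℝ) {h : ℝ} (hh : 0 < h) : -2 ≤ abP w h s - abP w h (s - h) := by
  rcases lt_trichotomy s 0 with hs | hs | hs
  · have e1 := abu_cell w (s - h) hh
    rw [sub_add_cancel] at e1
    unfold abP
    rw [if_pos hs, if_pos (by linarith)]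
    linarith
  · subst hs
    unfold abP
    rw [if_neg (lt_irrefl _), if_pos rfl, if_pos (by linarith), zero_sub, HC_neg]
    have e := abu_ge_neg_one (w := w) hh.le
    linarith
  · have e := abu_cell w s hh
    have e0 : abP w h s = HC (s + h) w + 3 := by
      unfold abP
      rw [if_neg (not_lt.2 hs.le), if_neg hs.ne']
    rw [e0]
    rcases lt_trichotomy (s - h) 0 with h1 | h1 | h1
    · have e1 := abu_cell w (s - h) hh
      rw [sub_add_cancel] at e1
      unfold abP
      rw [if_pos h1]
      linarith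
    · have e1 := abu_ge_neg_one (w := w) (s := s + h) (by linarith)
      unfold abP
      rw [h1, if_neg (lt_irrefl _), if_pos rfl]
      linarith
    · unfold abP
      rw [if_neg (not_lt.2 h1.le), if_neg h1.ne', sub_add_cancel]
      linarith

/-- a sum over all indices but at most one, when the steps are bounded below -/
theorem ab_sum_le {N : ℕ} {S : Finset ℕ} (hS : S ⊆ range N) (hc : N ≤ S.card + 1) (F : ℕ → ℝ)
    {c : ℝ} (hc0 : 0 ≤ c) (hF : ∀ k, -c ≤ F k) :
    ∑ k ∈ S, F k ≤ ∑ k ∈ range N, F k + c := by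
  have h1 : ∑ k ∈ S, (F k + c) ≤ ∑ k ∈ range N, (F k + c) :=
    sum_le_sum_of_subset_of_nonneg hS fun k _ _ => by linarith [hF k]
  rw [sum_add_distrib, sum_add_distrib, sum_const, sum_const, card_range, nsmul_eq_mul,
    nsmul_eq_mul] at h1
  have h2 : (N : ℝ) ≤ S.card + 1 := by exact_mod_cast hc
  nlinarith

theorem ab_log_bound {h R w : ℝ} (hh : 0 < h) (hR : 2 ≤ R) (hw : |w| ≤ R) :
    1 / 2 * Real.log ((R + h) ^ 2 + w ^ 2) ≤ Real.log R + Real.log (2 + h) := by
  have h1 : (R + h) ^ 2 + w ^ 2 ≤ (R * (2 + h)) ^ 2 := by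
    have : w ^ 2 ≤ R ^ 2 := sq_le_sq' (by linarith [neg_abs_le w]) ((le_abs_self w).trans hw)
    have h2 : R + h + R ≤ R * (2 + h) := by nlinarith
    have h3 : (R + h) ^ 2 + R ^ 2 ≤ (R + h + R) ^ 2 := by nlinarith
    have h4 : (R + h + R) ^ 2 ≤ (R * (2 + h)) ^ 2 := by gcongr
    linarith
  have h2 := Real.log_le_log (by positivity) h1
  rw [Real.log_pow, Real.log_mul (by positivity) (by positivity)] at h2
  push_cast at h2
  linarith

/-- ABU: upper bound, valid for all points; one index may be omitted -/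
theorem blk_le {h : ℝ} (hh : 0 < h) : ∃ C : ℝ, 0 < C ∧ ∀ (A x w R : ℝ) (N : ℕ) (S : Finset ℕ),
    S ⊆ range N → N ≤ S.card + 1 → 2 ≤ R → |A| + N * h + |x| + |w| ≤ R →
    ∑ k ∈ S, 1 / 2 * Real.log ((x - (A + k * h)) ^ 2 + w ^ 2) ≤
      (HC (x - A) w - HC (x - A - N * h) w) / h + C * Real.log R := by
  have hl2 : 0 < Real.log 2 := Real.log_pos (by norm_num)
  have hl2h : 0 ≤ Real.log (2 + h) := Real.log_nonneg (by linarith)
  refine ⟨1 + (Real.log (2 + h) + 7 / h) / Real.log 2, by positivity, ?_⟩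
  intro A x w R N S hS hc hR hb
  have hNh : 0 ≤ (N : ℝ) * h := by positivity
  have hlR : Real.log 2 ≤ Real.log R := Real.log_le_log (by norm_num) hR
  have hw : |w| ≤ R := by linarith [abs_nonneg A, abs_nonneg x]
  set B := Real.log R + Real.log (2 + h) with hBdef
  have hB : 1 / 2 * Real.log ((R + h) ^ 2 + w ^ 2) ≤ B := ab_log_bound hh hR hw
  have hB0 : 0 ≤ B := by linarith
  set s : ℕ → ℝ := fun k => x - (A + k * h) with hs
  have hs1 : ∀ k, s k - h = s (k + 1) := fun k => by simp only [hs]; push_cast; ring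
  have hs0 : s 0 = x - A := by simp [hs]
  have hsN : s N = x - A - N * h := by simp only [hs]; ring
  have habs0 : |s 0| ≤ R := by
    rw [hs0]
    linarith [abs_sub x A, abs_nonneg w]
  have h1 : h * ∑ k ∈ S, 1 / 2 * Real.log ((x - (A + k * h)) ^ 2 + w ^ 2) ≤
      ∑ k ∈ S, (abP w h (s k) - abP w h (s (k + 1))) := by
    rw [mul_sum]
    refine sum_le_sum fun k _ => ?_
    have := abP_step w (s k) hh
    rw [hs1] at this
    exact this
  have h2 := ab_sum_le hS hc (fun k => abP w h (s k) - abP w h (s (k + 1)))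
    (c := 2) (by norm_num) (fun k => by
      have := abP_step_ge w (s k) hh
      rwa [hs1] at this)
  have h3 : ∑ k ∈ range N, (abP w h (s k) - abP w h (s (k + 1))) =
      abP w h (s 0) - abP w h (s N) := Finset.sum_range_sub' (fun k => abP w h (s k)) N
  have h4 : abP w h (s 0) ≤ HC (s 0) w + h * B + 3 := by
    have hhB : 0 ≤ h * B := by positivity
    unfold abP
    split_ifs with c1 c2
    · linarith
    · rw [c2, HC_zero_left]; linarith
    · have := abu_cell_le (w := w) (s := s 0) (ρ := R + h) hh (by linarith)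
        ((abs_add_le _ _).trans (by rw [abs_of_pos hh]; linarith)) hB hB0
      linarith
  have h5 : HC (s N) w - 2 ≤ abP w h (s N) := by
    unfold abP
    split_ifs with c1 c2
    · linarith
    · rw [c2, HC_zero_left]; linarith
    · linarith [abu_cell w (s N) hh]
  have h6 : h * ∑ k ∈ S, 1 / 2 * Real.log ((x - (A + k * h)) ^ 2 + w ^ 2) ≤
      HC (x - A) w - HC (x - A - N * h) w + h * B + 7 := by
    rw [← hsN, ← hs0]
    linarith
  have h7 : ∑ k ∈ S, 1 / 2 * Real.log ((x - (A + k * h)) ^ 2 + w ^ 2) ≤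
      (HC (x - A) w - HC (x - A - N * h) w) / h + (B + 7 / h) := by
    have : (HC (x - A) w - HC (x - A - N * h) w) / h + (B + 7 / h) =
        (HC (x - A) w - HC (x - A - N * h) w + h * B + 7) / h := by field_simp; ring
    rw [this, le_div_iff₀ hh]
    linarith
  have h8 : B + 7 / h ≤ (1 + (Real.log (2 + h) + 7 / h) / Real.log 2) * Real.log R := by
    have : Real.log (2 + h) + 7 / h ≤ (Real.log (2 + h) + 7 / h) / Real.log 2 * Real.log R := by
      rw [div_mul_eq_mul_div, le_div_iff₀ hl2]
      exact mul_le_mul_of_nonneg_left hlR (by positivity)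
    rw [add_mul, one_mul]
    linarith
  linarith

end ABU

end Pool.Agent.OZ
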