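import Pool.Agent.OZ.ADefs

/-! # Archimedean part, ACAU: fourth derivatives at the integers -/

open Finset Polynomial

namespace Pool.Agent.OZ

theorem acau_diff (m : ℕ) (h : ℂ[X]) : DifferentiableOn ℂ (RC m h) {t | 0 < t.re} := by
  intro t ht
  have ht' : 0 < t.re := ht
  refine DifferentiableAt.differentiableWithinAt ?_
  unfold RC wC
  refine DifferentiableAt.mul (DifferentiableAt.div ?_ ?_ ?_) ?_
  · fun_prop
  · fun_prop
  · rw [Finset.prod_ne_zero_iff]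
    intro u _
    refine pow_ne_zero _ ?_
    intro h0
    have : (t + (u : ℂ)).re = 0 := by rw [h0]; simp
    simp at this
    have hu : (0 : ℝ) ≤ u := Nat.cast_nonneg u
    linarith
  · exact (h.differentiable.differentiableAt).comp t (by fun_prop)

theorem acau_ball {t : ℕ} {r : ℝ} (hr1 : r ≤ 1 / 4) {z : ℂ}
    (hz : ‖z - ((t : ℂ) + 1)‖ ≤ r) : 0 < z.re := by
  have h1 : |(z - ((t : ℂ) + 1)).re| ≤ 1 / 4 := (Complex.abs_re_le_norm _).trans (hz.trans hr1)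
  have h2 := (abs_le.mp h1).1
  simp at h2
  have ht : (0 : ℝ) ≤ t := Nat.cast_nonneg t
  linarith

theorem acau_gen {m : ℕ} (h : ℂ[X]) {t : ℕ} {B r : ℝ} (hr0 : 0 < r) (hr1 : r ≤ 1 / 4)
    (hB : ∀ z : ℂ, ‖z - ((t : ℂ) + 1)‖ = r → ‖RC m h z‖ ≤ B) :
    ‖iteratedDeriv 4 (RC m h) ((t : ℂ) + 1)‖ ≤ 24 * B / r ^ 4 := by
  have hcl : DiffContOnCl ℂ (RC m h) (Metric.ball ((t : ℂ) + 1) r) := by
    apply DifferentiableOn.diffContOnCl
    refine (acau_diff m h).mono ?_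
    rw [closure_ball _ hr0.ne']
    intro z hz
    rw [Metric.mem_closedBall, dist_eq_norm] at hz
    exact acau_ball hr1 hz
  have h1 := Complex.norm_iteratedDeriv_le_of_forall_mem_sphere_norm_le 4 hr0 hcl
    (C := B) (fun z hz => hB z (by rw [← dist_eq_norm]; exact hz))
  simpa [Nat.factorial] using h1

theorem cauchy4 {m : ℕ} (h : ℂ[X]) {t : ℕ} {B : ℝ}
    (hB : ∀ z : ℂ, ‖z - ((t : ℂ) + 1)‖ = 1 / 4 → ‖RC m h z‖ ≤ B) :
    ‖iteratedDeriv 4 (RC m h) ((t : ℂ) + 1) / 24‖ ≤ 256 * B := by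
  have h1 := acau_gen h (by norm_num) le_rfl hB
  rw [norm_div]
  have h2 : ‖(24 : ℂ)‖ = 24 := by norm_num
  rw [h2, div_le_iff₀ (by norm_num)]
  refine h1.trans (le_of_eq ?_)
  ring

theorem acau_fac {m : ℕ} (a : JJ m) (k : Fin (3 * m + 1)) (h : a.1 ≠ Sum.inl k) :
    (X - C (yN m (Sum.inl k))) ^ 5 ∣ PC m a := by
  unfold PC hb
  refine Dvd.dvd.mul_left ?_ _
  have h1 : (Sum.inl k : Ix m) ∈ univ.erase a.1 :=
    Finset.mem_erase.mpr ⟨h.symm, Finset.mem_univ _⟩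
  exact Finset.dvd_prod_of_mem (fun k' => (X - C (yN m k')) ^ mu m k') h1

/-- only one saturated node counts -/
theorem vanish {m : ℕ} (a b : JJ m) (k : Fin (3 * m + 1))
    (h : ¬ (a.1 = Sum.inl k ∧ b.1 = Sum.inl k)) :
    iteratedDeriv 4 (RC m (PC m a * PC m b)) (((k : ℕ) : ℂ) + 1) = 0 := by
  have hdvd : (X - C (yN m (Sum.inl k))) ^ 5 ∣ PC m a * PC m b := by
    by_cases ha : a.1 = Sum.inl k
    · exact Dvd.dvd.mul_left (acau_fac b k (fun hb => h ⟨ha, hb⟩)) _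
    · exact Dvd.dvd.mul_right (acau_fac a k ha) _
  obtain ⟨g, hg⟩ := hdvd
  obtain ⟨G, hG⟩ : ∃ G : ℂ → ℂ, G = fun t => wC m t * (4 * (t + (((k : ℕ) : ℂ) + 1) +
      (16 * m + 1))) ^ 5 * g.eval ((2 * t + (16 * m + 1)) ^ 2) := ⟨_, rfl⟩
  have hRC : ∀ t, RC m (PC m a * PC m b) t = (t - (((k : ℕ) : ℂ) + 1)) ^ 5 * G t := by
    intro t
    rw [hG, hg]
    unfold RC
    rw [eval_mul, eval_pow, eval_sub, eval_X, eval_C]
    have hy : yN m (Sum.inl k) = (2 * (((k : ℕ) : ℂ) + 1) + (16 * m + 1)) ^ 2 := by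
      unfold yN pos
      ring
    have h1 : (2 * t + (16 * m + 1)) ^ 2 - yN m (Sum.inl k) = (t - (((k : ℕ) : ℂ) + 1)) *
        (4 * (t + (((k : ℕ) : ℂ) + 1) + (16 * m + 1))) := by
      rw [hy]; ring
    rw [h1]
    ring
  have hGd : ContinuousOn G (Metric.closedBall (((k : ℕ) : ℂ) + 1) (1 / 4)) := by
    have h1 : DifferentiableOn ℂ (RC m 1) {t | 0 < t.re} := acau_diff m 1
    have h2 : RC m 1 = wC m := by
      funext t
      simp [RC]
    rw [h2] at h1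
    have h3 : ContinuousOn (wC m) (Metric.closedBall (((k : ℕ) : ℂ) + 1) (1 / 4)) := by
      refine h1.continuousOn.mono ?_
      intro z hz
      rw [Metric.mem_closedBall, dist_eq_norm] at hz
      exact acau_ball le_rfl hz
    rw [hG]
    refine ContinuousOn.mul (ContinuousOn.mul h3 ?_) ?_
    · fun_prop
    · exact (g.continuous.comp (by fun_prop)).continuousOn
  obtain ⟨M, hM⟩ := (isCompact_closedBall (((k : ℕ) : ℂ) + 1) (1 / 4)).exists_bound_of_continuousOn hGd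
  have hM0 : 0 ≤ M := (norm_nonneg _).trans (hM (((k : ℕ) : ℂ) + 1) (by simp))
  have key : ∀ r : ℝ, 0 < r → r ≤ 1 / 4 →
      ‖iteratedDeriv 4 (RC m (PC m a * PC m b)) (((k : ℕ) : ℂ) + 1)‖ ≤ 24 * M * r := by
    intro r hr0 hr1
    have h1 := acau_gen (m := m) (PC m a * PC m b) (t := (k : ℕ)) (B := r ^ 5 * M) hr0 hr1 (by
      intro z hz
      rw [hRC z, norm_mul, norm_pow, hz]
      refine mul_le_mul_of_nonneg_left (hM z ?_) (by positivity)
      rw [Metric.mem_closedBall, dist_eq_norm, hz]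
      exact hr1)
    refine h1.trans (le_of_eq ?_)
    field_simp
  rw [← norm_le_zero_iff]
  by_contra hcon
  push Not at hcon
  obtain ⟨N, hN⟩ : ∃ N : ℝ, N = ‖iteratedDeriv 4 (RC m (PC m a * PC m b)) (((k : ℕ) : ℂ) + 1)‖ :=
    ⟨_, rfl⟩
  rw [← hN] at hcon key
  have hr : 0 < min (1 / 4) (N / (48 * (M + 1))) := by positivity
  have h2 := key _ hr (min_le_left _ _)
  have h3 : 24 * M * min (1 / 4) (N / (48 * (M + 1))) ≤ 24 * M * (N / (48 * (M + 1))) :=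
    mul_le_mul_of_nonneg_left (min_le_right _ _) (by positivity)
  have h4 : 24 * M * (N / (48 * (M + 1))) ≤ N / 2 := by
    rw [mul_div_assoc', div_le_div_iff₀ (by positivity) (by norm_num)]
    nlinarith
  linarith

end Pool.Agent.OZ
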