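import Pool.Agent.OZ.Defs
import Pool.Agent.Zeta579.ContourK

/-!
# Archimedean part: definitions

The variable of the potentials is `z = t + L / 2 = t + 8 m + 1 / 2`, the poles are
`± (j + 1 / 2)`, `j ≤ 8 m`.
-/

open Finset

namespace Pool.Agent.OZ

/-- antiderivative in `x` of `½ log (x² + y²)` -/
noncomputable def HC (x y : ℝ) : ℝ :=
  x / 2 * Real.log (x ^ 2 + y ^ 2) - x + y * Real.arctan (x / y)

/-- potential of the poles (mass 136) -/
noncomputable def VC (x y : ℝ) : ℝ :=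
  2 * (HC (x + 8) y - HC (x - 8) y) + 4 * (HC (x + 7) y - HC (x - 7) y) +
    4 * (HC (x + 6) y - HC (x - 6) y)

/-- potential of the nodes (mass 68) -/
noncomputable def UC (x y : ℝ) : ℝ :=
  5 * (HC (x - 8) y - HC (x - 11) y + HC (x + 11) y - HC (x + 8) y) +
  7 / 3 * (HC (x - 11) y - HC (x - 14) y + HC (x + 14) y - HC (x + 11) y) +
  30 / 37 * (HC (y + 37 / 5) (x - 14) - HC (y - 37 / 5) (x - 14) +
    HC (y + 37 / 5) (x + 14) - HC (y - 37 / 5) (x + 14))

/-- the weighted potential -/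
noncomputable def gC (x y : ℝ) : ℝ := 2 * UC x y - VC x y - 2 * Real.pi * |y|

/-- the level -/
noncomputable def lev : ℝ := -603 / 10

/-- index of the nodes: saturated, real, on the line -/
abbrev Ix (m : ℕ) : Type := Fin (3 * m + 1) ⊕ (Fin (7 * m - 2) ⊕ (Fin (6 * m + 1) × Bool))

/-- positions of the nodes -/
noncomputable def pos (m : ℕ) : Ix m → ℂ
  | .inl k => 8 * m + 3 / 2 + (k : ℕ)
  | .inr (.inl j) => 11 * m + 2 + 3 / 7 * (j : ℕ)
  | .inr (.inr (l, true)) => 14 * m + 1 + 37 / 30 * ((l : ℕ) + 1 / 2) * Complex.I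
  | .inr (.inr (l, false)) => 14 * m + 1 - 37 / 30 * ((l : ℕ) + 1 / 2) * Complex.I

/-- multiplicities of the nodes -/
def mu (m : ℕ) : Ix m → ℕ
  | .inl _ => 5
  | .inr _ => 1

/-- nodes in the variable `Y` -/
noncomputable def yN (m : ℕ) (k : Ix m) : ℂ := (2 * pos m k) ^ 2

/-- index of the basis -/
abbrev JJ (m : ℕ) : Type := (k : Ix m) × Fin (mu m k)

/-- the Hermite basis -/
noncomputable def PC (m : ℕ) (a : JJ m) : Polynomial ℂ := hb (yN m) (mu m) a

/-- the complex functional -/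
noncomputable def F4C (m : ℕ) : Polynomial ℂ →ₗ[ℂ] ℂ :=
  Polynomial.lsum fun k => ((F4 (16 * m + 1) (pr m) (Polynomial.X ^ k) : ℝ) : ℂ) • LinearMap.id

/-- the weight on the complex plane -/
noncomputable def wC (m : ℕ) (t : ℂ) : ℂ :=
  (2 * t + (16 * m + 1)) / ∏ u ∈ range (16 * m + 2), (t + u) ^ pr m u

/-- the rational function -/
noncomputable def RC (m : ℕ) (h : Polynomial ℂ) (t : ℂ) : ℂ :=
  wC m t * h.eval ((2 * t + (16 * m + 1)) ^ 2)

/-- exponent of the row `a` -/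
noncomputable def rowE (m : ℕ) : Ix m → ℝ
  | .inl k => m * max (gC ((8 * m + 3 / 2 + (k : ℕ)) / m) 0) lev
  | .inr _ => m * lev

end Pool.Agent.OZ
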