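import Pool.Agent.OZ.ADefs

/-!
# Module AHCA: analysis of the function `HC`
-/

open Finset

namespace Pool.Agent.OZ

theorem HC_zero_left (y : ℝ) : HC 0 y = 0 := by
  simp [HC]

theorem HC_neg (x y : ℝ) : HC (-x) y = -HC x y := by
  unfold HC
  rw [neg_sq, neg_div y x, Real.arctan_neg]
  ring

theorem HC_neg_right (x y : ℝ) : HC x (-y) = HC x y := by
  unfold HC
  rw [neg_sq, div_neg, Real.arctan_neg]
  ring

theorem HC_zero_right (x : ℝ) : HC x 0 = x * Real.log |x| - x := by
  unfold HC
  have h : Real.log (x ^ 2 + 0 ^ 2) = 2 * Real.log |x| := by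
    rw [← Real.log_abs, Real.log_abs]
    have : x ^ 2 + 0 ^ 2 = |x| ^ 2 := by rw [sq_abs]; ring
    rw [this, Real.log_pow]
    norm_num
  rw [h]
  ring

theorem HC_scale {m : ℝ} (hm : 0 < m) (x y : ℝ) :
    HC (m * x) (m * y) = m * (HC x y + x * Real.log m) := by
  by_cases h : x ^ 2 + y ^ 2 = 0
  · have hx : x = 0 := by nlinarith [sq_nonneg x, sq_nonneg y]
    subst hx
    rw [mul_zero, HC_zero_left, HC_zero_left]
    ring
  · unfold HC
    have h1 : (m * x) ^ 2 + (m * y) ^ 2 = m ^ 2 * (x ^ 2 + y ^ 2) := by ring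
    have h2 : m * x / (m * y) = x / y := mul_div_mul_left x y hm.ne'
    rw [h1, h2, Real.log_mul (by positivity) h, Real.log_pow]
    push_cast
    ring

theorem hasDerivAt_HC {x y : ℝ} (h : x ≠ 0 ∨ y ≠ 0) :
    HasDerivAt (fun x => HC x y) (1 / 2 * Real.log (x ^ 2 + y ^ 2)) x := by
  have hpos : 0 < x ^ 2 + y ^ 2 := by
    rcases h with h | h
    · have := sq_nonneg y
      positivity
    · have := sq_nonneg x
      positivity
  have h1 : HasDerivAt (fun x : ℝ => x ^ 2 + y ^ 2) (2 * x) x := by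
    have := (hasDerivAt_pow 2 x).add_const (y ^ 2)
    simpa using this
  have h2 : HasDerivAt (fun x : ℝ => Real.log (x ^ 2 + y ^ 2)) (2 * x / (x ^ 2 + y ^ 2)) x :=
    h1.log hpos.ne'
  have h3 : HasDerivAt (fun x : ℝ => x / 2 * Real.log (x ^ 2 + y ^ 2))
      (1 / 2 * Real.log (x ^ 2 + y ^ 2) + x / 2 * (2 * x / (x ^ 2 + y ^ 2))) x :=
    ((hasDerivAt_id x).div_const 2).mul h2
  by_cases hy : y = 0
  · subst hy
    have hx : x ≠ 0 := by
      rcases h with h | h
      · exact h
      · exact absurd rfl h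
    have h4 := h3.sub (hasDerivAt_id x)
    have h5 : HasDerivAt (fun x => HC x 0)
        (1 / 2 * Real.log (x ^ 2 + 0 ^ 2) + x / 2 * (2 * x / (x ^ 2 + 0 ^ 2)) - 1) x := by
      have e : (fun x : ℝ => HC x 0) = fun x => x / 2 * Real.log (x ^ 2 + 0 ^ 2) - id x := by
        funext u
        unfold HC
        simp
      rw [e]
      exact h4
    have e2 : 1 / 2 * Real.log (x ^ 2 + 0 ^ 2) =
        1 / 2 * Real.log (x ^ 2 + 0 ^ 2) + x / 2 * (2 * x / (x ^ 2 + 0 ^ 2)) - 1 := by
      have e3 : x / 2 * (2 * x / (x ^ 2 + 0 ^ 2)) = 1 := by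
        field_simp
        ring
      rw [e3]
      ring
    rw [e2]
    exact h5
  · have h4 : HasDerivAt (fun x : ℝ => x / y) (1 / y) x := (hasDerivAt_id x).div_const y
    have h5 := (h4.arctan).const_mul y
    have h6 := (h3.sub (hasDerivAt_id x)).add h5
    have h7 : HasDerivAt (fun x => HC x y) (1 / 2 * Real.log (x ^ 2 + y ^ 2) +
        x / 2 * (2 * x / (x ^ 2 + y ^ 2)) - 1 + y * (1 / (1 + (x / y) ^ 2) * (1 / y))) x := h6
    have e : 1 / 2 * Real.log (x ^ 2 + y ^ 2) = 1 / 2 * Real.log (x ^ 2 + y ^ 2) +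
        x / 2 * (2 * x / (x ^ 2 + y ^ 2)) - 1 + y * (1 / (1 + (x / y) ^ 2) * (1 / y)) := by
      have e1 : y * (1 / (1 + (x / y) ^ 2) * (1 / y)) = y ^ 2 / (x ^ 2 + y ^ 2) := by
        have : 1 + (x / y) ^ 2 = (x ^ 2 + y ^ 2) / y ^ 2 := by
          field_simp
          ring
        rw [this]
        field_simp
      rw [e1]
      field_simp
      ring
    rw [e]
    exact h7

theorem hasDerivAt_HC_right {y : ℝ} (x : ℝ) (hy : y ≠ 0) :
    HasDerivAt (fun y => HC x y) (Real.arctan (x / y)) y := by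
  have hpos : 0 < x ^ 2 + y ^ 2 := by
    have := sq_nonneg x
    positivity
  have h1 : HasDerivAt (fun y : ℝ => x ^ 2 + y ^ 2) (2 * y) y := by
    have := (hasDerivAt_pow 2 y).const_add (x ^ 2)
    simpa using this
  have h2 : HasDerivAt (fun y : ℝ => Real.log (x ^ 2 + y ^ 2)) (2 * y / (x ^ 2 + y ^ 2)) y :=
    h1.log hpos.ne'
  have h3 := (h2.const_mul (x / 2)).sub_const x
  have h4 : HasDerivAt (fun y : ℝ => x / y) (-x / y ^ 2) y := by
    have h := (hasDerivAt_inv hy).const_mul x
    have e : -x / y ^ 2 = x * -(y ^ 2)⁻¹ := by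
      field_simp
    rw [e]
    exact h
  have h5 := (hasDerivAt_id y).mul h4.arctan
  have h6 := h3.add h5
  have h7 : HasDerivAt (fun y => HC x y) (x / 2 * (2 * y / (x ^ 2 + y ^ 2)) +
      (1 * Real.arctan (x / y) + y * (1 / (1 + (x / y) ^ 2) * (-x / y ^ 2)))) y := h6
  have e : Real.arctan (x / y) = x / 2 * (2 * y / (x ^ 2 + y ^ 2)) +
      (1 * Real.arctan (x / y) + y * (1 / (1 + (x / y) ^ 2) * (-x / y ^ 2))) := by
    have e1 : y * (1 / (1 + (x / y) ^ 2) * (-x / y ^ 2)) = -(x * y) / (x ^ 2 + y ^ 2) := by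
      have : 1 + (x / y) ^ 2 = (x ^ 2 + y ^ 2) / y ^ 2 := by
        field_simp
        ring
      rw [this]
      field_simp
    rw [e1]
    field_simp
    ring
  rw [e]
  exact h7

theorem continuous_HC_left (y : ℝ) : Continuous fun x => HC x y := by
  by_cases hy : y = 0
  · subst hy
    have e : (fun x => HC x 0) = fun x => x * Real.log x - x := by
      funext x
      rw [HC_zero_right, Real.log_abs]
    rw [e]
    exact Real.continuous_mul_log.sub continuous_id
  · rw [continuous_iff_continuousAt]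
    intro x
    exact (hasDerivAt_HC (Or.inr hy)).continuousAt

theorem continuous_HC_right (x : ℝ) : Continuous fun y => HC x y := by
  rw [continuous_iff_continuousAt]
  intro y
  by_cases hy : y = 0
  · subst hy
    by_cases hx : x = 0
    · subst hx
      have e : (fun y => HC 0 y) = fun _ => (0 : ℝ) := by
        funext y
        rw [HC_zero_left]
      rw [e]
      exact continuousAt_const
    · have h1 : ContinuousAt (fun y : ℝ => x / 2 * Real.log (x ^ 2 + y ^ 2) - x) 0 := by
        have h2 : ContinuousAt (fun y : ℝ => x ^ 2 + y ^ 2) 0 := by fun_prop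
        have h3 : ContinuousAt (fun y : ℝ => Real.log (x ^ 2 + y ^ 2)) 0 :=
          h2.log (by positivity)
        exact (continuousAt_const.mul h3).sub continuousAt_const
      have h4 : ContinuousAt (fun y : ℝ => y * Real.arctan (x / y)) 0 := by
        have h0 : (fun y : ℝ => y * Real.arctan (x / y)) 0 = 0 := by simp
        unfold ContinuousAt
        rw [h0]
        have h5 : Filter.Tendsto (fun y : ℝ => 2 * |y|) (nhds 0) (nhds 0) := by
          have : ContinuousAt (fun y : ℝ => 2 * |y|) 0 := by fun_prop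
          simpa [ContinuousAt] using this
        refine squeeze_zero_norm (fun y => ?_) h5
        rw [norm_mul, Real.norm_eq_abs, Real.norm_eq_abs, mul_comm]
        refine mul_le_mul_of_nonneg_right ?_ (abs_nonneg y)
        have h6 := Real.arctan_lt_pi_div_two (x / y)
        have h7 := Real.neg_pi_div_two_lt_arctan (x / y)
        have h8 := Real.pi_lt_four
        rw [abs_le]
        constructor <;> linarith
      exact h1.add h4
  · exact (hasDerivAt_HC_right x hy).continuousAt

private theorem ahca_F {a b : ℝ} (ha : 0 ≤ a) (hab : a ≤ b) :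
    -1 ≤ (b * Real.log b - b) - (a * Real.log a - a) := by
  rcases ha.eq_or_lt with rfl | ha'
  · rcases hab.eq_or_lt with h | h
    · rw [← h]; simp
    · have h1 : 1 - 1 / b ≤ Real.log b := by
        have := Real.one_sub_inv_le_log_of_pos h
        simpa using this
      have h2 : b * (1 - 1 / b) ≤ b * Real.log b := mul_le_mul_of_nonneg_left h1 h.le
      have h3 : b * (1 - 1 / b) = b - 1 := by field_simp
      simp
      linarith
  · have hb : 0 < b := lt_of_lt_of_le ha' hab
    have h1 : 1 - a / b ≤ Real.log (b / a) := by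
      have := Real.one_sub_inv_le_log_of_pos (div_pos hb ha')
      simpa using this
    rw [Real.log_div hb.ne' ha'.ne'] at h1
    have h2 : b * (1 - a / b) ≤ b * (Real.log b - Real.log a) :=
      mul_le_mul_of_nonneg_left h1 hb.le
    have h3 : b * (1 - a / b) = b - a := by field_simp
    rcases le_or_gt 1 a with h | h
    · have h4 : 0 ≤ Real.log a := Real.log_nonneg h
      have h5 : 0 ≤ (b - a) * Real.log a := mul_nonneg (by linarith) h4
      nlinarith
    · have h4 : Real.log a ≤ 0 := Real.log_nonpos ha h.le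
      have h5 : a * Real.log a ≤ 0 := mul_nonpos_of_nonneg_of_nonpos ha h4
      have h6 : 1 - 1 / b ≤ Real.log b := by
        have := Real.one_sub_inv_le_log_of_pos hb
        simpa using this
      have h7 : b * (1 - 1 / b) ≤ b * Real.log b := mul_le_mul_of_nonneg_left h6 hb.le
      have h8 : b * (1 - 1 / b) = b - 1 := by field_simp
      linarith

private theorem ahca_lo {a b : ℝ} (y : ℝ) (ha : 0 ≤ a) (hab : a ≤ b) :
    -1 ≤ HC b y - HC a y := by
  have hF := ahca_F ha hab
  have hmono : MonotoneOn (fun u => HC u y - (u * Real.log u - u)) (Set.Icc a b) := by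
    apply monotoneOn_of_deriv_nonneg (convex_Icc a b)
    · exact ((continuous_HC_left y).sub (Real.continuous_mul_log.sub continuous_id)).continuousOn
    · intro u hu
      rw [interior_Icc] at hu
      have hu0 : 0 < u := lt_of_le_of_lt ha hu.1
      have h1 := hasDerivAt_HC (y := y) (Or.inl hu0.ne' : u ≠ 0 ∨ y ≠ 0)
      have h2 := (Real.hasDerivAt_mul_log hu0.ne').sub (hasDerivAt_id u)
      exact (h1.sub h2).differentiableAt.differentiableWithinAt
    · intro u hu
      rw [interior_Icc] at hu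
      have hu0 : 0 < u := lt_of_le_of_lt ha hu.1
      have h1 := hasDerivAt_HC (y := y) (Or.inl hu0.ne' : u ≠ 0 ∨ y ≠ 0)
      have h2 := (Real.hasDerivAt_mul_log hu0.ne').sub (hasDerivAt_id u)
      have h3 := (h1.sub h2).deriv
      have h4 : Real.log (u ^ 2) ≤ Real.log (u ^ 2 + y ^ 2) :=
        Real.log_le_log (by positivity) (by nlinarith [sq_nonneg y])
      rw [Real.log_pow] at h4
      push_cast at h4
      have h5 : deriv (fun u => HC u y - (u * Real.log u - u)) u =
          1 / 2 * Real.log (u ^ 2 + y ^ 2) - (Real.log u + 1 - 1) := h3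
      rw [h5]
      linarith
  have h := hmono (Set.left_mem_Icc.2 hab) (Set.right_mem_Icc.2 hab) hab
  simp only at h
  linarith

private theorem ahca_up {a b M : ℝ} (y : ℝ) (ha : 0 ≤ a) (hab : a ≤ b)
    (hM : ∀ u, 0 < u → u ≤ b → 1 / 2 * Real.log (u ^ 2 + y ^ 2) ≤ M) :
    HC b y - HC a y ≤ M * (b - a) := by
  refine Convex.image_sub_le_mul_sub_of_deriv_le (convex_Icc a b)
    (continuous_HC_left y).continuousOn ?_ ?_ a (Set.left_mem_Icc.2 hab) b
    (Set.right_mem_Icc.2 hab) hab
  · intro u hu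
    rw [interior_Icc] at hu
    have hu0 : 0 < u := lt_of_le_of_lt ha hu.1
    exact (hasDerivAt_HC (y := y) (Or.inl hu0.ne')).differentiableAt.differentiableWithinAt
  · intro u hu
    rw [interior_Icc] at hu
    have hu0 : 0 < u := lt_of_le_of_lt ha hu.1
    rw [(hasDerivAt_HC (y := y) (Or.inl hu0.ne')).deriv]
    exact hM u hu0 hu.2.le

private theorem ahca_ord {x x' y R : ℝ} (hxx : x' ≤ x) (hx3 : x - x' ≤ 3) (hx : |x| ≤ R + 3)
    (hx' : |x'| ≤ R + 3) (hy : |y| ≤ R) (hR : 2 ≤ R) :
    -2 ≤ HC x y - HC x' y ∧ HC x y - HC x' y ≤ 15 / 2 * Real.log R := by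
  have hlogR : 0 < Real.log R := Real.log_pos (by linarith)
  have hM : ∀ u : ℝ, |u| ≤ R + 3 → 1 / 2 * Real.log (u ^ 2 + y ^ 2) ≤ 5 / 2 * Real.log R := by
    intro u hu
    by_cases h0 : u ^ 2 + y ^ 2 = 0
    · rw [h0, Real.log_zero]
      linarith
    · have hpos : 0 < u ^ 2 + y ^ 2 :=
        lt_of_le_of_ne (by positivity) (Ne.symm h0)
      have h1 : u ^ 2 ≤ (R + 3) ^ 2 := by
        rw [← sq_abs u]
        exact pow_le_pow_left₀ (abs_nonneg u) hu 2
      have h2 : y ^ 2 ≤ R ^ 2 := by
        rw [← sq_abs y]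
        exact pow_le_pow_left₀ (abs_nonneg y) hy 2
      have h3 : u ^ 2 + y ^ 2 ≤ R ^ 5 := by
        have h4 : (R + 3) ^ 2 + R ^ 2 ≤ 8 * R ^ 2 := by nlinarith
        have h5 : 8 * R ^ 2 ≤ R ^ 3 * R ^ 2 := by
          refine mul_le_mul_of_nonneg_right ?_ (by positivity)
          have : (2 : ℝ) ^ 3 ≤ R ^ 3 := pow_le_pow_left₀ (by norm_num) hR 3
          linarith
        calc u ^ 2 + y ^ 2 ≤ (R + 3) ^ 2 + R ^ 2 := by linarith
          _ ≤ 8 * R ^ 2 := h4
          _ ≤ R ^ 3 * R ^ 2 := h5
          _ = R ^ 5 := by ring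
      have h6 := Real.log_le_log hpos h3
      rw [Real.log_pow] at h6
      push_cast at h6
      linarith
  have hup : ∀ a b : ℝ, 0 ≤ a → a ≤ b → b ≤ R + 3 →
      HC b y - HC a y ≤ 5 / 2 * Real.log R * (b - a) := by
    intro a b ha hab hb
    refine ahca_up y ha hab fun u hu0 hub => hM u ?_
    rw [abs_of_pos hu0]
    linarith
  have hx1 := abs_le.1 hx
  have hx2 := abs_le.1 hx'
  rcases le_total 0 x' with h | h
  · have h1 := ahca_lo y h hxx
    have h2 := hup x' x h hxx hx1.2
    refine ⟨by linarith, h2.trans ?_⟩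
    nlinarith
  · rcases le_total 0 x with h' | h'
    · have h1 := ahca_lo y le_rfl h'
      have h2 := ahca_lo y le_rfl (neg_nonneg.2 h)
      have h3 := hup 0 x le_rfl h' hx1.2
      have h4 := hup 0 (-x') le_rfl (neg_nonneg.2 h) (by linarith)
      rw [HC_zero_left] at h1 h2 h3 h4
      rw [HC_neg] at h2 h4
      refine ⟨by linarith, ?_⟩
      nlinarith
    · have h1 := ahca_lo y (neg_nonneg.2 h') (neg_le_neg hxx)
      have h2 := hup (-x) (-x') (neg_nonneg.2 h') (neg_le_neg hxx) (by linarith)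
      rw [HC_neg, HC_neg] at h1 h2
      refine ⟨by linarith, ?_⟩
      nlinarith

theorem HC_lip : ∃ C : ℝ, 0 < C ∧ ∀ x x' y R : ℝ, |x - x'| ≤ 3 → |x| ≤ R → |y| ≤ R → 2 ≤ R →
    |HC x y - HC x' y| ≤ C * Real.log R := by
  refine ⟨15 / 2, by norm_num, ?_⟩
  intro x x' y R h3 hx hy hR
  have hlog2 : Real.log 2 ≤ Real.log R := Real.log_le_log (by norm_num) hR
  have hl2 := Real.log_two_gt_d9
  have h3' := abs_le.1 h3
  have hx1 := abs_le.1 hx
  have hx' : |x'| ≤ R + 3 := by
    rw [abs_le]
    constructor <;> linarith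
  have hxR : |x| ≤ R + 3 := by linarith
  rcases le_total x' x with h | h
  · obtain ⟨h1, h2⟩ := ahca_ord h (by linarith) hxR hx' hy hR
    rw [abs_le]
    constructor
    · linarith
    · exact h2
  · obtain ⟨h1, h2⟩ := ahca_ord h (by linarith) hx' hxR hy hR
    rw [abs_le]
    constructor
    · linarith
    · linarith

private theorem ahca_right {a b : ℝ} (x : ℝ) (ha : 0 ≤ a) (hab : a ≤ b) :
    |HC x b - HC x a| ≤ 2 * (b - a) := by
  have hd : ∀ u ∈ interior (Set.Icc a b), 0 < u := by
    intro u hu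
    rw [interior_Icc] at hu
    exact lt_of_le_of_lt ha hu.1
  have hdiff : DifferentiableOn ℝ (fun y => HC x y) (interior (Set.Icc a b)) := fun u hu =>
    (hasDerivAt_HC_right x (hd u hu).ne').differentiableAt.differentiableWithinAt
  have h8 := Real.pi_lt_four
  have h1 := Convex.image_sub_le_mul_sub_of_deriv_le (convex_Icc a b)
    (continuous_HC_right x).continuousOn hdiff (C := 2) (fun u hu => by
      rw [(hasDerivAt_HC_right x (hd u hu).ne').deriv]
      linarith [Real.arctan_lt_pi_div_two (x / u)]) a (Set.left_mem_Icc.2 hab) b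
    (Set.right_mem_Icc.2 hab) hab
  have h2 := Convex.mul_sub_le_image_sub_of_le_deriv (convex_Icc a b)
    (continuous_HC_right x).continuousOn hdiff (C := -2) (fun u hu => by
      rw [(hasDerivAt_HC_right x (hd u hu).ne').deriv]
      linarith [Real.neg_pi_div_two_lt_arctan (x / u)]) a (Set.left_mem_Icc.2 hab) b
    (Set.right_mem_Icc.2 hab) hab
  rw [abs_le]
  constructor
  · linarith
  · exact h1

theorem HC_lip_right (x y y' : ℝ) : |HC x y - HC x y'| ≤ 2 * |y - y'| := by
  have habs : ∀ y, HC x y = HC x |y| := by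
    intro y
    rcases le_total 0 y with h | h
    · rw [abs_of_nonneg h]
    · rw [abs_of_nonpos h, HC_neg_right]
  rw [habs y, habs y']
  have h1 : abs (HC x (abs y) - HC x (abs y')) ≤ 2 * abs (abs y - abs y') := by
    rcases le_total (abs y') (abs y) with h | h
    · rw [abs_of_nonneg (sub_nonneg.2 h)]
      exact ahca_right x (abs_nonneg y') h
    · rw [abs_sub_comm, abs_sub_comm (abs y), abs_of_nonneg (sub_nonneg.2 h)]
      exact ahca_right x (abs_nonneg y) h
  have h2 : abs (abs y - abs y') ≤ abs (y - y') := abs_abs_sub_abs_le y y'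
  linarith

end Pool.Agent.OZ
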