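import Pool.Agent.OZ.ADefs
import Pool.Agent.OZ.AHCA

/-!
# Module AHCB: scaling of the potentials, moving the point
-/

open Finset

namespace Pool.Agent.OZ

private theorem ahcb_sc {m : ℝ} (hm : 0 < m) (x y c : ℝ) :
    m * HC (x / m + c) (y / m) = HC (x + c * m) y - (x + c * m) * Real.log m := by
  have h := HC_scale hm (x / m + c) (y / m)
  have e1 : m * (x / m + c) = x + c * m := by field_simp
  have e2 : m * (y / m) = y := by field_simp
  rw [e1, e2] at h
  rw [h, ← e1]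
  ring

private theorem ahcb_sc' {m : ℝ} (hm : 0 < m) (x y c d : ℝ) :
    m * HC (x / m + c) (y / m + d) = HC (x + c * m) (y + d * m) - (x + c * m) * Real.log m := by
  have h := HC_scale hm (x / m + c) (y / m + d)
  have e1 : m * (x / m + c) = x + c * m := by field_simp
  have e2 : m * (y / m + d) = y + d * m := by field_simp
  rw [e1, e2] at h
  rw [h, ← e1]
  ring

/-- unscaled form of the potential of the poles -/
theorem VC_scale {m : ℝ} (hm : 0 < m) (x y : ℝ) :
    m * VC (x / m) (y / m) + 136 * m * Real.log m =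
      2 * (HC (x + 8 * m) y - HC (x - 8 * m) y) + 4 * (HC (x + 7 * m) y - HC (x - 7 * m) y) +
        4 * (HC (x + 6 * m) y - HC (x - 6 * m) y) := by
  have h1 := ahcb_sc hm x y 8
  have h2 := ahcb_sc hm x y (-8)
  have h3 := ahcb_sc hm x y 7
  have h4 := ahcb_sc hm x y (-7)
  have h5 := ahcb_sc hm x y 6
  have h6 := ahcb_sc hm x y (-6)
  rw [neg_mul, ← sub_eq_add_neg, ← sub_eq_add_neg] at h2 h4 h6
  have e : m * VC (x / m) (y / m) =
      2 * (m * HC (x / m + 8) (y / m) - m * HC (x / m - 8) (y / m)) +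
      4 * (m * HC (x / m + 7) (y / m) - m * HC (x / m - 7) (y / m)) +
      4 * (m * HC (x / m + 6) (y / m) - m * HC (x / m - 6) (y / m)) := by
    unfold VC
    ring
  rw [e, h1, h2, h3, h4, h5, h6]
  ring

/-- unscaled form of the potential of the nodes -/
theorem UC_scale {m : ℝ} (hm : 0 < m) (x y : ℝ) :
    m * UC (x / m) (y / m) + 68 * m * Real.log m =
      5 * (HC (x - 8 * m) y - HC (x - 11 * m) y + HC (x + 11 * m) y - HC (x + 8 * m) y) +
      7 / 3 * (HC (x - 11 * m) y - HC (x - 14 * m) y + HC (x + 14 * m) y - HC (x + 11 * m) y) +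
      30 / 37 * (HC (y + 37 / 5 * m) (x - 14 * m) - HC (y - 37 / 5 * m) (x - 14 * m) +
        HC (y + 37 / 5 * m) (x + 14 * m) - HC (y - 37 / 5 * m) (x + 14 * m)) := by
  have h1 := ahcb_sc hm x y 8
  have h2 := ahcb_sc hm x y (-8)
  have h3 := ahcb_sc hm x y 11
  have h4 := ahcb_sc hm x y (-11)
  have h5 := ahcb_sc hm x y 14
  have h6 := ahcb_sc hm x y (-14)
  have k1 := ahcb_sc' hm y x (37 / 5) (-14)
  have k2 := ahcb_sc' hm y x (-(37 / 5)) (-14)
  have k3 := ahcb_sc' hm y x (37 / 5) 14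
  have k4 := ahcb_sc' hm y x (-(37 / 5)) 14
  rw [neg_mul, ← sub_eq_add_neg, ← sub_eq_add_neg] at h2 h4 h6
  rw [neg_mul, ← sub_eq_add_neg, ← sub_eq_add_neg] at k1
  rw [neg_mul, neg_mul, ← sub_eq_add_neg, ← sub_eq_add_neg, ← sub_eq_add_neg,
    ← sub_eq_add_neg] at k2
  rw [neg_mul, ← sub_eq_add_neg, ← sub_eq_add_neg] at k4
  have e : m * UC (x / m) (y / m) =
      5 * (m * HC (x / m - 8) (y / m) - m * HC (x / m - 11) (y / m) +
        m * HC (x / m + 11) (y / m) - m * HC (x / m + 8) (y / m)) +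
      7 / 3 * (m * HC (x / m - 11) (y / m) - m * HC (x / m - 14) (y / m) +
        m * HC (x / m + 14) (y / m) - m * HC (x / m + 11) (y / m)) +
      30 / 37 * (m * HC (y / m + 37 / 5) (x / m - 14) - m * HC (y / m - 37 / 5) (x / m - 14) +
        m * HC (y / m + 37 / 5) (x / m + 14) - m * HC (y / m - 37 / 5) (x / m + 14)) := by
    unfold UC
    ring
  rw [e, h1, h2, h3, h4, h5, h6, k1, k2, k3, k4]
  ring

private theorem ahcb_move : ∃ C : ℝ, 0 < C ∧ ∀ x x' y y' R : ℝ, |x - x'| ≤ 3 → |y - y'| ≤ 3 →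
    |x| ≤ R → |y| ≤ R → 2 ≤ R → |HC x y - HC x' y'| ≤ C * Real.log R := by
  obtain ⟨C, hC, h⟩ := HC_lip
  refine ⟨C + 9, by linarith, ?_⟩
  intro x x' y y' R hx hy hxR hyR hR
  have h1 := h x x' y R hx hxR hyR hR
  have h2 := HC_lip_right x' y y'
  have hlog2 : Real.log 2 ≤ Real.log R := Real.log_le_log (by norm_num) hR
  have hl2 := Real.log_two_gt_d9
  calc |HC x y - HC x' y'| = |(HC x y - HC x' y) + (HC x' y - HC x' y')| := by ring_nf
    _ ≤ |HC x y - HC x' y| + |HC x' y - HC x' y'| := abs_add_le _ _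
    _ ≤ (C + 9) * Real.log R := by nlinarith

/-- moving the point -/
theorem pot_shift : ∃ C : ℝ, 0 < C ∧ ∀ m x x' y y' : ℝ, 1 ≤ m → |x - x'| ≤ 3 → |y - y'| ≤ 3 →
    |m * (2 * UC (x / m) (y / m) - VC (x / m) (y / m)) -
      m * (2 * UC (x' / m) (y' / m) - VC (x' / m) (y' / m))| ≤
        C * Real.log (m + 1 + |x| + |y|) := by
  obtain ⟨C, hC, h⟩ := ahcb_move
  refine ⟨500 * C, by positivity, ?_⟩
  intro m x x' y y' hm hx hy
  have hm0 : 0 < m := by linarith
  have hS2 : 2 ≤ m + 1 + |x| + |y| := by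
    have := abs_nonneg x
    have := abs_nonneg y
    linarith
  have hR2 : 2 ≤ 16 * (m + 1 + |x| + |y|) := by linarith
  have hlogR : Real.log (16 * (m + 1 + |x| + |y|)) ≤ 5 * Real.log (m + 1 + |x| + |y|) := by
    rw [Real.log_mul (by norm_num) (by linarith)]
    have e : Real.log 16 = 4 * Real.log 2 := by
      rw [show (16 : ℝ) = 2 ^ 4 by norm_num, Real.log_pow]
      norm_num
    have := Real.log_le_log (by norm_num) hS2
    linarith
  have hlog0 : 0 ≤ Real.log (m + 1 + |x| + |y|) := Real.log_nonneg (by linarith)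
  have hxR : ∀ c : ℝ, |c| ≤ 14 → |x + c * m| ≤ 16 * (m + 1 + |x| + |y|) := by
    intro c hc
    have h1 : |x + c * m| ≤ |x| + |c * m| := abs_add_le _ _
    have h2 : |c * m| ≤ 14 * m := by
      rw [abs_mul, abs_of_pos hm0]
      exact mul_le_mul_of_nonneg_right hc hm0.le
    have := abs_nonneg x
    have := abs_nonneg y
    linarith
  have hyR : ∀ c : ℝ, |c| ≤ 14 → |y + c * m| ≤ 16 * (m + 1 + |x| + |y|) := by
    intro c hc
    have h1 : |y + c * m| ≤ |y| + |c * m| := abs_add_le _ _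
    have h2 : |c * m| ≤ 14 * m := by
      rw [abs_mul, abs_of_pos hm0]
      exact mul_le_mul_of_nonneg_right hc hm0.le
    have := abs_nonneg x
    have := abs_nonneg y
    linarith
  have hyR0 : |y| ≤ 16 * (m + 1 + |x| + |y|) := by
    have := abs_nonneg x
    have := abs_nonneg y
    linarith
  -- one horizontal term
  have t : ∀ c : ℝ, |c| ≤ 14 → |HC (x + c * m) y - HC (x' + c * m) y'| ≤
      5 * C * Real.log (m + 1 + |x| + |y|) := by
    intro c hc
    have h1 := h (x + c * m) (x' + c * m) y y' _ (by simpa using hx) hy (hxR c hc) hyR0 hR2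
    refine h1.trans ?_
    have := mul_le_mul_of_nonneg_left hlogR hC.le
    linarith
  -- one vertical term
  have v : ∀ c d : ℝ, |c| ≤ 14 → |d| ≤ 14 →
      |HC (y + c * m) (x + d * m) - HC (y' + c * m) (x' + d * m)| ≤
      5 * C * Real.log (m + 1 + |x| + |y|) := by
    intro c d hc hd
    have h1 := h (y + c * m) (y' + c * m) (x + d * m) (x' + d * m) _ (by simpa using hy)
      (by simpa using hx) (hyR c hc) (hxR d hd) hR2
    refine h1.trans ?_
    have := mul_le_mul_of_nonneg_left hlogR hC.le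
    linarith
  have t1 := abs_le.1 (t 8 (by norm_num))
  have t2 := abs_le.1 (t (-8) (by norm_num))
  have t3 := abs_le.1 (t 7 (by norm_num))
  have t4 := abs_le.1 (t (-7) (by norm_num))
  have t5 := abs_le.1 (t 6 (by norm_num))
  have t6 := abs_le.1 (t (-6) (by norm_num))
  have t7 := abs_le.1 (t 11 (by norm_num))
  have t8 := abs_le.1 (t (-11) (by norm_num))
  have t9 := abs_le.1 (t 14 (by norm_num))
  have t0 := abs_le.1 (t (-14) (by norm_num))
  have v1 := abs_le.1 (v (37 / 5) (-14) (by norm_num [abs_of_pos]) (by norm_num))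
  have v2 := abs_le.1 (v (-(37 / 5)) (-14) (by norm_num [abs_of_pos]) (by norm_num))
  have v3 := abs_le.1 (v (37 / 5) 14 (by norm_num [abs_of_pos]) (by norm_num))
  have v4 := abs_le.1 (v (-(37 / 5)) 14 (by norm_num [abs_of_pos]) (by norm_num))
  simp only [neg_mul, ← sub_eq_add_neg] at t2 t4 t6 t8 t0 v1 v2 v4
  have hU := UC_scale hm0 x y
  have hU' := UC_scale hm0 x' y'
  have hV := VC_scale hm0 x y
  have hV' := VC_scale hm0 x' y'
  have e : m * (2 * UC (x / m) (y / m) - VC (x / m) (y / m)) -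
      m * (2 * UC (x' / m) (y' / m) - VC (x' / m) (y' / m)) =
      2 * ((m * UC (x / m) (y / m) + 68 * m * Real.log m) -
        (m * UC (x' / m) (y' / m) + 68 * m * Real.log m)) -
      ((m * VC (x / m) (y / m) + 136 * m * Real.log m) -
        (m * VC (x' / m) (y' / m) + 136 * m * Real.log m)) := by ring
  rw [e, hU, hU', hV, hV']
  have hK : 0 ≤ C * Real.log (m + 1 + |x| + |y|) := mul_nonneg hC.le hlog0
  rw [abs_le]
  constructor
  · linarith [t1.1, t1.2, t2.1, t2.2, t3.1, t3.2, t4.1, t4.2, t5.1, t5.2, t6.1, t6.2, t7.1, t7.2,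
      t8.1, t8.2, t9.1, t9.2, t0.1, t0.2, v1.1, v1.2, v2.1, v2.2, v3.1, v3.2, v4.1, v4.2]
  · linarith [t1.1, t1.2, t2.1, t2.2, t3.1, t3.2, t4.1, t4.2, t5.1, t5.2, t6.1, t6.2, t7.1, t7.2,
      t8.1, t8.2, t9.1, t9.2, t0.1, t0.2, v1.1, v1.2, v2.1, v2.2, v3.1, v3.2, v4.1, v4.2]

theorem UC_neg (x y : ℝ) : UC x (-y) = UC x y := by
  have h1 : ∀ c d : ℝ, HC (-y + c) d = -HC (y - c) d := by
    intro c d
    rw [← HC_neg]
    ring_nf
  have h2 : ∀ c d : ℝ, HC (-y - c) d = -HC (y + c) d := by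
    intro c d
    rw [← HC_neg]
    ring_nf
  unfold UC
  simp only [HC_neg_right, h1, h2]
  ring

theorem VC_neg (x y : ℝ) : VC x (-y) = VC x y := by
  unfold VC
  simp only [HC_neg_right]

end Pool.Agent.OZ
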