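import Pool.Agent.OZ.AHCA
import Pool.Agent.OZ.AHCB
import Pool.Agent.OZ.ABL

/-! # The product of the distances of a node to the other nodes -/

open Finset Polynomial

namespace Pool.Agent.OZ

open Pool.Agent.Z5 (w evY dser xser hser lser co rho Hs zt tot VG)
open Pool.Agent.Z9 (IsProf)

section AEN

theorem sum_mu {m : ℕ} (hm : 1 ≤ m) : ∑ k, mu m k = nn m := by
  rw [Fintype.sum_sum_type, Fintype.sum_sum_type]
  simp only [mu, Finset.sum_const, Finset.card_univ, Fintype.card_fin, Fintype.card_prod,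
    Fintype.card_bool, smul_eq_mul]
  unfold nn
  omega

theorem aen_pos_sat (m : ℕ) (k : Fin (3 * m + 1)) :
    (pos m (.inl k)).re = 8 * m + 3 / 2 + (k : ℕ) ∧ (pos m (.inl k)).im = 0 := by
  have h1 : pos m (.inl k) = (((8 * m + 3 / 2 + (k : ℕ) : ℝ)) : ℂ) := by
    simp only [pos]
    push_cast
    ring
  rw [h1]
  exact ⟨Complex.ofReal_re _, Complex.ofReal_im _⟩

theorem aen_pos_real (m : ℕ) (j : Fin (7 * m - 2)) :
    (pos m (.inr (.inl j))).re = 11 * m + 2 + 3 / 7 * (j : ℕ) ∧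
      (pos m (.inr (.inl j))).im = 0 := by
  have h1 : pos m (.inr (.inl j)) = (((11 * m + 2 + 3 / 7 * (j : ℕ) : ℝ)) : ℂ) := by
    simp only [pos]
    push_cast
    ring
  rw [h1]
  exact ⟨Complex.ofReal_re _, Complex.ofReal_im _⟩

theorem aen_pos_true (m : ℕ) (l : Fin (6 * m + 1)) :
    (pos m (.inr (.inr (l, true)))).re = 14 * m + 1 ∧
      (pos m (.inr (.inr (l, true)))).im = 37 / 30 * ((l : ℕ) + 1 / 2) := by
  have h1 : pos m (.inr (.inr (l, true))) =
      (((14 * m + 1 : ℝ)) : ℂ) + (((37 / 30 * ((l : ℕ) + 1 / 2) : ℝ)) : ℂ) * Complex.I := by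
    simp only [pos]
    push_cast
    ring
  rw [h1]
  constructor <;> simp

theorem aen_pos_false (m : ℕ) (l : Fin (6 * m + 1)) :
    (pos m (.inr (.inr (l, false)))).re = 14 * m + 1 ∧
      (pos m (.inr (.inr (l, false)))).im = -(37 / 30 * ((l : ℕ) + 1 / 2)) := by
  have h1 : pos m (.inr (.inr (l, false))) =
      (((14 * m + 1 : ℝ)) : ℂ) - (((37 / 30 * ((l : ℕ) + 1 / 2) : ℝ)) : ℂ) * Complex.I := by
    simp only [pos]
    push_cast
    ring
  rw [h1]
  constructor <;> simp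

theorem aen_nat_dist {a b : ℕ} (h : a ≠ b) : (1 : ℝ) ≤ |(a : ℝ) - b| := by
  have h1 : (1 : ℤ) ≤ |(a : ℤ) - b| := Int.one_le_abs (by omega)
  exact_mod_cast h1

theorem aen_re_le {m : ℕ} (hm : 1 ≤ m) (k : Ix m) :
    8 * (m : ℝ) + 3 / 2 ≤ (pos m k).re ∧ (pos m k).re ≤ 14 * m + 1 ∧
      |(pos m k).im| ≤ 8 * m + 1 := by
  have hm' : (1 : ℝ) ≤ m := by exact_mod_cast hm
  rcases k with k | j | ⟨l, b⟩
  · obtain ⟨h1, h2⟩ := aen_pos_sat m k
    have h3 : ((k : ℕ) : ℝ) ≤ 3 * m := by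
      have := k.2
      exact_mod_cast (by omega : (k : ℕ) ≤ 3 * m)
    have h4 : (0 : ℝ) ≤ ((k : ℕ) : ℝ) := Nat.cast_nonneg _
    rw [h1, h2, abs_zero]
    refine ⟨by linarith, by linarith, by linarith⟩
  · obtain ⟨h1, h2⟩ := aen_pos_real m j
    have h3 : ((j : ℕ) : ℝ) ≤ 7 * m - 3 := by
      have := j.2
      have h5 : (j : ℕ) + 3 ≤ 7 * m := by omega
      have h6 : (((j : ℕ) + 3 : ℕ) : ℝ) ≤ ((7 * m : ℕ) : ℝ) := by exact_mod_cast h5
      push_cast at h6
      linarith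
    have h4 : (0 : ℝ) ≤ ((j : ℕ) : ℝ) := Nat.cast_nonneg _
    rw [h1, h2, abs_zero]
    refine ⟨by linarith, by linarith, by linarith⟩
  · have h3 : ((l : ℕ) : ℝ) ≤ 6 * m := by
      have := l.2
      exact_mod_cast (by omega : (l : ℕ) ≤ 6 * m)
    have h4 : (0 : ℝ) ≤ ((l : ℕ) : ℝ) := Nat.cast_nonneg _
    cases b
    · obtain ⟨h1, h2⟩ := aen_pos_false m l
      rw [h1, h2, abs_neg, abs_of_nonneg (by linarith)]
      refine ⟨by linarith, by linarith, by linarith⟩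
    · obtain ⟨h1, h2⟩ := aen_pos_true m l
      rw [h1, h2, abs_of_nonneg (by linarith)]
      refine ⟨by linarith, by linarith, by linarith⟩

/-- different nodes have distance at least `2 / 7` -/
theorem aen_dist {m : ℕ} (hm : 1 ≤ m) {k k' : Ix m} (h : k ≠ k') :
    (2 / 7 : ℝ) ≤ |(pos m k).re - (pos m k').re| ∨ (2 / 7 : ℝ) ≤ |(pos m k).im - (pos m k').im| := by
  have hm' : (1 : ℝ) ≤ m := by exact_mod_cast hm
  -- symmetric cases
  have hsr : ∀ (k : Fin (3 * m + 1)) (j : Fin (7 * m - 2)),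
      (2 / 7 : ℝ) ≤ |(pos m (.inl k)).re - (pos m (.inr (.inl j))).re| := by
    intro k j
    rw [(aen_pos_sat m k).1, (aen_pos_real m j).1]
    have h3 : ((k : ℕ) : ℝ) ≤ 3 * m := by
      have := k.2
      exact_mod_cast (by omega : (k : ℕ) ≤ 3 * m)
    have h4 : (0 : ℝ) ≤ ((j : ℕ) : ℝ) := Nat.cast_nonneg _
    rw [abs_sub_comm]
    exact le_trans (by linarith) (le_abs_self _)
  have hsl : ∀ (k : Fin (3 * m + 1)) (lb : Fin (6 * m + 1) × Bool),
      (2 / 7 : ℝ) ≤ |(pos m (.inl k)).re - (pos m (.inr (.inr lb))).re| := by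
    intro k lb
    have h5 : (pos m (.inr (.inr lb))).re = 14 * m + 1 := by
      obtain ⟨l, b⟩ := lb
      cases b
      · exact (aen_pos_false m l).1
      · exact (aen_pos_true m l).1
    rw [(aen_pos_sat m k).1, h5]
    have h3 : ((k : ℕ) : ℝ) ≤ 3 * m := by
      have := k.2
      exact_mod_cast (by omega : (k : ℕ) ≤ 3 * m)
    rw [abs_sub_comm]
    exact le_trans (by linarith) (le_abs_self _)
  have hrl : ∀ (j : Fin (7 * m - 2)) (lb : Fin (6 * m + 1) × Bool),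
      (2 / 7 : ℝ) ≤ |(pos m (.inr (.inl j))).re - (pos m (.inr (.inr lb))).re| := by
    intro j lb
    have h5 : (pos m (.inr (.inr lb))).re = 14 * m + 1 := by
      obtain ⟨l, b⟩ := lb
      cases b
      · exact (aen_pos_false m l).1
      · exact (aen_pos_true m l).1
    rw [(aen_pos_real m j).1, h5]
    have h3 : ((j : ℕ) : ℝ) ≤ 7 * m - 3 := by
      have := j.2
      have h5 : (j : ℕ) + 3 ≤ 7 * m := by omega
      have h6 : (((j : ℕ) + 3 : ℕ) : ℝ) ≤ ((7 * m : ℕ) : ℝ) := by exact_mod_cast h5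
      push_cast at h6
      linarith
    rw [abs_sub_comm]
    exact le_trans (by linarith) (le_abs_self _)
  rcases k with k | j | ⟨l, b⟩
  · rcases k' with k' | j' | lb'
    · left
      rw [(aen_pos_sat m k).1, (aen_pos_sat m k').1]
      have h1 : (k : ℕ) ≠ (k' : ℕ) := fun h2 => h (by rw [Fin.ext h2])
      have h2 := aen_nat_dist h1
      have h3 : (8 * (m : ℝ) + 3 / 2 + (k : ℕ)) - (8 * m + 3 / 2 + (k' : ℕ)) =
          ((k : ℕ) : ℝ) - ((k' : ℕ) : ℝ) := by ring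
      rw [h3]
      linarith
    · exact Or.inl (hsr k j')
    · exact Or.inl (hsl k lb')
  · rcases k' with k' | j' | lb'
    · left
      rw [abs_sub_comm]
      exact hsr k' j
    · left
      rw [(aen_pos_real m j).1, (aen_pos_real m j').1]
      have h1 : (j : ℕ) ≠ (j' : ℕ) := fun h2 => h (by rw [Fin.ext h2])
      have h2 := aen_nat_dist h1
      have h3 : (11 * (m : ℝ) + 2 + 3 / 7 * (j : ℕ)) - (11 * m + 2 + 3 / 7 * (j' : ℕ)) =
          3 / 7 * (((j : ℕ) : ℝ) - ((j' : ℕ) : ℝ)) := by ring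
      rw [h3, abs_mul, abs_of_pos (by norm_num : (0 : ℝ) < 3 / 7)]
      linarith
    · exact Or.inl (hrl j lb')
  · rcases k' with k' | j' | ⟨l', b'⟩
    · left
      rw [abs_sub_comm]
      exact hsl k' (l, b)
    · left
      rw [abs_sub_comm]
      exact hrl j' (l, b)
    · right
      have h4 : (0 : ℝ) ≤ ((l : ℕ) : ℝ) := Nat.cast_nonneg _
      have h5 : (0 : ℝ) ≤ ((l' : ℕ) : ℝ) := Nat.cast_nonneg _
      cases b <;> cases b'
      · rw [(aen_pos_false m l).2, (aen_pos_false m l').2]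
        have h1 : (l : ℕ) ≠ (l' : ℕ) := fun h2 => h (by rw [Fin.ext h2])
        have h2 := aen_nat_dist h1
        have h3 : -(37 / 30 * (((l : ℕ) : ℝ) + 1 / 2)) - -(37 / 30 * (((l' : ℕ) : ℝ) + 1 / 2)) =
            -(37 / 30 * (((l : ℕ) : ℝ) - ((l' : ℕ) : ℝ))) := by ring
        rw [h3, abs_neg, abs_mul, abs_of_pos (by norm_num : (0 : ℝ) < 37 / 30)]
        linarith
      · rw [(aen_pos_false m l).2, (aen_pos_true m l').2, abs_sub_comm]
        exact le_trans (by linarith) (le_abs_self _)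
      · rw [(aen_pos_true m l).2, (aen_pos_false m l').2]
        exact le_trans (by linarith) (le_abs_self _)
      · rw [(aen_pos_true m l).2, (aen_pos_true m l').2]
        have h1 : (l : ℕ) ≠ (l' : ℕ) := fun h2 => h (by rw [Fin.ext h2])
        have h2 := aen_nat_dist h1
        have h3 : (37 / 30 * (((l : ℕ) : ℝ) + 1 / 2)) - (37 / 30 * (((l' : ℕ) : ℝ) + 1 / 2)) =
            (37 / 30 * (((l : ℕ) : ℝ) - ((l' : ℕ) : ℝ))) := by ring
        rw [h3, abs_mul, abs_of_pos (by norm_num : (0 : ℝ) < 37 / 30)]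
        linarith

theorem aen_sq_dist {m : ℕ} (hm : 1 ≤ m) {k k' : Ix m} (h : k ≠ k') :
    (2 / 7 : ℝ) ^ 2 ≤ ((pos m k).re - (pos m k').re) ^ 2 + ((pos m k).im - (pos m k').im) ^ 2 := by
  rcases aen_dist hm h with h1 | h1
  · have h2 := pow_le_pow_left₀ (by norm_num : (0 : ℝ) ≤ 2 / 7) h1 2
    rw [sq_abs] at h2
    have := sq_nonneg ((pos m k).im - (pos m k').im)
    linarith
  · have h2 := pow_le_pow_left₀ (by norm_num : (0 : ℝ) ≤ 2 / 7) h1 2
    rw [sq_abs] at h2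
    have := sq_nonneg ((pos m k).re - (pos m k').re)
    linarith

theorem aen_sq_sum {m : ℕ} (hm : 1 ≤ m) (k k' : Ix m) :
    (2 / 7 : ℝ) ^ 2 ≤ ((pos m k).re + (pos m k').re) ^ 2 + ((pos m k).im + (pos m k').im) ^ 2 := by
  have hm' : (1 : ℝ) ≤ m := by exact_mod_cast hm
  have h1 := (aen_re_le hm k).1
  have h2 := (aen_re_le hm k').1
  have h3 : (2 / 7 : ℝ) ≤ (pos m k).re + (pos m k').re := by linarith
  have h4 := pow_le_pow_left₀ (by norm_num : (0 : ℝ) ≤ 2 / 7) h3 2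
  have := sq_nonneg ((pos m k).im + (pos m k').im)
  linarith

theorem aen_pos_inj {m : ℕ} (hm : 1 ≤ m) {k k' : Ix m} (h : k ≠ k') : pos m k ≠ pos m k' := by
  intro he
  have h1 := aen_sq_dist hm h
  rw [he, sub_self, sub_self] at h1
  norm_num at h1

theorem yN_inj {m : ℕ} (hm : 1 ≤ m) : Function.Injective (yN m) := by
  intro k k' he
  by_contra hne
  unfold yN at he
  rcases sq_eq_sq_iff_eq_or_eq_neg.mp he with h1 | h1
  · exact aen_pos_inj hm hne (mul_left_cancel₀ two_ne_zero h1)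
  · have hm' : (1 : ℝ) ≤ m := by exact_mod_cast hm
    have h2 := (aen_re_le hm k).1
    have h3 := (aen_re_le hm k').1
    have h4 := congrArg Complex.re h1
    simp only [Complex.mul_re, Complex.neg_re, Complex.re_ofNat, Complex.im_ofNat, zero_mul,
      sub_zero] at h4
    linarith

/-- a family of indices, with the own index omitted -/
theorem aen_fam {m N : ℕ} (ι : Fin N → Ix m) (hι : Function.Injective ι) (k : Ix m) :
    ∃ S : Finset ℕ, S ⊆ range N ∧ N ≤ S.card + 1 ∧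
      (∀ a ∈ S, ∃ h : a < N, ι ⟨a, h⟩ ≠ k) ∧
      ∀ G : ℕ → ℝ, ∑ a : Fin N, (if ι a = k then 0 else G a) = ∑ a ∈ S, G a := by
  classical
  refine ⟨(range N).filter (fun a => ¬ ∃ h : a < N, ι ⟨a, h⟩ = k), Finset.filter_subset _ _, ?_, ?_, ?_⟩
  · have h1 := Finset.card_filter_add_card_filter_not (s := range N)
      (fun a => ∃ h : a < N, ι ⟨a, h⟩ = k)
    rw [Finset.card_range] at h1
    have h2 : #((range N).filter (fun a => ∃ h : a < N, ι ⟨a, h⟩ = k)) ≤ 1 := by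
      rw [Finset.card_le_one]
      intro a ha b hb
      obtain ⟨h3, h4⟩ := (Finset.mem_filter.mp ha).2
      obtain ⟨h5, h6⟩ := (Finset.mem_filter.mp hb).2
      have h7 := hι (h4.trans h6.symm)
      rw [Fin.mk.injEq] at h7
      exact h7
    omega
  · intro a ha
    obtain ⟨h1, h2⟩ := Finset.mem_filter.mp ha
    have h3 := Finset.mem_range.mp h1
    exact ⟨h3, fun h4 => h2 ⟨h3, h4⟩⟩
  · intro G
    rw [Finset.sum_filter]
    rw [← Fin.sum_univ_eq_sum_range (fun a => if ¬ (∃ h : a < N, ι ⟨a, h⟩ = k) then G a else 0) N]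
    refine Finset.sum_congr rfl fun a _ => ?_
    by_cases ha : ι a = k
    · rw [if_pos ha, if_neg (not_not.mpr ⟨a.2, ha⟩)]
    · rw [if_neg ha, if_pos (fun ⟨_, h⟩ => ha h)]

theorem aen_log_norm (z : ℂ) : Real.log ‖z‖ = 1 / 2 * Real.log (z.re ^ 2 + z.im ^ 2) := by
  rw [Complex.norm_def, Real.log_sqrt (Complex.normSq_nonneg z), Complex.normSq_apply]
  have : z.re * z.re + z.im * z.im = z.re ^ 2 + z.im ^ 2 := by ring
  rw [this]
  ring

/-- the contribution of a node -/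
noncomputable def aenG (p q : ℂ) : ℝ := Real.log ‖p - q‖ + Real.log ‖p + q‖

theorem aenG_eq (p q : ℂ) : aenG p q =
    1 / 2 * Real.log ((p.re - q.re) ^ 2 + (p.im - q.im) ^ 2) +
      1 / 2 * Real.log ((p.re + q.re) ^ 2 + (p.im + q.im) ^ 2) := by
  rw [aenG, aen_log_norm, aen_log_norm, Complex.sub_re, Complex.sub_im, Complex.add_re,
    Complex.add_im]

/-- the sum of the logarithms of the distances -/
theorem aen_sum_ge : ∃ C : ℝ, 0 < C ∧ ∀ m : ℕ, 1 ≤ m → ∀ k : Ix m,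
    m * UC ((pos m k).re / m) ((pos m k).im / m) + 68 * m * Real.log m - C * Real.log (m + 1) ≤
      ∑ k' : Ix m, (if k' = k then 0 else (mu m k' : ℝ) * aenG (pos m k) (pos m k')) := by
  obtain ⟨C0, hC0, hlip⟩ := HC_lip
  obtain ⟨C1, hC1, hb1⟩ := blk_ge (h := 1) (δ := 2 / 7) (by norm_num) (by norm_num)
  obtain ⟨C2, hC2, hb2⟩ := blk_ge (h := 3 / 7) (δ := 2 / 7) (by norm_num) (by norm_num)
  obtain ⟨C3, hC3, hb3⟩ := blk_ge (h := 37 / 30) (δ := 2 / 7) (by norm_num) (by norm_num)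
  refine ⟨8 * (10 * C1 + 2 * C2 + 4 * C3 + 100 * C0) + 100, by positivity, fun m hm k => ?_⟩
  have hm' : (1 : ℝ) ≤ m := by exact_mod_cast hm
  obtain ⟨hx1, hx2, hy⟩ := aen_re_le hm k
  have hsd : ∀ k' : Ix m, k' ≠ k → (2 / 7 : ℝ) ^ 2 ≤
      ((pos m k).re - (pos m k').re) ^ 2 + ((pos m k).im - (pos m k').im) ^ 2 :=
    fun k' h => aen_sq_dist hm (Ne.symm h)
  have hss : ∀ k' : Ix m, (2 / 7 : ℝ) ^ 2 ≤
      ((pos m k).re + (pos m k').re) ^ 2 + ((pos m k).im + (pos m k').im) ^ 2 :=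
    fun k' => aen_sq_sum hm k k'
  have hGe := fun k' : Ix m => aenG_eq (pos m k) (pos m k')
  generalize hp : pos m k = p at *
  set x := p.re with hx
  set y := p.im with hyy
  obtain ⟨hy1, hy2⟩ := abs_le.mp hy
  set R : ℝ := 100 * (m + 1) with hR
  have hR2 : 2 ≤ R := by rw [hR]; linarith
  set L := Real.log (m + 1) with hL
  have hL2 : 1 ≤ 2 * L := by
    have h1 : Real.log 2 ≤ L := Real.log_le_log (by norm_num) (by linarith)
    have h2 := Real.log_two_gt_d9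
    linarith
  have hlR : Real.log R ≤ 8 * L := by
    have h1 : Real.log R = Real.log 100 + L := by
      rw [hR, Real.log_mul (by norm_num) (by linarith)]
    have h2 : Real.log 100 ≤ 7 * Real.log 2 := by
      rw [show (7 : ℝ) * Real.log 2 = Real.log (2 ^ 7) by rw [Real.log_pow]; norm_num]
      exact Real.log_le_log (by norm_num) (by norm_num)
    have h3 : Real.log 2 ≤ L := Real.log_le_log (by norm_num) (by linarith)
    linarith
  -- Lipschitz bounds
  have hl : ∀ X X' Y : ℝ, |X - X'| ≤ 3 → |X| ≤ R → |Y| ≤ R →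
      HC X Y - HC X' Y ≤ C0 * Real.log R ∧ HC X' Y - HC X Y ≤ C0 * Real.log R := by
    intro X X' Y h1 h2 h3
    have h4 := hlip X X' Y R h1 h2 h3 hR2
    obtain ⟨h5, h6⟩ := abs_le.mp h4
    exact ⟨h6, by linarith⟩
  have hlr : ∀ X Y Y' : ℝ, |Y - Y'| ≤ 1 →
      HC X Y - HC X Y' ≤ 2 ∧ HC X Y' - HC X Y ≤ 2 := by
    intro X Y Y' h1
    have h4 := HC_lip_right X Y Y'
    obtain ⟨h5, h6⟩ := abs_le.mp h4
    exact ⟨by linarith, by linarith⟩
  -- the four families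
  obtain ⟨S1, s1a, s1b, s1c, s1d⟩ := aen_fam (m := m) (N := 3 * m + 1) (fun a => Sum.inl a)
    (fun a b h => Sum.inl.inj h) k
  obtain ⟨S2, s2a, s2b, s2c, s2d⟩ := aen_fam (m := m) (N := 7 * m - 2) (fun a => Sum.inr (Sum.inl a))
    (fun a b h => Sum.inl.inj (Sum.inr.inj h)) k
  obtain ⟨S3, s3a, s3b, s3c, s3d⟩ := aen_fam (m := m) (N := 6 * m + 1)
    (fun a => Sum.inr (Sum.inr (a, true)))
    (fun a b h => (Prod.mk.inj (Sum.inr.inj (Sum.inr.inj h))).1) k
  obtain ⟨S4, s4a, s4b, s4c, s4d⟩ := aen_fam (m := m) (N := 6 * m + 1)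
    (fun a => Sum.inr (Sum.inr (a, false)))
    (fun a b h => (Prod.mk.inj (Sum.inr.inj (Sum.inr.inj h))).1) k
  have e1 : ∑ a : Fin (3 * m + 1), (if (Sum.inl a : Ix m) = k then 0 else
      (mu m (Sum.inl a) : ℝ) * aenG p (pos m (Sum.inl a))) =
      5 * ∑ a ∈ S1, 1 / 2 * Real.log ((x - ((8 * m + 3 / 2) + a * 1)) ^ 2 + y ^ 2) +
      5 * ∑ a ∈ S1, 1 / 2 * Real.log ((-x - ((8 * m + 3 / 2) + a * 1)) ^ 2 + y ^ 2) := by
    rw [Finset.mul_sum, Finset.mul_sum, ← Finset.sum_add_distrib, ← s1d]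
    refine Finset.sum_congr rfl fun a _ => ?_
    by_cases ha : (Sum.inl a : Ix m) = k
    · rw [if_pos ha, if_pos ha]
    · rw [if_neg ha, if_neg ha, hGe, (aen_pos_sat m a).1, (aen_pos_sat m a).2]
      have q1 : (x - (8 * m + 3 / 2 + (a : ℕ))) ^ 2 + (y - 0) ^ 2 =
          (x - ((8 * m + 3 / 2) + (a : ℕ) * 1)) ^ 2 + y ^ 2 := by ring
      have q2 : (x + (8 * m + 3 / 2 + (a : ℕ))) ^ 2 + (y + 0) ^ 2 =
          (-x - ((8 * m + 3 / 2) + (a : ℕ) * 1)) ^ 2 + y ^ 2 := by ring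
      rw [q1, q2]
      simp only [mu]
      push_cast
      ring
  have e2 : ∑ a : Fin (7 * m - 2), (if (Sum.inr (Sum.inl a) : Ix m) = k then 0 else
      (mu m (Sum.inr (Sum.inl a)) : ℝ) * aenG p (pos m (Sum.inr (Sum.inl a)))) =
      ∑ a ∈ S2, 1 / 2 * Real.log ((x - ((11 * m + 2) + a * (3 / 7))) ^ 2 + y ^ 2) +
      ∑ a ∈ S2, 1 / 2 * Real.log ((-x - ((11 * m + 2) + a * (3 / 7))) ^ 2 + y ^ 2) := by
    rw [← Finset.sum_add_distrib, ← s2d]
    refine Finset.sum_congr rfl fun a _ => ?_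
    by_cases ha : (Sum.inr (Sum.inl a) : Ix m) = k
    · rw [if_pos ha, if_pos ha]
    · rw [if_neg ha, if_neg ha, hGe, (aen_pos_real m a).1, (aen_pos_real m a).2]
      have q1 : (x - (11 * m + 2 + 3 / 7 * (a : ℕ))) ^ 2 + (y - 0) ^ 2 =
          (x - ((11 * m + 2) + (a : ℕ) * (3 / 7))) ^ 2 + y ^ 2 := by ring
      have q2 : (x + (11 * m + 2 + 3 / 7 * (a : ℕ))) ^ 2 + (y + 0) ^ 2 =
          (-x - ((11 * m + 2) + (a : ℕ) * (3 / 7))) ^ 2 + y ^ 2 := by ring
      rw [q1, q2]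
      simp only [mu]
      push_cast
      ring
  have e3 : ∑ a : Fin (6 * m + 1), (if (Sum.inr (Sum.inr (a, true)) : Ix m) = k then 0 else
      (mu m (Sum.inr (Sum.inr (a, true))) : ℝ) * aenG p (pos m (Sum.inr (Sum.inr (a, true))))) =
      ∑ a ∈ S3, 1 / 2 * Real.log ((y - (37 / 60 + a * (37 / 30))) ^ 2 + (x - (14 * m + 1)) ^ 2) +
      ∑ a ∈ S3, 1 / 2 * Real.log ((-y - (37 / 60 + a * (37 / 30))) ^ 2 + (x + (14 * m + 1)) ^ 2) := by
    rw [← Finset.sum_add_distrib, ← s3d]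
    refine Finset.sum_congr rfl fun a _ => ?_
    by_cases ha : (Sum.inr (Sum.inr (a, true)) : Ix m) = k
    · rw [if_pos ha, if_pos ha]
    · rw [if_neg ha, if_neg ha, hGe, (aen_pos_true m a).1, (aen_pos_true m a).2]
      have q1 : (x - (14 * m + 1)) ^ 2 + (y - 37 / 30 * ((a : ℕ) + 1 / 2)) ^ 2 =
          (y - (37 / 60 + (a : ℕ) * (37 / 30))) ^ 2 + (x - (14 * m + 1)) ^ 2 := by ring
      have q2 : (x + (14 * m + 1)) ^ 2 + (y + 37 / 30 * ((a : ℕ) + 1 / 2)) ^ 2 =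
          (-y - (37 / 60 + (a : ℕ) * (37 / 30))) ^ 2 + (x + (14 * m + 1)) ^ 2 := by ring
      rw [q1, q2]
      simp only [mu]
      push_cast
      ring
  have e4 : ∑ a : Fin (6 * m + 1), (if (Sum.inr (Sum.inr (a, false)) : Ix m) = k then 0 else
      (mu m (Sum.inr (Sum.inr (a, false))) : ℝ) * aenG p (pos m (Sum.inr (Sum.inr (a, false))))) =
      ∑ a ∈ S4, 1 / 2 * Real.log ((-y - (37 / 60 + a * (37 / 30))) ^ 2 + (x - (14 * m + 1)) ^ 2) +
      ∑ a ∈ S4, 1 / 2 * Real.log ((y - (37 / 60 + a * (37 / 30))) ^ 2 + (x + (14 * m + 1)) ^ 2) := by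
    rw [← Finset.sum_add_distrib, ← s4d]
    refine Finset.sum_congr rfl fun a _ => ?_
    by_cases ha : (Sum.inr (Sum.inr (a, false)) : Ix m) = k
    · rw [if_pos ha, if_pos ha]
    · rw [if_neg ha, if_neg ha, hGe, (aen_pos_false m a).1, (aen_pos_false m a).2]
      have q1 : (x - (14 * m + 1)) ^ 2 + (y - -(37 / 30 * ((a : ℕ) + 1 / 2))) ^ 2 =
          (-y - (37 / 60 + (a : ℕ) * (37 / 30))) ^ 2 + (x - (14 * m + 1)) ^ 2 := by ring
      have q2 : (x + (14 * m + 1)) ^ 2 + (y + -(37 / 30 * ((a : ℕ) + 1 / 2))) ^ 2 =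
          (y - (37 / 60 + (a : ℕ) * (37 / 30))) ^ 2 + (x + (14 * m + 1)) ^ 2 := by ring
      rw [q1, q2]
      simp only [mu]
      push_cast
      ring
  rw [Fintype.sum_sum_type, Fintype.sum_sum_type, Fintype.sum_prod_type]
  simp only [Fintype.sum_bool]
  rw [Finset.sum_add_distrib, e1, e2, e3, e4]
  -- the blocks
  have n2 : ((7 * m - 2 : ℕ) : ℝ) = 7 * m - 2 := by
    rw [Nat.cast_sub (by omega)]
    push_cast
    ring
  have hax : |x| = x := abs_of_nonneg (by linarith)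
  have b1 := hb1 (8 * m + 3 / 2) x y R (3 * m + 1) S1 s1a s1b hR2
    (by rw [abs_of_nonneg (by linarith), hax, hR]; push_cast; linarith)
    (fun a ha => by
      obtain ⟨h1, h2⟩ := s1c a ha
      have h3 := hsd _ h2
      rw [(aen_pos_sat m _).1, (aen_pos_sat m _).2] at h3
      refine h3.trans (le_of_eq ?_)
      ring)
  have b1' := hb1 (8 * m + 3 / 2) (-x) y R (3 * m + 1) S1 s1a s1b hR2
    (by rw [abs_of_nonneg (by linarith), abs_neg, hax, hR]; push_cast; linarith)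
    (fun a ha => by
      obtain ⟨h1, h2⟩ := s1c a ha
      have h3 := hss (Sum.inl ⟨a, h1⟩)
      rw [(aen_pos_sat m _).1, (aen_pos_sat m _).2] at h3
      refine h3.trans (le_of_eq ?_)
      ring)
  have b2 := hb2 (11 * m + 2) x y R (7 * m - 2) S2 s2a s2b hR2
    (by rw [abs_of_nonneg (by linarith), hax, hR, n2]; linarith)
    (fun a ha => by
      obtain ⟨h1, h2⟩ := s2c a ha
      have h3 := hsd _ h2
      rw [(aen_pos_real m _).1, (aen_pos_real m _).2] at h3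
      refine h3.trans (le_of_eq ?_)
      ring)
  have b2' := hb2 (11 * m + 2) (-x) y R (7 * m - 2) S2 s2a s2b hR2
    (by rw [abs_of_nonneg (by linarith), abs_neg, hax, hR, n2]; linarith)
    (fun a ha => by
      obtain ⟨h1, h2⟩ := s2c a ha
      have h3 := hss (Sum.inr (Sum.inl ⟨a, h1⟩))
      rw [(aen_pos_real m _).1, (aen_pos_real m _).2] at h3
      refine h3.trans (le_of_eq ?_)
      ring)
  have hw1 : |x - (14 * m + 1)| ≤ 6 * m + 1 := abs_le.mpr ⟨by linarith, by linarith⟩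
  have hw2 : |x + (14 * m + 1)| ≤ 28 * m + 2 := abs_le.mpr ⟨by linarith, by linarith⟩
  have b3 := hb3 (37 / 60) y (x - (14 * m + 1)) R (6 * m + 1) S3 s3a s3b hR2
    (by rw [abs_of_nonneg (by norm_num : (0 : ℝ) ≤ 37 / 60), hR]; push_cast; linarith)
    (fun a ha => by
      obtain ⟨h1, h2⟩ := s3c a ha
      have h3 := hsd _ h2
      rw [(aen_pos_true m _).1, (aen_pos_true m _).2] at h3
      refine h3.trans (le_of_eq ?_)
      ring)
  have b3' := hb3 (37 / 60) (-y) (x + (14 * m + 1)) R (6 * m + 1) S3 s3a s3b hR2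
    (by rw [abs_of_nonneg (by norm_num : (0 : ℝ) ≤ 37 / 60), abs_neg, hR]; push_cast; linarith)
    (fun a ha => by
      obtain ⟨h1, h2⟩ := s3c a ha
      have h3 := hss (Sum.inr (Sum.inr (⟨a, h1⟩, true)))
      rw [(aen_pos_true m _).1, (aen_pos_true m _).2] at h3
      refine h3.trans (le_of_eq ?_)
      ring)
  have b4 := hb3 (37 / 60) (-y) (x - (14 * m + 1)) R (6 * m + 1) S4 s4a s4b hR2
    (by rw [abs_of_nonneg (by norm_num : (0 : ℝ) ≤ 37 / 60), abs_neg, hR]; push_cast; linarith)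
    (fun a ha => by
      obtain ⟨h1, h2⟩ := s4c a ha
      have h3 := hsd _ h2
      rw [(aen_pos_false m _).1, (aen_pos_false m _).2] at h3
      refine h3.trans (le_of_eq ?_)
      ring)
  have b4' := hb3 (37 / 60) y (x + (14 * m + 1)) R (6 * m + 1) S4 s4a s4b hR2
    (by rw [abs_of_nonneg (by norm_num : (0 : ℝ) ≤ 37 / 60), hR]; push_cast; linarith)
    (fun a ha => by
      obtain ⟨h1, h2⟩ := s4c a ha
      have h3 := hss (Sum.inr (Sum.inr (⟨a, h1⟩, false)))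
      rw [(aen_pos_false m _).1, (aen_pos_false m _).2] at h3
      refine h3.trans (le_of_eq ?_)
      ring)
  -- generalize the sums
  generalize ∑ a ∈ S1, 1 / 2 * Real.log ((x - ((8 * m + 3 / 2) + a * 1)) ^ 2 + y ^ 2) = T1 at b1 ⊢
  generalize ∑ a ∈ S1, 1 / 2 * Real.log ((-x - ((8 * m + 3 / 2) + a * 1)) ^ 2 + y ^ 2) = T1' at b1' ⊢
  generalize ∑ a ∈ S2, 1 / 2 * Real.log ((x - ((11 * m + 2) + a * (3 / 7))) ^ 2 + y ^ 2) = T2 at b2 ⊢
  generalize ∑ a ∈ S2, 1 / 2 * Real.log ((-x - ((11 * m + 2) + a * (3 / 7))) ^ 2 + y ^ 2) = T2'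
    at b2' ⊢
  generalize ∑ a ∈ S3, 1 / 2 * Real.log ((y - (37 / 60 + a * (37 / 30))) ^ 2 +
    (x - (14 * m + 1)) ^ 2) = T3 at b3 ⊢
  generalize ∑ a ∈ S3, 1 / 2 * Real.log ((-y - (37 / 60 + a * (37 / 30))) ^ 2 +
    (x + (14 * m + 1)) ^ 2) = T3' at b3' ⊢
  generalize ∑ a ∈ S4, 1 / 2 * Real.log ((-y - (37 / 60 + a * (37 / 30))) ^ 2 +
    (x - (14 * m + 1)) ^ 2) = T4 at b4 ⊢
  generalize ∑ a ∈ S4, 1 / 2 * Real.log ((y - (37 / 60 + a * (37 / 30))) ^ 2 +
    (x + (14 * m + 1)) ^ 2) = T4' at b4' ⊢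
  rw [UC_scale (by linarith : (0 : ℝ) < m) x y]
  -- arguments of `HC`
  have r1 : x - (8 * m + 3 / 2) - ((3 * m + 1 : ℕ) : ℝ) * 1 = x - (11 * m + 5 / 2) := by
    push_cast; ring
  have r1' : -x - (8 * m + 3 / 2) - ((3 * m + 1 : ℕ) : ℝ) * 1 = -(x + (11 * m + 5 / 2)) := by
    push_cast; ring
  have r1'' : -x - (8 * m + 3 / 2) = -(x + (8 * m + 3 / 2)) := by ring
  rw [r1] at b1
  rw [r1', r1'', HC_neg, HC_neg] at b1'
  have r2 : x - (11 * m + 2) - ((7 * m - 2 : ℕ) : ℝ) * (3 / 7) = x - (14 * m + 8 / 7) := by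
    rw [n2]; ring
  have r2' : -x - (11 * m + 2) - ((7 * m - 2 : ℕ) : ℝ) * (3 / 7) = -(x + (14 * m + 8 / 7)) := by
    rw [n2]; ring
  have r2'' : -x - (11 * m + 2) = -(x + (11 * (m : ℝ) + 2)) := by ring
  rw [r2] at b2
  rw [r2', r2'', HC_neg, HC_neg] at b2'
  have r3 : y - 37 / 60 - ((6 * m + 1 : ℕ) : ℝ) * (37 / 30) = y - (37 / 5 * m + 37 / 20) := by
    push_cast; ring
  have r3' : -y - 37 / 60 - ((6 * m + 1 : ℕ) : ℝ) * (37 / 30) = -(y + (37 / 5 * m + 37 / 20)) := by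
    push_cast; ring
  have r3'' : -y - 37 / 60 = -(y + 37 / 60) := by ring
  rw [r3] at b3 b4'
  rw [r3', r3'', HC_neg, HC_neg] at b3' b4
  -- comparison of the values of `HC`
  have hyR : |y| ≤ R := by rw [hR]; linarith
  have bd : ∀ z : ℝ, -(40 * (m : ℝ) + 10) ≤ z → z ≤ 40 * m + 10 → |z| ≤ R := by
    intro z h1 h2
    rw [hR]
    exact abs_le.mpr ⟨by linarith, by linarith⟩
  have c1 := hl (x - (8 * m + 3 / 2)) (x - 8 * m) y (abs_le.mpr ⟨by linarith, by linarith⟩)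
    (bd _ (by linarith) (by linarith)) hyR
  have c2 := hl (x - (11 * m + 5 / 2)) (x - 11 * m) y (abs_le.mpr ⟨by linarith, by linarith⟩)
    (bd _ (by linarith) (by linarith)) hyR
  have c3 := hl (x + (8 * m + 3 / 2)) (x + 8 * m) y (abs_le.mpr ⟨by linarith, by linarith⟩)
    (bd _ (by linarith) (by linarith)) hyR
  have c4 := hl (x + (11 * m + 5 / 2)) (x + 11 * m) y (abs_le.mpr ⟨by linarith, by linarith⟩)
    (bd _ (by linarith) (by linarith)) hyR
  have c5 := hl (x - (11 * m + 2)) (x - 11 * m) y (abs_le.mpr ⟨by linarith, by linarith⟩)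
    (bd _ (by linarith) (by linarith)) hyR
  have c6 := hl (x - (14 * m + 8 / 7)) (x - 14 * m) y (abs_le.mpr ⟨by linarith, by linarith⟩)
    (bd _ (by linarith) (by linarith)) hyR
  have c7 := hl (x + (11 * m + 2)) (x + 11 * m) y (abs_le.mpr ⟨by linarith, by linarith⟩)
    (bd _ (by linarith) (by linarith)) hyR
  have c8 := hl (x + (14 * m + 8 / 7)) (x + 14 * m) y (abs_le.mpr ⟨by linarith, by linarith⟩)
    (bd _ (by linarith) (by linarith)) hyR
  have hwR1 : |x - (14 * m + 1)| ≤ R := by rw [hR]; linarith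
  have hwR2 : |x + (14 * m + 1)| ≤ R := by rw [hR]; linarith
  have d1 := hl (y - 37 / 60) (y + 37 / 60) (x - (14 * m + 1))
    (abs_le.mpr ⟨by linarith, by linarith⟩) (bd _ (by linarith) (by linarith)) hwR1
  have d2 := hl (y - 37 / 60) (y + 37 / 60) (x + (14 * m + 1))
    (abs_le.mpr ⟨by linarith, by linarith⟩) (bd _ (by linarith) (by linarith)) hwR2
  have d3 := hl (y - (37 / 5 * m + 37 / 20)) (y - 37 / 5 * m) (x - (14 * m + 1))
    (abs_le.mpr ⟨by linarith, by linarith⟩) (bd _ (by linarith) (by linarith)) hwR1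
  have d4 := hl (y - (37 / 5 * m + 37 / 20)) (y - 37 / 5 * m) (x + (14 * m + 1))
    (abs_le.mpr ⟨by linarith, by linarith⟩) (bd _ (by linarith) (by linarith)) hwR2
  have d5 := hl (y + (37 / 5 * m + 37 / 20)) (y + 37 / 5 * m) (x - (14 * m + 1))
    (abs_le.mpr ⟨by linarith, by linarith⟩) (bd _ (by linarith) (by linarith)) hwR1
  have d6 := hl (y + (37 / 5 * m + 37 / 20)) (y + 37 / 5 * m) (x + (14 * m + 1))
    (abs_le.mpr ⟨by linarith, by linarith⟩) (bd _ (by linarith) (by linarith)) hwR2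
  have g1 := hlr (y - 37 / 5 * m) (x - (14 * m + 1)) (x - 14 * m)
    (abs_le.mpr ⟨by linarith, by linarith⟩)
  have g2 := hlr (y - 37 / 5 * m) (x + (14 * m + 1)) (x + 14 * m)
    (abs_le.mpr ⟨by linarith, by linarith⟩)
  have g3 := hlr (y + 37 / 5 * m) (x - (14 * m + 1)) (x - 14 * m)
    (abs_le.mpr ⟨by linarith, by linarith⟩)
  have g4 := hlr (y + 37 / 5 * m) (x + (14 * m + 1)) (x + 14 * m)
    (abs_le.mpr ⟨by linarith, by linarith⟩)
  -- constants
  have k0 : C0 * Real.log R ≤ C0 * (8 * L) := mul_le_mul_of_nonneg_left hlR hC0.le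
  have k1 : C1 * Real.log R ≤ C1 * (8 * L) := mul_le_mul_of_nonneg_left hlR hC1.le
  have k2 : C2 * Real.log R ≤ C2 * (8 * L) := mul_le_mul_of_nonneg_left hlR hC2.le
  have k3 : C3 * Real.log R ≤ C3 * (8 * L) := mul_le_mul_of_nonneg_left hlR hC3.le
  have kk : (8 * (10 * C1 + 2 * C2 + 4 * C3 + 100 * C0) + 100) * L =
      10 * (C1 * (8 * L)) + 2 * (C2 * (8 * L)) + 4 * (C3 * (8 * L)) + 100 * (C0 * (8 * L)) +
        100 * L := by ring
  rw [kk]
  -- positivity of the error terms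
  have z1 : 0 ≤ C1 * Real.log R := mul_nonneg hC1.le (Real.log_nonneg (by linarith))
  have z0 : 0 ≤ C0 * Real.log R := mul_nonneg hC0.le (Real.log_nonneg (by linarith))
  have u1 : 5 * (HC (x - 8 * m) y - HC (x - 11 * m) y + HC (x + 11 * m) y - HC (x + 8 * m) y) -
      20 * (C0 * Real.log R) - 10 * (C1 * Real.log R) ≤ 5 * T1 + 5 * T1' := by
    linarith only [b1, b1', c1.2, c2.1, c3.1, c4.2]
  have u2 : 7 / 3 * (HC (x - 11 * m) y - HC (x - 14 * m) y + HC (x + 14 * m) y -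
      HC (x + 11 * m) y) - 28 / 3 * (C0 * Real.log R) - 2 * (C2 * Real.log R) ≤ T2 + T2' := by
    linarith only [b2, b2', c5.2, c6.1, c7.1, c8.2]
  have u3 : 30 / 37 * (HC (y + 37 / 5 * m) (x - 14 * m) - HC (y - 37 / 5 * m) (x - 14 * m) +
        HC (y + 37 / 5 * m) (x + 14 * m) - HC (y - 37 / 5 * m) (x + 14 * m)) -
      30 / 37 * (6 * (C0 * Real.log R) + 8) - 4 * (C3 * Real.log R) ≤
        T3 + T3' + (T4 + T4') := by
    linarith only [b3, b3', b4, b4', d1.2, d2.2, d3.1, d4.1, d5.2, d6.2, g1.1, g2.1, g3.2, g4.2]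
  linarith only [u1, u2, u3, k0, k1, k2, k3, hL2, z0, z1]

theorem node_ge : ∃ C : ℝ, 0 < C ∧ ∀ m : ℕ, 1 ≤ m → ∀ k : Ix m,
    Real.exp (nn m * Real.log 4 + m * UC ((pos m k).re / m) ((pos m k).im / m) +
      68 * m * Real.log m - C * Real.log (m + 1)) ≤
      ∏ k' ∈ univ.erase k, ‖yN m k - yN m k'‖ ^ mu m k' := by
  classical
  obtain ⟨C, hC, hsum⟩ := aen_sum_ge
  refine ⟨C + 10, by linarith, fun m hm k => ?_⟩
  have hm' : (1 : ℝ) ≤ m := by exact_mod_cast hm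
  have h1 := hsum m hm k
  have hpos : ∀ k' ∈ univ.erase k, 0 < ‖yN m k - yN m k'‖ := by
    intro k' hk'
    rw [norm_pos_iff, sub_ne_zero]
    intro h
    exact Finset.ne_of_mem_erase hk' (yN_inj hm h).symm
  have hlog : ∀ k' ∈ univ.erase k, Real.log (‖yN m k - yN m k'‖ ^ mu m k') =
      (mu m k' : ℝ) * Real.log 4 + (mu m k' : ℝ) * aenG (pos m k) (pos m k') := by
    intro k' hk'
    have h2 := hpos k' hk'
    have h3 : yN m k - yN m k' = 4 * ((pos m k - pos m k') * (pos m k + pos m k')) := by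
      unfold yN
      ring
    have h4 : ‖yN m k - yN m k'‖ = 4 * (‖pos m k - pos m k'‖ * ‖pos m k + pos m k'‖) := by
      rw [h3, norm_mul, norm_mul, Complex.norm_ofNat]
    rw [h4] at h2
    have h5 : ‖pos m k - pos m k'‖ ≠ 0 := by
      intro h
      rw [h, zero_mul, mul_zero] at h2
      exact lt_irrefl _ h2
    have h6 : ‖pos m k + pos m k'‖ ≠ 0 := by
      intro h
      rw [h, mul_zero, mul_zero] at h2
      exact lt_irrefl _ h2
    rw [Real.log_pow, h4, Real.log_mul (by norm_num) (mul_ne_zero h5 h6), Real.log_mul h5 h6, aenG]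
    ring
  have hprod : 0 < ∏ k' ∈ univ.erase k, ‖yN m k - yN m k'‖ ^ mu m k' :=
    Finset.prod_pos fun k' hk' => pow_pos (hpos k' hk') _
  rw [← Real.exp_log hprod, Real.exp_le_exp,
    Real.log_prod fun k' hk' => (pow_pos (hpos k' hk') _).ne', Finset.sum_congr rfl hlog,
    Finset.sum_add_distrib, ← Finset.sum_mul]
  have h7 : ∑ k' ∈ univ.erase k, (mu m k' : ℝ) * aenG (pos m k) (pos m k') =
      ∑ k' : Ix m, (if k' = k then 0 else (mu m k' : ℝ) * aenG (pos m k) (pos m k')) := by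
    rw [← Finset.add_sum_erase univ (fun k' => if k' = k then 0 else
      (mu m k' : ℝ) * aenG (pos m k) (pos m k')) (Finset.mem_univ k), if_pos rfl, zero_add]
    refine Finset.sum_congr rfl fun k' hk' => ?_
    rw [if_neg (Finset.ne_of_mem_erase hk')]
  have h8 : ∑ k' ∈ univ.erase k, (mu m k' : ℝ) = nn m - mu m k := by
    have h9 := Finset.add_sum_erase univ (fun k' => (mu m k' : ℝ)) (Finset.mem_univ k)
    have h10 : ∑ k' : Ix m, (mu m k' : ℝ) = nn m := by exact_mod_cast sum_mu hm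
    rw [h10] at h9
    linarith
  have h11 : (mu m k : ℝ) ≤ 5 := by
    rcases k with k | k
    · exact le_of_eq (by simp [mu])
    · exact le_trans (le_of_eq (by simp [mu])) (by norm_num : (1 : ℝ) ≤ 5)
  have hL1 : Real.log 2 ≤ Real.log (m + 1) := Real.log_le_log (by norm_num) (by linarith)
  have hL4 : Real.log 4 = 2 * Real.log 2 := by
    rw [show (4 : ℝ) = 2 ^ 2 by norm_num, Real.log_pow]
    norm_num
  have hl2 : 0 < Real.log 2 := Real.log_pos (by norm_num)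
  rw [h7, h8, sub_mul]
  have h12 : (mu m k : ℝ) * Real.log 4 ≤ 5 * Real.log 4 :=
    mul_le_mul_of_nonneg_right h11 (by rw [hL4]; linarith)
  have h13 : (C + 10) * Real.log (m + 1) = C * Real.log (m + 1) + 10 * Real.log (m + 1) := by ring
  rw [h13]
  linarith

end AEN

end Pool.Agent.OZ
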