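import Pool.Agent.OZ.GRAM

/-! # The determinant of the Hermite basis -/

open Finset Polynomial

namespace Pool.Agent.OZ

theorem natDegree_herm {K ι : Type*} [CommRing K] [Nontrivial K] [Fintype ι] [DecidableEq ι]
    (y : ι → K) (M : ι → ℕ) (r : ℕ) (a : ((i : ι) × Fin (M i)) ⊕ Fin r) :
    (herm y M r a).natDegree < ∑ k, M k + r := by
  have hlin : ∀ (c : K) (n : ℕ), ((X - C c) ^ n : K[X]).natDegree ≤ n := fun c n =>
    (natDegree_pow_le_of_le n (natDegree_X_sub_C_le c)).trans (by rw [mul_one])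
  have hprod : ∀ s : Finset ι, (∏ k ∈ s, (X - C (y k)) ^ M k : K[X]).natDegree ≤ ∑ k ∈ s, M k :=
    fun s => (natDegree_prod_le s _).trans (Finset.sum_le_sum fun k _ => hlin _ _)
  cases a with
  | inl a =>
    obtain ⟨i, a⟩ := a
    have h1 : (herm y M r (Sum.inl ⟨i, a⟩)).natDegree ≤ (a : ℕ) + ∑ k ∈ univ.erase i, M k := by
      change (hb y M ⟨i, a⟩).natDegree ≤ _
      unfold hb
      refine natDegree_mul_le.trans (Nat.add_le_add (hlin _ _) (hprod _))
    have h2 : M i + ∑ k ∈ univ.erase i, M k = ∑ k, M k :=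
      Finset.add_sum_erase univ M (Finset.mem_univ i)
    have h3 := a.2
    omega
  | inr j =>
    have h1 : (herm y M r (Sum.inr j)).natDegree ≤ ∑ k, M k + (j : ℕ) := by
      change (nodeS y M * X ^ (j : ℕ)).natDegree ≤ _
      unfold nodeS
      refine natDegree_mul_le.trans (Nat.add_le_add (hprod _) (natDegree_X_pow_le _))
    have h3 := j.2
    omega

/-- existence of an enumeration -/
theorem exists_enum {ι : Type*} [Fintype ι] (M : ι → ℕ) (r n : ℕ) (h : ∑ k, M k + r = n) :
    Nonempty ((((i : ι) × Fin (M i)) ⊕ Fin r) ≃ Fin n) := by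
  refine ⟨Fintype.equivFinOfCardEq ?_⟩
  rw [Fintype.card_sum, Fintype.card_sigma, Fintype.card_fin, ← h]
  simp

/-- equality up to sign -/
def PM {K : Type*} [CommRing K] (x y : K) : Prop := ∃ ε : K, (ε = 1 ∨ ε = -1) ∧ x = ε * y

section PM

variable {K : Type*} [CommRing K]

theorem PM.refl (x : K) : PM x x := ⟨1, Or.inl rfl, by ring⟩

theorem PM.symm {x y : K} (h : PM x y) : PM y x := by
  obtain ⟨ε, h1, h2⟩ := h
  refine ⟨ε, h1, ?_⟩
  rcases h1 with h1 | h1 <;> rw [h2, h1] <;> ring

theorem PM.trans {x y z : K} (h : PM x y) (h' : PM y z) : PM x z := by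
  obtain ⟨ε, h1, h2⟩ := h
  obtain ⟨δ, h3, h4⟩ := h'
  refine ⟨ε * δ, ?_, by rw [h2, h4]; ring⟩
  rcases h1 with h1 | h1 <;> rcases h3 with h3 | h3 <;> rw [h1, h3] <;> simp

theorem PM.mul {x y z w : K} (h : PM x y) (h' : PM z w) : PM (x * z) (y * w) := by
  obtain ⟨ε, h1, h2⟩ := h
  obtain ⟨δ, h3, h4⟩ := h'
  refine ⟨ε * δ, ?_, by rw [h2, h4]; ring⟩
  rcases h1 with h1 | h1 <;> rcases h3 with h3 | h3 <;> rw [h1, h3] <;> simp

theorem PM.prod {ι : Type*} (s : Finset ι) (f g : ι → K) (h : ∀ i ∈ s, PM (f i) (g i)) :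
    PM (∏ i ∈ s, f i) (∏ i ∈ s, g i) := by
  classical
  induction s using Finset.induction_on with
  | empty => exact PM.refl _
  | insert a s ha ih =>
    rw [Finset.prod_insert ha, Finset.prod_insert ha]
    exact (h a (Finset.mem_insert_self a s)).mul
      (ih fun i hi => h i (Finset.mem_insert_of_mem hi))

theorem PM.of_sign {n : Type*} [Fintype n] [DecidableEq n] (σ : Equiv.Perm n) (x : K) :
    PM (((Equiv.Perm.sign σ : ℤ) : K) * x) x := by
  refine ⟨((Equiv.Perm.sign σ : ℤ) : K), ?_, rfl⟩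
  rcases Int.units_eq_one_or (Equiv.Perm.sign σ) with h | h
  · left; rw [h]; simp
  · right; rw [h]; simp

theorem PM.sq_eq {x y : K} (h : PM x y) : x ^ 2 = y ^ 2 := by
  obtain ⟨ε, h1, h2⟩ := h
  rcases h1 with h1 | h1 <;> rw [h2, h1] <;> ring

/-- an anti-triangular matrix with constant antidiagonal -/
theorem PM.anti {n : ℕ} (A : Matrix (Fin n) (Fin n) K) (c : K)
    (h0 : ∀ i j : Fin n, (i : ℕ) + j + 1 = n → A i j = c)
    (h1 : (∀ i j : Fin n, (i : ℕ) + j + 1 < n → A i j = 0) ∨
      (∀ i j : Fin n, n < (i : ℕ) + j + 1 → A i j = 0)) : PM A.det (c ^ n) := by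
  have h2 : (A.submatrix Fin.revPerm id).det = c ^ n := by
    have hd : ∀ i : Fin n, (A.submatrix Fin.revPerm id) i i = c := by
      intro i
      refine h0 _ _ ?_
      simp only [Fin.revPerm_apply, id_eq, Fin.val_rev]
      have := i.2
      omega
    rcases h1 with h1 | h1
    · rw [Matrix.det_of_upperTriangular]
      · rw [Finset.prod_congr rfl fun i _ => hd i, Finset.prod_const, Finset.card_univ,
          Fintype.card_fin]
      · intro i j hij
        refine h1 _ _ ?_
        simp only [id_eq] at hij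
        simp only [Fin.revPerm_apply, id_eq, Fin.val_rev]
        have h3 : (j : ℕ) < (i : ℕ) := hij
        have := i.2
        omega
    · rw [Matrix.det_of_lowerTriangular]
      · rw [Finset.prod_congr rfl fun i _ => hd i, Finset.prod_const, Finset.card_univ,
          Fintype.card_fin]
      · intro i j hij
        refine h1 _ _ ?_
        simp only [Fin.revPerm_apply, id_eq, Fin.val_rev]
        have h3 : (i : ℕ) < (j : ℕ) := by
          have : OrderDual.toDual j < OrderDual.toDual i := hij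
          exact this
        have := i.2
        omega
  have h3 : (A.submatrix Fin.revPerm id).det = ((Equiv.Perm.sign (Fin.revPerm (n := n)) : ℤ) : K)
      * A.det := by
    rw [Matrix.det_permute]
  rw [h3] at h2
  rw [← h2]
  exact (PM.of_sign _ _).symm

end PM

/-- the functional: coefficient of `X ^ (N - 1)` modulo a monic polynomial -/
noncomputable def topf {K : Type*} [CommRing K] (S : K[X]) (N : ℕ) : K[X] →ₗ[K] K :=
  (lcoeff K (N - 1)).comp (modByMonicHom S)

section top

variable {K : Type*} [CommRing K] [Nontrivial K] {S : K[X]} {N : ℕ}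

theorem topf_apply (P : K[X]) : topf S N P = (P %ₘ S).coeff (N - 1) := rfl

theorem topf_dvd (hS : S.Monic) {P : K[X]} (h : S ∣ P) : topf S N P = 0 := by
  rw [topf_apply, (modByMonic_eq_zero_iff_dvd hS).mpr h, coeff_zero]

theorem topf_small (hS : S.Monic) (hN : S.natDegree = N) {P : K[X]} (h : P.natDegree < N) :
    topf S N P = P.coeff (N - 1) := by
  rw [topf_apply, (modByMonic_eq_self_iff hS).mpr]
  rw [degree_eq_natDegree hS.ne_zero, hN]
  exact (degree_le_natDegree).trans_lt (by exact_mod_cast h)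

end top

/-- determinant of a block diagonal matrix with blocks of different sizes -/
theorem det_blockDiag {K ι : Type*} [CommRing K] [Fintype ι] [DecidableEq ι] {n : ι → Type*}
    [∀ i, Fintype (n i)] [∀ i, DecidableEq (n i)] (A : ∀ i, Matrix (n i) (n i) K) :
    (Matrix.blockDiagonal' A).det = ∏ i, (A i).det := by
  classical
  letI : LinearOrder ι := LinearOrder.lift' (Fintype.equivFin ι) (Fintype.equivFin ι).injective
  have h1 : (Matrix.blockDiagonal' A).det
      = ∏ i : ι, ((Matrix.blockDiagonal' A).toSquareBlock Sigma.fst i).det := by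
    convert Matrix.BlockTriangular.det_fintype (Matrix.blockTriangular_blockDiagonal' A)
  rw [h1]
  refine Finset.prod_congr rfl fun i _ => ?_
  rw [← Matrix.det_submatrix_equiv_self (Equiv.sigmaSubtype i) (A i)]
  congr 1
  ext ⟨⟨a, x⟩, ha⟩ ⟨⟨b, z⟩, hb⟩
  simp only at ha hb
  subst ha
  subst hb
  simp [Matrix.toSquareBlock_def, Matrix.blockDiagonal'_apply_eq]

section main

variable {K ι : Type*} [Field K] [Fintype ι] [DecidableEq ι]

theorem monic_lin (c : K) (n : ℕ) : ((X - C c) ^ n : K[X]).Monic := (monic_X_sub_C c).pow n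

theorem monic_nodeS (y : ι → K) (M : ι → ℕ) : (nodeS y M).Monic :=
  monic_prod_of_monic _ _ fun k _ => monic_lin _ _

theorem natDegree_nodeS (y : ι → K) (M : ι → ℕ) : (nodeS y M).natDegree = ∑ k, M k := by
  unfold nodeS
  rw [natDegree_prod_of_monic _ _ fun k _ => monic_lin _ _]
  refine Finset.sum_congr rfl fun k _ => ?_
  rw [(monic_X_sub_C (y k)).natDegree_pow, natDegree_X_sub_C, mul_one]

/-- the cofactor of a node -/
noncomputable def cof (y : ι → K) (M : ι → ℕ) (i : ι) : K[X] :=
  ∏ k ∈ univ.erase i, (X - C (y k)) ^ M k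

theorem nodeS_eq (y : ι → K) (M : ι → ℕ) (i : ι) :
    nodeS y M = (X - C (y i)) ^ M i * cof y M i :=
  (Finset.mul_prod_erase univ (fun k => (X - C (y k)) ^ M k) (Finset.mem_univ i)).symm

theorem monic_cof (y : ι → K) (M : ι → ℕ) (i : ι) : (cof y M i).Monic :=
  monic_prod_of_monic _ _ fun k _ => monic_lin _ _

theorem natDegree_cof (y : ι → K) (M : ι → ℕ) (i : ι) :
    (cof y M i).natDegree + M i = ∑ k, M k := by
  have h1 := natDegree_nodeS y M
  rw [nodeS_eq y M i, (monic_lin _ _).natDegree_mul (monic_cof y M i),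
    (monic_X_sub_C (y i)).natDegree_pow, natDegree_X_sub_C, mul_one] at h1
  omega

theorem hb_mul (y : ι → K) (M : ι → ℕ) (i : ι) (a b : Fin (M i)) :
    hb y M ⟨i, a⟩ * hb y M ⟨i, b⟩ = (X - C (y i)) ^ ((a : ℕ) + b) * cof y M i * cof y M i := by
  have e : ∀ a : Fin (M i), hb y M ⟨i, a⟩ = (X - C (y i)) ^ (a : ℕ) * cof y M i := fun _ => rfl
  rw [e, e, pow_add]; ring

/-- the block of a node -/
theorem block_det (y : ι → K) (M : ι → ℕ) (i : ι) :
    PM (Matrix.of fun a b : Fin (M i) =>
      topf (nodeS y M) (∑ k, M k) (hb y M ⟨i, a⟩ * hb y M ⟨i, b⟩)).det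
      (((cof y M i).eval (y i)) ^ M i) := by
  refine PM.anti _ _ ?_ (Or.inr ?_)
  · intro a b hab
    rw [Matrix.of_apply, hb_mul]
    set c := (cof y M i).eval (y i) with hc
    obtain ⟨U, hU⟩ : (X - C (y i)) ∣ cof y M i - C c := by
      rw [dvd_iff_isRoot, IsRoot.def, eval_sub, eval_C, hc, sub_self]
    have h1 : (X - C (y i)) ^ ((a : ℕ) + b) * cof y M i * cof y M i
        = nodeS y M * U + C c * ((X - C (y i)) ^ ((a : ℕ) + b) * cof y M i) := by
      have h2 : cof y M i = (X - C (y i)) * U + C c := by rw [← hU]; ring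
      have h3 : nodeS y M = (X - C (y i)) ^ ((a : ℕ) + b) * (X - C (y i)) * cof y M i := by
        rw [nodeS_eq y M i, ← pow_succ, hab]
      rw [h3]
      calc (X - C (y i)) ^ ((a : ℕ) + b) * cof y M i * cof y M i
          = (X - C (y i)) ^ ((a : ℕ) + b) * cof y M i * ((X - C (y i)) * U + C c) := by
            rw [← h2]
        _ = _ := by ring
    rw [h1, map_add, topf_dvd (monic_nodeS y M) (dvd_mul_right _ _), zero_add, ← smul_eq_C_mul,
      map_smul, smul_eq_mul]
    have hm : ((X - C (y i)) ^ ((a : ℕ) + b) * cof y M i).Monic :=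
      (monic_lin _ _).mul (monic_cof y M i)
    have hd : ((X - C (y i)) ^ ((a : ℕ) + b) * cof y M i).natDegree = ∑ k, M k - 1 := by
      rw [(monic_lin _ _).natDegree_mul (monic_cof y M i),
        (monic_X_sub_C (y i)).natDegree_pow, natDegree_X_sub_C, mul_one]
      have := natDegree_cof y M i
      omega
    have hpos : 0 < ∑ k, M k := by
      have := natDegree_cof y M i
      have := a.2
      omega
    rw [topf_small (monic_nodeS y M) (natDegree_nodeS y M) (by rw [hd]; omega), ← hd,
      hm.coeff_natDegree, mul_one]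
  · intro a b hab
    rw [Matrix.of_apply, hb_mul]
    refine topf_dvd (monic_nodeS y M) ?_
    rw [nodeS_eq y M i]
    refine Dvd.dvd.mul_right ?_ _
    exact mul_dvd_mul (pow_dvd_pow _ (by omega)) dvd_rfl

theorem hb_cross (y : ι → K) (M : ι → ℕ) {i k : ι} (hik : i ≠ k) (a : Fin (M i)) (b : Fin (M k)) :
    nodeS y M ∣ hb y M ⟨i, a⟩ * hb y M ⟨k, b⟩ := by
  have h1 : nodeS y M = (X - C (y i)) ^ M i * cof y M i := nodeS_eq y M i
  have h2 : (X - C (y i)) ^ M i ∣ hb y M ⟨k, b⟩ := by
    unfold hb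
    refine Dvd.dvd.mul_left ?_ _
    exact Finset.dvd_prod_of_mem (fun k => (X - C (y k)) ^ M k)
      (Finset.mem_erase.mpr ⟨hik, Finset.mem_univ i⟩)
  have h3 : cof y M i ∣ hb y M ⟨i, a⟩ := Dvd.intro_left _ rfl
  rw [h1, mul_comm]
  exact mul_dvd_mul h3 h2

/-- the Gram matrix of the functional `topf` -/
theorem gram_top (y : ι → K) (M : ι → ℕ) :
    PM (Matrix.of fun a b : (i : ι) × Fin (M i) =>
      topf (nodeS y M) (∑ k, M k) (hb y M a * hb y M b)).det
      (∏ i, ((cof y M i).eval (y i)) ^ M i) := by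
  have h1 : (Matrix.of fun a b : (i : ι) × Fin (M i) =>
      topf (nodeS y M) (∑ k, M k) (hb y M a * hb y M b))
      = Matrix.blockDiagonal' (fun i : ι => Matrix.of fun a b : Fin (M i) =>
        topf (nodeS y M) (∑ k, M k) (hb y M ⟨i, a⟩ * hb y M ⟨i, b⟩)) := by
    ext ⟨i, a⟩ ⟨k, b⟩
    by_cases hik : i = k
    · subst hik
      rw [Matrix.blockDiagonal'_apply_eq]; rfl
    · rw [Matrix.blockDiagonal'_apply_ne _ _ _ hik, Matrix.of_apply]
      exact topf_dvd (monic_nodeS y M) (hb_cross y M hik a b)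
  rw [h1, det_blockDiag]
  exact PM.prod _ _ _ fun i _ => block_det y M i

/-- the Hankel determinant of the functional `topf` -/
theorem hankel_top {S : K[X]} {N : ℕ} (hS : S.Monic) (hN : S.natDegree = N) :
    PM (Matrix.of fun i j : Fin N => topf S N (X ^ ((i : ℕ) + (j : ℕ)))).det 1 := by
  have h := PM.anti (Matrix.of fun i j : Fin N => topf S N (X ^ ((i : ℕ) + (j : ℕ)))) 1 ?_
    (Or.inl ?_)
  · rwa [one_pow] at h
  · intro i j hij
    rw [Matrix.of_apply, topf_small hS hN (by rw [natDegree_X_pow]; omega), coeff_X_pow,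
      if_pos (by omega)]
  · intro i j hij
    rw [Matrix.of_apply, topf_small hS hN (by rw [natDegree_X_pow]; omega), coeff_X_pow,
      if_neg (by omega)]

/-- the enumeration does not matter up to sign -/
theorem coefM_perm {κ : Type*} [Fintype κ] [DecidableEq κ] {n : ℕ} (f g : κ ≃ Fin n)
    (P : κ → K[X]) : PM (coefM f P).det (coefM g P).det := by
  have h1 : coefM f P = (coefM g P).submatrix id (f.trans g.symm) := by
    ext a b
    simp [coefM]
  rw [h1, Matrix.det_permute']
  exact PM.of_sign _ _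

/-- no additional elements -/
theorem hb_det_sq (y : ι → K) (M : ι → ℕ) (g : ((i : ι) × Fin (M i)) ≃ Fin (∑ k, M k)) :
    PM ((coefM g (hb y M)).det ^ 2) (∏ i, ((cof y M i).eval (y i)) ^ M i) := by
  have h1 := gram_det g (hb y M) (fun a => by
    have := natDegree_herm y M 0 (Sum.inl a)
    rwa [add_zero] at this) (topf (nodeS y M) (∑ k, M k))
  have h2 := gram_top y M
  rw [h1] at h2
  have h3 := (PM.refl ((coefM g (hb y M)).det ^ 2)).mul
    (hankel_top (monic_nodeS y M) (natDegree_nodeS y M))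
  rw [mul_one] at h3
  exact h3.symm.trans h2

theorem herm_det_sq (y : ι → K)
    (M : ι → ℕ) (r : ℕ) (_hy : ∀ i k, i ≠ k → M i ≠ 0 → M k ≠ 0 → y i ≠ y k) {n : ℕ}
    (f : (((i : ι) × Fin (M i)) ⊕ Fin r) ≃ Fin n) :
    ∃ ε : K, (ε = 1 ∨ ε = -1) ∧
      (coefM f (herm y M r)).det ^ 2 = ε * ∏ i, ∏ k ∈ univ.erase i, (y i - y k) ^ (M i * M k) := by
  have hn : n = ∑ k, M k + r := by
    have := Fintype.card_congr f
    rw [Fintype.card_sum, Fintype.card_sigma, Fintype.card_fin, Fintype.card_fin] at this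
    simpa using this.symm
  subst hn
  obtain ⟨g⟩ : Nonempty (((i : ι) × Fin (M i)) ≃ Fin (∑ k, M k)) :=
    ⟨Fintype.equivFinOfCardEq (by rw [Fintype.card_sigma]; simp)⟩
  set f0 : (((i : ι) × Fin (M i)) ⊕ Fin r) ≃ Fin (∑ k, M k + r) :=
    (Equiv.sumCongr g (Equiv.refl (Fin r))).trans finSumFinEquiv with hf0
  have hperm := (coefM_perm f f0 (herm y M r)).sq_eq
  have hblock : coefM f0 (herm y M r) = Matrix.fromBlocks (coefM g (hb y M)) 0
      (Matrix.of fun (j : Fin r) (b : (i : ι) × Fin (M i)) =>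
        (nodeS y M * X ^ (j : ℕ)).coeff (g b : ℕ))
      (Matrix.of fun (j j' : Fin r) => (nodeS y M * X ^ (j : ℕ)).coeff (∑ k, M k + (j' : ℕ))) := by
    ext a b
    cases a with
    | inl a =>
      cases b with
      | inl b => simp [coefM, herm, hf0]
      | inr j' =>
        simp only [coefM, herm, hf0, Matrix.of_apply, Sum.elim_inl, Equiv.trans_apply,
          Equiv.sumCongr_apply, Sum.map_inr, Equiv.refl_apply, finSumFinEquiv_apply_right,
          Fin.val_natAdd, Matrix.fromBlocks_apply₁₂, Matrix.zero_apply]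
        refine coeff_eq_zero_of_natDegree_lt ?_
        have := natDegree_herm y M 0 (Sum.inl a)
        rw [add_zero] at this
        have h4 : (herm y M 0 (Sum.inl a)) = hb y M a := rfl
        rw [h4] at this
        omega
    | inr j =>
      cases b with
      | inl b => simp [coefM, herm, hf0]
      | inr j' => simp [coefM, herm, hf0]
  have htri : (Matrix.of fun (j j' : Fin r) =>
      (nodeS y M * X ^ (j : ℕ)).coeff (∑ k, M k + (j' : ℕ))).det = 1 := by
    rw [Matrix.det_of_lowerTriangular]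
    · rw [Finset.prod_eq_one]
      intro j _
      have hm : (nodeS y M * X ^ (j : ℕ)).Monic := (monic_nodeS y M).mul (monic_X_pow _)
      have hd : (nodeS y M * X ^ (j : ℕ)).natDegree = ∑ k, M k + (j : ℕ) := by
        rw [(monic_nodeS y M).natDegree_mul (monic_X_pow _), natDegree_nodeS, natDegree_X_pow]
      rw [Matrix.of_apply, ← hd, hm.coeff_natDegree]
    · intro j j' hij
      rw [Matrix.of_apply]
      refine coeff_eq_zero_of_natDegree_lt ?_
      rw [(monic_nodeS y M).natDegree_mul (monic_X_pow _), natDegree_nodeS, natDegree_X_pow]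
      have h3 : (j : ℕ) < (j' : ℕ) := by
        have : OrderDual.toDual j' < OrderDual.toDual j := hij
        exact this
      omega
  rw [hblock, Matrix.det_fromBlocks_zero₁₂, htri, mul_one] at hperm
  have hmain := hb_det_sq y M g
  rw [← hperm] at hmain
  obtain ⟨ε, h1, h2⟩ := hmain
  refine ⟨ε, h1, ?_⟩
  rw [h2]
  congr 1
  refine Finset.prod_congr rfl fun i _ => ?_
  unfold cof
  rw [eval_prod, ← Finset.prod_pow]
  refine Finset.prod_congr rfl fun k _ => ?_
  rw [eval_pow, eval_sub, eval_X, eval_C, ← pow_mul, mul_comm (M k)]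

end main

end Pool.Agent.OZ
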