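import Pool.Agent.OZ.AENA
import Pool.Agent.OZ.HERM

/-! # The energy of the nodes bounds the determinant of the Hermite basis from below -/

open Finset Polynomial

namespace Pool.Agent.OZ

theorem det_ge : ∃ C : ℝ, ∀ m : ℕ, 1 ≤ m → ∀ f : JJ m ≃ Fin (nn m),
    Real.exp ((nn m : ℝ) ^ 2 * Real.log 4 + 2312 * (m : ℝ) ^ 2 * Real.log m +
      m * ∑ k, mu m k * UC ((pos m k).re / m) ((pos m k).im / m) - C * m * Real.log (m + 1)) ≤
      ‖(coefM f (PC m)).det ^ 2‖ := by
  obtain ⟨C, hC0, hC⟩ := node_ge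
  refine ⟨39 * C, fun m hm f => ?_⟩
  have hm1 : (1 : ℝ) ≤ m := by exact_mod_cast hm
  have hlog1 : 0 ≤ Real.log (m + 1) := Real.log_nonneg (by linarith)
  have hlogm : 0 ≤ Real.log m := Real.log_nonneg hm1
  -- the determinant
  have hdet : ‖(coefM f (PC m)).det ^ 2‖ =
      ∏ i, (∏ k ∈ univ.erase i, ‖yN m i - yN m k‖ ^ mu m k) ^ mu m i := by
    obtain ⟨ε, hε, h⟩ := herm_det_sq (yN m) (mu m) 0
      (fun i k hik _ _ hy => hik (yN_inj hm hy)) ((Equiv.sumEmpty (JJ m) (Fin 0)).trans f)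
    have h2 : (coefM ((Equiv.sumEmpty (JJ m) (Fin 0)).trans f) (herm (yN m) (mu m) 0)).det =
        (coefM f (PC m)).det := by
      rw [← Matrix.det_submatrix_equiv_self (Equiv.sumEmpty (JJ m) (Fin 0)).symm]
      rfl
    rw [← h2, h, norm_mul]
    have h3 : ‖ε‖ = 1 := by rcases hε with h | h <;> rw [h] <;> simp
    rw [h3, one_mul, norm_prod]
    refine Finset.prod_congr rfl fun i _ => ?_
    rw [norm_prod, ← Finset.prod_pow]
    refine Finset.prod_congr rfl fun k _ => ?_
    rw [norm_pow, mul_comm (mu m i), pow_mul]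
  rw [hdet]
  -- the exponents
  set E : Ix m → ℝ := fun k => nn m * Real.log 4 +
    m * UC ((pos m k).re / m) ((pos m k).im / m) + 68 * m * Real.log m - C * Real.log (m + 1)
    with hE
  have hprod : ∏ i, Real.exp (E i) ^ mu m i ≤
      ∏ i, (∏ k ∈ univ.erase i, ‖yN m i - yN m k‖ ^ mu m k) ^ mu m i :=
    Finset.prod_le_prod (fun i _ => by positivity)
      (fun i _ => pow_le_pow_left₀ (Real.exp_pos _).le (hC m hm i) _)
  refine le_trans ?_ hprod
  have h4 : ∏ i, Real.exp (E i) ^ mu m i = Real.exp (∑ i, mu m i * E i) := by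
    rw [Real.exp_sum]
    exact Finset.prod_congr rfl fun i _ => (Real.exp_nat_mul _ _).symm
  rw [h4]
  refine Real.exp_le_exp.2 ?_
  have hsum : (∑ k, (mu m k : ℝ)) = nn m := by
    rw [← sum_mu hm]; push_cast; rfl
  have h5 : ∑ i, mu m i * E i = (nn m : ℝ) * (nn m * Real.log 4 + 68 * m * Real.log m -
      C * Real.log (m + 1)) + m * ∑ k, mu m k * UC ((pos m k).re / m) ((pos m k).im / m) := by
    rw [← hsum, Finset.mul_sum, Finset.sum_mul, ← Finset.sum_add_distrib, hsum]
    exact Finset.sum_congr rfl fun i _ => by rw [hE]; ring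
  rw [h5]
  have hnn : (nn m : ℝ) = 34 * m + 5 := by rw [nn]; push_cast; ring
  have h6 : (0 : ℝ) ≤ m * Real.log m := by positivity
  have h7 : C * Real.log (m + 1) ≤ C * m * Real.log (m + 1) := by
    have : (0 : ℝ) ≤ C * Real.log (m + 1) * (m - 1) := by
      have := mul_nonneg hC0.le hlog1
      exact mul_nonneg this (by linarith)
    linarith
  have h8 : (nn m : ℝ) * (nn m * Real.log 4 + 68 * m * Real.log m - C * Real.log (m + 1)) =
      (nn m : ℝ) ^ 2 * Real.log 4 + 2312 * (m : ℝ) ^ 2 * Real.log m + 340 * (m * Real.log m) -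
        34 * (C * m * Real.log (m + 1)) - 5 * (C * Real.log (m + 1)) := by
    rw [hnn]; ring
  rw [h8]
  linarith

end Pool.Agent.OZ
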