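import Pool.Agent.OZ.AHCB

/-!
# Moving the point in the node potential
-/

namespace Pool.Agent.OZ

private theorem ahcc_move : ∃ C : ℝ, 0 < C ∧ ∀ x x' y y' R : ℝ, |x - x'| ≤ 3 → |y - y'| ≤ 3 →
    |x| ≤ R → |y| ≤ R → 2 ≤ R → |HC x y - HC x' y'| ≤ C * Real.log R := by
  obtain ⟨C, hC, h⟩ := HC_lip
  refine ⟨C + 9, by linarith, ?_⟩
  intro x x' y y' R hx hy hxR hyR hR
  have h1 := h x x' y R hx hxR hyR hR
  have h2 := HC_lip_right x' y y'
  have hlog2 : Real.log 2 ≤ Real.log R := Real.log_le_log (by norm_num) hR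
  have hl2 := Real.log_two_gt_d9
  calc |HC x y - HC x' y'| = |(HC x y - HC x' y) + (HC x' y - HC x' y')| := by ring_nf
    _ ≤ |HC x y - HC x' y| + |HC x' y - HC x' y'| := abs_add_le _ _
    _ ≤ (C + 9) * Real.log R := by nlinarith

/-- moving the point, node potential only -/
theorem UC_shift : ∃ C : ℝ, 0 < C ∧ ∀ m x x' y y' : ℝ, 1 ≤ m → |x - x'| ≤ 3 → |y - y'| ≤ 3 →
    |m * UC (x / m) (y / m) - m * UC (x' / m) (y' / m)| ≤ C * Real.log (m + 1 + |x| + |y|) := by
  obtain ⟨C, hC, h⟩ := ahcc_move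
  refine ⟨500 * C, by positivity, ?_⟩
  intro m x x' y y' hm hx hy
  have hm0 : 0 < m := by linarith
  have hS2 : 2 ≤ m + 1 + |x| + |y| := by
    have := abs_nonneg x
    have := abs_nonneg y
    linarith
  have hR2 : 2 ≤ 16 * (m + 1 + |x| + |y|) := by linarith
  have hlogR : Real.log (16 * (m + 1 + |x| + |y|)) ≤ 5 * Real.log (m + 1 + |x| + |y|) := by
    rw [Real.log_mul (by norm_num) (by linarith)]
    have e : Real.log 16 = 4 * Real.log 2 := by
      rw [show (16 : ℝ) = 2 ^ 4 by norm_num, Real.log_pow]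
      norm_num
    have := Real.log_le_log (by norm_num) hS2
    linarith
  have hlog0 : 0 ≤ Real.log (m + 1 + |x| + |y|) := Real.log_nonneg (by linarith)
  have hxR : ∀ c : ℝ, |c| ≤ 14 → |x + c * m| ≤ 16 * (m + 1 + |x| + |y|) := by
    intro c hc
    have h1 : |x + c * m| ≤ |x| + |c * m| := abs_add_le _ _
    have h2 : |c * m| ≤ 14 * m := by
      rw [abs_mul, abs_of_pos hm0]
      exact mul_le_mul_of_nonneg_right hc hm0.le
    have := abs_nonneg x
    have := abs_nonneg y
    linarith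
  have hyR : ∀ c : ℝ, |c| ≤ 14 → |y + c * m| ≤ 16 * (m + 1 + |x| + |y|) := by
    intro c hc
    have h1 : |y + c * m| ≤ |y| + |c * m| := abs_add_le _ _
    have h2 : |c * m| ≤ 14 * m := by
      rw [abs_mul, abs_of_pos hm0]
      exact mul_le_mul_of_nonneg_right hc hm0.le
    have := abs_nonneg x
    have := abs_nonneg y
    linarith
  have hyR0 : |y| ≤ 16 * (m + 1 + |x| + |y|) := by
    have := abs_nonneg x
    have := abs_nonneg y
    linarith
  -- one horizontal term
  have t : ∀ c : ℝ, |c| ≤ 14 → |HC (x + c * m) y - HC (x' + c * m) y'| ≤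
      5 * C * Real.log (m + 1 + |x| + |y|) := by
    intro c hc
    have h1 := h (x + c * m) (x' + c * m) y y' _ (by simpa using hx) hy (hxR c hc) hyR0 hR2
    refine h1.trans ?_
    have := mul_le_mul_of_nonneg_left hlogR hC.le
    linarith
  -- one vertical term
  have v : ∀ c d : ℝ, |c| ≤ 14 → |d| ≤ 14 →
      |HC (y + c * m) (x + d * m) - HC (y' + c * m) (x' + d * m)| ≤
      5 * C * Real.log (m + 1 + |x| + |y|) := by
    intro c d hc hd
    have h1 := h (y + c * m) (y' + c * m) (x + d * m) (x' + d * m) _ (by simpa using hy)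
      (by simpa using hx) (hyR c hc) (hxR d hd) hR2
    refine h1.trans ?_
    have := mul_le_mul_of_nonneg_left hlogR hC.le
    linarith
  have t1 := abs_le.1 (t 8 (by norm_num))
  have t2 := abs_le.1 (t (-8) (by norm_num))
  have t3 := abs_le.1 (t 7 (by norm_num))
  have t4 := abs_le.1 (t (-7) (by norm_num))
  have t5 := abs_le.1 (t 6 (by norm_num))
  have t6 := abs_le.1 (t (-6) (by norm_num))
  have t7 := abs_le.1 (t 11 (by norm_num))
  have t8 := abs_le.1 (t (-11) (by norm_num))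
  have t9 := abs_le.1 (t 14 (by norm_num))
  have t0 := abs_le.1 (t (-14) (by norm_num))
  have v1 := abs_le.1 (v (37 / 5) (-14) (by norm_num [abs_of_pos]) (by norm_num))
  have v2 := abs_le.1 (v (-(37 / 5)) (-14) (by norm_num [abs_of_pos]) (by norm_num))
  have v3 := abs_le.1 (v (37 / 5) 14 (by norm_num [abs_of_pos]) (by norm_num))
  have v4 := abs_le.1 (v (-(37 / 5)) 14 (by norm_num [abs_of_pos]) (by norm_num))
  simp only [neg_mul, ← sub_eq_add_neg] at t2 t4 t6 t8 t0 v1 v2 v4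
  have hU := UC_scale hm0 x y
  have hU' := UC_scale hm0 x' y'
  have e : m * UC (x / m) (y / m) - m * UC (x' / m) (y' / m) =
      ((m * UC (x / m) (y / m) + 68 * m * Real.log m) -
        (m * UC (x' / m) (y' / m) + 68 * m * Real.log m)) := by ring
  rw [e, hU, hU']
  have hK : 0 ≤ C * Real.log (m + 1 + |x| + |y|) := mul_nonneg hC.le hlog0
  rw [abs_le]
  constructor
  · linarith [t1.1, t1.2, t2.1, t2.2, t7.1, t7.2,
      t8.1, t8.2, t9.1, t9.2, t0.1, t0.2, v1.1, v1.2, v2.1, v2.2, v3.1, v3.2, v4.1, v4.2]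
  · linarith [t1.1, t1.2, t2.1, t2.2, t7.1, t7.2,
      t8.1, t8.2, t9.1, t9.2, t0.1, t0.2, v1.1, v1.2, v2.1, v2.2, v3.1, v3.2, v4.1, v4.2]

end Pool.Agent.OZ
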