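import Pool.Agent.OZ.CStepF

/-! # OZ, CSTEP : Riemann sums of step functions -/

open Finset

namespace Pool.Agent.OZ

/-- increasing end points -/
def incr : ℤ → List (ℤ × ℤ) → Prop
  | _, [] => True
  | A, (B, _) :: r => A < B ∧ incr B r

theorem incr_of_chk {D : ℕ} {ts : List Tm} {lin : ℤ} (A : ℤ) (cs : List (ℤ × ℤ))
    (h : cellsChk D ts lin A cs = true) : incr A cs := by
  induction cs generalizing A with
  | nil => trivial
  | cons c r ih =>
    obtain ⟨B, l⟩ := c
    simp only [cellsChk, Bool.and_eq_true] at h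
    obtain ⟨h1, h2⟩ := h
    refine ⟨?_, ih B h2⟩
    simp only [cellChk, Bool.and_eq_true, decide_eq_true_eq] at h1
    have := h1.1.1.1
    omega

theorem lastE_ge (A : ℤ) (cs : List (ℤ × ℤ)) (h : incr A cs) : A ≤ lastE A cs := by
  induction cs generalizing A with
  | nil => exact le_rfl
  | cons c r ih =>
    obtain ⟨B, l⟩ := c
    have h1 : A < B := h.1
    have h2 := ih B h.2
    show A ≤ lastE B r
    omega

/-- the sum of the absolute values of the levels -/
noncomputable def labs : List (ℤ × ℤ) → ℝ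
  | [] => 0
  | (_, l) :: r => |(l : ℝ)| / 1000 + labs r

theorem labs_nonneg (cs : List (ℤ × ℤ)) : 0 ≤ labs cs := by
  induction cs with
  | nil => exact le_rfl
  | cons c r ih =>
    obtain ⟨B, l⟩ := c
    show 0 ≤ |(l : ℝ)| / 1000 + labs r
    positivity

theorem cnt_bounds (N : ℕ) (z : ℝ) :
    (∑ k ∈ range N, if (k : ℝ) ≤ z then (1 : ℝ) else 0) ≤ max 0 (z + 1) ∧
      min (N : ℝ) z ≤ ∑ k ∈ range N, if (k : ℝ) ≤ z then (1 : ℝ) else 0 := by
  rw [Finset.sum_boole]
  rcases lt_or_ge z 0 with hz | hz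
  · have h0 : (range N).filter (fun k : ℕ => (k : ℝ) ≤ z) = ∅ := by
      apply Finset.filter_false_of_mem
      intro k _ hk
      have : (0 : ℝ) ≤ k := Nat.cast_nonneg k
      linarith
    rw [h0]
    simp only [card_empty, Nat.cast_zero]
    exact ⟨le_max_left _ _, (min_le_right _ _).trans hz.le⟩
  · constructor
    · refine le_trans ?_ (le_max_right _ _)
      have hs : (range N).filter (fun k : ℕ => (k : ℝ) ≤ z) ⊆ range (⌊z⌋₊ + 1) := by
        intro k hk
        rw [mem_filter] at hk
        rw [mem_range]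
        exact Nat.lt_succ_of_le (Nat.le_floor hk.2)
      have h1 := card_le_card hs
      rw [card_range] at h1
      have h2 : (((range N).filter (fun k : ℕ => (k : ℝ) ≤ z)).card : ℝ) ≤ ((⌊z⌋₊ + 1 : ℕ) : ℝ) := by
        exact_mod_cast h1
      have h3 := Nat.floor_le hz
      push_cast at h2
      linarith
    · rcases le_total N (⌊z⌋₊ + 1) with hN | hN
      · have hs : range N ⊆ (range N).filter (fun k : ℕ => (k : ℝ) ≤ z) := by
          intro k hk
          rw [mem_filter]
          refine ⟨hk, ?_⟩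
          rw [mem_range] at hk
          have : k ≤ ⌊z⌋₊ := by omega
          exact (Nat.le_floor_iff hz).1 this
        have h1 := card_le_card hs
        rw [card_range] at h1
        exact (min_le_left _ _).trans (by exact_mod_cast h1)
      · have hs : range (⌊z⌋₊ + 1) ⊆ (range N).filter (fun k : ℕ => (k : ℝ) ≤ z) := by
          intro k hk
          rw [mem_filter, mem_range]
          rw [mem_range] at hk
          refine ⟨by omega, ?_⟩
          have : k ≤ ⌊z⌋₊ := by omega
          exact (Nat.le_floor_iff hz).1 this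
        have h1 := card_le_card hs
        rw [card_range] at h1
        have h2 : ((⌊z⌋₊ + 1 : ℕ) : ℝ) ≤ (((range N).filter (fun k : ℕ => (k : ℝ) ≤ z)).card : ℝ) := by
          exact_mod_cast h1
        have h3 := Nat.lt_floor_add_one z
        push_cast at h2
        exact (min_le_right _ _).trans (by linarith)

theorem step_aux {D : ℕ} (hD : 0 < D) (v : ℕ → ℝ) (N : ℕ) (A0 : ℤ) (ρ c' : ℝ) (cs : List (ℤ × ℤ)) :
    ∀ A : ℤ, incr A cs →
    (∀ B : ℤ, A ≤ B → B ≤ lastE A cs →
      |(∑ k ∈ range N, if v k ≤ (B : ℝ) / D then (1 : ℝ) else 0) - ((B : ℝ) - A0) * ρ| ≤ c') →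
    ∑ k ∈ range N, (if v k ≤ (A : ℝ) / D then 0 else stepF D cs (v k)) ≤
      ρ * ((stepI A cs : ℝ) / 1000) + 2 * c' * labs cs := by
  induction cs with
  | nil =>
    intro A _ _
    simp [stepF, stepI, labs]
  | cons c r ih =>
    intro A hinc hB
    obtain ⟨B, l⟩ := c
    have hAB : A < B := hinc.1
    have hinc' : incr B r := hinc.2
    have hlast : lastE A ((B, l) :: r) = lastE B r := rfl
    have hBl : B ≤ lastE B r := lastE_ge B r hinc'
    have hih := ih B hinc' (by
      intro B' h1 h2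
      exact hB B' (by omega) (by rw [hlast]; exact h2))
    have hDr : (0 : ℝ) < D := by exact_mod_cast hD
    have hABr : (A : ℝ) / D < (B : ℝ) / D := by
      apply div_lt_div_of_pos_right _ hDr
      exact_mod_cast hAB
    have hpt : ∀ x : ℝ, (if x ≤ (A : ℝ) / D then 0 else stepF D ((B, l) :: r) x) =
        (l : ℝ) / 1000 * ((if x ≤ (B : ℝ) / D then (1 : ℝ) else 0) -
          (if x ≤ (A : ℝ) / D then (1 : ℝ) else 0)) +
          (if x ≤ (B : ℝ) / D then 0 else stepF D r x) := by
      intro x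
      have hs : stepF D ((B, l) :: r) x = if x ≤ (B : ℝ) / D then (l : ℝ) / 1000 else stepF D r x := rfl
      rw [hs]
      by_cases h1 : x ≤ (A : ℝ) / D
      · have h2 : x ≤ (B : ℝ) / D := h1.trans hABr.le
        simp [h1, h2]
      · by_cases h2 : x ≤ (B : ℝ) / D
        · simp [h1, h2]
        · simp [h1, h2]
    have hsum : ∑ k ∈ range N, (if v k ≤ (A : ℝ) / D then 0 else stepF D ((B, l) :: r) (v k)) =
        (l : ℝ) / 1000 * ((∑ k ∈ range N, if v k ≤ (B : ℝ) / D then (1 : ℝ) else 0) -
          (∑ k ∈ range N, if v k ≤ (A : ℝ) / D then (1 : ℝ) else 0)) +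
          ∑ k ∈ range N, (if v k ≤ (B : ℝ) / D then 0 else stepF D r (v k)) := by
      rw [← Finset.sum_sub_distrib, Finset.mul_sum, ← Finset.sum_add_distrib]
      exact Finset.sum_congr rfl fun k _ => hpt (v k)
    rw [hsum]
    have hb1 := hB B hAB.le (by rw [hlast]; exact hBl)
    have hb2 := hB A le_rfl (by rw [hlast]; omega)
    set cB := ∑ k ∈ range N, if v k ≤ (B : ℝ) / D then (1 : ℝ) else 0 with hcB
    set cA := ∑ k ∈ range N, if v k ≤ (A : ℝ) / D then (1 : ℝ) else 0 with hcA
    have hdiff : |(cB - cA) - ((B : ℝ) - A) * ρ| ≤ 2 * c' := by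
      have : (cB - cA) - ((B : ℝ) - A) * ρ =
          (cB - ((B : ℝ) - A0) * ρ) - (cA - ((A : ℝ) - A0) * ρ) := by ring
      rw [this]
      calc _ ≤ |cB - ((B : ℝ) - A0) * ρ| + |cA - ((A : ℝ) - A0) * ρ| := abs_sub _ _
        _ ≤ 2 * c' := by linarith
    have hmul : (l : ℝ) / 1000 * (cB - cA) ≤
        (l : ℝ) / 1000 * (((B : ℝ) - A) * ρ) + 2 * c' * (|(l : ℝ)| / 1000) := by
      have h1 : (l : ℝ) / 1000 * (cB - cA) - (l : ℝ) / 1000 * (((B : ℝ) - A) * ρ) =
          (l : ℝ) / 1000 * ((cB - cA) - ((B : ℝ) - A) * ρ) := by ring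
      have h2 : (l : ℝ) / 1000 * ((cB - cA) - ((B : ℝ) - A) * ρ) ≤
          |(l : ℝ) / 1000| * |(cB - cA) - ((B : ℝ) - A) * ρ| := by
        rw [← abs_mul]; exact le_abs_self _
      have h3 : |(l : ℝ) / 1000| * |(cB - cA) - ((B : ℝ) - A) * ρ| ≤ |(l : ℝ) / 1000| * (2 * c') :=
        mul_le_mul_of_nonneg_left hdiff (abs_nonneg _)
      have h4 : |(l : ℝ) / 1000| = |(l : ℝ)| / 1000 := by
        rw [abs_div]; norm_num
      rw [h4] at h3 h2
      linarith
    have hstep : (stepI A ((B, l) :: r) : ℝ) = ((B : ℝ) - A) * l + stepI B r := by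
      have : stepI A ((B, l) :: r) = (B - A) * l + stepI B r := rfl
      rw [this]; push_cast; ring
    have hlabs : labs ((B, l) :: r) = |(l : ℝ)| / 1000 + labs r := rfl
    rw [hstep, hlabs]
    have e1 : ρ * ((((B : ℝ) - A) * l + stepI B r) / 1000) + 2 * c' * (|(l : ℝ)| / 1000 + labs r) =
        ((l : ℝ) / 1000 * (((B : ℝ) - A) * ρ) + 2 * c' * (|(l : ℝ)| / 1000)) +
          (ρ * ((stepI B r : ℝ) / 1000) + 2 * c' * labs r) := by ring
    rw [e1]
    linarith

theorem step_sum {D : ℕ} (hD : 0 < D) (A : ℤ) (cs : List (ℤ × ℤ)) (hc : incr A cs) {h : ℝ}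
    (hh : 0 < h) (s c0 : ℝ) : ∃ C : ℝ, ∀ m : ℕ, 1 ≤ m → ∀ N : ℕ,
    |N * h - ((lastE A cs : ℝ) - A) / D * m| ≤ c0 →
    ∑ k ∈ range N, stepF D cs (((A : ℝ) / D * m + s + h * k) / m) ≤
      m / h * ((stepI A cs : ℝ) / (1000 * D)) + C := by
  set c' : ℝ := (|c0| + |s|) / h + 1 with hc'
  refine ⟨3 * c' * labs cs, ?_⟩
  intro m hm N hN
  have hDr : (0 : ℝ) < D := by exact_mod_cast hD
  have hmr : (0 : ℝ) < m := by exact_mod_cast hm
  have hc'0 : 0 ≤ c' := by positivity
  set v : ℕ → ℝ := fun k => ((A : ℝ) / D * m + s + h * k) / m with hv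
  have hcount : ∀ B : ℤ, A ≤ B → B ≤ lastE A cs →
      |(∑ k ∈ range N, if v k ≤ (B : ℝ) / D then (1 : ℝ) else 0) -
        ((B : ℝ) - A) * (m / (D * h))| ≤ c' := by
    intro B h1 h2
    have h1r : (A : ℝ) ≤ B := by exact_mod_cast h1
    have h2r : (B : ℝ) ≤ lastE A cs := by exact_mod_cast h2
    set x : ℝ := ((B : ℝ) - A) * (m / (D * h)) with hx
    have hx0 : 0 ≤ x := by
      have : 0 ≤ (B : ℝ) - A := by linarith
      positivity
    set z : ℝ := x - s / h with hz
    have hiff : ∀ k : ℕ, (v k ≤ (B : ℝ) / D) ↔ ((k : ℝ) ≤ z) := by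
      intro k
      have e1 : (v k ≤ (B : ℝ) / D) ↔ (A : ℝ) / D * m + s + h * k ≤ (B : ℝ) / D * m := by
        simp only [hv]
        rw [div_le_iff₀ hmr]
      have e2 : ((k : ℝ) ≤ z) ↔ (h * k ≤ h * z) := by
        constructor
        · intro hk; exact mul_le_mul_of_nonneg_left hk hh.le
        · intro hk; exact le_of_mul_le_mul_left hk hh
      have e3 : h * z = ((B : ℝ) - A) / D * m - s := by
        rw [hz, hx]
        field_simp
      rw [e1, e2, e3]
      constructor
      · intro hk
        have : ((B : ℝ) - A) / D * m = (B : ℝ) / D * m - (A : ℝ) / D * m := by ring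
        rw [this]; linarith
      · intro hk
        have : ((B : ℝ) - A) / D * m = (B : ℝ) / D * m - (A : ℝ) / D * m := by ring
        rw [this] at hk; linarith
    have hsumeq : (∑ k ∈ range N, if v k ≤ (B : ℝ) / D then (1 : ℝ) else 0) =
        ∑ k ∈ range N, if (k : ℝ) ≤ z then (1 : ℝ) else 0 := by
      apply Finset.sum_congr rfl
      intro k _
      simp only [hiff k]
    rw [hsumeq]
    obtain ⟨hu, hl⟩ := cnt_bounds N z
    have hNge : x - |c0| / h ≤ N := by
      have h3 := (abs_le.1 hN).1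
      have h4 : ((B : ℝ) - A) / D * m ≤ ((lastE A cs : ℝ) - A) / D * m := by
        apply mul_le_mul_of_nonneg_right _ hmr.le
        apply div_le_div_of_nonneg_right _ hDr.le
        linarith
      have h5 : ((B : ℝ) - A) / D * m - |c0| ≤ N * h := by
        have := le_abs_self c0
        linarith
      have h6 : x - |c0| / h = (((B : ℝ) - A) / D * m - |c0|) / h := by
        rw [hx]; field_simp
      rw [h6, div_le_iff₀ hh]
      exact h5
    have hsab : |s / h| = |s| / h := by rw [abs_div, abs_of_pos hh]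
    have hs1 := neg_abs_le (s / h)
    have hs2 := le_abs_self (s / h)
    rw [hsab] at hs1 hs2
    have hc0h : 0 ≤ |c0| / h := by positivity
    have hsh : 0 ≤ |s| / h := by positivity
    have hc'e : c' = |c0| / h + |s| / h + 1 := by rw [hc']; ring
    rw [abs_le]
    constructor
    · have hmin : x - c' ≤ min (N : ℝ) z := by
        apply le_min
        · linarith
        · rw [hz]; linarith
      linarith
    · have hmax : max 0 (z + 1) ≤ x + c' := by
        apply max_le
        · linarith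
        · rw [hz]; linarith
      linarith
  have haux := step_aux hD v N A (m / (D * h)) c' cs A hc hcount
  have hsplit : ∀ k ∈ range N, stepF D cs (v k) ≤
      (if v k ≤ (A : ℝ) / D then 0 else stepF D cs (v k)) +
        labs cs * (if v k ≤ (A : ℝ) / D then (1 : ℝ) else 0) := by
    intro k _
    by_cases h1 : v k ≤ (A : ℝ) / D
    · simp only [h1, if_true]
      cases cs with
      | nil => simp [stepF, labs]
      | cons c r =>
        obtain ⟨B, l⟩ := c
        have hAB : A < B := hc.1
        have hABr : (A : ℝ) / D < (B : ℝ) / D := by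
          apply div_lt_div_of_pos_right _ hDr
          exact_mod_cast hAB
        have h2 : v k ≤ (B : ℝ) / D := h1.trans hABr.le
        have h3 : stepF D ((B, l) :: r) (v k) = (l : ℝ) / 1000 := by
          show (if v k ≤ (B : ℝ) / D then (l : ℝ) / 1000 else stepF D r (v k)) = _
          rw [if_pos h2]
        rw [h3]
        show (l : ℝ) / 1000 ≤ 0 + (|(l : ℝ)| / 1000 + labs r) * 1
        have h4 := labs_nonneg r
        have h5 := le_abs_self (l : ℝ)
        linarith
    · simp only [h1, if_false]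
      linarith
  have hsum := Finset.sum_le_sum hsplit
  rw [Finset.sum_add_distrib, ← Finset.mul_sum] at hsum
  have hcA := hcount A le_rfl (lastE_ge A cs hc)
  have hcA' : (∑ k ∈ range N, if v k ≤ (A : ℝ) / D then (1 : ℝ) else 0) ≤ c' := by
    have := (abs_le.1 hcA).2
    simpa using this
  have hm2 := mul_le_mul_of_nonneg_left hcA' (labs_nonneg cs)
  have e1 : (m : ℝ) / (D * h) * ((stepI A cs : ℝ) / 1000) =
      m / h * ((stepI A cs : ℝ) / (1000 * D)) := by
    field_simp
  rw [e1] at haux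
  have e2 : labs cs * c' + 2 * c' * labs cs = 3 * c' * labs cs := by ring
  calc ∑ k ∈ range N, stepF D cs (((A : ℝ) / D * m + s + h * k) / m)
      = ∑ k ∈ range N, stepF D cs (v k) := rfl
    _ ≤ _ := hsum
    _ ≤ m / h * ((stepI A cs : ℝ) / (1000 * D)) + 3 * c' * labs cs := by linarith

end Pool.Agent.OZ
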