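import Pool.Agent.OZ.ANR
import Pool.Agent.OZ.CSTEP

/-!
# Module ANSA: the sum of the levels at the saturated nodes
-/

open Finset

namespace Pool.Agent.OZ

theorem ansa_step_ge {D : ℕ} {L : ℤ} (hL : L ≤ 0) (cs : List (ℤ × ℤ)) (h : ∀ c ∈ cs, L ≤ c.2)
    (v : ℝ) : (L : ℝ) / 1000 ≤ stepF D cs v := by
  induction cs with
  | nil =>
    have : (L : ℝ) ≤ 0 := by exact_mod_cast hL
    simp only [stepF]
    linarith
  | cons c r ih =>
    obtain ⟨B, l⟩ := c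
    simp only [stepF]
    split_ifs with hv
    · have : (L : ℝ) ≤ l := by exact_mod_cast h (B, l) (by simp)
      linarith
    · exact ih fun c hc => h c (by simp [hc])

theorem ansa_step_le {D : ℕ} (cs : List (ℤ × ℤ)) (h : ∀ c ∈ cs, c.2 ≤ 0)
    (v : ℝ) : stepF D cs v ≤ 0 := by
  induction cs with
  | nil => simp [stepF]
  | cons c r ih =>
    obtain ⟨B, l⟩ := c
    simp only [stepF]
    split_ifs with hv
    · have : (l : ℝ) ≤ 0 := by exact_mod_cast h (B, l) (by simp)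
      linarith
    · exact ih fun c hc => h c (by simp [hc])

theorem ansa_log {m : ℕ} (hm : 1 ≤ m) : 1 / 2 ≤ Real.log ((m : ℝ) + 1) := by
  have h1 : (1 : ℝ) ≤ m := by exact_mod_cast hm
  have h2 : Real.log 2 ≤ Real.log ((m : ℝ) + 1) := Real.log_le_log (by norm_num) (by linarith)
  have h3 := Real.log_two_gt_d9
  linarith

theorem ansa_const {m : ℕ} (hm : 1 ≤ m) (C : ℝ) : C ≤ 2 * |C| * Real.log ((m : ℝ) + 1) := by
  have h1 := ansa_log hm
  have h2 := le_abs_self C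
  have h3 := abs_nonneg C
  nlinarith

theorem sum_sat : ∃ C : ℝ, ∀ m : ℕ, 1 ≤ m →
    ∑ k ∈ range (3 * m + 1), max (gC ((8 * m + 3 / 2 + k) / m) 0) lev ≤
      -(1119 / 10) * m + C * Real.log (m + 1) := by
  obtain ⟨C, hC⟩ := step_sum (D := 320) (by norm_num) 2560 cS (incr_of_chk 2560 cS cS_ok)
    (h := 1) one_pos (3 / 2) 1
  refine ⟨2 * |C|, fun m hm => ?_⟩
  have hm1 : (1 : ℝ) ≤ m := by exact_mod_cast hm
  have hm0 : (0 : ℝ) < m := by linarith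
  obtain ⟨n, rfl⟩ : ∃ n, m = n + 1 := ⟨m - 1, by omega⟩
  have e : 3 * (n + 1) + 1 = (3 * n + 2) + 1 + 1 := by ring
  rw [e, sum_range_succ, sum_range_succ]
  have hlast : ∀ x : ℝ, 11 ≤ x → x ≤ 14 → max (gC x 0) lev ≤ 0 := by
    intro x h1 h2
    have := gC_real h1 h2
    have hl : lev ≤ 0 := by unfold lev; norm_num
    exact max_le (this.trans hl) hl
  have l1 := hlast ((8 * ((n + 1 : ℕ) : ℝ) + 3 / 2 + ((3 * n + 2 : ℕ) : ℝ)) / ((n + 1 : ℕ) : ℝ))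
    (by rw [le_div_iff₀ hm0]; push_cast; linarith) (by rw [div_le_iff₀ hm0]; push_cast; linarith)
  have l2 := hlast ((8 * ((n + 1 : ℕ) : ℝ) + 3 / 2 + ((3 * n + 2 + 1 : ℕ) : ℝ)) /
    ((n + 1 : ℕ) : ℝ))
    (by rw [le_div_iff₀ hm0]; push_cast; linarith) (by
      rw [div_le_iff₀ hm0]
      push_cast at hm1 ⊢
      linarith)
  have hs := hC (n + 1) hm (3 * n + 2) (by
    rw [cS_last]
    push_cast
    rw [show ((3 * (n : ℝ) + 2) * 1 - (3520 - 2560) / 320 * (n + 1)) = -1 by ring]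
    norm_num)
  have hterm : ∑ k ∈ range (3 * n + 2),
      max (gC ((8 * ((n + 1 : ℕ) : ℝ) + 3 / 2 + k) / ((n + 1 : ℕ) : ℝ)) 0) lev ≤
      ∑ k ∈ range (3 * n + 2),
        stepF 320 cS ((((2560 : ℤ) : ℝ) / ((320 : ℕ) : ℝ) * ((n + 1 : ℕ) : ℝ) + 3 / 2 + 1 * k) /
          ((n + 1 : ℕ) : ℝ)) := by
    refine sum_le_sum fun k hk => ?_
    rw [mem_range] at hk
    have hk' : (k : ℝ) ≤ 3 * n + 1 := by
      have : k ≤ 3 * n + 1 := by omega
      exact_mod_cast this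
    have hk0 : (0 : ℝ) ≤ k := Nat.cast_nonneg k
    have ex : ((((2560 : ℤ) : ℝ) / ((320 : ℕ) : ℝ) * ((n + 1 : ℕ) : ℝ) + 3 / 2 + 1 * k) /
        ((n + 1 : ℕ) : ℝ)) = (8 * ((n + 1 : ℕ) : ℝ) + 3 / 2 + k) / ((n + 1 : ℕ) : ℝ) := by
      congr 1
      push_cast
      ring
    rw [ex]
    refine max_le ?_ ?_
    · rw [gC_eq_fsum]
      refine cellsChk_le (by norm_num) 2560 cS (by simp [cS]) cS_ok ?_ ?_
      · rw [le_div_iff₀ hm0]; push_cast; linarith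
      · rw [cS_last, div_le_iff₀ hm0]; push_cast; linarith
    · have := ansa_step_ge (D := 320) (L := -60300) (by norm_num) cS cS_lev
        ((8 * ((n + 1 : ℕ) : ℝ) + 3 / 2 + k) / ((n + 1 : ℕ) : ℝ))
      refine le_trans (le_of_eq ?_) this
      unfold lev
      norm_num
  rw [cS_int] at hs
  have hc := ansa_const hm C
  have e2 : ((n + 1 : ℕ) : ℝ) / 1 * ((((-35819515 : ℤ)) : ℝ) / (1000 * ((320 : ℕ) : ℝ))) ≤
      -(1119 / 10) * ((n + 1 : ℕ) : ℝ) := by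
    rw [div_one, mul_comm]
    refine mul_le_mul_of_nonneg_right ?_ hm0.le
    norm_num
  linarith

end Pool.Agent.OZ
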