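import Pool.Agent.OZ.ANSA
import Pool.Agent.OZ.AHCC

/-!
# Module ANSB: sums of the node potential over the real nodes
-/

open Finset

namespace Pool.Agent.OZ

theorem ansb_log {m : ℕ} (hm : 1 ≤ m) {C z : ℝ} (hC : 0 < C) (hz : 0 < z)
    (h : z ≤ 32 * ((m : ℝ) + 1)) :
    C * Real.log z ≤ 6 * C * Real.log ((m : ℝ) + 1) := by
  have h1 : (1 : ℝ) ≤ m := by exact_mod_cast hm
  have h2 : Real.log z ≤ Real.log (32 * ((m : ℝ) + 1)) := Real.log_le_log hz h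
  have h3 : Real.log (32 * ((m : ℝ) + 1)) = 5 * Real.log 2 + Real.log ((m : ℝ) + 1) := by
    rw [Real.log_mul (by norm_num) (by linarith), show (32 : ℝ) = 2 ^ 5 by norm_num,
      Real.log_pow]
    norm_num
  have h4 : Real.log 2 ≤ Real.log ((m : ℝ) + 1) := Real.log_le_log (by norm_num) (by linarith)
  nlinarith

theorem ansb_cUr : ∀ c ∈ cUr, c.2 ≤ 0 := by decide +kernel

/-- the node potential is nonnegative between 11 and 14 -/
theorem ansb_nonneg {x : ℝ} (h1 : 11 ≤ x) (h2 : x ≤ 14) : 0 ≤ UC x 0 := by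
  have h := cellsChk_le (D := 320) (by norm_num) 3520 cUr (by simp [cUr]) cUr_ok (v := x)
    (by push_cast; linarith) (by rw [cUr_last]; push_cast; linarith)
  rw [← UC_eq_fsum] at h
  have := ansa_step_le (D := 320) cUr ansb_cUr x
  linarith

theorem ansb_last {C : ℝ} (hC0 : 0 < C) (hC : ∀ m x x' y y' : ℝ, 1 ≤ m → |x - x'| ≤ 3 →
    |y - y'| ≤ 3 → |m * UC (x / m) (y / m) - m * UC (x' / m) (y' / m)| ≤
      C * Real.log (m + 1 + |x| + |y|)) {m : ℕ} (hm : 1 ≤ m) {x : ℝ} (h1 : 14 * (m : ℝ) ≤ x)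
    (h2 : x ≤ 14 * (m : ℝ) + 1) : -(6 * C * Real.log ((m : ℝ) + 1)) ≤ UC (x / m) 0 := by
  have hm1 : (1 : ℝ) ≤ m := by exact_mod_cast hm
  have hm0 : (0 : ℝ) < m := by linarith
  have h3 := hC m x (14 * m) 0 0 hm1 (by rw [abs_le]; constructor <;> linarith) (by norm_num)
  rw [zero_div, mul_div_assoc, div_self hm0.ne', mul_one] at h3
  have h4 := ansb_nonneg (x := 14) (by norm_num) le_rfl
  have h5 := (abs_le.1 h3).1
  have hx : 0 ≤ x := by linarith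
  have h6 := ansb_log hm (C := C) (z := (m : ℝ) + 1 + |x| + |(0 : ℝ)|) hC0
    (by positivity) (by rw [abs_of_nonneg hx, abs_zero]; linarith)
  have h7 : -(6 * C * Real.log ((m : ℝ) + 1)) ≤ (m : ℝ) * UC (x / m) 0 := by
    have h8 := mul_nonneg hm0.le h4
    generalize C * Real.log ((m : ℝ) + 1 + |x| + |(0 : ℝ)|) = a at h5 h6
    linarith
  have h9 : 0 ≤ 6 * C * Real.log ((m : ℝ) + 1) :=
    mul_nonneg (by linarith) (Real.log_nonneg (by linarith))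
  rcases le_total 0 (UC (x / m) 0) with h8 | h8
  · linarith
  · nlinarith

theorem sum_UC_sat : ∃ C : ℝ, ∀ m : ℕ, 1 ≤ m →
    (3774 / 10 : ℝ) * m - C * Real.log (m + 1) ≤
      ∑ k ∈ range (3 * m + 1), UC ((8 * m + 3 / 2 + k) / m) 0 := by
  obtain ⟨C, hC⟩ := step_sum (D := 320) (by norm_num) 2560 cUs (incr_of_chk 2560 cUs cUs_ok)
    (h := 1) one_pos (3 / 2) 1
  refine ⟨2 * |C|, fun m hm => ?_⟩
  have hm1 : (1 : ℝ) ≤ m := by exact_mod_cast hm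
  have hm0 : (0 : ℝ) < m := by linarith
  obtain ⟨n, rfl⟩ : ∃ n, m = n + 1 := ⟨m - 1, by omega⟩
  have e : 3 * (n + 1) + 1 = (3 * n + 2) + 1 + 1 := by ring
  rw [e, sum_range_succ, sum_range_succ]
  have l1 := ansb_nonneg
    (x := (8 * ((n + 1 : ℕ) : ℝ) + 3 / 2 + ((3 * n + 2 : ℕ) : ℝ)) / ((n + 1 : ℕ) : ℝ))
    (by rw [le_div_iff₀ hm0]; push_cast; linarith) (by rw [div_le_iff₀ hm0]; push_cast; linarith)
  have l2 := ansb_nonneg (x := (8 * ((n + 1 : ℕ) : ℝ) + 3 / 2 + ((3 * n + 2 + 1 : ℕ) : ℝ)) /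
    ((n + 1 : ℕ) : ℝ))
    (by rw [le_div_iff₀ hm0]; push_cast; linarith) (by
      rw [div_le_iff₀ hm0]
      push_cast at hm1 ⊢
      linarith)
  have hs := hC (n + 1) hm (3 * n + 2) (by
    rw [cUs_last]
    push_cast
    rw [show ((3 * (n : ℝ) + 2) * 1 - (3520 - 2560) / 320 * (n + 1)) = -1 by ring]
    norm_num)
  have hterm : -∑ k ∈ range (3 * n + 2),
      UC ((8 * ((n + 1 : ℕ) : ℝ) + 3 / 2 + k) / ((n + 1 : ℕ) : ℝ)) 0 ≤
      ∑ k ∈ range (3 * n + 2),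
        stepF 320 cUs ((((2560 : ℤ) : ℝ) / ((320 : ℕ) : ℝ) * ((n + 1 : ℕ) : ℝ) + 3 / 2 + 1 * k) /
          ((n + 1 : ℕ) : ℝ)) := by
    rw [← sum_neg_distrib]
    refine sum_le_sum fun k hk => ?_
    rw [mem_range] at hk
    have hk' : (k : ℝ) ≤ 3 * n + 1 := by
      have : k ≤ 3 * n + 1 := by omega
      exact_mod_cast this
    have hk0 : (0 : ℝ) ≤ k := Nat.cast_nonneg k
    have ex : ((((2560 : ℤ) : ℝ) / ((320 : ℕ) : ℝ) * ((n + 1 : ℕ) : ℝ) + 3 / 2 + 1 * k) /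
        ((n + 1 : ℕ) : ℝ)) = (8 * ((n + 1 : ℕ) : ℝ) + 3 / 2 + k) / ((n + 1 : ℕ) : ℝ) := by
      congr 1
      push_cast
      ring
    rw [ex, UC_eq_fsum]
    refine cellsChk_le (by norm_num) 2560 cUs (by simp [cUs]) cUs_ok ?_ ?_
    · rw [le_div_iff₀ hm0]; push_cast; linarith
    · rw [cUs_last, div_le_iff₀ hm0]; push_cast; linarith
  rw [cUs_int] at hs
  have hc := ansa_const hm C
  have e2 : ((n + 1 : ℕ) : ℝ) / 1 * ((((-120775439 : ℤ)) : ℝ) / (1000 * ((320 : ℕ) : ℝ))) ≤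
      -(3774 / 10) * ((n + 1 : ℕ) : ℝ) := by
    rw [div_one, mul_comm]
    refine mul_le_mul_of_nonneg_right ?_ hm0.le
    norm_num
  linarith

theorem sum_UC_real : ∃ C : ℝ, ∀ m : ℕ, 1 ≤ m →
    (9490 / 10 : ℝ) * m - C * Real.log (m + 1) ≤
      ∑ j ∈ range (7 * m - 2), UC ((11 * m + 2 + 3 / 7 * j) / m) 0 := by
  obtain ⟨C, hC⟩ := step_sum (D := 320) (by norm_num) 3520 cUr (incr_of_chk 3520 cUr cUr_ok)
    (h := 3 / 7) (by norm_num) 2 2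
  obtain ⟨C', hC'0, hC'⟩ := UC_shift
  refine ⟨2 * |C| + 2 * (6 * C'), fun m hm => ?_⟩
  have hm1 : (1 : ℝ) ≤ m := by exact_mod_cast hm
  have hm0 : (0 : ℝ) < m := by linarith
  obtain ⟨n, rfl⟩ : ∃ n, m = n + 1 := ⟨m - 1, by omega⟩
  have e : 7 * (n + 1) - 2 = (7 * n + 3) + 1 + 1 := by omega
  rw [e, sum_range_succ, sum_range_succ]
  have hlast : ∀ x : ℝ, 14 * ((n + 1 : ℕ) : ℝ) ≤ x → x ≤ 14 * ((n + 1 : ℕ) : ℝ) + 1 →
      -(6 * C' * Real.log (((n + 1 : ℕ) : ℝ) + 1)) ≤ UC (x / ((n + 1 : ℕ) : ℝ)) 0 :=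
    fun x h1 h2 => ansb_last hC'0 hC' hm h1 h2
  have l1 := hlast (11 * ((n + 1 : ℕ) : ℝ) + 2 + 3 / 7 * ((7 * n + 3 : ℕ) : ℝ))
    (by push_cast; linarith) (by push_cast; linarith)
  have l2 := hlast (11 * ((n + 1 : ℕ) : ℝ) + 2 + 3 / 7 * ((7 * n + 3 + 1 : ℕ) : ℝ))
    (by push_cast; linarith) (by push_cast; linarith)
  have hs := hC (n + 1) hm (7 * n + 3) (by
    rw [cUr_last]
    push_cast
    rw [show ((7 * (n : ℝ) + 3) * (3 / 7) - (4480 - 3520) / 320 * (n + 1)) = -(12 / 7) by ring]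
    rw [abs_neg, abs_of_nonneg (by norm_num)]
    norm_num)
  have hterm : -∑ k ∈ range (7 * n + 3),
      UC ((11 * ((n + 1 : ℕ) : ℝ) + 2 + 3 / 7 * k) / ((n + 1 : ℕ) : ℝ)) 0 ≤
      ∑ k ∈ range (7 * n + 3),
        stepF 320 cUr ((((3520 : ℤ) : ℝ) / ((320 : ℕ) : ℝ) * ((n + 1 : ℕ) : ℝ) + 2 + 3 / 7 * k) /
          ((n + 1 : ℕ) : ℝ)) := by
    rw [← sum_neg_distrib]
    refine sum_le_sum fun k hk => ?_
    rw [mem_range] at hk
    have hk' : (k : ℝ) ≤ 7 * n + 2 := by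
      have : k ≤ 7 * n + 2 := by omega
      exact_mod_cast this
    have hk0 : (0 : ℝ) ≤ k := Nat.cast_nonneg k
    have ex : ((((3520 : ℤ) : ℝ) / ((320 : ℕ) : ℝ) * ((n + 1 : ℕ) : ℝ) + 2 + 3 / 7 * k) /
        ((n + 1 : ℕ) : ℝ)) = (11 * ((n + 1 : ℕ) : ℝ) + 2 + 3 / 7 * k) / ((n + 1 : ℕ) : ℝ) := by
      congr 1
      push_cast
      ring
    rw [ex, UC_eq_fsum]
    refine cellsChk_le (by norm_num) 3520 cUr (by simp [cUr]) cUr_ok ?_ ?_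
    · rw [le_div_iff₀ hm0]; push_cast; linarith
    · rw [cUr_last, div_le_iff₀ hm0]; push_cast; linarith
  rw [cUr_int] at hs
  have hc := ansa_const hm C
  have e2 : ((n + 1 : ℕ) : ℝ) / (3 / 7) *
      ((((-130153842 : ℤ)) : ℝ) / (1000 * ((320 : ℕ) : ℝ))) ≤
      -(9490 / 10) * ((n + 1 : ℕ) : ℝ) := by
    rw [div_mul_eq_mul_div, mul_div_assoc, mul_comm]
    refine mul_le_mul_of_nonneg_right ?_ hm0.le
    norm_num
  linarith

end Pool.Agent.OZ
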