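import Pool.Agent.OZ.ANSB

/-!
# Module ANSC: sum of the node potential over the nodes on the line
-/

open Finset

namespace Pool.Agent.OZ

theorem ansc_cUl : ∀ c ∈ cUl, c.2 ≤ 0 := by decide +kernel

/-- moving a node of the line into the range of the cells -/
theorem ansc_node {C : ℝ} (hC0 : 0 < C) (hC : ∀ m x x' y y' : ℝ, 1 ≤ m → |x - x'| ≤ 3 →
    |y - y'| ≤ 3 → |m * UC (x / m) (y / m) - m * UC (x' / m) (y' / m)| ≤
      C * Real.log (m + 1 + |x| + |y|)) {m : ℕ} (hm : 1 ≤ m) {y y' : ℝ} (h0 : 0 ≤ y)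
    (h1 : y ≤ 8 * (m : ℝ) + 8) (h2 : |y - y'| ≤ 3) :
    UC 14 (y' / m) - 6 * C * Real.log ((m : ℝ) + 1) / m ≤ UC ((14 * m + 1) / m) (y / m) := by
  have hm1 : (1 : ℝ) ≤ m := by exact_mod_cast hm
  have hm0 : (0 : ℝ) < m := by linarith
  have h3 := hC m (14 * m + 1) (14 * m) y y' hm1
    (by rw [add_sub_cancel_left, abs_one]; norm_num) h2
  rw [show (14 * (m : ℝ)) / m = 14 by field_simp] at h3
  have h5 := (abs_le.1 h3).1
  have h6 := ansb_log hm (C := C) (z := (m : ℝ) + 1 + |14 * (m : ℝ) + 1| + |y|) hC0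
    (by positivity) (by rw [abs_of_nonneg h0, abs_of_nonneg (by positivity)]; linarith)
  generalize C * Real.log ((m : ℝ) + 1 + |14 * (m : ℝ) + 1| + |y|) = a at h5 h6
  have h7 : m * (UC 14 (y' / m) - UC ((14 * m + 1) / m) (y / m)) ≤
      6 * C * Real.log ((m : ℝ) + 1) := by linarith
  have h8 := (le_div_iff₀' hm0).2 h7
  linarith

theorem sum_UC_line : ∃ C : ℝ, ∀ m : ℕ, 1 ≤ m →
    (9640 / 10 : ℝ) * m - C * Real.log (m + 1) ≤
      ∑ l ∈ range (6 * m + 1), UC ((14 * m + 1) / m) (37 / 30 * (l + 1 / 2) / m) := by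
  obtain ⟨C, hC⟩ := step_sum (D := 320) (by norm_num) 0 cUl (incr_of_chk 0 cUl cUl_ok)
    (h := 37 / 30) (by norm_num) (37 / 60) 2
  obtain ⟨C', hC'0, hC'⟩ := UC_shift
  refine ⟨2 * |C| + 7 * (6 * C'), fun m hm => ?_⟩
  have hm1 : (1 : ℝ) ≤ m := by exact_mod_cast hm
  have hm0 : (0 : ℝ) < m := by linarith
  have hlog : 0 ≤ Real.log ((m : ℝ) + 1) := Real.log_nonneg (by linarith)
  set E : ℝ := 6 * C' * Real.log ((m : ℝ) + 1) / m with hE
  have hE0 : 0 ≤ E := by
    rw [hE]
    exact div_nonneg (mul_nonneg (by linarith) hlog) hm0.le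
  have hmE : m * E = 6 * C' * Real.log ((m : ℝ) + 1) := by
    rw [hE]
    field_simp
  -- the cells
  have hcell : ∀ v : ℝ, 0 ≤ v → v ≤ 37 / 5 → -UC 14 v ≤ stepF 320 cUl v := by
    intro v h1 h2
    rw [UC_line_eq]
    refine cellsChk_le (by norm_num) 0 cUl (by simp [cUl]) cUl_ok ?_ ?_
    · push_cast; linarith
    · rw [cUl_last]; push_cast; linarith
  -- the terms
  have hterm : ∀ l ∈ range (6 * m + 1), -UC ((14 * m + 1) / m) (37 / 30 * (l + 1 / 2) / m) ≤
      (if l < 6 * m then stepF 320 cUl ((37 / 30 * ((l : ℝ) + 1 / 2)) / m) else 0) + E := by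
    intro l hl
    rw [mem_range] at hl
    have hl0 : (0 : ℝ) ≤ l := Nat.cast_nonneg l
    have hl1 : (l : ℝ) ≤ 6 * m := by
      have : l ≤ 6 * m := by omega
      exact_mod_cast this
    split_ifs with h
    · have hl2 : (l : ℝ) + 1 ≤ 6 * m := by exact_mod_cast h
      have h1 := ansc_node hC'0 hC' hm (y := 37 / 30 * ((l : ℝ) + 1 / 2))
        (y' := 37 / 30 * ((l : ℝ) + 1 / 2)) (by positivity) (by linarith)
        (by rw [sub_self, abs_zero]; norm_num)
      have h2 := hcell ((37 / 30 * ((l : ℝ) + 1 / 2)) / m) (by positivity)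
        (by rw [div_le_iff₀ hm0]; linarith)
      rw [← hE] at h1
      linarith
    · have h1 := ansc_node hC'0 hC' hm (y := 37 / 30 * ((l : ℝ) + 1 / 2))
        (y' := 37 / 5 * (m : ℝ)) (by positivity) (by linarith)
        (by
          have : (l : ℝ) = 6 * m := by
            have : l = 6 * m := by omega
            rw [this]
            push_cast
            ring
          rw [this, abs_le]
          constructor <;> linarith)
      rw [mul_div_assoc, div_self hm0.ne', mul_one] at h1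
      have h2 := hcell (37 / 5) (by norm_num) le_rfl
      have h3 := ansa_step_le (D := 320) cUl ansc_cUl (37 / 5)
      rw [← hE] at h1
      linarith
  have hsum := sum_le_sum hterm
  rw [sum_neg_distrib, sum_add_distrib, sum_const, card_range, nsmul_eq_mul,
    sum_range_succ (fun l : ℕ => if l < 6 * m then
      stepF 320 cUl ((37 / 30 * ((l : ℝ) + 1 / 2)) / m) else 0),
    if_neg (lt_irrefl _), add_zero] at hsum
  have hif : ∑ l ∈ range (6 * m),
      (if l < 6 * m then stepF 320 cUl ((37 / 30 * ((l : ℝ) + 1 / 2)) / m) else 0) =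
      ∑ k ∈ range (6 * m), stepF 320 cUl
        ((((0 : ℤ) : ℝ) / ((320 : ℕ) : ℝ) * (m : ℝ) + 37 / 60 + 37 / 30 * k) / (m : ℝ)) := by
    refine sum_congr rfl fun k hk => ?_
    rw [if_pos (mem_range.1 hk)]
    congr 1
    congr 1
    push_cast
    ring
  rw [hif] at hsum
  have hs := hC m hm (6 * m) (by
    rw [cUl_last]
    push_cast
    rw [show (6 * (m : ℝ)) * (37 / 30) - (2368 - 0) / 320 * m = 0 by ring]
    norm_num)
  rw [cUl_int] at hs
  have hc := ansa_const hm C
  have e2 : (m : ℝ) / (37 / 30) * ((((-380587787 : ℤ)) : ℝ) / (1000 * ((320 : ℕ) : ℝ))) ≤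
      -(9640 / 10) * (m : ℝ) := by
    rw [div_mul_eq_mul_div, mul_div_assoc, mul_comm]
    refine mul_le_mul_of_nonneg_right ?_ hm0.le
    norm_num
  have e3 : ((6 * m + 1 : ℕ) : ℝ) * E ≤ 7 * (6 * C' * Real.log ((m : ℝ) + 1)) := by
    rw [← hmE]
    push_cast
    nlinarith
  linarith

end Pool.Agent.OZ
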