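import Pool.Agent.OZ.Defs

/-! # Gram matrices of polynomial families -/

open Finset Polynomial

namespace Pool.Agent.OZ

theorem gram_det {K ι : Type*} [CommRing K] [Fintype ι] [DecidableEq ι] {n : ℕ} (f : ι ≃ Fin n)
    (P : ι → K[X]) (hP : ∀ a, (P a).natDegree < n) (φ : K[X] →ₗ[K] K) :
    (Matrix.of fun a b => φ (P a * P b)).det =
      (coefM f P).det ^ 2 * (Matrix.of fun i j : Fin n => φ (X ^ ((i : ℕ) + (j : ℕ)))).det := by
  set H : Matrix (Fin n) (Fin n) K := Matrix.of fun i j : Fin n => φ (X ^ ((i : ℕ) + (j : ℕ)))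
    with hH
  have hexp : ∀ a, P a = ∑ c : ι, C ((P a).coeff (f c : ℕ)) * X ^ (f c : ℕ) := by
    intro a
    conv_lhs => rw [(P a).as_sum_range_C_mul_X_pow' (hP a)]
    rw [← Fin.sum_univ_eq_sum_range (fun i => C ((P a).coeff i) * X ^ i) n]
    exact (Equiv.sum_comp f (fun i : Fin n => C ((P a).coeff (i : ℕ)) * X ^ (i : ℕ))).symm
  have hmat : (Matrix.of fun a b => φ (P a * P b))
      = coefM f P * H.submatrix f f * (coefM f P).transpose := by
    ext a b
    rw [Matrix.of_apply, Matrix.mul_apply]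
    simp only [Matrix.mul_apply, Matrix.transpose_apply, Matrix.submatrix_apply, coefM, hH,
      Matrix.of_apply]
    conv_lhs => rw [hexp a, hexp b]
    rw [Finset.sum_mul_sum, map_sum]
    simp only [map_sum]
    rw [Finset.sum_comm]
    refine Finset.sum_congr rfl fun d _ => ?_
    rw [Finset.sum_mul]
    refine Finset.sum_congr rfl fun c _ => ?_
    have e : C ((P a).coeff (f c : ℕ)) * X ^ (f c : ℕ) * (C ((P b).coeff (f d : ℕ)) * X ^ (f d : ℕ))
        = ((P a).coeff (f c : ℕ) * (P b).coeff (f d : ℕ)) • (X ^ ((f c : ℕ) + (f d : ℕ)) : K[X]) := by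
      rw [smul_eq_C_mul, C_mul, pow_add]; ring
    rw [e, map_smul, smul_eq_mul]
    ring
  rw [hmat, Matrix.det_mul, Matrix.det_mul, Matrix.det_transpose, Matrix.det_submatrix_equiv_self]
  ring

end Pool.Agent.OZ
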