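import Pool.Agent.OZ.AROW
import Pool.Agent.OZ.AENB
import Pool.Agent.OZ.ANSA
import Pool.Agent.OZ.ANSB
import Pool.Agent.OZ.ANSC
import Pool.Agent.OZ.GRAM
import Pool.Agent.OZ.HERM
import Pool.Agent.OZ.AHCB

/-! # The archimedean upper bound of the determinant -/

open Finset Polynomial

namespace Pool.Agent.OZ

open Pool.Agent.Z5 (w evY dser xser hser lser co rho Hs zt tot VG)
open Pool.Agent.Z9 (IsProf)

section AMAIN

theorem amn_F4C_pow (m n : ℕ) :
    F4C m (X ^ n) = ((F4 (16 * m + 1) (pr m) (X ^ n) : ℝ) : ℂ) := by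
  rw [F4C, Polynomial.lsum_apply, ← Polynomial.monomial_one_right_eq_X_pow,
    Polynomial.sum_monomial_index _ _ (by simp)]
  simp

theorem amn_det (m : ℕ) :
    (Matrix.of fun i j : Fin (nn m) => F4C m (X ^ ((i : ℕ) + (j : ℕ)))).det = ((DR m : ℝ) : ℂ) := by
  have h1 := (Complex.ofRealHom).map_det (Matrix.of fun i j : Fin (nn m) =>
    F4 (16 * m + 1) (pr m) (Polynomial.X ^ ((i : ℕ) + (j : ℕ))))
  rw [DR]
  refine Eq.trans ?_ h1.symm
  congr 1
  ext i j
  rw [Matrix.of_apply, amn_F4C_pow]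
  rfl

theorem amn_det_le {ι : Type*} [Fintype ι] [DecidableEq ι] (A : Matrix ι ι ℂ) (B : ι → ℝ)
    (hB : ∀ a b, ‖A a b‖ ≤ B a) : ‖A.det‖ ≤ (Fintype.card ι).factorial * ∏ a, B a := by
  rw [Matrix.det_apply']
  refine (norm_sum_le _ _).trans ?_
  have h1 : ∀ σ : Equiv.Perm ι, ‖((Equiv.Perm.sign σ : ℤ) : ℂ) * ∏ i, A (σ i) i‖ ≤ ∏ a, B a := by
    intro σ
    have h2 : ‖((Equiv.Perm.sign σ : ℤ) : ℂ)‖ = 1 := by
      rcases Int.units_eq_one_or (Equiv.Perm.sign σ) with h | h <;> rw [h] <;> simp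
    rw [norm_mul, h2, one_mul, norm_prod, ← Equiv.prod_comp σ B]
    exact Finset.prod_le_prod (fun i _ => norm_nonneg _) fun i _ => hB _ _
  refine (Finset.sum_le_sum fun σ _ => h1 σ).trans (le_of_eq ?_)
  rw [Finset.sum_const, Finset.card_univ, Fintype.card_perm, nsmul_eq_mul]

theorem amn_sum_JJ (m : ℕ) (F : Ix m → ℝ) :
    ∑ a : JJ m, F a.1 = ∑ k, (mu m k : ℝ) * F k := by
  rw [Fintype.sum_sigma]
  refine Finset.sum_congr rfl fun k _ => ?_
  show ∑ _y : Fin (mu m k), F k = _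
  rw [Finset.sum_const, Finset.card_univ, Fintype.card_fin, nsmul_eq_mul]

theorem amn_rowE (m : ℕ) (hm : 1 ≤ m) : ∑ k, (mu m k : ℝ) * rowE m k =
    5 * m * ∑ k ∈ range (3 * m + 1), max (gC ((8 * m + 3 / 2 + k) / m) 0) lev +
      19 * (m : ℝ) ^ 2 * lev := by
  have n2 : ((7 * m - 2 : ℕ) : ℝ) = 7 * m - 2 := by
    rw [Nat.cast_sub (by omega)]
    push_cast
    ring
  rw [Fintype.sum_sum_type, Fintype.sum_sum_type]
  simp only [mu, rowE, Finset.sum_const, Finset.card_univ, Fintype.card_fin, Fintype.card_prod,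
    Fintype.card_bool, nsmul_eq_mul]
  rw [n2, Finset.mul_sum, ← Fin.sum_univ_eq_sum_range (fun k : ℕ =>
    5 * (m : ℝ) * max (gC ((8 * m + 3 / 2 + k) / m) 0) lev) (3 * m + 1)]
  have h1 : ∀ k : Fin (3 * m + 1), ((5 : ℕ) : ℝ) *
      (m * max (gC ((8 * m + 3 / 2 + ((k : ℕ) : ℝ)) / m) 0) lev) =
      5 * (m : ℝ) * max (gC ((8 * m + 3 / 2 + ((k : ℕ) : ℝ)) / m) 0) lev := by
    intro k
    push_cast
    ring
  rw [Finset.sum_congr rfl fun k _ => h1 k]
  push_cast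
  ring

theorem amn_UC (m : ℕ) : ∑ k, (mu m k : ℝ) * UC ((pos m k).re / m) ((pos m k).im / m) =
    5 * ∑ k ∈ range (3 * m + 1), UC ((8 * m + 3 / 2 + k) / m) 0 +
      ∑ j ∈ range (7 * m - 2), UC ((11 * m + 2 + 3 / 7 * j) / m) 0 +
      2 * ∑ l ∈ range (6 * m + 1), UC ((14 * m + 1) / m) (37 / 30 * (l + 1 / 2) / m) := by
  rw [Fintype.sum_sum_type, Fintype.sum_sum_type, Fintype.sum_prod_type]
  simp only [Fintype.sum_bool]
  rw [Finset.mul_sum, Finset.mul_sum,
    ← Fin.sum_univ_eq_sum_range (fun k : ℕ => 5 * UC ((8 * m + 3 / 2 + k) / m) 0) (3 * m + 1),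
    ← Fin.sum_univ_eq_sum_range (fun k : ℕ => UC ((11 * m + 2 + 3 / 7 * k) / m) 0) (7 * m - 2),
    ← Fin.sum_univ_eq_sum_range (fun k : ℕ => 2 * UC ((14 * m + 1) / m)
      (37 / 30 * (k + 1 / 2) / m)) (6 * m + 1), add_assoc]
  congr 1
  · refine Finset.sum_congr rfl fun k _ => ?_
    rw [(aen_pos_sat m k).1, (aen_pos_sat m k).2, zero_div]
    simp [mu]
  · congr 1
    · refine Finset.sum_congr rfl fun k _ => ?_
      rw [(aen_pos_real m k).1, (aen_pos_real m k).2, zero_div]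
      simp [mu]
    · refine Finset.sum_congr rfl fun k _ => ?_
      rw [(aen_pos_true m k).1, (aen_pos_true m k).2, (aen_pos_false m k).1,
        (aen_pos_false m k).2, neg_div, UC_neg]
      simp only [mu, Nat.cast_one, one_mul]
      ring

theorem amn_nn (m : ℕ) : (nn m : ℝ) = 34 * m + 5 := by
  unfold nn
  push_cast
  ring

theorem amn_fac (m : ℕ) (hm : 1 ≤ m) :
    ((nn m).factorial : ℝ) ≤ Real.exp (273 * (m * Real.log (m + 1))) := by
  have hm' : (1 : ℝ) ≤ m := by exact_mod_cast hm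
  have hL1 : Real.log 2 ≤ Real.log (m + 1) := Real.log_le_log (by norm_num) (by linarith)
  have h0 : (0 : ℝ) < nn m := by rw [amn_nn]; linarith
  have h1 : ((nn m).factorial : ℝ) ≤ (nn m : ℝ) ^ nn m := by
    exact_mod_cast Nat.factorial_le_pow (nn m)
  have h2 : (nn m : ℝ) ^ nn m = Real.exp (nn m * Real.log (nn m)) := by
    rw [← Real.log_pow, Real.exp_log (pow_pos h0 _)]
  refine h1.trans ?_
  rw [h2, Real.exp_le_exp]
  have h3 : Real.log (nn m) ≤ 7 * Real.log (m + 1) := by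
    have h4 : Real.log (nn m) ≤ Real.log (64 * (m + 1)) :=
      Real.log_le_log h0 (by rw [amn_nn]; linarith)
    rw [Real.log_mul (by norm_num) (by linarith), show (64 : ℝ) = 2 ^ 6 by norm_num,
      Real.log_pow] at h4
    push_cast at h4
    linarith
  have h5 : (nn m : ℝ) ≤ 39 * m := by rw [amn_nn]; linarith
  have h6 : 0 ≤ Real.log (nn m) := Real.log_nonneg (by rw [amn_nn]; linarith)
  calc (nn m : ℝ) * Real.log (nn m) ≤ (39 * m) * (7 * Real.log (m + 1)) :=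
        mul_le_mul h5 h3 h6 (by linarith)
    _ = 273 * (m * Real.log (m + 1)) := by ring

theorem DR_le : ∃ (C : ℝ) (m0 : ℕ), ∀ m ≥ m0,
    |DR m| ≤ Real.exp (-2312 * (m : ℝ) ^ 2 * Real.log m - 4860 * (m : ℝ) ^ 2 +
      C * m * Real.log (m + 1)) := by
  obtain ⟨C1, m1, hrow⟩ := row_le
  obtain ⟨C2, hsat⟩ := sum_sat
  obtain ⟨C3, hUs⟩ := sum_UC_sat
  obtain ⟨C4, hUr⟩ := sum_UC_real
  obtain ⟨C5, hUl⟩ := sum_UC_line
  obtain ⟨C6, hdet⟩ := det_ge
  refine ⟨39 * |C1| + 5 * C2 + 273 + 5 * C3 + C4 + 2 * C5 + C6 + 1100, max m1 1, fun m hm => ?_⟩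
  have hm1 : m1 ≤ m := le_trans (le_max_left _ _) hm
  have hm2 : 1 ≤ m := le_trans (le_max_right _ _) hm
  have hm' : (1 : ℝ) ≤ m := by exact_mod_cast hm2
  set L := Real.log (m + 1) with hL
  have hL1 : Real.log 2 ≤ L := Real.log_le_log (by norm_num) (by linarith)
  have hl2 := Real.log_two_gt_d9
  have hl2' := Real.log_two_lt_d9
  have hL0 : 0 < L := by linarith
  have hL4 : Real.log 4 = 2 * Real.log 2 := by
    rw [show (4 : ℝ) = 2 ^ 2 by norm_num, Real.log_pow]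
    norm_num
  -- the enumeration
  have hcard : Fintype.card (JJ m) = nn m := by
    rw [Fintype.card_sigma]
    simp only [Fintype.card_fin]
    exact sum_mu hm2
  let f : JJ m ≃ Fin (nn m) := Fintype.equivFinOfCardEq hcard
  have hdeg : ∀ a : JJ m, (PC m a).natDegree < nn m := by
    intro a
    have h1 := natDegree_herm (yN m) (mu m) 0 (Sum.inl a)
    rw [sum_mu hm2, add_zero] at h1
    exact h1
  have hgram := gram_det f (PC m) hdeg (F4C m)
  rw [amn_det] at hgram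
  -- upper bound of the Gram determinant
  set row : JJ m → ℝ := fun a => 2 * nn m * Real.log 4 + rowE m a.1 + C1 * L with hrowdef
  have hup : ‖(Matrix.of fun a b => F4C m (PC m a * PC m b)).det‖ ≤
      (nn m).factorial * Real.exp (∑ a, row a) := by
    have h1 := amn_det_le (Matrix.of fun a b => F4C m (PC m a * PC m b))
      (fun a => Real.exp (row a)) (fun a b => hrow m hm1 a b)
    rw [hcard, ← Real.exp_sum] at h1
    exact h1
  have hrowsum : ∑ a, row a = nn m * (2 * nn m * Real.log 4 + C1 * L) +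
      ∑ k, (mu m k : ℝ) * rowE m k := by
    have h1 : ∀ a : JJ m, row a = (2 * nn m * Real.log 4 + C1 * L) + rowE m a.1 := by
      intro a
      rw [hrowdef]
      ring
    rw [Finset.sum_congr rfl fun a _ => h1 a, Finset.sum_add_distrib, Finset.sum_const,
      Finset.card_univ, hcard, nsmul_eq_mul, amn_sum_JJ m (rowE m)]
  have hlow := hdet m hm2 f
  rw [hgram, norm_mul, Complex.norm_real, Real.norm_eq_abs] at hup
  have hlow' := mul_le_mul_of_nonneg_right hlow (abs_nonneg (DR m))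
  have hall := hlow'.trans (hup.trans (mul_le_mul_of_nonneg_right (amn_fac m hm2)
    (Real.exp_pos _).le))
  rw [← Real.exp_add] at hall
  set E1 : ℝ := (nn m : ℝ) ^ 2 * Real.log 4 + 2312 * (m : ℝ) ^ 2 * Real.log m +
      m * ∑ k, mu m k * UC ((pos m k).re / m) ((pos m k).im / m) - C6 * m * L with hE1
  have hfin : |DR m| ≤ Real.exp (273 * (m * L) + ∑ a, row a - E1) := by
    rw [Real.exp_sub, le_div_iff₀ (Real.exp_pos _), mul_comm]
    exact hall
  refine hfin.trans (Real.exp_le_exp.mpr ?_)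
  rw [hE1, hrowsum, amn_rowE m hm2, amn_UC m]
  have g1 := mul_le_mul_of_nonneg_left (hsat m hm2) (by linarith : (0 : ℝ) ≤ 5 * m)
  have g2 := mul_le_mul_of_nonneg_left (hUs m hm2) (by linarith : (0 : ℝ) ≤ m)
  have g3 := mul_le_mul_of_nonneg_left (hUr m hm2) (by linarith : (0 : ℝ) ≤ m)
  have g4 := mul_le_mul_of_nonneg_left (hUl m hm2) (by linarith : (0 : ℝ) ≤ m)
  have hnn := amn_nn m
  have hmL : 0 < m * L := mul_pos (by linarith) hL0
  have g5 : (nn m : ℝ) * (C1 * L) ≤ 39 * |C1| * (m * L) := by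
    have h1 : C1 * L ≤ |C1| * L := mul_le_mul_of_nonneg_right (le_abs_self _) hL0.le
    have h2 : (nn m : ℝ) ≤ 39 * m := by rw [hnn]; linarith
    calc (nn m : ℝ) * (C1 * L) ≤ nn m * (|C1| * L) :=
          mul_le_mul_of_nonneg_left h1 (Nat.cast_nonneg _)
      _ ≤ (39 * m) * (|C1| * L) :=
          mul_le_mul_of_nonneg_right h2 (mul_nonneg (abs_nonneg _) hL0.le)
      _ = _ := by ring
  have g6 : (nn m : ℝ) ^ 2 * Real.log 4 ≤ 16027 / 10 * (m : ℝ) ^ 2 + 1100 * (m * L) := by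
    have h1 : (nn m : ℝ) ^ 2 ≤ 1156 * (m : ℝ) ^ 2 + 365 * m := by
      rw [hnn]
      nlinarith
    have h2 : (nn m : ℝ) ^ 2 * Real.log 4 ≤ (1156 * (m : ℝ) ^ 2 + 365 * m) * Real.log 4 :=
      mul_le_mul_of_nonneg_right h1 (by rw [hL4]; linarith)
    have h3 : (1156 * (m : ℝ) ^ 2) * Real.log 4 ≤ 16027 / 10 * (m : ℝ) ^ 2 := by
      rw [hL4]
      nlinarith [sq_nonneg (m : ℝ)]
    have h4 : 365 * (m : ℝ) * Real.log 4 ≤ 1100 * (m * L) := by
      have h5 : 365 * Real.log 4 ≤ 1100 * L := by rw [hL4]; linarith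
      calc 365 * (m : ℝ) * Real.log 4 = m * (365 * Real.log 4) := by ring
        _ ≤ m * (1100 * L) := mul_le_mul_of_nonneg_left h5 (by linarith)
        _ = _ := by ring
    linarith
  have hlev : lev = -603 / 10 := rfl
  generalize ∑ k ∈ range (3 * m + 1), max (gC ((8 * m + 3 / 2 + k) / m) 0) lev = Ssat at g1 ⊢
  generalize ∑ k ∈ range (3 * m + 1), UC ((8 * m + 3 / 2 + k) / m) 0 = U1 at g2 ⊢
  generalize ∑ j ∈ range (7 * m - 2), UC ((11 * m + 2 + 3 / 7 * j) / m) 0 = U2 at g3 ⊢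
  generalize ∑ l ∈ range (6 * m + 1), UC ((14 * m + 1) / m) (37 / 30 * (l + 1 / 2) / m) = U3
    at g4 ⊢
  rw [hlev]
  have g7 : 0 ≤ (m : ℝ) ^ 2 := sq_nonneg _
  nlinarith only [g1, g2, g3, g4, g5, g6, g7]

end AMAIN

end Pool.Agent.OZ
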