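import Pool.Agent.OZ.ANR

/-!
# The level on the line (module ANL)
-/

open Finset

namespace Pool.Agent.OZ

/-- `gC` is even in the second variable -/
theorem anl_gC_neg (x y : ℝ) : gC x (-y) = gC x y := by
  unfold gC
  rw [UC_neg, VC_neg, abs_neg]

theorem anl_gC_line {y : ℝ} (hy : 0 ≤ y) : gC 14 y ≤ lev - max 0 (y - 25) := by
  rcases le_or_gt 25 y with h | h
  · rw [max_eq_right (by linarith)]
    exact gC_tail h
  · rw [max_eq_left (by linarith)]
    have hne : cL ≠ [] := by
      unfold cL
      exact List.cons_ne_nil _ _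
    have h3 : y ≤ (lastE 0 cL : ℝ) / (320 : ℕ) := by
      rw [cL_last]
      norm_num
      linarith
    have h4 : ((0 : ℤ) : ℝ) / (320 : ℕ) ≤ y := by
      norm_num
      exact hy
    have h5 := cellsChk_le (D := 320) (by norm_num) 0 cL hne cL_ok h4 h3
    rw [anr_stepF_const cL 0 cL_lev hne h3] at h5
    have h6 := gC_line_le hy
    unfold lev
    push_cast at h5
    linarith

theorem gC_line (y : ℝ) : gC 14 y ≤ lev - max 0 (|y| - 25) := by
  rcases le_or_gt 0 y with h | h
  · rw [abs_of_nonneg h]
    exact anl_gC_line h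
  · rw [abs_of_neg h, ← anl_gC_neg]
    exact anl_gC_line (by linarith)

end Pool.Agent.OZ
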