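import Pool.Agent.OZ.CDefs

/-! # OZ : the step function of a list of cells (used by CCHK and CSTEP) -/

namespace Pool.Agent.OZ

/-- the step function of a list of cells -/
noncomputable def stepF (D : ℕ) : List (ℤ × ℤ) → ℝ → ℝ
  | [], _ => 0
  | (B, l) :: r, v => if v ≤ (B : ℝ) / D then (l : ℝ) / 1000 else stepF D r v

end Pool.Agent.OZ
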