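import Pool.Agent.OZ.CARC
import Pool.Agent.OZ.CStepF
import Pool.Agent.OZ.AHCA

/-! # CCHK : soundness of the checker -/

open Finset

namespace Pool.Agent.OZ

open Pool.Agent.Z5 (logLo logHi log_bounds)

/-! ### convexity of `HC` -/

theorem cchk_deriv {w x : ℝ} (hx : 0 < x) :
    deriv (fun x => HC x w) x = 1 / 2 * Real.log (x ^ 2 + w ^ 2) :=
  (hasDerivAt_HC (Or.inl hx.ne')).deriv

theorem cchk_convex (w : ℝ) : ConvexOn ℝ (Set.Ici 0) fun x => HC x w := by
  apply MonotoneOn.convexOn_of_deriv (convex_Ici 0) (continuous_HC_left w).continuousOn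
  · intro x hx
    rw [interior_Ici] at hx
    exact (hasDerivAt_HC (Or.inl (ne_of_gt hx))).differentiableAt.differentiableWithinAt
  · intro x hx y hy hxy
    rw [interior_Ici] at hx hy
    have hx' : 0 < x := hx
    have hy' : 0 < y := hy
    rw [cchk_deriv hx', cchk_deriv hy']
    have h1 : 0 < x ^ 2 + w ^ 2 := by positivity
    have h2 : x ^ 2 + w ^ 2 ≤ y ^ 2 + w ^ 2 := by nlinarith
    have := Real.log_le_log h1 h2
    linarith

theorem cchk_concave {w : ℝ} (hw : 0 < w) : ConcaveOn ℝ (Set.Ici 0) fun x => HC w x := by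
  apply AntitoneOn.concaveOn_of_deriv (convex_Ici 0) (continuous_HC_right w).continuousOn
  · intro x hx
    rw [interior_Ici] at hx
    exact (hasDerivAt_HC_right w (ne_of_gt hx)).differentiableAt.differentiableWithinAt
  · intro x hx y hy hxy
    rw [interior_Ici] at hx hy
    have hx' : 0 < x := hx
    have hy' : 0 < y := hy
    rw [(hasDerivAt_HC_right w hx'.ne').deriv, (hasDerivAt_HC_right w hy'.ne').deriv]
    apply Real.arctan_strictMono.monotone
    exact div_le_div_of_nonneg_left hw.le hx' hxy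

theorem cchk_tan_ge {w u y : ℝ} (hu : 0 < u) (hy : 0 ≤ y) :
    HC u w + (y - u) * (1 / 2 * Real.log (u ^ 2 + w ^ 2)) ≤ HC y w := by
  have hc := cchk_convex w
  have hd := hasDerivAt_HC (x := u) (y := w) (Or.inl hu.ne')
  rcases lt_trichotomy u y with h | h | h
  · have h1 := hc.le_slope_of_hasDerivAt (Set.mem_Ici.mpr hu.le) (Set.mem_Ici.mpr hy) h hd
    rw [slope_def_field, le_div_iff₀ (by linarith)] at h1
    linarith
  · subst h
    simp
  · have h1 := hc.slope_le_of_hasDerivAt (Set.mem_Ici.mpr hy) (Set.mem_Ici.mpr hu.le) h hd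
    rw [slope_def_field, div_le_iff₀ (by linarith)] at h1
    linarith

theorem cchk_tan_le {w u y : ℝ} (hw : 0 < w) (hu : 0 < u) (hy : 0 ≤ y) :
    HC w y ≤ HC w u + (y - u) * Real.arctan (w / u) := by
  have hc := cchk_concave hw
  have hd := hasDerivAt_HC_right w hu.ne'
  rcases lt_trichotomy u y with h | h | h
  · have h1 := hc.slope_le_of_hasDerivAt (Set.mem_Ici.mpr hu.le) (Set.mem_Ici.mpr hy) h hd
    rw [slope_def_field, div_le_iff₀ (by linarith)] at h1
    linarith
  · subst h
    simp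
  · have h1 := hc.le_slope_of_hasDerivAt (Set.mem_Ici.mpr hy) (Set.mem_Ici.mpr hu.le) h hd
    rw [slope_def_field, le_div_iff₀ (by linarith)] at h1
    linarith

/-- the scaled function of a term, in the variable `y = |X - e|` -/
noncomputable def cphi (ty : Bool) (w lD y : ℝ) : ℝ :=
  if ty then HC y w - y * lD else HC w y - w * lD

/-- the tangent at `u` evaluated at `z` -/
noncomputable def ctan (ty : Bool) (w lD u z : ℝ) : ℝ :=
  if ty then z / 2 * Real.log (u ^ 2 + w ^ 2) - u + w * Real.arctan (u / w) - z * lD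
  else w / 2 * Real.log (w ^ 2 + u ^ 2) - w + z * Real.arctan (w / u) - w * lD

theorem ctan_self (ty : Bool) (w lD z : ℝ) : ctan ty w lD z z = cphi ty w lD z := by
  unfold ctan cphi HC
  cases ty <;> simp

theorem ctan_affine (ty : Bool) (w lD u a b z1 z2 : ℝ) (hab : a + b = 1) :
    ctan ty w lD u (a * z1 + b * z2) = a * ctan ty w lD u z1 + b * ctan ty w lD u z2 := by
  unfold ctan
  have hb : b = 1 - a := by linarith
  subst hb
  cases ty <;> simp <;> ring

/-- the value of the term is below the line, concave side -/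
theorem cphi_tan (ty : Bool) {w lD s u y : ℝ} (hw : ty = true ∨ 0 < w) (hu : 0 < u) (hy : 0 ≤ y)
    (hs : if ty then s ≤ 0 else 0 ≤ s) : s * cphi ty w lD y ≤ s * ctan ty w lD u y := by
  cases ty
  · have hs' : 0 ≤ s := by simpa using hs
    have hw' : 0 < w := by simpa using hw
    have h := cchk_tan_le hw' hu hy
    unfold cphi ctan
    simp only [Bool.false_eq_true, if_false]
    apply mul_le_mul_of_nonneg_left _ hs'
    have : HC w u + (y - u) * Real.arctan (w / u) = w / 2 * Real.log (w ^ 2 + u ^ 2) - w +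
        y * Real.arctan (w / u) := by
      unfold HC
      ring
    linarith
  · have hs' : s ≤ 0 := by simpa using hs
    have h := cchk_tan_ge (w := w) hu hy
    unfold cphi ctan
    simp only [if_true]
    apply mul_le_mul_of_nonpos_left _ hs'
    have : HC u w + (y - u) * (1 / 2 * Real.log (u ^ 2 + w ^ 2)) =
        y / 2 * Real.log (u ^ 2 + w ^ 2) - u + w * Real.arctan (u / w) := by
      unfold HC
      ring
    linarith

/-- the value of the term is below the chord, convex side -/
theorem cphi_chord (ty : Bool) {w lD s a b z1 z2 : ℝ} (hw : ty = true ∨ 0 < w) (h1 : 0 ≤ z1)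
    (h2 : 0 ≤ z2) (ha : 0 ≤ a) (hb : 0 ≤ b) (hab : a + b = 1)
    (hs : if ty then 0 ≤ s else s ≤ 0) :
    s * cphi ty w lD (a * z1 + b * z2) ≤ a * (s * cphi ty w lD z1) + b * (s * cphi ty w lD z2) := by
  cases ty
  · have hs' : s ≤ 0 := by simpa using hs
    have hw' : 0 < w := by simpa using hw
    have h := (cchk_concave hw').2 (Set.mem_Ici.mpr h1) (Set.mem_Ici.mpr h2) ha hb hab
    simp only [smul_eq_mul] at h
    unfold cphi
    simp only [Bool.false_eq_true, if_false]
    have h3 := mul_le_mul_of_nonpos_left h hs'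
    have hb' : b = 1 - a := by linarith
    have e : a * (w * lD) + b * (w * lD) = w * lD := by rw [hb']; ring
    nlinarith
  · have hs' : 0 ≤ s := by simpa using hs
    have h := (cchk_convex w).2 (Set.mem_Ici.mpr h1) (Set.mem_Ici.mpr h2) ha hb hab
    simp only [smul_eq_mul] at h
    unfold cphi
    simp only [if_true]
    have h3 := mul_le_mul_of_nonneg_left h hs'
    nlinarith

/-! ### integer bounds -/

theorem mulHi_ge {s lo hi : ℤ} {x : ℝ} (h1 : (lo : ℝ) ≤ x) (h2 : x ≤ (hi : ℝ)) :
    (s : ℝ) * x ≤ (mulHi s lo hi : ℝ) := by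
  unfold mulHi
  split_ifs with h
  · have : (0 : ℝ) ≤ s := by exact_mod_cast h
    push_cast
    exact mul_le_mul_of_nonneg_left h2 this
  · have : (s : ℝ) ≤ 0 := by exact_mod_cast (by omega : s ≤ 0)
    push_cast
    exact mul_le_mul_of_nonpos_left h1 this

theorem mulHi_log {s : ℤ} {n : ℕ} (h : s = 0 ∨ n ≠ 0) :
    (s : ℝ) * (Real.log n * 2 ^ 48) ≤ (mulHi s (logLo n) (logHi n) : ℝ) := by
  rcases h with h | h
  · subst h
    simp [mulHi]
  · have hb := log_bounds n h
    exact mulHi_ge (by exact_mod_cast hb.1) (by exact_mod_cast hb.2)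

/-- the line of a term at `Z` -/
noncomputable def cline (D : ℕ) (t : Tm) (A M Z : ℤ) : ℝ :=
  (t.sg A : ℝ) * ctan t.ty t.w (Real.log D) ((t.pt A M Z - t.e).natAbs : ℕ) ((Z - t.e).natAbs : ℕ)

theorem cline_le_up {D : ℕ} (hD : 0 < D) {t : Tm} {A M Z : ℤ}
    (hw : t.ty = true ∨ 0 < t.w)
    (hu : (t.pt A M Z - t.e).natAbs = (Z - t.e).natAbs ∨ (t.pt A M Z - t.e).natAbs ≠ 0) :
    2 ^ 49 * cline D t A M Z ≤ (t.up D A M Z : ℝ) := by
  unfold cline
  set s := t.sg A with hs
  set u := (t.pt A M Z - t.e).natAbs with hu'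
  set z := (Z - t.e).natAbs with hz
  have hDl : (s : ℝ) = s := rfl
  have hup : t.up D A M Z = if t.ty then
    mulHi (s * z) (logLo (u ^ 2 + t.w ^ 2)) (logHi (u ^ 2 + t.w ^ 2)) +
      mulHi (-(2 * s * z)) (logLo D) (logHi D) -
      2 * s * u * 2 ^ 48 + (if t.w = 0 then 0 else 2 * mulHi (s * t.w) (atLo u t.w) (atHi u t.w))
    else
    mulHi (s * t.w) (logLo (u ^ 2 + t.w ^ 2)) (logHi (u ^ 2 + t.w ^ 2)) +
      mulHi (-(2 * s * t.w)) (logLo D) (logHi D) -
      2 * s * t.w * 2 ^ 48 + (if z = 0 then 0 else 2 * mulHi (s * z) (atLo t.w u) (atHi t.w u)) := rfl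
  rw [hup]
  rcases hty : t.ty with _ | _
  · -- type false
    have hw' : 0 < t.w := by
      rcases hw with h | h
      · rw [hty] at h
        exact absurd h (by simp)
      · exact h
    simp only [Bool.false_eq_true, if_false]
    unfold ctan
    simp only [Bool.false_eq_true, if_false]
    have h1 := mulHi_log (s := s * t.w) (n := u ^ 2 + t.w ^ 2) (Or.inr (by positivity))
    have h2 := mulHi_log (s := -(2 * s * t.w)) (n := D) (Or.inr hD.ne')
    have h3 : (2 : ℝ) * ((s : ℝ) * z * Real.arctan ((t.w : ℝ) / u) * 2 ^ 48) ≤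
        ((if z = 0 then 0 else 2 * mulHi (s * z) (atLo t.w u) (atHi t.w u) : ℤ) : ℝ) := by
      split_ifs with h0
      · rw [h0]
        simp
      · have hu0 : u ≠ 0 := by
          rcases hu with h | h
          · rw [h]; exact h0
          · exact h
        have hb := at_bounds t.w u hu0
        have := mulHi_ge (s := s * z) hb.1 hb.2
        push_cast at this ⊢
        linarith
    have e1 : ((u ^ 2 + t.w ^ 2 : ℕ) : ℝ) = (t.w : ℝ) ^ 2 + (u : ℝ) ^ 2 := by
      push_cast
      ring
    rw [e1] at h1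
    push_cast at h1 h2 h3 ⊢
    have e2 : (2 : ℝ) ^ 49 * ((s : ℝ) * ((t.w : ℝ) / 2 * Real.log ((t.w : ℝ) ^ 2 + (u : ℝ) ^ 2) -
        t.w + z * Real.arctan ((t.w : ℝ) / u) - t.w * Real.log D)) =
        (s : ℝ) * t.w * (Real.log ((t.w : ℝ) ^ 2 + (u : ℝ) ^ 2) * 2 ^ 48) +
        -(2 * (s : ℝ) * t.w) * (Real.log D * 2 ^ 48) - 2 * s * t.w * 2 ^ 48 +
        2 * ((s : ℝ) * z * Real.arctan ((t.w : ℝ) / u) * 2 ^ 48) := by ring
    rw [e2]
    linarith
  · simp only [if_true]
    unfold ctan
    simp only [if_true]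
    have h1 := mulHi_log (s := s * z) (n := u ^ 2 + t.w ^ 2) (by
      by_cases h0 : z = 0
      · left
        rw [h0]
        simp
      · right
        have hu0 : u ≠ 0 := by
          rcases hu with h | h
          · rw [h]; exact h0
          · exact h
        positivity)
    have h2 := mulHi_log (s := -(2 * s * z)) (n := D) (Or.inr hD.ne')
    have h3 : (2 : ℝ) * ((s : ℝ) * t.w * Real.arctan ((u : ℝ) / t.w) * 2 ^ 48) ≤
        ((if t.w = 0 then 0 else 2 * mulHi (s * t.w) (atLo u t.w) (atHi u t.w) : ℤ) : ℝ) := by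
      split_ifs with h0
      · rw [h0]
        simp
      · have hb := at_bounds u t.w h0
        have := mulHi_ge (s := s * t.w) hb.1 hb.2
        push_cast at this ⊢
        linarith
    have e1 : ((u ^ 2 + t.w ^ 2 : ℕ) : ℝ) = (u : ℝ) ^ 2 + (t.w : ℝ) ^ 2 := by
      push_cast
      ring
    rw [e1] at h1
    push_cast at h1 h2 h3 ⊢
    have e2 : (2 : ℝ) ^ 49 * ((s : ℝ) * ((z : ℝ) / 2 * Real.log ((u : ℝ) ^ 2 + (t.w : ℝ) ^ 2) -
        u + t.w * Real.arctan ((u : ℝ) / t.w) - z * Real.log D)) =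
        (s : ℝ) * z * (Real.log ((u : ℝ) ^ 2 + (t.w : ℝ) ^ 2) * 2 ^ 48) +
        -(2 * (s : ℝ) * z) * (Real.log D * 2 ^ 48) - 2 * s * u * 2 ^ 48 +
        2 * ((s : ℝ) * t.w * Real.arctan ((u : ℝ) / t.w) * 2 ^ 48) := by ring
    rw [e2]
    linarith

/-- the value of a term in terms of `cphi` -/
theorem val_eq {D : ℕ} (hD : 0 < D) {t : Tm} {A B : ℤ} (hAB : A < B) (hout : t.e ≤ A ∨ B ≤ t.e)
    {X : ℝ} (h1 : (A : ℝ) ≤ X) (h2 : X ≤ (B : ℝ)) :
    (D : ℝ) * 111000 * t.val D (X / D) =
      (t.sg A : ℝ) * cphi t.ty t.w (Real.log D) |X - t.e| := by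
  have hD' : (0 : ℝ) < D := by exact_mod_cast hD
  have hsc : ∀ x y : ℝ, D * HC (x / D) (y / D) = HC x y - x * Real.log D := by
    intro x y
    have h := HC_scale hD' (x / D) (y / D)
    rw [mul_div_cancel₀ _ hD'.ne', mul_div_cancel₀ _ hD'.ne'] at h
    have e : (D : ℝ) * (HC (x / D) (y / D) + x / D * Real.log D) =
        D * HC (x / D) (y / D) + x * Real.log D := by
      field_simp
    rw [e] at h
    linarith
  have ex : X / D - (t.e : ℝ) / D = (X - t.e) / D := by rw [sub_div]
  unfold Tm.val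
  rw [ex]
  rcases hty : t.ty with _ | _
  · simp only [Bool.false_eq_true, if_false]
    have hsg : t.sg A = t.co := by
      unfold Tm.sg
      simp [hty]
    rw [hsg]
    unfold cphi
    simp only [Bool.false_eq_true, if_false]
    have h3 : HC (t.w : ℝ) |X - t.e| = HC (t.w : ℝ) (X - t.e) := by
      rcases abs_cases (X - t.e) with ⟨h, _⟩ | ⟨h, _⟩
      · rw [h]
      · rw [h, HC_neg_right]
    rw [h3, ← hsc]
    ring
  · simp only [if_true]
    unfold cphi
    simp only [if_true]
    rcases hout with h | h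
    · have hsg : t.sg A = t.co := by
        unfold Tm.sg
        have : ¬ A < t.e := by omega
        simp [this]
      have h3 : |X - t.e| = X - t.e := by
        apply abs_of_nonneg
        have : (t.e : ℝ) ≤ A := by exact_mod_cast h
        linarith
      rw [hsg, h3, ← hsc]
      ring
    · have hsg : t.sg A = -t.co := by
        unfold Tm.sg
        have : A < t.e := by omega
        simp [this, hty]
      have h3 : |X - t.e| = -(X - t.e) := by
        apply abs_of_nonpos
        have : (B : ℝ) ≤ t.e := by exact_mod_cast h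
        linarith
      rw [hsg, h3, HC_neg]
      have h4 := hsc (X - t.e) t.w
      push_cast
      have e : (D : ℝ) * 111000 * ((t.co : ℝ) / 111000 * HC ((X - t.e) / D) (t.w / D)) =
          (t.co : ℝ) * (D * HC ((X - t.e) / D) (t.w / D)) := by ring
      rw [e, h4]
      ring

/-- one term on a cell -/
theorem term_le {D : ℕ} (hD : 0 < D) {t : Tm} {A M B : ℤ} (hAM : A < M) (hMB : M < B)
    (hout : t.e ≤ A ∨ B ≤ t.e) (hw : t.ty = true ∨ 0 < t.w) {a b : ℝ} (ha : 0 ≤ a) (hb : 0 ≤ b)
    (hab : a + b = 1) :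
    2 ^ 49 * ((D : ℝ) * 111000 * t.val D ((a * A + b * B) / D)) ≤
      a * (t.up D A M A : ℝ) + b * (t.up D A M B : ℝ) := by
  have hAr : (A : ℝ) < B := by exact_mod_cast hAM.trans hMB
  have hb' : b = 1 - a := by linarith
  have h1 : (A : ℝ) ≤ a * A + b * B := by rw [hb']; nlinarith
  have h2 : a * A + b * B ≤ (B : ℝ) := by rw [hb']; nlinarith
  rw [val_eq hD (hAM.trans hMB) hout h1 h2]
  have hpA : (t.pt A M A - t.e).natAbs = (A - t.e).natAbs ∨ (t.pt A M A - t.e).natAbs ≠ 0 := by
    unfold Tm.pt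
    split_ifs
    · right; omega
    · left; rfl
    · right; omega
    · left; rfl
  have hpB : (t.pt A M B - t.e).natAbs = (B - t.e).natAbs ∨ (t.pt A M B - t.e).natAbs ≠ 0 := by
    unfold Tm.pt
    split_ifs
    · right; omega
    · left; rfl
    · right; omega
    · left; rfl
  have hA := cline_le_up hD (A := A) (M := M) (Z := A) hw hpA
  have hB := cline_le_up hD (A := A) (M := M) (Z := B) hw hpB
  -- the distance is affine
  have hy : |a * A + b * B - (t.e : ℝ)| =
      a * (((A - t.e).natAbs : ℕ) : ℝ) + b * (((B - t.e).natAbs : ℕ) : ℝ) := by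
    rw [Nat.cast_natAbs, Nat.cast_natAbs]
    push_cast
    have e : a * A + b * B - (t.e : ℝ) = a * (A - t.e) + b * (B - t.e) := by rw [hb']; ring
    rw [e]
    rcases hout with h | h
    · have h3 : (t.e : ℝ) ≤ A := by exact_mod_cast h
      rw [abs_of_nonneg (by linarith : (0 : ℝ) ≤ (A : ℝ) - t.e),
        abs_of_nonneg (by linarith : (0 : ℝ) ≤ (B : ℝ) - t.e)]
      apply abs_of_nonneg
      have := mul_nonneg ha (by linarith : (0 : ℝ) ≤ (A : ℝ) - t.e)
      have := mul_nonneg hb (by linarith : (0 : ℝ) ≤ (B : ℝ) - t.e)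
      linarith
    · have h3 : (B : ℝ) ≤ t.e := by exact_mod_cast h
      rw [abs_of_nonpos (by linarith : (A : ℝ) - t.e ≤ 0),
        abs_of_nonpos (by linarith : (B : ℝ) - t.e ≤ 0)]
      have k1 := mul_nonneg ha (by linarith : (0 : ℝ) ≤ (t.e : ℝ) - A)
      have k2 := mul_nonneg hb (by linarith : (0 : ℝ) ≤ (t.e : ℝ) - B)
      rw [abs_of_nonpos (by linarith)]
      ring
  rw [hy]
  have hw' : t.ty = true ∨ (0 : ℝ) < t.w := by
    rcases hw with h | h
    · exact Or.inl h
    · exact Or.inr (by exact_mod_cast h)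
  have hzA : (0 : ℝ) ≤ (((A - t.e).natAbs : ℕ) : ℝ) := Nat.cast_nonneg _
  have hzB : (0 : ℝ) ≤ (((B - t.e).natAbs : ℕ) : ℝ) := Nat.cast_nonneg _
  have hyn : (0 : ℝ) ≤ a * (((A - t.e).natAbs : ℕ) : ℝ) + b * (((B - t.e).natAbs : ℕ) : ℝ) := by
    positivity
  -- concave or convex
  by_cases hconc : (if t.ty then t.sg A < 0 else 0 < t.sg A)
  · have hptA : t.pt A M A = M := by
      unfold Tm.pt
      rcases hty : t.ty with _ | _
      · rw [hty] at hconc
        simp only [Bool.false_eq_true, if_false] at hconc ⊢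
        rw [if_pos hconc]
      · rw [hty] at hconc
        simp only [if_true] at hconc ⊢
        rw [if_pos hconc]
    have hptB : t.pt A M B = M := by
      unfold Tm.pt
      rcases hty : t.ty with _ | _
      · rw [hty] at hconc
        simp only [Bool.false_eq_true, if_false] at hconc ⊢
        rw [if_pos hconc]
      · rw [hty] at hconc
        simp only [if_true] at hconc ⊢
        rw [if_pos hconc]
    unfold cline at hA hB
    rw [hptA] at hA
    rw [hptB] at hB
    have hu : (0 : ℝ) < (((M - t.e).natAbs : ℕ) : ℝ) := by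
      have : 0 < (M - t.e).natAbs := by omega
      exact_mod_cast this
    have hs : if t.ty then (t.sg A : ℝ) ≤ 0 else 0 ≤ (t.sg A : ℝ) := by
      split_ifs at hconc ⊢ with hc
      · exact_mod_cast hconc.le
      · exact_mod_cast hconc.le
    have hk := cphi_tan t.ty (lD := Real.log D) hw' hu hyn hs
    rw [ctan_affine _ _ _ _ _ _ _ _ hab] at hk
    nlinarith [mul_le_mul_of_nonneg_left hA ha, mul_le_mul_of_nonneg_left hB hb]
  · have hptA : t.pt A M A = A := by
      unfold Tm.pt
      rcases hty : t.ty with _ | _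
      · rw [hty] at hconc
        simp only [Bool.false_eq_true, if_false] at hconc ⊢
        rw [if_neg hconc]
      · rw [hty] at hconc
        simp only [if_true] at hconc ⊢
        rw [if_neg hconc]
    have hptB : t.pt A M B = B := by
      unfold Tm.pt
      rcases hty : t.ty with _ | _
      · rw [hty] at hconc
        simp only [Bool.false_eq_true, if_false] at hconc ⊢
        rw [if_neg hconc]
      · rw [hty] at hconc
        simp only [if_true] at hconc ⊢
        rw [if_neg hconc]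
    unfold cline at hA hB
    rw [hptA, ctan_self] at hA
    rw [hptB, ctan_self] at hB
    have hs : if t.ty then 0 ≤ (t.sg A : ℝ) else (t.sg A : ℝ) ≤ 0 := by
      split_ifs at hconc ⊢ with hc
      · push Not at hconc
        exact_mod_cast hconc
      · push Not at hconc
        exact_mod_cast hconc
    have hk := cphi_chord t.ty (lD := Real.log D) hw' hzA hzB ha hb hab hs
    nlinarith [mul_le_mul_of_nonneg_left hA ha, mul_le_mul_of_nonneg_left hB hb]

/-- the sum of the terms on a cell -/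
theorem sum_le {D : ℕ} (hD : 0 < D) {A M B : ℤ} (hAM : A < M) (hMB : M < B)
    {a b : ℝ} (ha : 0 ≤ a) (hb : 0 ≤ b) (hab : a + b = 1) :
    ∀ ts : List Tm, outs A B ts = true →
    2 ^ 49 * ((D : ℝ) * 111000 * (ts.map fun t => t.val D ((a * A + b * B) / D)).sum) ≤
      a * (sumUp D A M A ts : ℝ) + b * (sumUp D A M B ts : ℝ) := by
  intro ts
  induction ts with
  | nil => intro _; simp [sumUp]
  | cons t ts ih =>
    intro h
    simp only [outs, Bool.and_eq_true, Bool.or_eq_true, decide_eq_true_eq] at h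
    have h1 := term_le hD hAM hMB h.1.1 h.1.2 ha hb hab
    have h2 := ih h.2
    simp only [List.map_cons, List.sum_cons, sumUp]
    push_cast
    linarith

/-- one cell -/
theorem cellChk_le {D : ℕ} (hD : 0 < D) {ts : List Tm} {lin A B l : ℤ}
    (h : cellChk D ts lin A B l = true) {v : ℝ} (h1 : (A : ℝ) / D ≤ v) (h2 : v ≤ (B : ℝ) / D) :
    fsum D ts lin v ≤ (l : ℝ) / 1000 := by
  have hD' : (0 : ℝ) < D := by exact_mod_cast hD
  simp only [cellChk, Bool.and_eq_true, decide_eq_true_eq] at h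
  obtain ⟨⟨⟨hAB, hout⟩, hA⟩, hB⟩ := h
  set M := (A + B) / 2 with hM
  have hAM : A < M := by omega
  have hMB : M < B := by omega
  have hAr : (A : ℝ) < B := by exact_mod_cast hAM.trans hMB
  have hBA : (0 : ℝ) < (B : ℝ) - A := by linarith
  rw [div_le_iff₀ hD'] at h1
  rw [le_div_iff₀ hD'] at h2
  set b := (v * D - A) / (B - A) with hb
  set a := 1 - b with ha
  have hb0 : 0 ≤ b := div_nonneg (by linarith) hBA.le
  have hb1 : b ≤ 1 := by rw [hb, div_le_one hBA]; linarith
  have ha0 : 0 ≤ a := by linarith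
  have hab : a + b = 1 := by rw [ha]; ring
  have hX : a * A + b * B = v * D := by
    have : b * (B - A) = v * D - A := by rw [hb]; field_simp
    rw [ha]
    linarith
  have hs := sum_le hD hAM hMB ha0 hb0 hab ts hout
  rw [hX, mul_div_cancel_right₀ _ hD'.ne'] at hs
  have hA' : (sumUp D A M A ts : ℝ) + 2 ^ 49 * lin * A ≤ 2 ^ 49 * D * 111 * l := by exact_mod_cast hA
  have hB' : (sumUp D A M B ts : ℝ) + 2 ^ 49 * lin * B ≤ 2 ^ 49 * D * 111 * l := by exact_mod_cast hB
  have hA2 := mul_le_mul_of_nonneg_left hA' ha0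
  have hB2 := mul_le_mul_of_nonneg_left hB' hb0
  have hlin : a * ((2 : ℝ) ^ 49 * lin * A) + b * (2 ^ 49 * lin * B) = 2 ^ 49 * lin * (v * D) := by
    rw [← hX]
    ring
  have hl : a * ((2 : ℝ) ^ 49 * D * 111 * l) + b * (2 ^ 49 * D * 111 * l) =
      2 ^ 49 * D * 111 * l := by
    have : a = 1 - b := rfl
    rw [this]
    ring
  have hfin : 2 ^ 49 * ((D : ℝ) * 111000 * fsum D ts lin v) ≤ 2 ^ 49 * ((D : ℝ) * 111 * l) := by
    unfold fsum
    have e : (2 : ℝ) ^ 49 * ((D : ℝ) * 111000 * ((ts.map fun t => t.val D v).sum +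
        (lin : ℝ) / 111000 * v)) = 2 ^ 49 * ((D : ℝ) * 111000 * (ts.map fun t => t.val D v).sum) +
        2 ^ 49 * lin * (v * D) := by ring
    rw [e]
    linarith
  have h3 : (D : ℝ) * 111000 * fsum D ts lin v ≤ (D : ℝ) * 111 * l :=
    le_of_mul_le_mul_left hfin (by positivity)
  have h4 : (D : ℝ) * (111000 * fsum D ts lin v) ≤ (D : ℝ) * (111 * l) := by linarith
  have h5 := le_of_mul_le_mul_left h4 hD'
  rw [le_div_iff₀ (by norm_num)]
  linarith

theorem cellsChk_le {D : ℕ} (hD : 0 < D) {ts : List Tm} {lin : ℤ} (A : ℤ) (cs : List (ℤ × ℤ))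
    (hcs : cs ≠ []) (h : cellsChk D ts lin A cs = true) {v : ℝ} (h1 : (A : ℝ) / D ≤ v)
    (h2 : v ≤ (lastE A cs : ℝ) / D) : fsum D ts lin v ≤ stepF D cs v := by
  induction cs generalizing A with
  | nil => exact absurd rfl hcs
  | cons c cs ih =>
    obtain ⟨B, l⟩ := c
    simp only [cellsChk, Bool.and_eq_true] at h
    simp only [stepF]
    split_ifs with hv
    · exact cellChk_le hD h.1 h1 hv
    · push Not at hv
      rcases cs with _ | ⟨c, cs⟩
      · simp only [lastE] at h2
        linarith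
      · exact ih B (List.cons_ne_nil _ _) h.2 hv.le h2

end Pool.Agent.OZ
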