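import Pool.Agent.OZ.ADefs
import Pool.Agent.Z5.NumLog

/-!
# A kernel checker for upper bounds of sums of `HC` terms on cells: definitions

Everything is scaled: the variable is `v = Z / D`, the coefficients are `c / 111000`, the levels
`l / 1000`, the logarithms and arctangents `2 ^ 48`.
-/

open Finset

namespace Pool.Agent.OZ

open Pool.Agent.Z5 (logLo logHi)

/-- floor of the `k`-th term of the series of `arctan (p / q)`, scaled by `2 ^ 48` -/
def atT (p q k : ℕ) : ℕ := 2 ^ 48 * p ^ (2 * k + 1) / ((2 * k + 1) * q ^ (2 * k + 1))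

/-- lower bound of `arctan (p / q)`, sharp for `2 p ≤ q` -/
def asLo (p q : ℕ) : ℤ :=
  atT p q 0 - (atT p q 1 + 1) + atT p q 2 - (atT p q 3 + 1) + atT p q 4 - (atT p q 5 + 1) +
    atT p q 6 - (atT p q 7 + 1)

/-- upper bound of `arctan (p / q)`, sharp for `2 p ≤ q` -/
def asHi (p q : ℕ) : ℤ :=
  (atT p q 0 + 1) - atT p q 1 + (atT p q 2 + 1) - atT p q 3 + (atT p q 4 + 1) - atT p q 5 +
    (atT p q 6 + 1) - atT p q 7 + (atT p q 8 + 1)

/-- lower bound of `π 2 ^ 48` -/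
def piLo : ℤ := 884279719003555

/-- upper bound of `π 2 ^ 48` -/
def piHi : ℤ := 884279719003556

/-- lower bound of `arctan (p / q)` for `p ≤ q` -/
def a1Lo (p q : ℕ) : ℤ := if 2 * p ≤ q then asLo p q else piLo / 4 - asHi (q - p) (q + p)

/-- upper bound of `arctan (p / q)` for `p ≤ q` -/
def a1Hi (p q : ℕ) : ℤ := if 2 * p ≤ q then asHi p q else piHi / 4 + 1 - asLo (q - p) (q + p)

/-- lower bound of `arctan (p / q) 2 ^ 48`, `q ≠ 0` -/
def atLo (p q : ℕ) : ℤ := if p ≤ q then a1Lo p q else piLo / 2 - a1Hi q p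

/-- upper bound of `arctan (p / q) 2 ^ 48`, `q ≠ 0` -/
def atHi (p q : ℕ) : ℤ := if p ≤ q then a1Hi p q else piHi / 2 + 1 - a1Lo q p

/-- upper bound of `s x` if `lo ≤ x ≤ hi` -/
def mulHi (s lo hi : ℤ) : ℤ := if 0 ≤ s then s * hi else s * lo

/-- a term: `ty = true`: `HC (v - e) w`, `ty = false`: `HC w (v - e)`, coefficient `∓ c` -/
structure Tm where
  ty : Bool
  neg : Bool
  c : ℕ
  e : ℤ
  w : ℕ

/-- signed coefficient -/
def Tm.co (t : Tm) : ℤ := if t.neg then -(t.c : ℤ) else t.c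

/-- the value of a term at `v` -/
noncomputable def Tm.val (D : ℕ) (t : Tm) (v : ℝ) : ℝ :=
  (t.co : ℝ) / 111000 *
    (if t.ty then HC (v - (t.e : ℝ) / D) ((t.w : ℝ) / D) else HC ((t.w : ℝ) / D) (v - (t.e : ℝ) / D))

/-- the sum of the terms plus a linear term -/
noncomputable def fsum (D : ℕ) (ts : List Tm) (lin : ℤ) (v : ℝ) : ℝ :=
  (ts.map fun t => t.val D v).sum + (lin : ℝ) / 111000 * v

/-- coefficient in front of the even extension, on the cell starting at `A` -/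
def Tm.sg (t : Tm) (A : ℤ) : ℤ := if t.ty && decide (A < t.e) then -t.co else t.co

/-- tangency point: the midpoint for concave terms, the endpoint `Z` for convex ones -/
def Tm.pt (t : Tm) (A M Z : ℤ) : ℤ :=
  if t.ty then (if t.sg A < 0 then M else Z) else (if 0 < t.sg A then M else Z)

/-- upper bound of `2 · 2 ^ 48 · D · 111000 ·` value at `Z` of the chord or tangent -/
def Tm.up (D : ℕ) (t : Tm) (A M Z : ℤ) : ℤ :=
  let s := t.sg A
  let u := (t.pt A M Z - t.e).natAbs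
  let z := (Z - t.e).natAbs
  let N := u ^ 2 + t.w ^ 2
  if t.ty then
    mulHi (s * z) (logLo N) (logHi N) + mulHi (-(2 * s * z)) (logLo D) (logHi D) -
      2 * s * u * 2 ^ 48 + (if t.w = 0 then 0 else 2 * mulHi (s * t.w) (atLo u t.w) (atHi u t.w))
  else
    mulHi (s * t.w) (logLo N) (logHi N) + mulHi (-(2 * s * t.w)) (logLo D) (logHi D) -
      2 * s * t.w * 2 ^ 48 + (if z = 0 then 0 else 2 * mulHi (s * z) (atLo t.w u) (atHi t.w u))

def sumUp (D : ℕ) (A M Z : ℤ) : List Tm → ℤ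
  | [] => 0
  | t :: ts => t.up D A M Z + sumUp D A M Z ts

/-- all centres outside the open cell, `w ≠ 0` for the terms of type `false` -/
def outs (A B : ℤ) : List Tm → Bool
  | [] => true
  | t :: ts => (decide (t.e ≤ A) || decide (B ≤ t.e)) && (t.ty || decide (0 < t.w)) && outs A B ts

/-- the check of the cell `[A / D, B / D]` against the level `l / 1000` -/
def cellChk (D : ℕ) (ts : List Tm) (lin : ℤ) (A B l : ℤ) : Bool :=
  let M := (A + B) / 2
  decide (A + 2 ≤ B) && outs A B ts &&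
  decide (sumUp D A M A ts + 2 ^ 49 * lin * A ≤ 2 ^ 49 * D * 111 * l) &&
  decide (sumUp D A M B ts + 2 ^ 49 * lin * B ≤ 2 ^ 49 * D * 111 * l)

/-- check of consecutive cells starting from `A`; each entry is (right end, level) -/
def cellsChk (D : ℕ) (ts : List Tm) (lin : ℤ) : ℤ → List (ℤ × ℤ) → Bool
  | _, [] => true
  | A, (B, l) :: r => cellChk D ts lin A B l && cellsChk D ts lin B r

/-- last end point -/
def lastE : ℤ → List (ℤ × ℤ) → ℤ
  | A, [] => A
  | _, (B, _) :: r => lastE B r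

/-- integral of the step function, in units `1 / (1000 D)` -/
def stepI : ℤ → List (ℤ × ℤ) → ℤ
  | _, [] => 0
  | A, (B, l) :: r => (B - A) * l + stepI B r

/-- the terms of `gC x 0` -/
def tsG (D : ℕ) : List Tm :=
  [⟨true, false, 2 * 111000 * 5, 8 * D, 0⟩, ⟨true, true, 2 * 111000 * 5, -8 * D, 0⟩,
   ⟨true, true, 2 * (555000 - 259000), 11 * D, 0⟩, ⟨true, false, 2 * (555000 - 259000), -11 * D, 0⟩,
   ⟨true, true, 2 * 259000, 14 * D, 0⟩, ⟨true, false, 2 * 259000, -14 * D, 0⟩,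
   ⟨false, false, 4 * 90000, 14 * D, 37 * D / 5⟩, ⟨false, false, 4 * 90000, -14 * D, 37 * D / 5⟩,
   ⟨true, true, 2 * 111000, -8 * D, 0⟩, ⟨true, false, 2 * 111000, 8 * D, 0⟩,
   ⟨true, true, 4 * 111000, -7 * D, 0⟩, ⟨true, false, 4 * 111000, 7 * D, 0⟩,
   ⟨true, true, 4 * 111000, -6 * D, 0⟩, ⟨true, false, 4 * 111000, 6 * D, 0⟩]

/-- the terms of `- UC x 0` -/
def tsU (D : ℕ) : List Tm :=
  [⟨true, true, 111000 * 5, 8 * D, 0⟩, ⟨true, false, 111000 * 5, -8 * D, 0⟩,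
   ⟨true, false, 555000 - 259000, 11 * D, 0⟩, ⟨true, true, 555000 - 259000, -11 * D, 0⟩,
   ⟨true, false, 259000, 14 * D, 0⟩, ⟨true, true, 259000, -14 * D, 0⟩,
   ⟨false, true, 2 * 90000, 14 * D, 37 * D / 5⟩, ⟨false, true, 2 * 90000, -14 * D, 37 * D / 5⟩]

/-- the terms of `gC 14 y`, `y ≥ 0`, without the linear one -/
def tsL (D : ℕ) : List Tm :=
  [⟨false, false, 2 * 555000, 0, 6 * D⟩, ⟨false, true, 2 * (555000 - 259000), 0, 3 * D⟩,
   ⟨false, false, 2 * (555000 - 259000), 0, 25 * D⟩, ⟨false, true, 2 * 555000, 0, 22 * D⟩,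
   ⟨false, false, 2 * 259000, 0, 28 * D⟩,
   ⟨true, false, 2 * 90000, -(37 * D / 5 : ℕ), 0⟩, ⟨true, true, 2 * 90000, (37 * D / 5 : ℕ), 0⟩,
   ⟨true, false, 2 * 90000, -(37 * D / 5 : ℕ), 28 * D⟩,
   ⟨true, true, 2 * 90000, (37 * D / 5 : ℕ), 28 * D⟩,
   ⟨false, true, 2 * 111000, 0, 22 * D⟩, ⟨false, false, 2 * 111000, 0, 6 * D⟩,
   ⟨false, true, 4 * 111000, 0, 21 * D⟩, ⟨false, false, 4 * 111000, 0, 7 * D⟩,
   ⟨false, true, 4 * 111000, 0, 20 * D⟩, ⟨false, false, 4 * 111000, 0, 8 * D⟩]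

/-- the terms of `- UC 14 y`, `y ≥ 0` -/
def tsM (D : ℕ) : List Tm :=
  [⟨false, true, 555000, 0, 6 * D⟩, ⟨false, false, 555000 - 259000, 0, 3 * D⟩,
   ⟨false, true, 555000 - 259000, 0, 25 * D⟩, ⟨false, false, 555000, 0, 22 * D⟩,
   ⟨false, true, 259000, 0, 28 * D⟩,
   ⟨true, true, 90000, -(37 * D / 5 : ℕ), 0⟩, ⟨true, false, 90000, (37 * D / 5 : ℕ), 0⟩,
   ⟨true, true, 90000, -(37 * D / 5 : ℕ), 28 * D⟩, ⟨true, false, 90000, (37 * D / 5 : ℕ), 28 * D⟩]

end Pool.Agent.OZ
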