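import Pool.Agent.OZ.AHCB
import Pool.Agent.OZ.CDefs

/-!
# The functions as sums of terms (module CLNK)
-/

open Finset

namespace Pool.Agent.OZ

theorem gC_eq_fsum (x : ℝ) : gC x 0 = fsum 320 (tsG 320) 0 x := by
  have h1 : HC (-(37 / 5)) (x - 14) = -HC (37 / 5) (x - 14) := HC_neg _ _
  have h2 : HC (-(37 / 5)) (x + 14) = -HC (37 / 5) (x + 14) := HC_neg _ _
  unfold gC UC VC fsum
  simp only [tsG, List.map_cons, List.map_nil, List.sum_cons, List.sum_nil, Tm.val, Tm.co,
    if_true, if_false, Bool.false_eq_true]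
  norm_num [h1, h2]
  ring

theorem UC_eq_fsum (x : ℝ) : -UC x 0 = fsum 320 (tsU 320) 0 x := by
  have h1 : HC (-(37 / 5)) (x - 14) = -HC (37 / 5) (x - 14) := HC_neg _ _
  have h2 : HC (-(37 / 5)) (x + 14) = -HC (37 / 5) (x + 14) := HC_neg _ _
  unfold UC fsum
  simp only [tsU, List.map_cons, List.map_nil, List.sum_cons, List.sum_nil, Tm.val, Tm.co,
    if_true, if_false, Bool.false_eq_true]
  norm_num [h1, h2]
  ring

theorem UC_line_eq (y : ℝ) : -UC 14 y = fsum 320 (tsM 320) 0 y := by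
  unfold UC fsum
  simp only [tsM, List.map_cons, List.map_nil, List.sum_cons, List.sum_nil, Tm.val, Tm.co,
    if_true, if_false, Bool.false_eq_true]
  norm_num [HC_zero_left]
  ring

theorem gC_line_le {y : ℝ} (hy : 0 ≤ y) : gC 14 y ≤ fsum 320 (tsL 320) (-697433) y := by
  have h1 : (697433 / 111000 : ℝ) * y ≤ 2 * Real.pi * |y| := by
    rw [abs_of_nonneg hy]
    have := Real.pi_gt_d6
    nlinarith
  unfold gC UC VC fsum
  simp only [tsL, List.map_cons, List.map_nil, List.sum_cons, List.sum_nil, Tm.val, Tm.co,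
    if_true, if_false, Bool.false_eq_true]
  norm_num [HC_zero_left]
  linarith

/-- mean value bound from above -/
theorem clnk_HC_le {a b y M : ℝ} (hab : a ≤ b) (hne : ∀ x ∈ Set.Icc a b, x ≠ 0 ∨ y ≠ 0)
    (hM : ∀ x ∈ Set.Icc a b, x ^ 2 + y ^ 2 ≤ M) :
    HC b y - HC a y ≤ (b - a) * (1 / 2 * Real.log M) := by
  rcases eq_or_lt_of_le hab with rfl | hlt
  · simp
  obtain ⟨c, hc, hc2⟩ := exists_hasDerivAt_eq_slope (fun x => HC x y)
    (fun x => 1 / 2 * Real.log (x ^ 2 + y ^ 2)) hlt (continuous_HC_left y).continuousOn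
    (fun x hx => hasDerivAt_HC (hne x ⟨hx.1.le, hx.2.le⟩))
  have hc3 : c ∈ Set.Icc a b := ⟨hc.1.le, hc.2.le⟩
  have hpos : 0 < c ^ 2 + y ^ 2 := by
    rcases hne c hc3 with h | h
    · have := sq_nonneg y
      positivity
    · have := sq_nonneg c
      positivity
  have h1 : Real.log (c ^ 2 + y ^ 2) ≤ Real.log M := Real.log_le_log hpos (hM c hc3)
  have hba : 0 < b - a := by linarith
  have h2 : HC b y - HC a y = (b - a) * (1 / 2 * Real.log (c ^ 2 + y ^ 2)) := by
    rw [hc2]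
    field_simp
  rw [h2]
  exact mul_le_mul_of_nonneg_left (by linarith) hba.le

/-- mean value bound from below -/
theorem clnk_HC_ge {a b y M : ℝ} (hab : a ≤ b) (hM0 : 0 < M)
    (hM : ∀ x ∈ Set.Icc a b, M ≤ x ^ 2 + y ^ 2) :
    (b - a) * (1 / 2 * Real.log M) ≤ HC b y - HC a y := by
  rcases eq_or_lt_of_le hab with rfl | hlt
  · simp
  have hne : ∀ x ∈ Set.Icc a b, x ≠ 0 ∨ y ≠ 0 := by
    intro x hx
    by_contra hcon
    push Not at hcon
    have := hM x hx
    rw [hcon.1, hcon.2] at this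
    norm_num at this
    linarith
  obtain ⟨c, hc, hc2⟩ := exists_hasDerivAt_eq_slope (fun x => HC x y)
    (fun x => 1 / 2 * Real.log (x ^ 2 + y ^ 2)) hlt (continuous_HC_left y).continuousOn
    (fun x hx => hasDerivAt_HC (hne x ⟨hx.1.le, hx.2.le⟩))
  have hc3 : c ∈ Set.Icc a b := ⟨hc.1.le, hc.2.le⟩
  have h1 : Real.log M ≤ Real.log (c ^ 2 + y ^ 2) := Real.log_le_log hM0 (hM c hc3)
  have hba : 0 < b - a := by linarith
  have h2 : HC b y - HC a y = (b - a) * (1 / 2 * Real.log (c ^ 2 + y ^ 2)) := by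
    rw [hc2]
    field_simp
  rw [h2]
  exact mul_le_mul_of_nonneg_left (by linarith) hba.le

/-- crude bound far away on the line -/
theorem gC_tail {y : ℝ} (hy : 25 ≤ y) : gC 14 y ≤ lev - (y - 25) := by
  set M : ℝ := 28 ^ 2 + (y + 37 / 5) ^ 2 with hM
  set m : ℝ := 6 ^ 2 + y ^ 2 with hm
  have hm0 : 0 < m := by positivity
  have up1 : ∀ a b : ℝ, 0 ≤ a → a ≤ b → b ≤ 28 → HC b y - HC a y ≤ (b - a) * (1 / 2 * Real.log M) := by
    intro a b h1 h2 h3
    refine clnk_HC_le h2 (fun x _ => Or.inr (by linarith)) fun x hx => ?_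
    have h4 : x ^ 2 ≤ 28 ^ 2 := by
      have := hx.1
      have := hx.2
      nlinarith
    have h5 : y ^ 2 ≤ (y + 37 / 5) ^ 2 := by nlinarith
    linarith
  have up2 : ∀ w : ℝ, w ^ 2 ≤ 28 ^ 2 →
      HC (y + 37 / 5) w - HC (y - 37 / 5) w ≤ (y + 37 / 5 - (y - 37 / 5)) * (1 / 2 * Real.log M) := by
    intro w hw
    refine clnk_HC_le (by linarith) (fun x hx => Or.inl ?_) fun x hx => ?_
    · have := hx.1
      linarith
    · have h4 : x ^ 2 ≤ (y + 37 / 5) ^ 2 := by
        have := hx.1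
        have := hx.2
        nlinarith
      linarith
  have lo1 : ∀ a b : ℝ, 6 ≤ a → a ≤ b → (b - a) * (1 / 2 * Real.log m) ≤ HC b y - HC a y := by
    intro a b h1 h2
    refine clnk_HC_ge h2 hm0 fun x hx => ?_
    have h4 : 6 ^ 2 ≤ x ^ 2 := by
      have := hx.1
      nlinarith
    linarith
  have hU : 2 * UC 14 y ≤ 136 * (1 / 2 * Real.log M) := by
    unfold UC
    have a1 := up1 (14 - 11) (14 - 8) (by norm_num) (by norm_num) (by norm_num)
    have a2 := up1 (14 + 8) (14 + 11) (by norm_num) (by norm_num) (by norm_num)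
    have a3 := up1 (14 - 14) (14 - 11) (by norm_num) (by norm_num) (by norm_num)
    have a4 := up1 (14 + 11) (14 + 14) (by norm_num) (by norm_num) (by norm_num)
    have a5 := up2 (14 - 14) (by norm_num)
    have a6 := up2 (14 + 14) (by norm_num)
    linarith
  have hV : 136 * (1 / 2 * Real.log m) ≤ VC 14 y := by
    unfold VC
    have a1 := lo1 (14 - 8) (14 + 8) (by norm_num) (by norm_num)
    have a2 := lo1 (14 - 7) (14 + 7) (by norm_num) (by norm_num)
    have a3 := lo1 (14 - 6) (14 + 6) (by norm_num) (by norm_num)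
    linarith
  have hM4 : M ≤ 4 * m := by
    rw [hM, hm]
    nlinarith
  have hM0 : 0 < M := by positivity
  have hlog : Real.log M ≤ 2 * Real.log 2 + Real.log m := by
    have e1 : Real.log (4 * m) = 2 * Real.log 2 + Real.log m := by
      rw [Real.log_mul (by norm_num) hm0.ne', show (4 : ℝ) = 2 ^ 2 by norm_num, Real.log_pow]
      norm_num
    rw [← e1]
    exact Real.log_le_log hM0 hM4
  have hl2 := Real.log_two_lt_d9
  have hpi := Real.pi_gt_d6
  have hab : |y| = y := abs_of_nonneg (by linarith)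
  unfold gC lev
  rw [hab]
  nlinarith

end Pool.Agent.OZ
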