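import Pool.Agent.OZ.AHCB
import Pool.Agent.OZ.CData
import Pool.Agent.OZ.CCHK
import Pool.Agent.OZ.CLNK

/-!
# The level on the real block (module ANR)
-/

open Finset

namespace Pool.Agent.OZ

/-- a step function all of whose levels are equal -/
theorem anr_stepF_const {D : ℕ} {L : ℤ} : ∀ (cs : List (ℤ × ℤ)) (A : ℤ),
    (∀ c ∈ cs, c.2 = L) → cs ≠ [] → ∀ {v : ℝ}, v ≤ (lastE A cs : ℝ) / D →
      stepF D cs v = (L : ℝ) / 1000
  | [], _, _, h, _, _ => absurd rfl h
  | (B, l) :: r, A, hL, _, v, hv => by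
    have h1 : l = L := hL (B, l) (by simp)
    unfold stepF
    split_ifs with h2
    · rw [h1]
    · by_cases hr : r = []
      · exfalso
        apply h2
        rw [hr] at hv
        exact hv
      · exact anr_stepF_const r B (fun c hc => hL c (List.mem_cons_of_mem _ hc)) hr hv

theorem gC_real {x : ℝ} (h1 : 11 ≤ x) (h2 : x ≤ 14) : gC x 0 ≤ lev := by
  have hne : cR ≠ [] := by
    unfold cR
    exact List.cons_ne_nil _ _
  have h3 : x ≤ (lastE 3520 cR : ℝ) / (320 : ℕ) := by
    rw [cR_last]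
    norm_num
    exact h2
  have h4 : ((3520 : ℤ) : ℝ) / (320 : ℕ) ≤ x := by
    norm_num
    exact h1
  have h5 := cellsChk_le (D := 320) (by norm_num) 3520 cR hne cR_ok h4 h3
  rw [anr_stepF_const cR 3520 cR_lev hne h3] at h5
  rw [gC_eq_fsum]
  unfold lev
  push_cast at h5
  linarith

end Pool.Agent.OZ
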