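import Pool.Agent.OZ.ADefs
import Pool.Agent.OZ.AHCA
import Pool.Agent.OZ.AHCB
import Pool.Agent.OZ.ABU

/-!
Module APU of project OZ: size of the Hermite polynomials (potential of the nodes).
-/

open Finset Polynomial

namespace Pool.Agent.OZ

/-- exponents of the factors of the Hermite polynomial `a` -/
def apu_ee (m : ℕ) (a : JJ m) (k : Ix m) : ℕ := if k = a.1 then (a.2 : ℕ) else mu m k

theorem apu_ee_le (m : ℕ) (a : JJ m) (k : Ix m) : apu_ee m a k ≤ mu m k := by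
  unfold apu_ee
  split_ifs with h
  · subst h; exact a.2.2.le
  · exact le_rfl

theorem apu_ee_ne {m : ℕ} {a : JJ m} {k : Ix m} (h : apu_ee m a k ≠ mu m k) : k = a.1 := by
  by_contra hk
  exact h (by unfold apu_ee; rw [if_neg hk])

theorem apu_eval (m : ℕ) (a : JJ m) (Y : ℂ) :
    (PC m a).eval Y = ∏ k, (Y - yN m k) ^ apu_ee m a k := by
  unfold PC hb
  rw [← Finset.mul_prod_erase univ _ (Finset.mem_univ a.1), eval_mul, eval_pow, eval_prod]
  congr 1
  · simp [apu_ee]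
  · refine Finset.prod_congr rfl (fun k hk => ?_)
    have := Finset.ne_of_mem_erase hk
    simp [apu_ee, this]

theorem apu_sum_mu {m : ℕ} (hm : 1 ≤ m) : ∑ k, mu m k = nn m := by
  rw [Fintype.sum_sum_type, Fintype.sum_sum_type]
  simp only [mu, Finset.sum_const, Finset.card_univ, Fintype.card_fin, Fintype.card_prod,
    Fintype.card_bool, smul_eq_mul, nn]
  omega

theorem apu_log_norm (z : ℂ) : Real.log ‖z‖ = 1 / 2 * Real.log (z.re ^ 2 + z.im ^ 2) := by
  rw [Complex.norm_eq_sqrt_sq_add_sq, Real.log_sqrt (by positivity)]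
  ring

theorem apu_log_R {s : ℝ} (hs : 2 ≤ s) : Real.log (100 * s) ≤ 8 * Real.log s := by
  have h1 : Real.log (100 * s) ≤ Real.log (s ^ 7 * s) := by
    apply Real.log_le_log (by positivity)
    have : (2 : ℝ) ^ 7 ≤ s ^ 7 := pow_le_pow_left₀ (by norm_num) hs 7
    nlinarith
  rw [← pow_succ, Real.log_pow] at h1
  push_cast at h1
  linarith

theorem apu_shift : ∃ C : ℝ, 0 < C ∧ ∀ X X' Y Y' s : ℝ, 2 ≤ s → |X - X'| ≤ 3 → |Y - Y'| ≤ 3 →
    |X| ≤ 100 * s → |Y'| ≤ 100 * s → |HC X Y - HC X' Y'| ≤ C * Real.log s := by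
  obtain ⟨C, hC, h⟩ := HC_lip
  refine ⟨8 * C + 12, by positivity, ?_⟩
  intro X X' Y Y' s hs hX hY hX1 hY1
  have h1 := h X X' Y' (100 * s) hX hX1 hY1 (by linarith)
  have h2 := HC_lip_right X Y Y'
  have h3 : |HC X Y - HC X' Y'| ≤ |HC X Y - HC X Y'| + |HC X Y' - HC X' Y'| := abs_sub_le _ _ _
  have h4 : C * Real.log (100 * s) ≤ C * (8 * Real.log s) :=
    mul_le_mul_of_nonneg_left (apu_log_R hs) hC.le
  have h5 : (1 / 2 : ℝ) ≤ Real.log s := by
    have := Real.log_two_gt_d9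
    have := Real.log_le_log (by norm_num) hs
    linarith
  linarith

/-- weighted sums with at most one defective weight -/
theorem apu_wsum {ι : Type*} [Fintype ι] [DecidableEq ι] (φ : ι → ℕ)
    (hφ : Function.Injective φ) {N M : ℕ} (hφN : ∀ i, φ i < N) (hcard : Fintype.card ι = N)
    (e : ι → ℕ) (f : ℕ → ℝ) (B : ℝ)
    (hB : ∀ S ⊆ range N, N ≤ S.card + 1 → ∑ k ∈ S, f k ≤ B)
    (he : ∀ i, e i ≤ M) (he1 : ∀ i j, e i ≠ M → e j ≠ M → i = j) :
    ∑ i, (e i : ℝ) * f (φ i) ≤ M * B := by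
  have im : ∀ T : Finset ι, N ≤ T.card + 1 → ∑ i ∈ T, f (φ i) ≤ B := by
    intro T hT
    have h1 := hB (T.image φ) (by
      intro k hk
      obtain ⟨i, _, rfl⟩ := Finset.mem_image.1 hk
      exact Finset.mem_range.2 (hφN i)) (by rwa [Finset.card_image_of_injective _ hφ])
    rwa [Finset.sum_image (fun i _ j _ h => hφ h)] at h1
  have full := im univ (by rw [Finset.card_univ, hcard]; omega)
  by_cases h : ∃ i, e i ≠ M
  · obtain ⟨i, hi⟩ := h
    have om := im (univ.erase i) (by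
      rw [Finset.card_erase_of_mem (Finset.mem_univ i), Finset.card_univ, hcard]; omega)
    rw [← Finset.add_sum_erase univ _ (Finset.mem_univ i)] at full ⊢
    have e1 : ∑ j ∈ univ.erase i, (e j : ℝ) * f (φ j) = M * ∑ j ∈ univ.erase i, f (φ j) := by
      rw [Finset.mul_sum]
      refine Finset.sum_congr rfl (fun j hj => ?_)
      have : e j = M := by
        by_contra hne
        exact Finset.ne_of_mem_erase hj (he1 j i hne hi)
      rw [this]
    rw [e1]
    have h0 : (0 : ℝ) ≤ e i := Nat.cast_nonneg _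
    have h1 : (e i : ℝ) ≤ M := by exact_mod_cast he i
    have h2 := mul_le_mul_of_nonneg_left full h0
    have h3 := mul_le_mul_of_nonneg_left om (sub_nonneg.2 h1)
    nlinarith
  · push Not at h
    have e1 : ∑ i, (e i : ℝ) * f (φ i) = M * ∑ i, f (φ i) := by
      rw [Finset.mul_sum]
      refine Finset.sum_congr rfl (fun j _ => ?_)
      rw [h j]
    rw [e1]
    exact mul_le_mul_of_nonneg_left full (Nat.cast_nonneg _)

theorem apu_F1 : ∃ C : ℝ, 0 < C ∧ ∀ m : ℕ, 1 ≤ m → ∀ (a : JJ m) (z : ℂ),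
    ∑ k : Fin (3 * m + 1), (apu_ee m a (.inl k) : ℝ) * Real.log ‖z - pos m (.inl k)‖ ≤
      5 * (HC (z.re - 8 * m) z.im - HC (z.re - 11 * m) z.im) + C * Real.log (m + 1 + ‖z‖) := by
  obtain ⟨C1, hC1, h1⟩ := blk_le (h := 1) one_pos
  obtain ⟨C2, hC2, h2⟩ := apu_shift
  refine ⟨5 * (8 * C1 + 2 * C2), by positivity, ?_⟩
  intro m hm a z
  have hm' : (1 : ℝ) ≤ m := by exact_mod_cast hm
  have hn : 0 ≤ ‖z‖ := norm_nonneg z
  set s : ℝ := m + 1 + ‖z‖ with hs
  have hs2 : 2 ≤ s := by rw [hs]; linarith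
  have hlR := apu_log_R hs2
  have hre := Complex.abs_re_le_norm z
  have him := Complex.abs_im_le_norm z
  have hre' := abs_le.1 hre
  set f : ℕ → ℝ := fun k => 1 / 2 * Real.log ((z.re - ((8 * m + 3 / 2 : ℝ) + k * 1)) ^ 2 +
    z.im ^ 2) with hf
  have key := apu_wsum (ι := Fin (3 * m + 1)) (fun k => (k : ℕ)) Fin.val_injective
    (N := 3 * m + 1) (M := 5) (fun k => k.2) (Fintype.card_fin _)
    (fun k => apu_ee m a (.inl k)) f
    ((HC (z.re - (8 * m + 3 / 2)) z.im - HC (z.re - (8 * m + 3 / 2) - (3 * m + 1 : ℕ) * 1) z.im) / 1 +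
      C1 * Real.log (100 * s))
    (fun S hS hc => h1 (8 * m + 3 / 2) z.re z.im (100 * s) (3 * m + 1) S hS hc (by linarith) (by
      push_cast
      rw [abs_of_nonneg (by positivity : (0 : ℝ) ≤ 8 * m + 3 / 2), hs]; linarith))
    (fun k => apu_ee_le m a (.inl k))
    (fun i j hi hj => by
      have h3 := apu_ee_ne (a := a) (k := .inl i) hi
      have h4 := apu_ee_ne (a := a) (k := .inl j) hj
      exact Sum.inl_injective (h3.trans h4.symm))
  have e1 : ∑ k : Fin (3 * m + 1), (apu_ee m a (.inl k) : ℝ) * Real.log ‖z - pos m (.inl k)‖ =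
      ∑ k : Fin (3 * m + 1), (apu_ee m a (.inl k) : ℝ) * f k := by
    refine Finset.sum_congr rfl (fun k _ => ?_)
    rw [apu_log_norm]
    simp only [hf, pos]
    have r1 : (z - (8 * (m : ℂ) + 3 / 2 + ((k : ℕ) : ℂ))).re =
        z.re - ((8 * m + 3 / 2 : ℝ) + (k : ℕ) * 1) := by simp
    have r2 : (z - (8 * (m : ℂ) + 3 / 2 + ((k : ℕ) : ℂ))).im = z.im := by simp
    rw [r1, r2]
  rw [e1]
  refine key.trans ?_
  have l1 := (abs_le.1 (h2 (z.re - (8 * m + 3 / 2)) (z.re - 8 * m) z.im z.im s hs2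
    (by rw [show z.re - (8 * (m : ℝ) + 3 / 2) - (z.re - 8 * m) = -(3 / 2) by ring, abs_neg,
          abs_of_pos (by norm_num)]; norm_num) (by simp)
    (by rw [abs_le]; constructor <;> (rw [hs]; linarith)) (by rw [hs]; linarith))).2
  have l2 := (abs_le.1 (h2 (z.re - (8 * m + 3 / 2) - (3 * m + 1 : ℕ) * 1) (z.re - 11 * m) z.im
    z.im s hs2
    (by push_cast
        rw [show z.re - (8 * (m : ℝ) + 3 / 2) - (3 * m + 1) * 1 - (z.re - 11 * m) = -(5 / 2) by ring,
          abs_neg, abs_of_pos (by norm_num)]; norm_num) (by simp)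
    (by push_cast; rw [abs_le]; constructor <;> (rw [hs]; linarith)) (by rw [hs]; linarith))).1
  have f1 : C1 * Real.log (100 * s) ≤ C1 * (8 * Real.log s) :=
    mul_le_mul_of_nonneg_left hlR hC1.le
  rw [div_one]
  push_cast at l2 ⊢
  linarith

theorem apu_F2 : ∃ C : ℝ, 0 < C ∧ ∀ m : ℕ, 1 ≤ m → ∀ (a : JJ m) (z : ℂ),
    ∑ k : Fin (7 * m - 2), (apu_ee m a (.inr (.inl k)) : ℝ) *
      Real.log ‖z - pos m (.inr (.inl k))‖ ≤
      7 / 3 * (HC (z.re - 11 * m) z.im - HC (z.re - 14 * m) z.im) +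
        C * Real.log (m + 1 + ‖z‖) := by
  obtain ⟨C1, hC1, h1⟩ := blk_le (h := 3 / 7) (by norm_num)
  obtain ⟨C2, hC2, h2⟩ := apu_shift
  refine ⟨8 * C1 + 7 / 3 * (2 * C2), by positivity, ?_⟩
  intro m hm a z
  have hm' : (1 : ℝ) ≤ m := by exact_mod_cast hm
  have hn : 0 ≤ ‖z‖ := norm_nonneg z
  set s : ℝ := m + 1 + ‖z‖ with hs
  have hs2 : 2 ≤ s := by rw [hs]; linarith
  have hlR := apu_log_R hs2
  have hre := Complex.abs_re_le_norm z
  have him := Complex.abs_im_le_norm z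
  have hre' := abs_le.1 hre
  have hN : ((7 * m - 2 : ℕ) : ℝ) = 7 * m - 2 := by
    rw [Nat.cast_sub (by omega)]; push_cast; ring
  set f : ℕ → ℝ := fun k => 1 / 2 * Real.log ((z.re - ((11 * m + 2 : ℝ) + k * (3 / 7))) ^ 2 +
    z.im ^ 2) with hf
  have key := apu_wsum (ι := Fin (7 * m - 2)) (fun k => (k : ℕ)) Fin.val_injective
    (N := 7 * m - 2) (M := 1) (fun k => k.2) (Fintype.card_fin _)
    (fun k => apu_ee m a (.inr (.inl k))) f
    ((HC (z.re - (11 * m + 2)) z.im -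
      HC (z.re - (11 * m + 2) - (7 * m - 2 : ℕ) * (3 / 7)) z.im) / (3 / 7) +
      C1 * Real.log (100 * s))
    (fun S hS hc => h1 (11 * m + 2) z.re z.im (100 * s) (7 * m - 2) S hS hc (by linarith) (by
      rw [hN, abs_of_nonneg (by positivity : (0 : ℝ) ≤ 11 * m + 2), hs]; linarith))
    (fun k => apu_ee_le m a (.inr (.inl k)))
    (fun i j hi hj => by
      have h3 := apu_ee_ne (a := a) (k := .inr (.inl i)) hi
      have h4 := apu_ee_ne (a := a) (k := .inr (.inl j)) hj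
      exact Sum.inl_injective (Sum.inr_injective (h3.trans h4.symm)))
  have e1 : ∑ k : Fin (7 * m - 2), (apu_ee m a (.inr (.inl k)) : ℝ) *
      Real.log ‖z - pos m (.inr (.inl k))‖ =
      ∑ k : Fin (7 * m - 2), (apu_ee m a (.inr (.inl k)) : ℝ) * f k := by
    refine Finset.sum_congr rfl (fun k _ => ?_)
    rw [apu_log_norm]
    simp only [hf, pos]
    have r1 : (z - (11 * (m : ℂ) + 2 + 3 / 7 * ((k : ℕ) : ℂ))).re =
        z.re - ((11 * m + 2 : ℝ) + (k : ℕ) * (3 / 7)) := by simp; ring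
    have r2 : (z - (11 * (m : ℂ) + 2 + 3 / 7 * ((k : ℕ) : ℂ))).im = z.im := by simp
    rw [r1, r2]
  rw [e1]
  refine key.trans ?_
  rw [hN]
  have l1 := (abs_le.1 (h2 (z.re - (11 * m + 2)) (z.re - 11 * m) z.im z.im s hs2
    (by rw [show z.re - (11 * (m : ℝ) + 2) - (z.re - 11 * m) = -2 by ring, abs_neg,
          abs_of_pos (by norm_num)]; norm_num) (by simp)
    (by rw [abs_le]; constructor <;> (rw [hs]; linarith)) (by rw [hs]; linarith))).2
  have l2 := (abs_le.1 (h2 (z.re - (11 * m + 2) - (7 * m - 2) * (3 / 7)) (z.re - 14 * m) z.im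
    z.im s hs2
    (by rw [show z.re - (11 * (m : ℝ) + 2) - (7 * m - 2) * (3 / 7) - (z.re - 14 * m) = -(8 / 7) by
          ring, abs_neg, abs_of_pos (by norm_num)]; norm_num) (by simp)
    (by rw [abs_le]; constructor <;> (rw [hs]; linarith)) (by rw [hs]; linarith))).1
  have f1 : C1 * Real.log (100 * s) ≤ C1 * (8 * Real.log s) :=
    mul_le_mul_of_nonneg_left hlR hC1.le
  rw [Nat.cast_one, one_mul, div_eq_mul_inv, show ((3 / 7 : ℝ))⁻¹ = 7 / 3 by norm_num]
  linarith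

/-- enumeration of the nodes on the line -/
def apu_phi (m : ℕ) : Fin (6 * m + 1) × Bool → ℕ
  | (l, true) => 6 * m + 1 + l
  | (l, false) => 6 * m - l

theorem apu_phi_inj (m : ℕ) : Function.Injective (apu_phi m) := by
  rintro ⟨l, b⟩ ⟨l', b'⟩ h
  have h1 := l.2
  have h2 := l'.2
  cases b <;> cases b' <;> simp only [apu_phi] at h
  · have : l = l' := Fin.ext (by omega)
    rw [this]
  · omega
  · omega
  · have : l = l' := Fin.ext (by omega)
    rw [this]

theorem apu_F3 : ∃ C : ℝ, 0 < C ∧ ∀ m : ℕ, 1 ≤ m → ∀ (a : JJ m) (z : ℂ),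
    ∑ k : Fin (6 * m + 1) × Bool, (apu_ee m a (.inr (.inr k)) : ℝ) *
      Real.log ‖z - pos m (.inr (.inr k))‖ ≤
      30 / 37 * (HC (z.im + 37 / 5 * m) (z.re - 14 * m) -
        HC (z.im - 37 / 5 * m) (z.re - 14 * m)) + C * Real.log (m + 1 + ‖z‖) := by
  obtain ⟨C1, hC1, h1⟩ := blk_le (h := 37 / 30) (by norm_num)
  obtain ⟨C2, hC2, h2⟩ := apu_shift
  refine ⟨8 * C1 + 30 / 37 * (2 * C2), by positivity, ?_⟩
  intro m hm a z
  have hm' : (1 : ℝ) ≤ m := by exact_mod_cast hm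
  have hn : 0 ≤ ‖z‖ := norm_nonneg z
  set s : ℝ := m + 1 + ‖z‖ with hs
  have hs2 : 2 ≤ s := by rw [hs]; linarith
  have hlR := apu_log_R hs2
  have hre := Complex.abs_re_le_norm z
  have him := Complex.abs_im_le_norm z
  have hre' := abs_le.1 hre
  have him' := abs_le.1 him
  have hw : |z.re - 14 * m - 1| ≤ ‖z‖ + 14 * m + 1 := by
    rw [abs_le]; constructor <;> linarith
  set f : ℕ → ℝ := fun k => 1 / 2 * Real.log ((z.im - (-(37 / 30 * (6 * m + 1 / 2) : ℝ) +
    k * (37 / 30))) ^ 2 + (z.re - 14 * m - 1) ^ 2) with hf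
  have key := apu_wsum (ι := Fin (6 * m + 1) × Bool) (apu_phi m) (apu_phi_inj m)
    (N := 12 * m + 2) (M := 1) (fun k => by
      obtain ⟨l, b⟩ := k
      have := l.2
      cases b <;> simp only [apu_phi] <;> omega) (by simp; omega)
    (fun k => apu_ee m a (.inr (.inr k))) f
    ((HC (z.im - -(37 / 30 * (6 * m + 1 / 2))) (z.re - 14 * m - 1) -
      HC (z.im - -(37 / 30 * (6 * m + 1 / 2)) - (12 * m + 2 : ℕ) * (37 / 30))
        (z.re - 14 * m - 1)) / (37 / 30) + C1 * Real.log (100 * s))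
    (fun S hS hc => h1 (-(37 / 30 * (6 * m + 1 / 2))) z.im (z.re - 14 * m - 1) (100 * s)
      (12 * m + 2) S hS hc (by linarith) (by
      push_cast
      rw [abs_neg, abs_of_nonneg (by positivity : (0 : ℝ) ≤ 37 / 30 * (6 * m + 1 / 2)), hs]
      linarith))
    (fun k => apu_ee_le m a (.inr (.inr k)))
    (fun i j hi hj => by
      have h3 := apu_ee_ne (a := a) (k := .inr (.inr i)) hi
      have h4 := apu_ee_ne (a := a) (k := .inr (.inr j)) hj
      exact Sum.inr_injective (Sum.inr_injective (h3.trans h4.symm)))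
  have e1 : ∑ k : Fin (6 * m + 1) × Bool, (apu_ee m a (.inr (.inr k)) : ℝ) *
      Real.log ‖z - pos m (.inr (.inr k))‖ =
      ∑ k : Fin (6 * m + 1) × Bool, (apu_ee m a (.inr (.inr k)) : ℝ) * f (apu_phi m k) := by
    refine Finset.sum_congr rfl (fun k _ => ?_)
    rw [apu_log_norm]
    obtain ⟨l, b⟩ := k
    have hl := l.2
    cases b
    · simp only [hf, pos, apu_phi]
      have r1 : (z - (14 * (m : ℂ) + 1 - 37 / 30 * (((l : ℕ) : ℂ) + 1 / 2) * Complex.I)).re =
          z.re - 14 * m - 1 := by simp; ring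
      have r2 : (z - (14 * (m : ℂ) + 1 - 37 / 30 * (((l : ℕ) : ℂ) + 1 / 2) * Complex.I)).im =
          z.im - (-(37 / 30 * (6 * m + 1 / 2) : ℝ) + ((6 * m - (l : ℕ) : ℕ) : ℝ) * (37 / 30)) := by
        rw [Nat.cast_sub (by omega)]
        simp
        ring
      rw [r1, r2]
      ring_nf
    · simp only [hf, pos, apu_phi]
      have r1 : (z - (14 * (m : ℂ) + 1 + 37 / 30 * (((l : ℕ) : ℂ) + 1 / 2) * Complex.I)).re =
          z.re - 14 * m - 1 := by simp; ring
      have r2 : (z - (14 * (m : ℂ) + 1 + 37 / 30 * (((l : ℕ) : ℂ) + 1 / 2) * Complex.I)).im =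
          z.im - (-(37 / 30 * (6 * m + 1 / 2) : ℝ) + ((6 * m + 1 + (l : ℕ) : ℕ) : ℝ) * (37 / 30)) := by
        simp
        ring
      rw [r1, r2]
      ring_nf
  rw [e1]
  refine key.trans ?_
  have l1 := (abs_le.1 (h2 (z.im - -(37 / 30 * (6 * m + 1 / 2))) (z.im + 37 / 5 * m)
    (z.re - 14 * m - 1) (z.re - 14 * m) s hs2
    (by rw [show z.im - -(37 / 30 * (6 * (m : ℝ) + 1 / 2)) - (z.im + 37 / 5 * m) = 37 / 60 by ring,
          abs_of_pos (by norm_num)]; norm_num)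
    (by rw [show z.re - 14 * (m : ℝ) - 1 - (z.re - 14 * m) = -1 by ring, abs_neg, abs_one]; norm_num)
    (by rw [abs_le]; constructor <;> (rw [hs]; linarith))
    (by rw [abs_le]; constructor <;> (rw [hs]; linarith)))).2
  have l2 := (abs_le.1 (h2 (z.im - -(37 / 30 * (6 * m + 1 / 2)) - (12 * m + 2 : ℕ) * (37 / 30))
    (z.im - 37 / 5 * m) (z.re - 14 * m - 1) (z.re - 14 * m) s hs2
    (by push_cast
        rw [show z.im - -(37 / 30 * (6 * (m : ℝ) + 1 / 2)) - (12 * m + 2) * (37 / 30) -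
          (z.im - 37 / 5 * m) = -(37 / 20) by ring, abs_neg, abs_of_pos (by norm_num)]; norm_num)
    (by rw [show z.re - 14 * (m : ℝ) - 1 - (z.re - 14 * m) = -1 by ring, abs_neg, abs_one]; norm_num)
    (by push_cast; rw [abs_le]; constructor <;> (rw [hs]; linarith))
    (by rw [abs_le]; constructor <;> (rw [hs]; linarith)))).1
  have f1 : C1 * Real.log (100 * s) ≤ C1 * (8 * Real.log s) :=
    mul_le_mul_of_nonneg_left hlR hC1.le
  rw [Nat.cast_one, one_mul, div_eq_mul_inv _ (37 / 30 : ℝ),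
    show ((37 / 30 : ℝ))⁻¹ = 30 / 37 by norm_num]
  linarith

/-- the potential of all nodes -/
theorem apu_T : ∃ C : ℝ, 0 < C ∧ ∀ m : ℕ, 1 ≤ m → ∀ (a : JJ m) (z : ℂ),
    ∑ k, (apu_ee m a k : ℝ) * Real.log ‖z - pos m k‖ ≤
      5 * (HC (z.re - 8 * m) z.im - HC (z.re - 11 * m) z.im) +
      7 / 3 * (HC (z.re - 11 * m) z.im - HC (z.re - 14 * m) z.im) +
      30 / 37 * (HC (z.im + 37 / 5 * m) (z.re - 14 * m) -
        HC (z.im - 37 / 5 * m) (z.re - 14 * m)) + C * Real.log (m + 1 + ‖z‖) := by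
  obtain ⟨C1, hC1, h1⟩ := apu_F1
  obtain ⟨C2, hC2, h2⟩ := apu_F2
  obtain ⟨C3, hC3, h3⟩ := apu_F3
  refine ⟨C1 + C2 + C3, by positivity, ?_⟩
  intro m hm a z
  rw [Fintype.sum_sum_type, Fintype.sum_sum_type]
  have e1 := h1 m hm a z
  have e2 := h2 m hm a z
  have e3 := h3 m hm a z
  linarith

theorem PC_le : ∃ C : ℝ, 0 < C ∧ ∀ m : ℕ, 1 ≤ m → ∀ (a : JJ m) (z : ℂ),
    ‖(PC m a).eval ((2 * z) ^ 2)‖ ≤ Real.exp (nn m * Real.log 4 +
      m * UC (z.re / m) (z.im / m) + 68 * m * Real.log m + C * Real.log (m + 1 + ‖z‖)) := by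
  obtain ⟨C, hC, h⟩ := apu_T
  refine ⟨2 * C, by positivity, ?_⟩
  intro m hm a z
  have hm' : (1 : ℝ) ≤ m := by exact_mod_cast hm
  have hexp : ∀ x : ℝ, 0 ≤ x → x ≤ Real.exp (Real.log x) := by
    intro x hx
    rcases hx.eq_or_lt with rfl | hx
    · positivity
    · rw [Real.exp_log hx]
  have hfac : ∀ k, ‖(2 * z) ^ 2 - yN m k‖ ^ apu_ee m a k ≤
      Real.exp ((apu_ee m a k : ℝ) * (Real.log 4 + Real.log ‖z - pos m k‖ +
        Real.log ‖-z - pos m k‖)) := by
    intro k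
    have e1 : (2 * z) ^ 2 - yN m k = 4 * (z - pos m k) * (-(-z - pos m k)) := by
      unfold yN; ring
    rw [e1, norm_mul, norm_mul, norm_neg, Real.exp_nat_mul, Real.exp_add, Real.exp_add]
    apply pow_le_pow_left₀ (by positivity)
    have h4 : ‖(4 : ℂ)‖ ≤ Real.exp (Real.log 4) := by
      rw [Real.exp_log (by norm_num)]; norm_num
    gcongr
    · exact hexp _ (norm_nonneg _)
    · exact hexp _ (norm_nonneg _)
  rw [apu_eval, norm_prod]
  calc ∏ k, ‖((2 * z) ^ 2 - yN m k) ^ apu_ee m a k‖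
      ≤ ∏ k, Real.exp ((apu_ee m a k : ℝ) * (Real.log 4 + Real.log ‖z - pos m k‖ +
        Real.log ‖-z - pos m k‖)) := by
        refine Finset.prod_le_prod (fun k _ => norm_nonneg _) (fun k _ => ?_)
        rw [norm_pow]; exact hfac k
    _ = Real.exp (∑ k, (apu_ee m a k : ℝ) * (Real.log 4 + Real.log ‖z - pos m k‖ +
        Real.log ‖-z - pos m k‖)) := by rw [Real.exp_sum]
    _ ≤ _ := by
        apply Real.exp_le_exp.2
        have e2 : ∑ k, (apu_ee m a k : ℝ) * (Real.log 4 + Real.log ‖z - pos m k‖ +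
            Real.log ‖-z - pos m k‖) = (∑ k, (apu_ee m a k : ℝ)) * Real.log 4 +
            ∑ k, (apu_ee m a k : ℝ) * Real.log ‖z - pos m k‖ +
            ∑ k, (apu_ee m a k : ℝ) * Real.log ‖-z - pos m k‖ := by
          rw [Finset.sum_mul, ← Finset.sum_add_distrib, ← Finset.sum_add_distrib]
          refine Finset.sum_congr rfl (fun k _ => ?_)
          ring
        have e3 : ∑ k, (apu_ee m a k : ℝ) ≤ nn m := by
          rw [← apu_sum_mu hm]
          push_cast
          exact Finset.sum_le_sum (fun k _ => by exact_mod_cast apu_ee_le m a k)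
        have e4 : (∑ k, (apu_ee m a k : ℝ)) * Real.log 4 ≤ nn m * Real.log 4 :=
          mul_le_mul_of_nonneg_right e3 (Real.log_nonneg (by norm_num))
        have t1 := h m hm a z
        have t2 := h m hm a (-z)
        have hU := UC_scale (show (0 : ℝ) < m by linarith) z.re z.im
        rw [norm_neg, Complex.neg_re, Complex.neg_im,
          show -z.re - 8 * (m : ℝ) = -(z.re + 8 * m) by ring,
          show -z.re - 11 * (m : ℝ) = -(z.re + 11 * m) by ring,
          show -z.re - 14 * (m : ℝ) = -(z.re + 14 * m) by ring,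
          show -z.im + 37 / 5 * (m : ℝ) = -(z.im - 37 / 5 * m) by ring,
          show -z.im - 37 / 5 * (m : ℝ) = -(z.im + 37 / 5 * m) by ring] at t2
        simp only [HC_neg, HC_neg_right] at t2
        rw [e2]
        linarith

end Pool.Agent.OZ
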