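import Pool.Agent.OZ.APV
import Pool.Agent.OZ.APU

/-! # The size of the rational function on the right of the poles -/

open Finset Polynomial

namespace Pool.Agent.OZ

theorem RC_le : ∃ C : ℝ, 0 < C ∧ ∀ m : ℕ, 1 ≤ m → ∀ (a b : JJ m) (z : ℂ),
    8 * (m : ℝ) + 1 ≤ z.re →
    ‖RC m (PC m a * PC m b) (z - (8 * m + 1 / 2))‖ ≤ Real.exp (2 * nn m * Real.log 4 +
      m * (2 * UC (z.re / m) (z.im / m) - VC (z.re / m) (z.im / m)) +
      C * Real.log (m + 1 + ‖z‖)) := by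
  obtain ⟨C1, hC1, h1⟩ := wC_le
  obtain ⟨C2, hC2, h2⟩ := PC_le
  refine ⟨C1 + 2 * C2, by positivity, fun m hm a b z hz => ?_⟩
  have e1 : (2 * (z - (8 * m + 1 / 2)) + (16 * m + 1) : ℂ) = 2 * z := by ring
  have e2 : RC m (PC m a * PC m b) (z - (8 * m + 1 / 2)) =
      wC m (z - (8 * m + 1 / 2)) *
        ((PC m a).eval ((2 * z) ^ 2) * (PC m b).eval ((2 * z) ^ 2)) := by
    rw [RC, e1, eval_mul]
  rw [e2, norm_mul, norm_mul]
  refine (mul_le_mul (h1 m hm z hz) (mul_le_mul (h2 m hm a z) (h2 m hm b z) (norm_nonneg _)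
    (Real.exp_pos _).le) (by positivity) (Real.exp_pos _).le).trans (le_of_eq ?_)
  rw [← Real.exp_add, ← Real.exp_add]
  congr 1
  ring

end Pool.Agent.OZ
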