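import Pool.Agent.OZ.ADefs
import Pool.Agent.OZ.AHCA
import Pool.Agent.OZ.AHCB
import Pool.Agent.OZ.ABL

/-!
Module APV of project OZ: size of the weight (potential of the poles).
-/

open Finset Polynomial

namespace Pool.Agent.OZ

/-- logarithm of a norm -/
theorem apv_log_norm (z : ℂ) : Real.log ‖z‖ = 1 / 2 * Real.log (z.re ^ 2 + z.im ^ 2) := by
  rw [Complex.norm_eq_sqrt_sq_add_sq, Real.log_sqrt (by positivity)]
  ring

theorem apv_log_R {s : ℝ} (hs : 2 ≤ s) : Real.log (100 * s) ≤ 8 * Real.log s := by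
  have h1 : Real.log (100 * s) ≤ Real.log (s ^ 7 * s) := by
    apply Real.log_le_log (by positivity)
    have : (2 : ℝ) ^ 7 ≤ s ^ 7 := pow_le_pow_left₀ (by norm_num) hs 7
    nlinarith
  rw [← pow_succ, Real.log_pow] at h1
  push_cast at h1
  linarith

/-- one brick of poles -/
theorem apv_brick : ∃ C : ℝ, 0 < C ∧ ∀ m : ℕ, 1 ≤ m → ∀ (z : ℂ) (b : ℕ), b ≤ 2 * m →
    8 * (m : ℝ) + 1 ≤ z.re →
    HC (z.re + (8 * m - b)) z.im - HC (z.re - (8 * m - b)) z.im -
        C * Real.log (m + 1 + ‖z‖) ≤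
      ∑ k ∈ range (16 * m + 2 - 2 * b),
        Real.log ‖z - (8 * m + 1 / 2) + ((b + k : ℕ) : ℂ)‖ := by
  obtain ⟨C1, hC1, h1⟩ := blk_ge (h := 1) (δ := 1 / 2) one_pos (by norm_num)
  obtain ⟨C2, hC2, h2⟩ := HC_lip
  refine ⟨8 * (C1 + 2 * C2), by positivity, ?_⟩
  intro m hm z b hb hz
  have hm' : (1 : ℝ) ≤ m := by exact_mod_cast hm
  have hb' : (b : ℝ) ≤ 2 * m := by exact_mod_cast hb
  have hb0 : (0 : ℝ) ≤ b := Nat.cast_nonneg b
  have hn : 0 ≤ ‖z‖ := norm_nonneg z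
  set s : ℝ := m + 1 + ‖z‖ with hs
  have hs2 : 2 ≤ s := by rw [hs]; linarith
  have hlR := apv_log_R hs2
  have hls : 0 ≤ Real.log s := Real.log_nonneg (by linarith)
  have hre := Complex.abs_re_le_norm z
  have him := Complex.abs_im_le_norm z
  have hN : ((16 * m + 2 - 2 * b : ℕ) : ℝ) = 16 * m + 2 - 2 * b := by
    rw [Nat.cast_sub (by omega)]; push_cast; ring
  have key := h1 (-(8 * m + 1 / 2 - b)) (-z.re) z.im (100 * s) (16 * m + 2 - 2 * b)
    (range (16 * m + 2 - 2 * b)) (Finset.Subset.refl _) (by rw [Finset.card_range]; omega)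
    (by linarith) (by
      rw [hN, abs_neg, abs_neg, abs_of_nonneg (by linarith : (0 : ℝ) ≤ 8 * m + 1 / 2 - b)]
      rw [hs]; linarith) (by
      intro k _
      have hk : (0 : ℝ) ≤ k := Nat.cast_nonneg k
      have h3 : 1 / 2 ≤ z.re - 8 * m - 1 / 2 + b + k := by linarith
      have h4 : (1 / 2 : ℝ) ^ 2 ≤ (z.re - 8 * m - 1 / 2 + b + k) ^ 2 :=
        pow_le_pow_left₀ (by norm_num) h3 2
      have h5 : (-z.re - (-(8 * (m : ℝ) + 1 / 2 - b) + k * 1)) ^ 2 =
        (z.re - 8 * m - 1 / 2 + b + k) ^ 2 := by ring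
      rw [h5]
      have := sq_nonneg z.im
      linarith)
  have e1 : ∑ k ∈ range (16 * m + 2 - 2 * b),
      1 / 2 * Real.log ((-z.re - (-(8 * (m : ℝ) + 1 / 2 - b) + k * 1)) ^ 2 + z.im ^ 2) =
      ∑ k ∈ range (16 * m + 2 - 2 * b), Real.log ‖z - (8 * m + 1 / 2) + ((b + k : ℕ) : ℂ)‖ := by
    refine Finset.sum_congr rfl (fun k _ => ?_)
    rw [apv_log_norm]
    have r1 : (z - (8 * m + 1 / 2) + ((b + k : ℕ) : ℂ)).re = z.re - (8 * m + 1 / 2) + (b + k) := by
      simp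
    have r2 : (z - (8 * m + 1 / 2) + ((b + k : ℕ) : ℂ)).im = z.im := by
      simp
    rw [r1, r2]
    congr 3
    ring
  rw [e1, hN] at key
  have e2 : -z.re - -(8 * (m : ℝ) + 1 / 2 - b) = -(z.re - (8 * m - b) - 1 / 2) := by ring
  have e3 : -(z.re - (8 * (m : ℝ) - b) - 1 / 2) - (16 * m + 2 - 2 * b) * 1 =
      -(z.re + (8 * m - b) + 3 / 2) := by ring
  rw [e2, e3, HC_neg, HC_neg, div_one] at key
  have a1 : |z.re| ≤ ‖z‖ := hre
  have l1 := h2 (z.re - (8 * m - b)) (z.re - (8 * m - b) - 1 / 2) z.im (100 * s)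
    (by rw [show z.re - (8 * (m : ℝ) - b) - (z.re - (8 * m - b) - 1 / 2) = 1 / 2 by ring,
          abs_of_pos (by norm_num)]; norm_num)
    (by
      have := abs_le.1 hre
      rw [abs_le]; constructor <;> (rw [hs]; linarith))
    (by rw [hs]; linarith) (by linarith)
  have l2 := h2 (z.re + (8 * m - b)) (z.re + (8 * m - b) + 3 / 2) z.im (100 * s)
    (by rw [show z.re + (8 * (m : ℝ) - b) - (z.re + (8 * m - b) + 3 / 2) = -(3 / 2) by ring,
          abs_neg, abs_of_pos (by norm_num)]; norm_num)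
    (by
      have := abs_le.1 hre
      rw [abs_le]; constructor <;> (rw [hs]; linarith))
    (by rw [hs]; linarith) (by linarith)
  have l1' := abs_le.1 l1
  have l2' := abs_le.1 l2
  have f1 : C1 * Real.log (100 * s) ≤ C1 * (8 * Real.log s) :=
    mul_le_mul_of_nonneg_left hlR hC1.le
  have f2 : C2 * Real.log (100 * s) ≤ C2 * (8 * Real.log s) :=
    mul_le_mul_of_nonneg_left hlR hC2.le
  nlinarith [l1'.1, l1'.2, l2'.1, l2'.2]

theorem apv_window {m b : ℕ} (hb : b ≤ 2 * m) (g : ℕ → ℝ) :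
    ∑ u ∈ range (16 * m + 2), (if b ≤ u ∧ u + b ≤ 16 * m + 1 then g u else 0) =
      ∑ k ∈ range (16 * m + 2 - 2 * b), g (b + k) := by
  rw [← Finset.sum_filter]
  have e : (range (16 * m + 2)).filter (fun u => b ≤ u ∧ u + b ≤ 16 * m + 1) =
      Finset.Ico b (16 * m + 2 - b) := by
    ext u
    simp only [Finset.mem_filter, Finset.mem_range, Finset.mem_Ico]
    omega
  rw [e, Finset.sum_Ico_eq_sum_range]
  congr 2
  omega

theorem apv_pr (m : ℕ) (g : ℕ → ℝ) :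
    ∑ u ∈ range (16 * m + 2), (pr m u : ℝ) * g u =
      2 * ∑ k ∈ range (16 * m + 2 - 2 * 0), g (0 + k) +
      4 * ∑ k ∈ range (16 * m + 2 - 2 * m), g (m + k) +
      4 * ∑ k ∈ range (16 * m + 2 - 2 * (2 * m)), g (2 * m + k) := by
  rw [← apv_window (by omega) g, ← apv_window (by omega) g, ← apv_window (by omega) g,
    Finset.mul_sum, Finset.mul_sum, Finset.mul_sum, ← Finset.sum_add_distrib,
    ← Finset.sum_add_distrib]
  refine Finset.sum_congr rfl (fun u hu => ?_)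
  rw [Finset.mem_range] at hu
  have e0 : (0 ≤ u ∧ u + 0 ≤ 16 * m + 1) := by omega
  rw [if_pos e0]
  unfold pr
  by_cases h1 : u < m ∨ 15 * m + 1 < u
  · rw [if_pos h1, if_neg (by omega), if_neg (by omega)]; push_cast; ring
  · rw [if_neg h1, if_pos (by omega : m ≤ u ∧ u + m ≤ 16 * m + 1)]
    by_cases h2 : u < 2 * m ∨ 14 * m + 1 < u
    · rw [if_pos h2, if_neg (by omega)]; push_cast; ring
    · rw [if_neg h2, if_pos (by omega)]; push_cast; ring

theorem wC_le : ∃ C : ℝ, 0 < C ∧ ∀ m : ℕ, 1 ≤ m → ∀ z : ℂ, 8 * (m : ℝ) + 1 ≤ z.re →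
    ‖wC m (z - (8 * m + 1 / 2))‖ ≤ Real.exp (-(m * VC (z.re / m) (z.im / m)) -
      136 * m * Real.log m + C * Real.log (m + 1 + ‖z‖)) := by
  obtain ⟨C, hC, h⟩ := apv_brick
  refine ⟨10 * C + 2, by positivity, ?_⟩
  intro m hm z hz
  have hm' : (1 : ℝ) ≤ m := by exact_mod_cast hm
  have hn : 0 ≤ ‖z‖ := norm_nonneg z
  have hre := Complex.abs_re_le_norm z
  have hz0 : 0 < ‖z‖ := by
    have := (le_abs_self z.re).trans hre
    linarith
  set s : ℝ := m + 1 + ‖z‖ with hs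
  have hs2 : 2 ≤ s := by rw [hs]; linarith
  have hls : 0 ≤ Real.log s := Real.log_nonneg (by linarith)
  set g : ℕ → ℝ := fun u => Real.log ‖z - (8 * m + 1 / 2) + (u : ℂ)‖ with hg
  have hpos : ∀ u : ℕ, 0 < ‖z - (8 * m + 1 / 2) + (u : ℂ)‖ := by
    intro u
    have h1 := Complex.abs_re_le_norm (z - (8 * m + 1 / 2) + (u : ℂ))
    have r1 : (z - (8 * m + 1 / 2) + (u : ℂ)).re = z.re - (8 * m + 1 / 2) + u := by simp
    rw [r1] at h1
    have h2 := (le_abs_self _).trans h1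
    have : (0 : ℝ) ≤ u := Nat.cast_nonneg u
    linarith
  have hsum := apv_pr m g
  have b0 := h m hm z 0 (by omega) hz
  have b1 := h m hm z m (by omega) hz
  have b2 := h m hm z (2 * m) le_rfl hz
  have hV := VC_scale (show (0 : ℝ) < m by linarith) z.re z.im
  have hnorm : ‖wC m (z - (8 * m + 1 / 2))‖ =
      Real.exp (Real.log ‖2 * z‖ - ∑ u ∈ range (16 * m + 2), (pr m u : ℝ) * g u) := by
    unfold wC
    have e1 : 2 * (z - (8 * m + 1 / 2)) + (16 * m + 1) = 2 * z := by ring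
    have h2z : 0 < ‖2 * z‖ := by rw [norm_mul]; simp; exact norm_pos_iff.1 hz0
    rw [e1, norm_div, norm_prod, Real.exp_sub, Real.exp_log h2z, Real.exp_sum]
    congr 1
    refine Finset.prod_congr rfl (fun u _ => ?_)
    rw [norm_pow, Real.exp_nat_mul]
    simp only [hg]
    rw [Real.exp_log (hpos u)]
  rw [hnorm]
  apply Real.exp_le_exp.2
  have h2z : Real.log ‖2 * z‖ ≤ 2 * Real.log s := by
    have e2 : ‖2 * z‖ = 2 * ‖z‖ := by rw [norm_mul]; simp
    have : Real.log ‖2 * z‖ ≤ Real.log (s ^ 2) := by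
      rw [e2]
      apply Real.log_le_log (by positivity)
      have : ‖z‖ ≤ s := by rw [hs]; linarith
      nlinarith
    rw [Real.log_pow] at this
    push_cast at this
    exact this
  have c0 : (8 * (m : ℝ) - ((0 : ℕ) : ℝ)) = 8 * m := by simp
  have c1 : (8 * (m : ℝ) - ((m : ℕ) : ℝ)) = 7 * m := by ring
  have c2 : (8 * (m : ℝ) - ((2 * m : ℕ) : ℝ)) = 6 * m := by push_cast; ring
  rw [c0] at b0
  rw [c1] at b1
  rw [c2] at b2
  rw [hsum]
  simp only [hg]
  linarith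

end Pool.Agent.OZ
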