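import Pool.Agent.Z9.FEq
import Pool.Agent.Z5.VG

/-!
# One of `ζ(7), ζ(9), ζ(11), ζ(13)` is irrational: definitions

The weight `w`, the coefficients `co`, `rho` are those of `Pool.Agent.Z5.Defs`, a profile is
`Pool.Agent.Z9.IsProf` (pole orders between `1` and `10`).  The functional is the fourth derivative
functional `F4 h = ∑_{t ≥ 1} (w h(Y))''''(t) / 4!`, which contains only `ζ(7), ζ(9), ζ(11), ζ(13)`.
-/

open Finset

namespace Pool.Agent.OZ

open Pool.Agent.Z5 (w evY dser xser hser lser co rho Hs zt tot VG)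
open Pool.Agent.Z9 (IsProf)

/-- the binomial coefficient of `ζ(i + 4)` -/
def bi (i : ℕ) : ℕ := (i + 3).choose 4

/-- the rational part of `F4` -/
noncomputable def con4 (L : ℕ) (e : ℕ → ℕ) (h : Polynomial ℚ) : ℚ :=
  - ∑ u ∈ range (L + 1), ∑ i ∈ Finset.Icc 1 10, co L e h u i * (bi i : ℚ) * Hs (i + 4) u

/-- the functional with rational numbers `r i` in place of `ζ(i + 4)` -/
noncomputable def Fq (L : ℕ) (e : ℕ → ℕ) (r : ℕ → ℚ) (h : Polynomial ℚ) : ℚ :=
  con4 L e h + ∑ i ∈ Finset.Icc 1 10, (bi i : ℚ) * r i * rho L e i h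

/-- the fourth derivative functional -/
noncomputable def F4 (L : ℕ) (e : ℕ → ℕ) (h : Polynomial ℚ) : ℝ :=
  ∑ u ∈ range (L + 1), ∑ i ∈ Finset.Icc 1 10,
    (co L e h u i : ℝ) * (bi i : ℝ) * (zt (i + 4) - (Hs (i + 4) u : ℝ))

/-- the profile, `L = 16 m + 1` -/
def pr (m u : ℕ) : ℕ :=
  if u < m ∨ 15 * m + 1 < u then 2 else if u < 2 * m ∨ 14 * m + 1 < u then 6 else 10

/-- size of the determinant -/
def nn (m : ℕ) : ℕ := 34 * m + 5

/-- the rational determinant -/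
noncomputable def DQ (m : ℕ) (r : ℕ → ℚ) : ℚ :=
  (Matrix.of fun i j : Fin (nn m) =>
    Fq (16 * m + 1) (pr m) r (Polynomial.X ^ ((i : ℕ) + (j : ℕ)))).det

/-- the real determinant -/
noncomputable def DR (m : ℕ) : ℝ :=
  (Matrix.of fun i j : Fin (nn m) =>
    F4 (16 * m + 1) (pr m) (Polynomial.X ^ ((i : ℕ) + (j : ℕ)))).det

/-- matrix of coefficients of a family of polynomials -/
def coefM {K ι : Type*} [Semiring K] {n : ℕ} (f : ι ≃ Fin n) (P : ι → Polynomial K) :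
    Matrix ι ι K :=
  Matrix.of fun a b => (P a).coeff (f b : ℕ)

/-- the node polynomial with multiplicities -/
noncomputable def nodeS {K ι : Type*} [CommRing K] [Fintype ι] (y : ι → K) (M : ι → ℕ) :
    Polynomial K :=
  ∏ k, (Polynomial.X - Polynomial.C (y k)) ^ M k

/-- element of the Hermite basis at the nodes `y` with multiplicities `M` -/
noncomputable def hb {K ι : Type*} [CommRing K] [Fintype ι] [DecidableEq ι] (y : ι → K)
    (M : ι → ℕ) (a : (i : ι) × Fin (M i)) : Polynomial K :=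
  (Polynomial.X - Polynomial.C (y a.1)) ^ (a.2 : ℕ) *
    ∏ k ∈ univ.erase a.1, (Polynomial.X - Polynomial.C (y k)) ^ M k

/-- Hermite basis at nodes `y` with multiplicities `M`, completed by `S X^j`, `j < r` -/
noncomputable def herm {K ι : Type*} [CommRing K] [Fintype ι] [DecidableEq ι] (y : ι → K)
    (M : ι → ℕ) (r : ℕ) : (((i : ι) × Fin (M i)) ⊕ Fin r) → Polynomial K :=
  Sum.elim (hb y M) (fun j => nodeS y M * Polynomial.X ^ (j : ℕ))

/-- weight of a power series: the coefficient of `ε ^ n` has valuation at least `k - n` -/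
def WT (q : ℕ) (k : ℤ) (f : PowerSeries ℚ) : Prop := ∀ n : ℕ, VG q (k - n) (PowerSeries.coeff n f)

/-- total order of the class of `u` modulo `q` -/
def ordc (q L : ℕ) (e : ℕ → ℕ) (u : ℕ) : ℕ := ∑ v ∈ (range (L + 1)).filter (fun v => v % q = u % q), e v

/-- `u` has a partner: another pole in its class modulo `q` -/
def Partner (q L u : ℕ) : Prop := q ≤ u ∨ u + q ≤ L

/-- the class of `u`, up to the reflection `u ↦ L - u` -/
def cl (q L u : ℕ) : ℕ := min (u % q) ((L - u) % q)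

/-- the weighted Vandermonde product of the poles -/
def VV (m : ℕ) : ℕ :=
  ∏ u ∈ range (16 * m + 2), ∏ v ∈ range u, (u - v) ^ (pr m u * pr m v)

/-- partial sums of the profile -/
def s1 (m n : ℕ) : ℕ := ∑ u ∈ range n, pr m u

/-- partial sums of the square of the profile -/
def s2 (m n : ℕ) : ℕ := ∑ u ∈ range n, pr m u ^ 2

/-- contribution of the pole `u` to `Fq` -/
noncomputable def uterm (L : ℕ) (e : ℕ → ℕ) (r : ℕ → ℚ) (h : Polynomial ℚ) (u : ℕ) : ℚ :=
  ∑ i ∈ Finset.Icc 1 10, co L e h u i * (bi i : ℚ) * (r i - Hs (i + 4) u)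

/-- node of the class `c` -/
def yc (L c : ℕ) : ℚ := ((L : ℚ) - 2 * c) ^ 2

/-- digit step of the class `c`: `2` for the self-conjugate class, else `1` -/
def dl (q L c : ℕ) : ℕ := if (2 * c) % q = L % q then 2 else 1

/-- multiplicity of the node of the class `c` for `q ≤ 8 m + 1` -/
def Mc (m q c : ℕ) : ℕ :=
  ∑ u ∈ (range (8 * m + 1)).filter (fun u => cl q (16 * m + 1) u = c), pr m u / 2

/-- product of the factorials of the bricks -/
def BB (m : ℕ) : ℕ :=
  (16 * m + 1).factorial ^ 2 * (14 * m + 1).factorial ^ 4 * (12 * m + 1).factorial ^ 4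

/-- the local cost: `4 v_q(DQ) ≥ - v_q(VV) - kap m q` for `q` odd, `16 m + 1 < q ^ 2` -/
noncomputable def kap (m q : ℕ) : ℝ :=
  if q ≤ 8 * m + 1 then 1320 * m + 200 + 10 * ((16 * m + 2) / q + 1)
  else if 3 * q ≤ 28 * m + 3 then 2280 * m + 340 - 120 * q
  else if q ≤ 14 * m + 2 then 212 * (16 * m + 2 - q) - 280 * m + 24
  else if q ≤ 15 * m + 2 then 108 * (16 * m + 2 - q) - 72 * m + 24
  else if q ≤ 16 * m + 1 then 36 * (16 * m + 2 - q) + 24
  else 0

/-- nodes `y` with multiplicities `M`, digit steps `δ`, admissible for the prime `q` -/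
structure Adm (q L : ℕ) (e : ℕ → ℕ) (n : ℕ) {ι : Type*} [Fintype ι] (y : ι → ℚ) (M δ : ι → ℕ)
    (θ r0 : ℕ) : Prop where
  sum : ∑ k, M k + r0 = n
  int : ∀ k, VG q 0 (y k)
  unit : ∀ i k, i ≠ k → M i ≠ 0 → M k ≠ 0 → y i ≠ y k ∧ padicValRat q (y i - y k) = 0
  cls : ∀ u ≤ L, ¬ Partner q L u ∨ ∃ k, ordc q L e u + 4 = 2 * (δ k * M k + θ) ∧
    WT q (δ k) (hser L u (Polynomial.X - Polynomial.C (y k)))

/-! ### non-vanishing: `p = 8 m + 1` -/

/-- multiplicity of the node of the class `c`, `c ≤ 4 m` -/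
def Mn (m : ℕ) (c : Fin (4 * m + 1)) : ℕ :=
  if (c : ℕ) < m then 6 else if (c : ℕ) < 2 * m then 8 else if (c : ℕ) < 4 * m then 10 else 5

/-- nodes -/
def yn (m : ℕ) (c : Fin (4 * m + 1)) : ℚ := yc (16 * m + 1) c

/-- scaling of the rows -/
def rsc (m : ℕ) (a : (c : Fin (4 * m + 1)) × Fin (Mn m c)) : ℕ :=
  if (a.1 : ℕ) < 4 * m then Mn m a.1 + 2 - a.2 else 11 - 2 * a.2

/-- scaling of the columns -/
def csc (m : ℕ) (a : (c : Fin (4 * m + 1)) × Fin (Mn m c)) : ℕ :=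
  if (a.1 : ℕ) < 4 * m then Mn m a.1 + 2 - a.2 else 12 - 2 * a.2

/-- `[z ^ 9] (1 - z) ^ (k - a - 5)` -/
def hA (a k : ℕ) : ℤ :=
  if k < a + 5 then ((13 + a - k).choose 9 : ℤ) else - ((k - a - 5).choose 9 : ℤ)

/-- `[z ^ (a - 1)] z ^ k (1 - z) ^ (- 15)` -/
def hB (a k : ℕ) : ℤ := if k < a then ((a + 13 - k).choose 14 : ℤ) else 0

/-- block of a regular class with orders `a`, `10` -/
def hh (a k : ℕ) : ℤ := (-1) ^ k * (hA a k - hB a k)

/-- block of the self-conjugate class, `k ≤ 8`: `(-4) ^ k [z ^ (9 - k)] (1 - 2 z) (1 - z) ^ (k - 15)` -/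
def gg (k : ℕ) : ℤ := (-4) ^ k * (((23 - 2 * k).choose (9 - k) : ℤ) - 2 * ((22 - 2 * k).choose (8 - k) : ℤ))

end Pool.Agent.OZ
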