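import Mathlib
import Pool.Agent.OZ.Defs
import Pool.Agent.Z9.Lin
import Pool.Agent.Z9.PF

/-!
# OZ, module LIN: linearity, `DR = DQ`
-/

open Finset Polynomial

namespace Pool.Agent.OZ

open Pool.Agent.Z5 (w evY dser xser hser lser co rho Hs zt tot VG co_add co_C_mul)
open Pool.Agent.Z9 (IsProf rho_even rho_one)

variable {L : ℕ} {e : ℕ → ℕ}

theorem Fq_eq_sum (L : ℕ) (e : ℕ → ℕ) (r : ℕ → ℚ) (h : ℚ[X]) :
    Fq L e r h = ∑ u ∈ range (L + 1), uterm L e r h u := by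
  unfold Fq con4 uterm rho
  have h1 : ∑ i ∈ Finset.Icc 1 10, (bi i : ℚ) * r i * ∑ u ∈ range (L + 1), co L e h u i =
      ∑ u ∈ range (L + 1), ∑ i ∈ Finset.Icc 1 10, (bi i : ℚ) * r i * co L e h u i := by
    simp only [mul_sum]
    rw [sum_comm]
  rw [h1, ← sum_neg_distrib, ← sum_add_distrib]
  refine sum_congr rfl fun u _ => ?_
  rw [← sum_neg_distrib, ← sum_add_distrib]
  refine sum_congr rfl fun i _ => ?_
  ring

theorem uterm_add (L : ℕ) (e : ℕ → ℕ) (r : ℕ → ℚ) (h g : ℚ[X]) (u : ℕ) :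
    uterm L e r (h + g) u = uterm L e r h u + uterm L e r g u := by
  unfold uterm
  rw [← sum_add_distrib]
  refine sum_congr rfl fun i _ => ?_
  rw [co_add]
  ring

theorem uterm_C_mul (L : ℕ) (e : ℕ → ℕ) (r : ℕ → ℚ) (c : ℚ) (h : ℚ[X]) (u : ℕ) :
    uterm L e r (C c * h) u = c * uterm L e r h u := by
  unfold uterm
  rw [mul_sum]
  refine sum_congr rfl fun i _ => ?_
  rw [co_C_mul]
  ring

theorem lin_Fq_add (L : ℕ) (e : ℕ → ℕ) (r : ℕ → ℚ) (h g : ℚ[X]) :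
    Fq L e r (h + g) = Fq L e r h + Fq L e r g := by
  rw [Fq_eq_sum, Fq_eq_sum, Fq_eq_sum, ← sum_add_distrib]
  exact sum_congr rfl fun u _ => uterm_add L e r h g u

theorem lin_Fq_C_mul (L : ℕ) (e : ℕ → ℕ) (r : ℕ → ℚ) (c : ℚ) (h : ℚ[X]) :
    Fq L e r (C c * h) = c * Fq L e r h := by
  rw [Fq_eq_sum, Fq_eq_sum, mul_sum]
  exact sum_congr rfl fun u _ => uterm_C_mul L e r c h u

/-- `Fq` as a linear map -/
noncomputable def FqL (L : ℕ) (e : ℕ → ℕ) (r : ℕ → ℚ) : ℚ[X] →ₗ[ℚ] ℚ where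
  toFun := Fq L e r
  map_add' := lin_Fq_add L e r
  map_smul' := by
    intro c h
    rw [Polynomial.smul_eq_C_mul, lin_Fq_C_mul, RingHom.id_apply, smul_eq_mul]

theorem FqL_apply (L : ℕ) (e : ℕ → ℕ) (r : ℕ → ℚ) (h : ℚ[X]) : FqL L e r h = Fq L e r h := rfl

theorem even_pr (m u : ℕ) : Even (pr m u) := by
  unfold pr
  split_ifs
  · exact ⟨1, rfl⟩
  · exact ⟨3, rfl⟩
  · exact ⟨5, rfl⟩

theorem pr_symm {m u : ℕ} (hu : u ≤ 16 * m + 1) : pr m (16 * m + 1 - u) = pr m u := by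
  unfold pr
  by_cases h1 : u < m ∨ 15 * m + 1 < u
  · rw [if_pos h1, if_pos (by omega)]
  · rw [if_neg h1, if_neg (c := 16 * m + 1 - u < m ∨ 15 * m + 1 < 16 * m + 1 - u) (by omega)]
    by_cases h2 : u < 2 * m ∨ 14 * m + 1 < u
    · rw [if_pos h2, if_pos (by omega)]
    · rw [if_neg h2, if_neg (by omega)]

theorem lin_pr_eq {m u : ℕ} (hu : u < 16 * m + 2) :
    pr m u = 2 + ((if u ∈ Finset.Ico m (15 * m + 2) then 4 else 0) +
      (if u ∈ Finset.Ico (2 * m) (14 * m + 2) then 4 else 0)) := by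
  unfold pr
  simp only [Finset.mem_Ico]
  split_ifs <;> omega

theorem lin_sum_Ico {a b N c : ℕ} (h : b ≤ N) :
    ∑ u ∈ range N, (if u ∈ Finset.Ico a b then c else 0) = (b - a) * c := by
  rw [← Finset.sum_filter]
  have : (range N).filter (fun u => u ∈ Finset.Ico a b) = Finset.Ico a b := by
    ext u
    simp only [mem_filter, mem_range, Finset.mem_Ico]
    omega
  rw [this, Finset.sum_const, Nat.card_Ico, smul_eq_mul]

theorem lin_sum_pr {m : ℕ} : ∑ u ∈ range (16 * m + 1 + 1), pr m u = 136 * m + 20 := by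
  have h : ∑ u ∈ range (16 * m + 1 + 1), pr m u = ∑ u ∈ range (16 * m + 2),
      (2 + ((if u ∈ Finset.Ico m (15 * m + 2) then 4 else 0) +
      (if u ∈ Finset.Ico (2 * m) (14 * m + 2) then 4 else 0))) := by
    refine sum_congr rfl fun u hu => lin_pr_eq ?_
    have := mem_range.1 hu
    omega
  rw [h, sum_add_distrib, sum_add_distrib, lin_sum_Ico (by omega), lin_sum_Ico (by omega),
    sum_const, card_range, smul_eq_mul]
  omega

theorem tot_pr {m : ℕ} (hm : 1 ≤ m) : tot (16 * m + 1) (pr m) = 136 * m + 20 := by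
  unfold tot
  exact lin_sum_pr

theorem isProf_pr {m : ℕ} (hm : 1 ≤ m) : IsProf (16 * m + 1) (pr m) where
  pos := fun u _ => by
    unfold pr
    split_ifs <;> omega
  le := fun u _ => by
    unfold pr
    split_ifs <;> omega
  symm := fun u hu => pr_symm hu
  even := by
    rw [lin_sum_pr]
    exact ⟨68 * m + 10, by ring⟩

theorem F4_eq_Fq (he : IsProf L e) (h : ℚ[X]) (hd : 2 * h.natDegree + 3 ≤ tot L e) (r : ℕ → ℚ)
    (hr : ∀ i ∈ ({3, 5, 7, 9} : Finset ℕ), (r i : ℝ) = zt (i + 4)) :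
    F4 L e h = (Fq L e r h : ℝ) := by
  have h1 : F4 L e h = ∑ i ∈ Finset.Icc 1 10, (bi i : ℝ) * zt (i + 4) * (rho L e i h : ℝ) -
      ∑ u ∈ range (L + 1), ∑ i ∈ Finset.Icc 1 10,
        (co L e h u i : ℝ) * (bi i : ℝ) * (Hs (i + 4) u : ℝ) := by
    unfold F4 rho
    push_cast
    simp only [mul_sum]
    rw [sum_comm (s := Finset.Icc 1 10), ← sum_sub_distrib]
    refine sum_congr rfl fun u _ => ?_
    rw [← sum_sub_distrib]
    refine sum_congr rfl fun i _ => ?_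
    ring
  have h2 : ∀ i ∈ Finset.Icc 1 10, (bi i : ℝ) * zt (i + 4) * (rho L e i h : ℝ) =
      (bi i : ℝ) * (r i : ℝ) * (rho L e i h : ℝ) := by
    intro i hi
    rw [Finset.mem_Icc] at hi
    rcases Nat.even_or_odd i with hev | hodd
    · rw [rho_even he h hi.1 hev]
      simp
    · by_cases hi1 : i = 1
      · subst hi1
        rw [rho_one he h hd]
        simp
      · rw [hr i]
        obtain ⟨k, hk⟩ := hodd
        have : i = 3 ∨ i = 5 ∨ i = 7 ∨ i = 9 := by omega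
        simp only [Finset.mem_insert, Finset.mem_singleton]
        exact this
  rw [h1, sum_congr rfl h2]
  unfold Fq con4
  push_cast
  ring

theorem DR_eq_DQ {m : ℕ} (hm : 1 ≤ m) (r : ℕ → ℚ)
    (hr : ∀ i ∈ ({3, 5, 7, 9} : Finset ℕ), (r i : ℝ) = zt (i + 4)) :
    DR m = (DQ m r : ℝ) := by
  have h1 : ((DQ m r : ℚ) : ℝ) = ((Rat.castHom ℝ).mapMatrix (Matrix.of fun i j : Fin (nn m) =>
      Fq (16 * m + 1) (pr m) r (Polynomial.X ^ ((i : ℕ) + (j : ℕ))))).det := by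
    rw [← RingHom.map_det]
    rfl
  rw [h1]
  unfold DR
  congr 1
  ext i j
  simp only [Matrix.of_apply, RingHom.mapMatrix_apply, Matrix.map_apply, Rat.coe_castHom]
  apply F4_eq_Fq (isProf_pr hm) _ _ r hr
  rw [Polynomial.natDegree_X_pow, tot_pr hm]
  have hi := i.2
  have hj := j.2
  unfold nn at hi hj
  omega

end Pool.Agent.OZ
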