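import Pool.Agent.OZ.ADefs
import Pool.Agent.OZ.LIN

/-! # The contour representation (module AREP) -/

open Finset Polynomial Filter Topology

namespace Pool.Agent.OZ

open Pool.Agent.Z5 (w evY dser xser hser lser co rho Hs zt tot VG feqPhi feq_shift)
open Pool.Agent.Z9 (IsProf num num_eq)
open Pool.Agent.Helper8 (Mj)
open Pool.Agent.Zeta579 (IRK pfs iteratedDeriv_pfs tendsto_sum_iteratedDerivK hasDerivAt_inv_pow
  norm_pfs_le ne_of_re_pos')

section AREP

/-- the linear form of a family of coefficients -/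
noncomputable def arepLF (L : ℕ) (c : ℕ → ℕ → ℂ) : ℂ :=
  ∑ u ∈ range (L + 1), ∑ i ∈ Finset.Icc 1 10,
    c u i * (bi i : ℂ) * ((zt (i + 4) - (Hs (i + 4) u : ℝ) : ℝ) : ℂ)

theorem arep_deriv_term {L : ℕ} (c : ℕ → ℕ → ℂ) (j : ℕ) :
    iteratedDeriv 4 (pfs (range (L + 1)) 10 c) ((j : ℂ) + 1) / 24 =
      ∑ u ∈ range (L + 1), ∑ i ∈ Finset.Icc 1 10,
        c u i * (bi i : ℂ) * ((feqPhi (i + 4) (j + u) : ℝ) : ℂ) := by
  rw [iteratedDeriv_pfs c (l0 := 0) (fun l _ => Nat.zero_le l)]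
  · rw [Finset.sum_div]
    refine Finset.sum_congr rfl fun u _ => ?_
    rw [Finset.sum_div]
    refine Finset.sum_congr rfl fun i hi => ?_
    have hi1 := (Finset.mem_Icc.1 hi).1
    have h5 : (i.ascFactorial 4 : ℂ) = (24 : ℂ) * (bi i : ℂ) := by
      have h6 := Nat.ascFactorial_eq_factorial_mul_choose' i 4
      have e : i + 4 - 1 = i + 3 := by omega
      rw [e] at h6
      have h7 : Nat.factorial 4 = 24 := rfl
      rw [h7] at h6
      unfold bi
      exact_mod_cast h6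
    rw [h5]
    unfold feqPhi
    have e2 : ((j : ℂ) + 1 + u) = ((j + u : ℕ) : ℂ) + 1 := by push_cast; ring
    rw [e2]
    push_cast
    field_simp
  · have : (0 : ℝ) ≤ j := Nat.cast_nonneg j
    simp
    linarith

theorem arep_tendsto {L : ℕ} (c : ℕ → ℕ → ℂ) :
    Tendsto (fun N : ℕ => ∑ j ∈ range N,
      iteratedDeriv 4 (pfs (range (L + 1)) 10 c) ((j : ℂ) + 1) / 24) atTop (𝓝 (arepLF L c)) := by
  have h1 : ∀ N : ℕ, ∑ j ∈ range N, iteratedDeriv 4 (pfs (range (L + 1)) 10 c) ((j : ℂ) + 1) / 24 =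
      ∑ u ∈ range (L + 1), ∑ i ∈ Finset.Icc 1 10,
        c u i * (bi i : ℂ) * ((∑ j ∈ range N, feqPhi (i + 4) (j + u) : ℝ) : ℂ) := by
    intro N
    rw [Finset.sum_congr rfl fun j _ => arep_deriv_term c j, Finset.sum_comm]
    refine Finset.sum_congr rfl fun u _ => ?_
    rw [Finset.sum_comm]
    refine Finset.sum_congr rfl fun i _ => ?_
    rw [← Finset.mul_sum, Complex.ofReal_sum]
  simp_rw [h1]
  refine tendsto_finsetSum _ fun u _ => tendsto_finsetSum _ fun i _ => ?_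
  refine Tendsto.const_mul _ ?_
  refine (Complex.continuous_ofReal.tendsto _).comp ?_
  exact (feq_shift (by omega) u).tendsto_sum_nat

theorem arep_pfs {L : ℕ} (c : ℕ → ℕ → ℂ) (M : ℕ) :
    arepLF L c = ∑ t ∈ range M,
      iteratedDeriv 4 (pfs (range (L + 1)) 10 c) ((t : ℂ) + 1) / 24 -
      IRK 4 (pfs (range (L + 1)) 10 c) (M : ℤ) / (2 * Real.pi) := by
  set R := pfs (range (L + 1)) 10 c with hR
  set C := ∑ l ∈ range (L + 1), ∑ i ∈ Finset.Icc 1 10, ‖c l i‖ with hC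
  have hC0 : 0 ≤ C := Finset.sum_nonneg fun _ _ => Finset.sum_nonneg fun _ _ => norm_nonneg _
  have hM0 : (0 : ℝ) ≤ M := Nat.cast_nonneg M
  have h1 := tendsto_sum_iteratedDerivK (k0 := 3) (R := R) (a := 0) (M := C * 2 ^ 10)
    (m0 := (M : ℤ)) (by push_cast; linarith) ?_ ?_ ?_
  · have h2 : Tendsto (fun N : ℕ => ∑ t ∈ range M, iteratedDeriv 4 R ((t : ℂ) + 1) / 24 +
        ∑ j ∈ range N, iteratedDeriv 4 R (((M : ℤ) : ℂ) + 1 + j) / ((3 + 1).factorial : ℂ)) atTop
        (𝓝 (arepLF L c)) := by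
      have h3 : ∀ N : ℕ, ∑ t ∈ range M, iteratedDeriv 4 R ((t : ℂ) + 1) / 24 +
          ∑ j ∈ range N, iteratedDeriv 4 R (((M : ℤ) : ℂ) + 1 + j) / ((3 + 1).factorial : ℂ) =
          ∑ j ∈ range (M + N), iteratedDeriv 4 R ((j : ℂ) + 1) / 24 := by
        intro N
        rw [Finset.sum_range_add]
        congr 1
        refine Finset.sum_congr rfl fun j _ => ?_
        have e1 : (((M : ℤ) : ℂ) + 1 + j) = ((M + j : ℕ) : ℂ) + 1 := by push_cast; ring
        have e2 : (((3 + 1).factorial : ℕ) : ℂ) = 24 := by norm_num [Nat.factorial]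
        rw [e1, e2]
      simp_rw [h3]
      exact (arep_tendsto c).comp (tendsto_atTop_mono (fun N => Nat.le_add_left N M) tendsto_id)
    have h4 := tendsto_nhds_unique h2 (h1.const_add (∑ t ∈ range M,
      iteratedDeriv 4 R ((t : ℂ) + 1) / 24))
    rw [h4, neg_div, ← sub_eq_add_neg]
  · intro t ht
    refine DifferentiableAt.differentiableWithinAt ?_
    rw [hR]
    unfold pfs
    refine DifferentiableAt.fun_sum fun l hl => DifferentiableAt.fun_sum fun i _ => ?_
    refine (hasDerivAt_inv_pow _ _ _ (ne_of_re_pos' ?_)).differentiableAt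
    have h5 : (0 : ℝ) ≤ l := Nat.cast_nonneg l
    have ht' : (0 : ℝ) < t.re := ht
    simp only [Complex.add_re, Complex.natCast_re]
    linarith
  · intro t ht
    push_cast at ht
    rw [hR]
    unfold pfs
    rw [hC, Finset.sum_mul]
    refine (norm_sum_le _ _).trans (Finset.sum_le_sum fun l hl => ?_)
    rw [Finset.sum_mul]
    refine (norm_sum_le _ _).trans (Finset.sum_le_sum fun i hi => ?_)
    rw [norm_div, div_eq_mul_one_div]
    refine mul_le_mul_of_nonneg_left ?_ (norm_nonneg _)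
    have h1 : 1 / 2 ≤ ‖t + l‖ := by
      have h2 := Complex.re_le_norm (t + l)
      have : (0 : ℝ) ≤ l := Nat.cast_nonneg l
      simp only [Complex.add_re, Complex.natCast_re] at h2
      linarith
    rw [norm_pow]
    have hi2 := (Finset.mem_Icc.1 hi).2
    have h3 : (1 / 2 : ℝ) ^ 10 ≤ ‖t + l‖ ^ i := by
      calc (1 / 2 : ℝ) ^ 10 ≤ (1 / 2 : ℝ) ^ i := pow_le_pow_of_le_one (by norm_num) (by norm_num) hi2
        _ ≤ ‖t + l‖ ^ i := pow_le_pow_left₀ (by norm_num) h1 i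
    calc 1 / ‖t + l‖ ^ i ≤ 1 / (1 / 2 : ℝ) ^ 10 := one_div_le_one_div_of_le (by norm_num) h3
      _ = 2 ^ 10 := by norm_num
  · intro ε hε
    refine ⟨1 + C / ε, fun t ht => ?_⟩
    have h6 : 0 ≤ C / ε := div_nonneg hC0 hε.le
    refine (norm_pfs_le c (l0 := 0) (fun l _ => Nat.zero_le l) (x := 1 + C / ε) (by linarith)
      (by push_cast; linarith)).trans ?_
    have h7 : 0 < 1 + C / ε := by linarith
    rw [← hC, mul_one_div, div_le_iff₀ h7]
    have h8 : ε * (C / ε) = C := by field_simp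
    nlinarith

/-! ### complex partial fractions -/

variable {L : ℕ} {e : ℕ → ℕ}

theorem arep_aeval_Mj (u : ℕ) (t : ℂ) :
    Polynomial.aeval t (Mj L u) = ∏ v ∈ (range (L + 1)).erase u, (t + v) := by
  rw [Mj, map_prod]
  refine prod_congr rfl fun v _ => ?_
  simp

theorem arep_aeval_num (h : Polynomial ℚ) (t : ℂ) :
    Polynomial.aeval t (num L e h) = (2 * t + L) *
      (∏ v ∈ range (L + 1), (t + v) ^ (10 - e v)) * Polynomial.aeval ((2 * t + L) ^ 2) h := by
  have h1 : Polynomial.aeval t (2 * Polynomial.X + Polynomial.C (L : ℚ)) = 2 * t + L := by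
    rw [map_add, map_mul, Polynomial.aeval_X, Polynomial.aeval_C, map_ofNat]
    simp
  have h2 : Polynomial.aeval t (h.comp ((2 * Polynomial.X + Polynomial.C (L : ℚ)) ^ 2)) =
      Polynomial.aeval ((2 * t + L) ^ 2) h := by
    rw [Polynomial.aeval_comp, map_pow, h1]
  have h3 : Polynomial.aeval t (∏ v ∈ range (L + 1),
      (Polynomial.X + Polynomial.C (v : ℚ)) ^ (10 - e v)) =
      ∏ v ∈ range (L + 1), (t + v) ^ (10 - e v) := by
    rw [map_prod]
    refine prod_congr rfl fun v _ => ?_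
    rw [map_pow, map_add, Polynomial.aeval_X, Polynomial.aeval_C]
    simp
  rw [num, map_mul, map_mul, h1, h2, h3]

theorem arep_pf (he : IsProf L e) (h : Polynomial ℚ) (hd : 2 * h.natDegree + 2 ≤ tot L e) (t : ℂ)
    (ht : ∀ u ≤ L, t + u ≠ 0) :
    (2 * t + L) / (∏ u ∈ range (L + 1), (t + u) ^ e u) * Polynomial.aeval ((2 * t + L) ^ 2) h =
      ∑ u ∈ range (L + 1), ∑ i ∈ Finset.Icc 1 10, (co L e h u i : ℂ) / (t + u) ^ i := by
  have h0 := congrArg (Polynomial.aeval t) (num_eq he h hd)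
  rw [arep_aeval_num, map_sum] at h0
  have hne : ∀ v ∈ range (L + 1), (t + v : ℂ) ≠ 0 := fun v hv =>
    ht v (by have := mem_range.1 hv; omega)
  have hP : (∏ v ∈ range (L + 1), (t + v : ℂ) ^ 10) ≠ 0 :=
    prod_ne_zero_iff.2 fun v hv => pow_ne_zero _ (hne v hv)
  have hlhs : ((2 * t + L) / (∏ u ∈ range (L + 1), (t + u) ^ e u) *
      Polynomial.aeval ((2 * t + L) ^ 2) h) * (∏ v ∈ range (L + 1), (t + v : ℂ) ^ 10) =
      (2 * t + L) * (∏ v ∈ range (L + 1), (t + v) ^ (10 - e v)) *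
        Polynomial.aeval ((2 * t + L) ^ 2) h := by
    have h6 : (∏ v ∈ range (L + 1), (t + v : ℂ) ^ 10) =
        (∏ v ∈ range (L + 1), (t + v) ^ (10 - e v)) * ∏ v ∈ range (L + 1), (t + v) ^ e v := by
      rw [← prod_mul_distrib]
      refine prod_congr rfl fun v hv => ?_
      rw [← pow_add]
      congr 1
      have := he.le v (by have := mem_range.1 hv; omega)
      omega
    have h7 : (∏ v ∈ range (L + 1), (t + v : ℂ) ^ e v) ≠ 0 :=
      prod_ne_zero_iff.2 fun v hv => pow_ne_zero _ (hne v hv)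
    rw [h6]
    field_simp
  refine mul_right_cancel₀ hP ?_
  rw [hlhs, h0, sum_mul]
  refine sum_congr rfl fun u hu => ?_
  rw [map_sum, sum_mul]
  refine sum_congr rfl fun i hi => ?_
  have hi' := mem_Icc.1 hi
  rw [map_mul, map_mul, map_pow, map_pow, map_add, Polynomial.aeval_X, Polynomial.aeval_C,
    Polynomial.aeval_C, arep_aeval_Mj, ← mul_prod_erase _ _ hu, prod_pow]
  have hu0 : (t + u : ℂ) ≠ 0 := hne u hu
  have h8 : (t + u : ℂ) ^ 10 = (t + u) ^ (10 - i) * (t + u) ^ i := by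
    rw [← pow_add]; congr 1; omega
  rw [h8]
  simp only [eq_ratCast, Rat.cast_natCast]
  have h9 : (t + u : ℂ) ^ i ≠ 0 := pow_ne_zero _ hu0
  field_simp

/-- complex coefficients -/
noncomputable def arepC (m : ℕ) (h : ℂ[X]) (u i : ℕ) : ℂ :=
  ∑ k ∈ range (h.natDegree + 1), h.coeff k * (co (16 * m + 1) (pr m) (X ^ k) u i : ℂ)

theorem arep_RC {m : ℕ} (hm : 1 ≤ m) (h : ℂ[X]) (hd : 2 * h.natDegree + 3 ≤ 136 * m + 20)
    {t : ℂ} (ht : 0 < t.re) :
    RC m h t = pfs (range (16 * m + 1 + 1)) 10 (arepC m h) t := by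
  have hne : ∀ u ≤ 16 * m + 1, t + (u : ℂ) ≠ 0 := by
    intro u _ h0
    have h1 := congrArg Complex.re h0
    simp only [Complex.add_re, Complex.natCast_re, Complex.zero_re] at h1
    have : (0 : ℝ) ≤ u := Nat.cast_nonneg u
    linarith
  unfold RC
  rw [Polynomial.eval_eq_sum_range, Finset.mul_sum]
  have h1 : ∀ k ∈ range (h.natDegree + 1),
      wC m t * (h.coeff k * ((2 * t + (16 * m + 1)) ^ 2) ^ k) =
      h.coeff k * ∑ u ∈ range (16 * m + 1 + 1), ∑ i ∈ Finset.Icc 1 10,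
        (co (16 * m + 1) (pr m) (X ^ k) u i : ℂ) / (t + u) ^ i := by
    intro k hk
    have hk' := mem_range.1 hk
    rw [← arep_pf (isProf_pr hm) (X ^ k) (by
      rw [tot_pr hm, Polynomial.natDegree_X_pow]; omega) t hne]
    rw [map_pow, Polynomial.aeval_X]
    unfold wC
    push_cast
    ring
  rw [Finset.sum_congr rfl h1]
  unfold pfs arepC
  simp only [Finset.mul_sum]
  rw [Finset.sum_comm]
  refine Finset.sum_congr rfl fun u _ => ?_
  rw [Finset.sum_comm]
  refine Finset.sum_congr rfl fun i _ => ?_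
  rw [Finset.sum_div]
  refine Finset.sum_congr rfl fun k _ => ?_
  ring

theorem arep_F4C (m : ℕ) (h : ℂ[X]) : F4C m h = arepLF (16 * m + 1) (arepC m h) := by
  unfold F4C
  rw [Polynomial.lsum_apply, Polynomial.sum_over_range _ (by intro n; simp)]
  unfold arepLF arepC F4
  have h1 : ∀ k ∈ range (h.natDegree + 1),
      ((((∑ u ∈ range (16 * m + 1 + 1), ∑ i ∈ Finset.Icc 1 10,
        (co (16 * m + 1) (pr m) (X ^ k) u i : ℝ) * (bi i : ℝ) *
          (zt (i + 4) - (Hs (i + 4) u : ℝ))) : ℝ) : ℂ) • (LinearMap.id : ℂ →ₗ[ℂ] ℂ)) (h.coeff k) =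
      ∑ u ∈ range (16 * m + 1 + 1), ∑ i ∈ Finset.Icc 1 10,
        h.coeff k * (co (16 * m + 1) (pr m) (X ^ k) u i : ℂ) * (bi i : ℂ) *
          ((zt (i + 4) - (Hs (i + 4) u : ℝ) : ℝ) : ℂ) := by
    intro k _
    rw [LinearMap.smul_apply, LinearMap.id_apply, smul_eq_mul]
    push_cast
    rw [Finset.sum_mul]
    refine Finset.sum_congr rfl fun u _ => ?_
    rw [Finset.sum_mul]
    refine Finset.sum_congr rfl fun i _ => ?_
    ring
  rw [Finset.sum_congr rfl h1, Finset.sum_comm]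
  refine Finset.sum_congr rfl fun u _ => ?_
  rw [Finset.sum_comm]
  refine Finset.sum_congr rfl fun i _ => ?_
  rw [Finset.sum_mul, Finset.sum_mul]

theorem wC_diff (m : ℕ) (h : ℂ[X]) : DifferentiableOn ℂ (RC m h) {t | 0 < t.re} := by
  intro t ht
  have ht' : (0 : ℝ) < t.re := ht
  refine DifferentiableAt.differentiableWithinAt ?_
  unfold RC wC
  refine DifferentiableAt.mul (DifferentiableAt.div ?_ ?_ ?_) ?_
  · fun_prop
  · refine DifferentiableAt.fun_finsetProd fun u _ => ?_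
    fun_prop
  · refine prod_ne_zero_iff.2 fun u _ => pow_ne_zero _ ?_
    intro h0
    have h1 := congrArg Complex.re h0
    simp only [Complex.add_re, Complex.natCast_re, Complex.zero_re] at h1
    have : (0 : ℝ) ≤ u := Nat.cast_nonneg u
    linarith
  · exact (h.differentiable.differentiableAt).comp t (by fun_prop)

theorem rep {m : ℕ} (hm : 1 ≤ m) (h : ℂ[X]) (hd : 2 * h.natDegree + 3 ≤ 136 * m + 20) :
    F4C m h = ∑ t ∈ range (6 * m), iteratedDeriv 4 (RC m h) ((t : ℂ) + 1) / 24 -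
      IRK 4 (RC m h) ((6 * m : ℕ) : ℤ) / (2 * Real.pi) := by
  rw [arep_F4C, arep_pfs (arepC m h) (6 * m)]
  congr 1
  · refine Finset.sum_congr rfl fun t _ => ?_
    congr 1
    have hopen : {t : ℂ | 0 < t.re} ∈ 𝓝 ((t : ℂ) + 1) := by
      apply (isOpen_lt continuous_const Complex.continuous_re).mem_nhds
      have : (0 : ℝ) ≤ t := Nat.cast_nonneg t
      simp only [Set.mem_ofPred_eq, Complex.add_re, Complex.natCast_re, Complex.one_re]
      linarith
    have h1 : pfs (range (16 * m + 1 + 1)) 10 (arepC m h) =ᶠ[𝓝 ((t : ℂ) + 1)] RC m h := by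
      filter_upwards [hopen] with s hs
      exact (arep_RC hm h hd hs).symm
    exact h1.iteratedDeriv_eq 4
  · congr 1
    unfold IRK
    congr 1
    funext y
    rw [arep_RC hm h hd]
    have : (0 : ℝ) ≤ ((6 * m : ℕ) : ℝ) := Nat.cast_nonneg _
    simp
    positivity

end AREP

end Pool.Agent.OZ
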