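import Pool.Agent.OZ.Defs
import Pool.Agent.Z5.SmallPrimes

/-! # The sums of Legendre type -/

open Finset

namespace Pool.Agent.OZ

open Pool.Agent.Z5 (SF SF_pos SF_succ)

/-- symmetric double sums -/
theorem gq_symm_sum (g : ℕ → ℕ → ℝ) (hg : ∀ u v, g u v = g v u) (N : ℕ) :
    ∑ u ∈ range N, ∑ v ∈ range N, g u v =
      2 * ∑ u ∈ range N, ∑ v ∈ range u, g u v + ∑ u ∈ range N, g u u := by
  induction N with
  | zero => simp
  | succ N ih =>
    rw [sum_range_succ, sum_range_succ (fun u => ∑ v ∈ range u, g u v),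
      sum_range_succ (fun u => g u u), sum_range_succ (fun v => g N v),
      Finset.sum_congr rfl (fun u _ => sum_range_succ (fun v => g u v) N), sum_add_distrib, ih,
      Finset.sum_congr rfl (fun u _ => hg u N)]
    ring

/-- Cauchy's inequality for residue classes -/
theorem gq_classes (N d : ℕ) (hd : 0 < d) (e : ℕ → ℝ) :
    (∑ u ∈ range N, e u) ^ 2 ≤
      d * ∑ u ∈ range N, ∑ v ∈ range N, (if u % d = v % d then e u * e v else 0) := by
  have h1 : ∑ u ∈ range N, e u =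
      ∑ c ∈ range d, ∑ u ∈ (range N).filter (fun u => u % d = c), e u := by
    rw [Finset.sum_fiberwise_of_maps_to]
    intro u _
    exact mem_range.2 (Nat.mod_lt _ hd)
  have h2 : ∑ u ∈ range N, ∑ v ∈ range N, (if u % d = v % d then e u * e v else 0) =
      ∑ c ∈ range d, (∑ u ∈ (range N).filter (fun u => u % d = c), e u) ^ 2 := by
    have h3 : ∀ c, (∑ u ∈ (range N).filter (fun u => u % d = c), e u) ^ 2 =
        ∑ u ∈ (range N).filter (fun u => u % d = c),
          ∑ v ∈ range N, (if u % d = v % d then e u * e v else 0) := by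
      intro c
      rw [sq, Finset.sum_mul_sum]
      refine Finset.sum_congr rfl fun u hu => ?_
      have hu' := (mem_filter.1 hu).2
      rw [Finset.sum_filter]
      refine Finset.sum_congr rfl fun v _ => ?_
      rw [hu']
      by_cases hv : v % d = c
      · rw [if_pos hv, if_pos hv.symm]
      · rw [if_neg hv, if_neg (fun h => hv h.symm)]
    rw [Finset.sum_congr rfl fun c _ => h3 c]
    rw [Finset.sum_fiberwise_of_maps_to]
    intro u _
    exact mem_range.2 (Nat.mod_lt _ hd)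
  rw [h2, h1]
  have h4 := sq_sum_le_card_mul_sum_sq (s := range d)
    (f := fun c => ∑ u ∈ (range N).filter (fun u => u % d = c), e u)
  rwa [card_range] at h4

theorem gq_val {q : ℕ} [hq : Fact q.Prime] {l n : ℕ} (hn : n ≠ 0) (hl : n < q ^ (l + 1)) :
    padicValNat q n = ∑ k ∈ Ico 1 (l + 1), if q ^ k ∣ n then 1 else 0 := by
  have h1 : padicValNat q n ≤ l := by
    by_contra h
    have h2 : q ^ (l + 1) ∣ n := (padicValNat_dvd_iff_le hn).2 (by omega)
    exact absurd (Nat.le_of_dvd (Nat.pos_of_ne_zero hn) h2) (not_le.2 hl)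
  rw [← Finset.card_filter]
  have h3 : (Ico 1 (l + 1)).filter (fun k => q ^ k ∣ n) = Icc 1 (padicValNat q n) := by
    ext k
    simp only [mem_filter, mem_Icc, mem_Ico]
    rw [padicValNat_dvd_iff_le hn]
    omega
  rw [h3]
  simp

theorem gq_prod {q : ℕ} [hq : Fact q.Prime] {ι : Type*} (s : Finset ι) (f : ι → ℕ)
    (hf : ∀ i ∈ s, f i ≠ 0) :
    padicValNat q (∏ i ∈ s, f i) = ∑ i ∈ s, padicValNat q (f i) := by
  classical
  induction s using Finset.induction_on with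
  | empty => simp
  | insert a s ha ih =>
    rw [prod_insert ha, sum_insert ha, padicValNat.mul (hf a (mem_insert_self a s))
      (prod_ne_zero_iff.2 fun i hi => hf i (mem_insert_of_mem hi)),
      ih fun i hi => hf i (mem_insert_of_mem hi)]

/-- sums of functions of the profile -/
theorem gq_sum_pr (m : ℕ) (f : ℕ → ℝ) :
    ∑ u ∈ range (16 * m + 2), f (pr m u) =
      2 * m * f 2 + 2 * m * f 6 + (12 * m + 2) * f 10 := by
  have hA : ∀ a b : ℕ, ∀ c : ℕ, a ≤ b → (∀ u ∈ Ico a b, pr m u = c) →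
      ∑ u ∈ Ico a b, f (pr m u) = ((b : ℝ) - a) * f c := by
    intro a b c hab h
    rw [Finset.sum_congr rfl fun u hu => by rw [h u hu], Finset.sum_const, Nat.card_Ico,
      nsmul_eq_mul, Nat.cast_sub hab]
  rw [Finset.range_eq_Ico, ← Finset.sum_Ico_consecutive _ (Nat.zero_le m) (by omega : m ≤ 16 * m + 2),
    ← Finset.sum_Ico_consecutive _ (by omega : m ≤ 2 * m) (by omega : 2 * m ≤ 16 * m + 2),
    ← Finset.sum_Ico_consecutive _ (by omega : 2 * m ≤ 14 * m + 2)
      (by omega : 14 * m + 2 ≤ 16 * m + 2),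
    ← Finset.sum_Ico_consecutive _ (by omega : 14 * m + 2 ≤ 15 * m + 2)
      (by omega : 15 * m + 2 ≤ 16 * m + 2)]
  rw [hA 0 m 2 (by omega), hA m (2 * m) 6 (by omega), hA (2 * m) (14 * m + 2) 10 (by omega),
    hA (14 * m + 2) (15 * m + 2) 6 (by omega), hA (15 * m + 2) (16 * m + 2) 2 (by omega)]
  · push_cast
    ring
  all_goals
    intro u hu
    rw [mem_Ico] at hu
    unfold pr
    split_ifs <;> omega

/-- the contribution of one power to the Vandermonde product -/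
theorem gq_vand (m d : ℕ) (hd : 0 < d) :
    ((136 * m + 20 : ℝ) ^ 2 / d - (1280 * m + 200)) / 2 ≤
      ∑ u ∈ range (16 * m + 2), ∑ v ∈ range u,
        ((pr m u : ℝ) * pr m v) * (if d ∣ u - v then 1 else 0) := by
  have h1 := gq_classes (16 * m + 2) d hd (fun u => (pr m u : ℝ))
  have h2 := gq_symm_sum (fun u v => if u % d = v % d then (pr m u : ℝ) * pr m v else 0)
    (by
      intro u v
      by_cases h : u % d = v % d
      · rw [if_pos h, if_pos h.symm, mul_comm]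
      · rw [if_neg h, if_neg (fun h' => h h'.symm)]) (16 * m + 2)
  rw [h2] at h1
  have h3 := gq_sum_pr m (fun x => (x : ℝ))
  have h4 := gq_sum_pr m (fun x => (x : ℝ) * x)
  simp only [if_true] at h1
  rw [h3, h4] at h1
  have h5 : ∑ u ∈ range (16 * m + 2), ∑ v ∈ range u,
        ((pr m u : ℝ) * pr m v) * (if d ∣ u - v then 1 else 0) =
      ∑ u ∈ range (16 * m + 2), ∑ v ∈ range u,
        (if u % d = v % d then (pr m u : ℝ) * pr m v else 0) := by
    refine Finset.sum_congr rfl fun u _ => Finset.sum_congr rfl fun v hv => ?_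
    have hv' := mem_range.1 hv
    have h6 : d ∣ u - v ↔ u % d = v % d := by
      rw [← Nat.modEq_iff_dvd' hv'.le]
      exact ⟨fun h => h.symm, fun h => h.symm⟩
    by_cases h7 : u % d = v % d
    · rw [if_pos h7, if_pos (h6.2 h7), mul_one]
    · rw [if_neg h7, if_neg (fun h => h7 (h6.1 h)), mul_zero]
  rw [h5]
  have hd' : (0 : ℝ) < d := by exact_mod_cast hd
  set T := ∑ u ∈ range (16 * m + 2), ∑ v ∈ range u,
        (if u % d = v % d then (pr m u : ℝ) * pr m v else 0) with hT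
  have h8 : (136 * m + 20 : ℝ) ^ 2 ≤ d * (2 * T + (1280 * m + 200)) := by
    refine le_trans (le_of_eq ?_) (le_trans h1 (le_of_eq ?_))
    · push_cast; ring
    · push_cast; ring
  have h9 : (136 * m + 20 : ℝ) ^ 2 / d ≤ 2 * T + (1280 * m + 200) := by
    rw [div_le_iff₀ hd']
    linarith
  linarith

theorem gq_VV {m q l : ℕ} [hq : Fact q.Prime] (hl : 16 * m + 1 < q ^ (l + 1)) :
    (padicValNat q (VV m) : ℝ) = ∑ k ∈ Ico 1 (l + 1), ∑ u ∈ range (16 * m + 2), ∑ v ∈ range u,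
        ((pr m u : ℝ) * pr m v) * (if q ^ k ∣ u - v then 1 else 0) := by
  have h0 : ∀ u ∈ range (16 * m + 2), ∀ v ∈ range u, (u - v) ^ (pr m u * pr m v) ≠ 0 := by
    intro u _ v hv
    have := mem_range.1 hv
    exact pow_ne_zero _ (by omega)
  unfold VV
  rw [gq_prod _ _ fun u hu => prod_ne_zero_iff.2 (h0 u hu)]
  rw [Finset.sum_congr rfl fun u hu => gq_prod _ _ (h0 u hu)]
  push_cast
  rw [Finset.sum_comm]
  refine Finset.sum_congr rfl fun u hu => ?_
  rw [Finset.sum_comm]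
  refine Finset.sum_congr rfl fun v hv => ?_
  have hu' := mem_range.1 hu
  have hv' := mem_range.1 hv
  rw [padicValNat.pow, gq_val (l := l) (by omega : u - v ≠ 0) (by omega), ← Finset.mul_sum]
  push_cast
  rfl

theorem gq_fact {q l n : ℕ} [hq : Fact q.Prime] (hl : n < q ^ (l + 1)) :
    padicValNat q n.factorial = ∑ k ∈ Ico 1 (l + 1), n / q ^ k := by
  refine padicValNat_factorial ?_
  exact Nat.log_lt_of_lt_pow' (by omega) hl

theorem gq_fact_ge {q : ℕ} [hq : Fact q.Prime] (l n : ℕ) :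
    ∑ k ∈ Ico 1 (l + 1), n / q ^ k ≤ padicValNat q n.factorial := by
  rw [padicValNat_factorial (b := max (l + 1) (Nat.log q n + 1)) (by omega)]
  exact Finset.sum_le_sum_of_subset (Finset.Ico_subset_Ico le_rfl (le_max_left _ _))

theorem gq_SF {q : ℕ} [hq : Fact q.Prime] (l n : ℕ) :
    ∑ k ∈ Ico 1 (l + 1), ((n : ℝ) * (n - 1) / (q ^ k : ℕ) - n) ≤ (padicValNat q (SF n) : ℝ) := by
  have h1 : (padicValNat q (SF n) : ℝ) = ∑ i ∈ range n, (padicValNat q (2 * i).factorial : ℝ) := by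
    have := Pool.Agent.Z5.SmallP.padicValNat_SF (q := q) n
    exact_mod_cast this
  rw [h1]
  have h2 : ∀ i ∈ range n, ∑ k ∈ Ico 1 (l + 1), (((2 * i / q ^ k : ℕ)) : ℝ) ≤
      (padicValNat q (2 * i).factorial : ℝ) := by
    intro i _
    exact_mod_cast gq_fact_ge l (2 * i)
  refine le_trans ?_ (Finset.sum_le_sum h2)
  rw [Finset.sum_comm]
  refine Finset.sum_le_sum fun k _ => ?_
  have hD : 0 < q ^ k := pow_pos hq.out.pos k
  have hD' : (0 : ℝ) < (q ^ k : ℕ) := by exact_mod_cast hD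
  have h3 : ∀ i ∈ range n, (2 * (i : ℝ)) / (q ^ k : ℕ) - 1 ≤ (((2 * i / q ^ k : ℕ)) : ℝ) := by
    intro i _
    have h4 : 2 * i < q ^ k * (2 * i / q ^ k + 1) := Nat.lt_mul_div_succ _ hD
    have h5 : (2 * (i : ℝ)) < (q ^ k : ℕ) * ((((2 * i / q ^ k : ℕ)) : ℝ) + 1) := by
      exact_mod_cast h4
    have h6 : (2 * (i : ℝ)) / (q ^ k : ℕ) < (((2 * i / q ^ k : ℕ)) : ℝ) + 1 := by
      rw [div_lt_iff₀ hD']
      linarith
    linarith
  refine le_trans (le_of_eq ?_) (Finset.sum_le_sum h3)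
  rw [Finset.sum_sub_distrib, Finset.sum_const, card_range, nsmul_eq_mul, mul_one,
    ← Finset.sum_div, ← Finset.mul_sum]
  congr 2
  have h7 := Finset.sum_range_id_mul_two n
  have h8 : ((∑ i ∈ range n, i : ℕ) : ℝ) * 2 = n * (n - 1) := by
    rcases n with _ | n
    · simp
    · rw [Nat.add_sub_cancel] at h7
      have : (((∑ i ∈ range (n + 1), i : ℕ) * 2 : ℕ) : ℝ) = (((n + 1) * n : ℕ) : ℝ) := by
        exact_mod_cast h7
      push_cast at this ⊢
      linarith
  push_cast at h8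
  linarith

theorem gq_BB {m q l : ℕ} [hq : Fact q.Prime] (hl : 16 * m + 1 < q ^ (l + 1)) :
    (padicValNat q (BB m) : ℝ) ≤ ∑ k ∈ Ico 1 (l + 1), (136 * (m : ℝ) + 10) / (q ^ k : ℕ) := by
  have hf : ∀ n : ℕ, n.factorial ≠ 0 := Nat.factorial_ne_zero
  have h1 : padicValNat q (BB m) = 2 * padicValNat q (16 * m + 1).factorial +
      4 * padicValNat q (14 * m + 1).factorial + 4 * padicValNat q (12 * m + 1).factorial := by
    unfold BB
    rw [padicValNat.mul (mul_ne_zero (pow_ne_zero _ (hf _)) (pow_ne_zero _ (hf _)))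
      (pow_ne_zero _ (hf _)), padicValNat.mul (pow_ne_zero _ (hf _)) (pow_ne_zero _ (hf _)),
      padicValNat.pow, padicValNat.pow, padicValNat.pow]
  rw [h1, gq_fact (l := l) hl, gq_fact (l := l) (by omega : 14 * m + 1 < q ^ (l + 1)),
    gq_fact (l := l) (by omega : 12 * m + 1 < q ^ (l + 1))]
  push_cast
  rw [Finset.mul_sum, Finset.mul_sum, Finset.mul_sum, ← Finset.sum_add_distrib,
    ← Finset.sum_add_distrib]
  refine Finset.sum_le_sum fun k _ => ?_
  have h2 : ∀ n : ℕ, (((n / q ^ k : ℕ)) : ℝ) ≤ (n : ℝ) / (q ^ k : ℕ) := fun n => Nat.cast_div_le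
  have h3 := h2 (16 * m + 1)
  have h4 := h2 (14 * m + 1)
  have h5 := h2 (12 * m + 1)
  have h6 : (136 * (m : ℝ) + 10) / (q : ℝ) ^ k = 2 * (((16 * m + 1 : ℕ) : ℝ) / (q ^ k : ℕ)) +
      4 * (((14 * m + 1 : ℕ) : ℝ) / (q ^ k : ℕ)) + 4 * (((12 * m + 1 : ℕ) : ℝ) / (q ^ k : ℕ)) := by
    push_cast
    ring
  rw [h6]
  linarith

theorem gq {m q l : ℕ} [hq : Fact q.Prime] (hm : 1 ≤ m) (hl : 16 * m + 1 < q ^ (l + 1)) :
    4 * nn m * padicValNat q (BB m) ≤
      8 * padicValNat q (SF (nn m)) + padicValNat q (VV m) + 1400 * m * l := by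
  have hm' : (1 : ℝ) ≤ m := by exact_mod_cast hm
  have hnn : (nn m : ℝ) = 34 * m + 5 := by
    unfold nn
    push_cast
    ring
  have h1 := gq_BB (m := m) (q := q) (l := l) hl
  have h2 := gq_SF (q := q) l (nn m)
  have h3 := gq_VV (m := m) (q := q) (l := l) hl
  have h4 : ∑ k ∈ Ico 1 (l + 1), ((136 * m + 20 : ℝ) ^ 2 / (q ^ k : ℕ) - (1280 * m + 200)) / 2 ≤
      (padicValNat q (VV m) : ℝ) := by
    rw [h3]
    exact Finset.sum_le_sum fun k _ => gq_vand m (q ^ k) (pow_pos hq.out.pos k)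
  have h5 : (1400 * (m : ℝ) * l) = ∑ k ∈ Ico 1 (l + 1), (1400 * (m : ℝ)) := by
    rw [Finset.sum_const, Nat.card_Ico, nsmul_eq_mul]
    push_cast
    ring
  have h6 : (4 * (nn m : ℝ)) * (∑ k ∈ Ico 1 (l + 1), (136 * (m : ℝ) + 10) / (q ^ k : ℕ)) ≤
      8 * (∑ k ∈ Ico 1 (l + 1), ((nn m : ℝ) * (nn m - 1) / (q ^ k : ℕ) - nn m)) +
      (∑ k ∈ Ico 1 (l + 1), ((136 * m + 20 : ℝ) ^ 2 / (q ^ k : ℕ) - (1280 * m + 200)) / 2) +
      ∑ k ∈ Ico 1 (l + 1), (1400 * (m : ℝ)) := by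
    rw [Finset.mul_sum, Finset.mul_sum, ← Finset.sum_add_distrib, ← Finset.sum_add_distrib]
    refine Finset.sum_le_sum fun k _ => ?_
    have hD : (0 : ℝ) < (q ^ k : ℕ) := by exact_mod_cast pow_pos hq.out.pos k
    rw [hnn]
    have hx : (0 : ℝ) < 1 / (q ^ k : ℕ) := by positivity
    have e1 : ∀ a : ℝ, a / (q ^ k : ℕ) = a * (1 / (q ^ k : ℕ)) := fun a => by ring
    rw [e1, e1 ((34 * (m : ℝ) + 5) * (34 * (m : ℝ) + 5 - 1)), e1 ((136 * (m : ℝ) + 20) ^ 2)]
    generalize (1 / ((q ^ k : ℕ) : ℝ)) = x at hx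
    have h7 : 0 ≤ x * (m : ℝ) := by positivity
    nlinarith [h7, hx]
  have h8 : (4 * (nn m : ℝ) * padicValNat q (BB m)) ≤
      8 * padicValNat q (SF (nn m)) + padicValNat q (VV m) + 1400 * m * l := by
    have h9 : (4 * (nn m : ℝ) * padicValNat q (BB m)) ≤
        (4 * (nn m : ℝ)) * (∑ k ∈ Ico 1 (l + 1), (136 * (m : ℝ) + 10) / (q ^ k : ℕ)) :=
      mul_le_mul_of_nonneg_left h1 (by positivity)
    rw [h5]
    linarith
  exact_mod_cast h8

end Pool.Agent.OZ
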