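import Pool.Agent.OZ.LOC

/-!
# OZ7: local weights of the factors at a pole
-/

open Finset Polynomial

namespace Pool.Agent.OZ

open Pool.Agent.Z5 (w evY dser xser hser lser co rho Hs zt tot VG)
open Pool.Agent.Z9 (IsProf)

theorem locd_inv_prod {ι : Type*} (s : Finset ι) (f : ι → PowerSeries ℚ) :
    (∏ i ∈ s, f i)⁻¹ = ∏ i ∈ s, (f i)⁻¹ := by
  classical
  induction s using Finset.induction_on with
  | empty => simp
  | insert a s ha ih =>
    rw [Finset.prod_insert ha, Finset.prod_insert ha, PowerSeries.mul_inv_rev, ih, mul_comm]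

theorem locd_inv_pow (f : PowerSeries ℚ) (n : ℕ) : (f ^ n)⁻¹ = (f⁻¹) ^ n := by
  induction n with
  | zero => simp
  | succ n ih => rw [pow_succ, PowerSeries.mul_inv_rev, ih, pow_succ, mul_comm]

section LOC

variable {q : ℕ} [hq : Fact q.Prime] {k l : ℤ} {f g : PowerSeries ℚ} {L u : ℕ} {e : ℕ → ℕ}
  {r : ℕ → ℚ}

/-- congruence of natural numbers as divisibility of the integer difference -/
theorem locd_dvd {a b q : ℕ} : (q : ℤ) ∣ (a : ℤ) - b ↔ a % q = b % q := by
  constructor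
  · intro h
    have h1 := (Int.emod_emod_of_dvd (a : ℤ) (dvd_refl (q : ℤ)))
    have h2 : (a : ℤ) % q = (b : ℤ) % q := Int.ModEq.symm ((Int.modEq_iff_dvd).2 h)
    exact_mod_cast h2
  · intro h
    have h2 : (a : ℤ) % q = (b : ℤ) % q := by exact_mod_cast h
    exact Int.ModEq.dvd (Int.ModEq.symm h2)

/-- the valuation of a difference of two poles -/
theorem locd_val (hL : L < q ^ 2) {v : ℕ} (hu : u ≤ L) (hv : v ≤ L) (hne : v ≠ u) :
    padicValRat q ((v : ℚ) - u) = if v % q = u % q then 1 else 0 := by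
  have h1 : ((v : ℚ) - u) = (((v : ℤ) - u : ℤ) : ℚ) := by push_cast; ring
  have hn0 : ((v : ℤ) - u).natAbs ≠ 0 := by omega
  have hlt : ((v : ℤ) - u).natAbs < q ^ 2 := by omega
  rw [h1, padicValRat.of_int, padicValInt]
  split_ifs with h
  · have h2 : (q : ℤ) ∣ (v : ℤ) - u := locd_dvd.2 h
    have h3 : q ∣ ((v : ℤ) - u).natAbs := Int.natCast_dvd.1 h2
    have h4 : 1 ≤ padicValNat q ((v : ℤ) - u).natAbs :=
      one_le_padicValNat_of_dvd hn0 h3
    have h5 : padicValNat q ((v : ℤ) - u).natAbs < 2 := by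
      by_contra hc
      have h6 : q ^ 2 ∣ ((v : ℤ) - u).natAbs :=
        (padicValNat_dvd_iff_le hn0).2 (by omega)
      exact absurd (Nat.le_of_dvd (by omega) h6) (by omega)
    have h7 : padicValNat q ((v : ℤ) - u).natAbs = 1 := by omega
    rw [h7]; rfl
  · have h3 : ¬ q ∣ ((v : ℤ) - u).natAbs := fun hc => h (locd_dvd.1 (Int.natCast_dvd.2 hc))
    rw [padicValNat.eq_zero_of_not_dvd h3]; rfl

theorem WT_dser_inv (hL : L < q ^ 2) (hu : u ≤ L) :
    WT q (-((ordc q L e u : ℤ) - e u)) (dser L e u)⁻¹ := by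
  have hu' : u ∈ range (L + 1) := Finset.mem_range.2 (by omega)
  rw [dser, locd_inv_prod]
  have h1 : ∀ v ∈ (range (L + 1)).erase u,
      WT q ((e v : ℕ) * (- (if v % q = u % q then 1 else 0)))
        (((PowerSeries.C ((v : ℚ) - u) + PowerSeries.X) ^ e v : PowerSeries ℚ))⁻¹ := by
    intro v hv
    obtain ⟨hne, hv⟩ := Finset.mem_erase.1 hv
    have hvL : v ≤ L := by have := Finset.mem_range.1 hv; omega
    have hval := locd_val hL hu hvL hne
    have hx : ((v : ℚ) - u) ≠ 0 := by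
      rw [sub_ne_zero]; exact_mod_cast hne
    rw [locd_inv_pow]
    have h2 : WT q (- padicValRat q ((v : ℚ) - u))
        (PowerSeries.C ((v : ℚ) - u) + PowerSeries.X : PowerSeries ℚ)⁻¹ := by
      apply WT.inv_lin hx
      · rw [hval]; split_ifs <;> omega
      · rw [hval]; split_ifs <;> omega
    rw [hval] at h2
    exact h2.pow _
  refine (WT.prod _ _ _ h1).mono (le_of_eq ?_)
  have h3 : (ordc q L e u : ℤ) - e u =
      ∑ v ∈ (range (L + 1)).erase u, (if v % q = u % q then (e v : ℤ) else 0) := by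
    have h4 : (ordc q L e u : ℤ) = ∑ v ∈ range (L + 1), (if v % q = u % q then (e v : ℤ) else 0) := by
      rw [ordc]; push_cast; rw [Finset.sum_filter]
    rw [h4, ← Finset.add_sum_erase _ _ hu', if_pos rfl]; ring
  rw [h3, ← Finset.sum_neg_distrib]
  refine Finset.sum_congr rfl fun v _ => ?_
  split_ifs <;> simp

theorem WT_xser (L u : ℕ) : WT q 0 (xser L u) := by
  have h1 : WT q 0 (PowerSeries.C ((L : ℚ) - 2 * u) : PowerSeries ℚ) := by
    apply WT.C
    have := VG.int (q := q) ((L : ℤ) - 2 * u)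
    push_cast at this; exact this
  have h2 : WT q 0 (2 * PowerSeries.X : PowerSeries ℚ) := by
    have h3 : WT q 0 (PowerSeries.C (2 : ℚ)) := WT.C (by exact_mod_cast VG.nat (q := q) 2)
    have h4 : (PowerSeries.C (2 : ℚ) : PowerSeries ℚ) = 2 := map_ofNat _ _
    rw [h4] at h3
    exact (h3.mul WT.X).mono (by norm_num)
  exact h1.add h2

theorem WT_xser_self (L u : ℕ) (h : (2 * u) % q = L % q) : WT q 1 (xser L u) := by
  have h1 : WT q 1 (PowerSeries.C ((L : ℚ) - 2 * u) : PowerSeries ℚ) := by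
    apply WT.C
    have h2 : (q : ℤ) ∣ (L : ℤ) - ((2 * u : ℕ) : ℤ) := locd_dvd.2 h.symm
    have := VG.of_dvd (q := q) (n := (L : ℤ) - ((2 * u : ℕ) : ℤ)) (k := 1) (by simpa using h2)
    push_cast at this; exact this
  have h2 : WT q 1 (2 * PowerSeries.X : PowerSeries ℚ) := by
    have h3 : WT q 0 (PowerSeries.C (2 : ℚ)) := WT.C (by exact_mod_cast VG.nat (q := q) 2)
    have h4 : (PowerSeries.C (2 : ℚ) : PowerSeries ℚ) = 2 := map_ofNat _ _
    rw [h4] at h3
    exact (h3.mul WT.X).mono (by norm_num)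
  exact h1.add h2

theorem WT_hser (h : ℚ[X]) (hh : ∀ n, VG q 0 (h.coeff n)) : WT q 0 (hser L u h) := by
  rw [hser, Polynomial.aeval_eq_sum_range]
  refine WT.sum _ _ fun i _ => ?_
  have h1 : WT q 0 (PowerSeries.C (h.coeff i)) := WT.C (hh i)
  have h2 : WT q 0 ((xser L u ^ 2) ^ i) := by
    have := ((WT_xser (q := q) L u).pow 2).pow i
    exact this.mono (by simp)
  rw [Algebra.smul_def]
  have h3 : (algebraMap ℚ (PowerSeries ℚ)) (h.coeff i) = PowerSeries.C (h.coeff i) := rfl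
  rw [h3]
  exact (h1.mul h2).mono (by norm_num)

/-- the digit of a node: `u` in the class `c` or its reflection -/
theorem WT_node (hq2 : q ≠ 2) {c : ℕ} (h : u % q = c % q ∨ (u + c) % q = L % q) :
    WT q (dl q L c) (hser L u (X - C (yc L c))) := by
  have hser_eq : hser L u (X - C (yc L c)) =
      PowerSeries.C (((4 * (((c : ℤ) - u) * ((L : ℤ) - u - c)) : ℤ) : ℚ)) +
        (PowerSeries.C (((4 * ((L : ℤ) - 2 * u) : ℤ) : ℚ)) * PowerSeries.X +
          PowerSeries.C (4 : ℚ) * (PowerSeries.X * PowerSeries.X)) := by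
    rw [hser, map_sub, Polynomial.aeval_X, Polynomial.aeval_C]
    have h3 : (algebraMap ℚ (PowerSeries ℚ)) (yc L c) = PowerSeries.C (yc L c) := rfl
    rw [h3, xser, yc]
    have h4 : (2 : PowerSeries ℚ) = PowerSeries.C (2 : ℚ) := (map_ofNat _ _).symm
    rw [h4]
    have e1 : ∀ a : ℚ, (PowerSeries.C a : PowerSeries ℚ) ^ 2 = PowerSeries.C (a ^ 2) := by
      intro a; rw [map_pow]
    have e2 : PowerSeries.C (((4 * (((c : ℤ) - u) * ((L : ℤ) - u - c)) : ℤ) : ℚ)) =
        PowerSeries.C (((L : ℚ) - 2 * u) ^ 2) - PowerSeries.C (((L : ℚ) - 2 * c) ^ 2) := by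
      rw [← map_sub]; congr 1; push_cast; ring
    have e3 : PowerSeries.C (((4 * ((L : ℤ) - 2 * u) : ℤ) : ℚ)) =
        2 * (PowerSeries.C ((L : ℚ) - 2 * u) * PowerSeries.C (2 : ℚ)) := by
      have : (2 : PowerSeries ℚ) = PowerSeries.C (2 : ℚ) := (map_ofNat _ _).symm
      rw [this, ← map_mul, ← map_mul]; congr 1; push_cast; ring
    have e4 : PowerSeries.C (4 : ℚ) = PowerSeries.C (2 : ℚ) * PowerSeries.C (2 : ℚ) := by
      rw [← map_mul]; norm_num
    rw [e2, e3, e4, ← e1 ((L : ℚ) - 2 * u), ← e1 ((L : ℚ) - 2 * c)]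
    ring
  rw [hser_eq]
  have hprod : (q : ℤ) ∣ ((c : ℤ) - u) * ((L : ℤ) - u - c) := by
    rcases h with h | h
    · exact Dvd.dvd.mul_right (locd_dvd.2 h.symm) _
    · refine Dvd.dvd.mul_left ?_ _
      have := locd_dvd.2 h.symm
      push_cast at this
      have h5 : (L : ℤ) - u - c = (L : ℤ) - (u + c) := by ring
      rw [h5]; exact this
  have hXX : WT q 2 (PowerSeries.C (4 : ℚ) * (PowerSeries.X * PowerSeries.X) : PowerSeries ℚ) := by
    have h3 : WT q 0 (PowerSeries.C (4 : ℚ)) := WT.C (by exact_mod_cast VG.nat (q := q) 4)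
    exact (h3.mul (WT.X.mul WT.X)).mono (by norm_num)
  unfold dl
  split_ifs with hs
  · have hcu : (q : ℤ) ∣ (c : ℤ) - u := by
      rcases h with h | h
      · exact locd_dvd.2 h.symm
      · have h5 := locd_dvd.2 (h.trans hs.symm)
        push_cast at h5
        have h6 : (c : ℤ) - u = -((u : ℤ) + c - 2 * c) := by ring
        rw [h6]; exact (dvd_neg).2 h5
    have hL' : (q : ℤ) ∣ (L : ℤ) - 2 * c := by
      have := locd_dvd.2 hs.symm
      push_cast at this; exact this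
    have hLu : (q : ℤ) ∣ (L : ℤ) - u - c := by
      have h6 : (L : ℤ) - u - c = ((L : ℤ) - 2 * c) + ((c : ℤ) - u) := by ring
      rw [h6]; exact dvd_add hL' hcu
    have hL2 : (q : ℤ) ∣ (L : ℤ) - 2 * u := by
      have h6 : (L : ℤ) - 2 * u = ((L : ℤ) - 2 * c) + 2 * ((c : ℤ) - u) := by ring
      rw [h6]; exact dvd_add hL' (Dvd.dvd.mul_left hcu _)
    refine WT.add (WT.C ?_) (WT.add ?_ (hXX.mono (by norm_num)))
    · have : (q : ℤ) ^ 2 ∣ 4 * (((c : ℤ) - u) * ((L : ℤ) - u - c)) := by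
        rw [pow_two]; exact Dvd.dvd.mul_left (mul_dvd_mul hcu hLu) _
      exact_mod_cast VG.of_dvd (q := q) this
    · have h7 : (q : ℤ) ^ 1 ∣ 4 * ((L : ℤ) - 2 * u) := by
        rw [pow_one]; exact Dvd.dvd.mul_left hL2 _
      have h8 : WT q 1 (PowerSeries.C (((4 * ((L : ℤ) - 2 * u) : ℤ) : ℚ))) :=
        WT.C (by exact_mod_cast VG.of_dvd (q := q) h7)
      exact (h8.mul WT.X).mono (by norm_num)
  · refine WT.add (WT.C ?_) (WT.add ?_ (hXX.mono (by norm_num)))
    · have : (q : ℤ) ^ 1 ∣ 4 * (((c : ℤ) - u) * ((L : ℤ) - u - c)) := by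
        rw [pow_one]; exact Dvd.dvd.mul_left hprod _
      exact_mod_cast VG.of_dvd (q := q) this
    · have h8 : WT q 0 (PowerSeries.C (((4 * ((L : ℤ) - 2 * u) : ℤ) : ℚ))) :=
        WT.C (VG.int _)
      exact (h8.mul WT.X).mono (by norm_num)

theorem hser_mul' (L u : ℕ) (h g : ℚ[X]) : hser L u (h * g) = hser L u h * hser L u g := by
  simp only [hser, map_mul]

end LOC

end Pool.Agent.OZ
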