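import Pool.Agent.OZ.CLSB
import Pool.Agent.OZ.LOCD

/-!
# Admissible nodes for the primes `q ≤ 8 m + 1`
-/

open Finset Polynomial

namespace Pool.Agent.OZ

open Pool.Agent.Z5 (VG hser)

section CLS

variable {m q : ℕ} [hq : Fact q.Prime]

theorem VG_yc (L c : ℕ) : VG q 0 (yc L c) := by
  have h : yc L c = ((((L : ℤ) - 2 * c) ^ 2 : ℤ) : ℚ) := by
    unfold yc
    push_cast
    ring
  rw [h]
  exact Pool.Agent.Z5.VG.int _

/-- differences of nodes are units -/
theorem yc_unit (h2 : q ≠ 2) {L i k : ℕ} (hi : i < q) (hk : k < q) (hik : i ≠ k)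
    (hs : (i + k) % q ≠ L % q) :
    yc L i ≠ yc L k ∧ padicValRat q (yc L i - yc L k) = 0 := by
  have h1 : yc L i - yc L k = ((4 * (((k : ℤ) - i) * ((L : ℤ) - i - k)) : ℤ) : ℚ) := by
    unfold yc
    push_cast
    ring
  have hq' : Prime (q : ℤ) := Nat.prime_iff_prime_int.1 hq.out
  have h3 : ¬ (q : ℤ) ∣ 4 * (((k : ℤ) - i) * ((L : ℤ) - i - k)) := by
    intro h
    rcases hq'.dvd_or_dvd h with h | h
    · have h4 : (q : ℤ) ∣ 2 := by
        have h5 : (q : ℤ) ∣ 2 ^ 2 := by norm_num at h ⊢; exact h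
        exact hq'.dvd_of_dvd_pow h5
      have h5 : q ∣ 2 := by exact_mod_cast h4
      exact h2 ((Nat.prime_dvd_prime_iff_eq hq.out Nat.prime_two).1 h5)
    rcases hq'.dvd_or_dvd h with h | h
    · have h4 : (i : ℤ) ≡ k [ZMOD q] := Int.modEq_iff_dvd.2 h
      have h5 : i ≡ k [MOD q] := Int.natCast_modEq_iff.1 h4
      exact hik (Nat.ModEq.eq_of_lt_of_lt h5 hi hk)
    · have h4 : ((i + k : ℕ) : ℤ) ≡ (L : ℕ) [ZMOD q] := by
        apply Int.modEq_iff_dvd.2
        rw [show (L : ℤ) - (i + k : ℕ) = (L : ℤ) - i - k by push_cast; ring]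
        exact h
      exact hs (Int.natCast_modEq_iff.1 h4)
  have h0 : (4 * (((k : ℤ) - i) * ((L : ℤ) - i - k)) : ℤ) ≠ 0 := fun h => h3 (h ▸ dvd_zero _)
  constructor
  · intro h
    rw [← sub_eq_zero, h1] at h
    exact h0 (by exact_mod_cast h)
  · rw [h1, padicValRat.of_int, padicValInt.eq_zero_of_not_dvd h3]
    rfl

theorem cl_cases (L u : ℕ) :
    u % q = cl q L u % q ∨ (u ≤ L → (u + cl q L u) % q = L % q) := by
  unfold cl
  rcases min_choice (u % q) ((L - u) % q) with h | h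
  · left
    rw [h, Nat.mod_mod]
  · right
    intro hu
    rw [h, Nat.add_mod, Nat.mod_mod, cl_mod_add hu]

theorem adm_cls (hm : 1 ≤ m) (h2 : q ≠ 2) (hL : 16 * m + 1 < q ^ 2) (h8 : q ≤ 8 * m + 1) :
    Adm q (16 * m + 1) (pr m) (nn m) (fun c : Fin q => yc (16 * m + 1) c) (fun c => Mc m q c)
      (fun c => dl q (16 * m + 1) c) 2 0 := by
  have _ := h8
  have _ := hL
  refine ⟨?_, fun c => VG_yc _ _, ?_, ?_⟩
  · rw [add_zero]
    exact sum_Mc hm
  · intro i k hik hi hk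
    have h := cl_unit (m := m) (q := q) (i := i) (k := k) (fun h => hik (Fin.ext h)) hi hk
    exact yc_unit h2 h.1 h.2.1 (fun h => hik (Fin.ext h)) h.2.2
  · intro u hu
    right
    refine ⟨⟨cl q (16 * m + 1) u, cl_lt _ _⟩, ?_, ?_⟩
    · rw [ordc_cls h2 hu]
      ring
    · refine WT_node h2 ?_
      rcases cl_cases (q := q) (16 * m + 1) u with h | h
      · exact Or.inl h
      · exact Or.inr (h hu)

end CLS

end Pool.Agent.OZ
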