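import Pool.Agent.OZ.VVQ

/-!
# The cost of the primes `q ≤ 8 m + 1`
-/

open Finset

namespace Pool.Agent.OZ

section CLS

variable {m q : ℕ} [hq : Fact q.Prime]

theorem eight_sum_dl_Mc (h2 : q ≠ 2) (hL : 16 * m + 1 < q ^ 2) (hm : 1 ≤ m) :
    8 * ∑ c : Fin q, dl q (16 * m + 1) c * Mc m q c ^ 2 =
      1280 * m + 200 + 2 * padicValNat q (VV m) := by
  rw [← sum_sq_pr hm, ← ordc_sum hL,
    Fin.sum_univ_eq_sum_range (fun c => dl q (16 * m + 1) c * Mc m q c ^ 2) q]
  have h0 := Finset.sum_fiberwise_of_maps_to (s := range (16 * m + 2)) (t := range q)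
    (g := fun u => cl q (16 * m + 1) u) (fun u _ => mem_range.2 (cl_lt _ _))
    (fun u => pr m u * ordc q (16 * m + 1) (pr m) u)
  rw [← h0, mul_sum]
  refine sum_congr rfl fun c _ => ?_
  have h1 : ∑ u ∈ (range (16 * m + 2)).filter (fun u => cl q (16 * m + 1) u = c),
      pr m u * ordc q (16 * m + 1) (pr m) u =
      (∑ u ∈ (range (16 * m + 2)).filter (fun u => cl q (16 * m + 1) u = c), pr m u) *
        (2 * (dl q (16 * m + 1) c * Mc m q c)) := by
    rw [sum_mul]
    refine sum_congr rfl fun u hu => ?_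
    rw [mem_filter, mem_range] at hu
    rw [ordc_cls h2 (by omega), hu.2]
  rw [h1, sum_cl h2 c]
  ring

/-- number of poles in the self-conjugate class -/
theorem card_self (h2 : q ≠ 2) (L N : ℕ) :
    #((range N).filter fun u => (2 * u) % q = L % q) ≤ N / q + 1 := by
  rcases ((range N).filter fun u => (2 * u) % q = L % q).eq_empty_or_nonempty with h | ⟨v, hv⟩
  · rw [h]
    simp
  · rw [mem_filter] at hv
    have h3 : ((range N).filter fun u => (2 * u) % q = L % q) ⊆
        (range N).filter fun u => u ≡ v [MOD q] := by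
      intro u hu
      rw [mem_filter] at hu ⊢
      refine ⟨hu.1, ?_⟩
      have h4 : 2 * u ≡ 2 * v [MOD q] := hu.2.trans hv.2.symm
      have h5 : Nat.gcd q 2 = 1 := (Nat.coprime_primes hq.out Nat.prime_two).2 h2
      exact Nat.ModEq.cancel_left_of_coprime h5 h4
    refine (card_le_card h3).trans ?_
    rw [← Nat.count_eq_card_filter_range, Nat.count_modEq_card _ hq.out.pos]
    split_ifs <;> omega

theorem cl_self_iff {u : ℕ} {L : ℕ} (hu : u ≤ L) :
    (2 * cl q L u) % q = L % q ↔ (2 * u) % q = L % q := by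
  have h4 := cl_mod_add (q := q) hu
  have hb : (L - u) % q < q := Nat.mod_lt _ hq.out.pos
  have ha : u % q < q := Nat.mod_lt _ hq.out.pos
  have h5 : (2 * u) % q = (u % q + u % q) % q := by rw [two_mul, Nat.add_mod]
  rw [h5, ← h4]
  unfold cl
  constructor
  · intro h
    rcases min_choice (u % q) ((L - u) % q) with h6 | h6
    · rw [h6, two_mul] at h
      exact h
    · rw [h6, two_mul, Nat.add_comm (u % q)] at h
      have := cl_cancel hb ha h
      rw [this]
  · intro h
    have := cl_cancel ha hb h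
    rw [← this, min_self, two_mul]

theorem four_self (h2 : q ≠ 2) :
    4 * ∑ c ∈ (range q).filter (fun c => (2 * c) % q = (16 * m + 1) % q), Mc m q c ≤
      10 * ((16 * m + 2) / q + 1) := by
  have h1 : 4 * ∑ c ∈ (range q).filter (fun c => (2 * c) % q = (16 * m + 1) % q), Mc m q c =
      ∑ u ∈ (range (16 * m + 2)).filter (fun u => (2 * u) % q = (16 * m + 1) % q), pr m u := by
    rw [mul_sum, sum_filter, sum_filter,
      ← Finset.sum_fiberwise_of_maps_to (s := range (16 * m + 2)) (t := range q)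
        (g := fun u => cl q (16 * m + 1) u) (fun u _ => mem_range.2 (cl_lt _ _))]
    refine sum_congr rfl fun c _ => ?_
    rw [← sum_cl h2 c]
    split_ifs with h
    · refine sum_congr rfl fun u hu => ?_
      rw [mem_filter, mem_range] at hu
      rw [if_pos]
      rw [← cl_self_iff (by omega), hu.2]
      exact h
    · refine (sum_eq_zero fun u hu => ?_).symm
      rw [mem_filter, mem_range] at hu
      rw [if_neg]
      rw [← cl_self_iff (by omega), hu.2]
      exact h
  rw [h1]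
  refine (sum_le_card_nsmul _ _ 10 fun u _ => ?_).trans ?_
  · unfold pr
    split_ifs <;> omega
  · rw [smul_eq_mul, mul_comm]
    exact Nat.mul_le_mul_left _ (card_self h2 _ _)

theorem sum_dl_Mc (hm : 1 ≤ m) : ∑ c : Fin q, dl q (16 * m + 1) c * Mc m q c =
    nn m + ∑ c ∈ (range q).filter (fun c => (2 * c) % q = (16 * m + 1) % q), Mc m q c := by
  rw [← sum_Mc (q := q) hm, Fin.sum_univ_eq_sum_range (fun c => dl q (16 * m + 1) c * Mc m q c) q,
    Fin.sum_univ_eq_sum_range (fun c => Mc m q c) q, sum_filter, ← sum_add_distrib]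
  refine sum_congr rfl fun c _ => ?_
  unfold dl
  split_ifs <;> ring

theorem cost_cls (hm : 1 ≤ m) (h2 : q ≠ 2) (hL : 16 * m + 1 < q ^ 2) (h8 : q ≤ 8 * m + 1) :
    4 * ((∑ c : Fin q, (dl q (16 * m + 1) c * Mc m q c ^ 2 + dl q (16 * m + 1) c * Mc m q c +
      2 * 2 * Mc m q c) + 2 * 2 * 0 : ℕ) : ℝ) ≤ padicValNat q (VV m) + kap m q := by
  have h3 := eight_sum_dl_Mc h2 hL hm
  have h4 := four_self (m := m) (q := q) h2
  have h5 := sum_dl_Mc (q := q) hm
  have h6 := sum_Mc (q := q) hm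
  rw [sum_add_distrib, sum_add_distrib, ← mul_sum (univ : Finset (Fin q)), h6, h5]
  rw [kap, if_pos h8]
  have h7 : ((16 * m + 2) / q : ℕ) ≤ ((16 * m + 2 : ℕ) : ℝ) / (q : ℝ) := Nat.cast_div_le
  have h3' : 8 * ((∑ c : Fin q, dl q (16 * m + 1) c * Mc m q c ^ 2 : ℕ) : ℝ) =
      1280 * m + 200 + 2 * (padicValNat q (VV m) : ℝ) := by
    exact_mod_cast congrArg (Nat.cast (R := ℝ)) h3
  have h4' : 4 * ((∑ c ∈ (range q).filter (fun c => (2 * c) % q = (16 * m + 1) % q),
      Mc m q c : ℕ) : ℝ) ≤ 10 * (((16 * m + 2) / q : ℕ) + 1) := by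
    exact_mod_cast (Nat.cast_le (α := ℝ)).2 h4
  generalize (∑ c : Fin q, dl q (16 * m + 1) c * Mc m q c ^ 2 : ℕ) = D at *
  generalize (∑ c ∈ (range q).filter (fun c => (2 * c) % q = (16 * m + 1) % q),
      Mc m q c : ℕ) = S at *
  generalize ((16 * m + 2) / q : ℕ) = T at *
  rw [nn]
  push_cast at h7 ⊢
  linarith

end CLS

end Pool.Agent.OZ
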