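import Pool.Agent.OZ.TOPC
import Pool.Agent.OZ.LOCD

open Finset Polynomial

namespace Pool.Agent.OZ

open Pool.Agent.Z5 (hser VG)

section TOP

variable {m q : ℕ} [hq : Fact q.Prime]

theorem topa_int (L c : ℕ) : VG q 0 (yc L c) := by
  unfold yc
  refine VG.pow_zero ?_ 2
  have := VG.int (q := q) ((L : ℤ) - 2 * c)
  simpa using this

theorem topa_unit (h2 : q ≠ 2) (h8 : 8 * m + 1 < q) (h16 : q ≤ 16 * m + 1) {i k : ℕ}
    (hi : i < tn m q) (hk : k < tn m q) (hik : i ≠ k) :
    yc (16 * m + 1) i ≠ yc (16 * m + 1) k ∧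
      padicValRat q (yc (16 * m + 1) i - yc (16 * m + 1) k) = 0 := by
  have hodd := topc_odd (q := q) h2
  unfold tn at hi hk
  have hp : Prime (q : ℤ) := Nat.prime_iff_prime_int.1 hq.out
  have hN : ¬ (q : ℤ) ∣ 4 * ((k : ℤ) - i) * (16 * m + 1 - i - k) := by
    intro h
    rcases hp.dvd_mul.1 h with h | h
    · rcases hp.dvd_mul.1 h with h | h
      · have h4 : q ∣ 2 ^ 2 := by exact_mod_cast h
        exact h2 ((Nat.prime_dvd_prime_iff_eq hq.out Nat.prime_two).1 (hq.out.dvd_of_dvd_pow h4))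
      · have := Int.eq_zero_of_abs_lt_dvd h (by rw [abs_lt]; constructor <;> omega)
        omega
    · have h' : (q : ℤ) ∣ 16 * m + 1 - i - k - q := by simpa using dvd_sub h (dvd_refl _)
      have := Int.eq_zero_of_abs_lt_dvd h' (by rw [abs_lt]; constructor <;> omega)
      omega
  have he : yc (16 * m + 1) i - yc (16 * m + 1) k =
      ((4 * ((k : ℤ) - i) * (16 * m + 1 - i - k) : ℤ) : ℚ) := by
    unfold yc; push_cast; ring
  constructor
  · intro h
    rw [h, sub_self] at he
    have : (4 * ((k : ℤ) - i) * (16 * m + 1 - i - k) : ℤ) = 0 := by exact_mod_cast he.symm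
    rw [this] at hN
    exact hN (dvd_zero _)
  · rw [he, padicValRat.of_int, padicValInt.eq_zero_of_not_dvd hN]
    rfl

theorem topa_node (h2 : q ≠ 2) (h8 : 8 * m + 1 < q) (h16 : q ≤ 16 * m + 1) {u : ℕ}
    (hu : u ≤ 16 * m + 1) (hp : Partner q (16 * m + 1) u) :
    ∃ k : Fin (tn m q), ordc q (16 * m + 1) (pr m) u = po m q k ∧
      WT q (dl q (16 * m + 1) k) (hser (16 * m + 1) u (X - C (yc (16 * m + 1) k))) := by
  have hodd := topc_odd (q := q) h2
  have hL : (16 * m + 1) % q = 16 * m + 1 - q := by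
    rw [Nat.mod_eq_sub_mod h16, Nat.mod_eq_of_lt (by omega)]
  obtain ⟨c0, hc0, hu0⟩ : ∃ c0, c0 + q ≤ 16 * m + 1 ∧ (u = c0 ∨ u = c0 + q) := by
    rcases hp with h | h
    · exact ⟨u - q, by omega, Or.inr (by omega)⟩
    · exact ⟨u, h, Or.inl rfl⟩
  have ho : ordc q (16 * m + 1) (pr m) u = po m q c0 := by
    have := ordc_top (q := q) h8 hc0
    rcases hu0 with rfl | rfl
    · exact this.1
    · exact this.2
  by_cases hc : c0 < tn m q
  · refine ⟨⟨c0, hc⟩, ho, WT_node h2 (Or.inl ?_)⟩
    rcases hu0 with rfl | rfl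
    · rfl
    · simp
  · have hc' : 16 * m + 1 - q - c0 < tn m q := by
      unfold tn at hc ⊢; omega
    refine ⟨⟨16 * m + 1 - q - c0, hc'⟩, ?_, WT_node h2 (Or.inr ?_)⟩
    · rw [ho]
      exact (topc_po_symm (by omega)).symm
    · rcases hu0 with rfl | rfl
      · simp only
        rw [show u + (16 * m + 1 - q - u) = 16 * m + 1 - q by omega, hL,
          Nat.mod_eq_of_lt (by omega)]
      · simp only
        rw [show c0 + q + (16 * m + 1 - q - c0) = 16 * m + 1 by omega]

theorem adm_top_a (_hm : 1 ≤ m) (h2 : q ≠ 2) (h8 : 8 * m + 1 < q) (h16 : q ≤ 16 * m + 1) :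
    Adm q (16 * m + 1) (pr m) (nn m) (fun c : Fin (tn m q) => yc (16 * m + 1) c)
      (fun c => Ma m q c) (fun c => dl q (16 * m + 1) c) 2
      (nn m - ∑ c : Fin (tn m q), Ma m q c) where
  sum := by
    have := sum_Ma_le (q := q) h2 h8 h16
    omega
  int k := topa_int _ _
  unit i k hik _ _ := topa_unit h2 h8 h16 i.2 k.2 fun h => hik (Fin.ext h)
  cls u hu := by
    by_cases hp : Partner q (16 * m + 1) u
    · right
      obtain ⟨k, hk, hw⟩ := topa_node h2 h8 h16 hu hp
      refine ⟨k, ?_, hw⟩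
      rw [hk, topc_dl h2 h8 h16 k.2]
      have e1 := topc_po_half m q k
      have e2 := topc_even m k
      unfold Ma
      split_ifs with hc
      · have : po m q k = 2 * pr m k := by
          unfold po
          rw [show 16 * m + 1 - q - (k : ℕ) = k by omega]
          ring
        omega
      · omega
    · exact Or.inl hp

theorem adm_top_b (_hm : 1 ≤ m) (h2 : q ≠ 2) (h8 : 28 * m + 3 < 3 * q) (h16 : q ≤ 16 * m + 1) :
    Adm q (16 * m + 1) (pr m) (nn m) (fun c : Fin (tn m q) => yc (16 * m + 1) c)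
      (fun c => Mb m q c) (fun c => dl q (16 * m + 1) c) 0
      (nn m - ∑ c : Fin (tn m q), Mb m q c) where
  sum := by
    have := sum_Mb_le (q := q) h2 h8 h16
    omega
  int k := topa_int _ _
  unit i k hik _ _ := topa_unit h2 (by omega) h16 i.2 k.2 fun h => hik (Fin.ext h)
  cls u hu := by
    by_cases hp : Partner q (16 * m + 1) u
    · right
      obtain ⟨k, hk, hw⟩ := topa_node h2 (by omega) h16 hu hp
      refine ⟨k, ?_, hw⟩
      rw [hk, topc_dl h2 (by omega) h16 k.2]
      have e1 := topc_po_half m q k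
      have e2 := topc_even m k
      unfold Mb
      split_ifs with hc
      · have : po m q k = 2 * pr m k := by
          unfold po
          rw [show 16 * m + 1 - q - (k : ℕ) = k by omega]
          ring
        omega
      · omega
    · exact Or.inl hp

end TOP

end Pool.Agent.OZ
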