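import Pool.Agent.OZ.TOPB

open Finset Polynomial

namespace Pool.Agent.OZ

section TOP

variable {m q : ℕ} [hq : Fact q.Prime]

theorem topc_odd (h2 : q ≠ 2) : q % 2 = 1 := by
  rcases hq.out.eq_two_or_odd with h | h
  · exact absurd h h2
  · exact h

theorem topc_even (m u : ℕ) : pr m u % 2 = 0 := by
  unfold pr; split_ifs <;> rfl

theorem topc_pr_le (m u : ℕ) : pr m u ≤ 10 := by
  unfold pr; split_ifs <;> omega

/-- sums over the nodes, where the middle node has a modified value -/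
theorem topc_mid (h2 : q ≠ 2) (h16 : q ≤ 16 * m + 1) (f g : ℕ → ℕ) (a b : ℕ)
    (hf : ∀ c < 16 * m + 2 - q, f (16 * m + 1 - q - c) = f c)
    (hg : ∀ c < tn m q, 2 * c + 1 ≠ 16 * m + 2 - q → g c = f c)
    (ha : ∑ c ∈ range (16 * m + 2 - q), f c = a)
    (hb : f ((16 * m + 1 - q) / 2) + b = 2 * g ((16 * m + 1 - q) / 2)) :
    2 * ∑ c : Fin (tn m q), g c = a + b := by
  have h := sum_tn h2 h16 f hf
  have hodd := topc_odd (q := q) h2
  have hmid : (16 * m + 1 - q) / 2 < tn m q := by unfold tn; omega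
  have h1 : ∀ F : ℕ → ℕ, ∑ c : Fin (tn m q), F c =
      F ((16 * m + 1 - q) / 2) + ∑ c ∈ (range (tn m q)).erase ((16 * m + 1 - q) / 2), F c := by
    intro F
    rw [Fin.sum_univ_eq_sum_range (fun c => F c) (tn m q),
      add_sum_erase _ _ (mem_range.2 hmid)]
  have h3 : ∑ c ∈ (range (tn m q)).erase ((16 * m + 1 - q) / 2), g c =
      ∑ c ∈ (range (tn m q)).erase ((16 * m + 1 - q) / 2), f c := by
    refine sum_congr rfl fun c hc => hg c (mem_range.1 (mem_erase.1 hc).2)
      fun hc' => (mem_erase.1 hc).1 ?_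
    omega
  rw [h1 g, h3]
  rw [h1 f, ha] at h
  omega

omit hq in
theorem topc_po_symm {c : ℕ} (hc : c < 16 * m + 2 - q) :
    po m q (16 * m + 1 - q - c) = po m q c := by
  unfold po
  rw [show 16 * m + 1 - q - (16 * m + 1 - q - c) = c by omega, add_comm]

theorem topc_refl (m q : ℕ) (h16 : q ≤ 16 * m + 1) (F : ℕ → ℕ) :
    ∑ c ∈ range (16 * m + 2 - q), F (16 * m + 1 - q - c) = ∑ c ∈ range (16 * m + 2 - q), F c := by
  rw [← sum_range_reflect]
  refine sum_congr rfl fun c hc => ?_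
  have := mem_range.1 hc
  congr 1
  omega

theorem topc_po_half (m q c : ℕ) : 2 * (po m q c / 2) = po m q c := by
  have := topc_even m c
  have := topc_even m (16 * m + 1 - q - c)
  unfold po
  omega

theorem topc_sum_po (m q : ℕ) (h16 : q ≤ 16 * m + 1) :
    ∑ c ∈ range (16 * m + 2 - q), po m q c = 2 * s1 m (16 * m + 2 - q) := by
  unfold po s1
  rw [sum_add_distrib, topc_refl m q h16 (pr m)]
  ring

theorem topc_sum_po_sq (hm : 1 ≤ m) (h8 : 8 * m + 1 < q) (h16 : q ≤ 16 * m + 1) :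
    ∑ c ∈ range (16 * m + 2 - q), po m q c ^ 2 =
      2 * s2 m (16 * m + 2 - q) + 2 * padicValNat q (VV m) := by
  have h1 : ∀ c, po m q c ^ 2 = pr m c ^ 2 + pr m (16 * m + 1 - q - c) ^ 2 +
      2 * (pr m c * pr m (16 * m + 1 - q - c)) := fun c => by unfold po; ring
  simp only [h1]
  rw [sum_add_distrib, sum_add_distrib, topc_refl m q h16 (fun c => pr m c ^ 2), ← mul_sum,
    VV_top hm h8 h16]
  unfold s2
  ring

/-- the middle class -/
theorem topc_po_mid (h2 : q ≠ 2) (h16 : q ≤ 16 * m + 1) :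
    po m q ((16 * m + 1 - q) / 2) = 2 * pr m ((16 * m + 1 - q) / 2) := by
  have hodd := topc_odd (q := q) h2
  unfold po
  rw [show 16 * m + 1 - q - (16 * m + 1 - q) / 2 = (16 * m + 1 - q) / 2 by omega]
  ring

theorem topc_mid_eq (h2 : q ≠ 2) (h16 : q ≤ 16 * m + 1) :
    2 * ((16 * m + 1 - q) / 2) + 1 = 16 * m + 2 - q := by
  have hodd := topc_odd (q := q) h2
  omega

/-- total multiplicity, first choice -/
theorem sum_Ma (h2 : q ≠ 2) (h16 : q ≤ 16 * m + 1) :
    2 * ∑ c : Fin (tn m q), Ma m q c = s1 m (16 * m + 2 - q) := by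
  have h := topc_mid (q := q) h2 h16 (fun c => po m q c / 2) (fun c => Ma m q c)
    (s1 m (16 * m + 2 - q)) 0 (fun c hc => by simp only [topc_po_symm hc])
    (fun c _ hc => by simp only [Ma, if_neg hc]) ?_ ?_
  · simpa using h
  · have h1 := topc_sum_po m q h16
    have h3 : 2 * ∑ c ∈ range (16 * m + 2 - q), po m q c / 2 =
        ∑ c ∈ range (16 * m + 2 - q), po m q c := by
      rw [mul_sum]; exact sum_congr rfl fun c _ => topc_po_half m q c
    omega
  · simp only [Ma, if_pos (topc_mid_eq (q := q) h2 h16), topc_po_mid (q := q) h2 h16]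
    have := topc_even m ((16 * m + 1 - q) / 2)
    omega

/-- total multiplicity, second choice -/
theorem sum_Mb (h2 : q ≠ 2) (h16 : q ≤ 16 * m + 1) :
    2 * ∑ c : Fin (tn m q), Mb m q c = s1 m (16 * m + 2 - q) + 2 * (16 * m + 2 - q) := by
  have h := topc_mid (q := q) h2 h16 (fun c => (po m q c + 4) / 2) (fun c => Mb m q c)
    (s1 m (16 * m + 2 - q) + 2 * (16 * m + 2 - q)) 0
    (fun c hc => by simp only [topc_po_symm hc])
    (fun c _ hc => by simp only [Mb, if_neg hc]) ?_ ?_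
  · simpa using h
  · have h1 := topc_sum_po m q h16
    have h3 : 2 * ∑ c ∈ range (16 * m + 2 - q), (po m q c + 4) / 2 =
        ∑ c ∈ range (16 * m + 2 - q), (po m q c + 4) := by
      rw [mul_sum]
      refine sum_congr rfl fun c _ => ?_
      have := topc_po_half m q c
      omega
    rw [sum_add_distrib, sum_const, card_range, smul_eq_mul] at h3
    omega
  · simp only [Mb, if_pos (topc_mid_eq (q := q) h2 h16), topc_po_mid (q := q) h2 h16]
    have := topc_even m ((16 * m + 1 - q) / 2)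
    omega

theorem topc_dl (h2 : q ≠ 2) (h8 : 8 * m + 1 < q) (h16 : q ≤ 16 * m + 1) {c : ℕ}
    (hc : c < tn m q) :
    dl q (16 * m + 1) c = if 2 * c + 1 = 16 * m + 2 - q then 2 else 1 := by
  have hodd := topc_odd (q := q) h2
  unfold tn at hc
  unfold dl
  have h1 : (2 * c) % q = 2 * c := Nat.mod_eq_of_lt (by omega)
  have h3 : (16 * m + 1) % q = 16 * m + 1 - q := by
    rw [Nat.mod_eq_sub_mod h16, Nat.mod_eq_of_lt (by omega)]
  rw [h1, h3]
  congr 1
  apply propext
  omega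

/-- linear part of the cost, first choice -/
theorem topc_lin_a (h2 : q ≠ 2) (h8 : 8 * m + 1 < q) (h16 : q ≤ 16 * m + 1) :
    2 * ∑ c : Fin (tn m q), dl q (16 * m + 1) c * Ma m q c =
      s1 m (16 * m + 2 - q) + pr m ((16 * m + 1 - q) / 2) := by
  have hmid : (16 * m + 1 - q) / 2 < tn m q := by
    have := topc_odd (q := q) h2
    unfold tn; omega
  refine topc_mid (q := q) h2 h16 (fun c => po m q c / 2)
    (fun c => dl q (16 * m + 1) c * Ma m q c)
    (s1 m (16 * m + 2 - q)) (pr m ((16 * m + 1 - q) / 2))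
    (fun c hc => by simp only [topc_po_symm hc])
    (fun c hct hc => by simp only [Ma, topc_dl h2 h8 h16 hct, if_neg hc, one_mul]) ?_ ?_
  · have h1 := topc_sum_po m q h16
    have h3 : 2 * ∑ c ∈ range (16 * m + 2 - q), po m q c / 2 =
        ∑ c ∈ range (16 * m + 2 - q), po m q c := by
      rw [mul_sum]; exact sum_congr rfl fun c _ => topc_po_half m q c
    omega
  · simp only [Ma, topc_dl h2 h8 h16 hmid, if_pos (topc_mid_eq (q := q) h2 h16),
      topc_po_mid (q := q) h2 h16]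
    have := topc_even m ((16 * m + 1 - q) / 2)
    omega

/-- quadratic part of the cost, first choice -/
theorem topc_quad_a (hm : 1 ≤ m) (h2 : q ≠ 2) (h8 : 8 * m + 1 < q) (h16 : q ≤ 16 * m + 1) :
    4 * ∑ c : Fin (tn m q), dl q (16 * m + 1) c * Ma m q c ^ 2 =
      s2 m (16 * m + 2 - q) + padicValNat q (VV m) := by
  have hmid : (16 * m + 1 - q) / 2 < tn m q := by
    have := topc_odd (q := q) h2
    unfold tn; omega
  have h := topc_mid (q := q) h2 h16 (fun c => (po m q c / 2) ^ 2)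
    (fun c => dl q (16 * m + 1) c * Ma m q c ^ 2)
    (∑ c ∈ range (16 * m + 2 - q), (po m q c / 2) ^ 2) 0
    (fun c hc => by simp only [topc_po_symm hc])
    (fun c hct hc => by simp only [Ma, topc_dl h2 h8 h16 hct, if_neg hc, one_mul]) rfl ?_
  · have h1 := topc_sum_po_sq (q := q) hm h8 h16
    have h3 : 4 * ∑ c ∈ range (16 * m + 2 - q), (po m q c / 2) ^ 2 =
        ∑ c ∈ range (16 * m + 2 - q), po m q c ^ 2 := by
      rw [mul_sum]
      refine sum_congr rfl fun c _ => ?_
      have := topc_po_half m q c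
      calc 4 * (po m q c / 2) ^ 2 = (2 * (po m q c / 2)) ^ 2 := by ring
        _ = _ := by rw [this]
    omega
  · simp only [Ma, topc_dl h2 h8 h16 hmid, if_pos (topc_mid_eq (q := q) h2 h16),
      topc_po_mid (q := q) h2 h16]
    obtain ⟨k, hk⟩ : ∃ k, pr m ((16 * m + 1 - q) / 2) = 2 * k :=
      ⟨_, (Nat.mul_div_cancel' (Nat.dvd_of_mod_eq_zero (topc_even m _))).symm⟩
    rw [hk, show 2 * (2 * k) / 2 = 2 * k by omega, show 2 * k / 2 = k by omega]
    ring

/-- linear part of the cost, second choice -/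
theorem topc_lin_b (h2 : q ≠ 2) (h8 : 8 * m + 1 < q) (h16 : q ≤ 16 * m + 1) :
    2 * ∑ c : Fin (tn m q), dl q (16 * m + 1) c * Mb m q c =
      s1 m (16 * m + 2 - q) + 2 * (16 * m + 2 - q) + (pr m ((16 * m + 1 - q) / 2) + 2) := by
  have hmid : (16 * m + 1 - q) / 2 < tn m q := by
    have := topc_odd (q := q) h2
    unfold tn; omega
  refine topc_mid (q := q) h2 h16 (fun c => (po m q c + 4) / 2)
    (fun c => dl q (16 * m + 1) c * Mb m q c)
    (s1 m (16 * m + 2 - q) + 2 * (16 * m + 2 - q)) (pr m ((16 * m + 1 - q) / 2) + 2)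
    (fun c hc => by simp only [topc_po_symm hc])
    (fun c hct hc => by simp only [Mb, topc_dl h2 h8 h16 hct, if_neg hc, one_mul]) ?_ ?_
  · have h1 := topc_sum_po m q h16
    have h3 : 2 * ∑ c ∈ range (16 * m + 2 - q), (po m q c + 4) / 2 =
        ∑ c ∈ range (16 * m + 2 - q), (po m q c + 4) := by
      rw [mul_sum]
      refine sum_congr rfl fun c _ => ?_
      have := topc_po_half m q c
      omega
    rw [sum_add_distrib, sum_const, card_range, smul_eq_mul] at h3
    omega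
  · simp only [Mb, topc_dl h2 h8 h16 hmid, if_pos (topc_mid_eq (q := q) h2 h16),
      topc_po_mid (q := q) h2 h16]
    have := topc_even m ((16 * m + 1 - q) / 2)
    omega

/-- quadratic part of the cost, second choice -/
theorem topc_quad_b (hm : 1 ≤ m) (h2 : q ≠ 2) (h8 : 8 * m + 1 < q) (h16 : q ≤ 16 * m + 1) :
    4 * ∑ c : Fin (tn m q), dl q (16 * m + 1) c * Mb m q c ^ 2 =
      s2 m (16 * m + 2 - q) + padicValNat q (VV m) + 8 * s1 m (16 * m + 2 - q) +
        8 * (16 * m + 2 - q) := by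
  have hmid : (16 * m + 1 - q) / 2 < tn m q := by
    have := topc_odd (q := q) h2
    unfold tn; omega
  have h := topc_mid (q := q) h2 h16 (fun c => ((po m q c + 4) / 2) ^ 2)
    (fun c => dl q (16 * m + 1) c * Mb m q c ^ 2)
    (∑ c ∈ range (16 * m + 2 - q), ((po m q c + 4) / 2) ^ 2) 0
    (fun c hc => by simp only [topc_po_symm hc])
    (fun c hct hc => by simp only [Mb, topc_dl h2 h8 h16 hct, if_neg hc, one_mul]) rfl ?_
  · have h1 := topc_sum_po_sq (q := q) hm h8 h16
    have h4 := topc_sum_po m q h16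
    have h3 : 4 * ∑ c ∈ range (16 * m + 2 - q), ((po m q c + 4) / 2) ^ 2 =
        ∑ c ∈ range (16 * m + 2 - q), (po m q c ^ 2 + 8 * po m q c + 16) := by
      rw [mul_sum]
      refine sum_congr rfl fun c _ => ?_
      have := topc_po_half m q c
      calc 4 * ((po m q c + 4) / 2) ^ 2 = (2 * ((po m q c + 4) / 2)) ^ 2 := by ring
        _ = (po m q c + 4) ^ 2 := by rw [show 2 * ((po m q c + 4) / 2) = po m q c + 4 by omega]
        _ = _ := by ring
    rw [sum_add_distrib, sum_add_distrib, sum_const, card_range, smul_eq_mul, ← mul_sum] at h3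
    omega
  · simp only [Mb, topc_dl h2 h8 h16 hmid, if_pos (topc_mid_eq (q := q) h2 h16),
      topc_po_mid (q := q) h2 h16]
    obtain ⟨k, hk⟩ : ∃ k, pr m ((16 * m + 1 - q) / 2) = 2 * k :=
      ⟨_, (Nat.mul_div_cancel' (Nat.dvd_of_mod_eq_zero (topc_even m _))).symm⟩
    rw [hk, show (2 * (2 * k) + 4) / 2 = 2 * k + 2 by omega, show (2 * k + 2) / 2 = k + 1 by omega]
    ring

theorem sum_Ma_le (h2 : q ≠ 2) (h8 : 8 * m + 1 < q) (h16 : q ≤ 16 * m + 1) :
    ∑ c : Fin (tn m q), Ma m q c ≤ nn m := by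
  have h := sum_Ma (q := q) h2 h16
  have h1 := s1_eq (m := m) (n := 16 * m + 2 - q) (by omega)
  unfold nn
  split_ifs at h1 <;> omega

theorem sum_Mb_le (h2 : q ≠ 2) (h8 : 28 * m + 3 < 3 * q) (h16 : q ≤ 16 * m + 1) :
    ∑ c : Fin (tn m q), Mb m q c ≤ nn m := by
  have h := sum_Mb (q := q) h2 h16
  have h1 := s1_eq (m := m) (n := 16 * m + 2 - q) (by omega)
  unfold nn
  split_ifs at h1 <;> omega

theorem cost_top_a (hm : 1 ≤ m) (h2 : q ≠ 2) (h8 : 8 * m + 1 < q) (h16 : 3 * q ≤ 28 * m + 3) :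
    4 * ((∑ c : Fin (tn m q), (dl q (16 * m + 1) c * Ma m q c ^ 2 +
      dl q (16 * m + 1) c * Ma m q c + 2 * 2 * Ma m q c) +
      2 * 2 * (nn m - ∑ c : Fin (tn m q), Ma m q c) : ℕ) : ℝ) ≤
      padicValNat q (VV m) + kap m q := by
  have hq16 : q ≤ 16 * m + 1 := by omega
  have hk : kap m q = ((2280 * m + 340 - 120 * q : ℕ) : ℝ) := by
    unfold kap
    rw [if_neg (by omega), if_pos h16, Nat.cast_sub (by omega)]
    push_cast; ring
  rw [hk]
  rw [sum_add_distrib, sum_add_distrib, ← mul_sum]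
  have e1 := topc_lin_a (q := q) h2 h8 hq16
  have e2 := topc_quad_a (q := q) hm h2 h8 hq16
  have e3 := sum_Ma_le (q := q) h2 h8 hq16
  have e4 := s1_eq (m := m) (n := 16 * m + 2 - q) (by omega)
  have e5 := s2_eq (m := m) (n := 16 * m + 2 - q) (by omega)
  have e6 := topc_pr_le m ((16 * m + 1 - q) / 2)
  rw [if_neg (by omega), if_neg (by omega)] at e4 e5
  generalize (∑ c : Fin (tn m q), dl q (16 * m + 1) c * Ma m q c ^ 2) = A2 at *
  generalize (∑ c : Fin (tn m q), dl q (16 * m + 1) c * Ma m q c) = A1 at *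
  generalize (∑ c : Fin (tn m q), Ma m q c) = A0 at *
  have : 4 * (A2 + A1 + 2 * 2 * A0 + 2 * 2 * (nn m - A0)) ≤
      padicValNat q (VV m) + (2280 * m + 340 - 120 * q) := by
    unfold nn at *
    omega
  exact_mod_cast this

theorem cost_top_b (hm : 1 ≤ m) (h2 : q ≠ 2) (h8 : 28 * m + 3 < 3 * q) (h16 : q ≤ 16 * m + 1) :
    4 * ((∑ c : Fin (tn m q), (dl q (16 * m + 1) c * Mb m q c ^ 2 +
      dl q (16 * m + 1) c * Mb m q c + 2 * 0 * Mb m q c) +
      2 * 0 * (nn m - ∑ c : Fin (tn m q), Mb m q c) : ℕ) : ℝ) ≤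
      padicValNat q (VV m) + kap m q := by
  have h8' : 8 * m + 1 < q := by omega
  have e1 := topc_lin_b (q := q) h2 h8' h16
  have e2 := topc_quad_b (q := q) hm h2 h8' h16
  have e4 := s1_eq (m := m) (n := 16 * m + 2 - q) (by omega)
  have e5 := s2_eq (m := m) (n := 16 * m + 2 - q) (by omega)
  have e6 := topc_pr_le m ((16 * m + 1 - q) / 2)
  simp only [add_zero, mul_zero, zero_mul]
  rw [sum_add_distrib]
  generalize (∑ c : Fin (tn m q), dl q (16 * m + 1) c * Mb m q c ^ 2) = A2 at *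
  generalize (∑ c : Fin (tn m q), dl q (16 * m + 1) c * Mb m q c) = A1 at *
  generalize padicValNat q (VV m) = V at *
  unfold kap
  rw [if_neg (by omega), if_neg (by omega)]
  by_cases c1 : q ≤ 14 * m + 2
  · rw [if_pos c1]
    have : (4 * (A2 + A1 : ℕ) : ℤ) ≤ V +
        (212 * (16 * m + 2 - q) - 280 * m + 24) := by
      split_ifs at e4 e5 <;> omega
    have h := (Int.cast_le (R := ℝ)).2 this
    push_cast at h ⊢
    linarith
  rw [if_neg c1]
  by_cases c2 : q ≤ 15 * m + 2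
  · rw [if_pos c2]
    have : (4 * (A2 + A1 : ℕ) : ℤ) ≤ V +
        (108 * (16 * m + 2 - q) - 72 * m + 24) := by
      split_ifs at e4 e5 <;> omega
    have h := (Int.cast_le (R := ℝ)).2 this
    push_cast at h ⊢
    linarith
  rw [if_neg c2, if_pos h16]
  have : (4 * (A2 + A1 : ℕ) : ℤ) ≤ V +
      (36 * (16 * m + 2 - q) + 24) := by
    split_ifs at e4 e5 <;> omega
  have h := (Int.cast_le (R := ℝ)).2 this
  push_cast at h ⊢
  linarith

end TOP

end Pool.Agent.OZ
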