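import Pool.Agent.OZ.GEN
import Pool.Agent.OZ.CLSA
import Pool.Agent.OZ.CLSC
import Pool.Agent.OZ.TOPA
import Pool.Agent.OZ.TOPC

/-! # PADQ : the lower bound for `v_q(DQ)`, all primes with `16 m + 1 < q ^ 2` -/

open Finset Polynomial

namespace Pool.Agent.OZ

open Pool.Agent.Z5 (w evY dser xser hser lser co rho Hs zt tot VG)
open Pool.Agent.Z9 (IsProf)

/-- a bound for the determinant and a cost bound give the bound for the valuation -/
theorem val_of_bound {m q N : ℕ} {r : ℕ → ℚ} (hne : DQ m r ≠ 0)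
    (hb : VG q (-(N : ℤ)) (DQ m r)) (hc : 4 * (N : ℝ) ≤ padicValNat q (VV m) + kap m q) :
    -((padicValNat q (VV m) : ℝ) + kap m q) ≤ 4 * (padicValRat q (DQ m r) : ℝ) := by
  rcases hb with hb | hb
  · exact absurd hb hne
  · have : (-(N : ℤ) : ℝ) ≤ (padicValRat q (DQ m r) : ℝ) := by exact_mod_cast hb
    push_cast at this
    linarith

theorem val_ge_large {m q : ℕ} [hq : Fact q.Prime] (hm : 1 ≤ m) (h : 16 * m + 1 < q)
    {r : ℕ → ℚ} (hr : ∀ i ∈ Finset.Icc 1 10, VG q 0 (r i)) (hne : DQ m r ≠ 0) :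
    0 ≤ padicValRat q (DQ m r) := by
  have hA : Adm q (16 * m + 1) (pr m) (nn m) (fun e : Empty => (e.elim : ℚ)) (fun e => e.elim)
      (fun e => e.elim) 0 (nn m) :=
    { sum := by simp
      int := fun k => k.elim
      unit := fun k => k.elim
      cls := by
        intro u hu
        left
        rintro (h1 | h1) <;> omega }
  have h2 : 16 * m + 1 < q ^ 2 := lt_of_lt_of_le h (Nat.le_self_pow (by norm_num) q)
  have h3 : VG q (-((∑ k : Empty, ((k.elim : ℕ) * (k.elim : ℕ) ^ 2 + (k.elim : ℕ) * (k.elim : ℕ) +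
      2 * 0 * (k.elim : ℕ)) + 2 * 0 * nn m : ℕ) : ℤ)) (DQ m r) := hA.bound h2 hr
  rcases h3 with h3 | h3
  · exact absurd h3 hne
  · simpa using h3

theorem val_ge {m q : ℕ} [hq : Fact q.Prime] (hm : 1 ≤ m) (h2 : q ≠ 2)
    (hL : 16 * m + 1 < q ^ 2) {r : ℕ → ℚ} (hr : ∀ i ∈ Finset.Icc 1 10, VG q 0 (r i))
    (hne : DQ m r ≠ 0) :
    -((padicValNat q (VV m) : ℝ) + kap m q) ≤ 4 * (padicValRat q (DQ m r) : ℝ) := by
  by_cases h8 : q ≤ 8 * m + 1
  · exact val_of_bound hne ((adm_cls hm h2 hL h8).bound hL hr) (cost_cls hm h2 hL h8)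
  · push Not at h8
    by_cases h16 : q ≤ 16 * m + 1
    · by_cases h3 : 3 * q ≤ 28 * m + 3
      · exact val_of_bound hne ((adm_top_a hm h2 h8 h16).bound hL hr) (cost_top_a hm h2 h8 h3)
      · push Not at h3
        exact val_of_bound hne ((adm_top_b hm h2 h3 h16).bound hL hr) (cost_top_b hm h2 h3 h16)
    · push Not at h16
      have hk : kap m q = 0 := by
        unfold kap
        rw [if_neg (by omega), if_neg (by omega), if_neg (by omega), if_neg (by omega),
          if_neg (by omega)]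
      have h := val_ge_large hm h16 hr hne
      have h' : (0 : ℝ) ≤ (padicValRat q (DQ m r) : ℝ) := by exact_mod_cast h
      rw [hk]
      have : (0 : ℝ) ≤ (padicValNat q (VV m) : ℝ) := Nat.cast_nonneg _
      linarith

end Pool.Agent.OZ
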