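import Pool.Agent.OZ.Defs
import Pool.Agent.Z5.SmallPrimes

/-! # Small primes: the factorial basis and the denominators -/

open Finset Polynomial

namespace Pool.Agent.OZ

open Pool.Agent.Z5 (w evY dser xser hser lser co rho Hs zt tot VG SF)
open Pool.Agent.Z9 (IsProf)

section SML

open Pool.Agent.Z5.SmallP (WS bs Cb)

theorem hser_Cb {m u : ℕ} (i : ℕ) :
    hser (16 * m + 1) u (Cb i) = PowerSeries.C ((4 : ℚ) ^ i * (2 * i).factorial) *
      bs (2 * i) ((8 * m + 1 : ℤ) - u + i - 1) := by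
  have hL : ((16 * m + 1 : ℕ) : ℚ) = 16 * m + 1 := by
    push_cast; ring
  set c : ℚ := 8 * m + 1 - u with hc
  have hx : xser (16 * m + 1) u = 2 * (PowerSeries.C (c - 1 / 2) + PowerSeries.X) := by
    rw [xser, hL, mul_add]
    congr 1
    rw [← map_ofNat (PowerSeries.C (R := ℚ)) 2, ← map_mul]
    congr 1
    rw [hc]; ring
  have hfac : ∀ s : ℕ, hser (16 * m + 1) u (Polynomial.X - Polynomial.C ((2 * (s : ℚ) + 1) ^ 2))
      = PowerSeries.C 4 * ((PowerSeries.C (c + s) + PowerSeries.X) *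
        (PowerSeries.C (c - 1 - s) + PowerSeries.X)) := by
    intro s
    rw [hser, map_sub, Polynomial.aeval_X, Polynomial.aeval_C, hx]
    have e1 : (algebraMap ℚ (PowerSeries ℚ)) ((2 * (s : ℚ) + 1) ^ 2) =
        PowerSeries.C ((2 * (s : ℚ) + 1) ^ 2) := rfl
    have e2 : (2 : PowerSeries ℚ) = PowerSeries.C 2 := (map_ofNat (PowerSeries.C (R := ℚ)) 2).symm
    have e3 : PowerSeries.C (4 : ℚ) = 4 := map_ofNat (PowerSeries.C (R := ℚ)) 4
    have e4 : PowerSeries.C (c + s) = PowerSeries.C (c - 1 / 2) + PowerSeries.C ((s : ℚ) + 1 / 2) := by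
      rw [← map_add]; congr 1; ring
    have e5 : PowerSeries.C (c - 1 - s) = PowerSeries.C (c - 1 / 2) - PowerSeries.C ((s : ℚ) + 1 / 2) := by
      rw [← map_sub]; congr 1; ring
    have e6 : PowerSeries.C ((2 * (s : ℚ) + 1) ^ 2) = 4 * PowerSeries.C ((s : ℚ) + 1 / 2) ^ 2 := by
      rw [← e3, ← map_pow, ← map_mul]; congr 1; ring
    rw [e1, e6, e4, e5, e3]
    ring
  have key : ∀ i : ℕ, hser (16 * m + 1) u (Cb i) = PowerSeries.C ((4 : ℚ) ^ i) *
      ∏ j ∈ range (2 * i), (PowerSeries.C (c + i - 1 - j) + (PowerSeries.X : PowerSeries ℚ)) := by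
    intro i
    induction i with
    | zero => simp [Cb, hser]
    | succ i ih =>
      have h1 : Cb (i + 1) = Cb i * (Polynomial.X - Polynomial.C ((2 * (i : ℚ) + 1) ^ 2)) := by
        rw [Cb, Cb, prod_range_succ]
      rw [h1, Pool.Agent.Z5.hser_mul, ih, hfac, Pool.Agent.Z5.SmallP.bprod_succ, pow_succ, map_mul]
      ring
  rw [key i, bs, ← mul_assoc, ← map_mul]
  have h2 : (4 : ℚ) ^ i * (2 * i).factorial * ((2 * i).factorial : ℚ)⁻¹ = 4 ^ i := by
    have : ((2 * i).factorial : ℚ) ≠ 0 := by exact_mod_cast Nat.factorial_ne_zero _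
    field_simp
  rw [h2]
  congr 1
  refine prod_congr rfl fun j _ => ?_
  congr 2
  rw [hc]
  push_cast
  ring

theorem sml_above {a N u : ℕ} (h : u < a) :
    ∏ v ∈ Finset.Ico a (a + N), ((v : ℚ) - u) =
      ((N.factorial * (a - u + N - 1).choose N : ℕ) : ℚ) := by
  rw [← Nat.ascFactorial_eq_factorial_mul_choose', Nat.ascFactorial_eq_prod_range,
    Finset.prod_Ico_eq_prod_range, Nat.add_sub_cancel_left]
  push_cast
  refine Finset.prod_congr rfl fun i _ => ?_
  rw [Nat.cast_sub h.le]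
  ring

theorem sml_below {a N u : ℕ} (h : a + N ≤ u) :
    ∏ v ∈ Finset.Ico a (a + N), ((v : ℚ) - u) =
      (-1) ^ N * ((N.factorial * (u - a).choose N : ℕ) : ℚ) := by
  rw [← Nat.descFactorial_eq_factorial_mul_choose, Nat.descFactorial_eq_prod_range,
    Finset.prod_Ico_eq_prod_range, Nat.add_sub_cancel_left]
  have h1 : ((-1 : ℚ)) ^ N = ∏ i ∈ range N, (-1 : ℚ) := by simp
  rw [h1, Nat.cast_prod, ← Finset.prod_mul_distrib]
  refine Finset.prod_congr rfl fun i hi => ?_
  have hi' := Finset.mem_range.mp hi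
  rw [Nat.cast_sub (by omega), Nat.cast_sub (by omega)]
  push_cast
  ring

theorem sml_val_fac {q l : ℕ} [hq : Fact q.Prime] {N n : ℕ} (hN : 0 < N) (hNl : N < q ^ (l + 1))
    (hn : n < q ^ (l + 1)) (hNn : N ≤ n) :
    (padicValNat q (N.factorial * n.choose N) : ℤ) ≤ padicValNat q (N - 1).factorial + 2 * l := by
  have h0 : n.choose N ≠ 0 := (Nat.choose_pos hNn).ne'
  rw [padicValNat.mul (Nat.factorial_ne_zero _) h0]
  obtain ⟨M, rfl⟩ : ∃ M, N = M + 1 := ⟨N - 1, by omega⟩
  rw [Nat.factorial_succ, padicValNat.mul (by omega) (Nat.factorial_ne_zero _), Nat.add_sub_cancel]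
  have h1 : padicValNat q (M + 1) ≤ l := by
    have h2 := padicValNat_le_nat_log (p := q) (M + 1)
    have h3 : Nat.log q (M + 1) < l + 1 := Nat.log_lt_of_lt_pow (by omega) hNl
    omega
  have h4 : padicValNat q (n.choose (M + 1)) ≤ l := by
    have h2 := Nat.factorization_choose_le_log (p := q) (n := n) (k := M + 1)
    rw [Nat.factorization_def _ hq.out] at h2
    have h3 : Nat.log q n < l + 1 := Nat.log_lt_of_lt_pow (by omega) hn
    omega
  rw [Nat.cast_add, Nat.cast_add]
  omega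

theorem sml_brick_val {q l : ℕ} [hq : Fact q.Prime] {a N u : ℕ} (hN : 0 < N)
    (h1 : a + N < q ^ (l + 1)) (h2 : u < q ^ (l + 1)) :
    padicValRat q (∏ v ∈ (Finset.Ico a (a + N)).erase u, ((v : ℚ) - u)) ≤
      padicValNat q (N - 1).factorial + 2 * l := by
  rcases Nat.lt_or_ge u a with h | h
  · rw [Finset.erase_eq_of_notMem (by rw [Finset.mem_Ico]; omega), sml_above h, padicValRat.of_nat]
    exact sml_val_fac hN (by omega) (by omega) (by omega)
  rcases Nat.lt_or_ge u (a + N) with h' | h'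
  · have hs : (Finset.Ico a (a + N)).erase u =
        Finset.Ico a (a + (u - a)) ∪ Finset.Ico (u + 1) ((u + 1) + (a + N - 1 - u)) := by
      ext v
      rw [Finset.mem_erase, Finset.mem_union, Finset.mem_Ico, Finset.mem_Ico, Finset.mem_Ico]
      omega
    have hd : Disjoint (Finset.Ico a (a + (u - a)))
        (Finset.Ico (u + 1) ((u + 1) + (a + N - 1 - u))) := by
      rw [Finset.disjoint_left]
      intro v hv hv'
      rw [Finset.mem_Ico] at hv hv'
      omega
    rw [hs, Finset.prod_union hd, sml_below (by omega), sml_above (by omega)]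
    have e1 : (u - a).choose (u - a) = 1 := Nat.choose_self _
    have e2 : (u + 1 - u + (a + N - 1 - u) - 1).choose (a + N - 1 - u) = 1 := by
      have : u + 1 - u + (a + N - 1 - u) - 1 = a + N - 1 - u := by omega
      rw [this, Nat.choose_self]
    rw [e1, e2, mul_one, mul_one]
    have e3 : padicValRat q ((-1 : ℚ) ^ (u - a) * ((u - a).factorial : ℚ) *
        ((a + N - 1 - u).factorial : ℚ)) =
        padicValNat q ((u - a).factorial * (a + N - 1 - u).factorial) := by
      rcases neg_one_pow_eq_or ℚ (u - a) with h3 | h3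
      · rw [h3, one_mul, ← Nat.cast_mul, padicValRat.of_nat]
      · rw [h3, neg_one_mul, neg_mul, padicValRat.neg, ← Nat.cast_mul, padicValRat.of_nat]
    rw [e3]
    have e4 : (u - a).factorial * (a + N - 1 - u).factorial ∣ (N - 1).factorial := by
      have := Nat.factorial_mul_factorial_dvd_factorial_add (u - a) (a + N - 1 - u)
      rwa [show u - a + (a + N - 1 - u) = N - 1 by omega] at this
    have e5 : padicValNat q ((u - a).factorial * (a + N - 1 - u).factorial) ≤
        padicValNat q (N - 1).factorial :=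
      (padicValNat_dvd_iff_le (Nat.factorial_ne_zero _)).1 (pow_padicValNat_dvd.trans e4)
    have e6 : (padicValNat q ((u - a).factorial * (a + N - 1 - u).factorial) : ℤ) ≤
        padicValNat q (N - 1).factorial := by exact_mod_cast e5
    have e7 : (0 : ℤ) ≤ 2 * l := by positivity
    omega
  · rw [Finset.erase_eq_of_notMem (by rw [Finset.mem_Ico]; omega), sml_below h']
    have e3 : padicValRat q ((-1 : ℚ) ^ N * ((N.factorial * (u - a).choose N : ℕ) : ℚ)) =
        padicValNat q (N.factorial * (u - a).choose N) := by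
      rcases neg_one_pow_eq_or ℚ N with h3 | h3
      · rw [h3, one_mul, padicValRat.of_nat]
      · rw [h3, neg_one_mul, padicValRat.neg, padicValRat.of_nat]
    rw [e3]
    exact sml_val_fac hN (by omega) (by omega) (by omega)

theorem sml_prod_pr {m u : ℕ} (f : ℕ → ℚ) :
    ∏ v ∈ (range (16 * m + 1 + 1)).erase u, f v ^ pr m v =
      (∏ v ∈ (Finset.Ico 0 (0 + (16 * m + 2))).erase u, f v) ^ 2 *
      (∏ v ∈ (Finset.Ico m (m + (14 * m + 2))).erase u, f v) ^ 4 *
      (∏ v ∈ (Finset.Ico (2 * m) (2 * m + (12 * m + 2))).erase u, f v) ^ 4 := by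
  have h1 : ∀ v ∈ (range (16 * m + 1 + 1)).erase u, f v ^ pr m v = f v ^ 2 *
      (if v ∈ (Finset.Ico m (m + (14 * m + 2))).erase u then f v else 1) ^ 4 *
      (if v ∈ (Finset.Ico (2 * m) (2 * m + (12 * m + 2))).erase u then f v else 1) ^ 4 := by
    intro v hv
    rw [Finset.mem_erase, Finset.mem_range] at hv
    obtain ⟨hv1, hv2⟩ := hv
    simp only [Finset.mem_erase, Finset.mem_Ico]
    unfold pr
    by_cases c1 : v < m ∨ 15 * m + 1 < v
    · have hA : ¬ (v ≠ u ∧ m ≤ v ∧ v < m + (14 * m + 2)) := by omega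
      have hB : ¬ (v ≠ u ∧ 2 * m ≤ v ∧ v < 2 * m + (12 * m + 2)) := by omega
      rw [if_pos c1, if_neg hA, if_neg hB]
      ring
    · have hA : (v ≠ u ∧ m ≤ v ∧ v < m + (14 * m + 2)) := by omega
      by_cases c2 : v < 2 * m ∨ 14 * m + 1 < v
      · have hB : ¬ (v ≠ u ∧ 2 * m ≤ v ∧ v < 2 * m + (12 * m + 2)) := by omega
        rw [if_neg c1, if_pos c2, if_pos hA, if_neg hB]
        ring
      · have hB : (v ≠ u ∧ 2 * m ≤ v ∧ v < 2 * m + (12 * m + 2)) := by omega
        rw [if_neg c1, if_neg c2, if_pos hA, if_pos hB]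
        ring
  rw [Finset.prod_congr rfl h1, Finset.prod_mul_distrib, Finset.prod_mul_distrib, Finset.prod_pow,
    Finset.prod_pow, Finset.prod_pow]
  congr 1
  · congr 1
    · congr 1
      refine Finset.prod_congr ?_ fun _ _ => rfl
      ext v
      simp only [Finset.mem_erase, Finset.mem_range, Finset.mem_Ico]
      omega
    · congr 1
      rw [Finset.prod_ite_mem]
      refine Finset.prod_congr ?_ fun _ _ => rfl
      ext v
      simp only [Finset.mem_inter, Finset.mem_erase, Finset.mem_range, Finset.mem_Ico]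
      omega
  · congr 1
    rw [Finset.prod_ite_mem]
    refine Finset.prod_congr ?_ fun _ _ => rfl
    ext v
    simp only [Finset.mem_inter, Finset.mem_erase, Finset.mem_range, Finset.mem_Ico]
    omega

/-- the geometric series -/
noncomputable def smlT (d : ℚ) : PowerSeries ℚ := PowerSeries.mk fun n => (-d⁻¹) ^ n

theorem smlT_mul {d : ℚ} (hd : d ≠ 0) :
    (PowerSeries.C d + PowerSeries.X) * (PowerSeries.C d⁻¹ * smlT d) = 1 := by
  have h1 : (PowerSeries.C d + PowerSeries.X) * (PowerSeries.C d⁻¹ * smlT d) =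
      smlT d + PowerSeries.C d⁻¹ * (PowerSeries.X * smlT d) := by
    have h2 : (PowerSeries.C d : PowerSeries ℚ) * PowerSeries.C d⁻¹ = 1 := by
      rw [← map_mul, mul_inv_cancel₀ hd, map_one]
    linear_combination (smlT d) * h2
  rw [h1]
  ext n
  rw [map_add, PowerSeries.coeff_C_mul]
  rcases n with _ | n
  · rw [PowerSeries.coeff_zero_X_mul]
    simp [smlT]
  · rw [PowerSeries.coeff_succ_X_mul, smlT, PowerSeries.coeff_mk, PowerSeries.coeff_mk,
      PowerSeries.coeff_one, if_neg (by omega)]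
    ring

theorem smlT_WS {q l : ℕ} [hq : Fact q.Prime] {d : ℚ} (hd : VG q (-(l : ℤ)) d⁻¹) :
    WS q l (smlT d) := by
  intro n
  rw [smlT, PowerSeries.coeff_mk]
  have h1 := (VG.neg hd).pow n
  exact h1.mono (by rw [mul_neg])

theorem sml_WS_pow {q l : ℕ} [hq : Fact q.Prime] {f : PowerSeries ℚ} (hf : WS q l f) (k : ℕ) :
    WS q l (f ^ k) := by
  induction k with
  | zero => rw [pow_zero]; exact Pool.Agent.Z5.SmallP.WS.one
  | succ k ih => rw [pow_succ]; exact ih.mul hf

theorem sml_inv_int {q l : ℕ} [hq : Fact q.Prime] {v u : ℕ} (hvu : v ≠ u)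
    (hv : v < q ^ (l + 1)) (hu : u < q ^ (l + 1)) : VG q (-(l : ℤ)) ((v : ℚ) - u)⁻¹ := by
  rcases Nat.lt_or_ge u v with h | h
  · rw [← Nat.cast_sub h.le]
    exact Pool.Agent.Z5.SmallP.VG_inv_nat (by omega) (by omega)
  · have h1 : ((v : ℚ) - u)⁻¹ = -(((u - v : ℕ) : ℚ))⁻¹ := by
      rw [Nat.cast_sub h, ← inv_neg, neg_sub]
    rw [h1]
    exact VG.neg (Pool.Agent.Z5.SmallP.VG_inv_nat (by omega) (by omega))

/-- the inverse of the denominator: `(∏ bricks) · dser⁻¹` -/
theorem dser_inv_brick {q m l u : ℕ} [hq : Fact q.Prime] (hm : 1 ≤ m) (hl : 68 * m + 10 < q ^ (l + 1))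
    (hu : u ≤ 16 * m + 1) (n : ℕ) :
    VG q (-((padicValNat q (BB m) + (20 + n) * l : ℕ) : ℤ))
      (PowerSeries.coeff n (dser (16 * m + 1) (pr m) u)⁻¹) := by
  set S := (range (16 * m + 1 + 1)).erase u with hS
  have hne : ∀ v ∈ S, (v : ℚ) - u ≠ 0 := by
    intro v hv
    rw [hS, Finset.mem_erase] at hv
    rw [sub_ne_zero]
    exact_mod_cast hv.1
  set D : ℚ := ∏ v ∈ S, ((v : ℚ) - u) ^ pr m v with hD
  set T : PowerSeries ℚ := ∏ v ∈ S, smlT ((v : ℚ) - u) ^ pr m v with hT
  have hmul : dser (16 * m + 1) (pr m) u * (PowerSeries.C D⁻¹ * T) = 1 := by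
    have h1 : PowerSeries.C D⁻¹ * T =
        ∏ v ∈ S, (PowerSeries.C ((v : ℚ) - u)⁻¹ * smlT ((v : ℚ) - u)) ^ pr m v := by
      simp only [mul_pow]
      rw [Finset.prod_mul_distrib, hT, hD]
      congr 1
      rw [← Finset.prod_inv_distrib, map_prod]
      refine Finset.prod_congr rfl fun v _ => ?_
      rw [← inv_pow, map_pow]
    rw [h1, dser, ← hS, ← Finset.prod_mul_distrib]
    refine Finset.prod_eq_one fun v hv => ?_
    rw [← mul_pow, smlT_mul (hne v hv), one_pow]
  have hc0 : PowerSeries.constantCoeff (dser (16 * m + 1) (pr m) u) ≠ 0 := by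
    intro h0
    have h1 := congrArg PowerSeries.constantCoeff hmul
    rw [map_mul, h0, zero_mul, map_one] at h1
    exact zero_ne_one h1
  have hinv : (dser (16 * m + 1) (pr m) u)⁻¹ = PowerSeries.C D⁻¹ * T := by
    rw [PowerSeries.inv_eq_iff_mul_eq_one hc0, mul_comm, hmul]
  rw [hinv, PowerSeries.coeff_C_mul]
  have hTW : WS q l T := by
    rw [hT]
    refine WS.prod _ _ fun v hv => ?_
    rw [hS, Finset.mem_erase, Finset.mem_range] at hv
    have h1 : WS q l (smlT ((v : ℚ) - u)) := smlT_WS (sml_inv_int hv.1 (by omega) (by omega))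
    exact sml_WS_pow h1 _
  have hD0 : D ≠ 0 := Finset.prod_ne_zero_iff.2 fun v hv => pow_ne_zero _ (hne v hv)
  have hDv : padicValRat q D ≤ padicValNat q (BB m) + 20 * l := by
    have hsp := sml_prod_pr (m := m) (u := u) (fun v => (v : ℚ) - u)
    rw [← hS, ← hD] at hsp
    have b1 := sml_brick_val (q := q) (l := l) (a := 0) (N := 16 * m + 2) (u := u)
      (by omega) (by omega) (by omega)
    have b2 := sml_brick_val (q := q) (l := l) (a := m) (N := 14 * m + 2) (u := u)
      (by omega) (by omega) (by omega)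
    have b3 := sml_brick_val (q := q) (l := l) (a := 2 * m) (N := 12 * m + 2) (u := u)
      (by omega) (by omega) (by omega)
    set F1 := ∏ v ∈ (Finset.Ico 0 (0 + (16 * m + 2))).erase u, ((v : ℚ) - u)
    set F2 := ∏ v ∈ (Finset.Ico m (m + (14 * m + 2))).erase u, ((v : ℚ) - u)
    set F3 := ∏ v ∈ (Finset.Ico (2 * m) (2 * m + (12 * m + 2))).erase u, ((v : ℚ) - u)
    have hF : F1 ^ 2 * F2 ^ 4 * F3 ^ 4 ≠ 0 := by rw [← hsp]; exact hD0
    have hF12 : F1 ^ 2 * F2 ^ 4 ≠ 0 := left_ne_zero_of_mul hF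
    rw [hsp, padicValRat.mul hF12 (right_ne_zero_of_mul hF),
      padicValRat.mul (left_ne_zero_of_mul hF12) (right_ne_zero_of_mul hF12),
      padicValRat.pow, padicValRat.pow, padicValRat.pow]
    have hBB : padicValNat q (BB m) = 2 * padicValNat q (16 * m + 1).factorial +
        4 * padicValNat q (14 * m + 1).factorial + 4 * padicValNat q (12 * m + 1).factorial := by
      unfold BB
      have p1 := Nat.factorial_ne_zero (16 * m + 1)
      have p2 := Nat.factorial_ne_zero (14 * m + 1)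
      have p3 := Nat.factorial_ne_zero (12 * m + 1)
      rw [padicValNat.mul (mul_ne_zero (pow_ne_zero _ p1) (pow_ne_zero _ p2)) (pow_ne_zero _ p3),
        padicValNat.mul (pow_ne_zero _ p1) (pow_ne_zero _ p2), padicValNat.pow, padicValNat.pow,
        padicValNat.pow]
    have g1 : 16 * m + 2 - 1 = 16 * m + 1 := by omega
    have g2 : 14 * m + 2 - 1 = 14 * m + 1 := by omega
    have g3 : 12 * m + 2 - 1 = 12 * m + 1 := by omega
    rw [g1] at b1
    rw [g2] at b2
    rw [g3] at b3
    rw [hBB]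
    push_cast at b1 b2 b3 ⊢
    linarith
  have h2 : VG q (-padicValRat q D) D⁻¹ := by
    have := VG.self (q := q) D⁻¹
    rwa [padicValRat.inv] at this
  have h3 := h2.mul (hTW n)
  refine h3.mono ?_
  rw [Nat.cast_add, Nat.cast_mul, Nat.cast_add, Nat.cast_ofNat]
  linarith [add_mul (20 : ℤ) n l]

end SML

end Pool.Agent.OZ
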