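import Mathlib
import Pool.Agent.OZ.Defs
import Pool.Agent.Z5.SmallPrimes
import Pool.Agent.OZ.LIN
import Pool.Agent.OZ.GRAM
import Pool.Agent.OZ.SMLA

/-!
# One of `ζ(7), ζ(9), ζ(11), ζ(13)` is irrational: the determinant at a small prime
-/

open Finset Polynomial

namespace Pool.Agent.OZ

open Pool.Agent.Z5 (w evY dser xser hser lser co rho Hs zt tot VG SF hser_mul)
open Pool.Agent.Z5.SmallP (WS bs WS_bs Cb Cb_natDegree VG_Hs VG_mul_nat tm det_tm
  padicValNat_SF val_col val_four)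

/-- coefficient `n` has valuation at least `k - n l` -/
def smlbW (q l : ℕ) (k : ℤ) (f : PowerSeries ℚ) : Prop :=
  ∀ n : ℕ, VG q (k - n * l) (PowerSeries.coeff n f)

theorem smlbW_mul {q l : ℕ} [Fact q.Prime] {k k' : ℤ} {f g : PowerSeries ℚ} (hf : smlbW q l k f)
    (hg : smlbW q l k' g) : smlbW q l (k + k') (f * g) := by
  intro n
  rw [PowerSeries.coeff_mul]
  refine VG.sum _ _ fun x hx => ?_
  rw [HasAntidiagonal.mem_antidiagonal] at hx
  refine ((hf x.1).mul (hg x.2)).mono ?_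
  have h3 : ((x.1 : ℤ) + x.2) * l = n * l := by rw [← hx]; push_cast; ring
  linarith [add_mul (x.1 : ℤ) x.2 l]

theorem smlbW_xser (q l L u : ℕ) [Fact q.Prime] : smlbW q l 0 (xser L u) := by
  intro n
  have h2 : (2 : PowerSeries ℚ) = PowerSeries.C 2 := (map_ofNat (PowerSeries.C (R := ℚ)) 2).symm
  have h0 : (0 : ℤ) - n * l ≤ 0 := by
    have : (0 : ℤ) ≤ n * l := by positivity
    linarith
  rw [xser, map_add, PowerSeries.coeff_C, h2, PowerSeries.coeff_C_mul, PowerSeries.coeff_X]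
  refine VG.add ?_ ?_
  · split_ifs
    · have h := VG.int (q := q) ((L : ℤ) - 2 * u)
      push_cast at h
      exact h.mono h0
    · exact VG.zero _
  · split_ifs
    · have h := VG.nat (q := q) 2
      push_cast at h
      rw [mul_one]
      exact h.mono h0
    · rw [mul_zero]; exact VG.zero _

theorem smlbW_Cb {q m l u i : ℕ} [Fact q.Prime] (hl : 68 * m + 10 < q ^ (l + 1)) (hi : i < nn m) :
    smlbW q l (padicValRat q ((4 : ℚ) ^ i * (2 * i).factorial)) (hser (16 * m + 1) u (Cb i)) := by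
  intro n
  have hW : WS q l (bs (2 * i) ((8 * m + 1 : ℤ) - u + i - 1)) := WS_bs (by unfold nn at hi; omega) _
  rw [hser_Cb, PowerSeries.coeff_C_mul]
  have := (VG.self (q := q) ((4 : ℚ) ^ i * (2 * i).factorial)).mul (hW n)
  exact this.mono (by linarith)

theorem smlbW_dser {q m l u : ℕ} [Fact q.Prime] (hm : 1 ≤ m) (hl : 68 * m + 10 < q ^ (l + 1))
    (hu : u ≤ 16 * m + 1) : smlbW q l (-((padicValNat q (BB m) : ℤ) + 20 * l))
      (dser (16 * m + 1) (pr m) u)⁻¹ := by
  intro n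
  refine (dser_inv_brick hm hl hu n).mono ?_
  push_cast
  linarith [add_mul (20 : ℤ) n l]

theorem VG_entry {q m l V : ℕ} [hq : Fact q.Prime] (hm : 1 ≤ m) (hl : 68 * m + 10 < q ^ (l + 1))
    {r : ℕ → ℚ} (hr : ∀ i ∈ Finset.Icc 1 10, VG q (-(V : ℤ)) (r i)) {i j : ℕ} (hi : i < nn m)
    (hj : j < nn m) :
    VG q (padicValRat q ((4 : ℚ) ^ i * (2 * i).factorial) +
      padicValRat q ((4 : ℚ) ^ j * (2 * j).factorial) - (padicValNat q (BB m) + 40 * l + V : ℕ))
      (Fq (16 * m + 1) (pr m) r (Cb i * Cb j)) := by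
  set ei : ℤ := padicValRat q ((4 : ℚ) ^ i * (2 * i).factorial) with hei
  set ej : ℤ := padicValRat q ((4 : ℚ) ^ j * (2 * j).factorial) with hej
  rw [Fq_eq_sum]
  refine VG.sum _ _ fun u hu => ?_
  have hu' : u ≤ 16 * m + 1 := by
    have := Finset.mem_range.1 hu
    omega
  unfold uterm
  refine VG.sum _ _ fun s hs => ?_
  have hs' := Finset.mem_Icc.1 hs
  have hl0 : (0 : ℤ) ≤ l := by positivity
  have hV0 : (0 : ℤ) ≤ V := by positivity
  have hser' : smlbW q l (0 + (-((padicValNat q (BB m) : ℤ) + 20 * l)) + (ei + ej))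
      (lser (16 * m + 1) (pr m) u (Cb i * Cb j)) := by
    unfold lser
    rw [hser_mul]
    exact smlbW_mul (smlbW_mul (smlbW_xser q l _ u) (smlbW_dser hm hl hu'))
      (smlbW_mul (smlbW_Cb hl hi) (smlbW_Cb hl hj))
  have hpr : pr m u ≤ 10 := by
    unfold pr
    split_ifs <;> omega
  have hco : VG q (ei + ej - (padicValNat q (BB m) : ℤ) - 20 * l - (10 - s) * l)
      (co (16 * m + 1) (pr m) (Cb i * Cb j) u s) := by
    unfold co
    split_ifs with h
    · refine (hser' (pr m u - s)).mono ?_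
      have h1 : ((pr m u - s : ℕ) : ℤ) * l ≤ (10 - s) * l := by
        apply mul_le_mul_of_nonneg_right _ hl0
        omega
      linarith
    · exact VG.zero _
  have hH : VG q (-((s : ℤ) + 4) * l - V) (r s - Hs (s + 4) u) := by
    refine VG.sub ((hr s hs).mono ?_) ((VG_Hs (q := q) (l := l) (M := u) (by omega) (s + 4)).mono ?_)
    · have : 0 ≤ ((s : ℤ) + 4) * l := by positivity
      linarith
    · push_cast
      linarith
  have h1 := (hco.mul (VG.nat (q := q) (bi s))).mul hH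
  refine h1.mono ?_
  push_cast
  nlinarith

theorem smlb_gram (m : ℕ) (r : ℕ → ℚ) : DQ m r =
    (Matrix.of fun i j : Fin (nn m) => Fq (16 * m + 1) (pr m) r (Cb i * Cb j)).det := by
  have h := gram_det (Equiv.refl (Fin (nn m))) (fun i : Fin (nn m) => Cb (i : ℕ))
    (fun a => by rw [Cb_natDegree]; exact a.2) (FqL (16 * m + 1) (pr m) r)
  have h1 : (coefM (Equiv.refl (Fin (nn m))) (fun i : Fin (nn m) => Cb (i : ℕ))).det = 1 := by
    have h2 : coefM (Equiv.refl (Fin (nn m))) (fun i : Fin (nn m) => Cb (i : ℕ)) = (tm (nn m)).transpose := by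
      ext a b
      rfl
    rw [h2, Matrix.det_transpose, det_tm]
  rw [h1, one_pow, one_mul] at h
  exact h.symm

theorem smlb_sum (q : ℕ) [Fact q.Prime] (n : ℕ) :
    2 * ∑ i : Fin n, padicValRat q ((4 : ℚ) ^ (i : ℕ) * (2 * (i : ℕ)).factorial) =
      2 * (padicValNat q (SF n) : ℤ) + (if q = 2 then 2 * (n : ℤ) * (n - 1) else 0) := by
  rw [Fin.sum_univ_eq_sum_range (fun i : ℕ => padicValRat q ((4 : ℚ) ^ i * (2 * i).factorial)) n,
    padicValNat_SF, Finset.sum_congr rfl fun i _ => val_col (q := q) i, Finset.sum_add_distrib,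
    ← Finset.sum_mul, val_four]
  have hg : (∑ i ∈ range n, (i : ℤ)) * 2 = n * (n - 1) := by
    have := Finset.sum_range_id_mul_two n
    rcases n with _ | n
    · simp
    · have h2 : ((∑ i ∈ range (n + 1), i : ℕ) : ℤ) * 2 = ((n + 1) * (n + 1 - 1) : ℕ) := by
        exact_mod_cast this
      push_cast at h2 ⊢
      rw [h2]
      ring
  split_ifs with h
  · linarith
  · ring

theorem val_small {q m l V : ℕ} [hq : Fact q.Prime] (hm : 1 ≤ m) (hl : 68 * m + 10 < q ^ (l + 1))
    {r : ℕ → ℚ} (hr : ∀ i ∈ Finset.Icc 1 10, VG q (-(V : ℤ)) (r i)) (hne : DQ m r ≠ 0) :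
    2 * (padicValNat q (SF (nn m)) : ℤ) + (if q = 2 then 2 * (nn m : ℤ) * (nn m - 1) else 0) -
      nn m * (padicValNat q (BB m) + 40 * l + V) ≤ padicValRat q (DQ m r) := by
  have h := VG.det (q := q)
    (Matrix.of fun i j : Fin (nn m) => Fq (16 * m + 1) (pr m) r (Cb i * Cb j))
    (fun i => padicValRat q ((4 : ℚ) ^ (i : ℕ) * (2 * (i : ℕ)).factorial) -
      ((padicValNat q (BB m) + 40 * l + V : ℕ) : ℤ))
    (fun j => padicValRat q ((4 : ℚ) ^ (j : ℕ) * (2 * (j : ℕ)).factorial))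
    (fun i j => (VG_entry hm hl hr i.2 j.2).mono (by linarith))
  rw [← smlb_gram] at h
  have h1 := h.val hne
  rw [Finset.sum_sub_distrib, Finset.sum_const, Finset.card_univ, Fintype.card_fin, nsmul_eq_mul] at h1
  have h2 := smlb_sum q (nn m)
  simp only [Nat.cast_add, Nat.cast_mul, Nat.cast_ofNat] at h1
  linarith

end Pool.Agent.OZ
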