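import Pool.Agent.OZ.CLSB

/-!
# The valuation of the weighted Vandermonde product `VV` for `16 m + 1 < q ^ 2`
-/

open Finset

namespace Pool.Agent.OZ

section VVQ

theorem VV_pos (m : ℕ) : 0 < VV m := by
  unfold VV
  refine prod_pos fun u _ => prod_pos fun v hv => pow_pos ?_ _
  have := mem_range.1 hv
  omega

theorem prime_dvd_VV {m q : ℕ} (hq : q.Prime) (h : q ∣ VV m) : q ≤ 16 * m + 1 := by
  unfold VV at h
  rw [hq.prime.dvd_finsetProd_iff] at h
  obtain ⟨u, hu, h⟩ := h
  rw [hq.prime.dvd_finsetProd_iff] at h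
  obtain ⟨v, hv, h⟩ := h
  have h1 := mem_range.1 hu
  have h2 := mem_range.1 hv
  have h3 := Nat.le_of_dvd (by omega) (hq.dvd_of_dvd_pow h)
  omega

theorem pr_sq_low {m u : ℕ} (hu : u < 8 * m + 1) :
    pr m u ^ 2 = if u < m then 4 else if u < 2 * m then 36 else 100 := by
  unfold pr
  have h1 : (u < m ∨ 15 * m + 1 < u) ↔ u < m := by omega
  have h2 : (u < 2 * m ∨ 14 * m + 1 < u) ↔ u < 2 * m := by omega
  simp only [h1, h2]
  split_ifs <;> rfl

theorem sum_sq_pr {m : ℕ} (hm : 1 ≤ m) :
    ∑ u ∈ range (16 * m + 2), pr m u ^ 2 = 1280 * m + 200 := by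
  have _ := hm
  have h := sum_half (fun _ => True) (fun u => pr m u ^ 2) (n := 8 * m)
    (fun u _ => Iff.rfl)
    (fun u hu => by
      have hu' : u ≤ 16 * m + 1 := by omega
      change pr m (2 * (8 * m) + 1 - u) ^ 2 = pr m u ^ 2
      rw [show 2 * (8 * m) + 1 - u = 16 * m + 1 - u by omega, pr_refl' hu'])
  simp only [filter_true] at h
  rw [show 16 * m + 2 = 2 * (8 * m) + 2 by ring, h,
    sum_congr rfl fun u hu => pr_sq_low (mem_range.1 hu),
    show 8 * m + 1 = m + (m + (6 * m + 1)) by ring, sum_range_add, sum_range_add]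
  have e1 : ∑ x ∈ range m, (if x < m then 4 else if x < 2 * m then 36 else 100) = 4 * m := by
    rw [sum_congr rfl fun x hx => if_pos (mem_range.1 hx)]
    simp [mul_comm]
  have e2 : ∑ x ∈ range m, (if m + x < m then 4 else if m + x < 2 * m then 36 else 100) =
      36 * m := by
    rw [sum_congr rfl fun x hx => (by
      rw [if_neg (by omega), if_pos (by have := mem_range.1 hx; omega)] :
      (if m + x < m then 4 else if m + x < 2 * m then 36 else 100) = 36)]
    simp [mul_comm]
  have e3 : ∑ x ∈ range (6 * m + 1),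
      (if m + (m + x) < m then 4 else if m + (m + x) < 2 * m then 36 else 100) =
      100 * (6 * m + 1) := by
    rw [sum_congr rfl fun x hx => (by
      rw [if_neg (by omega), if_neg (by omega)] :
      (if m + (m + x) < m then 4 else if m + (m + x) < 2 * m then 36 else 100) = 100)]
    simp [mul_comm]
  rw [e1, e2, e3]
  ring

/-- a symmetric double sum: the diagonal and twice the lower half -/
theorem sum_sym (f : ℕ → ℕ → ℕ) (hf : ∀ u v, f u v = f v u) (n : ℕ) :
    ∑ u ∈ range n, ∑ v ∈ range n, f u v =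
      ∑ u ∈ range n, f u u + 2 * ∑ u ∈ range n, ∑ v ∈ range u, f u v := by
  induction n with
  | zero => simp
  | succ n ih =>
    rw [sum_range_succ, sum_range_succ (fun u => f u u), sum_range_succ (fun u =>
      ∑ v ∈ range u, f u v)]
    simp only [sum_range_succ (fun v => f _ v), sum_add_distrib]
    rw [ih, sum_congr rfl fun u _ => hf u n]
    ring

theorem padicValNat_finsetProd {ι : Type*} {q : ℕ} [hq : Fact q.Prime] (s : Finset ι)
    (f : ι → ℕ) (h : ∀ i ∈ s, f i ≠ 0) :
    padicValNat q (∏ i ∈ s, f i) = ∑ i ∈ s, padicValNat q (f i) := by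
  classical
  induction s using Finset.induction_on with
  | empty => simp
  | insert a s ha ih =>
    rw [prod_insert ha, sum_insert ha, padicValNat.mul (h a (mem_insert_self _ _))
      (prod_ne_zero_iff.2 fun i hi => h i (mem_insert_of_mem hi)),
      ih fun i hi => h i (mem_insert_of_mem hi)]

/-- the valuation of a difference smaller than `q ^ 2` -/
theorem padicValNat_diff {q u v : ℕ} [hq : Fact q.Prime] (hv : v < u) (h : u < q ^ 2) :
    padicValNat q (u - v) = if v % q = u % q then 1 else 0 := by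
  have h1 : (q ∣ u - v) ↔ v % q = u % q := (Nat.modEq_iff_dvd' hv.le).symm
  split_ifs with h2
  · have h3 : q ∣ u - v := h1.2 h2
    have h4 : ¬ q ^ 2 ∣ u - v := fun h5 => by
      have := Nat.le_of_dvd (by omega) h5
      omega
    have h0 : u - v ≠ 0 := by omega
    have h5 : 1 ≤ padicValNat q (u - v) := one_le_padicValNat_of_dvd h0 h3
    have h6 : ¬ 2 ≤ padicValNat q (u - v) := fun h => h4 ((padicValNat_dvd_iff_le h0).2 h)
    omega
  · exact padicValNat.eq_zero_of_not_dvd fun h3 => h2 (h1.1 h3)

theorem ordc_sum {m q : ℕ} [hq : Fact q.Prime] (hL : 16 * m + 1 < q ^ 2) :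
    ∑ u ∈ range (16 * m + 2), pr m u * ordc q (16 * m + 1) (pr m) u =
      ∑ u ∈ range (16 * m + 2), pr m u ^ 2 + 2 * padicValNat q (VV m) := by
  have h1 : ∑ u ∈ range (16 * m + 2), pr m u * ordc q (16 * m + 1) (pr m) u =
      ∑ u ∈ range (16 * m + 2), ∑ v ∈ range (16 * m + 2),
        if v % q = u % q then pr m u * pr m v else 0 := by
    refine sum_congr rfl fun u _ => ?_
    rw [ordc, mul_sum, sum_filter]
  have h2 : padicValNat q (VV m) = ∑ u ∈ range (16 * m + 2), ∑ v ∈ range u,
      if v % q = u % q then pr m u * pr m v else 0 := by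
    unfold VV
    rw [padicValNat_finsetProd _ _ fun u _ => prod_ne_zero_iff.2 fun v hv =>
      pow_ne_zero _ (by have := mem_range.1 hv; omega)]
    refine sum_congr rfl fun u hu => ?_
    rw [padicValNat_finsetProd _ _ fun v hv =>
      pow_ne_zero _ (by have := mem_range.1 hv; omega)]
    refine sum_congr rfl fun v hv => ?_
    have h3 := mem_range.1 hu
    have h4 := mem_range.1 hv
    rw [padicValNat.pow, padicValNat_diff h4 (by omega)]
    split_ifs <;> simp
  rw [h1, sum_sym _ (fun u v => by
    by_cases h : v % q = u % q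
    · rw [if_pos h, if_pos h.symm, mul_comm]
    · rw [if_neg h, if_neg (fun h' => h h'.symm)]), h2]
  congr 1
  refine sum_congr rfl fun u _ => ?_
  rw [if_pos rfl, sq]

end VVQ

end Pool.Agent.OZ
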