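import Mathlib
import Pool.Agent.OZ.Defs
import Pool.Agent.OZ.PADQ
import Pool.Agent.OZ.SMLB
import Pool.Agent.OZ.GQ
import Pool.Agent.OZ.VVQ
import Pool.Agent.Z5.SmallPrimes
import Pool.Agent.Z5.PadicSum
import Pool.Agent.Z5.Prod

/-!
# One of `ζ(7), ζ(9), ζ(11), ζ(13)` is irrational: sum of the local bounds
-/

open Finset

namespace Pool.Agent.OZ

open Pool.Agent.Z5 (w evY dser xser hser lser co rho Hs zt tot VG SF lp)

theorem aria_kap_nonneg (m q : ℕ) : 0 ≤ kap m q := by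
  unfold kap
  split_ifs with h1 h2 h3 h4 h5
  · positivity
  · have h : (3 : ℝ) * q ≤ 28 * m + 3 := by exact_mod_cast h2
    have hm : (0 : ℝ) ≤ m := Nat.cast_nonneg m
    linarith
  · have h : (q : ℝ) ≤ 14 * m + 2 := by exact_mod_cast h3
    have hm : (0 : ℝ) ≤ m := Nat.cast_nonneg m
    linarith
  · have h : (q : ℝ) ≤ 15 * m + 2 := by exact_mod_cast h4
    have hm : (0 : ℝ) ≤ m := Nat.cast_nonneg m
    linarith
  · have h : (q : ℝ) ≤ 16 * m + 1 := by exact_mod_cast h5
    have hm : (0 : ℝ) ≤ m := Nat.cast_nonneg m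
    linarith
  · exact le_rfl

theorem aria_den_le (q : ℕ) [Fact q.Prime] (x : ℚ) (V : ℕ) (hV : x.den ≤ V) :
    VG q (-(V : ℤ)) x := by
  right
  have h1 : padicValRat q x = (padicValInt q x.num : ℤ) - (padicValNat q x.den : ℤ) :=
    padicValRat_def q x
  have h2 : padicValNat q x.den ≤ x.den :=
    (padicValNat_le_nat_log x.den).trans (Nat.log_le_self q x.den)
  omega

theorem aria_den_large (q : ℕ) [Fact q.Prime] (x : ℚ) (hV : x.den < q) : VG q 0 x := by
  right
  have h1 : padicValRat q x = (padicValInt q x.num : ℤ) - (padicValNat q x.den : ℤ) :=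
    padicValRat_def q x
  have h2 : padicValNat q x.den = 0 := by
    apply padicValNat.eq_zero_of_not_dvd
    intro h
    exact absurd (Nat.le_of_dvd x.den_pos h) (by omega)
  omega

/-- the logarithm of a linear function -/
theorem aria_log_le {m : ℕ} (hm : 1 ≤ m) : Real.log ((68 * m + 10 : ℕ) : ℝ) ≤ 8 * Real.log (m + 1) := by
  have h1 : 68 * m + 10 ≤ (m + 1) ^ 8 := by
    have h2 : 2 ≤ m + 1 := by omega
    have h3 : 2 ^ 7 ≤ (m + 1) ^ 7 := Nat.pow_le_pow_left h2 7
    calc 68 * m + 10 ≤ 2 ^ 7 * (m + 1) := by omega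
      _ ≤ (m + 1) ^ 7 * (m + 1) := Nat.mul_le_mul_right _ h3
      _ = (m + 1) ^ 8 := by ring
  have h2 : ((68 * m + 10 : ℕ) : ℝ) ≤ ((m : ℝ) + 1) ^ 8 := by exact_mod_cast h1
  have h3 : (0 : ℝ) < ((68 * m + 10 : ℕ) : ℝ) := by positivity
  calc Real.log ((68 * m + 10 : ℕ) : ℝ) ≤ Real.log (((m : ℝ) + 1) ^ 8) := Real.log_le_log h3 h2
    _ = 8 * Real.log (m + 1) := by rw [Real.log_pow]; norm_num

/-- the error term of a small prime -/
theorem aria_small {q m V : ℕ} [hq : Fact q.Prime] (hm : 1 ≤ m) (hqm : q ≤ 16 * m + 1)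
    {r : ℕ → ℚ} (hr : ∀ i ∈ Finset.Icc 1 10, VG q (-(V : ℤ)) (r i)) (hne : DQ m r ≠ 0) :
    (if q = 2 then 8 * (nn m : ℝ) * ((nn m : ℝ) - 1) * Real.log 2 else 0) -
      (padicValNat q (VV m) : ℝ) * Real.log q - (61120 + 1248 * V) * (m * Real.log (m + 1)) ≤
      4 * ((padicValRat q (DQ m r) : ℝ) * Real.log q) := by
  have hq1 : 1 < q := hq.out.one_lt
  set l := Nat.log q (68 * m + 10) with hl
  have hl1 : 68 * m + 10 < q ^ (l + 1) := Nat.lt_pow_succ_log_self hq1 _
  have hl2 : q ^ l ≤ 68 * m + 10 := Nat.pow_log_le_self q (by omega)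
  have hqR : (0 : ℝ) < q := by exact_mod_cast hq.out.pos
  have hlogq : 0 ≤ Real.log q := Real.log_natCast_nonneg q
  have hLm := aria_log_le hm
  have hlog1 : 0 ≤ Real.log ((m : ℝ) + 1) := Real.log_nonneg (by
    have : (0 : ℝ) ≤ m := Nat.cast_nonneg m
    linarith)
  have hll : (l : ℝ) * Real.log q ≤ 8 * Real.log (m + 1) := by
    refine le_trans ?_ hLm
    rw [← Real.log_pow]
    apply Real.log_le_log (by positivity)
    exact_mod_cast hl2
  have hlq : Real.log q ≤ 8 * Real.log (m + 1) := by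
    refine le_trans ?_ hLm
    apply Real.log_le_log hqR
    exact_mod_cast (by omega : q ≤ 68 * m + 10)
  have h1 := val_small hm hl1 hr hne
  have h2 := gq (q := q) hm (by omega : 16 * m + 1 < q ^ (l + 1))
  have h2' : (4 * (nn m : ℝ)) * (padicValNat q (BB m) : ℝ) ≤
      8 * (padicValNat q (SF (nn m)) : ℝ) + (padicValNat q (VV m) : ℝ) + 1400 * m * l := by
    exact_mod_cast h2
  have h1' : 2 * (padicValNat q (SF (nn m)) : ℝ) +
      (if q = 2 then 2 * (nn m : ℝ) * ((nn m : ℝ) - 1) else 0) -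
      nn m * ((padicValNat q (BB m) : ℝ) + 40 * l + V) ≤ (padicValRat q (DQ m r) : ℝ) := by
    generalize padicValNat q (SF (nn m)) = a at h1 ⊢
    generalize padicValNat q (BB m) = b at h1 ⊢
    generalize padicValRat q (DQ m r) = v at h1 ⊢
    have h3 : (((2 * (a : ℤ) + (if q = 2 then 2 * (nn m : ℤ) * (nn m - 1) else 0) -
      nn m * (b + 40 * l + V) : ℤ)) : ℝ) ≤ ((v : ℤ) : ℝ) := by
      exact_mod_cast h1
    push_cast at h3
    exact h3
  have hnn : (nn m : ℝ) ≤ 39 * m := by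
    have : nn m ≤ 39 * m := by unfold nn; omega
    exact_mod_cast this
  have hnn0 : (0 : ℝ) ≤ nn m := Nat.cast_nonneg _
  have hm0 : (0 : ℝ) ≤ m := Nat.cast_nonneg _
  have hV0 : (0 : ℝ) ≤ V := Nat.cast_nonneg _
  -- the inequality without logarithm
  have h5 : (if q = 2 then 8 * (nn m : ℝ) * ((nn m : ℝ) - 1) else 0) -
      (padicValNat q (VV m) : ℝ) - (1400 * m * l + 160 * nn m * l + 4 * nn m * V) ≤
      4 * (padicValRat q (DQ m r) : ℝ) := by
    split_ifs at h1' ⊢ with hq2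
    · linarith
    · linarith
  have h6 := mul_le_mul_of_nonneg_right h5 hlogq
  have h7 : (1400 * (m : ℝ) * l + 160 * nn m * l + 4 * nn m * V) * Real.log q ≤
      (61120 + 1248 * V) * (m * Real.log (m + 1)) := by
    have e1 : 1400 * (m : ℝ) * l * Real.log q ≤ 1400 * m * (8 * Real.log (m + 1)) := by
      calc 1400 * (m : ℝ) * l * Real.log q = 1400 * m * (l * Real.log q) := by ring
        _ ≤ 1400 * m * (8 * Real.log (m + 1)) := mul_le_mul_of_nonneg_left hll (by positivity)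
    have e2 : 160 * (nn m : ℝ) * l * Real.log q ≤ 160 * (39 * m) * (8 * Real.log (m + 1)) := by
      calc 160 * (nn m : ℝ) * l * Real.log q = 160 * nn m * (l * Real.log q) := by ring
        _ ≤ 160 * nn m * (8 * Real.log (m + 1)) := mul_le_mul_of_nonneg_left hll (by positivity)
        _ ≤ 160 * (39 * m) * (8 * Real.log (m + 1)) := by gcongr
    have e3 : 4 * (nn m : ℝ) * V * Real.log q ≤ 4 * (39 * m) * V * (8 * Real.log (m + 1)) := by
      calc 4 * (nn m : ℝ) * V * Real.log q ≤ 4 * nn m * V * (8 * Real.log (m + 1)) :=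
            mul_le_mul_of_nonneg_left hlq (by positivity)
        _ ≤ 4 * (39 * m) * V * (8 * Real.log (m + 1)) := by gcongr
    linarith
  have h8 : (if q = 2 then 8 * (nn m : ℝ) * ((nn m : ℝ) - 1) * Real.log 2 else 0) =
      (if q = 2 then 8 * (nn m : ℝ) * ((nn m : ℝ) - 1) else 0) * Real.log q := by
    split_ifs with hq2
    · rw [hq2]; norm_num
    · ring
  rw [h8]
  linarith

/-- ARIA -/
theorem padic_log (r : ℕ → ℚ) : ∃ (C : ℝ) (m0 : ℕ), ∀ m ≥ m0, DQ m r ≠ 0 →
    8 * (nn m : ℝ) * ((nn m : ℝ) - 1) * Real.log 2 - Real.log (VV m) -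
      ∑ q ∈ Finset.Icc 1 (16 * m + 1), kap m q * lp q -
      C * m * Real.sqrt m * Real.log (m + 1) ≤ 4 * Real.log |(DQ m r : ℝ)| := by
  set V : ℕ := ∑ i ∈ Finset.Icc 1 10, (r i).den with hV
  have hVi : ∀ i ∈ Finset.Icc 1 10, (r i).den ≤ V := fun i hi =>
    Finset.single_le_sum (f := fun i => (r i).den) (fun _ _ => Nat.zero_le _) hi
  refine ⟨5 * (61120 + 1248 * V), V ^ 2 + 1, ?_⟩
  intro m hm0 hne
  have hm : 1 ≤ m := by omega
  set S : Finset ℕ := (Finset.Icc 1 (16 * m + 1)).filter Nat.Prime with hS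
  have hSp : ∀ q ∈ S, q.Prime := fun q hq => (Finset.mem_filter.1 hq).2
  have hSle : ∀ q ∈ S, q ≤ 16 * m + 1 := fun q hq =>
    (Finset.mem_Icc.1 (Finset.mem_filter.1 hq).1).2
  -- `16 m + 1 < q ^ 2` implies `V < q`
  have hbig : ∀ q : ℕ, 16 * m + 1 < q ^ 2 → V < q := by
    intro q hq
    by_contra hcon
    push Not at hcon
    have := Nat.pow_le_pow_left hcon 2
    omega
  have h1 := Pool.Agent.Z5.log_abs_ge hne S hSp (fun q => -padicValRat q (DQ m r))
    (by
      intro q hq hqS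
      have : Fact q.Prime := ⟨hq⟩
      have hq16 : 16 * m + 1 < q := by
        by_contra hcon
        push Not at hcon
        exact hqS (Finset.mem_filter.2 ⟨Finset.mem_Icc.2 ⟨hq.pos, hcon⟩, hq⟩)
      apply val_ge_large hm hq16 _ hne
      intro i hi
      apply aria_den_large
      have h2 := hVi i hi
      have h3 := hbig q (lt_of_lt_of_le hq16 (Nat.le_self_pow (by norm_num) q))
      omega)
    (by
      intro q _
      simp)
  set E : ℝ := (61120 + 1248 * V) * (m * Real.log (m + 1)) with hE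
  have hlog1 : 0 ≤ Real.log ((m : ℝ) + 1) := Real.log_nonneg (by
    have : (0 : ℝ) ≤ m := Nat.cast_nonneg m
    linarith)
  have hE0 : 0 ≤ E := by positivity
  -- local bounds
  have hloc : ∀ q ∈ S, (if q = 2 then 8 * (nn m : ℝ) * ((nn m : ℝ) - 1) * Real.log 2 else 0) -
      (padicValNat q (VV m) : ℝ) * Real.log q - kap m q * Real.log q -
      (if q ^ 2 ≤ 16 * m + 1 then E else 0) ≤ 4 * ((padicValRat q (DQ m r) : ℝ) * Real.log q) := by
    intro q hq
    have hqp := hSp q hq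
    have : Fact q.Prime := ⟨hqp⟩
    have hlogq : 0 ≤ Real.log q := Real.log_natCast_nonneg q
    have hk : 0 ≤ kap m q * Real.log q := mul_nonneg (aria_kap_nonneg m q) hlogq
    by_cases hsm : q ^ 2 ≤ 16 * m + 1
    · rw [if_pos hsm]
      have h2 := aria_small (V := V) hm (hSle q hq) (fun i hi => aria_den_le q (r i) V (hVi i hi)) hne
      linarith
    · rw [if_neg hsm]
      push Not at hsm
      have hq2 : q ≠ 2 := by
        rintro rfl
        omega
      rw [if_neg hq2]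
      have h2 := val_ge hm hq2 hsm (r := r) (fun i hi => aria_den_large q (r i) (by
        have h2 := hVi i hi
        have h3 := hbig q hsm
        omega)) hne
      have h3 := mul_le_mul_of_nonneg_right h2 hlogq
      linarith
  have hsum := Finset.sum_le_sum hloc
  rw [Finset.sum_sub_distrib, Finset.sum_sub_distrib, Finset.sum_sub_distrib, ← Finset.mul_sum] at hsum
  -- the four sums
  have h2S : 2 ∈ S := Finset.mem_filter.2 ⟨Finset.mem_Icc.2 ⟨by norm_num, by omega⟩, Nat.prime_two⟩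
  have s1 : ∑ q ∈ S, (if q = 2 then 8 * (nn m : ℝ) * ((nn m : ℝ) - 1) * Real.log 2 else 0) =
      8 * (nn m : ℝ) * ((nn m : ℝ) - 1) * Real.log 2 := by
    rw [Finset.sum_ite_eq' S 2, if_pos h2S]
  have hlp : ∀ f : ℕ → ℝ, ∑ q ∈ S, f q * Real.log q = ∑ q ∈ Finset.Icc 1 (16 * m + 1), f q * lp q := by
    intro f
    rw [hS, Finset.sum_filter]
    refine Finset.sum_congr rfl fun q _ => ?_
    unfold Pool.Agent.Z5.lp
    split_ifs
    · rfl
    · rw [mul_zero]
  have s2 : ∑ q ∈ S, (padicValNat q (VV m) : ℝ) * Real.log q = Real.log (VV m) := by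
    rw [hlp (fun q => (padicValNat q (VV m) : ℝ)),
      Pool.Agent.Z5.log_eq_sum_lp (VV_pos m).ne' (fun q hq h => prime_dvd_VV hq h)]
    refine Finset.sum_congr ?_ fun _ _ => rfl
    ext q
    rw [Finset.mem_Icc, Finset.mem_Ioc]
    omega
  have s3 : ∑ q ∈ S, kap m q * Real.log q = ∑ q ∈ Finset.Icc 1 (16 * m + 1), kap m q * lp q :=
    hlp (fun q => kap m q)
  have s4 : ∑ q ∈ S, (if q ^ 2 ≤ 16 * m + 1 then E else 0) ≤ 5 * Real.sqrt m * E := by
    rw [← Finset.sum_filter, Finset.sum_const, nsmul_eq_mul]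
    apply mul_le_mul_of_nonneg_right _ hE0
    have hcard : (S.filter fun q => q ^ 2 ≤ 16 * m + 1).card ≤ Nat.sqrt (16 * m + 1) := by
      calc (S.filter fun q => q ^ 2 ≤ 16 * m + 1).card ≤ (Finset.Icc 1 (Nat.sqrt (16 * m + 1))).card := by
            refine Finset.card_le_card fun q hq => ?_
            rw [Finset.mem_filter] at hq
            rw [Finset.mem_Icc]
            refine ⟨(hSp q hq.1).pos, ?_⟩
            rw [Nat.le_sqrt']
            exact hq.2
        _ = Nat.sqrt (16 * m + 1) := by simp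
    have h3 : ((S.filter fun q => q ^ 2 ≤ 16 * m + 1).card : ℝ) ≤ (Nat.sqrt (16 * m + 1) : ℝ) := by
      exact_mod_cast hcard
    refine h3.trans ?_
    have h4 : (Nat.sqrt (16 * m + 1) : ℝ) ≤ Real.sqrt ((16 * m + 1 : ℕ) : ℝ) :=
      Real.nat_sqrt_le_real_sqrt
    refine h4.trans ?_
    have h5 : (5 : ℝ) * Real.sqrt m = Real.sqrt (25 * m) := by
      rw [Real.sqrt_mul (by norm_num), show (25 : ℝ) = 5 ^ 2 by norm_num, Real.sqrt_sq (by norm_num)]
    rw [h5]
    apply Real.sqrt_le_sqrt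
    push_cast
    have : (1 : ℝ) ≤ m := by exact_mod_cast hm
    linarith
  rw [s1, s2, s3] at hsum
  -- the left side of `h1`
  have s5 : -∑ q ∈ S, (((-padicValRat q (DQ m r) : ℤ)) : ℝ) * Real.log q =
      ∑ q ∈ S, (padicValRat q (DQ m r) : ℝ) * Real.log q := by
    rw [← Finset.sum_neg_distrib]
    refine Finset.sum_congr rfl fun q _ => ?_
    push_cast
    ring
  rw [s5] at h1
  have h9 : 5 * (61120 + 1248 * (V : ℝ)) * m * Real.sqrt m * Real.log (m + 1) = 5 * Real.sqrt m * E := by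
    rw [hE]; ring
  rw [h9]
  linarith

end Pool.Agent.OZ
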