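import Pool.Agent.OZ.LVA
import Pool.Agent.Z5.SF
import Pool.Agent.Z5.LogComb

/-! # Asymptotics of the logarithm of `VV` -/

open Finset

namespace Pool.Agent.OZ

open Pool.Agent.Z5 (log_factorial_ge log_factorial_le log_one_add_ge lcomb lcomb_le lcUp lcNz)

/-- the main term of `Lam` -/
noncomputable def lvbg (n : ℝ) : ℝ := n ^ 2 / 2 * Real.log n - 3 / 4 * n ^ 2

theorem lvb_step (n : ℕ) (hn : 1 ≤ n) :
    |Real.log (n.factorial : ℝ) - (lvbg (n + 1) - lvbg n)| ≤ 3 * (Real.log (n + 1) + 1) := by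
  have hn' : (0 : ℝ) < n := by exact_mod_cast hn
  have hn1 : (1 : ℝ) ≤ n := by exact_mod_cast hn
  have h1 := log_factorial_ge n hn
  have h2 := log_factorial_le n hn
  have e2 : Real.log (1 + 1 / (n : ℝ)) = Real.log ((n : ℝ) + 1) - Real.log n := by
    rw [← Real.log_div (by positivity) hn'.ne']
    congr 1
    field_simp
  have hlo := log_one_add_ge (x := 1 / (n : ℝ)) (by positivity)
  have hup := Real.log_le_sub_one_of_pos (x := 1 + 1 / (n : ℝ)) (by positivity)
  rw [e2] at hlo hup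
  have h3 : 1 / (n : ℝ) / (1 + 1 / (n : ℝ)) = 1 / ((n : ℝ) + 1) := by field_simp
  rw [h3] at hlo
  set a := Real.log ((n : ℝ) + 1) - Real.log n with ha
  have hlo' : (n : ℝ) ^ 2 / (n + 1) ≤ n ^ 2 * a := by
    have := mul_le_mul_of_nonneg_left hlo (by positivity : (0 : ℝ) ≤ (n : ℝ) ^ 2)
    calc (n : ℝ) ^ 2 / (n + 1) = (n : ℝ) ^ 2 * (1 / (n + 1)) := by ring
      _ ≤ _ := this
  have hlo2 : (n : ℝ) - 1 ≤ n ^ 2 * a := by
    refine le_trans ?_ hlo'
    rw [le_div_iff₀ (by positivity)]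
    nlinarith
  have hup2 : n ^ 2 * a ≤ (n : ℝ) := by
    have : n ^ 2 * a ≤ (n : ℝ) ^ 2 * (1 / n) := by
      apply mul_le_mul_of_nonneg_left _ (by positivity)
      linarith
    calc n ^ 2 * a ≤ (n : ℝ) ^ 2 * (1 / n) := this
      _ = n := by field_simp
  have hna : n * a ≤ 1 := by
    have : n * a ≤ (n : ℝ) * (1 / n) := by
      apply mul_le_mul_of_nonneg_left _ (by positivity)
      linarith
    calc n * a ≤ (n : ℝ) * (1 / n) := this
      _ = 1 := by field_simp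
  have ha0 : 0 ≤ a := le_trans (by positivity) hlo
  have hna0 : 0 ≤ n * a := by positivity
  have hln : Real.log (n : ℝ) = Real.log ((n : ℝ) + 1) - a := by rw [ha]; ring
  have hln0 : 0 ≤ Real.log (n : ℝ) := Real.log_nonneg hn1
  have hln1 : 0 ≤ Real.log ((n : ℝ) + 1) := Real.log_nonneg (by linarith)
  have hg : lvbg (n + 1) - lvbg n =
      (2 * n + 1) / 2 * Real.log ((n : ℝ) + 1) + n ^ 2 * a / 2 - 3 / 4 * (2 * n + 1) := by
    rw [lvbg, lvbg, ha]; ring
  rw [hg, abs_le]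
  constructor
  · nlinarith
  · nlinarith

theorem lvb_log_two : 0 < Real.log 2 := Real.log_pos (by norm_num)

theorem Lam_bound : ∃ C : ℝ, ∀ n : ℕ, 1 ≤ n →
    |Lam n - ((n : ℝ) ^ 2 / 2 * Real.log n - 3 / 4 * (n : ℝ) ^ 2)| ≤ C * n * Real.log (n + 1) := by
  have h1 : ∀ n : ℕ, 1 ≤ n → |Lam n - lvbg n| ≤ 3 * n * (Real.log (n + 1) + 1) := by
    intro n hn
    induction n, hn using Nat.le_induction with
    | base =>
      have h0 : Lam 1 = 0 := by simp [Lam]
      rw [h0]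
      simp only [lvbg, Nat.cast_one, Real.log_one, one_pow]
      have := lvb_log_two
      norm_num
      linarith
    | succ n hn ih =>
      have h2 := lvb_step n hn
      have h3 : Real.log ((n : ℝ) + 1) ≤ Real.log ((n : ℝ) + 1 + 1) :=
        Real.log_le_log (by positivity) (by linarith)
      have hn0 : (0 : ℝ) ≤ n := n.cast_nonneg
      rw [Lam_succ]
      push_cast
      calc |Lam n + Real.log (n.factorial : ℝ) - lvbg ((n : ℝ) + 1)|
          = |(Lam n - lvbg n) + (Real.log (n.factorial : ℝ) - (lvbg (n + 1) - lvbg n))| := by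
            congr 1; ring
        _ ≤ |Lam n - lvbg n| + |Real.log (n.factorial : ℝ) - (lvbg (n + 1) - lvbg n)| :=
            abs_add_le _ _
        _ ≤ 3 * n * (Real.log (n + 1) + 1) + 3 * (Real.log (n + 1) + 1) := add_le_add ih h2
        _ ≤ 3 * (n + 1) * (Real.log ((n : ℝ) + 1 + 1) + 1) := by nlinarith
  refine ⟨3 * (1 + 1 / Real.log 2), ?_⟩
  intro n hn
  refine (h1 n hn).trans ?_
  have h2 : Real.log 2 ≤ Real.log ((n : ℝ) + 1) := by
    apply Real.log_le_log (by norm_num)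
    have : (1 : ℝ) ≤ n := by exact_mod_cast hn
    linarith
  have h3 : 1 ≤ 1 / Real.log 2 * Real.log ((n : ℝ) + 1) := by
    rw [div_mul_eq_mul_div, one_mul, le_div_iff₀ lvb_log_two]
    linarith
  have hn0 : (0 : ℝ) ≤ n := n.cast_nonneg
  calc 3 * (n : ℝ) * (Real.log (n + 1) + 1) ≤
      3 * n * (Real.log (n + 1) + 1 / Real.log 2 * Real.log ((n : ℝ) + 1)) := by
        apply mul_le_mul_of_nonneg_left _ (by positivity)
        linarith
    _ = 3 * (1 + 1 / Real.log 2) * n * Real.log (n + 1) := by ring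

/-- logarithms of linear functions -/
theorem lvb_log_lin (a : ℕ) (ha : 1 ≤ a) : ∃ C : ℝ, 0 ≤ C ∧ ∀ m : ℕ, 1 ≤ m →
    Real.log ((a * m : ℕ) + 2 : ℝ) ≤ C * Real.log (m + 1) := by
  refine ⟨Real.log (a + 2) / Real.log 2 + 1, ?_, ?_⟩
  · have := lvb_log_two
    have h : 0 ≤ Real.log ((a : ℝ) + 2) := Real.log_nonneg (by
      have : (0 : ℝ) ≤ a := a.cast_nonneg
      linarith)
    positivity
  · intro m hm
    have hm1 : (1 : ℝ) ≤ m := by exact_mod_cast hm
    have ha1 : (1 : ℝ) ≤ a := by exact_mod_cast ha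
    have h1 : ((a * m : ℕ) : ℝ) + 2 ≤ (a + 2) * (m + 1) := by
      push_cast
      nlinarith
    have h2 : Real.log ((a * m : ℕ) + 2 : ℝ) ≤ Real.log ((a : ℝ) + 2) + Real.log ((m : ℝ) + 1) := by
      rw [← Real.log_mul (by positivity) (by positivity)]
      exact Real.log_le_log (by positivity) h1
    have h3 : Real.log 2 ≤ Real.log ((m : ℝ) + 1) := by
      apply Real.log_le_log (by norm_num)
      linarith
    have h4 : 0 ≤ Real.log ((a : ℝ) + 2) := Real.log_nonneg (by linarith)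
    have h5 : Real.log ((a : ℝ) + 2) ≤ Real.log (a + 2) / Real.log 2 * Real.log ((m : ℝ) + 1) := by
      rw [div_mul_eq_mul_div, le_div_iff₀ lvb_log_two]
      exact mul_le_mul_of_nonneg_left h3 h4
    rw [add_mul, one_mul]
    linarith

/-- the main term at `a m` -/
theorem lvb_lin (a : ℕ) (ha : 1 ≤ a) : ∃ C : ℝ, ∀ m : ℕ, 1 ≤ m →
    |Lam (a * m) - ((a : ℝ) ^ 2 / 2 * (m : ℝ) ^ 2 * Real.log m +
      ((a : ℝ) ^ 2 / 2 * Real.log a - 3 / 4 * (a : ℝ) ^ 2) * (m : ℝ) ^ 2)| ≤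
        C * m * Real.log (m + 1) ∧
    0 ≤ Lam (a * m + 2) - Lam (a * m) ∧ Lam (a * m + 2) - Lam (a * m) ≤
      C * m * Real.log (m + 1) := by
  obtain ⟨C1, hC1⟩ := Lam_bound
  obtain ⟨C2, hC20, hC2⟩ := lvb_log_lin a ha
  refine ⟨max (|C1| * a * C2) (2 * (a + 1) * C2), ?_⟩
  intro m hm
  have hm1 : (1 : ℝ) ≤ m := by exact_mod_cast hm
  have ha1 : (1 : ℝ) ≤ a := by exact_mod_cast ha
  have hl0 : 0 ≤ Real.log ((m : ℝ) + 1) := Real.log_nonneg (by linarith)
  have hmul : 1 ≤ a * m := Nat.mul_pos ha hm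
  have hmul' : (1 : ℝ) ≤ ((a * m : ℕ) : ℝ) := by exact_mod_cast hmul
  have hL := hC2 m hm
  have hmon : ∀ x : ℝ, 1 ≤ x → x ≤ ((a * m : ℕ) : ℝ) + 2 → Real.log x ≤ C2 * Real.log (m + 1) := by
    intro x hx hx2
    exact (Real.log_le_log (by linarith) hx2).trans hL
  refine ⟨?_, ?_, ?_⟩
  · have h1 := hC1 (a * m) hmul
    have h2 : ((a * m : ℕ) : ℝ) ^ 2 / 2 * Real.log ((a * m : ℕ) : ℝ) -
        3 / 4 * ((a * m : ℕ) : ℝ) ^ 2 = (a : ℝ) ^ 2 / 2 * (m : ℝ) ^ 2 * Real.log m +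
      ((a : ℝ) ^ 2 / 2 * Real.log a - 3 / 4 * (a : ℝ) ^ 2) * (m : ℝ) ^ 2 := by
      push_cast
      rw [Real.log_mul (by positivity) (by positivity)]
      ring
    rw [h2] at h1
    refine h1.trans ?_
    have h3 := hmon (((a * m : ℕ) : ℝ) + 1) (by linarith) (by linarith)
    have h4 : C1 * ((a * m : ℕ) : ℝ) * Real.log (((a * m : ℕ) : ℝ) + 1) ≤
        |C1| * ((a * m : ℕ) : ℝ) * (C2 * Real.log (m + 1)) := by
      have h5 : 0 ≤ Real.log (((a * m : ℕ) : ℝ) + 1) := Real.log_nonneg (by linarith)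
      apply mul_le_mul _ h3 h5 (by positivity)
      exact mul_le_mul_of_nonneg_right (le_abs_self C1) (by positivity)
    refine h4.trans ?_
    calc |C1| * ((a * m : ℕ) : ℝ) * (C2 * Real.log (m + 1)) =
        (|C1| * a * C2) * m * Real.log (m + 1) := by push_cast; ring
      _ ≤ _ := by
        apply mul_le_mul_of_nonneg_right _ hl0
        apply mul_le_mul_of_nonneg_right (le_max_left _ _) (by positivity)
  · rw [Lam_succ, Lam_succ]
    have h1 : 0 ≤ Real.log ((a * m).factorial : ℝ) :=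
      Real.log_nonneg (by exact_mod_cast Nat.factorial_pos _)
    have h2 : 0 ≤ Real.log ((a * m + 1).factorial : ℝ) :=
      Real.log_nonneg (by exact_mod_cast Nat.factorial_pos _)
    linarith
  · rw [Lam_succ, Lam_succ]
    have hfac : ∀ n : ℕ, 1 ≤ n → n ≤ a * m + 1 →
        Real.log (n.factorial : ℝ) ≤ (a + 1) * m * (C2 * Real.log (m + 1)) := by
      intro n hn hn2
      have hf : (n.factorial : ℝ) ≤ (n : ℝ) ^ n := by exact_mod_cast Nat.factorial_le_pow n
      have hn1 : (1 : ℝ) ≤ n := by exact_mod_cast hn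
      have h3 : Real.log (n.factorial : ℝ) ≤ n * Real.log n := by
        rw [← Real.log_pow]
        exact Real.log_le_log (by exact_mod_cast Nat.factorial_pos n) hf
      have hn2' : (n : ℝ) ≤ ((a * m : ℕ) : ℝ) + 1 := by exact_mod_cast hn2
      have h4 := hmon n hn1 (by linarith)
      refine h3.trans ?_
      apply mul_le_mul _ h4 (Real.log_nonneg hn1) (by positivity)
      push_cast at hn2'
      nlinarith
    have h3 := hfac (a * m) hmul (by omega)
    have h4 := hfac (a * m + 1) (by omega) le_rfl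
    have h5 : (2 * (a + 1) * C2) * m * Real.log (m + 1) ≤
        max (|C1| * a * C2) (2 * (a + 1) * C2) * m * Real.log (m + 1) := by
      apply mul_le_mul_of_nonneg_right _ hl0
      apply mul_le_mul_of_nonneg_right (le_max_right _ _) (by positivity)
    linarith

/-- list of the logarithms in the constant -/
def lvbL : List (ℤ × ℕ) := [(512, 16), (1800, 15), (3136, 14), (-32, 2), (2704, 13), (1152, 12)]

theorem lvbL_nz : lcNz lvbL = true := by decide +kernel

theorem lvbL_up : lcUp lvbL ≤ 6852858398430580736 := by decide +kernel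

theorem lvb_num : 512 * Real.log 16 + 1800 * Real.log 15 + 3136 * Real.log 14 -
    32 * Real.log 2 + 2704 * Real.log 13 + 1152 * Real.log 12 ≤ 24346.3 := by
  have h1 := lcomb_le lvbL lvbL_nz
  have h2 : (lcUp lvbL : ℝ) ≤ 6852858398430580736 := by exact_mod_cast lvbL_up
  have h3 : lcomb lvbL = 512 * Real.log 16 + 1800 * Real.log 15 + 3136 * Real.log 14 -
    32 * Real.log 2 + 2704 * Real.log 13 + 1152 * Real.log 12 := by
    simp only [lcomb, lvbL, List.map_cons, List.map_nil, List.sum_cons, List.sum_nil]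
    push_cast
    ring
  rw [h3] at h1
  norm_num at h1 h2 ⊢
  linarith

theorem log_VV_le : ∃ C : ℝ, ∀ m : ℕ, 1 ≤ m →
    Real.log (VV m) ≤ 9248 * (m : ℝ) ^ 2 * Real.log m + 10474.3 * (m : ℝ) ^ 2 +
      C * m * Real.log (m + 1) := by
  obtain ⟨C1, h1⟩ := lvb_lin 1 (by norm_num)
  obtain ⟨C2, h2⟩ := lvb_lin 2 (by norm_num)
  obtain ⟨C12, h12⟩ := lvb_lin 12 (by norm_num)
  obtain ⟨C13, h13⟩ := lvb_lin 13 (by norm_num)
  obtain ⟨C14, h14⟩ := lvb_lin 14 (by norm_num)
  obtain ⟨C15, h15⟩ := lvb_lin 15 (by norm_num)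
  obtain ⟨C16, h16⟩ := lvb_lin 16 (by norm_num)
  refine ⟨48 * C1 + 16 * C2 + 32 * C12 + 64 * C13 + 64 * C14 + 32 * C15 + 8 * C16, ?_⟩
  intro m hm
  rw [log_VV_eq hm]
  obtain ⟨a1, -, -⟩ := h1 m hm
  obtain ⟨a2, -, -⟩ := h2 m hm
  obtain ⟨a12, -, b12⟩ := h12 m hm
  obtain ⟨a13, -, b13⟩ := h13 m hm
  obtain ⟨a14, -, b14⟩ := h14 m hm
  obtain ⟨a15, -, b15⟩ := h15 m hm
  obtain ⟨a16, -, b16⟩ := h16 m hm
  rw [one_mul] at a1
  replace a1 := (abs_le.1 a1).1
  replace a2 := (abs_le.1 a2).1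
  replace a12 := (abs_le.1 a12).2
  replace a13 := (abs_le.1 a13).2
  replace a14 := (abs_le.1 a14).2
  replace a15 := (abs_le.1 a15).2
  replace a16 := (abs_le.1 a16).2
  push_cast at a1 a2 a12 a13 a14 a15 a16
  rw [Real.log_one] at a1
  set X := (m : ℝ) ^ 2 * Real.log m with hX
  set T := (m : ℝ) * Real.log (m + 1) with hT
  have hm2 : 0 ≤ (m : ℝ) ^ 2 := by positivity
  have hnum := mul_le_mul_of_nonneg_right lvb_num hm2
  set P := (m : ℝ) ^ 2 with hP
  have r1 : ∀ c : ℝ, c * m * Real.log (m + 1) = c * T := by intro c; rw [hT]; ring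
  have r2 : ∀ c : ℝ, c * P * Real.log m = c * X := by intro c; rw [hX]; ring
  simp only [r1, r2] at *
  nlinarith
end Pool.Agent.OZ
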