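import Mathlib
import Pool.Agent.OZ.Defs
import Pool.Agent.Z5.PrimeSums

/-!
# The sum of the local costs
-/

open Finset Filter Topology

namespace Pool.Agent.OZ

open Pool.Agent.Z5 (lp lp_nonneg)

theorem psum_ratio (d : ℕ → ℕ) (b K : ℝ) (h : ∀ m : ℕ, 1 ≤ m → |(d m : ℝ) - b * m| ≤ K) :
    Tendsto (fun m : ℕ => (d m : ℝ) / m) atTop (𝓝 b) := by
  have h1 : Tendsto (fun m : ℕ => K / (m : ℝ)) atTop (𝓝 0) :=
    tendsto_const_nhds.div_atTop tendsto_natCast_atTop_atTop
  have h2 : Tendsto (fun m : ℕ => (d m : ℝ) / m - b) atTop (𝓝 0) := by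
    refine squeeze_zero_norm' ?_ h1
    filter_upwards [eventually_ge_atTop 1] with m hm
    have hm0 : (0 : ℝ) < m := by exact_mod_cast hm
    have h3 : (d m : ℝ) / m - b = ((d m : ℝ) - b * m) / m := by
      field_simp
    rw [h3, norm_div, Real.norm_eq_abs, Real.norm_eq_abs, abs_of_pos hm0]
    exact div_le_div_of_nonneg_right (h m hm) hm0.le
  simpa using h2.add_const b

/-- `θ(N)` -/
noncomputable def psumf (N : ℕ) : ℝ := ∑ k ∈ Ioc 0 N, lp k

/-- `∑ p log p` -/
noncomputable def psumF (N : ℕ) : ℝ := ∑ k ∈ Ioc 0 N, (k : ℝ) * lp k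

theorem psumf_one : Tendsto (fun n : ℕ => psumf n / n) atTop (𝓝 1) := by
  have h := Pool.Agent.Z5.tendsto_theta_mul 1 zero_le_one
  refine h.congr fun n => ?_
  rw [one_mul, psumf]
  have h1 := Pool.Agent.Z5.sum_lp 0 (n : ℝ) (by positivity)
  rw [Nat.floor_zero, Nat.floor_natCast] at h1
  rw [h1]
  simp [Chebyshev.theta]

theorem psumF_one : Tendsto (fun n : ℕ => psumF n / (n : ℝ) ^ 2) atTop (𝓝 (1 / 2)) := by
  have h := Pool.Agent.Z5.tendsto_sum_primes_linear 0 1 1 0 le_rfl zero_le_one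
  have e : (1 : ℝ) * (1 ^ 2 - 0 ^ 2) / 2 + 0 * (1 - 0) = 1 / 2 := by norm_num
  rw [e] at h
  refine h.congr fun n => ?_
  rw [zero_mul, one_mul, Nat.floor_zero, Nat.floor_natCast, psumF]
  simp

theorem psumf_comp (d : ℕ → ℕ) (b K : ℝ) (h : ∀ m : ℕ, 1 ≤ m → |(d m : ℝ) - b * m| ≤ K)
    (hd : ∀ m, m ≤ d m) : Tendsto (fun m : ℕ => psumf (d m) / m) atTop (𝓝 b) := by
  have h1 : Tendsto d atTop atTop := tendsto_atTop_mono hd tendsto_id
  have h2 := (psumf_one.comp h1).mul (psum_ratio d b K h)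
  rw [one_mul] at h2
  refine h2.congr' ?_
  filter_upwards [eventually_ge_atTop 1] with m hm
  have hm0 : (0 : ℝ) < d m := by exact_mod_cast (hm.trans (hd m) : 1 ≤ d m)
  simp only [Function.comp]
  field_simp

theorem psumF_comp (d : ℕ → ℕ) (b K : ℝ) (h : ∀ m : ℕ, 1 ≤ m → |(d m : ℝ) - b * m| ≤ K)
    (hd : ∀ m, m ≤ d m) : Tendsto (fun m : ℕ => psumF (d m) / (m : ℝ) ^ 2) atTop (𝓝 (b ^ 2 / 2)) := by
  have h1 : Tendsto d atTop atTop := tendsto_atTop_mono hd tendsto_id
  have h2 := (psumF_one.comp h1).mul ((psum_ratio d b K h).pow 2)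
  have e : 1 / 2 * b ^ 2 = b ^ 2 / 2 := by ring
  rw [e] at h2
  refine h2.congr' ?_
  filter_upwards [eventually_ge_atTop 1] with m hm
  have hm0 : (0 : ℝ) < d m := by exact_mod_cast (hm.trans (hd m) : 1 ≤ d m)
  simp only [Function.comp]
  field_simp

theorem psum_inv : Tendsto (fun m : ℕ => (1 : ℝ) / m) atTop (𝓝 0) :=
  tendsto_const_nhds.div_atTop tendsto_natCast_atTop_atTop

/-- a linear piece starting at `0` -/
theorem psum_zero (d : ℕ → ℕ) (b K α β γ : ℝ) (h : ∀ m : ℕ, 1 ≤ m → |(d m : ℝ) - b * m| ≤ K)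
    (hd : ∀ m, m ≤ d m) :
    Tendsto (fun m : ℕ => (∑ q ∈ Ioc 0 (d m), (α * q + β * m + γ) * lp q) / (m : ℝ) ^ 2) atTop
      (𝓝 (α * b ^ 2 / 2 + β * b)) := by
  have h1 := (psumF_comp d b K h hd).const_mul α
  have h2 := (psumf_comp d b K h hd).const_mul β
  have h3 := ((psumf_comp d b K h hd).mul psum_inv).const_mul γ
  have h4 := (h1.add h2).add h3
  have e : α * (b ^ 2 / 2) + β * b + γ * (b * 0) = α * b ^ 2 / 2 + β * b := by ring
  rw [e] at h4
  refine h4.congr' ?_
  filter_upwards [eventually_ge_atTop 1] with m hm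
  have hm0 : (0 : ℝ) < m := by exact_mod_cast hm
  have e1 : ∑ q ∈ Ioc 0 (d m), (α * q + β * m + γ) * lp q =
      α * psumF (d m) + (β * m + γ) * psumf (d m) := by
    rw [psumF, psumf, Finset.mul_sum, Finset.mul_sum, ← Finset.sum_add_distrib]
    exact Finset.sum_congr rfl fun q _ => by ring
  rw [e1]
  field_simp
  ring

/-- a linear piece -/
theorem psum_piece (c d : ℕ → ℕ) (a b K α β γ : ℝ)
    (h : ∀ m : ℕ, 1 ≤ m → |(c m : ℝ) - a * m| ≤ K)
    (h' : ∀ m : ℕ, 1 ≤ m → |(d m : ℝ) - b * m| ≤ K)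
    (hc : ∀ m, m ≤ c m) (hd : ∀ m, m ≤ d m) (hcd : ∀ m, 1 ≤ m → c m ≤ d m) :
    Tendsto (fun m : ℕ => (∑ q ∈ Ioc (c m) (d m), (α * q + β * m + γ) * lp q) / (m : ℝ) ^ 2) atTop
      (𝓝 (α * (b ^ 2 - a ^ 2) / 2 + β * (b - a))) := by
  have h1 := (psum_zero d b K α β γ h' hd).sub (psum_zero c a K α β γ h hc)
  have e : α * b ^ 2 / 2 + β * b - (α * a ^ 2 / 2 + β * a) =
      α * (b ^ 2 - a ^ 2) / 2 + β * (b - a) := by ring
  rw [e] at h1
  refine h1.congr' ?_
  filter_upwards [eventually_ge_atTop 1] with m hm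
  rw [← sub_div, ← Finset.sum_Ioc_consecutive _ (Nat.zero_le (c m)) (hcd m hm), add_sub_cancel_left]

/-- the terms `1 / q` -/
theorem psum_harm : Tendsto (fun m : ℕ => (∑ q ∈ Ioc 0 (8 * m + 1),
    10 * ((16 * (m : ℝ) + 2) / q) * lp q) / (m : ℝ) ^ 2) atTop (𝓝 0) := by
  have h1 : Tendsto (fun m : ℕ => (Real.log ((8 * m + 1 : ℕ) : ℝ)) ^ 2 / ((8 * m + 1 : ℕ) : ℝ))
      atTop (𝓝 0) := by
    have h2 : Tendsto (fun x : ℝ => Real.log x ^ 2 / x) atTop (𝓝 0) :=
      (Real.isLittleO_pow_log_id_atTop (n := 2)).tendsto_div_nhds_zero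
    have h3 : Tendsto (fun m : ℕ => ((8 * m + 1 : ℕ) : ℝ)) atTop atTop := by
      refine tendsto_natCast_atTop_atTop.comp (tendsto_atTop_mono (fun m => ?_) tendsto_id)
      simp only [id]
      omega
    exact h2.comp h3
  have h2 : Tendsto (fun m : ℕ => (Real.log ((8 * m + 1 : ℕ) : ℝ)) / ((8 * m + 1 : ℕ) : ℝ))
      atTop (𝓝 0) := by
    have h2 : Tendsto (fun x : ℝ => Real.log x / x) atTop (𝓝 0) := by
      have := (Real.isLittleO_pow_log_id_atTop (n := 1)).tendsto_div_nhds_zero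
      simpa using this
    have h3 : Tendsto (fun m : ℕ => ((8 * m + 1 : ℕ) : ℝ)) atTop atTop := by
      refine tendsto_natCast_atTop_atTop.comp (tendsto_atTop_mono (fun m => ?_) tendsto_id)
      simp only [id]
      omega
    exact h2.comp h3
  have h3 := (h1.add h2).const_mul 1800
  rw [add_zero, mul_zero] at h3
  refine squeeze_zero' ?_ ?_ h3
  · refine Eventually.of_forall fun m => div_nonneg (Finset.sum_nonneg fun q _ => ?_) (by positivity)
    have := lp_nonneg q
    positivity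
  · filter_upwards [eventually_ge_atTop 1] with m hm
    have hm0 : (1 : ℝ) ≤ m := by exact_mod_cast hm
    set N : ℕ := 8 * m + 1 with hN
    have hN1 : (1 : ℝ) ≤ N := by rw [hN]; push_cast; linarith
    have hlN : 0 ≤ Real.log (N : ℝ) := Real.log_nonneg hN1
    have h4 : ∑ q ∈ Ioc 0 N, 10 * ((16 * (m : ℝ) + 2) / q) * lp q ≤
        10 * (16 * m + 2) * Real.log N * (1 + Real.log N) := by
      have h5 : ∑ q ∈ Ioc 0 N, (1 : ℝ) / q ≤ 1 + Real.log N := by
        have h6 := harmonic_le_one_add_log N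
        rw [harmonic_eq_sum_Icc] at h6
        push_cast at h6
        refine le_trans (le_of_eq ?_) h6
        refine Finset.sum_congr ?_ fun q _ => one_div _
        ext q
        simp only [Finset.mem_Ioc, Finset.mem_Icc]
        omega
      calc ∑ q ∈ Ioc 0 N, 10 * ((16 * (m : ℝ) + 2) / q) * lp q
          ≤ ∑ q ∈ Ioc 0 N, 10 * (16 * (m : ℝ) + 2) * Real.log N * (1 / q) := by
            refine Finset.sum_le_sum fun q hq => ?_
            have hq1 := (Finset.mem_Ioc.1 hq).1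
            have hq2 := (Finset.mem_Ioc.1 hq).2
            have hlp : lp q ≤ Real.log N := by
              unfold Pool.Agent.Z5.lp
              split_ifs with hp
              · exact Real.log_le_log (by exact_mod_cast hq1) (by exact_mod_cast hq2)
              · exact hlN
            have h7 : 0 ≤ 10 * ((16 * (m : ℝ) + 2) / q) := by positivity
            calc 10 * ((16 * (m : ℝ) + 2) / q) * lp q ≤ 10 * ((16 * (m : ℝ) + 2) / q) * Real.log N := by
                  gcongr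
              _ = _ := by ring
        _ = 10 * (16 * (m : ℝ) + 2) * Real.log N * ∑ q ∈ Ioc 0 N, (1 : ℝ) / q := by
            rw [Finset.mul_sum]
        _ ≤ _ := by gcongr
    rw [div_le_iff₀ (by positivity)]
    refine h4.trans ?_
    have h8 : (N : ℝ) = 8 * m + 1 := by rw [hN]; push_cast; ring
    have h9 : 10 * (16 * (m : ℝ) + 2) ≤ 1800 * (m : ℝ) ^ 2 / N := by
      rw [le_div_iff₀ (by linarith), h8]
      nlinarith
    calc 10 * (16 * (m : ℝ) + 2) * Real.log N * (1 + Real.log N)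
        = 10 * (16 * (m : ℝ) + 2) * (Real.log N * (1 + Real.log N)) := by ring
      _ ≤ 1800 * (m : ℝ) ^ 2 / N * (Real.log N * (1 + Real.log N)) := by gcongr
      _ = 1800 * (Real.log N ^ 2 / N + Real.log N / N) * (m : ℝ) ^ 2 := by
          field_simp
          ring

theorem kap_nonneg (m q : ℕ) : 0 ≤ kap m q := by
  unfold kap
  split_ifs with h1 h2 h3 h4 h5
  · positivity
  · have : (3 * q : ℝ) ≤ 28 * m + 3 := by exact_mod_cast h2
    linarith
  · have : (q : ℝ) ≤ 14 * m + 2 := by exact_mod_cast h3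
    have : (0 : ℝ) ≤ m := by positivity
    linarith
  · have : (q : ℝ) ≤ 15 * m + 2 := by exact_mod_cast h4
    have : (0 : ℝ) ≤ m := by positivity
    linarith
  · have : (q : ℝ) ≤ 16 * m + 1 := by exact_mod_cast h5
    have : (0 : ℝ) ≤ m := by positivity
    linarith
  · exact le_rfl

theorem tendsto_kap : Tendsto
    (fun m : ℕ => (∑ q ∈ Finset.Icc 1 (16 * m + 1), kap m q * lp q) / (m : ℝ) ^ 2) atTop
    (𝓝 (4 * (2640 + 1240 / 3 + 6949 / 9))) := by
  have hA := psum_zero (fun m => 8 * m + 1) 8 3 0 1320 210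
    (fun m hm => by push_cast; rw [abs_le]; constructor <;> linarith) (fun m => by omega)
  have hB := psum_piece (fun m => 8 * m + 1) (fun m => (28 * m + 3) / 3) 8 (28 / 3) 3 (-120) 2280 340
    (fun m hm => by push_cast; rw [abs_le]; constructor <;> linarith)
    (fun m hm => by
      have h1 : 3 * ((28 * m + 3) / 3) ≤ 28 * m + 3 := Nat.mul_div_le _ _
      have h2 : 28 * m + 3 < 3 * ((28 * m + 3) / 3) + 3 := by omega
      have h3 : (3 : ℝ) * (((28 * m + 3) / 3 : ℕ) : ℝ) ≤ 28 * m + 3 := by exact_mod_cast h1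
      have h4 : (28 : ℝ) * m + 3 < 3 * (((28 * m + 3) / 3 : ℕ) : ℝ) + 3 := by exact_mod_cast h2
      rw [abs_le]
      constructor <;> linarith)
    (fun m => by omega) (fun m => by omega) (fun m hm => by omega)
  have hC := psum_piece (fun m => (28 * m + 3) / 3) (fun m => 14 * m + 2) (28 / 3) 14 3 (-212) 3112 448
    (fun m hm => by
      have h1 : 3 * ((28 * m + 3) / 3) ≤ 28 * m + 3 := Nat.mul_div_le _ _
      have h2 : 28 * m + 3 < 3 * ((28 * m + 3) / 3) + 3 := by omega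
      have h3 : (3 : ℝ) * (((28 * m + 3) / 3 : ℕ) : ℝ) ≤ 28 * m + 3 := by exact_mod_cast h1
      have h4 : (28 : ℝ) * m + 3 < 3 * (((28 * m + 3) / 3 : ℕ) : ℝ) + 3 := by exact_mod_cast h2
      rw [abs_le]
      constructor <;> linarith)
    (fun m hm => by push_cast; rw [abs_le]; constructor <;> linarith)
    (fun m => by omega) (fun m => by omega) (fun m hm => by omega)
  have hD := psum_piece (fun m => 14 * m + 2) (fun m => 15 * m + 2) 14 15 3 (-108) 1656 240
    (fun m hm => by push_cast; rw [abs_le]; constructor <;> linarith)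
    (fun m hm => by push_cast; rw [abs_le]; constructor <;> linarith)
    (fun m => by omega) (fun m => by omega) (fun m hm => by omega)
  have hE := psum_piece (fun m => 15 * m + 2) (fun m => 16 * m + 1) 15 16 3 (-36) 576 96
    (fun m hm => by push_cast; rw [abs_le]; constructor <;> linarith)
    (fun m hm => by push_cast; rw [abs_le]; constructor <;> linarith)
    (fun m => by omega) (fun m => by omega) (fun m hm => by omega)
  have h := ((((hA.add psum_harm).add hB).add hC).add hD).add hE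
  have e : (4 : ℝ) * (2640 + 1240 / 3 + 6949 / 9) =
      (0 * 8 ^ 2 / 2 + 1320 * 8 + 0 + (-120 * ((28 / 3) ^ 2 - 8 ^ 2) / 2 + 2280 * (28 / 3 - 8)) +
        (-212 * (14 ^ 2 - (28 / 3) ^ 2) / 2 + 3112 * (14 - 28 / 3)) +
        (-108 * (15 ^ 2 - 14 ^ 2) / 2 + 1656 * (15 - 14)) +
        (-36 * (16 ^ 2 - 15 ^ 2) / 2 + 576 * (16 - 15))) := by norm_num
  rw [e]
  refine h.congr' ?_
  filter_upwards [eventually_ge_atTop 1] with m hm
  rw [← add_div, ← add_div, ← add_div, ← add_div, ← add_div]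
  congr 1
  have e0 : Finset.Icc 1 (16 * m + 1) = Ioc 0 (16 * m + 1) := by
    ext q
    simp only [Finset.mem_Ioc, Finset.mem_Icc]
    omega
  rw [e0, ← Finset.sum_Ioc_consecutive _ (Nat.zero_le (15 * m + 2)) (by omega : 15 * m + 2 ≤ 16 * m + 1),
    ← Finset.sum_Ioc_consecutive _ (Nat.zero_le (14 * m + 2)) (by omega : 14 * m + 2 ≤ 15 * m + 2),
    ← Finset.sum_Ioc_consecutive _ (Nat.zero_le ((28 * m + 3) / 3)) (by omega : (28 * m + 3) / 3 ≤ 14 * m + 2),
    ← Finset.sum_Ioc_consecutive _ (Nat.zero_le (8 * m + 1)) (by omega : 8 * m + 1 ≤ (28 * m + 3) / 3),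
    ← Finset.sum_add_distrib]
  have p1 : ∀ q ∈ Ioc 0 (8 * m + 1), (0 * (q : ℝ) + 1320 * m + 210) * lp q +
      10 * ((16 * (m : ℝ) + 2) / q) * lp q = kap m q * lp q := by
    intro q hq
    have hq2 := (Finset.mem_Ioc.1 hq).2
    rw [kap, if_pos hq2]
    ring
  have p2 : ∀ q ∈ Ioc (8 * m + 1) ((28 * m + 3) / 3), (-120 * (q : ℝ) + 2280 * m + 340) * lp q =
      kap m q * lp q := by
    intro q hq
    have hq1 := (Finset.mem_Ioc.1 hq).1
    have hq2 := (Finset.mem_Ioc.1 hq).2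
    rw [kap, if_neg (by omega), if_pos (by omega)]
    ring
  have p3 : ∀ q ∈ Ioc ((28 * m + 3) / 3) (14 * m + 2), (-212 * (q : ℝ) + 3112 * m + 448) * lp q =
      kap m q * lp q := by
    intro q hq
    have hq1 := (Finset.mem_Ioc.1 hq).1
    have hq2 := (Finset.mem_Ioc.1 hq).2
    rw [kap, if_neg (by omega), if_neg (by omega), if_pos (by omega)]
    ring
  have p4 : ∀ q ∈ Ioc (14 * m + 2) (15 * m + 2), (-108 * (q : ℝ) + 1656 * m + 240) * lp q =
      kap m q * lp q := by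
    intro q hq
    have hq1 := (Finset.mem_Ioc.1 hq).1
    have hq2 := (Finset.mem_Ioc.1 hq).2
    rw [kap, if_neg (by omega), if_neg (by omega), if_neg (by omega), if_pos (by omega)]
    ring
  have p5 : ∀ q ∈ Ioc (15 * m + 2) (16 * m + 1), (-36 * (q : ℝ) + 576 * m + 96) * lp q =
      kap m q * lp q := by
    intro q hq
    have hq1 := (Finset.mem_Ioc.1 hq).1
    have hq2 := (Finset.mem_Ioc.1 hq).2
    rw [kap, if_neg (by omega), if_neg (by omega), if_neg (by omega), if_neg (by omega),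
      if_pos (by omega)]
    ring
  rw [Finset.sum_congr rfl p1, Finset.sum_congr rfl p2, Finset.sum_congr rfl p3,
    Finset.sum_congr rfl p4, Finset.sum_congr rfl p5]

end Pool.Agent.OZ
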