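import Mathlib
import Pool.Agent.OZ.Defs
import Pool.Agent.OZ.PSUM
import Pool.Agent.OZ.ARIA
import Pool.Agent.OZ.LVB

/-!
# The arithmetic lower bound
-/

open Finset Filter Topology

namespace Pool.Agent.OZ

open Pool.Agent.Z5 (lp lp_nonneg)

theorem arib_sqrt : Tendsto (fun m : ℕ => Real.sqrt m * Real.log (m + 1) / m) atTop (𝓝 0) := by
  have h1 : Tendsto (fun x : ℝ => Real.log x / x ^ (1 / 2 : ℝ)) atTop (𝓝 0) :=
    (isLittleO_log_rpow_atTop (by norm_num : (0 : ℝ) < 1 / 2)).tendsto_div_nhds_zero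
  have h2 : Tendsto (fun m : ℕ => (m : ℝ) + 1) atTop atTop :=
    tendsto_natCast_atTop_atTop.atTop_add tendsto_const_nhds
  have h3 := (h1.comp h2).const_mul 2
  rw [mul_zero] at h3
  refine squeeze_zero' ?_ ?_ h3
  · refine Eventually.of_forall fun m => ?_
    have : 0 ≤ Real.log ((m : ℝ) + 1) := Real.log_nonneg (by linarith [(Nat.cast_nonneg m : (0 : ℝ) ≤ m)])
    positivity
  · filter_upwards [eventually_ge_atTop 1] with m hm
    have hm1 : (1 : ℝ) ≤ m := by exact_mod_cast hm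
    have hlog : 0 ≤ Real.log ((m : ℝ) + 1) := Real.log_nonneg (by linarith)
    simp only [Function.comp]
    rw [← Real.sqrt_eq_rpow]
    have hs : 0 < Real.sqrt m := Real.sqrt_pos.2 (by linarith)
    have hs1 : 0 < Real.sqrt ((m : ℝ) + 1) := Real.sqrt_pos.2 (by linarith)
    have e1 : Real.sqrt m * Real.log (m + 1) / m = Real.log (m + 1) / Real.sqrt m := by
      have : Real.sqrt m * Real.sqrt m = m := Real.mul_self_sqrt (by linarith)
      rw [div_eq_div_iff (by linarith) hs.ne']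
      linear_combination Real.log (m + 1) * this
    have e2 : Real.sqrt ((m : ℝ) + 1) ≤ 2 * Real.sqrt m := by
      rw [Real.sqrt_le_left (by positivity)]
      rw [mul_pow, Real.sq_sqrt (by linarith)]
      linarith
    rw [e1, ← mul_div_assoc, div_le_div_iff₀ hs hs1]
    nlinarith

/-- ARIB -/
theorem log_DQ_ge (r : ℕ → ℚ) : ∃ m0 : ℕ, ∀ m ≥ m0, DQ m r ≠ 0 →
    - 2312 * (m : ℝ) ^ 2 * Real.log m - 4845 * (m : ℝ) ^ 2 ≤ Real.log |(DQ m r : ℝ)| := by
  obtain ⟨C, m1, h1⟩ := padic_log r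
  obtain ⟨C', h2⟩ := log_VV_le
  have h3 := tendsto_kap
  have hk : ∀ᶠ m : ℕ in atTop, (∑ q ∈ Finset.Icc 1 (16 * m + 1), kap m q * lp q) / (m : ℝ) ^ 2 <
      15301.8 := h3.eventually_lt_const (by norm_num)
  have h4 : Tendsto (fun m : ℕ => (|C| + |C'|) * (Real.sqrt m * Real.log (m + 1) / m)) atTop
      (𝓝 0) := by
    have := arib_sqrt.const_mul (|C| + |C'|)
    rwa [mul_zero] at this
  have he := h4.eventually_lt_const (show (0 : ℝ) < 1 by norm_num)
  rw [← Filter.eventually_atTop]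
  filter_upwards [hk, he, eventually_ge_atTop m1, eventually_ge_atTop 1] with m hk he hm1 hm hne
  have hmR : (1 : ℝ) ≤ m := by exact_mod_cast hm
  have hm2 : (0 : ℝ) < (m : ℝ) ^ 2 := by positivity
  have a1 := h1 m hm1 hne
  have a2 := h2 m hm
  rw [div_lt_iff₀ hm2] at hk
  have hlog : 0 ≤ Real.log ((m : ℝ) + 1) := Real.log_nonneg (by linarith)
  have hs1 : 1 ≤ Real.sqrt m := by rw [Real.one_le_sqrt]; exact hmR
  have hl2 : 0.6931471803 ≤ Real.log 2 := Real.log_two_gt_d9.le
  -- the error terms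
  have b1 : (|C| + |C'|) * (Real.sqrt m * Real.log (m + 1)) * m ≤ (m : ℝ) ^ 2 := by
    rw [mul_div_assoc'] at he
    rw [div_lt_one (by linarith)] at he
    nlinarith
  have b2 : C * m * Real.sqrt m * Real.log (m + 1) + C' * m * Real.log (m + 1) ≤ (m : ℝ) ^ 2 := by
    refine le_trans ?_ b1
    have c1 : C * m * Real.sqrt m * Real.log (m + 1) ≤ |C| * m * Real.sqrt m * Real.log (m + 1) := by
      gcongr
      exact le_abs_self C
    have c2 : C' * m * Real.log (m + 1) ≤ |C'| * m * Real.sqrt m * Real.log (m + 1) := by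
      calc C' * m * Real.log (m + 1) ≤ |C'| * m * Real.log (m + 1) := by
            gcongr
            exact le_abs_self C'
        _ = |C'| * m * 1 * Real.log (m + 1) := by ring
        _ ≤ |C'| * m * Real.sqrt m * Real.log (m + 1) := by gcongr
    calc _ ≤ |C| * m * Real.sqrt m * Real.log (m + 1) + |C'| * m * Real.sqrt m * Real.log (m + 1) :=
          add_le_add c1 c2
      _ = _ := by ring
  -- the main term
  have b3 : 6410.2 * (m : ℝ) ^ 2 ≤ 8 * (nn m : ℝ) * ((nn m : ℝ) - 1) * Real.log 2 := by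
    have : (nn m : ℝ) = 34 * m + 5 := by rw [nn]; push_cast; ring
    rw [this]
    have c1 : 9248 * (m : ℝ) ^ 2 ≤ 8 * (34 * (m : ℝ) + 5) * (34 * m + 5 - 1) := by nlinarith
    nlinarith
  nlinarith

end Pool.Agent.OZ
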