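import Pool.Agent.OZ.AENA
import Pool.Agent.OZ.APOT
import Pool.Agent.OZ.AHCB
import Pool.Agent.OZ.AREP
import Pool.Agent.OZ.ACAU
import Pool.Agent.OZ.ANR
import Pool.Agent.OZ.ANL

/-! # Archimedean part, AROW: the rows -/

open Finset Polynomial

namespace Pool.Agent.OZ

open Pool.Agent.Zeta579 (IRK)

theorem arow_deg {m : ℕ} (hm : 1 ≤ m) (a : JJ m) : (PC m a).natDegree + 1 ≤ nn m := by
  have h1 := sum_mu hm
  rw [← Finset.add_sum_erase _ _ (Finset.mem_univ a.1)] at h1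
  have h2 : (a.2 : ℕ) < mu m a.1 := a.2.isLt
  have h3 : (PC m a).natDegree ≤ (a.2 : ℕ) + ∑ k ∈ univ.erase a.1, mu m k := by
    unfold PC hb
    refine natDegree_mul_le.trans (add_le_add ?_ ?_)
    · refine natDegree_pow_le.trans ?_
      rw [natDegree_X_sub_C, mul_one]
    · refine (natDegree_prod_le _ _).trans (Finset.sum_le_sum fun k _ => ?_)
      refine natDegree_pow_le.trans ?_
      rw [natDegree_X_sub_C, mul_one]
  omega

/-- pointwise bound -/
theorem arow_pt : ∃ C : ℝ, 0 < C ∧ ∀ m : ℕ, 1 ≤ m → ∀ (a b : JJ m) (z : ℂ) (x' y' : ℝ),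
    8 * (m : ℝ) + 1 ≤ z.re → |z.re - x'| ≤ 3 → |z.im - y'| ≤ 3 →
    ‖RC m (PC m a * PC m b) (z - (8 * m + 1 / 2))‖ ≤ Real.exp (2 * nn m * Real.log 4 +
      m * (2 * UC (x' / m) (y' / m) - VC (x' / m) (y' / m)) +
      C * Real.log (m + 1 + |z.re| + |z.im|)) := by
  obtain ⟨C1, h1, hC1⟩ := RC_le
  obtain ⟨C2, h2, hC2⟩ := pot_shift
  refine ⟨C1 + C2, by positivity, fun m hm a b z x' y' hz hx hy => ?_⟩
  refine (hC1 m hm a b z hz).trans (Real.exp_le_exp.mpr ?_)
  have hm1 : (1 : ℝ) ≤ m := by exact_mod_cast hm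
  have h3 := (abs_le.mp (hC2 m z.re x' z.im y' hm1 hx hy)).2
  have h4 : ‖z‖ ≤ |z.re| + |z.im| := Complex.norm_le_abs_re_add_abs_im z
  have h5 : Real.log (m + 1 + ‖z‖) ≤ Real.log (m + 1 + |z.re| + |z.im|) := by
    apply Real.log_le_log
    · positivity
    · linarith
  have h6 : C1 * Real.log (m + 1 + ‖z‖) ≤ C1 * Real.log (m + 1 + |z.re| + |z.im|) :=
    mul_le_mul_of_nonneg_left h5 h1.le
  rw [add_mul]
  linarith

theorem arow_lev {m : ℕ} (k : Ix m) : m * lev ≤ rowE m k := by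
  rcases k with k | k
  · exact mul_le_mul_of_nonneg_left (le_max_right _ _) (Nat.cast_nonneg m)
  · exact le_rfl

/-- the terms of the sum -/
theorem arow_term : ∃ C : ℝ, 0 < C ∧ ∀ m : ℕ, 1 ≤ m → ∀ (a b : JJ m) (t : ℕ), t < 6 * m →
    ‖iteratedDeriv 4 (RC m (PC m a * PC m b)) ((t : ℂ) + 1) / 24‖ ≤
      256 * Real.exp (2 * nn m * Real.log 4 + rowE m a.1 + C * Real.log (m + 1)) := by
  obtain ⟨C1, h1, hC1⟩ := arow_pt
  refine ⟨6 * C1, by positivity, fun m hm a b t ht => ?_⟩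
  have hm1 : (1 : ℝ) ≤ m := by exact_mod_cast hm
  have htm : (t : ℝ) + 1 ≤ 6 * m := by exact_mod_cast ht
  have ht0 : (0 : ℝ) ≤ t := Nat.cast_nonneg t
  -- general estimate
  have gen : ∀ x' : ℝ, |(t : ℝ) + 1 + 8 * m + 1 / 2 - x'| ≤ 2 →
      m * gC (x' / m) 0 ≤ rowE m a.1 →
      ‖iteratedDeriv 4 (RC m (PC m a * PC m b)) ((t : ℂ) + 1) / 24‖ ≤
      256 * Real.exp (2 * nn m * Real.log 4 + rowE m a.1 + 6 * C1 * Real.log (m + 1)) := by
    intro x' hx' hg
    refine cauchy4 _ fun z hz => ?_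
    have hre : |(z - ((t : ℂ) + 1)).re| ≤ 1 / 4 := (Complex.abs_re_le_norm _).trans hz.le
    have him : |(z - ((t : ℂ) + 1)).im| ≤ 1 / 4 := (Complex.abs_im_le_norm _).trans hz.le
    simp only [Complex.sub_re, Complex.add_re, Complex.natCast_re, Complex.one_re] at hre
    simp only [Complex.sub_im, Complex.add_im, Complex.natCast_im, Complex.one_im, add_zero,
      sub_zero] at him
    obtain ⟨hre1, hre2⟩ := abs_le.mp hre
    obtain ⟨him1, him2⟩ := abs_le.mp him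
    obtain ⟨hx1, hx2⟩ := abs_le.mp hx'
    have hz1 : (z + (8 * m + 1 / 2)).re = z.re + 8 * m + 1 / 2 := by
      simp
      ring
    have hz2 : (z + (8 * m + 1 / 2)).im = z.im := by
      simp
    have h2 := hC1 m hm a b (z + (8 * m + 1 / 2)) x' 0 (by rw [hz1]; linarith)
      (by rw [hz1, abs_le]; constructor <;> linarith)
      (by rw [hz2, abs_le]; constructor <;> linarith)
    rw [add_sub_cancel_right, hz1, hz2] at h2
    refine h2.trans (Real.exp_le_exp.mpr ?_)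
    have hlog : Real.log (m + 1 + |z.re + 8 * m + 1 / 2| + |z.im|) ≤ 6 * Real.log (m + 1) := by
      have h3 : m + 1 + |z.re + 8 * m + 1 / 2| + |z.im| ≤ ((m : ℝ) + 1) ^ 6 := by
        have h4 : |z.re + 8 * m + 1 / 2| ≤ 15 * m := by
          rw [abs_le]; constructor <;> linarith
        have h5 : (2 : ℝ) ^ 5 ≤ (m + 1) ^ 5 := pow_le_pow_left₀ (by norm_num) (by linarith) 5
        calc m + 1 + |z.re + 8 * m + 1 / 2| + |z.im| ≤ m + 1 + 15 * m + 1 / 4 := by gcongr
          _ ≤ (m + 1) * 2 ^ 5 := by norm_num; linarith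
          _ ≤ (m + 1) * (m + 1) ^ 5 := by gcongr
          _ = ((m : ℝ) + 1) ^ 6 := by ring
      calc Real.log (m + 1 + |z.re + 8 * m + 1 / 2| + |z.im|) ≤ Real.log (((m : ℝ) + 1) ^ 6) :=
            Real.log_le_log (by positivity) h3
        _ = 6 * Real.log (m + 1) := by rw [Real.log_pow]; norm_num
    have h6 : gC (x' / m) 0 = 2 * UC (x' / m) (0 / m) - VC (x' / m) (0 / m) := by
      unfold gC
      simp
    rw [← h6]
    have h7 : C1 * Real.log (m + 1 + |z.re + 8 * m + 1 / 2| + |z.im|) ≤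
        6 * C1 * Real.log (m + 1) := by
      calc C1 * Real.log (m + 1 + |z.re + 8 * m + 1 / 2| + |z.im|) ≤
          C1 * (6 * Real.log (m + 1)) := mul_le_mul_of_nonneg_left hlog h1.le
        _ = 6 * C1 * Real.log (m + 1) := by ring
    linarith
  by_cases h3 : t < 3 * m + 1
  · by_cases h4 : a.1 = Sum.inl ⟨t, h3⟩ ∧ b.1 = Sum.inl ⟨t, h3⟩
    · refine gen (8 * m + 3 / 2 + t) ?_ ?_
      · rw [abs_le]; constructor <;> linarith
      · rw [h4.1]
        exact mul_le_mul_of_nonneg_left (le_max_left _ _) (Nat.cast_nonneg m)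
    · have h5 := vanish a b ⟨t, h3⟩ h4
      simp only at h5
      rw [h5]
      simp
      positivity
  · push Not at h3
    have h3' : 3 * (m : ℝ) + 1 ≤ t := by exact_mod_cast h3
    refine gen (min ((t : ℝ) + 1 + 8 * m + 1 / 2) (14 * m)) ?_ ?_
    · rcases min_cases ((t : ℝ) + 1 + 8 * m + 1 / 2) (14 * m) with h | h
      · rw [h.1, sub_self]; norm_num
      · rw [h.1, abs_le]; constructor <;> linarith
    · refine le_trans (mul_le_mul_of_nonneg_left (gC_real ?_ ?_) (Nat.cast_nonneg m))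
        (arow_lev a.1)
      · rw [le_div_iff₀ (by linarith)]
        apply le_min <;> linarith
      · rw [div_le_iff₀ (by linarith)]
        exact min_le_right _ _

theorem arow_exp (C : ℝ) (hC : 0 < C) : ∃ K : ℝ, 0 < K ∧ ∀ (m : ℕ) (y : ℝ), 1 ≤ m →
    Real.exp (-max 0 (|y| - 25 * m)) * (m + 1 + |y|) ^ C ≤
      K * ((m : ℝ) + 1) ^ (C + 2) * (1 + y ^ 2)⁻¹ := by
  refine ⟨26 ^ (C + 2) * (Real.exp 1 * (C + 2) ^ (C + 2)), by positivity, fun m y hm => ?_⟩
  have hm1 : (1 : ℝ) ≤ m := by exact_mod_cast hm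
  obtain ⟨u, hu⟩ : ∃ u : ℝ, u = max 0 (|y| - 25 * m) := ⟨_, rfl⟩
  have hu0 : 0 ≤ u := by rw [hu]; exact le_max_left _ _
  have hyu : |y| ≤ 25 * m + u := by
    have : |y| - 25 * m ≤ u := by rw [hu]; exact le_max_right _ _
    linarith
  have hy0 : 0 ≤ |y| := abs_nonneg y
  have h1 : m + 1 + |y| ≤ 26 * (m + 1) * (1 + u) := by nlinarith
  have h2 : 1 + y ^ 2 ≤ (26 * (m + 1) * (1 + u)) ^ (2 : ℝ) := by
    rw [Real.rpow_two]
    have h3 : 1 + |y| ≤ 26 * (m + 1) * (1 + u) := by nlinarith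
    calc 1 + y ^ 2 = 1 + |y| ^ 2 := by rw [sq_abs]
      _ ≤ (1 + |y|) ^ 2 := by nlinarith
      _ ≤ (26 * (m + 1) * (1 + u)) ^ 2 := pow_le_pow_left₀ (by positivity) h3 2
  have h3 : (m + 1 + |y|) ^ C ≤ (26 * (m + 1) * (1 + u)) ^ C :=
    Real.rpow_le_rpow (by positivity) h1 hC.le
  have h4 : (1 + u) ^ (C + 2) ≤ Real.exp 1 * (C + 2) ^ (C + 2) * Real.exp u := by
    have h5 : (1 + u) / (C + 2) ≤ Real.exp ((1 + u) / (C + 2)) := by
      have := Real.add_one_le_exp ((1 + u) / (C + 2))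
      linarith
    have h6 : ((1 + u) / (C + 2)) ^ (C + 2) ≤ Real.exp (1 + u) := by
      calc ((1 + u) / (C + 2)) ^ (C + 2) ≤ (Real.exp ((1 + u) / (C + 2))) ^ (C + 2) :=
            Real.rpow_le_rpow (by positivity) h5 (by linarith)
        _ = Real.exp (1 + u) := by
            rw [← Real.exp_mul]
            congr 1
            field_simp
    rw [Real.div_rpow (by linarith) (by linarith), div_le_iff₀ (by positivity)] at h6
    calc (1 + u) ^ (C + 2) ≤ Real.exp (1 + u) * (C + 2) ^ (C + 2) := h6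
      _ = Real.exp 1 * (C + 2) ^ (C + 2) * Real.exp u := by rw [Real.exp_add]; ring
  rw [← hu, ← div_eq_mul_inv, le_div_iff₀ (by positivity)]
  calc Real.exp (-u) * (m + 1 + |y|) ^ C * (1 + y ^ 2)
      ≤ Real.exp (-u) * (26 * (m + 1) * (1 + u)) ^ C * (26 * (m + 1) * (1 + u)) ^ (2 : ℝ) := by
        gcongr
    _ = Real.exp (-u) * (26 * (m + 1) * (1 + u)) ^ (C + 2) := by
        rw [mul_assoc, ← Real.rpow_add (by positivity)]
    _ = Real.exp (-u) * (26 ^ (C + 2) * ((m : ℝ) + 1) ^ (C + 2) * (1 + u) ^ (C + 2)) := by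
        rw [Real.mul_rpow (by positivity) (by positivity), Real.mul_rpow (by norm_num) (by positivity)]
    _ ≤ Real.exp (-u) * (26 ^ (C + 2) * ((m : ℝ) + 1) ^ (C + 2) *
        (Real.exp 1 * (C + 2) ^ (C + 2) * Real.exp u)) := by
        gcongr
    _ = 26 ^ (C + 2) * (Real.exp 1 * (C + 2) ^ (C + 2)) * ((m : ℝ) + 1) ^ (C + 2) *
        (Real.exp (-u) * Real.exp u) := by ring
    _ = 26 ^ (C + 2) * (Real.exp 1 * (C + 2) ^ (C + 2)) * ((m : ℝ) + 1) ^ (C + 2) := by
        rw [← Real.exp_add]; simp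

/-- the integral -/
theorem arow_int : ∃ C K : ℝ, 0 < C ∧ 0 < K ∧ ∀ m : ℕ, 1 ≤ m → ∀ (a b : JJ m),
    ‖IRK 4 (RC m (PC m a * PC m b)) ((6 * m : ℕ) : ℤ)‖ ≤
      K * ((m : ℝ) + 1) ^ C * Real.exp (2 * nn m * Real.log 4 + rowE m a.1) := by
  obtain ⟨C1, h1, hC1⟩ := arow_pt
  obtain ⟨B, hB0, hB⟩ := Pool.Agent.Zeta579.norm_IRK_le 3
  obtain ⟨K, hK0, hK⟩ := arow_exp C1 h1
  refine ⟨C1 + 2, (B + 1) * (15 ^ C1 * K * Real.pi), by positivity, by positivity,
    fun m hm a b => ?_⟩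
  have hm1 : (1 : ℝ) ≤ m := by exact_mod_cast hm
  obtain ⟨A, hA⟩ : ∃ A : ℝ, A = Real.exp (2 * nn m * Real.log 4 + rowE m a.1) := ⟨_, rfl⟩
  have hA0 : 0 < A := by rw [hA]; positivity
  have hint : MeasureTheory.Integrable (fun y : ℝ => (1 + y ^ 2)⁻¹) := integrable_inv_one_add_sq
  have h2 := hB (RC m (PC m a * PC m b)) ((6 * m : ℕ) : ℤ)
    (fun y => (A * (15 ^ C1 * K * ((m : ℝ) + 1) ^ (C1 + 2))) * (1 + y ^ 2)⁻¹)
    (hint.const_mul _) (by
      intro y
      have hz : (((6 * m : ℕ) : ℤ) : ℂ) + 1 / 2 + y * Complex.I =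
          (14 * m + 1 + y * Complex.I) - (8 * m + 1 / 2) := by
        push_cast; ring
      have hz1 : ((14 * m + 1 + y * Complex.I : ℂ)).re = 14 * m + 1 := by simp
      have hz2 : ((14 * m + 1 + y * Complex.I : ℂ)).im = y := by simp
      have h3 := hC1 m hm a b (14 * m + 1 + y * Complex.I) (14 * m) y
        (by rw [hz1]; linarith) (by rw [hz1]; norm_num) (by rw [hz2]; simp)
      rw [hz1, hz2] at h3
      rw [hz]
      have h14 : (14 * (m : ℝ)) / m = 14 := by field_simp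
      rw [h14] at h3
      have hgl := gC_line (y / m)
      have hgl2 : m * (2 * UC 14 (y / m) - VC 14 (y / m)) - 2 * Real.pi * |y| ≤
          rowE m a.1 - max 0 (|y| - 25 * m) := by
        have e1 : m * gC 14 (y / m) = m * (2 * UC 14 (y / m) - VC 14 (y / m)) -
            2 * Real.pi * |y| := by
          unfold gC
          rw [abs_div, abs_of_pos (by linarith : (0 : ℝ) < m)]
          field_simp
        have e2 : m * max 0 (|y / m| - 25) = max 0 (|y| - 25 * m) := by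
          rw [mul_max_of_nonneg _ _ (by linarith : (0 : ℝ) ≤ m), mul_zero, mul_sub, abs_div,
            abs_of_pos (by linarith : (0 : ℝ) < m)]
          congr 1
          field_simp
        have e3 : m * gC 14 (y / m) ≤ m * (lev - max 0 (|y / m| - 25)) :=
          mul_le_mul_of_nonneg_left hgl (by linarith)
        rw [mul_sub, e1, e2] at e3
        have e4 := arow_lev (m := m) a.1
        linarith
      have hlog : C1 * Real.log (m + 1 + |14 * (m : ℝ) + 1| + |y|) ≤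
          C1 * Real.log (15 * (m + 1 + |y|)) := by
        refine mul_le_mul_of_nonneg_left (Real.log_le_log (by positivity) ?_) h1.le
        rw [abs_of_pos (by linarith : (0 : ℝ) < 14 * m + 1)]
        have := abs_nonneg y
        linarith
      have hpow : Real.exp (C1 * Real.log (15 * (m + 1 + |y|))) =
          15 ^ C1 * (m + 1 + |y|) ^ C1 := by
        rw [← Real.mul_rpow (by norm_num) (by positivity),
          Real.rpow_def_of_pos (by positivity), mul_comm]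
      calc ‖RC m (PC m a * PC m b) (14 * m + 1 + y * Complex.I - (8 * m + 1 / 2))‖ *
            Real.exp (-(2 * Real.pi * |y|))
          ≤ Real.exp (2 * nn m * Real.log 4 + m * (2 * UC 14 (y / m) - VC 14 (y / m)) +
              C1 * Real.log (m + 1 + |14 * (m : ℝ) + 1| + |y|)) *
            Real.exp (-(2 * Real.pi * |y|)) := by gcongr
        _ = Real.exp (2 * nn m * Real.log 4 + (m * (2 * UC 14 (y / m) - VC 14 (y / m)) -
              2 * Real.pi * |y|) + C1 * Real.log (m + 1 + |14 * (m : ℝ) + 1| + |y|)) := by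
            rw [← Real.exp_add]; congr 1; ring
        _ ≤ Real.exp (2 * nn m * Real.log 4 + (rowE m a.1 - max 0 (|y| - 25 * m)) +
              C1 * Real.log (15 * (m + 1 + |y|))) := by
            apply Real.exp_le_exp.mpr
            linarith
        _ = A * (15 ^ C1 * (Real.exp (-max 0 (|y| - 25 * m)) * (m + 1 + |y|) ^ C1)) := by
            rw [Real.exp_add, hpow, hA, show 2 * (nn m : ℝ) * Real.log 4 +
              (rowE m a.1 - max 0 (|y| - 25 * m)) = (2 * nn m * Real.log 4 + rowE m a.1) +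
              (-max 0 (|y| - 25 * m)) by ring, Real.exp_add]
            ring
        _ ≤ A * (15 ^ C1 * (K * ((m : ℝ) + 1) ^ (C1 + 2) * (1 + y ^ 2)⁻¹)) := by
            have := hK m y hm
            gcongr
        _ = (A * (15 ^ C1 * K * ((m : ℝ) + 1) ^ (C1 + 2))) * (1 + y ^ 2)⁻¹ := by ring)
  rw [MeasureTheory.integral_const_mul, integral_univ_inv_one_add_sq] at h2
  refine h2.trans ?_
  rw [← hA]
  calc B * (A * (15 ^ C1 * K * ((m : ℝ) + 1) ^ (C1 + 2)) * Real.pi)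
      ≤ (B + 1) * (A * (15 ^ C1 * K * ((m : ℝ) + 1) ^ (C1 + 2)) * Real.pi) := by
        gcongr
        linarith
    _ = (B + 1) * (15 ^ C1 * K * Real.pi) * ((m : ℝ) + 1) ^ (C1 + 2) * A := by ring

theorem row_le : ∃ (C : ℝ) (m0 : ℕ), ∀ m ≥ m0, ∀ a b : JJ m,
    ‖F4C m (PC m a * PC m b)‖ ≤
      Real.exp (2 * nn m * Real.log 4 + rowE m a.1 + C * Real.log (m + 1)) := by
  obtain ⟨C1, h1, hC1⟩ := arow_term
  obtain ⟨C2, K, h2, hK, hC2⟩ := arow_int
  -- constants
  obtain ⟨D, hD⟩ : ∃ D : ℝ, D = C1 + C2 + 1 := ⟨_, rfl⟩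
  obtain ⟨E, hE⟩ : ∃ E : ℕ, 1536 + K ≤ 2 ^ E := by
    obtain ⟨E, hE⟩ := pow_unbounded_of_one_lt (1536 + K) (by norm_num : (1 : ℝ) < 2)
    exact ⟨E, hE.le⟩
  refine ⟨D + E, 1, fun m hm a b => ?_⟩
  have hm1 : (1 : ℝ) ≤ m := by exact_mod_cast hm
  have hdeg : 2 * (PC m a * PC m b).natDegree + 3 ≤ 136 * m + 20 := by
    have h3 := arow_deg hm a
    have h4 := arow_deg hm b
    have h5 := natDegree_mul_le (p := PC m a) (q := PC m b)
    unfold nn at h3 h4
    omega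
  rw [rep hm _ hdeg]
  obtain ⟨A, hA⟩ : ∃ A : ℝ, A = Real.exp (2 * nn m * Real.log 4 + rowE m a.1) := ⟨_, rfl⟩
  have hA0 : 0 < A := by rw [hA]; positivity
  have hrp : ∀ C : ℝ, Real.exp (C * Real.log (m + 1)) = ((m : ℝ) + 1) ^ C := by
    intro C
    rw [Real.rpow_def_of_pos (by positivity), mul_comm]
  have hs : ‖∑ t ∈ range (6 * m), iteratedDeriv 4 (RC m (PC m a * PC m b)) ((t : ℂ) + 1) / 24‖ ≤
      (6 * m) * (256 * (A * ((m : ℝ) + 1) ^ C1)) := by
    refine (norm_sum_le _ _).trans ?_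
    calc ∑ t ∈ range (6 * m), ‖iteratedDeriv 4 (RC m (PC m a * PC m b)) ((t : ℂ) + 1) / 24‖
        ≤ ∑ t ∈ range (6 * m), 256 * (A * ((m : ℝ) + 1) ^ C1) := by
          refine Finset.sum_le_sum fun t ht => ?_
          have := hC1 m hm a b t (Finset.mem_range.mp ht)
          rw [Real.exp_add, hrp, ← hA] at this
          exact this
      _ = (6 * m) * (256 * (A * ((m : ℝ) + 1) ^ C1)) := by
          rw [Finset.sum_const, Finset.card_range, nsmul_eq_mul]
          push_cast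
          ring
  have hi : ‖IRK 4 (RC m (PC m a * PC m b)) ((6 * m : ℕ) : ℤ) / (2 * Real.pi)‖ ≤
      K * ((m : ℝ) + 1) ^ C2 * A := by
    rw [norm_div]
    have hpi : ‖(2 * (Real.pi : ℂ))‖ = 2 * Real.pi := by
      rw [norm_mul, Complex.norm_real, Real.norm_of_nonneg Real.pi_pos.le]
      norm_num
    rw [hpi]
    have h3 := hC2 m hm a b
    rw [← hA] at h3
    refine (div_le_self (norm_nonneg _) ?_).trans h3
    have := Real.pi_gt_three
    linarith
  have hexpand : Real.exp (2 * nn m * Real.log 4 + rowE m a.1 + (D + E) * Real.log (m + 1)) =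
      A * (((m : ℝ) + 1) ^ D * ((m : ℝ) + 1) ^ (E : ℝ)) := by
    rw [Real.exp_add, hrp, Real.rpow_add (by positivity), hA]
  rw [hexpand]
  have hp1 : ((m : ℝ) + 1) ^ C1 * (m + 1) ≤ ((m : ℝ) + 1) ^ D := by
    calc ((m : ℝ) + 1) ^ C1 * (m + 1) = ((m : ℝ) + 1) ^ (C1 + 1) := by
          rw [Real.rpow_add (by positivity), Real.rpow_one]
      _ ≤ ((m : ℝ) + 1) ^ D := by
          apply Real.rpow_le_rpow_of_exponent_le (by linarith)
          rw [hD]; linarith
  have hp2 : ((m : ℝ) + 1) ^ C2 ≤ ((m : ℝ) + 1) ^ D := by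
    apply Real.rpow_le_rpow_of_exponent_le (by linarith)
    rw [hD]; linarith
  have hp3 : 1536 + K ≤ ((m : ℝ) + 1) ^ (E : ℝ) := by
    rw [Real.rpow_natCast]
    refine hE.trans (pow_le_pow_left₀ (by norm_num) (by linarith) E)
  have hD0 : 0 < ((m : ℝ) + 1) ^ D := by positivity
  have hC10 : 0 < ((m : ℝ) + 1) ^ C1 := by positivity
  calc ‖∑ t ∈ range (6 * m), iteratedDeriv 4 (RC m (PC m a * PC m b)) ((t : ℂ) + 1) / 24 -
        IRK 4 (RC m (PC m a * PC m b)) ((6 * m : ℕ) : ℤ) / (2 * Real.pi)‖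
      ≤ (6 * m) * (256 * (A * ((m : ℝ) + 1) ^ C1)) + K * ((m : ℝ) + 1) ^ C2 * A :=
        (norm_sub_le _ _).trans (add_le_add hs hi)
    _ ≤ 1536 * (A * (((m : ℝ) + 1) ^ C1 * (m + 1))) + K * ((m : ℝ) + 1) ^ C2 * A := by
        have : (6 * m) * (256 * (A * ((m : ℝ) + 1) ^ C1)) =
          1536 * (A * (((m : ℝ) + 1) ^ C1 * m)) := by ring
        rw [this]
        gcongr
        linarith
    _ ≤ 1536 * (A * ((m : ℝ) + 1) ^ D) + K * ((m : ℝ) + 1) ^ D * A := by gcongr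
    _ = A * (((m : ℝ) + 1) ^ D * (1536 + K)) := by ring
    _ ≤ A * (((m : ℝ) + 1) ^ D * ((m : ℝ) + 1) ^ (E : ℝ)) := by gcongr

end Pool.Agent.OZ
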