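import Pool.Agent.OZ.CDefs

/-!
# Enclosures of the arctangent
-/

open Finset

namespace Pool.Agent.OZ

open Pool.Agent.Z5 (logLo logHi)

theorem piLo_le : (piLo : ℝ) ≤ Real.pi * 2 ^ 48 := by
  have h := Real.pi_gt_d20
  have e : (piLo : ℝ) = 884279719003555 := by
    simp only [piLo]
    norm_num
  rw [e]
  nlinarith

theorem le_piHi : Real.pi * 2 ^ 48 ≤ (piHi : ℝ) := by
  have h := Real.pi_lt_d20
  have e : (piHi : ℝ) = 884279719003556 := by
    simp only [piHi]
    norm_num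
  rw [e]
  nlinarith

/-- the finite sums of the series of the arctangent -/
noncomputable def carcS (n : ℕ) (x : ℝ) : ℝ :=
  ∑ k ∈ range n, (-1) ^ k * x ^ (2 * k + 1) / (2 * k + 1)

theorem carc_hasDerivAt (n : ℕ) (x : ℝ) :
    HasDerivAt (fun y => Real.arctan y - carcS n y) ((-x ^ 2) ^ n / (1 + x ^ 2)) x := by
  have h1 : ∀ k ∈ range n, HasDerivAt (fun y : ℝ => (-1) ^ k * y ^ (2 * k + 1) / (2 * (k : ℝ) + 1))
      ((-x ^ 2) ^ k) x := by
    intro k _
    have h2 := (((hasDerivAt_pow (2 * k + 1) x).const_mul ((-1 : ℝ) ^ k)).div_const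
      (2 * (k : ℝ) + 1))
    refine h2.congr_deriv ?_
    have h3 : (2 * (k : ℝ) + 1) ≠ 0 := by positivity
    rw [div_eq_iff h3]
    push_cast
    rw [pow_mul, neg_pow]
    ring
  have h2 := HasDerivAt.fun_sum h1
  have h3 := (Real.hasDerivAt_arctan x).sub h2
  refine h3.congr_deriv ?_
  have h4 := geom_sum_mul (-x ^ 2) n
  have h5 : (1 + x ^ 2) ≠ 0 := by positivity
  field_simp
  linear_combination h4

theorem carc_zero (n : ℕ) : Real.arctan 0 - carcS n 0 = 0 := by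
  have : carcS n 0 = 0 := by
    unfold carcS
    refine Finset.sum_eq_zero fun k _ => ?_
    simp
  rw [this, Real.arctan_zero, sub_zero]

theorem carc_even (n : ℕ) (hn : Even n) {x : ℝ} (hx : 0 ≤ x) : carcS n x ≤ Real.arctan x := by
  have hmono : Monotone (fun y => Real.arctan y - carcS n y) := by
    apply monotone_of_deriv_nonneg (fun y => (carc_hasDerivAt n y).differentiableAt)
    intro y
    rw [(carc_hasDerivAt n y).deriv]
    exact div_nonneg (hn.pow_nonneg _) (by positivity)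
  have h1 := hmono hx
  simp only at h1
  rw [carc_zero] at h1
  linarith

theorem carc_odd (n : ℕ) (hn : Odd n) {x : ℝ} (hx : 0 ≤ x) : Real.arctan x ≤ carcS n x := by
  have hanti : Antitone (fun y => Real.arctan y - carcS n y) := by
    apply antitone_of_deriv_nonpos (fun y => (carc_hasDerivAt n y).differentiableAt)
    intro y
    rw [(carc_hasDerivAt n y).deriv]
    exact div_nonpos_of_nonpos_of_nonneg (hn.pow_nonpos (by nlinarith [sq_nonneg y]))
      (by positivity)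
  have h1 := hanti hx
  simp only at h1
  rw [carc_zero] at h1
  linarith

theorem carc_T_le (p q k : ℕ) (hq : q ≠ 0) :
    (atT p q k : ℝ) ≤ ((p : ℝ) / q) ^ (2 * k + 1) / (2 * k + 1) * 2 ^ 48 := by
  have h1 : (atT p q k : ℝ) ≤ ((2 ^ 48 * p ^ (2 * k + 1) : ℕ) : ℝ) /
      (((2 * k + 1) * q ^ (2 * k + 1) : ℕ) : ℝ) := Nat.cast_div_le
  refine h1.trans (le_of_eq ?_)
  push_cast
  have hq' : (q : ℝ) ≠ 0 := by exact_mod_cast hq
  have h3 : (2 * (k : ℝ) + 1) ≠ 0 := by positivity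
  rw [div_pow]
  field_simp
  norm_num
  ring

theorem carc_le_T (p q k : ℕ) (hq : q ≠ 0) :
    ((p : ℝ) / q) ^ (2 * k + 1) / (2 * k + 1) * 2 ^ 48 ≤ (atT p q k : ℝ) + 1 := by
  have hpos : 0 < (2 * k + 1) * q ^ (2 * k + 1) := by positivity
  have h1 : ((2 ^ 48 * p ^ (2 * k + 1) : ℕ) : ℝ) ≤
      (((2 * k + 1) * q ^ (2 * k + 1) * (atT p q k + 1) : ℕ) : ℝ) := by
    have := Nat.lt_mul_div_succ (2 ^ 48 * p ^ (2 * k + 1)) hpos
    exact_mod_cast this.le
  have hq' : (0 : ℝ) < q := by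
    have : 0 < q := Nat.pos_of_ne_zero hq
    exact_mod_cast this
  push_cast at h1
  rw [div_pow, div_div, div_mul_eq_mul_div, div_le_iff₀ (by positivity)]
  linarith

theorem carc_asLo (p q : ℕ) (hq : q ≠ 0) :
    (asLo p q : ℝ) ≤ Real.arctan ((p : ℝ) / q) * 2 ^ 48 := by
  have hx : (0 : ℝ) ≤ (p : ℝ) / q := by positivity
  have h1 := carc_even 8 (by decide) hx
  have h2 : carcS 8 ((p : ℝ) / q) * 2 ^ 48 ≤ Real.arctan ((p : ℝ) / q) * 2 ^ 48 := by gcongr
  refine le_trans ?_ h2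
  have l0 := carc_T_le p q 0 hq
  have l1 := carc_le_T p q 1 hq
  have l2 := carc_T_le p q 2 hq
  have l3 := carc_le_T p q 3 hq
  have l4 := carc_T_le p q 4 hq
  have l5 := carc_le_T p q 5 hq
  have l6 := carc_T_le p q 6 hq
  have l7 := carc_le_T p q 7 hq
  simp only [carcS, asLo, Finset.sum_range_succ, Finset.sum_range_zero]
  push_cast
  norm_num at l0 l1 l2 l3 l4 l5 l6 l7 ⊢
  linarith

theorem carc_asHi (p q : ℕ) (hq : q ≠ 0) :
    Real.arctan ((p : ℝ) / q) * 2 ^ 48 ≤ (asHi p q : ℝ) := by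
  have hx : (0 : ℝ) ≤ (p : ℝ) / q := by positivity
  have h1 := carc_odd 9 (by decide) hx
  have h2 : Real.arctan ((p : ℝ) / q) * 2 ^ 48 ≤ carcS 9 ((p : ℝ) / q) * 2 ^ 48 := by gcongr
  refine le_trans h2 ?_
  have l0 := carc_le_T p q 0 hq
  have l1 := carc_T_le p q 1 hq
  have l2 := carc_le_T p q 2 hq
  have l3 := carc_T_le p q 3 hq
  have l4 := carc_le_T p q 4 hq
  have l5 := carc_T_le p q 5 hq
  have l6 := carc_le_T p q 6 hq
  have l7 := carc_T_le p q 7 hq
  have l8 := carc_le_T p q 8 hq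
  simp only [carcS, asHi, Finset.sum_range_succ, Finset.sum_range_zero]
  push_cast
  norm_num at l0 l1 l2 l3 l4 l5 l6 l7 l8 ⊢
  linarith

theorem carc_div_le (a b : ℤ) (hb : 0 < b) : ((a / b : ℤ) : ℝ) ≤ (a : ℝ) / b := by
  have hb' : (0 : ℝ) < b := by exact_mod_cast hb
  rw [le_div_iff₀ hb']
  have := Int.ediv_mul_le a hb.ne'
  exact_mod_cast this

theorem carc_le_div (a b : ℤ) (hb : 0 < b) : (a : ℝ) / b ≤ ((a / b + 1 : ℤ) : ℝ) := by
  have hb' : (0 : ℝ) < b := by exact_mod_cast hb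
  rw [div_le_iff₀ hb']
  have := (Int.lt_ediv_add_one_mul_self a hb).le
  exact_mod_cast this

theorem carc_refl (p q : ℕ) (hq : q ≠ 0) (hpq : p ≤ q) : Real.arctan ((p : ℝ) / q) =
    Real.pi / 4 - Real.arctan (((q - p : ℕ) : ℝ) / ((q + p : ℕ) : ℝ)) := by
  have hq' : (0 : ℝ) < q := by
    have : 0 < q := Nat.pos_of_ne_zero hq
    exact_mod_cast this
  have hp' : (0 : ℝ) ≤ p := Nat.cast_nonneg _
  rw [Nat.cast_sub hpq, Nat.cast_add]
  have hden : (0 : ℝ) < (q : ℝ) + p := by linarith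
  have h1 : (1 : ℝ) - (p : ℝ) / q * (((q : ℝ) - p) / ((q : ℝ) + p)) =
      ((q : ℝ) ^ 2 + p ^ 2) / (q * (q + p)) := by
    field_simp
    ring
  have h2 : (p : ℝ) / q + (((q : ℝ) - p) / ((q : ℝ) + p)) =
      ((q : ℝ) ^ 2 + p ^ 2) / (q * (q + p)) := by
    field_simp
    ring
  have h3 : 0 < ((q : ℝ) ^ 2 + p ^ 2) / (q * (q + p)) := by positivity
  have h4 : (p : ℝ) / q * (((q : ℝ) - p) / ((q : ℝ) + p)) < 1 := by linarith
  have h5 := Real.arctan_add h4
  rw [h1, h2, div_self h3.ne', Real.arctan_one] at h5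
  linarith

theorem carc_a1 (p q : ℕ) (hq : q ≠ 0) (hpq : p ≤ q) :
    (a1Lo p q : ℝ) ≤ Real.arctan ((p : ℝ) / q) * 2 ^ 48 ∧
      Real.arctan ((p : ℝ) / q) * 2 ^ 48 ≤ (a1Hi p q : ℝ) := by
  unfold a1Lo a1Hi
  split_ifs with h
  · exact ⟨carc_asLo p q hq, carc_asHi p q hq⟩
  · have hq2 : q + p ≠ 0 := by omega
    rw [carc_refl p q hq hpq]
    have h1 := carc_asLo (q - p) (q + p) hq2
    have h2 := carc_asHi (q - p) (q + p) hq2
    have h3 := carc_div_le piLo 4 (by norm_num)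
    have h4 := carc_le_div piHi 4 (by norm_num)
    have h5 := piLo_le
    have h6 := le_piHi
    rw [Int.cast_sub, Int.cast_sub, Int.cast_add]
    rw [Int.cast_add] at h4
    push_cast at h3 h4
    rw [Int.cast_one]
    constructor <;> linarith

/-- for all `p / q`, `q ≠ 0` (`asLo` and `asHi` are valid for all arguments, alternating series) -/
theorem at_bounds (p q : ℕ) (hq : q ≠ 0) :
    (atLo p q : ℝ) ≤ Real.arctan ((p : ℝ) / q) * 2 ^ 48 ∧
      Real.arctan ((p : ℝ) / q) * 2 ^ 48 ≤ (atHi p q : ℝ) := by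
  unfold atLo atHi
  split_ifs with h
  · exact carc_a1 p q hq h
  · push Not at h
    have hp : p ≠ 0 := by omega
    obtain ⟨h1, h2⟩ := carc_a1 q p hp h.le
    have hpos : (0 : ℝ) < (q : ℝ) / p := by
      have a1 : 0 < q := Nat.pos_of_ne_zero hq
      have a2 : 0 < p := Nat.pos_of_ne_zero hp
      positivity
    have h0 := Real.arctan_inv_of_pos hpos
    rw [inv_div] at h0
    rw [h0]
    have h3 := carc_div_le piLo 2 (by norm_num)
    have h4 := carc_le_div piHi 2 (by norm_num)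
    have h5 := piLo_le
    have h6 := le_piHi
    push_cast at h3 h4 ⊢
    constructor <;> linarith

end Pool.Agent.OZ
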