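import Pool.Agent.OZ.Defs

/-!
# The classes modulo `q` up to the reflection `u ↦ 16 m + 1 - u`
-/

open Finset

namespace Pool.Agent.OZ

section CLS

theorem cl_mod_add {q L v : ℕ} (hv : v ≤ L) : (v % q + (L - v) % q) % q = L % q := by
  rw [← Nat.add_mod, Nat.add_sub_cancel' hv]

theorem cl_cancel {q x y z : ℕ} (hy : y < q) (hz : z < q) (h : (x + y) % q = (x + z) % q) :
    y = z := by
  have h1 : y ≡ z [MOD q] := Nat.ModEq.add_left_cancel' x h
  have h2 : y % q = z % q := h1
  rwa [Nat.mod_eq_of_lt hy, Nat.mod_eq_of_lt hz] at h2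

/-- the classes up to reflection -/
theorem cl_eq_iff {q L u v : ℕ} (hq : 0 < q) (hu : u ≤ L) (hv : v ≤ L) :
    cl q L v = cl q L u ↔ v % q = u % q ∨ v % q = (L - u) % q := by
  have h1 := cl_mod_add (q := q) hu
  have h2 := cl_mod_add (q := q) hv
  have ha : u % q < q := Nat.mod_lt _ hq
  have hb : (L - u) % q < q := Nat.mod_lt _ hq
  have hx : v % q < q := Nat.mod_lt _ hq
  have hy : (L - v) % q < q := Nat.mod_lt _ hq
  unfold cl
  generalize u % q = a at *
  generalize (L - u) % q = b at *
  generalize v % q = x at *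
  generalize (L - v) % q = y at *
  have h3 : (x + y) % q = (a + b) % q := h2.trans h1.symm
  have key1 : x = a → y = b := fun h => by
    subst h
    exact cl_cancel hy hb h3
  have key2 : x = b → y = a := fun h => by
    subst h
    rw [Nat.add_comm a x] at h3
    exact cl_cancel hy ha h3
  have key3 : y = a → x = b := fun h => by
    subst h
    rw [Nat.add_comm x y] at h3
    exact cl_cancel hx hb h3
  have key4 : y = b → x = a := fun h => by
    subst h
    rw [Nat.add_comm x y, Nat.add_comm a y] at h3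
    exact cl_cancel hx ha h3
  constructor
  · intro h
    rcases min_choice x y with h4 | h4 <;> rcases min_choice a b with h5 | h5 <;>
      rw [h4, h5] at h
    · exact Or.inl h
    · exact Or.inr h
    · exact Or.inr (key3 h)
    · exact Or.inl (key4 h)
  · rintro (h | h)
    · rw [h, key1 h]
    · rw [h, key2 h, min_comm]

theorem cl_refl {q L u : ℕ} (hu : u ≤ L) : cl q L (L - u) = cl q L u := by
  unfold cl
  rw [Nat.sub_sub_self hu, min_comm]

variable {m q : ℕ} [hq : Fact q.Prime]

theorem cl_lt (L u : ℕ) : cl q L u < q :=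
  lt_of_le_of_lt (min_le_left _ _) (Nat.mod_lt _ hq.out.pos)

theorem pr_refl' {m u : ℕ} (hu : u ≤ 16 * m + 1) : pr m (16 * m + 1 - u) = pr m u := by
  unfold pr
  have h1 : (16 * m + 1 - u < m ∨ 15 * m + 1 < 16 * m + 1 - u) ↔ (u < m ∨ 15 * m + 1 < u) := by
    omega
  have h2 : (16 * m + 1 - u < 2 * m ∨ 14 * m + 1 < 16 * m + 1 - u) ↔
      (u < 2 * m ∨ 14 * m + 1 < u) := by
    omega
  simp only [h1, h2]

theorem pr_two_mul (m u : ℕ) : 2 * (pr m u / 2) = pr m u := by
  unfold pr
  split_ifs <;> rfl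

/-- splitting a symmetric sum into two halves -/
theorem sum_half (P : ℕ → Prop) [DecidablePred P] (f : ℕ → ℕ) {n : ℕ}
    (hP : ∀ u ≤ 2 * n + 1, (P (2 * n + 1 - u) ↔ P u))
    (hf : ∀ u ≤ 2 * n + 1, f (2 * n + 1 - u) = f u) :
    ∑ u ∈ (range (2 * n + 2)).filter P, f u = 2 * ∑ u ∈ (range (n + 1)).filter P, f u := by
  rw [sum_filter, sum_filter, show 2 * n + 2 = (n + 1) + (n + 1) by ring, sum_range_add,
    two_mul]
  congr 1
  rw [← Finset.sum_range_reflect (fun u => if P u then f u else 0) (n + 1)]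
  refine sum_congr rfl fun u hu => ?_
  have hu' : u < n + 1 := mem_range.1 hu
  have h1 : n + 1 + u = 2 * n + 1 - (n + 1 - 1 - u) := by omega
  have h2 : n + 1 - 1 - u ≤ 2 * n + 1 := by omega
  rw [h1]
  simp only [hP _ h2, hf _ h2]

theorem sum_cl (h2 : q ≠ 2) (c : ℕ) :
    ∑ u ∈ (range (16 * m + 2)).filter (fun u => cl q (16 * m + 1) u = c), pr m u =
      4 * Mc m q c := by
  have _ := h2
  have h := sum_half (fun u => cl q (16 * m + 1) u = c) (pr m) (n := 8 * m)
    (fun u hu => by
      have hu' : u ≤ 16 * m + 1 := by omega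
      have := cl_refl (q := q) hu'
      rw [show 2 * (8 * m) + 1 - u = 16 * m + 1 - u by omega, this])
    (fun u hu => by
      have hu' : u ≤ 16 * m + 1 := by omega
      rw [show 2 * (8 * m) + 1 - u = 16 * m + 1 - u by omega]
      exact pr_refl' hu')
  rw [show 16 * m + 2 = 2 * (8 * m) + 2 by ring, h, Mc, show (4 : ℕ) = 2 * 2 by norm_num,
    mul_assoc]
  congr 1
  rw [mul_sum]
  exact sum_congr rfl fun u _ => by rw [pr_two_mul]

/-- the sum over a residue class and over its reflection agree -/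
theorem sum_residue_refl {u : ℕ} (hu : u ≤ 16 * m + 1) :
    ∑ v ∈ (range (16 * m + 2)).filter (fun v => v % q = (16 * m + 1 - u) % q), pr m v =
      ∑ v ∈ (range (16 * m + 2)).filter (fun v => v % q = u % q), pr m v := by
  rw [sum_filter, sum_filter, ← Finset.sum_range_reflect _ (16 * m + 2)]
  refine sum_congr rfl fun v hv => ?_
  have hv' : v ≤ 16 * m + 1 := by have := mem_range.1 hv; omega
  have h1 : 16 * m + 2 - 1 - v = 16 * m + 1 - v := by omega
  rw [h1, pr_refl' hv']
  have h3 := cl_mod_add (q := q) hu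
  have h4 := cl_mod_add (q := q) hv'
  have hb : (16 * m + 1 - u) % q < q := Nat.mod_lt _ hq.out.pos
  have ha : u % q < q := Nat.mod_lt _ hq.out.pos
  have hx : v % q < q := Nat.mod_lt _ hq.out.pos
  have hy : (16 * m + 1 - v) % q < q := Nat.mod_lt _ hq.out.pos
  have h5 : (16 * m + 1 - v) % q = (16 * m + 1 - u) % q ↔ v % q = u % q := by
    constructor
    · intro h
      rw [h, ← h3, Nat.add_comm, Nat.add_comm (u % q)] at h4
      exact cl_cancel hx ha h4
    · intro h
      rw [h, ← h3] at h4
      exact cl_cancel hy hb h4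
  simp only [h5]

theorem ordc_cls (h2 : q ≠ 2) {u : ℕ} (hu : u ≤ 16 * m + 1) :
    ordc q (16 * m + 1) (pr m) u =
      2 * (dl q (16 * m + 1) (cl q (16 * m + 1) u) * Mc m q (cl q (16 * m + 1) u)) := by
  have h1 := sum_cl (m := m) h2 (cl q (16 * m + 1) u)
  have h3 : (range (16 * m + 2)).filter
      (fun v => cl q (16 * m + 1) v = cl q (16 * m + 1) u) =
      (range (16 * m + 2)).filter
        (fun v => v % q = u % q ∨ v % q = (16 * m + 1 - u) % q) := by
    refine filter_congr fun v hv => ?_
    have hv' : v ≤ 16 * m + 1 := by have := mem_range.1 hv; omega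
    exact cl_eq_iff hq.out.pos hu hv'
  rw [h3] at h1
  have h4 := cl_mod_add (q := q) hu
  have hb : (16 * m + 1 - u) % q < q := Nat.mod_lt _ hq.out.pos
  have ha : u % q < q := Nat.mod_lt _ hq.out.pos
  unfold ordc
  rw [show 16 * m + 1 + 1 = 16 * m + 2 by ring]
  by_cases hab : u % q = (16 * m + 1 - u) % q
  · have h5 : (2 * cl q (16 * m + 1) u) % q = (16 * m + 1) % q := by
      unfold cl
      rw [← hab, min_self, two_mul]
      rw [← hab] at h4
      exact h4
    rw [dl, if_pos h5]
    simp only [← hab, or_self] at h1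
    rw [h1]
    ring
  · have h5 : (2 * cl q (16 * m + 1) u) % q ≠ (16 * m + 1) % q := by
      intro h
      unfold cl at h
      rcases min_choice (u % q) ((16 * m + 1 - u) % q) with h6 | h6
      · rw [h6, ← h4, two_mul] at h
        exact hab (cl_cancel ha hb h)
      · rw [h6, ← h4, two_mul, Nat.add_comm (u % q)] at h
        exact hab (cl_cancel hb ha h).symm
    rw [dl, if_neg h5, one_mul]
    rw [filter_or, sum_union] at h1
    · rw [sum_residue_refl hu] at h1
      omega
    · rw [Finset.disjoint_filter]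
      intro v _ h6 h7
      exact hab (h6.symm.trans h7)

theorem pr_half_low {m u : ℕ} (hu : u < 8 * m + 1) :
    pr m u / 2 = if u < m then 1 else if u < 2 * m then 3 else 5 := by
  unfold pr
  have h1 : (u < m ∨ 15 * m + 1 < u) ↔ u < m := by omega
  have h2 : (u < 2 * m ∨ 14 * m + 1 < u) ↔ u < 2 * m := by omega
  simp only [h1, h2]
  split_ifs <;> rfl

theorem sum_Mc (hm : 1 ≤ m) : ∑ c : Fin q, Mc m q c = nn m := by
  have _ := hm
  have h1 : ∑ c : Fin q, Mc m q c = ∑ u ∈ range (8 * m + 1), pr m u / 2 := by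
    rw [Fin.sum_univ_eq_sum_range (fun c => Mc m q c) q]
    unfold Mc
    rw [Finset.sum_fiberwise_of_maps_to]
    intro u _
    exact mem_range.2 (cl_lt _ _)
  rw [h1, sum_congr rfl fun u hu => pr_half_low (mem_range.1 hu),
    show 8 * m + 1 = m + (m + (6 * m + 1)) by ring, sum_range_add, sum_range_add]
  have e1 : ∑ x ∈ range m, (if x < m then 1 else if x < 2 * m then 3 else 5) = m := by
    rw [sum_congr rfl fun x hx => if_pos (mem_range.1 hx)]
    simp
  have e2 : ∑ x ∈ range m, (if m + x < m then 1 else if m + x < 2 * m then 3 else 5) =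
      3 * m := by
    rw [sum_congr rfl fun x hx => (by
      rw [if_neg (by omega), if_pos (by have := mem_range.1 hx; omega)] :
      (if m + x < m then 1 else if m + x < 2 * m then 3 else 5) = 3)]
    simp [mul_comm]
  have e3 : ∑ x ∈ range (6 * m + 1),
      (if m + (m + x) < m then 1 else if m + (m + x) < 2 * m then 3 else 5) =
      5 * (6 * m + 1) := by
    rw [sum_congr rfl fun x hx => (by
      rw [if_neg (by omega), if_neg (by omega)] :
      (if m + (m + x) < m then 1 else if m + (m + x) < 2 * m then 3 else 5) = 5)]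
    simp [mul_comm]
  rw [e1, e2, e3, nn]
  ring

/-- two different nodes with positive multiplicity -/
theorem cl_unit {i k : ℕ} (hik : i ≠ k) (hi : Mc m q i ≠ 0) (hk : Mc m q k ≠ 0) :
    i < q ∧ k < q ∧ (i + k) % q ≠ (16 * m + 1) % q := by
  have key : ∀ {i : ℕ}, Mc m q i ≠ 0 → ∃ u ≤ 16 * m + 1, cl q (16 * m + 1) u = i := by
    intro i hi
    obtain ⟨u, hu, _⟩ := exists_ne_zero_of_sum_ne_zero hi
    rw [mem_filter, mem_range] at hu
    exact ⟨u, by omega, hu.2⟩
  have key2 : ∀ {i j : ℕ}, Mc m q i ≠ 0 → j < q → (i + j) % q = (16 * m + 1) % q → i ≤ j := by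
    intro i j hi hj h
    obtain ⟨u, hu, hui⟩ := key hi
    have h4 := cl_mod_add (q := q) hu
    have hb : (16 * m + 1 - u) % q < q := Nat.mod_lt _ hq.out.pos
    have ha : u % q < q := Nat.mod_lt _ hq.out.pos
    unfold cl at hui
    rcases min_choice (u % q) ((16 * m + 1 - u) % q) with h6 | h6
    · rw [h6] at hui
      rw [← hui, ← h4] at h
      rw [← hui, cl_cancel hj hb h, ← h6]
      exact min_le_right _ _
    · rw [h6] at hui
      rw [← hui, ← h4, Nat.add_comm (u % q)] at h
      rw [← hui, cl_cancel hj ha h, ← h6]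
      exact min_le_left _ _
  have hiq : i < q := by
    obtain ⟨u, _, hui⟩ := key hi
    rw [← hui]
    exact cl_lt _ _
  have hkq : k < q := by
    obtain ⟨u, _, hui⟩ := key hk
    rw [← hui]
    exact cl_lt _ _
  refine ⟨hiq, hkq, fun h => hik ?_⟩
  have h1 := key2 hi hkq h
  rw [Nat.add_comm] at h
  have h2 := key2 hk hiq h
  omega

end CLS

end Pool.Agent.OZ
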