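import Pool.Agent.OZ.Defs

/-!
# OZ7: the algebra of the weights `WT`
-/

open Finset Polynomial

namespace Pool.Agent.OZ

open Pool.Agent.Z5 (w evY dser xser hser lser co rho Hs zt tot VG)
open Pool.Agent.Z9 (IsProf)

section LOC

variable {q : ℕ} [hq : Fact q.Prime] {k l : ℤ} {f g : PowerSeries ℚ}

theorem WT.zero (k : ℤ) : WT q k 0 := fun n => by
  rw [map_zero]; exact VG.zero _

theorem WT.mono (h : WT q k f) (hl : l ≤ k) : WT q l f := fun n => (h n).mono (by omega)

theorem WT.add (hf : WT q k f) (hg : WT q k g) : WT q k (f + g) := fun n => by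
  rw [map_add]; exact (hf n).add (hg n)

theorem WT.neg (hf : WT q k f) : WT q k (-f) := fun n => by
  rw [map_neg]; exact (hf n).neg

theorem WT.sub (hf : WT q k f) (hg : WT q k g) : WT q k (f - g) := fun n => by
  rw [map_sub]; exact (hf n).sub (hg n)

theorem WT.mul (hf : WT q k f) (hg : WT q l g) : WT q (k + l) (f * g) := fun n => by
  rw [PowerSeries.coeff_mul]
  refine VG.sum _ _ fun p hp => ?_
  have h := Finset.HasAntidiagonal.mem_antidiagonal.1 hp
  refine ((hf p.1).mul (hg p.2)).mono (le_of_eq ?_)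
  rw [← h]; push_cast; ring

theorem WT.C {x : ℚ} (hx : VG q k x) : WT q k (PowerSeries.C x) := fun n => by
  rw [PowerSeries.coeff_C]
  split_ifs with h
  · subst h; simpa using hx
  · exact VG.zero _

theorem WT.X : WT q 1 (PowerSeries.X : PowerSeries ℚ) := fun n => by
  rw [PowerSeries.coeff_X]
  split_ifs with h
  · subst h; simpa using VG.one
  · exact VG.zero _

theorem WT.one : WT q 0 (1 : PowerSeries ℚ) := by
  simpa using WT.C (q := q) (k := 0) VG.one

theorem WT.pow (hf : WT q k f) (n : ℕ) : WT q (n * k) (f ^ n) := by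
  induction n with
  | zero => simpa using WT.one (q := q)
  | succ n ih =>
    rw [pow_succ]
    exact (ih.mul hf).mono (le_of_eq (by push_cast; ring))

theorem WT.prod {ι : Type*} (s : Finset ι) (F : ι → PowerSeries ℚ) (a : ι → ℤ)
    (h : ∀ i ∈ s, WT q (a i) (F i)) : WT q (∑ i ∈ s, a i) (∏ i ∈ s, F i) := by
  classical
  induction s using Finset.induction_on with
  | empty => simpa using WT.one (q := q)
  | insert b s hb ih =>
    rw [Finset.sum_insert hb, Finset.prod_insert hb]
    exact (h b (Finset.mem_insert_self _ _)).mul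
      (ih fun i hi => h i (Finset.mem_insert_of_mem hi))

theorem WT.sum {ι : Type*} (s : Finset ι) (F : ι → PowerSeries ℚ)
    (h : ∀ i ∈ s, WT q k (F i)) : WT q k (∑ i ∈ s, F i) := fun n => by
  rw [map_sum]
  exact VG.sum _ _ fun i hi => h i hi n

/-- inverse of a linear factor -/
theorem WT.inv_lin {x : ℚ} (hx : x ≠ 0) (h0 : 0 ≤ padicValRat q x) (h1 : padicValRat q x ≤ 1) :
    WT q (- padicValRat q x) (PowerSeries.C x + PowerSeries.X)⁻¹ := by
  have hc : PowerSeries.constantCoeff (PowerSeries.C x + PowerSeries.X : PowerSeries ℚ) ≠ 0 := by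
    simpa using hx
  have key : (PowerSeries.C x + PowerSeries.X : PowerSeries ℚ)⁻¹
      = PowerSeries.mk fun n => (-1 : ℚ) ^ n * (x⁻¹) ^ (n + 1) := by
    rw [PowerSeries.inv_eq_iff_mul_eq_one hc]
    ext n
    rw [mul_add, map_add, PowerSeries.coeff_one]
    rcases n with _ | n
    · simp [PowerSeries.coeff_zero_mul_X, inv_mul_cancel₀ hx]
    · rw [PowerSeries.coeff_succ_mul_X, PowerSeries.coeff_mul_C, PowerSeries.coeff_mk,
        PowerSeries.coeff_mk, if_neg (by omega)]
      have h2 : (x⁻¹) ^ (n + 1 + 1) * x = (x⁻¹) ^ (n + 1) := by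
        rw [pow_succ, mul_assoc, inv_mul_cancel₀ hx, mul_one]
      calc (-1 : ℚ) ^ (n + 1) * (x⁻¹) ^ (n + 1 + 1) * x + (-1 : ℚ) ^ n * (x⁻¹) ^ (n + 1)
          = (-1 : ℚ) ^ (n + 1) * ((x⁻¹) ^ (n + 1 + 1) * x) + (-1 : ℚ) ^ n * (x⁻¹) ^ (n + 1) := by
            ring
        _ = 0 := by rw [h2]; ring
  rw [key]
  intro n
  rw [PowerSeries.coeff_mk]
  have h2 : VG q (-padicValRat q x) x⁻¹ := Or.inr (by rw [padicValRat.inv])
  have h3 : VG q ((n + 1 : ℕ) * (-padicValRat q x)) ((x⁻¹) ^ (n + 1)) := h2.pow _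
  have h4 : VG q 0 ((-1 : ℚ) ^ n) := by
    have := (VG.int (q := q) (-1)).pow_zero n
    simpa using this
  refine (h4.int_mul h3).mono ?_
  push_cast
  nlinarith

end LOC

end Pool.Agent.OZ
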