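import Pool.Agent.OZ.LOCD

/-!
# OZ7: valuations of the coefficients and of the contributions of the poles
-/

open Finset Polynomial

namespace Pool.Agent.OZ

open Pool.Agent.Z5 (w evY dser xser hser lser co rho Hs zt tot VG)
open Pool.Agent.Z9 (IsProf)

section LOC

variable {q : ℕ} [hq : Fact q.Prime] {k l : ℤ} {f g : PowerSeries ℚ} {L u : ℕ} {e : ℕ → ℕ}
  {r : ℕ → ℚ}

theorem VG_co (hL : L < q ^ 2) (hu : u ≤ L) {h : ℚ[X]} (hh : WT q k (hser L u h)) (i : ℕ) :
    VG q (k - ordc q L e u + i) (co L e h u i) := by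
  unfold co
  split_ifs with hi
  · have h1 := ((WT_xser (q := q) L u).mul (WT_dser_inv (e := e) hL hu)).mul hh
    have h2 := h1 (e u - i)
    rw [lser]
    refine h2.mono (le_of_eq ?_)
    have h3 : ((e u - i : ℕ) : ℤ) = (e u : ℤ) - i := by
      have := hi.2; omega
    rw [h3]; ring
  · exact VG.zero _

/-- one more in the self-conjugate class -/
theorem locu_VG_co_self (hL : L < q ^ 2) (hu : u ≤ L) (hs : (2 * u) % q = L % q) {h : ℚ[X]}
    (hh : WT q k (hser L u h)) (i : ℕ) :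
    VG q (k - ordc q L e u + i + 1) (co L e h u i) := by
  unfold co
  split_ifs with hi
  · have h1 := ((WT_xser_self (q := q) L u hs).mul (WT_dser_inv (e := e) hL hu)).mul hh
    have h2 := h1 (e u - i)
    rw [lser]
    refine h2.mono (le_of_eq ?_)
    have h3 : ((e u - i : ℕ) : ℤ) = (e u : ℤ) - i := by
      have := hi.2; omega
    rw [h3]; ring
  · exact VG.zero _

theorem VG_Hs (hu : u < q ^ 2) (s : ℕ) : VG q (-(s : ℤ)) (Hs s u) := by
  unfold Hs
  refine VG.sum _ _ fun m hm => ?_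
  obtain ⟨h1, h2⟩ := Finset.mem_Icc.1 hm
  have hv : padicValNat q m < 2 := by
    by_contra hc
    have h6 : q ^ 2 ∣ m := (padicValNat_dvd_iff_le (by omega)).2 (by omega)
    exact absurd (Nat.le_of_dvd (by omega) h6) (by omega)
  refine Or.inr ?_
  rw [one_div, padicValRat.inv, padicValRat.pow, padicValRat.of_nat]
  have h3 : ((padicValNat q m : ℕ) : ℤ) ≤ 1 := by omega
  have h4 : (0 : ℤ) ≤ s := Int.natCast_nonneg s
  nlinarith

theorem VG_Hs_lt (hu : u < q) (s : ℕ) : VG q 0 (Hs s u) := by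
  unfold Hs
  refine VG.sum _ _ fun m hm => ?_
  obtain ⟨h1, h2⟩ := Finset.mem_Icc.1 hm
  have hv : padicValNat q m = 0 := by
    apply padicValNat.eq_zero_of_not_dvd
    intro hc
    exact absurd (Nat.le_of_dvd (by omega) hc) (by omega)
  refine Or.inr ?_
  rw [one_div, padicValRat.inv, padicValRat.pow, padicValRat.of_nat, hv]
  simp

theorem VG_uterm (hr : ∀ i ∈ Finset.Icc 1 10, VG q 0 (r i)) (hL : L < q ^ 2) (hu : u ≤ L)
    {h : ℚ[X]} (hh : WT q k (hser L u h)) :
    VG q (k - ordc q L e u - 4) (uterm L e r h u) := by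
  unfold uterm
  refine VG.sum _ _ fun i hi => ?_
  have h1 : VG q (k - ordc q L e u + i) (co L e h u i) := VG_co hL hu hh i
  have h2 : VG q 0 ((bi i : ℕ) : ℚ) := VG.nat _
  have h3 : VG q (-((i + 4 : ℕ) : ℤ)) (r i - Hs (i + 4) u) :=
    ((hr i hi).mono (by omega)).sub (VG_Hs (by omega) _)
  refine ((h1.mul h2).mul h3).mono ?_
  push_cast; linarith

/-- no harmonic denominators if `u < q` -/
theorem VG_uterm_lt (hr : ∀ i ∈ Finset.Icc 1 10, VG q 0 (r i)) (hL : L < q ^ 2) (hu : u ≤ L)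
    (huq : u < q) {h : ℚ[X]} (hh : WT q k (hser L u h)) :
    VG q (k - ordc q L e u + 1) (uterm L e r h u) := by
  unfold uterm
  refine VG.sum _ _ fun i hi => ?_
  have h1 : VG q (k - ordc q L e u + i) (co L e h u i) := VG_co hL hu hh i
  have h2 : VG q 0 ((bi i : ℕ) : ℚ) := VG.nat _
  have h3 : VG q 0 (r i - Hs (i + 4) u) := (hr i hi).sub (VG_Hs_lt huq _)
  have hi1 := (Finset.mem_Icc.1 hi).1
  refine ((h1.mul h2).mul h3).mono ?_
  have : (1 : ℤ) ≤ i := by exact_mod_cast hi1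
  linarith

/-- one more in the self-conjugate class -/
theorem VG_uterm_self (hr : ∀ i ∈ Finset.Icc 1 10, VG q 0 (r i)) (hL : L < q ^ 2) (hu : u ≤ L)
    (hs : (2 * u) % q = L % q) {h : ℚ[X]} (hh : WT q k (hser L u h)) :
    VG q (k - ordc q L e u - 3) (uterm L e r h u) := by
  unfold uterm
  refine VG.sum _ _ fun i hi => ?_
  have h1 : VG q (k - ordc q L e u + i + 1) (co L e h u i) := locu_VG_co_self hL hu hs hh i
  have h2 : VG q 0 ((bi i : ℕ) : ℚ) := VG.nat _
  have h3 : VG q (-((i + 4 : ℕ) : ℤ)) (r i - Hs (i + 4) u) :=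
    ((hr i hi).mono (by omega)).sub (VG_Hs (by omega) _)
  refine ((h1.mul h2).mul h3).mono ?_
  push_cast; linarith

/-- all coefficients are integral at `q` -/
def locuIT (q : ℕ) (f : PowerSeries ℚ) : Prop := ∀ n : ℕ, VG q 0 (PowerSeries.coeff n f)

theorem locuIT.mul (hf : locuIT q f) (hg : locuIT q g) : locuIT q (f * g) := fun n => by
  rw [PowerSeries.coeff_mul]
  exact VG.sum _ _ fun p _ => by simpa using (hf p.1).mul (hg p.2)

theorem locuIT.add (hf : locuIT q f) (hg : locuIT q g) : locuIT q (f + g) := fun n => by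
  rw [map_add]; exact (hf n).add (hg n)

theorem locuIT.C {x : ℚ} (hx : VG q 0 x) : locuIT q (PowerSeries.C x) := fun n => by
  rw [PowerSeries.coeff_C]
  split_ifs with h
  · exact hx
  · exact VG.zero _

theorem locuIT.X : locuIT q (PowerSeries.X : PowerSeries ℚ) := fun n => by
  rw [PowerSeries.coeff_X]
  split_ifs with h
  · exact VG.one
  · exact VG.zero _

theorem locuIT.one : locuIT q (1 : PowerSeries ℚ) := by
  simpa using locuIT.C (q := q) VG.one

theorem locuIT.pow (hf : locuIT q f) (n : ℕ) : locuIT q (f ^ n) := by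
  induction n with
  | zero => simpa using locuIT.one (q := q)
  | succ n ih => rw [pow_succ]; exact ih.mul hf

theorem locuIT.prod {ι : Type*} (s : Finset ι) (F : ι → PowerSeries ℚ)
    (h : ∀ i ∈ s, locuIT q (F i)) : locuIT q (∏ i ∈ s, F i) := by
  classical
  induction s using Finset.induction_on with
  | empty => simpa using locuIT.one (q := q)
  | insert b s hb ih =>
    rw [Finset.prod_insert hb]
    exact (h b (Finset.mem_insert_self _ _)).mul
      (ih fun i hi => h i (Finset.mem_insert_of_mem hi))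

theorem locuIT.sum {ι : Type*} (s : Finset ι) (F : ι → PowerSeries ℚ)
    (h : ∀ i ∈ s, locuIT q (F i)) : locuIT q (∑ i ∈ s, F i) := fun n => by
  rw [map_sum]
  exact VG.sum _ _ fun i hi => h i hi n

theorem locuIT.inv_lin {x : ℚ} (hx : x ≠ 0) (h0 : padicValRat q x = 0) :
    locuIT q (PowerSeries.C x + PowerSeries.X)⁻¹ := by
  have hc : PowerSeries.constantCoeff (PowerSeries.C x + PowerSeries.X : PowerSeries ℚ) ≠ 0 := by
    simpa using hx
  have key : (PowerSeries.C x + PowerSeries.X : PowerSeries ℚ)⁻¹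
      = PowerSeries.mk fun n => (-1 : ℚ) ^ n * (x⁻¹) ^ (n + 1) := by
    rw [PowerSeries.inv_eq_iff_mul_eq_one hc]
    ext n
    rw [mul_add, map_add, PowerSeries.coeff_one]
    rcases n with _ | n
    · simp [PowerSeries.coeff_zero_mul_X, inv_mul_cancel₀ hx]
    · rw [PowerSeries.coeff_succ_mul_X, PowerSeries.coeff_mul_C, PowerSeries.coeff_mk,
        PowerSeries.coeff_mk, if_neg (by omega)]
      have h2 : (x⁻¹) ^ (n + 1 + 1) * x = (x⁻¹) ^ (n + 1) := by
        rw [pow_succ, mul_assoc, inv_mul_cancel₀ hx, mul_one]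
      calc (-1 : ℚ) ^ (n + 1) * (x⁻¹) ^ (n + 1 + 1) * x + (-1 : ℚ) ^ n * (x⁻¹) ^ (n + 1)
          = (-1 : ℚ) ^ (n + 1) * ((x⁻¹) ^ (n + 1 + 1) * x) + (-1 : ℚ) ^ n * (x⁻¹) ^ (n + 1) := by
            ring
        _ = 0 := by rw [h2]; ring
  rw [key]
  intro n
  rw [PowerSeries.coeff_mk]
  have h2 : VG q 0 x⁻¹ := Or.inr (by rw [padicValRat.inv, h0]; simp)
  have h3 := h2.pow_zero (n + 1)
  have h4 : VG q 0 ((-1 : ℚ) ^ n) := by
    have := (VG.int (q := q) (-1)).pow_zero n
    simpa using this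
  exact h4.int_mul h3

theorem locuIT_dser_inv (hp : ∀ v ≤ L, v ≠ u → v % q ≠ u % q) (hL : L < q ^ 2) (hu : u ≤ L) :
    locuIT q (dser L e u)⁻¹ := by
  rw [dser, locd_inv_prod]
  refine locuIT.prod _ _ fun v hv => ?_
  obtain ⟨hne, hv⟩ := Finset.mem_erase.1 hv
  have hvL : v ≤ L := by have := Finset.mem_range.1 hv; omega
  rw [locd_inv_pow]
  refine locuIT.pow (locuIT.inv_lin ?_ ?_) _
  · rw [sub_ne_zero]; exact_mod_cast hne
  · rw [locd_val hL hu hvL hne, if_neg (hp v hvL hne)]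

theorem locuIT_xser (L u : ℕ) : locuIT q (xser L u) := by
  have h1 : locuIT q (PowerSeries.C ((L : ℚ) - 2 * u) : PowerSeries ℚ) := by
    apply locuIT.C
    have := VG.int (q := q) ((L : ℤ) - 2 * u)
    push_cast at this; exact this
  have h2 : locuIT q (2 * PowerSeries.X : PowerSeries ℚ) := by
    have h3 : locuIT q (PowerSeries.C (2 : ℚ)) := locuIT.C (by exact_mod_cast VG.nat (q := q) 2)
    have h4 : (PowerSeries.C (2 : ℚ) : PowerSeries ℚ) = 2 := map_ofNat _ _
    rw [h4] at h3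
    exact h3.mul locuIT.X
  exact h1.add h2

theorem locuIT_hser (h : ℚ[X]) (hh : ∀ n, VG q 0 (h.coeff n)) : locuIT q (hser L u h) := by
  rw [hser, Polynomial.aeval_eq_sum_range]
  refine locuIT.sum _ _ fun i _ => ?_
  have h1 : locuIT q (PowerSeries.C (h.coeff i)) := locuIT.C (hh i)
  have h2 : locuIT q ((xser L u ^ 2) ^ i) := ((locuIT_xser (q := q) L u).pow 2).pow i
  rw [Algebra.smul_def]
  have h3 : (algebraMap ℚ (PowerSeries ℚ)) (h.coeff i) = PowerSeries.C (h.coeff i) := rfl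
  rw [h3]
  exact h1.mul h2

theorem VG_uterm_alone (hr : ∀ i ∈ Finset.Icc 1 10, VG q 0 (r i)) (hL : L < q ^ 2) (hu : u ≤ L)
    (hp : ¬ Partner q L u) {h : ℚ[X]} (hh : ∀ n, VG q 0 (h.coeff n)) :
    VG q 0 (uterm L e r h u) := by
  have huq : u < q := by
    by_contra hc; exact hp (Or.inl (by omega))
  have huL : L < u + q := by
    by_contra hc; exact hp (Or.inr (by omega))
  have halone : ∀ v ≤ L, v ≠ u → v % q ≠ u % q := by
    intro v hv hne heq
    rw [Nat.mod_eq_of_lt huq] at heq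
    have h1 := Nat.div_add_mod v q
    rw [heq] at h1
    rcases Nat.eq_zero_or_pos (v / q) with h2 | h2
    · rw [h2] at h1; omega
    · have h3 : q * 1 ≤ q * (v / q) := Nat.mul_le_mul_left _ h2
      omega
  unfold uterm
  refine VG.sum _ _ fun i hi => ?_
  have h1 : VG q 0 (co L e h u i) := by
    unfold co
    split_ifs with hi
    · rw [lser]
      exact (((locuIT_xser (q := q) L u).mul (locuIT_dser_inv (e := e) halone hL hu)).mul (locuIT_hser h hh)) _
    · exact VG.zero _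
  have h2 : VG q 0 ((bi i : ℕ) : ℚ) := VG.nat _
  have h3 : VG q 0 (r i - Hs (i + 4) u) := (hr i hi).sub (VG_Hs_lt huq _)
  simpa using (h1.mul h2).mul h3

end LOC

end Pool.Agent.OZ
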