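import Mathlib
import Pool.Agent.OZ.Defs
import Pool.Agent.OZ.LIN
import Pool.Agent.OZ.GRAM
import Pool.Agent.OZ.LOC
import Pool.Agent.OZ.HERM
import Pool.Agent.OZ.LOCD
import Pool.Agent.OZ.LOCU

/-!
# OZ, module GEN: the general lower bound
-/

open Finset Polynomial

namespace Pool.Agent.OZ

open Pool.Agent.Z5 (w evY dser xser hser lser co rho Hs zt tot VG)
open Pool.Agent.Z9 (IsProf)

/-- units at `q` -/
def gen_U (q : ℕ) (x : ℚ) : Prop := x ≠ 0 ∧ padicValRat q x = 0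

section
variable {q : ℕ} [hq : Fact q.Prime]

theorem gen_U_one : gen_U q 1 := ⟨one_ne_zero, by simp⟩

theorem gen_U_mul {x y : ℚ} (hx : gen_U q x) (hy : gen_U q y) : gen_U q (x * y) :=
  ⟨mul_ne_zero hx.1 hy.1, by rw [padicValRat.mul hx.1 hy.1, hx.2, hy.2]; rfl⟩

theorem gen_U_neg {x : ℚ} (hx : gen_U q x) : gen_U q (-x) :=
  ⟨neg_ne_zero.2 hx.1, by rw [padicValRat.neg, hx.2]⟩

theorem gen_U_pow {x : ℚ} (n : ℕ) (hx : n ≠ 0 → gen_U q x) : gen_U q (x ^ n) := by
  induction n with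
  | zero => rw [pow_zero]; exact gen_U_one
  | succ n ih =>
    have h1 := hx (Nat.succ_ne_zero n)
    rw [pow_succ]
    exact gen_U_mul (ih fun _ => h1) h1

theorem gen_U_prod {ι : Type*} (s : Finset ι) (f : ι → ℚ) (h : ∀ i ∈ s, gen_U q (f i)) :
    gen_U q (∏ i ∈ s, f i) := by
  classical
  induction s using Finset.induction_on with
  | empty => rw [Finset.prod_empty]; exact gen_U_one
  | insert a s ha ih =>
    rw [prod_insert ha]
    exact gen_U_mul (h a (mem_insert_self _ _)) (ih fun i hi => h i (mem_insert_of_mem hi))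

theorem gen_VG_of_mul {x y : ℚ} {k : ℤ} (hx : gen_U q x) (h : VG q k (x * y)) : VG q k y := by
  have h1 : y = x⁻¹ * (x * y) := by
    rw [← mul_assoc, inv_mul_cancel₀ hx.1, one_mul]
  have h2 : VG q 0 x⁻¹ := Or.inr (by rw [padicValRat.inv, hx.2]; rfl)
  rw [h1]
  exact h2.int_mul h

theorem gen_hser_pow (L u : ℕ) (h : ℚ[X]) (n : ℕ) : hser L u (h ^ n) = hser L u h ^ n := by
  unfold hser
  rw [map_pow]

theorem gen_hser_prod {ι : Type*} (L u : ℕ) (s : Finset ι) (f : ι → ℚ[X]) :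
    hser L u (∏ i ∈ s, f i) = ∏ i ∈ s, hser L u (f i) := by
  unfold hser
  rw [map_prod]

/-- polynomials with `q`-integral coefficients -/
def gen_IP (q : ℕ) (h : ℚ[X]) : Prop := ∀ n, VG q 0 (h.coeff n)

theorem gen_IP_mul {h g : ℚ[X]} (hh : gen_IP q h) (hg : gen_IP q g) : gen_IP q (h * g) := by
  intro n
  rw [coeff_mul]
  exact VG.sum _ _ fun p _ => (hh p.1).mul_int (hg p.2)

theorem gen_IP_one : gen_IP q 1 := by
  intro n
  rw [coeff_one]
  split_ifs
  · exact VG.one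
  · exact VG.zero _

theorem gen_IP_pow {h : ℚ[X]} (hh : gen_IP q h) (n : ℕ) : gen_IP q (h ^ n) := by
  induction n with
  | zero => rw [pow_zero]; exact gen_IP_one
  | succ n ih => rw [pow_succ]; exact gen_IP_mul ih hh

theorem gen_IP_prod {ι : Type*} (s : Finset ι) (f : ι → ℚ[X]) (h : ∀ i ∈ s, gen_IP q (f i)) :
    gen_IP q (∏ i ∈ s, f i) := by
  classical
  induction s using Finset.induction_on with
  | empty => rw [Finset.prod_empty]; exact gen_IP_one
  | insert a s ha ih =>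
    rw [prod_insert ha]
    exact gen_IP_mul (h a (mem_insert_self _ _)) (ih fun i hi => h i (mem_insert_of_mem hi))

theorem gen_IP_node {y : ℚ} (hy : VG q 0 y) : gen_IP q (X - C y) := by
  intro n
  rw [coeff_sub, coeff_X, coeff_C]
  apply VG.sub
  · split_ifs
    · exact VG.one
    · exact VG.zero _
  · split_ifs
    · exact hy
    · exact VG.zero _

theorem gen_IP_X : gen_IP q (X : ℚ[X]) := by
  intro n
  rw [coeff_X]
  split_ifs
  · exact VG.one
  · exact VG.zero _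

theorem gen_node0 {L u : ℕ} {y : ℚ} (hy : VG q 0 y) : WT q 0 (hser L u (X - C y)) :=
  WT_hser _ (gen_IP_node hy)

theorem gen_X0 {L u : ℕ} : WT q 0 (hser L u (X : ℚ[X])) := WT_hser _ gen_IP_X

end

variable {q : ℕ} [hq : Fact q.Prime] {L : ℕ} {e : ℕ → ℕ} {n : ℕ} {ι : Type*} [Fintype ι]
  [DecidableEq ι] {y : ι → ℚ} {M δ : ι → ℕ} {θ r0 : ℕ}

/-- the scaling of the basis -/
def gen_s (M δ : ι → ℕ) (θ r0 : ℕ) : (((i : ι) × Fin (M i)) ⊕ Fin r0) → ℤ :=
  Sum.elim (fun a => (δ a.1 : ℤ) * M a.1 + θ - (a.2 : ℕ) * δ a.1) (fun _ => θ)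

omit [Fintype ι] [DecidableEq ι] in
theorem gen_s_ge (a : ((i : ι) × Fin (M i)) ⊕ Fin r0) : (θ : ℤ) ≤ gen_s M δ θ r0 a := by
  rcases a with ⟨i, j⟩ | j
  · have hj : ((j : ℕ) : ℤ) ≤ M i := by exact_mod_cast j.2.le
    have h0 : (0 : ℤ) ≤ δ i := Int.natCast_nonneg _
    simp only [gen_s, Sum.elim_inl]
    nlinarith
  · simp only [gen_s, Sum.elim_inr]
    exact le_rfl

omit [DecidableEq ι] in
theorem gen_s_sum : 2 * ∑ a, gen_s M δ θ r0 a =
    ((∑ k, (δ k * M k ^ 2 + δ k * M k + 2 * θ * M k) + 2 * θ * r0 : ℕ) : ℤ) := by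
  have h1 : ∀ (N : ℕ) (c D : ℤ), 2 * ∑ i : Fin N, (c - (i : ℕ) * D) =
      2 * c * N - D * (N * (N - 1)) := by
    intro N c D
    rw [Fin.sum_univ_eq_sum_range (fun i => c - (i : ℤ) * D) N]
    induction N with
    | zero => simp
    | succ N ih =>
      rw [Finset.sum_range_succ, mul_add, ih]
      push_cast
      ring
  rw [Fintype.sum_sum_type, mul_add, Fintype.sum_sigma, Finset.mul_sum]
  push_cast
  congr 1
  · refine Finset.sum_congr rfl fun k _ => ?_
    have := h1 (M k) ((δ k : ℤ) * M k + θ) (δ k)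
    simp only [gen_s, Sum.elim_inl]
    rw [this]
    ring
  · simp only [gen_s, Sum.elim_inr, Finset.sum_const, Finset.card_univ, Fintype.card_fin,
      nsmul_eq_mul]
    ring

theorem gen_prod_wt {u : ℕ} (hy : ∀ k, VG q 0 (y k)) (s : Finset ι) {k : ι} (hk : k ∈ s)
    (h : WT q (δ k) (hser L u (X - C (y k)))) :
    WT q ((δ k : ℤ) * M k) (hser L u (∏ i ∈ s, (X - C (y i)) ^ M i)) := by
  rw [gen_hser_prod]
  have h1 := WT.prod s (fun i => hser L u ((X - C (y i)) ^ M i))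
    (fun i => if i = k then (δ k : ℤ) * M k else 0) (by
      intro i _
      rw [gen_hser_pow]
      split_ifs with hik
      · subst hik
        exact (WT.pow h (M i)).mono (by rw [mul_comm])
      · exact (WT.pow (gen_node0 (hy i)) (M i)).mono (by simp))
  rw [Finset.sum_ite_eq' s k, if_pos hk] at h1
  exact h1

theorem gen_prod_wt0 {u : ℕ} (hy : ∀ k, VG q 0 (y k)) (s : Finset ι) :
    WT q 0 (hser L u (∏ i ∈ s, (X - C (y i)) ^ M i)) := by
  rw [gen_hser_prod]
  have h1 := WT.prod s (fun i => hser L u ((X - C (y i)) ^ M i)) (fun i => 0) (by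
      intro i _
      rw [gen_hser_pow]
      exact (WT.pow (gen_node0 (hy i)) (M i)).mono (by simp))
  rw [Finset.sum_const_zero] at h1
  exact h1

theorem gen_pow0 {u : ℕ} {h : ℚ[X]} (hh : WT q 0 (hser L u h)) (j : ℕ) :
    WT q 0 (hser L u (h ^ j)) := by
  rw [gen_hser_pow]
  exact (WT.pow hh j).mono (by simp)

theorem gen_IP_herm (hy : ∀ k, VG q 0 (y k)) (a : ((i : ι) × Fin (M i)) ⊕ Fin r0) :
    gen_IP q (herm y M r0 a) := by
  rcases a with ⟨i, j⟩ | j
  · simp only [herm, Sum.elim_inl, hb]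
    exact gen_IP_mul (gen_IP_pow (gen_IP_node (hy i)) _)
      (gen_IP_prod _ _ fun k _ => gen_IP_pow (gen_IP_node (hy k)) _)
  · simp only [herm, Sum.elim_inr, nodeS]
    exact gen_IP_mul (gen_IP_prod _ _ fun k _ => gen_IP_pow (gen_IP_node (hy k)) _)
      (gen_IP_pow gen_IP_X _)

theorem gen_wt {u : ℕ} (hy : ∀ k, VG q 0 (y k)) (k : ι)
    (h : WT q (δ k) (hser L u (X - C (y k)))) (a : ((i : ι) × Fin (M i)) ⊕ Fin r0) :
    WT q ((δ k : ℤ) * M k + θ - gen_s M δ θ r0 a) (hser L u (herm y M r0 a)) := by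
  rcases a with ⟨i, j⟩ | j
  · by_cases hik : i = k
    · subst hik
      simp only [herm, Sum.elim_inl, hb, gen_s]
      rw [hser_mul', gen_hser_pow]
      refine ((WT.pow h (j : ℕ)).mul (gen_prod_wt0 hy _)).mono (le_of_eq ?_)
      ring
    · have hge := gen_s_ge (M := M) (δ := δ) (θ := θ) (r0 := r0) (Sum.inl ⟨i, j⟩)
      have h1 : k ∈ univ.erase i := Finset.mem_erase.2 ⟨fun h => hik h.symm, Finset.mem_univ _⟩
      simp only [herm, Sum.elim_inl, hb]
      rw [hser_mul']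
      refine ((gen_pow0 (gen_node0 (hy i)) (j : ℕ)).mul (gen_prod_wt hy _ h1 h)).mono ?_
      linarith
  · simp only [herm, Sum.elim_inr, nodeS, gen_s]
    rw [hser_mul']
    refine ((gen_prod_wt hy _ (Finset.mem_univ k) h).mul (gen_pow0 gen_X0 (j : ℕ))).mono
      (le_of_eq ?_)
    ring

theorem gen_entry (h : Adm q L e n y M δ θ r0) (hL : L < q ^ 2) {r : ℕ → ℚ}
    (hr : ∀ i ∈ Finset.Icc 1 10, VG q 0 (r i)) (a b : ((i : ι) × Fin (M i)) ⊕ Fin r0) :
    VG q (-gen_s M δ θ r0 a + -gen_s M δ θ r0 b) (Fq L e r (herm y M r0 a * herm y M r0 b)) := by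
  rw [Fq_eq_sum]
  apply VG.sum
  intro u hu
  have hu' : u ≤ L := Nat.lt_succ_iff.1 (mem_range.1 hu)
  have ha := gen_s_ge (M := M) (δ := δ) (θ := θ) (r0 := r0) a
  have hb := gen_s_ge (M := M) (δ := δ) (θ := θ) (r0 := r0) b
  have hθ : (0 : ℤ) ≤ θ := Int.natCast_nonneg _
  rcases h.cls u hu' with hp | ⟨k, hk1, hk2⟩
  · have hI : gen_IP q (herm y M r0 a * herm y M r0 b) :=
      gen_IP_mul (gen_IP_herm h.int a) (gen_IP_herm h.int b)
    exact (VG_uterm_alone hr hL hu' hp hI).mono (by linarith)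
  · have h0 : WT q (((δ k : ℤ) * M k + θ - gen_s M δ θ r0 a) +
        ((δ k : ℤ) * M k + θ - gen_s M δ θ r0 b)) (hser L u (herm y M r0 a * herm y M r0 b)) := by
      rw [hser_mul']
      exact (gen_wt h.int k hk2 a).mul (gen_wt h.int k hk2 b)
    refine (VG_uterm (e := e) hr hL hu' h0).mono ?_
    have : (ordc q L e u : ℤ) + 4 = 2 * ((δ k : ℤ) * M k + θ) := by exact_mod_cast hk1
    linarith

theorem Adm.bound (h : Adm q L e n y M δ θ r0)
    (hL : L < q ^ 2) {r : ℕ → ℚ} (hr : ∀ i ∈ Finset.Icc 1 10, VG q 0 (r i)) :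
    VG q (-((∑ k, (δ k * M k ^ 2 + δ k * M k + 2 * θ * M k) + 2 * θ * r0 : ℕ) : ℤ))
      (Matrix.of fun i j : Fin n => Fq L e r (X ^ ((i : ℕ) + (j : ℕ)))).det := by
  obtain ⟨f⟩ := exists_enum M r0 n h.sum
  have hdeg : ∀ a, (herm y M r0 a).natDegree < n := fun a => h.sum ▸ natDegree_herm y M r0 a
  have hgram := gram_det f (herm y M r0) hdeg (FqL L e r)
  obtain ⟨ε, hε, hdet⟩ := herm_det_sq y M r0 (fun i k hik hi hk => (h.unit i k hik hi hk).1) f
  have hU : gen_U q ((coefM f (herm y M r0)).det ^ 2) := by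
    rw [hdet]
    apply gen_U_mul
    · rcases hε with rfl | rfl
      · exact gen_U_one
      · exact gen_U_neg gen_U_one
    · refine gen_U_prod _ _ fun i _ => gen_U_prod _ _ fun k hk => gen_U_pow _ fun h0 => ?_
      have hik : i ≠ k := fun h' => (Finset.mem_erase.1 hk).1 h'.symm
      have h2 := h.unit i k hik (fun h' => h0 (by rw [h', zero_mul]))
        (fun h' => h0 (by rw [h', mul_zero]))
      exact ⟨sub_ne_zero.2 h2.1, h2.2⟩
  have hG : VG q (∑ a, -gen_s M δ θ r0 a + ∑ a, -gen_s M δ θ r0 a)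
      (Matrix.of fun a b => FqL L e r (herm y M r0 a * herm y M r0 b)).det := by
    apply VG.det
    intro a b
    exact gen_entry h hL hr a b
  rw [hgram] at hG
  refine (gen_VG_of_mul hU hG).mono (le_of_eq ?_)
  rw [← gen_s_sum, Finset.sum_neg_distrib]
  ring

end Pool.Agent.OZ
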