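import Pool.Agent.OZ.Defs

/-! # The logarithm of `VV` -/

open Finset

namespace Pool.Agent.OZ

/-- `∑_{k < n} log k!` -/
noncomputable def Lam (n : ℕ) : ℝ := ∑ k ∈ range n, Real.log (k.factorial : ℝ)

/-- symmetric double sum -/
noncomputable def lvaS (N : ℕ) (f g : ℕ → ℝ) : ℝ :=
  ∑ u ∈ range N, ∑ v ∈ range N, f u * g v * Real.log |(u : ℝ) - v|

theorem lva_symm (G : ℕ → ℕ → ℝ) (hG : ∀ u v, G u v = G v u) (h0 : ∀ u, G u u = 0) (N : ℕ) :
    ∑ u ∈ range N, ∑ v ∈ range N, G u v = 2 * ∑ u ∈ range N, ∑ v ∈ range u, G u v := by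
  induction N with
  | zero => simp
  | succ N ih =>
    rw [sum_range_succ, sum_range_succ (fun u => ∑ v ∈ range u, G u v), mul_add, ← ih]
    have h1 : ∑ u ∈ range N, ∑ v ∈ range (N + 1), G u v =
        ∑ u ∈ range N, ∑ v ∈ range N, G u v + ∑ u ∈ range N, G u N := by
      rw [← sum_add_distrib]
      apply sum_congr rfl
      intro u _
      rw [sum_range_succ]
    have h2 : ∑ u ∈ range N, G u N = ∑ u ∈ range N, G N u :=
      sum_congr rfl fun u _ => hG u N
    rw [h1, h2, sum_range_succ (fun v => G N v), h0 N]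
    ring

theorem lva_log_factorial (j : ℕ) :
    ∑ i ∈ range j, Real.log ((j : ℝ) - i) = Real.log (j.factorial : ℝ) := by
  induction j with
  | zero => simp
  | succ j ih =>
    rw [sum_range_succ', Nat.factorial_succ]
    push_cast
    rw [Real.log_mul (by positivity) (by exact_mod_cast (Nat.factorial_pos j).ne'), ← ih, add_comm]
    congr 1
    · simp
    · apply sum_congr rfl
      intro i _
      congr 1
      ring

theorem lva_log_factorial' (j : ℕ) :
    ∑ i ∈ range j, Real.log ((i : ℝ) + 1) = Real.log (j.factorial : ℝ) := by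
  induction j with
  | zero => simp
  | succ j ih =>
    rw [sum_range_succ, Nat.factorial_succ, ih]
    push_cast
    rw [Real.log_mul (by positivity) (by exact_mod_cast (Nat.factorial_pos j).ne'), add_comm]

theorem lva_inner {n j : ℕ} (hj : j < n) :
    ∑ i ∈ range n, Real.log |(i : ℝ) - j| =
      Real.log (j.factorial : ℝ) + Real.log ((n - 1 - j).factorial : ℝ) := by
  have h1 : n = j + 1 + (n - 1 - j) := by omega
  rw [h1, sum_range_add, sum_range_succ]
  have h2 : ∑ i ∈ range j, Real.log |(i : ℝ) - j| = Real.log (j.factorial : ℝ) := by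
    rw [← lva_log_factorial j]
    apply sum_congr rfl
    intro i hi
    have hi' : (i : ℝ) < j := by exact_mod_cast mem_range.1 hi
    rw [abs_sub_comm, abs_of_pos (by linarith)]
  have h3 : ∑ i ∈ range (n - 1 - j), Real.log |((j + 1 + i : ℕ) : ℝ) - j| =
      Real.log ((n - 1 - j).factorial : ℝ) := by
    rw [← lva_log_factorial' (n - 1 - j)]
    apply sum_congr rfl
    intro i _
    have h4 : ((j + 1 + i : ℕ) : ℝ) - j = (i : ℝ) + 1 := by push_cast; ring
    rw [h4, abs_of_pos (by positivity)]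
  rw [h2, h3]
  have h5 : j + 1 + (n - 1 - j) - 1 - j = n - 1 - j := by omega
  rw [h5, sub_self, abs_zero, Real.log_zero, add_zero]

/-- indicator of `[s, s + n)` -/
noncomputable def lvaI (s n u : ℕ) : ℝ := if s ≤ u ∧ u < s + n then 1 else 0

theorem lva_sum_ind {N s n : ℕ} (h : s + n ≤ N) (F : ℕ → ℝ) :
    ∑ u ∈ range N, lvaI s n u * F u = ∑ i ∈ range n, F (s + i) := by
  have h1 : ∑ u ∈ range N, lvaI s n u * F u = ∑ u ∈ Finset.Ico s (s + n), F u := by
    have h2 : Finset.Ico s (s + n) = (range N).filter (fun u => s ≤ u ∧ u < s + n) := by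
      ext u
      simp only [mem_Ico, mem_filter, mem_range]
      omega
    rw [h2, sum_filter]
    apply sum_congr rfl
    intro u _
    unfold lvaI
    split_ifs <;> simp
  rw [h1, sum_Ico_eq_sum_range]
  simp

theorem Lam_succ (n : ℕ) : Lam (n + 1) = Lam n + Real.log (n.factorial : ℝ) := by
  unfold Lam
  rw [sum_range_succ]

theorem lva_shift (k n : ℕ) :
    ∑ i ∈ range n, Real.log ((k + i).factorial : ℝ) = Lam (k + n) - Lam k := by
  induction n with
  | zero => simp
  | succ n ih =>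
    rw [sum_range_succ, ih, ← add_assoc, Lam_succ]
    ring

theorem lva_SI {N s n k : ℕ} (h : s + n ≤ N) (hk : 2 * k ≤ n) :
    lvaS N (lvaI s n) (lvaI (s + k) (n - 2 * k)) = 2 * (Lam (n - k) - Lam k) := by
  unfold lvaS
  have h1 : ∀ u ∈ range N, ∑ v ∈ range N, lvaI s n u * lvaI (s + k) (n - 2 * k) v *
      Real.log |(u : ℝ) - v| = lvaI s n u *
        ∑ v ∈ range N, lvaI (s + k) (n - 2 * k) v * Real.log |(u : ℝ) - v| := by
    intro u _
    rw [mul_sum]
    apply sum_congr rfl
    intro v _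
    ring
  rw [sum_congr rfl h1, lva_sum_ind h]
  have h2 : ∀ i ∈ range n, ∑ v ∈ range N, lvaI (s + k) (n - 2 * k) v *
      Real.log |((s + i : ℕ) : ℝ) - v| =
        ∑ j ∈ range (n - 2 * k), Real.log |((s + i : ℕ) : ℝ) - ((s + k + j : ℕ) : ℝ)| := by
    intro i _
    rw [lva_sum_ind (by omega)]
  rw [sum_congr rfl h2, sum_comm]
  have h3 : ∀ j ∈ range (n - 2 * k),
      ∑ i ∈ range n, Real.log |((s + i : ℕ) : ℝ) - ((s + k + j : ℕ) : ℝ)| =
        Real.log ((k + j).factorial : ℝ) + Real.log ((n - 1 - (k + j)).factorial : ℝ) := by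
    intro j hj
    rw [mem_range] at hj
    rw [← lva_inner (by omega : k + j < n)]
    apply sum_congr rfl
    intro i _
    congr 2
    push_cast
    ring
  rw [sum_congr rfl h3, sum_add_distrib, lva_shift]
  have h4 : ∑ j ∈ range (n - 2 * k), Real.log ((n - 1 - (k + j)).factorial : ℝ) =
      ∑ j ∈ range (n - 2 * k), Real.log ((k + j).factorial : ℝ) := by
    rw [← sum_range_reflect]
    apply sum_congr rfl
    intro j hj
    rw [mem_range] at hj
    congr 3
    omega
  rw [h4, lva_shift]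
  have h5 : k + (n - 2 * k) = n - k := by omega
  rw [h5]
  ring

theorem lva_SI' {N s n s' n' a b : ℕ} (h : s + n ≤ N) (hk : 2 * b ≤ n) (hs : s' = s + b)
    (hn : n' = n - 2 * b) (ha : a = n - b) :
    lvaS N (lvaI s n) (lvaI s' n') = 2 * (Lam a - Lam b) := by
  subst hs hn ha
  exact lva_SI h hk

theorem lva_pr (m u : ℕ) (hu : u < 16 * m + 2) :
    (pr m u : ℝ) = 2 * lvaI 0 (16 * m + 2) u + 4 * lvaI m (14 * m + 2) u +
      4 * lvaI (2 * m) (12 * m + 2) u := by
  unfold pr lvaI
  rw [if_pos (⟨Nat.zero_le _, by omega⟩ : 0 ≤ u ∧ u < 0 + (16 * m + 2))]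
  by_cases h1 : u < m ∨ 15 * m + 1 < u
  · rw [if_pos h1, if_neg (by omega), if_neg (by omega)]
    norm_num
  · rw [if_neg h1, if_pos (by omega : m ≤ u ∧ u < m + (14 * m + 2))]
    by_cases h2 : u < 2 * m ∨ 14 * m + 1 < u
    · rw [if_pos h2, if_neg (by omega)]
      norm_num
    · rw [if_neg h2, if_pos (by omega)]
      norm_num

theorem lvaS_comm (N : ℕ) (f g : ℕ → ℝ) : lvaS N f g = lvaS N g f := by
  unfold lvaS
  rw [sum_comm]
  apply sum_congr rfl
  intro u _
  apply sum_congr rfl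
  intro v _
  rw [abs_sub_comm]
  ring

theorem log_VV_eq {m : ℕ} (hm : 1 ≤ m) : Real.log (VV m) = 4 * Lam (16 * m + 2) +
    16 * (Lam (15 * m + 2) - Lam m) + 16 * (Lam (14 * m + 2) - Lam (2 * m)) +
    16 * Lam (14 * m + 2) + 32 * (Lam (13 * m + 2) - Lam m) + 16 * Lam (12 * m + 2) := by
  set N := 16 * m + 2 with hN
  have h1 : Real.log (VV m) = ∑ u ∈ range N, ∑ v ∈ range u,
      (pr m u : ℝ) * (pr m v : ℝ) * Real.log |(u : ℝ) - v| := by
    unfold VV
    push_cast
    rw [Real.log_prod]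
    · apply sum_congr rfl
      intro u _
      rw [Real.log_prod]
      · apply sum_congr rfl
        intro v hv
        rw [mem_range] at hv
        have hv' : (v : ℝ) < u := by exact_mod_cast hv
        rw [Real.log_pow, Nat.cast_sub hv.le, abs_of_pos (by linarith)]
        push_cast
        ring
      · intro v hv
        rw [mem_range] at hv
        apply pow_ne_zero
        exact_mod_cast (by omega : u - v ≠ 0)
    · intro u _
      apply prod_ne_zero_iff.2
      intro v hv
      rw [mem_range] at hv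
      apply pow_ne_zero
      exact_mod_cast (by omega : u - v ≠ 0)
  have h2 : lvaS N (fun u => (pr m u : ℝ)) (fun u => (pr m u : ℝ)) = 2 * Real.log (VV m) := by
    rw [h1]
    unfold lvaS
    apply lva_symm (fun u v => (pr m u : ℝ) * (pr m v : ℝ) * Real.log |(u : ℝ) - v|)
    · intro u v
      rw [abs_sub_comm]
      ring
    · intro u
      simp
  have h3 : lvaS N (fun u => (pr m u : ℝ)) (fun u => (pr m u : ℝ)) =
      4 * lvaS N (lvaI 0 (16 * m + 2)) (lvaI 0 (16 * m + 2)) +
      16 * lvaS N (lvaI m (14 * m + 2)) (lvaI m (14 * m + 2)) +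
      16 * lvaS N (lvaI (2 * m) (12 * m + 2)) (lvaI (2 * m) (12 * m + 2)) +
      8 * (lvaS N (lvaI 0 (16 * m + 2)) (lvaI m (14 * m + 2)) +
        lvaS N (lvaI m (14 * m + 2)) (lvaI 0 (16 * m + 2))) +
      8 * (lvaS N (lvaI 0 (16 * m + 2)) (lvaI (2 * m) (12 * m + 2)) +
        lvaS N (lvaI (2 * m) (12 * m + 2)) (lvaI 0 (16 * m + 2))) +
      16 * (lvaS N (lvaI m (14 * m + 2)) (lvaI (2 * m) (12 * m + 2)) +
        lvaS N (lvaI (2 * m) (12 * m + 2)) (lvaI m (14 * m + 2))) := by
    unfold lvaS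
    simp only [mul_sum, ← sum_add_distrib]
    apply sum_congr rfl
    intro u hu
    apply sum_congr rfl
    intro v hv
    rw [mem_range] at hu hv
    simp only [lva_pr m u hu, lva_pr m v hv]
    ring
  have L0 : Lam 0 = 0 := by simp [Lam]
  have e1 := lva_SI' (N := N) (s := 0) (n := 16 * m + 2) (s' := 0) (n' := 16 * m + 2)
    (a := 16 * m + 2) (b := 0) (by omega) (by omega) (by omega) (by omega) (by omega)
  have e2 := lva_SI' (N := N) (s := m) (n := 14 * m + 2) (s' := m) (n' := 14 * m + 2)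
    (a := 14 * m + 2) (b := 0) (by omega) (by omega) (by omega) (by omega) (by omega)
  have e3 := lva_SI' (N := N) (s := 2 * m) (n := 12 * m + 2) (s' := 2 * m) (n' := 12 * m + 2)
    (a := 12 * m + 2) (b := 0) (by omega) (by omega) (by omega) (by omega) (by omega)
  have e4 := lva_SI' (N := N) (s := 0) (n := 16 * m + 2) (s' := m) (n' := 14 * m + 2)
    (a := 15 * m + 2) (b := m) (by omega) (by omega) (by omega) (by omega) (by omega)
  have e5 := lva_SI' (N := N) (s := 0) (n := 16 * m + 2) (s' := 2 * m) (n' := 12 * m + 2)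
    (a := 14 * m + 2) (b := 2 * m) (by omega) (by omega) (by omega) (by omega) (by omega)
  have e6 := lva_SI' (N := N) (s := m) (n := 14 * m + 2) (s' := 2 * m) (n' := 12 * m + 2)
    (a := 13 * m + 2) (b := m) (by omega) (by omega) (by omega) (by omega) (by omega)
  rw [L0, sub_zero] at e1 e2 e3
  rw [h2, lvaS_comm N (lvaI m (14 * m + 2)) (lvaI 0 (16 * m + 2)),
    lvaS_comm N (lvaI (2 * m) (12 * m + 2)) (lvaI 0 (16 * m + 2)),
    lvaS_comm N (lvaI (2 * m) (12 * m + 2)) (lvaI m (14 * m + 2)), e1, e2, e3, e4, e5, e6] at h3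
  linarith

end Pool.Agent.OZ
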