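import Pool.Agent.OZ.Defs

/-!
# Non-vanishing: the small determinants (module NVD)
-/

open Finset

namespace Pool.Agent.OZ

/-- a certificate for a non-zero determinant -/
theorem nvd_cert {n : ℕ} (A B : Matrix (Fin n) (Fin n) ℤ) (d : ℤ) (hd : d ≠ 0)
    (h : ∀ i j, ∑ k, A i k * B k j = if i = j then d else 0) : A.det ≠ 0 := by
  intro h0
  have h1 : A * B = d • (1 : Matrix (Fin n) (Fin n) ℤ) := by
    ext i j
    rw [Matrix.mul_apply, h, Matrix.smul_apply, Matrix.one_apply]
    split_ifs <;> simp
  have h2 := congrArg Matrix.det h1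
  rw [Matrix.det_mul, h0, zero_mul, Matrix.det_smul, Matrix.det_one, mul_one] at h2
  exact pow_ne_zero _ hd h2.symm

/-- values -/
def nvdVtwo : List ℤ := [4990, -2001, 715, -220, 55, -10, 1, 0, 0, 0, 0]

/-- cofactors -/
def nvdBtwo : List (List ℤ) := [[-1, -10, -45, -120, -210, -251], [-10, -100, -450, -1200, -2100, -2305], [-45, -450, -2025, -5400, -9245, -9245], [-120, -1200, -5400, -14195, -23150, -20895], [-210, -2100, -9245, -23150, -34875, -28110], [-251, -2305, -9245, -20895, -28110, -19951]]

theorem nvd_val_two : ∀ k < 11, hh 2 k = nvdVtwo.getD k 0 := by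
  decide +kernel

theorem det_hh_two : (Matrix.of fun i j : Fin 6 => hh 2 ((i : ℕ) + (j : ℕ))).det ≠ 0 := by
  have e : (Matrix.of fun i j : Fin 6 => hh 2 ((i : ℕ) + (j : ℕ))) =
      Matrix.of fun i j : Fin 6 => nvdVtwo.getD ((i : ℕ) + (j : ℕ)) 0 := by
    ext i j
    rw [Matrix.of_apply, Matrix.of_apply]
    exact nvd_val_two _ (by have := i.2; have := j.2; omega)
  rw [e]
  refine nvd_cert _ (Matrix.of fun i j : Fin 6 => (nvdBtwo.getD (i : ℕ) []).getD (j : ℕ) 0) 205
    (by norm_num) ?_
  decide +kernel

/-- values -/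
def nvdVsix : List ℤ := [80750, -45560, 23630, -11320, 4990, -2001, 715, -220, 55, -10, 1, 0, 0, 0, 0]

/-- cofactors -/
def nvdBsix : List (List ℤ) := [[-985, -9285, -38810, -94125, -145125, -144785, -88460, -26410], [-9285, -87404, -364702, -882500, -1356495, -1347315, -817249, -240507], [-38810, -364702, -1518413, -3663720, -5609775, -5540890, -3331182, -964203], [-94125, -882500, -3663720, -8807200, -13418025, -13159275, -7824325, -2221460], [-145125, -1356495, -5609775, -13418025, -20307150, -19731825, -11571235, -3211825], [-144785, -1347315, -5540890, -13159275, -19731825, -18935600, -10909940, -2946515], [-88460, -817249, -3331182, -7824325, -11571235, -10909940, -6137694, -1599437], [-26410, -240507, -964203, -2221460, -3211825, -2946515, -1599437, -395118]]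

theorem nvd_val_six : ∀ k < 15, hh 6 k = nvdVsix.getD k 0 := by
  decide +kernel

theorem det_hh_six : (Matrix.of fun i j : Fin 8 => hh 6 ((i : ℕ) + (j : ℕ))).det ≠ 0 := by
  have e : (Matrix.of fun i j : Fin 8 => hh 6 ((i : ℕ) + (j : ℕ))) =
      Matrix.of fun i j : Fin 8 => nvdVsix.getD ((i : ℕ) + (j : ℕ)) 0 := by
    ext i j
    rw [Matrix.of_apply, Matrix.of_apply]
    exact nvd_val_six _ (by have := i.2; have := j.2; omega)
  rw [e]
  refine nvd_cert _ (Matrix.of fun i j : Fin 8 => (nvdBsix.getD (i : ℕ) []).getD (j : ℕ) 0) 2885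
    (by norm_num) ?_
  decide +kernel

/-- values -/
def nvdVten : List ℤ := [0, -177650, 177650, -129200, 80750, -45560, 23630, -11320, 4990, -2001, 715, -220, 55, -10, 1, 0, 0, 0, 0]

/-- cofactors -/
def nvdBten : List (List ℤ) := [[-120, -1315, -6540, -19470, -38501, -52855, -50810, -33335, -13755, -2751], [-1315, -14290, -70470, -208001, -407745, -554760, -528235, -342905, -139701, -27390], [-6540, -70470, -344501, -1007745, -1957240, -2637135, -2484705, -1593751, -639790, -122480], [-19470, -208001, -1007745, -2920240, -5615715, -7486605, -6971551, -4411090, -1740380, -323580], [-38501, -407745, -1957240, -5615715, -10684845, -14079751, -12939490, -8059280, -3114780, -558240], [-52855, -554760, -2637135, -7486605, -14079751, -18313390, -16577480, -10134330, -3818240, -652000], [-50810, -528235, -2484705, -6971551, -12939490, -16577480, -14736330, -8801990, -3207500, -511100], [-33335, -342905, -1593751, -4411090, -8059280, -10134330, -8801990, -5096000, -1770100, -251800], [-13755, -139701, -639790, -1740380, -3114780,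 -3818240, -3207500, -1770100, -566550, -62950], [-2751, -27390, -122480, -323580, -558240, -652000, -511100, -251800, -62950, 0]]

theorem nvd_val_ten : ∀ k < 19, hh 10 k = nvdVten.getD k 0 := by
  decide +kernel

theorem det_hh_ten : (Matrix.of fun i j : Fin 10 => hh 10 ((i : ℕ) + (j : ℕ))).det ≠ 0 := by
  have e : (Matrix.of fun i j : Fin 10 => hh 10 ((i : ℕ) + (j : ℕ))) =
      Matrix.of fun i j : Fin 10 => nvdVten.getD ((i : ℕ) + (j : ℕ)) 0 := by
    ext i j
    rw [Matrix.of_apply, Matrix.of_apply]
    exact nvd_val_ten _ (by have := i.2; have := j.2; omega)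
  rw [e]
  refine nvd_cert _ (Matrix.of fun i j : Fin 10 => (nvdBten.getD (i : ℕ) []).getD (j : ℕ) 0) 1
    (by norm_num) ?_
  decide +kernel

/-- values -/
def nvdVgg : List ℤ := [177650, -193800, 212160, -232960, 256256, -281600, 307200, -327680, 327680]

/-- cofactors -/
def nvdBgg : List (List ℤ) := [[3932160, 9789440, 8499200, 2982400, 352128], [9789440, 24371200, 21158400, 7424128, 876480], [8499200, 21158400, 18368128, 6444480, 760720], [2982400, 7424128, 6444480, 2260720, 266800], [352128, 876480, 760720, 266800, 31475]]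

theorem nvd_val_gg : ∀ k < 9, gg k = nvdVgg.getD k 0 := by
  decide +kernel

theorem det_gg : (Matrix.of fun i j : Fin 5 => gg ((i : ℕ) + (j : ℕ))).det ≠ 0 := by
  have e : (Matrix.of fun i j : Fin 5 => gg ((i : ℕ) + (j : ℕ))) =
      Matrix.of fun i j : Fin 5 => nvdVgg.getD ((i : ℕ) + (j : ℕ)) 0 := by
    ext i j
    rw [Matrix.of_apply, Matrix.of_apply]
    exact nvd_val_gg _ (by have := i.2; have := j.2; omega)
  rw [e]
  refine nvd_cert _ (Matrix.of fun i j : Fin 5 => (nvdBgg.getD (i : ℕ) []).getD (j : ℕ) 0) 32768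
    (by norm_num) ?_
  decide +kernel

end Pool.Agent.OZ
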