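import Pool.Agent.OZ.Defs
import Pool.Agent.Z5.NVUnit
import Pool.Agent.Z5.NVHarm
import Pool.Agent.Z5.NVLoc

/-! # The local formula at a pole `u = c + p` -/

open Finset Polynomial

namespace Pool.Agent.OZ

open Pool.Agent.Z5 (w evY dser xser hser lser co rho Hs zt tot VG)
open Pool.Agent.Z9 (IsProf)
open Pool.Agent.Z5.NV (Zp Cg Un SC)

/-- product over the poles of the other classes -/
noncomputable def Dl (p : ℕ) (e : ℕ → ℕ) (c : ℕ) : ℚ :=
  ∏ v ∈ (range (2 * p)).filter (fun v => v % p ≠ c), ((v : ℚ) - c) ^ e v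

theorem nvl_not_dvd {p : ℕ} {v c : ℕ} (hc : c < p) (hv : v % p ≠ c) :
    ¬ (p : ℤ) ∣ (v : ℤ) - c := by
  intro h
  apply hv
  have h1 : (v : ℤ) % p = (c : ℤ) % p := Int.ModEq.eq ((Int.modEq_iff_dvd.2 h).symm)
  have h2 : ((v % p : ℕ) : ℤ) = ((c % p : ℕ) : ℤ) := by
    push_cast
    exact h1
  have h3 : v % p = c % p := by exact_mod_cast h2
  rw [h3, Nat.mod_eq_of_lt hc]

theorem Dl_unit {p : ℕ} (hp : p.Prime) (e : ℕ → ℕ) {c : ℕ} (hc : c < p) :
    Un p hp (Dl p e c) := by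
  unfold Dl
  refine Un.prod _ _ fun v hv => Un.pow ?_ _
  have h1 := (Finset.mem_filter.mp hv).2
  have h2 := Pool.Agent.Z5.NV.Un_int (hp := hp) (nvl_not_dvd hc h1)
  push_cast at h2
  exact h2

/-- reflection -/
theorem Dl_refl {p : ℕ} (hp : p.Prime) {e : ℕ → ℕ} (hev : ∀ u, Even (e u))
    (hs : ∀ u < 2 * p, e (2 * p - 1 - u) = e u) {c : ℕ} (hc : c < p) :
    Cg p hp (Dl p e (p - 1 - c)) (Dl p e c) := by
  have hp0 := hp.pos
  have hmod : ∀ v < 2 * p, v % p = if v < p then v else v - p := by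
    intro v hv
    split_ifs with h
    · exact Nat.mod_eq_of_lt h
    · rw [Nat.mod_eq_sub_mod (by omega), Nat.mod_eq_of_lt (by omega)]
  have h1 : Dl p e (p - 1 - c) =
      ∏ v ∈ (range (2 * p)).filter (fun v => v % p ≠ c), ((p : ℚ) - ((v : ℚ) - c)) ^ e v := by
    unfold Dl
    refine Finset.prod_nbij' (fun v => 2 * p - 1 - v) (fun v => 2 * p - 1 - v) ?_ ?_ ?_ ?_ ?_
    · intro v hv
      rw [Finset.mem_filter, Finset.mem_range] at hv ⊢
      obtain ⟨h2, h3⟩ := hv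
      refine ⟨by omega, ?_⟩
      rw [hmod v h2] at h3
      rw [hmod _ (by omega)]
      split_ifs at h3 ⊢ <;> omega
    · intro v hv
      rw [Finset.mem_filter, Finset.mem_range] at hv ⊢
      obtain ⟨h2, h3⟩ := hv
      refine ⟨by omega, ?_⟩
      rw [hmod v h2] at h3
      rw [hmod _ (by omega)]
      split_ifs at h3 ⊢ <;> omega
    · intro v hv
      have h2 := Finset.mem_range.mp (Finset.mem_filter.mp hv).1
      show 2 * p - 1 - (2 * p - 1 - v) = v
      omega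
    · intro v hv
      have h2 := Finset.mem_range.mp (Finset.mem_filter.mp hv).1
      show 2 * p - 1 - (2 * p - 1 - v) = v
      omega
    · intro v hv
      have h2 := Finset.mem_range.mp (Finset.mem_filter.mp hv).1
      show _ = ((p : ℚ) - (((2 * p - 1 - v : ℕ) : ℚ) - c)) ^ e (2 * p - 1 - v)
      rw [hs v h2]
      have h3 : ((p - 1 - c : ℕ) : ℚ) = (p : ℚ) - 1 - c := by
        rw [Nat.cast_sub (by omega), Nat.cast_sub (by omega)]
        simp
      have h4 : ((2 * p - 1 - v : ℕ) : ℚ) = 2 * (p : ℚ) - 1 - v := by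
        rw [Nat.cast_sub (by omega), Nat.cast_sub (by omega)]
        push_cast
        ring
      rw [h3, h4]
      congr 1
      ring
  rw [h1]
  unfold Dl
  refine Cg.prod _ _ _ (fun v _ => ?_) fun v _ => ?_
  · exact pow_mem (sub_mem (Pool.Agent.Z5.NV.Zp_nat v) (Pool.Agent.Z5.NV.Zp_nat c)) _
  · have h2 : Cg p hp ((p : ℚ) - ((v : ℚ) - c)) (-((v : ℚ) - c)) :=
      ⟨1, one_mem _, by ring⟩
    have h3 := h2.pow (neg_mem (sub_mem (Pool.Agent.Z5.NV.Zp_nat v) (Pool.Agent.Z5.NV.Zp_nat c))) (e v)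
    rwa [(hev v).neg_pow] at h3

/-- the rescaled factors of the other classes -/
noncomputable def nvlW (p : ℕ) (e : ℕ → ℕ) (c : ℕ) : PowerSeries ℚ :=
  ∏ v ∈ (range (2 * p)).filter (fun v => v % p ≠ c),
    (PowerSeries.C ((v : ℚ) - c - p) + PowerSeries.C (p : ℚ) * PowerSeries.X) ^ e v

theorem nvlW_SC {p : ℕ} (hp : p.Prime) (e : ℕ → ℕ) (c : ℕ) :
    SC p hp (nvlW p e c) (PowerSeries.C (Dl p e c)) := by
  unfold nvlW Dl
  rw [map_prod]
  refine SC.prod _ _ _ fun v _ => ?_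
  rw [map_pow]
  refine SC.pow (fun k => ⟨?_, ?_⟩) _
  · rw [map_add, PowerSeries.coeff_C_mul, PowerSeries.coeff_C, PowerSeries.coeff_C,
      PowerSeries.coeff_X]
    refine ⟨(if k = 0 then (-1 : ℚ) else 0) + (if k = 1 then 1 else 0), ?_, ?_⟩
    · refine (Zp p hp).add_mem ?_ ?_
      · split_ifs
        · exact (Zp p hp).neg_mem (Zp p hp).one_mem
        · exact (Zp p hp).zero_mem
      · split_ifs
        · exact (Zp p hp).one_mem
        · exact (Zp p hp).zero_mem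
    · by_cases hk : k = 0
      · subst hk; simp
      · simp [hk]
  · rw [PowerSeries.coeff_C]
    split_ifs
    · exact (Zp p hp).sub_mem (Pool.Agent.Z5.NV.Zp_nat v) (Pool.Agent.Z5.NV.Zp_nat c)
    · exact (Zp p hp).zero_mem

theorem nvl_C_SC {p : ℕ} {hp : p.Prime} {a : ℚ} (ha : a ∈ Zp p hp) :
    SC p hp (PowerSeries.C a) (PowerSeries.C a) := by
  intro k
  refine ⟨Cg.refl _, ?_⟩
  rw [PowerSeries.coeff_C]
  split_ifs
  · exact ha
  · exact (Zp p hp).zero_mem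

theorem nvlW_inv_SC {p : ℕ} (hp : p.Prime) (e : ℕ → ℕ) {c : ℕ} (hc : c < p) :
    SC p hp (nvlW p e c)⁻¹ (PowerSeries.C (Dl p e c)⁻¹) := by
  have hU := Dl_unit hp e hc
  have h1 : SC p hp (PowerSeries.C (Dl p e c)⁻¹ * nvlW p e c) 1 := by
    have h2 := (nvl_C_SC hU.2.2).mul (nvlW_SC hp e c)
    rwa [← map_mul, inv_mul_cancel₀ hU.1, map_one] at h2
  have h3 := (nvl_C_SC hU.2.2).mul (Pool.Agent.Z5.NV.inv_SC h1)
  have h4 : PowerSeries.C (Dl p e c)⁻¹ * (PowerSeries.C (Dl p e c)⁻¹ * nvlW p e c)⁻¹ =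
      (nvlW p e c)⁻¹ := by
    rw [PowerSeries.mul_inv_rev, PowerSeries.C_inv, inv_inv, mul_comm, mul_assoc, ← map_mul,
      mul_inv_cancel₀ hU.1, map_one, mul_one]
  rwa [h4, mul_one] at h3

/-- the rescaled denominator at `u = c + p` -/
theorem nvl_dser2 {p : ℕ} (hp : p.Prime) {e : ℕ → ℕ} (hev : ∀ u, Even (e u)) {c : ℕ} (hc : c < p) :
    PowerSeries.rescale (p : ℚ) (dser (2 * p - 1) e (c + p)) =
      PowerSeries.C ((p : ℚ) ^ e c) * (1 - PowerSeries.X) ^ e c * nvlW p e c := by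
  have hp0 := hp.pos
  have hmod : ∀ v < 2 * p, v % p = if v < p then v else v - p := by
    intro v hv
    split_ifs with h
    · exact Nat.mod_eq_of_lt h
    · rw [Nat.mod_eq_sub_mod (by omega), Nat.mod_eq_of_lt (by omega)]
  have hset : (range (2 * p - 1 + 1)).erase (c + p) =
      insert c ((range (2 * p)).filter (fun v => v % p ≠ c)) := by
    ext v
    rw [Finset.mem_erase, Finset.mem_insert, Finset.mem_filter, Finset.mem_range, Finset.mem_range]
    constructor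
    · rintro ⟨h1, h2⟩
      by_cases h3 : v = c
      · exact Or.inl h3
      · right
        refine ⟨by omega, ?_⟩
        rw [hmod v (by omega)]
        split_ifs <;> omega
    · rintro (h1 | ⟨h1, h2⟩)
      · omega
      · rw [hmod v (by omega)] at h2
        split_ifs at h2 <;> omega
  have hX : PowerSeries.rescale (p : ℚ) (PowerSeries.X : PowerSeries ℚ) =
      PowerSeries.C (p : ℚ) * PowerSeries.X := by
    rw [PowerSeries.rescale_X]
  unfold dser nvlW
  rw [hset, Finset.prod_insert (by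
    rw [Finset.mem_filter]
    rintro ⟨-, h⟩
    exact h (Nat.mod_eq_of_lt hc)), map_mul, map_prod]
  congr 1
  · rw [map_pow, map_add, hX, Pool.Agent.Z5.NV.nvl_rescale_C]
    have h1 : (PowerSeries.C ((c : ℚ) - ((c + p : ℕ) : ℚ)) + PowerSeries.C (p : ℚ) * PowerSeries.X :
        PowerSeries ℚ) = -(PowerSeries.C (p : ℚ) * (1 - PowerSeries.X)) := by
      have h2 : (c : ℚ) - ((c + p : ℕ) : ℚ) = -p := by push_cast; ring
      rw [h2, map_neg]
      ring
    rw [h1, (hev c).neg_pow, mul_pow, map_pow]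
  · refine Finset.prod_congr rfl fun v _ => ?_
    rw [map_pow, map_add, hX, Pool.Agent.Z5.NV.nvl_rescale_C]
    congr 3
    push_cast
    ring

theorem nvl_geo (d : ℕ) : ((1 - PowerSeries.X : PowerSeries ℚ) ^ d)⁻¹ = (PowerSeries.mk 1) ^ d := by
  have h1 := PowerSeries.mk_one_mul_one_sub_eq_one ℚ
  have h2 : (1 - PowerSeries.X : PowerSeries ℚ) ^ d * (PowerSeries.mk 1) ^ d = 1 := by
    rw [← mul_pow, mul_comm, h1, one_pow]
  have h0 : PowerSeries.constantCoeff ((1 - PowerSeries.X : PowerSeries ℚ) ^ d) ≠ 0 := by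
    rw [map_pow, map_sub, map_one, PowerSeries.constantCoeff_X, sub_zero, one_pow]
    exact one_ne_zero
  rw [PowerSeries.inv_eq_iff_mul_eq_one h0, mul_comm, h2]

theorem nvl_mk_SC {p : ℕ} {hp : p.Prime} :
    SC p hp (PowerSeries.mk 1) (PowerSeries.mk 1) := by
  intro k
  refine ⟨Cg.refl _, ?_⟩
  rw [PowerSeries.coeff_mk]
  exact (Zp p hp).one_mem

theorem nv_uterm {p : ℕ} (hp : p.Prime) {e : ℕ → ℕ} (hev : ∀ u, Even (e u))
    (he : ∀ u < 2 * p, 1 ≤ e u ∧ e u ≤ 10) {c : ℕ} (hc : c < p) {r : ℕ → ℚ}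
    (hr : ∀ i ∈ Finset.Icc 1 10, r i ∈ Zp p hp) {h : ℚ[X]} {k : ℕ} {x : PowerSeries ℚ}
    (hx : SC p hp (PowerSeries.C (((p : ℚ) ^ k)⁻¹) *
      PowerSeries.rescale (p : ℚ) (xser (2 * p - 1) (c + p) * hser (2 * p - 1) (c + p) h)) x) :
    Cg p hp ((p : ℚ) ^ (e c + e (c + p) + 4) * ((p : ℚ) ^ k)⁻¹ * uterm (2 * p - 1) e r h (c + p))
      (-((Dl p e c)⁻¹ * PowerSeries.coeff (e (c + p) - 1)
        (x * PowerSeries.mk fun n => (((n + e c + 4).choose (e c + 4) : ℕ) : ℚ)))) := by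
  have hp0 : (p : ℚ) ≠ 0 := by exact_mod_cast hp.ne_zero
  obtain ⟨hE1, hE2⟩ := he (c + p) (by omega)
  set E := e (c + p) with hE
  set Y : PowerSeries ℚ := PowerSeries.C (((p : ℚ) ^ k)⁻¹) *
      PowerSeries.rescale (p : ℚ) (xser (2 * p - 1) (c + p) * hser (2 * p - 1) (c + p) h) with hY
  set Z : PowerSeries ℚ := Y * (PowerSeries.mk 1) ^ e c * (nvlW p e c)⁻¹ with hZ
  set G : PowerSeries ℚ := x * (PowerSeries.mk 1) ^ e c * PowerSeries.C (Dl p e c)⁻¹ with hG
  have hZG : SC p hp Z G :=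
    (hx.mul (nvl_mk_SC.pow (e c))).mul (nvlW_inv_SC hp e hc)
  have hres : PowerSeries.rescale (p : ℚ) (lser (2 * p - 1) e (c + p) h) =
      PowerSeries.C ((p : ℚ) ^ k * ((p : ℚ) ^ e c)⁻¹) * Z := by
    unfold lser
    rw [mul_right_comm, map_mul, Pool.Agent.Z5.NV.nvl_rescale_inv, nvl_dser2 hp hev hc,
      PowerSeries.mul_inv_rev, PowerSeries.mul_inv_rev, nvl_geo, PowerSeries.C_inv, hZ, hY,
      map_mul PowerSeries.C ((p : ℚ) ^ k) ((p : ℚ) ^ e c)⁻¹]
    have h1 : (PowerSeries.C ((p : ℚ) ^ k) : PowerSeries ℚ) * PowerSeries.C (((p : ℚ) ^ k)⁻¹) = 1 := by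
      rw [← map_mul, mul_inv_cancel₀ (pow_ne_zero _ hp0), map_one]
    generalize PowerSeries.rescale (p : ℚ) (xser (2 * p - 1) (c + p) * hser (2 * p - 1) (c + p) h) = R
    generalize (PowerSeries.C ((p : ℚ) ^ k) : PowerSeries ℚ) = A at h1 ⊢
    generalize (PowerSeries.C (((p : ℚ) ^ k)⁻¹) : PowerSeries ℚ) = B at h1 ⊢
    generalize (PowerSeries.C (((p : ℚ) ^ e c)⁻¹) : PowerSeries ℚ) = D
    linear_combination (-(R * (nvlW p e c)⁻¹ * PowerSeries.mk 1 ^ e c * D)) * h1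
  have hco : ∀ n, PowerSeries.coeff n (lser (2 * p - 1) e (c + p) h) =
      ((p : ℚ) ^ n)⁻¹ * ((p : ℚ) ^ k * ((p : ℚ) ^ e c)⁻¹) * PowerSeries.coeff n Z := by
    intro n
    have h1 := congrArg (PowerSeries.coeff n) hres
    rw [PowerSeries.coeff_rescale, PowerSeries.coeff_C_mul] at h1
    rw [mul_assoc, ← h1, ← mul_assoc, inv_mul_cancel₀ (pow_ne_zero _ hp0), one_mul]
  -- the harmonic factor
  have hharm : ∀ i ∈ Finset.Icc 1 10, Cg p hp ((p : ℚ) ^ (i + 4) * (r i - Hs (i + 4) (c + p))) (-1) := by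
    intro i hi
    have h1 := Pool.Agent.Z5.NV.Hs_cg (p := p) hp hc (i := i + 4) (by omega) 1
    rw [mul_one] at h1
    have h2 : Hs (i + 4) 1 = 1 := by simp [Hs]
    rw [h2] at h1
    have h3 : Cg p hp ((p : ℚ) ^ (i + 4) * r i) 0 := by
      refine ⟨(p : ℚ) ^ (i + 3) * r i, mul_mem (pow_mem Pool.Agent.Z5.NV.Zp_p _) (hr i hi), ?_⟩
      ring
    have h4 := h3.sub h1
    rw [zero_sub, ← mul_sub] at h4
    exact h4
  -- left side
  have hL : (p : ℚ) ^ (e c + E + 4) * ((p : ℚ) ^ k)⁻¹ * uterm (2 * p - 1) e r h (c + p) =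
      ∑ i ∈ Finset.Icc 1 10, (if i ≤ E then PowerSeries.coeff (E - i) Z else 0) *
        ((bi i : ℚ) * ((p : ℚ) ^ (i + 4) * (r i - Hs (i + 4) (c + p)))) := by
    unfold uterm
    rw [Finset.mul_sum]
    refine Finset.sum_congr rfl fun i hi => ?_
    have hi1 := (Finset.mem_Icc.mp hi).1
    unfold co
    rw [← hE]
    by_cases hiE : i ≤ E
    · rw [if_pos ⟨hi1, hiE⟩, if_pos hiE, hco]
      have h1 : (p : ℚ) ^ (e c + E + 4) = (p : ℚ) ^ e c * (p : ℚ) ^ (E - i) * (p : ℚ) ^ (i + 4) := by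
        rw [← pow_add, ← pow_add]
        congr 1
        omega
      rw [h1]
      field_simp
    · rw [if_neg (fun h => hiE h.2), if_neg hiE]
      ring
  -- right side
  have hR : (Dl p e c)⁻¹ * PowerSeries.coeff (E - 1)
        (x * PowerSeries.mk fun n => (((n + e c + 4).choose (e c + 4) : ℕ) : ℚ)) =
      ∑ i ∈ Finset.Icc 1 10, (if i ≤ E then PowerSeries.coeff (E - i) G else 0) * (bi i : ℚ) := by
    have h5 : (PowerSeries.mk fun n => (((n + e c + 4).choose (e c + 4) : ℕ) : ℚ)) =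
        (PowerSeries.mk 1 : PowerSeries ℚ) ^ e c * PowerSeries.mk (fun n => (((4 + n).choose 4 : ℕ) : ℚ)) := by
      rw [← PowerSeries.mk_one_pow_eq_mk_choose_add, ← pow_add,
        show e c + (4 + 1) = (e c + 4) + 1 by ring, PowerSeries.mk_one_pow_eq_mk_choose_add]
      ext n
      rw [PowerSeries.coeff_mk, PowerSeries.coeff_mk]
      congr 2
      ring
    have h6 : (Dl p e c)⁻¹ * PowerSeries.coeff (E - 1)
        (x * PowerSeries.mk fun n => (((n + e c + 4).choose (e c + 4) : ℕ) : ℚ)) =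
        PowerSeries.coeff (E - 1) (G * PowerSeries.mk (fun n => (((4 + n).choose 4 : ℕ) : ℚ))) := by
      rw [← PowerSeries.coeff_C_mul, h5, hG]
      congr 1
      ring
    rw [h6, PowerSeries.coeff_mul, Finset.Nat.sum_antidiagonal_eq_sum_range_succ
      (fun i j => PowerSeries.coeff i G * PowerSeries.coeff j (PowerSeries.mk (fun n => (((4 + n).choose 4 : ℕ) : ℚ)))),
      ← Finset.sum_range_reflect]
    have h7 : ∑ i ∈ Finset.Icc 1 10, (if i ≤ E then PowerSeries.coeff (E - i) G else 0) * (bi i : ℚ) =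
        ∑ i ∈ Finset.Icc 1 E, PowerSeries.coeff (E - i) G * (bi i : ℚ) := by
      rw [← Finset.sum_subset (Finset.Icc_subset_Icc_right hE2 : Finset.Icc 1 E ⊆ Finset.Icc 1 10)]
      · refine Finset.sum_congr rfl fun i hi => ?_
        rw [if_pos (Finset.mem_Icc.mp hi).2]
      · intro i hi hi'
        rw [if_neg, zero_mul]
        intro h
        exact hi' (Finset.mem_Icc.mpr ⟨(Finset.mem_Icc.mp hi).1, h⟩)
    rw [h7]
    have h8 : Finset.Icc 1 E = (Finset.range (E - 1).succ).map ⟨fun i => i + 1, fun a b h => by simpa using h⟩ := by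
      ext i
      simp only [Finset.mem_Icc, Finset.mem_map, Finset.mem_range, Function.Embedding.coeFn_mk]
      constructor
      · rintro ⟨h1, h2⟩
        exact ⟨i - 1, by omega, by omega⟩
      · rintro ⟨j, h1, rfl⟩
        omega
    rw [h8, Finset.sum_map]
    refine Finset.sum_congr rfl fun i hi => ?_
    have hi' := Finset.mem_range.mp hi
    simp only [Function.Embedding.coeFn_mk, PowerSeries.coeff_mk, bi]
    have e1 : (E - 1).succ - 1 - i = E - (i + 1) := by omega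
    rw [e1]
    have e2 : E - 1 - (E - (i + 1)) = i := by omega
    rw [e2]
    congr 3
    ring
  rw [hL, hR, ← Finset.sum_neg_distrib]
  refine Cg.sum _ _ _ fun i hi => ?_
  have e3 : -((if i ≤ E then PowerSeries.coeff (E - i) G else 0) * (bi i : ℚ)) =
      (if i ≤ E then PowerSeries.coeff (E - i) G else 0) * ((bi i : ℚ) * (-1)) := by ring
  rw [e3]
  have e4 : Cg p hp ((bi i : ℚ) * ((p : ℚ) ^ (i + 4) * (r i - Hs (i + 4) (c + p)))) ((bi i : ℚ) * (-1)) :=
    (Cg.refl (bi i : ℚ)).mul (hharm i hi) (Pool.Agent.Z5.NV.Zp_nat _)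
      ((hharm i hi).mem (neg_mem (one_mem _)))
  have e5 : (bi i : ℚ) * (-1) ∈ Zp p hp :=
    mul_mem (Pool.Agent.Z5.NV.Zp_nat _) (neg_mem (one_mem _))
  split_ifs with hiE
  · exact (hZG (E - i)).1.mul e4 (hZG (E - i)).2 (e4.mem e5)
  · rw [zero_mul, zero_mul]
    exact Cg.refl _

end Pool.Agent.OZ
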