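import Pool.Agent.OZ.LOCU
import Pool.Agent.OZ.LIN
import Pool.Agent.OZ.NVL

/-!
# Non-vanishing: the regular blocks (module NVR)
-/

open Finset Polynomial

namespace Pool.Agent.OZ

open Pool.Agent.Z5 (w evY dser xser hser lser co rho Hs zt tot VG)
open Pool.Agent.Z9 (IsProf)
open Pool.Agent.Z5.NV (Zp Cg Un SC)

/-! ### the bridge between valuations and congruences -/

theorem nvr_mem_of_VG {p : ℕ} (hp : p.Prime) {x : ℚ} (h : VG p 0 x) : x ∈ Zp p hp := by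
  have := Fact.mk hp
  rcases h with rfl | h
  · exact (Zp p hp).zero_mem
  refine ⟨(x.den : ℤ), fun hd => ?_, x.num, ?_⟩
  · have h1 : p ∣ x.den := by exact_mod_cast hd
    have h2 : ¬ (p : ℤ) ∣ x.num := by
      intro h3
      have h4 : p ∣ x.num.natAbs := Int.natCast_dvd.1 h3
      have h5 := Nat.dvd_gcd h4 h1
      rw [x.reduced] at h5
      exact hp.one_lt.ne' (Nat.dvd_one.1 h5)
    rw [padicValRat_def, padicValInt.eq_zero_of_not_dvd h2] at h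
    have h3 := one_le_padicValNat_of_dvd x.den_nz h1
    omega
  · exact_mod_cast Rat.mul_den_eq_num x

theorem nvr_VG_of_mem {p : ℕ} (hp : p.Prime) {x : ℚ} (h : x ∈ Zp p hp) : VG p 0 x := by
  have := Fact.mk hp
  by_cases hx : x = 0
  · exact Or.inl hx
  obtain ⟨d, hd, n, hn⟩ := h
  right
  have hd0 : (d : ℚ) ≠ 0 := by
    intro h0
    exact hd (by rw [show d = 0 by exact_mod_cast h0]; exact dvd_zero _)
  have h1 : padicValRat p (x * d) = padicValRat p x + padicValRat p (d : ℚ) :=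
    padicValRat.mul hx hd0
  rw [hn, padicValRat.of_int, padicValRat.of_int, padicValInt.eq_zero_of_not_dvd hd] at h1
  have h2 : (0 : ℤ) ≤ (padicValInt p n : ℤ) := by positivity
  omega

theorem nvr_small {p : ℕ} (hp : p.Prime) {N : ℕ} {x : ℚ} {k : ℤ} (h : VG p k x)
    (hk : 1 ≤ (N : ℤ) + k) : Cg p hp ((p : ℚ) ^ N * x) 0 := by
  have := Fact.mk hp
  have h1 : VG p 0 ((p : ℚ) ^ ((N : ℤ) - 1) * x) :=
    ((VG.zpow_self (q := p) ((N : ℤ) - 1)).mul h).mono (by omega)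
  refine ⟨_, nvr_mem_of_VG hp h1, ?_⟩
  have hp0 : (p : ℚ) ≠ 0 := by exact_mod_cast hp.ne_zero
  rw [sub_zero, ← mul_assoc, ← zpow_one_add₀ hp0]
  congr 1
  rw [add_sub_cancel, zpow_natCast]

/-! ### the Hermite basis -/

theorem nvr_hser_hb {L m : ℕ} (u : ℕ) (c : Fin (4 * m + 1)) (i : Fin (Mn m c)) :
    hser L u (hb (yn m) (Mn m) ⟨c, i⟩) = (hser L u (X - C (yn m c))) ^ (i : ℕ) *
      ∏ k ∈ univ.erase c, (hser L u (X - C (yn m k))) ^ Mn m k := by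
  simp only [hb, hser, map_mul, map_prod, map_pow]

theorem nvr_int {p L k : ℕ} (hp : p.Prime) (n : ℕ) : VG p 0 ((X - C (yc L k)).coeff n) := by
  have := Fact.mk hp
  have h1 : VG p 0 (yc L k) := by
    have := VG.int (q := p) (((L : ℤ) - 2 * k) ^ 2)
    unfold yc
    push_cast at this
    exact this
  rw [coeff_sub, coeff_X, coeff_C]
  refine VG.sub ?_ ?_
  · split_ifs
    · exact VG.one
    · exact VG.zero 0
  · split_ifs
    · exact h1
    · exact VG.zero 0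

theorem nvr_WT_nat {q : ℕ} [Fact q.Prime] {f : PowerSeries ℚ} {d : ℕ} (h : WT q d f) (n : ℕ) :
    WT q ((d * n : ℕ) : ℤ) (f ^ n) := by
  have := h.pow n
  refine this.mono ?_
  push_cast
  rw [mul_comm]

/-- the own class -/
theorem nvr_WT_own {m p u : ℕ} (hp : p.Prime) (h2 : p ≠ 2) (c : Fin (4 * m + 1))
    (h : u % p = (c : ℕ) % p ∨ (u + c) % p = (16 * m + 1) % p) (i j : Fin (Mn m c)) :
    WT p ((dl p (16 * m + 1) c * ((i : ℕ) + j) : ℕ) : ℤ) (hser (16 * m + 1) u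
      (hb (yn m) (Mn m) ⟨c, i⟩ * hb (yn m) (Mn m) ⟨c, j⟩)) := by
  have := Fact.mk hp
  rw [hser_mul', nvr_hser_hb, nvr_hser_hb]
  have h1 : WT p (dl p (16 * m + 1) c) (hser (16 * m + 1) u (X - C (yn m c))) := WT_node h2 h
  have h3 : WT p 0 (∏ k ∈ univ.erase c, (hser (16 * m + 1) u (X - C (yn m k))) ^ Mn m k) := by
    have := WT.prod (q := p) (univ.erase c)
      (fun k => (hser (16 * m + 1) u (X - C (yn m k))) ^ Mn m k) (fun _ => 0) (fun k _ => by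
        have h4 : WT p 0 (hser (16 * m + 1) u (X - C (yn m k))) := WT_hser _ (nvr_int hp)
        simpa using h4.pow (Mn m k))
    simpa using this
  have h5 := ((nvr_WT_nat h1 i).mul h3).mul ((nvr_WT_nat h1 j).mul h3)
  refine h5.mono ?_
  push_cast
  ring_nf
  exact le_rfl

/-- another class -/
theorem nvr_WT_other {m p u : ℕ} (hp : p.Prime) (h2 : p ≠ 2) {c k : Fin (4 * m + 1)} (hck : k ≠ c)
    (h : u % p = (k : ℕ) % p ∨ (u + k) % p = (16 * m + 1) % p) (i j : Fin (Mn m c)) :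
    WT p ((2 * (dl p (16 * m + 1) k * Mn m k) : ℕ) : ℤ) (hser (16 * m + 1) u
      (hb (yn m) (Mn m) ⟨c, i⟩ * hb (yn m) (Mn m) ⟨c, j⟩)) := by
  have := Fact.mk hp
  rw [hser_mul', nvr_hser_hb, nvr_hser_hb]
  have h0 : ∀ k, WT p 0 (hser (16 * m + 1) u (X - C (yn m k))) := fun k => WT_hser _ (nvr_int hp)
  have h1 : WT p (dl p (16 * m + 1) k) (hser (16 * m + 1) u (X - C (yn m k))) := WT_node h2 h
  have h3 : WT p ((dl p (16 * m + 1) k * Mn m k : ℕ) : ℤ)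
      (∏ k ∈ univ.erase c, (hser (16 * m + 1) u (X - C (yn m k))) ^ Mn m k) := by
    have := WT.prod (q := p) (univ.erase c)
      (fun k => (hser (16 * m + 1) u (X - C (yn m k))) ^ Mn m k)
      (fun a => if a = k then ((dl p (16 * m + 1) k * Mn m k : ℕ) : ℤ) else 0) (fun a _ => by
        by_cases ha : a = k
        · subst ha
          rw [if_pos rfl]
          exact nvr_WT_nat h1 _
        · rw [if_neg ha]
          simpa using (h0 a).pow (Mn m a))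
    rw [Finset.sum_ite_eq', if_pos (Finset.mem_erase.2 ⟨hck, mem_univ _⟩)] at this
    exact this
  have h4 : ∀ n : ℕ, WT p 0 ((hser (16 * m + 1) u (X - C (yn m c))) ^ n) := fun n => by
    simpa using (h0 c).pow n
  have h5 := ((h4 i).mul h3).mul ((h4 j).mul h3)
  refine h5.mono ?_
  push_cast
  ring_nf
  exact le_rfl

/-! ### orders of the classes -/

theorem nvr_ordc {p : ℕ} (hp : 0 < p) (e : ℕ → ℕ) (u : ℕ) :
    ordc p (2 * p - 1) e u = e (u % p) + e (u % p + p) := by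
  have hr : u % p < p := Nat.mod_lt _ hp
  unfold ordc
  have h1 : (range (2 * p - 1 + 1)).filter (fun v => v % p = u % p) = {u % p, u % p + p} := by
    ext v
    rw [mem_filter, mem_range, mem_insert, mem_singleton]
    constructor
    · rintro ⟨h1, h2⟩
      rcases Nat.lt_or_ge v p with h3 | h3
      · left
        rw [Nat.mod_eq_of_lt h3] at h2
        exact h2
      · right
        rw [Nat.mod_eq_sub_mod h3, Nat.mod_eq_of_lt (by omega)] at h2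
        omega
    · rintro (h | h)
      · rw [h]
        exact ⟨by omega, Nat.mod_eq_of_lt hr⟩
      · rw [h]
        refine ⟨by omega, ?_⟩
        rw [Nat.add_mod_right, Nat.mod_eq_of_lt hr]
  rw [h1, sum_insert (by rw [mem_singleton]; omega), sum_singleton]


/-! ### the classes for `p = 8 m + 1` -/

theorem nvr_dl {m k : ℕ} (hk : k ≤ 4 * m) :
    dl (8 * m + 1) (16 * m + 1) k = if k = 4 * m then 2 else 1 := by
  unfold dl
  have h1 : (16 * m + 1) % (8 * m + 1) = 8 * m := by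
    have : 16 * m + 1 = 8 * m + (8 * m + 1) := by ring
    rw [this, Nat.add_mod_right, Nat.mod_eq_of_lt (by omega)]
  rw [h1, Nat.mod_eq_of_lt (by omega)]
  by_cases h : k = 4 * m
  · rw [if_pos h, if_pos (by omega)]
  · rw [if_neg h, if_neg (by omega)]

theorem nvr_class {m : ℕ} (u : ℕ) : ∃ k : Fin (4 * m + 1),
    u % (8 * m + 1) = (k : ℕ) ∨ u % (8 * m + 1) = 8 * m - (k : ℕ) := by
  have hr : u % (8 * m + 1) < 8 * m + 1 := Nat.mod_lt _ (by omega)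
  by_cases h : u % (8 * m + 1) ≤ 4 * m
  · exact ⟨⟨_, by omega⟩, Or.inl rfl⟩
  · exact ⟨⟨8 * m - u % (8 * m + 1), by omega⟩, Or.inr (by simp only; omega)⟩

theorem nvr_cond {m u : ℕ} (k : Fin (4 * m + 1))
    (h : u % (8 * m + 1) = (k : ℕ) ∨ u % (8 * m + 1) = 8 * m - (k : ℕ)) :
    u % (8 * m + 1) = (k : ℕ) % (8 * m + 1) ∨
      (u + k) % (8 * m + 1) = (16 * m + 1) % (8 * m + 1) := by
  have hk := k.2
  rcases h with h | h
  · left
    rw [h, Nat.mod_eq_of_lt (by omega)]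
  · right
    have h1 : (16 * m + 1) % (8 * m + 1) = 8 * m := by
      have : 16 * m + 1 = 8 * m + (8 * m + 1) := by ring
      rw [this, Nat.add_mod_right, Nat.mod_eq_of_lt (by omega)]
    rw [h1, Nat.add_mod, h, Nat.mod_eq_of_lt (by omega : (k : ℕ) < 8 * m + 1),
      Nat.mod_eq_of_lt (by omega)]
    omega

theorem nvr_ord {m u : ℕ} (hm : 1 ≤ m) (k : Fin (4 * m + 1))
    (h : u % (8 * m + 1) = (k : ℕ) ∨ u % (8 * m + 1) = 8 * m - (k : ℕ)) :
    ordc (8 * m + 1) (16 * m + 1) (pr m) u = 2 * (dl (8 * m + 1) (16 * m + 1) k * Mn m k) := by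
  have hL : 16 * m + 1 = 2 * (8 * m + 1) - 1 := by omega
  have hk := k.2
  rw [nvr_dl (by omega), hL, nvr_ordc (by omega)]
  rcases h with h | h <;> rw [h] <;> unfold pr Mn <;> split_ifs <;> omega

/-- everything outside the two poles is small -/
theorem nvr_reduce {m : ℕ} (hm : 1 ≤ m) (hp : (8 * m + 1).Prime) {r : ℕ → ℚ}
    (hr : ∀ i ∈ Finset.Icc 1 10, r i ∈ Zp (8 * m + 1) hp) (c : Fin (4 * m + 1))
    (i j : Fin (Mn m c)) {N : ℕ} (hN : 5 ≤ N)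
    (hN2 : 2 * (dl (8 * m + 1) (16 * m + 1) c * Mn m c) ≤
      N + dl (8 * m + 1) (16 * m + 1) c * ((i : ℕ) + j)) {u : ℕ} (hu : u ≤ 16 * m + 1)
    (h : u < 8 * m + 1 ∨ (u % (8 * m + 1) ≠ (c : ℕ) ∧ u % (8 * m + 1) ≠ 8 * m - (c : ℕ))) :
    Cg (8 * m + 1) hp (((8 * m + 1 : ℕ) : ℚ) ^ N * uterm (16 * m + 1) (pr m) r
      (hb (yn m) (Mn m) ⟨c, i⟩ * hb (yn m) (Mn m) ⟨c, j⟩) u) 0 := by
  have := Fact.mk hp
  have h2 : 8 * m + 1 ≠ 2 := by omega
  have hr' : ∀ i ∈ Finset.Icc 1 10, VG (8 * m + 1) 0 (r i) := fun i hi => nvr_VG_of_mem hp (hr i hi)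
  have hL : 16 * m + 1 < (8 * m + 1) ^ 2 := by nlinarith
  by_cases hc : u % (8 * m + 1) = (c : ℕ) ∨ u % (8 * m + 1) = 8 * m - (c : ℕ)
  · have hup : u < 8 * m + 1 := by
      rcases h with h | h
      · exact h
      · exact absurd hc (by rintro (h3 | h3); exacts [h.1 h3, h.2 h3])
    have h3 := VG_uterm_lt (e := pr m) hr' hL hu hup (nvr_WT_own hp h2 c (nvr_cond c hc) i j)
    refine nvr_small hp h3 ?_
    rw [nvr_ord hm c hc]
    omega
  · obtain ⟨k, hk⟩ := nvr_class (m := m) u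
    have hkc : k ≠ c := by
      rintro rfl
      exact hc hk
    have h3 := VG_uterm (e := pr m) hr' hL hu (nvr_WT_other hp h2 hkc (nvr_cond k hk) i j)
    refine nvr_small hp h3 ?_
    rw [nvr_ord hm k hk]
    omega

/-! ### power series -/

theorem nvr_SC_add {p : ℕ} {hp : p.Prime} {f g f' g' : PowerSeries ℚ} (h : SC p hp f g)
    (h' : SC p hp f' g') : SC p hp (f + f') (g + g') := fun k => by
  rw [map_add, map_add]
  exact ⟨(h k).1.add (h' k).1, (Zp p hp).add_mem (h k).2 (h' k).2⟩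

theorem nvr_SC_p {p : ℕ} {hp : p.Prime} {f : PowerSeries ℚ} (h : SC p hp f f) :
    SC p hp (PowerSeries.C (p : ℚ) * f) 0 := fun k => by
  rw [PowerSeries.coeff_C_mul, map_zero]
  refine ⟨⟨PowerSeries.coeff k f, (h k).2, by ring⟩, (Zp p hp).zero_mem⟩

theorem nvr_SC_X {p : ℕ} {hp : p.Prime} : SC p hp PowerSeries.X PowerSeries.X := fun k => by
  refine ⟨Cg.refl _, ?_⟩
  rw [PowerSeries.coeff_X]
  split_ifs
  · exact (Zp p hp).one_mem
  · exact (Zp p hp).zero_mem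

/-- `[z ^ 9] (z - 1) ^ k (1 - z) ^ (- (a + 5))` -/
theorem nvr_coeff1 (a k : ℕ) : PowerSeries.coeff 9 ((PowerSeries.X - 1 : PowerSeries ℚ) ^ k *
    PowerSeries.mk fun n => (((n + a + 4).choose (a + 4) : ℕ) : ℚ)) = (-1) ^ k * (hA a k : ℚ) := by
  have h1 : (PowerSeries.mk fun n => (((n + a + 4).choose (a + 4) : ℕ) : ℚ)) =
      (PowerSeries.mk 1 : PowerSeries ℚ) ^ (a + 4 + 1) := by
    rw [PowerSeries.mk_one_pow_eq_mk_choose_add]
    congr 1
    funext n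
    rw [show n + a + 4 = a + 4 + n by ring]
  have h2 : (PowerSeries.X - 1 : PowerSeries ℚ) ^ k = PowerSeries.C ((-1 : ℚ) ^ k) *
      (1 - PowerSeries.X) ^ k := by
    rw [map_pow, ← mul_pow]
    congr 1
    rw [map_neg, map_one]
    ring
  have h3 := PowerSeries.mk_one_mul_one_sub_eq_one ℚ
  rw [h1, h2, mul_assoc, PowerSeries.coeff_C_mul]
  congr 1
  unfold hA
  split_ifs with h
  · have h4 : (1 - PowerSeries.X : PowerSeries ℚ) ^ k * (PowerSeries.mk 1 : PowerSeries ℚ) ^ (a + 4 + 1) =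
        (PowerSeries.mk 1 : PowerSeries ℚ) ^ ((a + 4 - k) + 1) := by
      have : a + 4 + 1 = k + ((a + 4 - k) + 1) := by omega
      rw [this, pow_add, ← mul_assoc, ← mul_pow, mul_comm (1 - PowerSeries.X) _, h3, one_pow, one_mul]
    rw [h4, PowerSeries.mk_one_pow_eq_mk_choose_add, PowerSeries.coeff_mk]
    rw [show a + 4 - k + 9 = 13 + a - k by omega, Nat.choose_symm_of_eq_add (by omega : 13 + a - k = (a + 4 - k) + 9)]
    push_cast
    rfl
  · have h4 : (1 - PowerSeries.X : PowerSeries ℚ) ^ k * (PowerSeries.mk 1 : PowerSeries ℚ) ^ (a + 4 + 1) =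
        (1 - PowerSeries.X) ^ (k - a - 5) := by
      have : k = (a + 4 + 1) + (k - a - 5) := by omega
      conv_lhs => rw [this]
      rw [pow_add, mul_right_comm, ← mul_pow, mul_comm (1 - PowerSeries.X) _, h3, one_pow, one_mul]
    rw [h4]
    have h5 : (1 - PowerSeries.X : PowerSeries ℚ) ^ (k - a - 5) =
        (((1 - X : ℚ[X]) ^ (k - a - 5) : ℚ[X]) : PowerSeries ℚ) := by
      push_cast
      rfl
    have h6 : (1 - X : ℚ[X]) ^ (k - a - 5) = ((X + 1 : ℚ[X]) ^ (k - a - 5)).comp (C (-1) * X) := by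
      rw [pow_comp, add_comp, X_comp, one_comp]
      congr 1
      rw [C_neg, C_1]
      ring
    rw [h5, Polynomial.coeff_coe, h6, Polynomial.comp_C_mul_X_coeff, Polynomial.coeff_X_add_one_pow]
    push_cast
    ring

/-- `[z ^ (a - 1)] z ^ k (1 - z) ^ (- 15)` -/
theorem nvr_coeff2 {a : ℕ} (ha : 1 ≤ a) (k : ℕ) : PowerSeries.coeff (a - 1)
    ((PowerSeries.X : PowerSeries ℚ) ^ k *
      PowerSeries.mk fun n => (((n + 10 + 4).choose (10 + 4) : ℕ) : ℚ)) = (hB a k : ℚ) := by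
  rw [PowerSeries.coeff_X_pow_mul']
  unfold hB
  split_ifs with h1 h2 h2
  · rw [PowerSeries.coeff_mk]
    rw [show a - 1 - k + 10 + 4 = a + 13 - k by omega]
    push_cast
    rfl
  · omega
  · omega
  · simp


/-! ### the local expansions -/

theorem nvr_rescale_xser (p L u : ℕ) : PowerSeries.rescale (p : ℚ) (xser L u) =
    PowerSeries.C ((L : ℚ) - 2 * u) + PowerSeries.C (2 * p : ℚ) * PowerSeries.X := by
  have h2 : (2 : PowerSeries ℚ) = PowerSeries.C (2 : ℚ) := (map_ofNat _ 2).symm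
  unfold xser
  rw [map_add, map_mul, h2, Pool.Agent.Z5.NV.nvl_rescale_C, Pool.Agent.Z5.NV.nvl_rescale_C,
    PowerSeries.rescale_X, ← mul_assoc, ← map_mul]

/-- the product of the other nodes -/
noncomputable def nvrOm (m : ℕ) (c : Fin (4 * m + 1)) : ℚ :=
  ∏ k ∈ univ.erase c, (yn m c - yn m k) ^ Mn m k

theorem nvr_unit {m : ℕ} (hp : (8 * m + 1).Prime) {n : ℤ} (h0 : n ≠ 0) (h1 : -(8 * (m : ℤ) + 1) < n)
    (h2 : n < 8 * m + 1) : Un (8 * m + 1) hp (n : ℚ) := by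
  refine Pool.Agent.Z5.NV.Un_int fun h => ?_
  obtain ⟨t, ht⟩ := h
  push_cast at ht
  have h3 : t = 0 := by
    rcases lt_trichotomy t 0 with h4 | h4 | h4
    · exfalso
      nlinarith
    · exact h4
    · exfalso
      nlinarith
  rw [h3, mul_zero] at ht
  exact h0 ht

theorem nvr_Om_unit {m : ℕ} (hm : 1 ≤ m) (hp : (8 * m + 1).Prime) (c : Fin (4 * m + 1)) :
    Un (8 * m + 1) hp (nvrOm m c) := by
  unfold nvrOm
  refine Un.prod _ _ fun k hk => Un.pow ?_ _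
  have hkc : k ≠ c := (Finset.mem_erase.1 hk).1
  have hkc' : (k : ℕ) ≠ (c : ℕ) := fun h => hkc (Fin.ext h)
  have hk2 := k.2
  have hc2 := c.2
  have e1 : yn m c - yn m k = ((2 : ℤ) : ℚ) * (((2 : ℤ) : ℚ) * ((((k : ℕ) : ℤ) - ((c : ℕ) : ℤ) : ℤ) : ℚ) *
      (((8 * m + 1 : ℕ) : ℚ) * ((2 : ℤ) : ℚ) - (((c : ℕ) + (k : ℕ) + 1 : ℤ) : ℚ))) := by
    unfold yn yc
    push_cast
    ring
  have h2 : Un (8 * m + 1) hp ((2 : ℤ) : ℚ) := nvr_unit hp (by norm_num) (by omega) (by omega)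
  rw [e1]
  refine h2.mul ((h2.mul (nvr_unit hp (by omega) (by omega) (by omega))).mul ?_)
  have h3 : Un (8 * m + 1) hp (-(((c : ℕ) + (k : ℕ) + 1 : ℤ) : ℚ)) :=
    (nvr_unit hp (by omega) (by omega) (by omega)).neg
  refine Cg.unit ?_ h3
  exact ⟨((2 : ℤ) : ℚ), Pool.Agent.Z5.NV.Zp_int 2, by ring⟩

/-- the rescaled series of a product of two basis elements -/
theorem nvr_local {m p u : ℕ} (c : Fin (4 * m + 1)) (i j : Fin (Mn m c)) :
    PowerSeries.rescale (p : ℚ) (xser (16 * m + 1) u * hser (16 * m + 1) u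
      (hb (yn m) (Mn m) ⟨c, i⟩ * hb (yn m) (Mn m) ⟨c, j⟩)) =
    PowerSeries.rescale (p : ℚ) (xser (16 * m + 1) u) *
      ((PowerSeries.rescale (p : ℚ) (xser (16 * m + 1) u)) ^ 2 - PowerSeries.C (yn m c)) ^
        ((i : ℕ) + (j : ℕ)) *
      (∏ k ∈ univ.erase c, ((PowerSeries.rescale (p : ℚ) (xser (16 * m + 1) u)) ^ 2 -
        PowerSeries.C (yn m k)) ^ Mn m k) ^ 2 := by
  have h1 : ∀ k, PowerSeries.rescale (p : ℚ) (hser (16 * m + 1) u (X - C (yn m k))) =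
      (PowerSeries.rescale (p : ℚ) (xser (16 * m + 1) u)) ^ 2 - PowerSeries.C (yn m k) := by
    intro k
    have h2 : hser (16 * m + 1) u (X - C (yn m k)) =
        xser (16 * m + 1) u ^ 2 - PowerSeries.C (yn m k) := by
      unfold hser
      rw [map_sub, aeval_X, aeval_C]
      rfl
    rw [h2, map_sub, map_pow, Pool.Agent.Z5.NV.nvl_rescale_C]
  rw [hser_mul', nvr_hser_hb, nvr_hser_hb]
  simp only [map_mul, map_pow, map_prod, h1]
  ring

/-- the other nodes modulo `p` -/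
theorem nvr_others {m : ℕ} (hp : (8 * m + 1).Prime) (c : Fin (4 * m + 1)) {A : PowerSeries ℚ}
    (hA : SC (8 * m + 1) hp (A ^ 2) (PowerSeries.C (yn m c))) :
    SC (8 * m + 1) hp ((∏ k ∈ univ.erase c, (A ^ 2 - PowerSeries.C (yn m k)) ^ Mn m k) ^ 2)
      (PowerSeries.C (nvrOm m c ^ 2)) := by
  have hy : ∀ k : Fin (4 * m + 1), yn m k ∈ Zp (8 * m + 1) hp := fun k => by
    have := Pool.Agent.Z5.NV.Zp_int (p := 8 * m + 1) (hp := hp) ((((16 * m + 1 : ℕ) : ℤ) - 2 * (k : ℕ)) ^ 2)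
    unfold yn yc
    push_cast at this ⊢
    exact this
  have h1 : PowerSeries.C (nvrOm m c ^ 2) =
      (∏ k ∈ univ.erase c, (PowerSeries.C (yn m c - yn m k)) ^ Mn m k) ^ 2 := by
    unfold nvrOm
    rw [map_pow, map_prod]
    simp only [map_pow]
  rw [h1]
  refine SC.pow (SC.prod _ _ _ fun k _ => SC.pow ?_ _) 2
  rw [sub_eq_add_neg, sub_eq_add_neg, map_add, ← map_neg]
  exact nvr_SC_add hA (nvl_C_SC ((Zp _ hp).neg_mem (hy k)))


theorem nvr_mem_int {p : ℕ} {hp : p.Prime} {x : ℚ} (n : ℤ) (h : x = n) : x ∈ Zp p hp := by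
  rw [h]
  exact Pool.Agent.Z5.NV.Zp_int n

theorem nvr_Cg_pow {p : ℕ} {hp : p.Prime} {a b : ℚ} (h : Cg p hp a b) (hb : b ∈ Zp p hp) (n : ℕ) :
    Cg p hp (a ^ n) (b ^ n) := by
  induction n with
  | zero => rw [pow_zero, pow_zero]; exact Cg.refl _
  | succ n ih =>
    rw [pow_succ, pow_succ]
    exact ih.mul h ((Zp p hp).pow_mem hb n) (h.mem hb)

/-- the term of the pole `c + p` -/
theorem nvr_main1 {m : ℕ} (hm : 1 ≤ m) (hp : (8 * m + 1).Prime) {r : ℕ → ℚ}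
    (hr : ∀ i ∈ Finset.Icc 1 10, r i ∈ Zp (8 * m + 1) hp) (c : Fin (4 * m + 1))
    (hc : (c : ℕ) < 4 * m) (i j : Fin (Mn m c)) :
    Cg (8 * m + 1) hp (((8 * m + 1 : ℕ) : ℚ) ^ (2 * Mn m c + 4) *
      (((8 * m + 1 : ℕ) : ℚ) ^ ((i : ℕ) + (j : ℕ)))⁻¹ *
      uterm (16 * m + 1) (pr m) r (hb (yn m) (Mn m) ⟨c, i⟩ * hb (yn m) (Mn m) ⟨c, j⟩)
        ((c : ℕ) + (8 * m + 1)))
      (-((Dl (8 * m + 1) (pr m) c)⁻¹ * ((16 * (m : ℚ) + 1 - 2 * (c : ℕ)) *
        (4 * (16 * (m : ℚ) + 1 - 2 * (c : ℕ))) ^ ((i : ℕ) + (j : ℕ)) * nvrOm m c ^ 2 *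
        ((-1) ^ ((i : ℕ) + (j : ℕ)) * (hA (pr m c) ((i : ℕ) + (j : ℕ)) : ℚ))))) := by
  have hL : 16 * m + 1 = 2 * (8 * m + 1) - 1 := by omega
  have hev : ∀ u, Even (pr m u) := fun u => even_pr m u
  have he : ∀ u < 2 * (8 * m + 1), 1 ≤ pr m u ∧ pr m u ≤ 10 := by
    intro u _
    unfold pr
    split_ifs <;> omega
  have hMn : pr m c + pr m ((c : ℕ) + (8 * m + 1)) + 4 = 2 * Mn m c + 4 := by
    unfold pr Mn
    split_ifs <;> omega
  have hp9 : pr m ((c : ℕ) + (8 * m + 1)) = 10 := by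
    unfold pr
    split_ifs <;> omega
  set k := (i : ℕ) + (j : ℕ) with hk
  set ξ : ℚ := 16 * (m : ℚ) + 1 - 2 * (c : ℕ) with hξ
  have hξm : ξ ∈ Zp (8 * m + 1) hp := nvr_mem_int (16 * (m : ℤ) + 1 - 2 * (c : ℕ)) (by rw [hξ]; push_cast; ring)
  have z4 : (4 : ℚ) ∈ Zp (8 * m + 1) hp := nvr_mem_int 4 (by norm_num)
  have z2 : (2 : ℚ) ∈ Zp (8 * m + 1) hp := nvr_mem_int 2 (by norm_num)
  set P : ℚ := ((8 * m + 1 : ℕ) : ℚ) with hP
  have hP0 : P ≠ 0 := by rw [hP]; exact_mod_cast hp.ne_zero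
  set A := PowerSeries.rescale P (xser (16 * m + 1) ((c : ℕ) + (8 * m + 1))) with hA
  have hAe : A = PowerSeries.C ξ + PowerSeries.C P * (PowerSeries.C 2 * (PowerSeries.X - 1)) := by
    rw [hA, nvr_rescale_xser]
    have e1 : (((16 * m + 1 : ℕ) : ℚ) - 2 * (((c : ℕ) + (8 * m + 1) : ℕ) : ℚ)) = ξ - P * 2 := by
      rw [hξ, hP]
      push_cast
      ring
    rw [e1, map_sub, map_mul, map_mul]
    ring
  have hyc : yn m c = ξ ^ 2 := by
    unfold yn yc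
    rw [hξ]
    push_cast
    ring
  have hX1 : SC (8 * m + 1) hp (PowerSeries.X - 1) (PowerSeries.X - 1) := by
    have h1 := nvr_SC_add (nvr_SC_X (p := 8 * m + 1) (hp := hp))
      (nvl_C_SC (p := 8 * m + 1) (hp := hp) ((Zp (8 * m + 1) hp).neg_mem (Zp (8 * m + 1) hp).one_mem))
    rw [map_neg, map_one, ← sub_eq_add_neg] at h1
    exact h1
  have hA1 : SC (8 * m + 1) hp A (PowerSeries.C ξ) := by
    rw [hAe]
    have h1 := nvr_SC_add (nvl_C_SC hξm) (nvr_SC_p (p := 8 * m + 1) (hp := hp)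
      ((nvl_C_SC z2).mul hX1))
    rw [add_zero] at h1
    exact h1
  have hA2 : SC (8 * m + 1) hp (A ^ 2) (PowerSeries.C (yn m c)) := by
    rw [hyc, map_pow]
    exact hA1.pow 2
  have hA3 : SC (8 * m + 1) hp (PowerSeries.C P⁻¹ * (A ^ 2 - PowerSeries.C (yn m c)))
      (PowerSeries.C (4 * ξ) * (PowerSeries.X - 1)) := by
    have e1 : PowerSeries.C P⁻¹ * (A ^ 2 - PowerSeries.C (yn m c)) =
        PowerSeries.C (4 * ξ) * (PowerSeries.X - 1) +
          PowerSeries.C P * (PowerSeries.C 4 * (PowerSeries.X - 1) ^ 2) := by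
      have h1 : PowerSeries.C P⁻¹ * PowerSeries.C P = 1 := by
        rw [← map_mul, inv_mul_cancel₀ hP0, map_one]
      have h2 : (PowerSeries.C (2 : ℚ)) = 2 := map_ofNat _ 2
      have h4 : (PowerSeries.C (4 : ℚ)) = 4 := map_ofNat _ 4
      rw [hAe, hyc, map_pow, map_mul, h2, h4]
      linear_combination (4 * PowerSeries.C ξ * (PowerSeries.X - 1) +
        4 * PowerSeries.C P * (PowerSeries.X - 1) ^ 2) * h1
    rw [e1]
    have h1 := nvr_SC_add ((nvl_C_SC ((Zp (8 * m + 1) hp).mul_mem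
      z4 hξm)).mul hX1)
      (nvr_SC_p (p := 8 * m + 1) (hp := hp) ((nvl_C_SC z4).mul (hX1.pow 2)))
    rw [add_zero] at h1
    exact h1
  have hx : SC (8 * m + 1) hp (PowerSeries.C ((P ^ k)⁻¹) *
      PowerSeries.rescale P (xser (2 * (8 * m + 1) - 1) ((c : ℕ) + (8 * m + 1)) *
        hser (2 * (8 * m + 1) - 1) ((c : ℕ) + (8 * m + 1))
          (hb (yn m) (Mn m) ⟨c, i⟩ * hb (yn m) (Mn m) ⟨c, j⟩)))
      (PowerSeries.C ξ * (PowerSeries.C (4 * ξ) * (PowerSeries.X - 1)) ^ k *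
        PowerSeries.C (nvrOm m c ^ 2)) := by
    rw [← hL, nvr_local, ← hA]
    have e1 : PowerSeries.C ((P ^ k)⁻¹) * (A * (A ^ 2 - PowerSeries.C (yn m c)) ^ k *
        (∏ k ∈ univ.erase c, (A ^ 2 - PowerSeries.C (yn m k)) ^ Mn m k) ^ 2) =
        A * (PowerSeries.C P⁻¹ * (A ^ 2 - PowerSeries.C (yn m c))) ^ k *
        (∏ k ∈ univ.erase c, (A ^ 2 - PowerSeries.C (yn m k)) ^ Mn m k) ^ 2 := by
      rw [← inv_pow, map_pow, mul_pow]
      ring
    rw [e1]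
    exact (hA1.mul (hA3.pow k)).mul (nvr_others hp c hA2)
  have key := nv_uterm (p := 8 * m + 1) hp hev he (c := (c : ℕ)) (by omega) hr hx
  rw [hMn, hp9, ← hL] at key
  have e2 : PowerSeries.coeff (10 - 1) (PowerSeries.C ξ *
      (PowerSeries.C (4 * ξ) * (PowerSeries.X - 1)) ^ k * PowerSeries.C (nvrOm m c ^ 2) *
      (PowerSeries.mk fun n => (((n + pr m c + 4).choose (pr m c + 4) : ℕ) : ℚ))) =
      ξ * (4 * ξ) ^ k * nvrOm m c ^ 2 * ((-1) ^ k * (Pool.Agent.OZ.hA (pr m c) k : ℚ)) := by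
    rw [← nvr_coeff1, ← PowerSeries.coeff_C_mul]
    congr 1
    simp only [mul_pow, map_mul, map_pow]
    ring
  rw [e2] at key
  exact key

/-- the term of the pole `L - c` -/
theorem nvr_main2 {m : ℕ} (hm : 1 ≤ m) (hp : (8 * m + 1).Prime) {r : ℕ → ℚ}
    (hr : ∀ i ∈ Finset.Icc 1 10, r i ∈ Zp (8 * m + 1) hp) (c : Fin (4 * m + 1))
    (hc : (c : ℕ) < 4 * m) (i j : Fin (Mn m c)) :
    Cg (8 * m + 1) hp (((8 * m + 1 : ℕ) : ℚ) ^ (2 * Mn m c + 4) *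
      (((8 * m + 1 : ℕ) : ℚ) ^ ((i : ℕ) + (j : ℕ)))⁻¹ *
      uterm (16 * m + 1) (pr m) r (hb (yn m) (Mn m) ⟨c, i⟩ * hb (yn m) (Mn m) ⟨c, j⟩)
        ((8 * m - (c : ℕ)) + (8 * m + 1)))
      (((Dl (8 * m + 1) (pr m) c)⁻¹ * ((16 * (m : ℚ) + 1 - 2 * (c : ℕ)) *
        (4 * (16 * (m : ℚ) + 1 - 2 * (c : ℕ))) ^ ((i : ℕ) + (j : ℕ)) * nvrOm m c ^ 2 *
        ((-1) ^ ((i : ℕ) + (j : ℕ)) * (hB (pr m c) ((i : ℕ) + (j : ℕ)) : ℚ))))) := by
  have hL : 16 * m + 1 = 2 * (8 * m + 1) - 1 := by omega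
  have hev : ∀ u, Even (pr m u) := fun u => even_pr m u
  have he : ∀ u < 2 * (8 * m + 1), 1 ≤ pr m u ∧ pr m u ≤ 10 := by
    intro u _
    unfold pr
    split_ifs <;> omega
  have hpa : pr m ((8 * m - (c : ℕ)) + (8 * m + 1)) = pr m c := by
    unfold pr
    split_ifs <;> omega
  have hp9 : pr m (8 * m - (c : ℕ)) = 10 := by
    unfold pr
    split_ifs <;> omega
  have hMn : 10 + pr m c + 4 = 2 * Mn m c + 4 := by
    unfold pr Mn
    split_ifs <;> omega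
  set k := (i : ℕ) + (j : ℕ) with hk
  set ξ : ℚ := 16 * (m : ℚ) + 1 - 2 * (c : ℕ) with hξ
  have hξm : ξ ∈ Zp (8 * m + 1) hp := nvr_mem_int (16 * (m : ℤ) + 1 - 2 * (c : ℕ)) (by rw [hξ]; push_cast; ring)
  have z4 : (4 : ℚ) ∈ Zp (8 * m + 1) hp := nvr_mem_int 4 (by norm_num)
  have z2 : (2 : ℚ) ∈ Zp (8 * m + 1) hp := nvr_mem_int 2 (by norm_num)
  set P : ℚ := ((8 * m + 1 : ℕ) : ℚ) with hP
  have hP0 : P ≠ 0 := by rw [hP]; exact_mod_cast hp.ne_zero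
  set A := PowerSeries.rescale P (xser (16 * m + 1) ((8 * m - (c : ℕ)) + (8 * m + 1))) with hA
  have hAe : A = PowerSeries.C (-ξ) + PowerSeries.C P * (PowerSeries.C 2 * PowerSeries.X) := by
    rw [hA, nvr_rescale_xser]
    have e1 : (((16 * m + 1 : ℕ) : ℚ) - 2 * ((((8 * m - (c : ℕ)) + (8 * m + 1) : ℕ)) : ℚ)) = -ξ := by
      have e0 : (((8 * m - (c : ℕ)) + (8 * m + 1) : ℕ)) + (c : ℕ) = 16 * m + 1 := by omega
      have e0' : ((((8 * m - (c : ℕ)) + (8 * m + 1) : ℕ)) : ℚ) = 16 * (m : ℚ) + 1 - (c : ℕ) := by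
        rw [eq_sub_iff_add_eq]
        exact_mod_cast e0
      rw [hξ, e0']
      push_cast
      ring
    rw [e1, map_mul]
    ring
  have hyc : yn m c = ξ ^ 2 := by
    unfold yn yc
    rw [hξ]
    push_cast
    ring
  have hX1 : SC (8 * m + 1) hp PowerSeries.X PowerSeries.X := nvr_SC_X
  have hA1 : SC (8 * m + 1) hp A (PowerSeries.C (-ξ)) := by
    rw [hAe]
    have h1 := nvr_SC_add (nvl_C_SC ((Zp (8 * m + 1) hp).neg_mem hξm)) (nvr_SC_p (p := 8 * m + 1) (hp := hp)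
      ((nvl_C_SC z2).mul hX1))
    rw [add_zero] at h1
    exact h1
  have hA2 : SC (8 * m + 1) hp (A ^ 2) (PowerSeries.C (yn m c)) := by
    rw [hyc, ← neg_sq ξ, map_pow]
    exact hA1.pow 2
  have hA3 : SC (8 * m + 1) hp (PowerSeries.C P⁻¹ * (A ^ 2 - PowerSeries.C (yn m c)))
      (PowerSeries.C (-(4 * ξ)) * PowerSeries.X) := by
    have e1 : PowerSeries.C P⁻¹ * (A ^ 2 - PowerSeries.C (yn m c)) =
        PowerSeries.C (-(4 * ξ)) * PowerSeries.X +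
          PowerSeries.C P * (PowerSeries.C 4 * PowerSeries.X ^ 2) := by
      have h1 : PowerSeries.C P⁻¹ * PowerSeries.C P = 1 := by
        rw [← map_mul, inv_mul_cancel₀ hP0, map_one]
      have h2 : (PowerSeries.C (2 : ℚ)) = 2 := map_ofNat _ 2
      have h4 : (PowerSeries.C (4 : ℚ)) = 4 := map_ofNat _ 4
      rw [hAe, hyc, map_pow, map_neg, map_neg, map_mul, h2, h4]
      linear_combination (-4 * PowerSeries.C ξ * PowerSeries.X +
        4 * PowerSeries.C P * PowerSeries.X ^ 2) * h1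
    rw [e1]
    have h1 := nvr_SC_add ((nvl_C_SC ((Zp (8 * m + 1) hp).neg_mem ((Zp (8 * m + 1) hp).mul_mem
      z4 hξm))).mul hX1)
      (nvr_SC_p (p := 8 * m + 1) (hp := hp) ((nvl_C_SC z4).mul (hX1.pow 2)))
    rw [add_zero] at h1
    exact h1
  have hx : SC (8 * m + 1) hp (PowerSeries.C ((P ^ k)⁻¹) *
      PowerSeries.rescale P (xser (2 * (8 * m + 1) - 1) ((8 * m - (c : ℕ)) + (8 * m + 1)) *
        hser (2 * (8 * m + 1) - 1) ((8 * m - (c : ℕ)) + (8 * m + 1))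
          (hb (yn m) (Mn m) ⟨c, i⟩ * hb (yn m) (Mn m) ⟨c, j⟩)))
      (PowerSeries.C (-ξ) * (PowerSeries.C (-(4 * ξ)) * PowerSeries.X) ^ k *
        PowerSeries.C (nvrOm m c ^ 2)) := by
    rw [← hL, nvr_local, ← hA]
    have e1 : PowerSeries.C ((P ^ k)⁻¹) * (A * (A ^ 2 - PowerSeries.C (yn m c)) ^ k *
        (∏ k ∈ univ.erase c, (A ^ 2 - PowerSeries.C (yn m k)) ^ Mn m k) ^ 2) =
        A * (PowerSeries.C P⁻¹ * (A ^ 2 - PowerSeries.C (yn m c))) ^ k *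
        (∏ k ∈ univ.erase c, (A ^ 2 - PowerSeries.C (yn m k)) ^ Mn m k) ^ 2 := by
      rw [← inv_pow, map_pow, mul_pow]
      ring
    rw [e1]
    exact (hA1.mul (hA3.pow k)).mul (nvr_others hp c hA2)
  have key := nv_uterm (p := 8 * m + 1) hp hev he (c := 8 * m - (c : ℕ)) (by omega) hr hx
  rw [hp9, hpa, hMn, ← hL] at key
  have e2 : PowerSeries.coeff (pr m c - 1) (PowerSeries.C (-ξ) *
      (PowerSeries.C (-(4 * ξ)) * PowerSeries.X) ^ k * PowerSeries.C (nvrOm m c ^ 2) *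
      (PowerSeries.mk fun n => (((n + 10 + 4).choose (10 + 4) : ℕ) : ℚ))) =
      -(ξ * (4 * ξ) ^ k * nvrOm m c ^ 2 * ((-1) ^ k * (Pool.Agent.OZ.hB (pr m c) k : ℚ))) := by
    rw [← nvr_coeff2 (he c (by omega)).1]
    have e3 : -(ξ * (4 * ξ) ^ k * nvrOm m c ^ 2 * ((-1) ^ k * PowerSeries.coeff (pr m c - 1)
      ((PowerSeries.X : PowerSeries ℚ) ^ k *
        PowerSeries.mk fun n => (((n + 10 + 4).choose (10 + 4) : ℕ) : ℚ)))) =
        (-(ξ * (-(4 * ξ)) ^ k * nvrOm m c ^ 2)) * PowerSeries.coeff (pr m c - 1)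
      ((PowerSeries.X : PowerSeries ℚ) ^ k *
        PowerSeries.mk fun n => (((n + 10 + 4).choose (10 + 4) : ℕ) : ℚ)) := by
      rw [neg_pow (4 * ξ)]
      ring
    rw [e3, ← PowerSeries.coeff_C_mul]
    congr 1
    simp only [mul_pow, map_mul, map_pow, map_neg]
    ring
  rw [e2] at key
  have hrefl : Cg (8 * m + 1) hp (Dl (8 * m + 1) (pr m) (8 * m - (c : ℕ)))
      (Dl (8 * m + 1) (pr m) c) := by
    have h1 := Dl_refl (p := 8 * m + 1) hp (e := pr m) hev (fun u hu => by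
      rw [← hL]
      exact pr_symm (by omega)) (c := (c : ℕ)) (by omega)
    have h2 : 8 * m + 1 - 1 - (c : ℕ) = 8 * m - (c : ℕ) := by omega
    rw [h2] at h1
    exact h1
  have hU := Dl_unit hp (pr m) (c := (c : ℕ)) (by omega)
  have hinv := (Pool.Agent.Z5.NV.cg_inv hrefl hU).1
  have hval : -(ξ * (4 * ξ) ^ k * nvrOm m c ^ 2 * ((-1) ^ k * (Pool.Agent.OZ.hB (pr m c) k : ℚ))) ∈
      Zp (8 * m + 1) hp := by
    have hOm := nvr_Om_unit hm hp c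
    refine (Zp _ hp).neg_mem ((Zp _ hp).mul_mem ((Zp _ hp).mul_mem ((Zp _ hp).mul_mem hξm
      ((Zp _ hp).pow_mem ((Zp _ hp).mul_mem z4 hξm) _))
      ((Zp _ hp).pow_mem hOm.2.1 _)) ((Zp _ hp).mul_mem ((Zp _ hp).pow_mem
      ((Zp _ hp).neg_mem (Zp _ hp).one_mem) _) (Pool.Agent.Z5.NV.Zp_int _)))
  have h3 := key.trans (Cg.neg (hinv.mul (Cg.refl _) hU.2.2 hval))
  have e4 : -((Dl (8 * m + 1) (pr m) c)⁻¹ *
      -(ξ * (4 * ξ) ^ k * nvrOm m c ^ 2 * ((-1) ^ k * (Pool.Agent.OZ.hB (pr m c) k : ℚ)))) =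
      (Dl (8 * m + 1) (pr m) c)⁻¹ *
      (ξ * (4 * ξ) ^ k * nvrOm m c ^ 2 * ((-1) ^ k * (Pool.Agent.OZ.hB (pr m c) k : ℚ))) := by ring
  rw [e4] at h3
  exact h3

theorem nv_reg {m : ℕ} (hm : 1 ≤ m) (hp : (8 * m + 1).Prime) {r : ℕ → ℚ}
    (hr : ∀ i ∈ Finset.Icc 1 10, r i ∈ Zp (8 * m + 1) hp) (c : Fin (4 * m + 1))
    (hc : (c : ℕ) < 4 * m) :
    ∃ κ : ℚ, Un (8 * m + 1) hp κ ∧ ∀ i j : Fin (Mn m c),
      Cg (8 * m + 1) hp (((8 * m + 1 : ℕ) : ℚ) ^ (2 * Mn m c + 4 - i - j) *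
        Fq (16 * m + 1) (pr m) r (hb (yn m) (Mn m) ⟨c, i⟩ * hb (yn m) (Mn m) ⟨c, j⟩))
      (κ * (-(4 * (2 * ((c : ℕ) : ℚ) + 1))) ^ ((i : ℕ) + (j : ℕ)) * (hh (pr m c) ((i : ℕ) + (j : ℕ)) : ℚ)) := by
  set ξ : ℚ := 16 * (m : ℚ) + 1 - 2 * (c : ℕ) with hξ
  have hU := Dl_unit hp (pr m) (c := (c : ℕ)) (by omega)
  have hOm := nvr_Om_unit hm hp c
  have hξc : Cg (8 * m + 1) hp ξ (-(((2 * (c : ℕ) + 1 : ℤ)) : ℚ)) := by
    refine ⟨((2 : ℤ) : ℚ), Pool.Agent.Z5.NV.Zp_int 2, ?_⟩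
    rw [hξ]
    push_cast
    ring
  have hξU : Un (8 * m + 1) hp ξ :=
    Cg.unit hξc (nvr_unit hp (by omega) (by omega) (by omega)).neg
  refine ⟨-((Dl (8 * m + 1) (pr m) c)⁻¹ * (ξ * nvrOm m c ^ 2)),
    (hU.inv.mul (hξU.mul (hOm.pow 2))).neg, fun i j => ?_⟩
  set k := (i : ℕ) + (j : ℕ) with hk
  have hi := i.2
  have hj := j.2
  set P : ℚ := ((8 * m + 1 : ℕ) : ℚ) with hP
  have hP0 : P ≠ 0 := by rw [hP]; exact_mod_cast hp.ne_zero
  set h := hb (yn m) (Mn m) ⟨c, i⟩ * hb (yn m) (Mn m) ⟨c, j⟩ with hh'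
  have hdl : dl (8 * m + 1) (16 * m + 1) c = 1 := by
    rw [nvr_dl (by omega), if_neg (by omega)]
  have hpow : P ^ (2 * Mn m c + 4 - (i : ℕ) - (j : ℕ)) = P ^ (2 * Mn m c + 4) * (P ^ k)⁻¹ := by
    rw [eq_mul_inv_iff_mul_eq₀ (pow_ne_zero _ hP0), ← pow_add]
    congr 1
    omega
  have hMn5 : 5 ≤ Mn m c := by
    unfold Mn
    split_ifs <;> omega
  -- reduction to two poles
  have hred : Cg (8 * m + 1) hp (P ^ (2 * Mn m c + 4 - (i : ℕ) - (j : ℕ)) *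
      Fq (16 * m + 1) (pr m) r h)
      (P ^ (2 * Mn m c + 4) * (P ^ k)⁻¹ * uterm (16 * m + 1) (pr m) r h ((c : ℕ) + (8 * m + 1)) +
        P ^ (2 * Mn m c + 4) * (P ^ k)⁻¹ *
          uterm (16 * m + 1) (pr m) r h ((8 * m - (c : ℕ)) + (8 * m + 1))) := by
    rw [Fq_eq_sum, Finset.mul_sum]
    have e1 : P ^ (2 * Mn m c + 4) * (P ^ k)⁻¹ *
          uterm (16 * m + 1) (pr m) r h ((c : ℕ) + (8 * m + 1)) +
        P ^ (2 * Mn m c + 4) * (P ^ k)⁻¹ *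
          uterm (16 * m + 1) (pr m) r h ((8 * m - (c : ℕ)) + (8 * m + 1)) =
        ∑ u ∈ range (16 * m + 1 + 1), ((if u = (c : ℕ) + (8 * m + 1) then
          P ^ (2 * Mn m c + 4) * (P ^ k)⁻¹ * uterm (16 * m + 1) (pr m) r h u else 0) +
          (if u = (8 * m - (c : ℕ)) + (8 * m + 1) then
          P ^ (2 * Mn m c + 4) * (P ^ k)⁻¹ * uterm (16 * m + 1) (pr m) r h u else 0)) := by
      rw [Finset.sum_add_distrib, Finset.sum_ite_eq', Finset.sum_ite_eq',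
        if_pos (Finset.mem_range.2 (by omega)), if_pos (Finset.mem_range.2 (by omega))]
    rw [e1]
    refine Cg.sum _ _ _ fun u hu => ?_
    rw [Finset.mem_range] at hu
    by_cases h1 : u = (c : ℕ) + (8 * m + 1)
    · rw [if_pos h1, if_neg (by omega), add_zero, hpow]
      exact Cg.refl _
    by_cases h2 : u = (8 * m - (c : ℕ)) + (8 * m + 1)
    · rw [if_neg h1, if_pos h2, zero_add, hpow]
      exact Cg.refl _
    rw [if_neg h1, if_neg h2, add_zero]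
    refine nvr_reduce hm hp hr c i j (by omega) (by rw [hdl]; omega) (by omega) ?_
    rcases Nat.lt_or_ge u (8 * m + 1) with h3 | h3
    · left
      exact h3
    · right
      have h4 : u % (8 * m + 1) = u - (8 * m + 1) := by
        rw [Nat.mod_eq_sub_mod h3, Nat.mod_eq_of_lt (by omega)]
      rw [h4]
      omega
  have h1 := hred.trans ((nvr_main1 hm hp hr c hc i j).add (nvr_main2 hm hp hr c hc i j))
  refine h1.trans ?_
  rw [← hξ, ← hk]
  have e5 : -((Dl (8 * m + 1) (pr m) c)⁻¹ * (ξ * (4 * ξ) ^ k * nvrOm m c ^ 2 *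
        ((-1) ^ k * (hA (pr m c) k : ℚ)))) + (Dl (8 * m + 1) (pr m) c)⁻¹ * (ξ * (4 * ξ) ^ k *
        nvrOm m c ^ 2 * ((-1) ^ k * (hB (pr m c) k : ℚ))) =
      -((Dl (8 * m + 1) (pr m) c)⁻¹ * (ξ * nvrOm m c ^ 2)) * (4 * ξ) ^ k *
        (hh (pr m c) k : ℚ) := by
    unfold hh
    push_cast
    ring
  rw [e5]
  have h4ξ : Cg (8 * m + 1) hp (4 * ξ) (-(4 * (2 * ((c : ℕ) : ℚ) + 1))) := by
    refine ⟨((8 : ℤ) : ℚ), Pool.Agent.Z5.NV.Zp_int 8, ?_⟩
    rw [hξ]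
    push_cast
    ring
  have hm4 : (-(4 * (2 * ((c : ℕ) : ℚ) + 1))) ∈ Zp (8 * m + 1) hp :=
    nvr_mem_int (-(4 * (2 * (c : ℕ) + 1))) (by push_cast; ring)
  have hκ : -((Dl (8 * m + 1) (pr m) c)⁻¹ * (ξ * nvrOm m c ^ 2)) ∈ Zp (8 * m + 1) hp :=
    (hU.inv.mul (hξU.mul (hOm.pow 2))).neg.2.1
  have h5 := nvr_Cg_pow h4ξ hm4 k
  have h6 := (Cg.refl (-((Dl (8 * m + 1) (pr m) c)⁻¹ * (ξ * nvrOm m c ^ 2)))).mul h5 hκ
    (h5.mem ((Zp _ hp).pow_mem hm4 k))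
  exact h6.mul (Cg.refl _) ((Zp _ hp).mul_mem hκ ((Zp _ hp).pow_mem hm4 k))
    (Pool.Agent.Z5.NV.Zp_int _)

end Pool.Agent.OZ
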