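import Pool.Agent.OZ.NVR

/-!
# Non-vanishing: the self-conjugate block (module NVS)
-/

open Finset Polynomial

namespace Pool.Agent.OZ

open Pool.Agent.Z5 (w evY dser xser hser lser co rho Hs zt tot VG)
open Pool.Agent.Z9 (IsProf)
open Pool.Agent.Z5.NV (Zp Cg Un SC)

/-- `[z ^ 9] (2 z - 1) (z (z - 1)) ^ k (1 - z) ^ (- 15)` -/
theorem nvs_coeff {k : ℕ} (hk : k ≤ 8) : PowerSeries.coeff 9
    ((2 * PowerSeries.X - 1 : PowerSeries ℚ) * (4 * PowerSeries.X * (PowerSeries.X - 1)) ^ k *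
      PowerSeries.mk fun n => (((n + 10 + 4).choose (10 + 4) : ℕ) : ℚ)) = -(gg k : ℚ) := by
  have h1 : (PowerSeries.mk fun n => (((n + 10 + 4).choose (10 + 4) : ℕ) : ℚ)) =
      (PowerSeries.mk 1 : PowerSeries ℚ) ^ (14 + 1) := by
    rw [PowerSeries.mk_one_pow_eq_mk_choose_add]
    congr 1
    funext n
    rw [show n + 10 + 4 = 14 + n by ring]
  have h3 := PowerSeries.mk_one_mul_one_sub_eq_one ℚ
  have h4 : (PowerSeries.C (4 : ℚ)) = 4 := map_ofNat _ 4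
  have h2 : (2 * PowerSeries.X - 1 : PowerSeries ℚ) * (4 * PowerSeries.X * (PowerSeries.X - 1)) ^ k *
      (PowerSeries.mk 1 : PowerSeries ℚ) ^ (14 + 1) = PowerSeries.C (-(-4 : ℚ) ^ k) *
      (PowerSeries.X ^ k * (PowerSeries.mk 1 : PowerSeries ℚ) ^ ((14 - k) + 1) -
        PowerSeries.X ^ (k + 1) * (2 * (PowerSeries.mk 1 : PowerSeries ℚ) ^ ((14 - k) + 1))) := by
    have e1 : 14 + 1 = k + ((14 - k) + 1) := by omega
    have e2 : (PowerSeries.X - 1 : PowerSeries ℚ) ^ k * (PowerSeries.mk 1 : PowerSeries ℚ) ^ (14 + 1) =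
        PowerSeries.C ((-1 : ℚ) ^ k) * (PowerSeries.mk 1 : PowerSeries ℚ) ^ ((14 - k) + 1) := by
      rw [e1, pow_add, ← mul_assoc, ← mul_pow]
      have e3 : (PowerSeries.X - 1 : PowerSeries ℚ) * PowerSeries.mk 1 = PowerSeries.C (-1 : ℚ) := by
        rw [map_neg, map_one]
        linear_combination -h3
      rw [e3, map_pow]
    calc (2 * PowerSeries.X - 1 : PowerSeries ℚ) * (4 * PowerSeries.X * (PowerSeries.X - 1)) ^ k *
      (PowerSeries.mk 1 : PowerSeries ℚ) ^ (14 + 1)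
        = (2 * PowerSeries.X - 1 : PowerSeries ℚ) * (4 ^ k * PowerSeries.X ^ k) *
          ((PowerSeries.X - 1) ^ k * (PowerSeries.mk 1 : PowerSeries ℚ) ^ (14 + 1)) := by
          rw [mul_pow, mul_pow]
          ring
      _ = _ := by
          rw [e2, neg_pow (4 : ℚ), map_neg, map_mul, map_pow, map_pow, map_neg, map_one, h4]
          ring
  rw [h1, h2, PowerSeries.coeff_C_mul, map_sub, PowerSeries.coeff_X_pow_mul',
    PowerSeries.coeff_X_pow_mul', if_pos (by omega), if_pos (by omega),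
    PowerSeries.mk_one_pow_eq_mk_choose_add]
  have h5 : (2 : PowerSeries ℚ) = PowerSeries.C (2 : ℚ) := (map_ofNat _ 2).symm
  rw [h5, PowerSeries.coeff_C_mul, PowerSeries.coeff_mk, PowerSeries.coeff_mk]
  unfold gg
  have e5 : (14 - k + (9 - k)).choose (14 - k) = (23 - 2 * k).choose (9 - k) := by
    rw [show 14 - k + (9 - k) = 23 - 2 * k by omega]
    exact Nat.choose_symm_of_eq_add (by omega)
  have e6 : (14 - k + (9 - (k + 1))).choose (14 - k) = (22 - 2 * k).choose (8 - k) := by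
    rw [show 14 - k + (9 - (k + 1)) = 22 - 2 * k by omega]
    exact Nat.choose_symm_of_eq_add (by omega)
  rw [e5, e6]
  push_cast
  ring


/-- the term of the pole `c + p` -/
theorem nvs_main {m : ℕ} (hm : 1 ≤ m) (hp : (8 * m + 1).Prime) {r : ℕ → ℚ}
    (hr : ∀ i ∈ Finset.Icc 1 10, r i ∈ Zp (8 * m + 1) hp) (c : Fin (4 * m + 1))
    (hc : (c : ℕ) = 4 * m) (i j : Fin (Mn m c)) (hij : (i : ℕ) + (j : ℕ) ≤ 8) :
    Cg (8 * m + 1) hp (((8 * m + 1 : ℕ) : ℚ) ^ 24 *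
      (((8 * m + 1 : ℕ) : ℚ) ^ (2 * ((i : ℕ) + (j : ℕ)) + 1))⁻¹ *
      uterm (16 * m + 1) (pr m) r (hb (yn m) (Mn m) ⟨c, i⟩ * hb (yn m) (Mn m) ⟨c, j⟩)
        ((c : ℕ) + (8 * m + 1)))
      ((Dl (8 * m + 1) (pr m) c)⁻¹ * nvrOm m c ^ 2 * (gg ((i : ℕ) + (j : ℕ)) : ℚ)) := by
  have hL : 16 * m + 1 = 2 * (8 * m + 1) - 1 := by omega
  have hev : ∀ u, Even (pr m u) := fun u => even_pr m u
  have he : ∀ u < 2 * (8 * m + 1), 1 ≤ pr m u ∧ pr m u ≤ 10 := by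
    intro u _
    unfold pr
    split_ifs <;> omega
  have hpc : pr m (c : ℕ) = 10 := by
    unfold pr
    split_ifs <;> omega
  have hp9 : pr m ((c : ℕ) + (8 * m + 1)) = 10 := by
    unfold pr
    split_ifs <;> omega
  set k := (i : ℕ) + (j : ℕ) with hk
  have z4 : (4 : ℚ) ∈ Zp (8 * m + 1) hp := nvr_mem_int 4 (by norm_num)
  have z2 : (2 : ℚ) ∈ Zp (8 * m + 1) hp := nvr_mem_int 2 (by norm_num)
  set P : ℚ := ((8 * m + 1 : ℕ) : ℚ) with hP
  have hP0 : P ≠ 0 := by rw [hP]; exact_mod_cast hp.ne_zero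
  have zP : P ∈ Zp (8 * m + 1) hp := Pool.Agent.Z5.NV.Zp_nat _
  set A := PowerSeries.rescale P (xser (16 * m + 1) ((c : ℕ) + (8 * m + 1))) with hA
  have h2 : (PowerSeries.C (2 : ℚ)) = 2 := map_ofNat _ 2
  have h4 : (PowerSeries.C (4 : ℚ)) = 4 := map_ofNat _ 4
  have hAe : A = PowerSeries.C P * (2 * PowerSeries.X - 1) := by
    rw [hA, nvr_rescale_xser]
    have e1 : (((16 * m + 1 : ℕ) : ℚ) - 2 * (((c : ℕ) + (8 * m + 1) : ℕ) : ℚ)) = -P := by
      rw [hP, hc]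
      push_cast
      ring
    rw [e1, map_neg, map_mul, h2]
    ring
  have hyc : yn m c = P ^ 2 := by
    unfold yn yc
    rw [hP, hc]
    push_cast
    ring
  have hXs : SC (8 * m + 1) hp PowerSeries.X PowerSeries.X := nvr_SC_X
  have hX1 : SC (8 * m + 1) hp (PowerSeries.X - 1) (PowerSeries.X - 1) := by
    have h1 := nvr_SC_add hXs
      (nvl_C_SC (p := 8 * m + 1) (hp := hp) ((Zp (8 * m + 1) hp).neg_mem (Zp (8 * m + 1) hp).one_mem))
    rw [map_neg, map_one, ← sub_eq_add_neg] at h1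
    exact h1
  have hX2 : SC (8 * m + 1) hp (2 * PowerSeries.X - 1) (2 * PowerSeries.X - 1) := by
    have h1 := nvr_SC_add ((nvl_C_SC z2).mul hXs)
      (nvl_C_SC (p := 8 * m + 1) (hp := hp) ((Zp (8 * m + 1) hp).neg_mem (Zp (8 * m + 1) hp).one_mem))
    rw [map_neg, map_one, ← sub_eq_add_neg, h2] at h1
    exact h1
  have hX4 : SC (8 * m + 1) hp (4 * PowerSeries.X * (PowerSeries.X - 1))
      (4 * PowerSeries.X * (PowerSeries.X - 1)) := by
    have h1 := ((nvl_C_SC z4).mul hXs).mul hX1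
    rw [h4] at h1
    exact h1
  have hA2 : SC (8 * m + 1) hp (A ^ 2) (PowerSeries.C (yn m c)) := by
    have e1 : A ^ 2 = PowerSeries.C (P ^ 2) + PowerSeries.C P *
        (PowerSeries.C P * (4 * PowerSeries.X * (PowerSeries.X - 1))) := by
      rw [hAe, map_pow]
      ring
    rw [e1, hyc]
    have h1 := nvr_SC_add (nvl_C_SC ((Zp (8 * m + 1) hp).pow_mem zP 2))
      (nvr_SC_p (p := 8 * m + 1) (hp := hp) ((nvl_C_SC zP).mul hX4))
    rw [add_zero] at h1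
    exact h1
  have hx : SC (8 * m + 1) hp (PowerSeries.C ((P ^ (2 * k + 1))⁻¹) *
      PowerSeries.rescale P (xser (2 * (8 * m + 1) - 1) ((c : ℕ) + (8 * m + 1)) *
        hser (2 * (8 * m + 1) - 1) ((c : ℕ) + (8 * m + 1))
          (hb (yn m) (Mn m) ⟨c, i⟩ * hb (yn m) (Mn m) ⟨c, j⟩)))
      ((2 * PowerSeries.X - 1) * (4 * PowerSeries.X * (PowerSeries.X - 1)) ^ k *
        PowerSeries.C (nvrOm m c ^ 2)) := by
    rw [← hL, nvr_local, ← hA]
    have hPP : PowerSeries.C P⁻¹ * PowerSeries.C P = 1 := by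
      rw [← map_mul, inv_mul_cancel₀ hP0, map_one]
    have e0 : A ^ 2 - PowerSeries.C (yn m c) =
        PowerSeries.C P ^ 2 * (4 * PowerSeries.X * (PowerSeries.X - 1)) := by
      rw [hAe, hyc, map_pow]
      ring
    have e1 : PowerSeries.C ((P ^ (2 * k + 1))⁻¹) * (A * (A ^ 2 - PowerSeries.C (yn m c)) ^ k *
        (∏ k ∈ univ.erase c, (A ^ 2 - PowerSeries.C (yn m k)) ^ Mn m k) ^ 2) =
        (2 * PowerSeries.X - 1) * (4 * PowerSeries.X * (PowerSeries.X - 1)) ^ k *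
        (∏ k ∈ univ.erase c, (A ^ 2 - PowerSeries.C (yn m k)) ^ Mn m k) ^ 2 := by
      rw [e0, ← inv_pow, map_pow, mul_pow]
      have e2 : PowerSeries.C P⁻¹ ^ (2 * k + 1) * (PowerSeries.C P * (PowerSeries.C P ^ 2) ^ k) = 1 := by
        rw [← pow_mul, ← pow_succ', ← mul_pow, hPP, one_pow]
      nth_rewrite 1 [hAe]
      linear_combination ((2 * PowerSeries.X - 1) * (4 * PowerSeries.X * (PowerSeries.X - 1)) ^ k *
        (∏ k ∈ univ.erase c, (A ^ 2 - PowerSeries.C (yn m k)) ^ Mn m k) ^ 2) * e2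
    rw [e1]
    exact (hX2.mul (hX4.pow k)).mul (nvr_others hp c hA2)
  have key := nv_uterm (p := 8 * m + 1) hp hev he (c := (c : ℕ)) (by omega) hr hx
  rw [hpc, hp9, ← hL] at key
  have e2 : PowerSeries.coeff (10 - 1) ((2 * PowerSeries.X - 1) *
      (4 * PowerSeries.X * (PowerSeries.X - 1)) ^ k * PowerSeries.C (nvrOm m c ^ 2) *
      (PowerSeries.mk fun n => (((n + 10 + 4).choose (10 + 4) : ℕ) : ℚ))) =
      -(nvrOm m c ^ 2 * (gg k : ℚ)) := by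
    have e3 : -(nvrOm m c ^ 2 * (gg k : ℚ)) = nvrOm m c ^ 2 * (-(gg k : ℚ)) := by ring
    rw [e3, ← nvs_coeff hij, ← PowerSeries.coeff_C_mul]
    congr 1
    ring
  rw [e2] at key
  have e4 : -((Dl (8 * m + 1) (pr m) c)⁻¹ * -(nvrOm m c ^ 2 * (gg k : ℚ))) =
      (Dl (8 * m + 1) (pr m) c)⁻¹ * nvrOm m c ^ 2 * (gg k : ℚ) := by ring
  rw [e4] at key
  exact key

theorem nv_self {m : ℕ} (hm : 1 ≤ m) (hp : (8 * m + 1).Prime) {r : ℕ → ℚ}
    (hr : ∀ i ∈ Finset.Icc 1 10, r i ∈ Zp (8 * m + 1) hp) (c : Fin (4 * m + 1))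
    (hc : (c : ℕ) = 4 * m) :
    ∃ κ : ℚ, Un (8 * m + 1) hp κ ∧ ∀ i j : Fin (Mn m c),
      Cg (8 * m + 1) hp (((8 * m + 1 : ℕ) : ℚ) ^ (23 - 2 * (i : ℕ) - 2 * (j : ℕ)) *
        Fq (16 * m + 1) (pr m) r (hb (yn m) (Mn m) ⟨c, i⟩ * hb (yn m) (Mn m) ⟨c, j⟩))
      (κ * (gg ((i : ℕ) + (j : ℕ)) : ℚ)) := by
  have hU := Dl_unit hp (pr m) (c := (c : ℕ)) (by omega)
  have hOm := nvr_Om_unit hm hp c
  refine ⟨(Dl (8 * m + 1) (pr m) c)⁻¹ * nvrOm m c ^ 2, hU.inv.mul (hOm.pow 2), fun i j => ?_⟩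
  have hMn5 : Mn m c = 5 := by
    unfold Mn
    split_ifs <;> omega
  have hi : (i : ℕ) < 5 := lt_of_lt_of_eq i.2 hMn5
  have hj : (j : ℕ) < 5 := lt_of_lt_of_eq j.2 hMn5
  set P : ℚ := ((8 * m + 1 : ℕ) : ℚ) with hP
  have hP0 : P ≠ 0 := by rw [hP]; exact_mod_cast hp.ne_zero
  set h := hb (yn m) (Mn m) ⟨c, i⟩ * hb (yn m) (Mn m) ⟨c, j⟩ with hh'
  have hdl : dl (8 * m + 1) (16 * m + 1) c = 2 := by
    rw [nvr_dl (by omega), if_pos hc]
  have hpow : P ^ (23 - 2 * (i : ℕ) - 2 * (j : ℕ)) =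
      P ^ 24 * (P ^ (2 * ((i : ℕ) + (j : ℕ)) + 1))⁻¹ := by
    rw [eq_mul_inv_iff_mul_eq₀ (pow_ne_zero _ hP0), ← pow_add]
    congr 1
    omega
  have hred : Cg (8 * m + 1) hp (P ^ (23 - 2 * (i : ℕ) - 2 * (j : ℕ)) *
      Fq (16 * m + 1) (pr m) r h)
      (P ^ 24 * (P ^ (2 * ((i : ℕ) + (j : ℕ)) + 1))⁻¹ *
        uterm (16 * m + 1) (pr m) r h ((c : ℕ) + (8 * m + 1))) := by
    rw [Fq_eq_sum, Finset.mul_sum]
    have e1 : P ^ 24 * (P ^ (2 * ((i : ℕ) + (j : ℕ)) + 1))⁻¹ *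
          uterm (16 * m + 1) (pr m) r h ((c : ℕ) + (8 * m + 1)) =
        ∑ u ∈ range (16 * m + 1 + 1), (if u = (c : ℕ) + (8 * m + 1) then
          P ^ 24 * (P ^ (2 * ((i : ℕ) + (j : ℕ)) + 1))⁻¹ * uterm (16 * m + 1) (pr m) r h u
          else 0) := by
      rw [Finset.sum_ite_eq', if_pos (Finset.mem_range.2 (by omega))]
    rw [e1]
    refine Cg.sum _ _ _ fun u hu => ?_
    rw [Finset.mem_range] at hu
    by_cases h1 : u = (c : ℕ) + (8 * m + 1)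
    · rw [if_pos h1, hpow]
      exact Cg.refl _
    rw [if_neg h1]
    refine nvr_reduce hm hp hr c i j (by omega) (by have h9 := hMn5; rw [hdl]; omega) (by omega) ?_
    rcases Nat.lt_or_ge u (8 * m + 1) with h3 | h3
    · left
      exact h3
    · right
      have h4 : u % (8 * m + 1) = u - (8 * m + 1) := by
        rw [Nat.mod_eq_sub_mod h3, Nat.mod_eq_of_lt (by omega)]
      rw [h4]
      omega
  exact hred.trans (nvs_main hm hp hr c hc i j (by omega))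

end Pool.Agent.OZ
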