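import Pool.Agent.OZ.LOCU
import Pool.Agent.OZ.LIN
import Pool.Agent.Z5.NVRing

/-!
# OZ7: the entries of the Gram matrix between different classes vanish modulo `p = 8 m + 1`
-/

open Finset Polynomial

namespace Pool.Agent.OZ

open Pool.Agent.Z5 (w evY dser xser hser lser co rho Hs zt tot VG)
open Pool.Agent.Z9 (IsProf)
open Pool.Agent.Z5.NV (Zp Cg Un)

theorem nvx_mem_Zp {p : ℕ} (hp : p.Prime) {x : ℚ} (h : VG p 0 x) : x ∈ Zp p hp := by
  have : Fact p.Prime := ⟨hp⟩
  by_cases hx : x = 0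
  · subst hx; exact zero_mem _
  have h1 := h.val hx
  refine ⟨(x.den : ℤ), fun hd => ?_, x.num, ?_⟩
  · have h2 : p ∣ x.den := by exact_mod_cast hd
    have h3 : ¬ p ∣ x.num.natAbs := by
      intro h4
      have h5 := Nat.dvd_gcd h4 h2
      rw [x.reduced] at h5
      exact hp.one_lt.ne' (Nat.dvd_one.1 h5)
    have h6 : padicValRat p x = (padicValInt p x.num : ℤ) - padicValNat p x.den := rfl
    have h7 : padicValInt p x.num = 0 := padicValNat.eq_zero_of_not_dvd h3
    have h8 : 1 ≤ padicValNat p x.den := one_le_padicValNat_of_dvd x.den_pos.ne' h2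
    rw [h6, h7] at h1
    simp only [Nat.cast_zero, zero_sub] at h1
    omega
  · exact_mod_cast Rat.mul_den_eq_num x

theorem nvx_VG {p : ℕ} (hp : p.Prime) {x : ℚ} (h : x ∈ Zp p hp) : VG p 0 x := by
  have : Fact p.Prime := ⟨hp⟩
  obtain ⟨d, hd, n, h⟩ := h
  have hd0 : (d : ℚ) ≠ 0 := by
    intro h0
    exact hd (by rw [show d = 0 by exact_mod_cast h0]; exact dvd_zero _)
  have h1 : x = n * (d : ℚ)⁻¹ := by rw [← h]; field_simp
  rw [h1]
  refine (VG.int n).mul_int (Or.inr ?_)
  rw [padicValRat.inv, padicValRat.of_int, padicValInt,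
    padicValNat.eq_zero_of_not_dvd (fun hc => hd (Int.natCast_dvd.2 hc))]
  simp

theorem nvx_Cg {p : ℕ} (hp : p.Prime) {x : ℚ} (h : VG p 1 x) : Cg p hp x 0 := by
  have : Fact p.Prime := ⟨hp⟩
  have hp0 : (p : ℚ) ≠ 0 := by exact_mod_cast hp.ne_zero
  refine ⟨(p : ℚ)⁻¹ * x, nvx_mem_Zp hp ?_, ?_⟩
  · have h1 : VG p (-1) ((p : ℚ)⁻¹) := Or.inr (by
      rw [padicValRat.inv, padicValRat.self hp.one_lt])
    exact (h1.mul h).mono (by norm_num)
  · field_simp; ring

section

variable {m : ℕ}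

theorem nvx_pr_small {u : ℕ} (h1 : 4 * m ≤ u) (h2 : u ≤ 8 * m) : pr m u = 10 := by
  unfold pr
  split_ifs <;> omega

/-- every pole lies in one of the classes of the nodes -/
theorem nvx_class (u : ℕ) : ∃ d ≤ 4 * m, u % (8 * m + 1) = d ∨ u % (8 * m + 1) = 8 * m - d := by
  have h := Nat.mod_lt u (show 0 < 8 * m + 1 by omega)
  rcases le_or_gt (u % (8 * m + 1)) (4 * m) with h1 | h1
  · exact ⟨_, h1, Or.inl rfl⟩
  · exact ⟨8 * m - u % (8 * m + 1), by omega, Or.inr (by omega)⟩

theorem nvx_ordc {u d : ℕ} (hd : d ≤ 4 * m)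
    (hu : u % (8 * m + 1) = d ∨ u % (8 * m + 1) = 8 * m - d) :
    ordc (8 * m + 1) (16 * m + 1) (pr m) u = pr m d + 10 := by
  have h1 : ordc (8 * m + 1) (16 * m + 1) (pr m) u =
      pr m (u % (8 * m + 1)) + pr m (u % (8 * m + 1) + (8 * m + 1)) := by
    have hlt := Nat.mod_lt u (show 0 < 8 * m + 1 by omega)
    have h2 : (range (16 * m + 1 + 1)).filter (fun v => v % (8 * m + 1) = u % (8 * m + 1)) =
        {u % (8 * m + 1), u % (8 * m + 1) + (8 * m + 1)} := by
      ext v
      simp only [Finset.mem_filter, Finset.mem_range, Finset.mem_insert, Finset.mem_singleton]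
      constructor
      · rintro ⟨hv, h3⟩
        have h4 := Nat.div_add_mod v (8 * m + 1)
        rw [h3] at h4
        have h5 : v / (8 * m + 1) < 2 := Nat.div_lt_of_lt_mul (by omega)
        have h7 : v / (8 * m + 1) = 0 ∨ v / (8 * m + 1) = 1 := by
          revert h5; generalize v / (8 * m + 1) = w; omega
        rcases h7 with h6 | h6
        · rw [h6] at h4; left; omega
        · rw [h6] at h4; right; omega
      · rintro (h3 | h3)
        · subst h3; exact ⟨by omega, Nat.mod_mod _ _⟩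
        · subst h3
          refine ⟨by omega, ?_⟩
          rw [Nat.add_mod_right, Nat.mod_mod]
    rw [ordc, h2, Finset.sum_pair (by omega)]
  rw [h1]
  rcases hu with hu | hu
  · rw [hu]
    have h3 : pr m (d + (8 * m + 1)) = pr m (8 * m - d) := by
      rw [← pr_symm (m := m) (u := 8 * m - d) (by omega)]
      congr 1; omega
    rw [h3, nvx_pr_small (m := m) (u := 8 * m - d) (by omega) (by omega)]
  · rw [hu]
    have h3 : pr m (8 * m - d + (8 * m + 1)) = pr m d := by
      rw [← pr_symm (m := m) (u := d) (by omega)]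
      congr 1; omega
    rw [h3, nvx_pr_small (m := m) (u := 8 * m - d) (by omega) (by omega)]
    omega

theorem nvx_dl {d : ℕ} (hd : d ≤ 4 * m) :
    dl (8 * m + 1) (16 * m + 1) d = if d = 4 * m then 2 else 1 := by
  unfold dl
  have h1 : (16 * m + 1) % (8 * m + 1) = 8 * m := by
    have : 16 * m + 1 = 8 * m + (8 * m + 1) := by omega
    rw [this, Nat.add_mod_right, Nat.mod_eq_of_lt (by omega)]
  have h2 : (2 * d) % (8 * m + 1) = 2 * d := Nat.mod_eq_of_lt (by omega)
  rw [h1, h2]
  split_ifs <;> omega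

/-- weight of an element of the Hermite basis at a pole of the class `d` -/
theorem nvx_WT_hb [hp : Fact (8 * m + 1).Prime] (hm : 1 ≤ m)
    (a : (c : Fin (4 * m + 1)) × Fin (Mn m c)) (d : Fin (4 * m + 1)) {u : ℕ}
    (hu : u % (8 * m + 1) = d ∨ u % (8 * m + 1) = 8 * m - d) :
    WT (8 * m + 1) ((dl (8 * m + 1) (16 * m + 1) d : ℤ) *
        (if a.1 = d then ((a.2 : ℕ) : ℤ) else Mn m d))
      (hser (16 * m + 1) u (hb (yn m) (Mn m) a)) := by
  have h2 : 8 * m + 1 ≠ 2 := by omega
  have hL : (16 * m + 1) % (8 * m + 1) = 8 * m := by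
    have : 16 * m + 1 = 8 * m + (8 * m + 1) := by omega
    rw [this, Nat.add_mod_right, Nat.mod_eq_of_lt (by omega)]
  have hd : WT (8 * m + 1) (dl (8 * m + 1) (16 * m + 1) d)
      (hser (16 * m + 1) u (X - C (yn m d))) := by
    refine WT_node h2 ?_
    rcases hu with hu | hu
    · left; rw [hu, Nat.mod_eq_of_lt (by have := d.2; omega)]
    · right
      rw [hL, Nat.add_mod, hu, Nat.mod_eq_of_lt (a := (d : ℕ)) (by have := d.2; omega)]
      have : 8 * m - (d : ℕ) + d = 8 * m := by have := d.2; omega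
      rw [this, Nat.mod_eq_of_lt (by omega)]
  have h0 : ∀ k : Fin (4 * m + 1), WT (8 * m + 1) 0 (hser (16 * m + 1) u (X - C (yn m k))) := by
    intro k
    refine WT_hser _ fun n => ?_
    rw [Polynomial.coeff_sub, Polynomial.coeff_X, Polynomial.coeff_C]
    refine VG.sub ?_ ?_
    · split_ifs
      · exact VG.one
      · exact VG.zero _
    · split_ifs
      · have := VG.int (q := 8 * m + 1) (((16 * m + 1 : ℕ) : ℤ) - 2 * (k : ℕ))
        have := this.pow_zero 2
        rw [yn, yc]; push_cast at this ⊢; exact this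
      · exact VG.zero _
  have hk : ∀ k : Fin (4 * m + 1), ∀ n : ℕ, WT (8 * m + 1)
      ((n : ℕ) * (if k = d then (dl (8 * m + 1) (16 * m + 1) d : ℤ) else 0))
      (hser (16 * m + 1) u ((X - C (yn m k)) ^ n)) := by
    intro k n
    have h3 : hser (16 * m + 1) u ((X - C (yn m k)) ^ n) =
        hser (16 * m + 1) u (X - C (yn m k)) ^ n := by simp only [hser, map_pow]
    rw [h3]
    split_ifs with h
    · subst h; exact hd.pow n
    · exact (h0 k).pow n
  unfold hb
  rw [hser_mul']
  have h4 : hser (16 * m + 1) u (∏ k ∈ univ.erase a.1, (X - C (yn m k)) ^ Mn m k) =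
      ∏ k ∈ univ.erase a.1, hser (16 * m + 1) u ((X - C (yn m k)) ^ Mn m k) := by
    simp only [hser, map_prod]
  rw [h4]
  refine ((hk a.1 a.2).mul (WT.prod _ _ _ fun k _ => hk k (Mn m k))).mono (le_of_eq ?_)
  by_cases had : a.1 = d
  · rw [if_pos had, if_pos had]
    have : ∑ i ∈ univ.erase a.1, ((Mn m i : ℕ) : ℤ) *
        (if i = d then (dl (8 * m + 1) (16 * m + 1) d : ℤ) else 0) = 0 := by
      refine Finset.sum_eq_zero fun i hi => ?_
      rw [if_neg, mul_zero]
      intro h; exact (Finset.mem_erase.1 hi).1 (h.trans had.symm)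
    rw [this]; ring
  · rw [if_neg had, if_neg had]
    have : ∑ i ∈ univ.erase a.1, ((Mn m i : ℕ) : ℤ) *
        (if i = d then (dl (8 * m + 1) (16 * m + 1) d : ℤ) else 0) =
        ((Mn m d : ℕ) : ℤ) * (dl (8 * m + 1) (16 * m + 1) d : ℤ) := by
      rw [Finset.sum_eq_single d]
      · rw [if_pos rfl]
      · intro i _ hi; rw [if_neg hi, mul_zero]
      · intro h; exact absurd (Finset.mem_erase.2 ⟨fun h' => had h'.symm, Finset.mem_univ _⟩) h
    rw [this]; ring

theorem nvx_Mn (d : Fin (4 * m + 1)) :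
    2 * (dl (8 * m + 1) (16 * m + 1) d * Mn m d) = pr m d + 10 := by
  have hd := d.2
  rw [nvx_dl (by omega)]
  unfold Mn pr
  split_ifs <;> omega

theorem nvx_rsc_ge (a : (c : Fin (4 * m + 1)) × Fin (Mn m c)) : 3 ≤ rsc m a := by
  have h := a.2.2
  have h1 := a.1.2
  unfold rsc
  split_ifs with h2
  · omega
  · have h3 : Mn m a.1 = 5 := by
      unfold Mn; split_ifs <;> omega
    omega

theorem nvx_csc_ge (a : (c : Fin (4 * m + 1)) × Fin (Mn m c)) : 3 ≤ csc m a := by
  have h := a.2.2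
  have h1 := a.1.2
  unfold csc
  split_ifs with h2
  · omega
  · have h3 : Mn m a.1 = 5 := by
      unfold Mn; split_ifs <;> omega
    omega

end

theorem nv_cross {m : ℕ} (hm : 1 ≤ m) (hp : (8 * m + 1).Prime) {r : ℕ → ℚ}
    (hr : ∀ i ∈ Finset.Icc 1 10, r i ∈ Zp (8 * m + 1) hp)
    (a b : (c : Fin (4 * m + 1)) × Fin (Mn m c)) (hab : a.1 ≠ b.1) :
    Cg (8 * m + 1) hp (((8 * m + 1 : ℕ) : ℚ) ^ (rsc m a + csc m b) *
        Fq (16 * m + 1) (pr m) r (hb (yn m) (Mn m) a * hb (yn m) (Mn m) b)) 0 := by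
  have : Fact (8 * m + 1).Prime := ⟨hp⟩
  have hr' : ∀ i ∈ Finset.Icc 1 10, VG (8 * m + 1) 0 (r i) := fun i hi => nvx_VG hp (hr i hi)
  have hL : 16 * m + 1 < (8 * m + 1) ^ 2 := by nlinarith
  apply nvx_Cg
  rw [Fq_eq_sum, Finset.mul_sum]
  refine VG.sum _ _ fun u hu => ?_
  have huL : u ≤ 16 * m + 1 := by have := Finset.mem_range.1 hu; omega
  obtain ⟨d', hd', hud⟩ := nvx_class (m := m) u
  set d : Fin (4 * m + 1) := ⟨d', by omega⟩ with hd
  have hwa := nvx_WT_hb hm a d (u := u) hud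
  have hwb := nvx_WT_hb hm b d (u := u) hud
  have hw := hwa.mul hwb
  rw [← hser_mul'] at hw
  have hord : ordc (8 * m + 1) (16 * m + 1) (pr m) u = pr m d + 10 := nvx_ordc hd' hud
  have hM := nvx_Mn d
  have hra := nvx_rsc_ge a
  have hcb := nvx_csc_ge b
  have hpow : VG (8 * m + 1) ((rsc m a + csc m b : ℕ) : ℤ)
      (((8 * m + 1 : ℕ) : ℚ) ^ (rsc m a + csc m b)) := VG.pow_self _
  have hdl := nvx_dl (m := m) (d := d) hd'
  have h2a := a.2.2
  have h2b := b.2.2
  have hM5 : ∀ c : Fin (4 * m + 1), (c : ℕ) = 4 * m → Mn m c = 5 := by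
    intro c hc; unfold Mn; split_ifs <;> omega
  by_cases hself : (d : ℕ) = 4 * m
  · rw [if_pos hself] at hdl
    have hs : (2 * u) % (8 * m + 1) = (16 * m + 1) % (8 * m + 1) := by
      have h1 : (16 * m + 1) % (8 * m + 1) = 8 * m := by
        have : 16 * m + 1 = 8 * m + (8 * m + 1) := by omega
        rw [this, Nat.add_mod_right, Nat.mod_eq_of_lt (by omega)]
      have h3 : u % (8 * m + 1) = 4 * m := by
        have : d' = 4 * m := hself
        omega
      rw [h1, Nat.mul_mod, h3, Nat.mod_eq_of_lt (a := 2) (by omega),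
        Nat.mod_eq_of_lt (by omega)]
      omega
    have h5 := VG_uterm_self (e := pr m) hr' hL huL hs hw
    refine (hpow.mul h5).mono ?_
    rw [hord]
    have h6 : (pr m d : ℤ) + 10 = 20 := by
      have := hM5 d hself
      rw [this, hdl] at hM; omega
    have h7 : (Mn m d : ℤ) = 5 := by exact_mod_cast hM5 d hself
    push_cast
    rw [h6, hdl, h7]
    by_cases had : a.1 = d
    · have hbd : b.1 ≠ d := fun h => hab (had.trans h.symm)
      rw [if_pos had, if_neg hbd]
      have h8 : rsc m a = 11 - 2 * a.2 := by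
        unfold rsc; rw [if_neg]; rw [had]; omega
      have h9 : Mn m a.1 = 5 := hM5 _ (by rw [had]; exact hself)
      rw [h8]
      have h10 : ((11 - 2 * (a.2 : ℕ) : ℕ) : ℤ) = 11 - 2 * ((a.2 : ℕ) : ℤ) := by omega
      rw [h10]
      push_cast
      have : (3 : ℤ) ≤ csc m b := by exact_mod_cast hcb
      linarith
    · by_cases hbd : b.1 = d
      · rw [if_neg had, if_pos hbd]
        have h8 : csc m b = 12 - 2 * b.2 := by
          unfold csc; rw [if_neg]; rw [hbd]; omega
        have h9 : Mn m b.1 = 5 := hM5 _ (by rw [hbd]; exact hself)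
        rw [h8]
        have h10 : ((12 - 2 * (b.2 : ℕ) : ℕ) : ℤ) = 12 - 2 * ((b.2 : ℕ) : ℤ) := by omega
        rw [h10]
        push_cast
        have : (3 : ℤ) ≤ rsc m a := by exact_mod_cast hra
        linarith
      · rw [if_neg had, if_neg hbd]
        have h11 : (3 : ℤ) ≤ rsc m a := by exact_mod_cast hra
        have h12 : (3 : ℤ) ≤ csc m b := by exact_mod_cast hcb
        push_cast
        linarith
  · rw [if_neg hself] at hdl
    have h5 := VG_uterm (e := pr m) hr' hL huL hw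
    refine (hpow.mul h5).mono ?_
    rw [hord]
    have h6 : (pr m d : ℤ) + 10 = 2 * Mn m d := by
      rw [hdl] at hM; omega
    push_cast
    rw [h6, hdl]
    by_cases had : a.1 = d
    · have hbd : b.1 ≠ d := fun h => hab (had.trans h.symm)
      rw [if_pos had, if_neg hbd]
      have h8 : rsc m a = Mn m a.1 + 2 - a.2 := by
        unfold rsc; rw [if_pos]; rw [had]; have := d.2; omega
      have h10 : ((Mn m a.1 + 2 - (a.2 : ℕ) : ℕ) : ℤ) = Mn m d + 2 - ((a.2 : ℕ) : ℤ) := by
        rw [← had]; omega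
      rw [h8, h10]
      push_cast
      have : (3 : ℤ) ≤ csc m b := by exact_mod_cast hcb
      linarith
    · by_cases hbd : b.1 = d
      · rw [if_neg had, if_pos hbd]
        have h8 : csc m b = Mn m b.1 + 2 - b.2 := by
          unfold csc; rw [if_pos]; rw [hbd]; have := d.2; omega
        have h10 : ((Mn m b.1 + 2 - (b.2 : ℕ) : ℕ) : ℤ) = Mn m d + 2 - ((b.2 : ℕ) : ℤ) := by
          rw [← hbd]; omega
        rw [h8, h10]
        push_cast
        have : (3 : ℤ) ≤ rsc m a := by exact_mod_cast hra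
        linarith
      · rw [if_neg had, if_neg hbd]
        have h11 : (3 : ℤ) ≤ rsc m a := by exact_mod_cast hra
        have h12 : (3 : ℤ) ≤ csc m b := by exact_mod_cast hcb
        push_cast
        linarith

end Pool.Agent.OZ
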