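import Mathlib
import Pool.Agent.OZ.Defs
import Pool.Agent.Z5.NVMain
import Pool.Agent.OZ.GRAM
import Pool.Agent.OZ.HERM
import Pool.Agent.OZ.LIN
import Pool.Agent.OZ.NVD
import Pool.Agent.OZ.NVR
import Pool.Agent.OZ.NVS
import Pool.Agent.OZ.NVX

/-!
# Non-vanishing at the primes `p = 8 m + 1`
-/

open Finset Polynomial

namespace Pool.Agent.OZ

open Pool.Agent.Z5 (w evY dser xser hser lser co rho Hs zt tot VG)
open Pool.Agent.Z5.NV (Zp Cg Un SC Un_large Zp_large Un_int Zp_int det_cg det_scale)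

theorem sum_Mn (m : ℕ) : ∑ c, Mn m c = nn m := by
  have h1 : ∑ c : Fin (4 * m + 1), Mn m c =
      ∑ c ∈ range (4 * m + 1), (if c < m then 6 else if c < 2 * m then 8 else if c < 4 * m then 10 else 5) :=
    Fin.sum_univ_eq_sum_range
      (fun c => if c < m then 6 else if c < 2 * m then 8 else if c < 4 * m then 10 else 5) (4 * m + 1)
  rw [h1, Finset.sum_range_succ]
  have h2 : ∀ n : ℕ, n ≤ 4 * m → ∑ c ∈ range n,
      (if c < m then 6 else if c < 2 * m then 8 else if c < 4 * m then 10 else 5) =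
      if n ≤ m then 6 * n else if n ≤ 2 * m then 6 * m + 8 * (n - m) else 14 * m + 10 * (n - 2 * m) := by
    intro n
    induction n with
    | zero => intro _; simp
    | succ n ih =>
      intro hn
      rw [Finset.sum_range_succ, ih (by omega)]
      split_ifs <;> omega
  rw [h2 (4 * m) le_rfl, nn]
  split_ifs <;> omega

/-- the blocks of the limit matrix -/
theorem nvm_det_of_unit {p : ℕ} {hp : p.Prime} {n : ℕ} (κ a : ℚ) (hκ : Un p hp κ) (ha : Un p hp a)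
    (g : ℕ → ℤ) (hg : Un p hp (((Matrix.of fun i j : Fin n => g ((i : ℕ) + (j : ℕ))).det : ℤ) : ℚ)) :
    Un p hp (Matrix.of fun i j : Fin n => κ * a ^ ((i : ℕ) + (j : ℕ)) * (g ((i : ℕ) + (j : ℕ)) : ℚ)).det := by
  have h1 : (Matrix.of fun i j : Fin n => κ * a ^ ((i : ℕ) + (j : ℕ)) * (g ((i : ℕ) + (j : ℕ)) : ℚ)) =
      Matrix.of fun i j : Fin n => (κ * a ^ (i : ℕ)) *
        (Matrix.of fun i j : Fin n => (g ((i : ℕ) + (j : ℕ)) : ℚ)) i j * a ^ (j : ℕ) := by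
    ext i j
    simp only [Matrix.of_apply]
    rw [pow_add]
    ring
  have h2 : (Matrix.of fun i j : Fin n => (g ((i : ℕ) + (j : ℕ)) : ℚ)).det =
      (((Matrix.of fun i j : Fin n => g ((i : ℕ) + (j : ℕ))).det : ℤ) : ℚ) := by
    rw [Int.cast_det]
    rfl
  rw [h1, det_scale, h2]
  exact ((Un.prod _ _ fun i _ => hκ.mul (ha.pow _)).mul hg).mul (Un.prod _ _ fun i _ => ha.pow _)

/-- the size of a block is a number -/
theorem nvm_cast {n k : ℕ} (h : n = k) (g : ℕ → ℤ) :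
    (Matrix.of fun i j : Fin n => g ((i : ℕ) + (j : ℕ))).det =
      (Matrix.of fun i j : Fin k => g ((i : ℕ) + (j : ℕ))).det := by
  subst h
  rfl

theorem nvm_det_bd {N : ℕ} (M : Fin N → ℕ) (D : ∀ c, Matrix (Fin (M c)) (Fin (M c)) ℚ) :
    (Matrix.blockDiagonal' D).det = ∏ c, (D c).det := by
  rw [(Matrix.blockTriangular_blockDiagonal' D).det_fintype]
  refine Finset.prod_congr rfl fun c _ => ?_
  let E : Fin (M c) ≃ {a : (c : Fin N) × Fin (M c) // a.1 = c} :=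
    { toFun := fun i => ⟨⟨c, i⟩, rfl⟩
      invFun := fun a => Fin.cast (by rw [a.2]) a.1.2
      left_inv := fun i => rfl
      right_inv := by
        rintro ⟨⟨c', i⟩, h⟩
        subst h
        rfl }
  rw [← Matrix.det_submatrix_equiv_self E]
  congr 1
  ext i j
  exact Matrix.blockDiagonal'_apply_eq D c i j

/-- the entry of the Gram matrix -/
noncomputable def nvmG (m : ℕ) (r : ℕ → ℚ) (a b : (c : Fin (4 * m + 1)) × Fin (Mn m c)) : ℚ :=
  Fq (16 * m + 1) (pr m) r (hb (yn m) (Mn m) a * hb (yn m) (Mn m) b)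

/-- all blocks -/
theorem nvm_blocks {m : ℕ} (hm : 1 ≤ m) (hp : (8 * m + 1).Prime) {r : ℕ → ℚ}
    (hr : ∀ i ∈ Finset.Icc 1 10, r i ∈ Zp (8 * m + 1) hp)
    (h2 : Un (8 * m + 1) hp (((Matrix.of fun i j : Fin 6 => hh 2 ((i : ℕ) + (j : ℕ))).det : ℤ) : ℚ))
    (h6 : Un (8 * m + 1) hp (((Matrix.of fun i j : Fin 8 => hh 6 ((i : ℕ) + (j : ℕ))).det : ℤ) : ℚ))
    (h10 : Un (8 * m + 1) hp (((Matrix.of fun i j : Fin 10 => hh 10 ((i : ℕ) + (j : ℕ))).det : ℤ) : ℚ))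
    (h5 : Un (8 * m + 1) hp (((Matrix.of fun i j : Fin 5 => gg ((i : ℕ) + (j : ℕ))).det : ℤ) : ℚ))
    (c : Fin (4 * m + 1)) : ∃ D : Matrix (Fin (Mn m c)) (Fin (Mn m c)) ℚ,
      Un (8 * m + 1) hp D.det ∧ (∀ i j, D i j ∈ Zp (8 * m + 1) hp) ∧
      ∀ i j, Cg (8 * m + 1) hp (((8 * m + 1 : ℕ) : ℚ) ^ (rsc m ⟨c, i⟩ + csc m ⟨c, j⟩) *
        nvmG m r ⟨c, i⟩ ⟨c, j⟩) (D i j) := by
  rcases Nat.lt_or_ge (c : ℕ) (4 * m) with hc | hc
  · obtain ⟨κ, hκ, h⟩ := nv_reg hm hp hr c hc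
    set a : ℚ := -(4 * (2 * ((c : ℕ) : ℚ) + 1)) with ha
    have haU : Un (8 * m + 1) hp a := by
      have e : a = ((-(4 * (2 * ((c : ℕ) : ℤ) + 1)) : ℤ) : ℚ) := by rw [ha]; push_cast; ring
      rw [e]
      apply Un_int
      rw [Int.dvd_neg]
      intro hd
      have h1 : (8 * m + 1) ∣ 4 * (2 * (c : ℕ) + 1) := by exact_mod_cast hd
      rcases (Nat.Prime.dvd_mul hp).1 h1 with h1 | h1
      · have := Nat.le_of_dvd (by norm_num) h1
        omega
      · have := Nat.le_of_dvd (by omega) h1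
        omega
    refine ⟨Matrix.of fun i j => κ * a ^ ((i : ℕ) + (j : ℕ)) * (hh (pr m c) ((i : ℕ) + (j : ℕ)) : ℚ),
      nvm_det_of_unit κ a hκ haU (hh (pr m c)) ?_, fun i j => ?_, fun i j => ?_⟩
    · rcases Nat.lt_or_ge (c : ℕ) m with h7 | h7
      · have e1 : Mn m c = 6 := by simp [Mn, h7]
        have e2 : pr m c = 2 := by simp [pr, h7]
        rw [nvm_cast e1, e2]
        exact h2
      rcases Nat.lt_or_ge (c : ℕ) (2 * m) with h8 | h8
      · have e1 : Mn m c = 8 := by simp [Mn, h8, Nat.not_lt.2 h7]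
        have e2 : pr m c = 6 := by
          have : ¬ ((c : ℕ) < m ∨ 15 * m + 1 < (c : ℕ)) := by omega
          simp [pr, this, h8]
        rw [nvm_cast e1, e2]
        exact h6
      · have e1 : Mn m c = 10 := by simp [Mn, hc, Nat.not_lt.2 h7, Nat.not_lt.2 h8]
        have e2 : pr m c = 10 := by
          have h3 : ¬ ((c : ℕ) < m ∨ 15 * m + 1 < (c : ℕ)) := by omega
          have h4 : ¬ ((c : ℕ) < 2 * m ∨ 14 * m + 1 < (c : ℕ)) := by omega
          simp [pr, h3, h4]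
        rw [nvm_cast e1, e2]
        exact h10
    · rw [Matrix.of_apply]
      exact mul_mem (mul_mem hκ.2.1 (haU.pow _).2.1) (Zp_int _)
    · rw [Matrix.of_apply]
      have e : rsc m ⟨c, i⟩ + csc m ⟨c, j⟩ = 2 * Mn m c + 4 - i - j := by
        simp only [rsc, csc, if_pos hc]
        have := i.2
        have := j.2
        omega
      rw [e]
      exact h i j
  · have hc' : (c : ℕ) = 4 * m := by have := c.2; omega
    obtain ⟨κ, hκ, h⟩ := nv_self hm hp hr c hc'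
    have e1 : Mn m c = 5 := by
      have h7 : ¬ (c : ℕ) < m := by omega
      have h8 : ¬ (c : ℕ) < 2 * m := by omega
      have h9 : ¬ (c : ℕ) < 4 * m := by omega
      simp [Mn, h7, h8, h9]
    refine ⟨Matrix.of fun i j => κ * 1 ^ ((i : ℕ) + (j : ℕ)) * (gg ((i : ℕ) + (j : ℕ)) : ℚ),
      nvm_det_of_unit κ 1 hκ Pool.Agent.Z5.NV.Un_one gg ?_, fun i j => ?_, fun i j => ?_⟩
    · rw [nvm_cast e1]
      exact h5
    · rw [Matrix.of_apply, one_pow, mul_one]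
      exact mul_mem hκ.2.1 (Zp_int _)
    · rw [Matrix.of_apply, one_pow, mul_one]
      have e : rsc m ⟨c, i⟩ + csc m ⟨c, j⟩ = 23 - 2 * (i : ℕ) - 2 * (j : ℕ) := by
        have h9 : ¬ (c : ℕ) < 4 * m := by omega
        simp only [rsc, csc, if_neg h9]
        have := i.2
        have := j.2
        omega
      rw [e]
      exact h i j

theorem nvm_unit (m : ℕ) (hm : 1 ≤ m) (hp : (8 * m + 1).Prime) {r : ℕ → ℚ}
    (hr : ∀ i ∈ Finset.Icc 1 10, r i ∈ Zp (8 * m + 1) hp)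
    (h2 : Un (8 * m + 1) hp (((Matrix.of fun i j : Fin 6 => hh 2 ((i : ℕ) + (j : ℕ))).det : ℤ) : ℚ))
    (h6 : Un (8 * m + 1) hp (((Matrix.of fun i j : Fin 8 => hh 6 ((i : ℕ) + (j : ℕ))).det : ℤ) : ℚ))
    (h10 : Un (8 * m + 1) hp (((Matrix.of fun i j : Fin 10 => hh 10 ((i : ℕ) + (j : ℕ))).det : ℤ) : ℚ))
    (h5 : Un (8 * m + 1) hp (((Matrix.of fun i j : Fin 5 => gg ((i : ℕ) + (j : ℕ))).det : ℤ) : ℚ)) :
    (Matrix.of fun a b => nvmG m r a b).det ≠ 0 := by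
  classical
  choose D hD1 hD2 hD3 using fun c => nvm_blocks hm hp hr h2 h6 h10 h5 c
  set q : ℚ := ((8 * m + 1 : ℕ) : ℚ) with hq
  set A : Matrix ((c : Fin (4 * m + 1)) × Fin (Mn m c)) ((c : Fin (4 * m + 1)) × Fin (Mn m c)) ℚ :=
    Matrix.of fun a b => q ^ rsc m a * (Matrix.of fun a b => nvmG m r a b) a b * q ^ csc m b with hA
  set B := Matrix.blockDiagonal' D with hB
  have hBU : Un (8 * m + 1) hp B.det := by
    rw [hB, nvm_det_bd]
    exact Un.prod _ _ fun c _ => hD1 c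
  have hBe : ∀ a b, B a b ∈ Zp (8 * m + 1) hp := by
    rintro ⟨c, i⟩ ⟨c', j⟩
    by_cases hcc : c = c'
    · subst hcc
      rw [hB, Matrix.blockDiagonal'_apply_eq]
      exact hD2 c i j
    · rw [hB, Matrix.blockDiagonal'_apply_ne _ _ _ hcc]
      exact zero_mem _
  have hAB : ∀ a b, Cg (8 * m + 1) hp (A a b) (B a b) := by
    rintro ⟨c, i⟩ ⟨c', j⟩
    have e : A ⟨c, i⟩ ⟨c', j⟩ = q ^ (rsc m ⟨c, i⟩ + csc m ⟨c', j⟩) * nvmG m r ⟨c, i⟩ ⟨c', j⟩ := by
      rw [hA, Matrix.of_apply, Matrix.of_apply, pow_add]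
      ring
    rw [e]
    by_cases hcc : c = c'
    · subst hcc
      rw [hB, Matrix.blockDiagonal'_apply_eq]
      exact hD3 c i j
    · rw [hB, Matrix.blockDiagonal'_apply_ne _ _ _ hcc]
      exact nv_cross hm hp hr ⟨c, i⟩ ⟨c', j⟩ hcc
  have h1 := (det_cg A B hBe hAB).ne_zero hBU
  rw [hA, det_scale] at h1
  exact fun h0 => h1 (by rw [h0]; ring)

theorem nonvanishing (r : ℕ → ℚ) : ∃ m0 : ℕ, ∀ m ≥ m0, (8 * m + 1).Prime → DQ m r ≠ 0 := by
  classical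
  obtain ⟨p2, h2⟩ := Un_large _ (Int.cast_ne_zero.2 det_hh_two : ((_ : ℤ) : ℚ) ≠ 0)
  obtain ⟨p6, h6⟩ := Un_large _ (Int.cast_ne_zero.2 det_hh_six : ((_ : ℤ) : ℚ) ≠ 0)
  obtain ⟨p10, h10⟩ := Un_large _ (Int.cast_ne_zero.2 det_hh_ten : ((_ : ℤ) : ℚ) ≠ 0)
  obtain ⟨p5, h5⟩ := Un_large _ (Int.cast_ne_zero.2 det_gg : ((_ : ℤ) : ℚ) ≠ 0)
  choose g hg using fun i => Zp_large (r i)
  refine ⟨1 + p2 + p6 + p10 + p5 + ∑ i ∈ Finset.Icc 1 10, g i, fun m hm hp => ?_⟩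
  have hr : ∀ i ∈ Finset.Icc 1 10, r i ∈ Zp (8 * m + 1) hp := fun i hi => by
    refine hg i _ hp ?_
    have := Finset.single_le_sum (f := g) (fun i _ => Nat.zero_le _) hi
    omega
  have h := nvm_unit m (by omega) hp hr (h2 _ hp (by omega)) (h6 _ hp (by omega))
    (h10 _ hp (by omega)) (h5 _ hp (by omega))
  intro h0
  apply h
  obtain ⟨F⟩ := exists_enum (Mn m) 0 (nn m) (by rw [sum_Mn, add_zero])
  let E : ((c : Fin (4 * m + 1)) × Fin (Mn m c)) ≃ Fin (nn m) :=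
    (Equiv.sumEmpty _ (Fin 0)).symm.trans F
  have hd : ∀ a : (c : Fin (4 * m + 1)) × Fin (Mn m c), (hb (yn m) (Mn m) a).natDegree < nn m := by
    intro a
    have := natDegree_herm (yn m) (Mn m) 0 (Sum.inl a)
    rw [sum_Mn, add_zero] at this
    exact this
  have h1 := gram_det E (hb (yn m) (Mn m)) hd (FqL (16 * m + 1) (pr m) r)
  have h3 : (Matrix.of fun i j : Fin (nn m) => FqL (16 * m + 1) (pr m) r (X ^ ((i : ℕ) + (j : ℕ)))).det
      = DQ m r := rfl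
  rw [h3, h0, mul_zero] at h1
  exact h1

end Pool.Agent.OZ
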