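import Pool.Agent.OZ.AMAIN
import Pool.Agent.OZ.ARIB
import Pool.Agent.OZ.NVM
import Pool.Agent.OZ.LIN

/-!
# At least one of `ζ(7), ζ(9), ζ(11), ζ(13)` is irrational
-/

open Filter Topology

namespace Pool.Agent.OZ

open Pool.Agent.Z5 (zt)

/-- rational values contradict the two estimates of the determinant -/
theorem no_rational (r : ℕ → ℚ) :
    ¬ ∀ i ∈ ({3, 5, 7, 9} : Finset ℕ), (r i : ℝ) = zt (i + 4) := by
  intro hr
  obtain ⟨C, m1, h1⟩ := DR_le
  obtain ⟨m2, h2⟩ := log_DQ_ge r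
  obtain ⟨m3, h3⟩ := nonvanishing r
  -- `C log (m + 1) < 15 m` for large `m`
  have hlog : Tendsto (fun m : ℕ => C * (Real.log ((m : ℝ) + 1) / ((m : ℝ) + 1))) atTop (𝓝 (C * 0)) := by
    have h4 : Tendsto (fun x : ℝ => Real.log x / x) atTop (𝓝 0) := by
      have := Real.isLittleO_log_id_atTop.tendsto_div_nhds_zero
      simpa using this
    have h5 : Tendsto (fun m : ℕ => (m : ℝ) + 1) atTop atTop :=
      tendsto_atTop_add_const_right _ _ tendsto_natCast_atTop_atTop
    exact (h4.comp h5).const_mul C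
  rw [mul_zero] at hlog
  obtain ⟨m4, h4⟩ := eventually_atTop.1 (hlog.eventually (gt_mem_nhds (show (0 : ℝ) < 7 by norm_num)))
  set N : ℕ := max 1 (max m1 (max m2 (max m3 m4))) with hN
  obtain ⟨p, hp, hpN, hmod⟩ := Nat.exists_prime_gt_modEq_one (k := 8) (8 * N) (by norm_num)
  have hm8 : p = 8 * (p / 8) + 1 := by
    have : p % 8 = 1 := by
      have := hmod
      unfold Nat.ModEq at this
      omega
    omega
  set m : ℕ := p / 8 with hm
  have hmN : N ≤ m := by omega
  have hm1 : 1 ≤ m := (le_max_left _ _).trans hmN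
  have hle1 : m1 ≤ m := le_trans (le_trans (le_max_left _ _) (le_max_right _ _)) hmN
  have hle2 : m2 ≤ m := le_trans (le_trans (le_trans (le_max_left _ _) (le_max_right _ _))
    (le_max_right _ _)) hmN
  have hle3 : m3 ≤ m := le_trans (le_trans (le_trans (le_trans (le_max_left _ _) (le_max_right _ _))
    (le_max_right _ _)) (le_max_right _ _)) hmN
  have hle4 : m4 ≤ m := le_trans (le_trans (le_trans (le_trans (le_max_right _ _) (le_max_right _ _))
    (le_max_right _ _)) (le_max_right _ _)) hmN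
  have hne : DQ m r ≠ 0 := h3 m hle3 (hm8 ▸ hp)
  have e1 := h1 m hle1
  have e2 := h2 m hle2 hne
  have e4 := h4 m hle4
  rw [DR_eq_DQ hm1 r hr] at e1
  have hpos : 0 < |(DQ m r : ℝ)| := abs_pos.2 (by exact_mod_cast hne)
  have e3 := Real.log_le_log hpos e1
  rw [Real.log_exp] at e3
  have hmr : (1 : ℝ) ≤ m := by exact_mod_cast hm1
  have e5 : C * Real.log ((m : ℝ) + 1) < 7 * (m + 1) := by
    have h6 : (0 : ℝ) < (m : ℝ) + 1 := by positivity
    have h7 : C * (Real.log ((m : ℝ) + 1) / ((m : ℝ) + 1)) = C * Real.log ((m : ℝ) + 1) / ((m : ℝ) + 1) := by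
      ring
    rw [h7, div_lt_iff₀ h6] at e4
    exact e4
  have e6 : 15 * (m : ℝ) ^ 2 ≤ C * m * Real.log ((m : ℝ) + 1) := by linarith
  nlinarith

/-- **Main theorem.** -/
theorem exists_irrational :
    Irrational (zt 7) ∨ Irrational (zt 9) ∨ Irrational (zt 11) ∨ Irrational (zt 13) := by
  by_contra hcon
  push Not at hcon
  obtain ⟨h7, h9, h11, h13⟩ := hcon
  rw [irrational_iff_ne_rational] at h7 h9 h11 h13
  push Not at h7 h9 h11 h13
  obtain ⟨a7, b7, -, h7⟩ := h7
  obtain ⟨a9, b9, -, h9⟩ := h9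
  obtain ⟨a11, b11, -, h11⟩ := h11
  obtain ⟨a13, b13, -, h13⟩ := h13
  refine no_rational (fun i => if i = 3 then a7 / b7 else if i = 5 then a9 / b9 else
    if i = 7 then a11 / b11 else a13 / b13) fun i hi => ?_
  simp only [Finset.mem_insert, Finset.mem_singleton] at hi
  rcases hi with rfl | rfl | rfl | rfl
  · simp [h7]
  · simp [h9]
  · simp [h11]
  · simp [h13]

end Pool.Agent.OZ
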