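import Pool.Agent.OZ.Defs

/-! # The classes modulo a prime `8 m + 1 < q ≤ 16 m + 1` -/

open Finset Polynomial

namespace Pool.Agent.OZ

section TOP

variable {m q : ℕ} [hq : Fact q.Prime]

/-- number of nodes -/
def tn (m q : ℕ) : ℕ := (16 * m + 3 - q) / 2

/-- partner orders -/
def po (m q c : ℕ) : ℕ := pr m c + pr m (16 * m + 1 - q - c)

/-- multiplicities, first choice -/
def Ma (m q c : ℕ) : ℕ := if 2 * c + 1 = 16 * m + 2 - q then pr m c / 2 else po m q c / 2

/-- multiplicities, second choice -/
def Mb (m q c : ℕ) : ℕ :=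
  if 2 * c + 1 = 16 * m + 2 - q then (pr m c + 2) / 2 else (po m q c + 4) / 2

omit hq in
theorem pr_top {c : ℕ} (hc : c + q ≤ 16 * m + 1) :
    pr m (c + q) = pr m (16 * m + 1 - q - c) := by
  unfold pr
  split_ifs <;> omega

omit hq in
theorem ordc_top_aux (h8 : 8 * m + 1 < q) {c : ℕ} (hc : c + q ≤ 16 * m + 1) :
    ∑ v ∈ (range (16 * m + 1 + 1)).filter (fun v => v % q = c), pr m v = po m q c := by
  have h1 : (range (16 * m + 1 + 1)).filter (fun v => v % q = c) = {c, c + q} := by
    ext v
    rw [Finset.mem_filter, Finset.mem_range, Finset.mem_insert, Finset.mem_singleton]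
    constructor
    · rintro ⟨h1, h2⟩
      by_cases hv : v < q
      · left; rw [Nat.mod_eq_of_lt hv] at h2; exact h2
      · right
        push Not at hv
        rw [Nat.mod_eq_sub_mod hv, Nat.mod_eq_of_lt (by omega)] at h2
        omega
    · rintro (h | h)
      · subst h
        exact ⟨by omega, Nat.mod_eq_of_lt (by omega)⟩
      · subst h
        refine ⟨by omega, ?_⟩
        rw [Nat.add_mod_right]
        exact Nat.mod_eq_of_lt (by omega)
  have hne : c ≠ c + q := by omega
  rw [h1, Finset.sum_pair hne, pr_top hc]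
  rfl

omit hq in
theorem ordc_top (h8 : 8 * m + 1 < q) {c : ℕ} (hc : c + q ≤ 16 * m + 1) :
    ordc q (16 * m + 1) (pr m) c = po m q c ∧
      ordc q (16 * m + 1) (pr m) (c + q) = po m q c := by
  have hcq : c < q := by omega
  constructor
  · unfold ordc
    rw [Nat.mod_eq_of_lt hcq]
    exact ordc_top_aux h8 hc
  · unfold ordc
    rw [Nat.add_mod_right, Nat.mod_eq_of_lt hcq]
    exact ordc_top_aux h8 hc

theorem val_sub (h8 : 8 * m + 1 < q) {d : ℕ} (h0 : 0 < d) (h1 : d ≤ 16 * m + 1) :
    padicValNat q d = if d = q then 1 else 0 := by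
  split_ifs with h
  · rw [h]; exact padicValNat_self
  · refine padicValNat.eq_zero_of_not_dvd fun hd => h ?_
    obtain ⟨k, hk⟩ := hd
    have hk2 : k < 2 := by
      by_contra hc
      push Not at hc
      have : q * 2 ≤ q * k := Nat.mul_le_mul_left q hc
      omega
    interval_cases k
    · omega
    · omega

theorem val_finprod {ι : Type*} [DecidableEq ι] (s : Finset ι) (f : ι → ℕ)
    (h : ∀ i ∈ s, f i ≠ 0) :
    padicValNat q (∏ i ∈ s, f i) = ∑ i ∈ s, padicValNat q (f i) := by
  induction s using Finset.induction_on with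
  | empty => simp
  | insert a s ha ih =>
    rw [Finset.prod_insert ha, Finset.sum_insert ha,
      padicValNat.mul (h a (Finset.mem_insert_self a s))
        (Finset.prod_ne_zero_iff.mpr fun i hi => h i (Finset.mem_insert_of_mem hi)),
      ih fun i hi => h i (Finset.mem_insert_of_mem hi)]

theorem VV_top (_hm : 1 ≤ m) (h8 : 8 * m + 1 < q) (h16 : q ≤ 16 * m + 1) :
    padicValNat q (VV m) =
      ∑ c ∈ range (16 * m + 2 - q), pr m c * pr m (16 * m + 1 - q - c) := by
  have hval : padicValNat q (VV m) = ∑ u ∈ range (16 * m + 2), ∑ v ∈ range u,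
      (if v + q = u then pr m u * pr m v else 0) := by
    unfold VV
    rw [val_finprod]
    · refine Finset.sum_congr rfl fun u hu => ?_
      rw [Finset.mem_range] at hu
      rw [val_finprod]
      · refine Finset.sum_congr rfl fun v hv => ?_
        rw [Finset.mem_range] at hv
        rw [padicValNat.pow, val_sub h8 (by omega) (by omega)]
        by_cases h : v + q = u
        · rw [if_pos h, if_pos (by omega), mul_one]
        · rw [if_neg h, if_neg (by omega), mul_zero]
      · intro v hv
        rw [Finset.mem_range] at hv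
        exact pow_ne_zero _ (by omega)
    · intro u _
      refine Finset.prod_ne_zero_iff.mpr fun v hv => ?_
      rw [Finset.mem_range] at hv
      exact pow_ne_zero _ (by omega)
  rw [hval]
  have h1 : ∀ u ∈ range (16 * m + 2), ∑ v ∈ range u,
      (if v + q = u then pr m u * pr m v else 0)
      = if q ≤ u then pr m u * pr m (u - q) else 0 := by
    intro u _
    have hq0 := hq.out.pos
    by_cases h : q ≤ u
    · rw [if_pos h, Finset.sum_eq_single (u - q)]
      · rw [if_pos (by omega)]
      · intro v _ hv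
        rw [if_neg (by omega)]
      · intro hn
        exact absurd (Finset.mem_range.mpr (by omega)) hn
    · rw [if_neg h]
      refine Finset.sum_eq_zero fun v _ => ?_
      rw [if_neg (by omega)]
  rw [Finset.sum_congr rfl h1]
  have h2 : 16 * m + 2 = q + (16 * m + 2 - q) := by omega
  conv_lhs => rw [h2]
  rw [Finset.sum_range_add]
  have h3 : ∑ x ∈ range q, (if q ≤ x then pr m x * pr m (x - q) else 0) = 0 := by
    refine Finset.sum_eq_zero fun x hx => ?_
    rw [Finset.mem_range] at hx
    rw [if_neg (by omega)]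
  rw [h3, zero_add]
  refine Finset.sum_congr rfl fun c hc => ?_
  rw [Finset.mem_range] at hc
  rw [if_pos (Nat.le_add_right q c), Nat.add_sub_cancel_left, Nat.add_comm q c,
    pr_top (by omega)]
  ring

omit hq in
theorem s1_eq {n : ℕ} (hn : n ≤ 14 * m + 2) :
    (s1 m n : ℤ) = if n ≤ m then 2 * n else if n ≤ 2 * m then 6 * n - 4 * m else 10 * n - 12 * m := by
  induction n with
  | zero => simp [s1]
  | succ n ih =>
    have ih' := ih (by omega)
    have h1 : s1 m (n + 1) = s1 m n + pr m n := by
      unfold s1; rw [Finset.sum_range_succ]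
    rw [h1]
    push_cast
    rw [ih']
    unfold pr
    split_ifs <;> push_cast <;> omega

omit hq in
theorem s2_eq {n : ℕ} (hn : n ≤ 14 * m + 2) :
    (s2 m n : ℤ) = if n ≤ m then 4 * n else if n ≤ 2 * m then 36 * n - 32 * m
      else 100 * n - 160 * m := by
  induction n with
  | zero => simp [s2]
  | succ n ih =>
    have ih' := ih (by omega)
    have h1 : s2 m (n + 1) = s2 m n + pr m n ^ 2 := by
      unfold s2; rw [Finset.sum_range_succ]
    rw [h1]
    push_cast
    rw [ih']
    unfold pr
    split_ifs <;> push_cast <;> omega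

omit hq in
/-- a symmetric sum of odd length -/
theorem sum_symm_odd (h : ℕ) (f : ℕ → ℕ) (hf : ∀ c < 2 * h + 1, f (2 * h - c) = f c) :
    2 * ∑ c ∈ range (h + 1), f c = ∑ c ∈ range (2 * h + 1), f c + f h := by
  have h1 : ∑ c ∈ range (2 * h + 1), f c
      = ∑ c ∈ range (h + 1), f c + ∑ c ∈ range h, f (h + 1 + c) := by
    rw [show 2 * h + 1 = (h + 1) + h by ring, Finset.sum_range_add]
  have h2 : ∑ c ∈ range h, f (h + 1 + c) = ∑ c ∈ range h, f c := by
    rw [← Finset.sum_range_reflect]
    refine Finset.sum_congr rfl fun c hc => ?_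
    rw [Finset.mem_range] at hc
    have h3 := hf c (by omega)
    rw [← h3]
    congr 1
    omega
  rw [h1, h2, Finset.sum_range_succ]
  ring

/-- a sum over the nodes is half of the sum over all classes -/
theorem sum_tn (h2 : q ≠ 2) (h16 : q ≤ 16 * m + 1) (f : ℕ → ℕ)
    (hf : ∀ c < 16 * m + 2 - q, f (16 * m + 1 - q - c) = f c) :
    2 * ∑ c : Fin (tn m q), f c =
      ∑ c ∈ range (16 * m + 2 - q), f c + f ((16 * m + 1 - q) / 2) := by
  have hodd : q % 2 = 1 := hq.out.eq_two_or_odd.resolve_left h2
  obtain ⟨h, hh⟩ : ∃ h, 16 * m + 1 - q = 2 * h := ⟨(16 * m + 1 - q) / 2, by omega⟩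
  have e1 : tn m q = h + 1 := by unfold tn; omega
  have e2 : 16 * m + 2 - q = 2 * h + 1 := by omega
  have e3 : (16 * m + 1 - q) / 2 = h := by omega
  rw [e1, e2, e3, Fin.sum_univ_eq_sum_range f (h + 1)]
  refine sum_symm_odd h f fun c hc => ?_
  have := hf c (by omega)
  rwa [hh] at this

end TOP

end Pool.Agent.OZ
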